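import Pool.Agent.Lib.NSI.Defs

/-!
# Basic facts on trees and contexts
-/

set_option autoImplicit false

namespace NSI

variable {V T : Type}

@[simp] theorem Cx.plug_comp (c d : Cx V T) (t : Tr V T) : (c.comp d).plug t = c.plug (d.plug t) := by
  induction c with
  | hole => rfl
  | lft A c r ih => simp [Cx.comp, Cx.plug, ih]
  | rgt A l c ih => simp [Cx.comp, Cx.plug, ih]

theorem Cx.comp_assoc (c d e : Cx V T) : (c.comp d).comp e = c.comp (d.comp e) := by
  induction c with
  | hole => rfl
  | lft A c r ih => simp [Cx.comp, ih]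
  | rgt A l c ih => simp [Cx.comp, ih]

@[simp] theorem Cx.comp_hole (c : Cx V T) : c.comp .hole = c := by
  induction c with
  | hole => rfl
  | lft A c r ih => simp [Cx.comp, ih]
  | rgt A l c ih => simp [Cx.comp, ih]

@[simp] theorem Cx.hole_comp (c : Cx V T) : Cx.comp .hole c = c := rfl

@[simp] theorem Cx.root_plug (c : Cx V T) (t : Tr V T) : (c.plug t).root = c.root t.root := by
  cases c <;> rfl

@[simp] theorem Cx.root_comp (B : V) (c d : Cx V T) : (c.comp d).root B = c.root (d.root B) := by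
  cases c <;> rfl

@[simp] theorem Cx.yd_plug (c : Cx V T) (t : Tr V T) : (c.plug t).yd = c.yl ++ t.yd ++ c.yr := by
  induction c with
  | hole => simp [Cx.plug, Cx.yl, Cx.yr]
  | lft A c r ih => simp [Cx.plug, Cx.yl, Cx.yr, Tr.yd, ih]
  | rgt A l c ih => simp [Cx.plug, Cx.yl, Cx.yr, Tr.yd, ih]

@[simp] theorem Cx.yl_comp (c d : Cx V T) : (c.comp d).yl = c.yl ++ d.yl := by
  induction c with
  | hole => simp [Cx.comp, Cx.yl]
  | lft A c r ih => simp [Cx.comp, Cx.yl, ih]
  | rgt A l c ih => simp [Cx.comp, Cx.yl, ih]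

@[simp] theorem Cx.yr_comp (c d : Cx V T) : (c.comp d).yr = d.yr ++ c.yr := by
  induction c with
  | hole => simp [Cx.comp, Cx.yr]
  | lft A c r ih => simp [Cx.comp, Cx.yr, ih]
  | rgt A l c ih => simp [Cx.comp, Cx.yr, ih]

@[simp] theorem Cx.size_plug (c : Cx V T) (t : Tr V T) : (c.plug t).size = c.size + t.size := by
  induction c with
  | hole => simp [Cx.plug, Cx.size]
  | lft A c r ih => simp [Cx.plug, Cx.size, Tr.size, ih]; omega
  | rgt A l c ih => simp [Cx.plug, Cx.size, Tr.size, ih]; omega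

@[simp] theorem Cx.size_comp (c d : Cx V T) : (c.comp d).size = c.size + d.size := by
  induction c with
  | hole => simp [Cx.comp, Cx.size]
  | lft A c r ih => simp [Cx.comp, Cx.size, ih]; omega
  | rgt A l c ih => simp [Cx.comp, Cx.size, ih]; omega

@[simp] theorem Cx.depth_comp (c d : Cx V T) : (c.comp d).depth = c.depth + d.depth := by
  induction c with
  | hole => simp [Cx.comp, Cx.depth]
  | lft A c r ih => simp [Cx.comp, Cx.depth, ih]; omega
  | rgt A l c ih => simp [Cx.comp, Cx.depth, ih]; omega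

theorem Cx.size_pos {c : Cx V T} (h : c ≠ .hole) : 0 < c.size := by
  cases c with
  | hole => exact absurd rfl h
  | lft A c r => simp [Cx.size]
  | rgt A l c => simp [Cx.size]

theorem Tr.size_pos (t : Tr V T) : 0 < t.size := by
  cases t <;> simp [Tr.size]

theorem Cx.ok_plug (G : Gr V T) (c : Cx V T) (t : Tr V T) :
    (c.plug t).ok G ↔ c.ok G t.root ∧ t.ok G := by
  induction c with
  | hole => simp [Cx.plug, Cx.ok]
  | lft A c r ih => simp only [Cx.plug, Cx.ok, Tr.ok, ih, Cx.root_plug]; tauto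
  | rgt A l c ih => simp only [Cx.plug, Cx.ok, Tr.ok, ih, Cx.root_plug]; tauto

theorem Cx.ok_comp (G : Gr V T) (B : V) (c d : Cx V T) :
    (c.comp d).ok G B ↔ c.ok G (d.root B) ∧ d.ok G B := by
  induction c with
  | hole => simp [Cx.comp, Cx.ok]
  | lft A c r ih => simp only [Cx.comp, Cx.ok, ih, Cx.root_comp]; tauto
  | rgt A l c ih => simp only [Cx.comp, Cx.ok, ih, Cx.root_comp]; tauto

theorem Tr.length_yd_le (t : Tr V T) : t.yd.length ≤ 2 ^ t.ht := by
  induction t with
  | lf A x => cases x <;> simp [Tr.yd, Tr.ht]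
  | nd A l r ihl ihr =>
    simp only [Tr.yd, Tr.ht, List.length_append]
    have h1 : 2 ^ l.ht ≤ 2 ^ (max l.ht r.ht) := Nat.pow_le_pow_right (by norm_num) (le_max_left _ _)
    have h2 : 2 ^ r.ht ≤ 2 ^ (max l.ht r.ht) := Nat.pow_le_pow_right (by norm_num) (le_max_right _ _)
    rw [pow_succ]
    omega

theorem Tr.length_yd_le_size (t : Tr V T) : t.yd.length ≤ t.size := by
  induction t with
  | lf A x => cases x <;> simp [Tr.yd, Tr.size]
  | nd A l r ihl ihr => simp only [Tr.yd, Tr.size, List.length_append]; omega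

theorem Cx.length_le_size (c : Cx V T) : c.yl.length + c.yr.length ≤ c.size := by
  induction c with
  | hole => simp [Cx.yl, Cx.yr]
  | lft A c r ih =>
    have := r.length_yd_le_size
    simp only [Cx.yl, Cx.yr, Cx.size, List.length_append]; omega
  | rgt A l c ih =>
    have := l.length_yd_le_size
    simp only [Cx.yl, Cx.yr, Cx.size, List.length_append]; omega

@[simp] theorem wt_nil (ψ : T → ℤ) : wt ψ [] = 0 := by simp [wt]

@[simp] theorem wt_append (ψ : T → ℤ) (x y : List T) : wt ψ (x ++ y) = wt ψ x + wt ψ y := by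
  simp [wt]

@[simp] theorem wt_cons (ψ : T → ℤ) (x : T) (y : List T) : wt ψ (x :: y) = ψ x + wt ψ y := by
  simp [wt]

@[simp] theorem wt_replicate (ψ : T → ℤ) (x : T) (n : ℕ) :
    wt ψ (List.replicate n x) = n * ψ x := by
  simp [wt]

theorem wt_pw (ψ : T → ℤ) (u : List T) (n : ℕ) : wt ψ (pw u n) = n * wt ψ u := by
  induction n with
  | zero => simp [pw]
  | succ n ih =>
    simp only [pw, List.replicate_succ, List.flatten_cons, wt_append] at ih ⊢
    rw [ih]
    push_cast
    ring

theorem pw_succ (u : List T) (n : ℕ) : pw u (n + 1) = u ++ pw u n := by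
  simp [pw, List.replicate_succ]

@[simp] theorem pw_zero (u : List T) : pw u 0 = [] := by simp [pw]

@[simp] theorem pw_one (u : List T) : pw u 1 = u := by simp [pw]

theorem pw_add (u : List T) (n m : ℕ) : pw u (n + m) = pw u n ++ pw u m := by
  induction n with
  | zero => simp
  | succ n ih => rw [Nat.succ_add, pw_succ, ih, pw_succ, List.append_assoc]

theorem pw_succ' (u : List T) (n : ℕ) : pw u (n + 1) = pw u n ++ u := by
  rw [pw_add, pw_one]

@[simp] theorem length_pw (u : List T) (n : ℕ) : (pw u n).length = n * u.length := by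
  induction n with
  | zero => simp
  | succ n ih => rw [pw_succ, List.length_append, ih]; ring

theorem abs_wt_le {ψ : T → ℤ} (h : ∀ x, |ψ x| ≤ 1) (z : List T) : |wt ψ z| ≤ z.length := by
  induction z with
  | nil => simp
  | cons x z ih =>
    rw [wt_cons]
    have := abs_add_le (ψ x) (wt ψ z)
    have := h x
    simp only [List.length_cons, Nat.cast_add, Nat.cast_one]
    linarith

theorem cw_append (β : T → ℤ) (x y : List T) (k : ℤ) :
    cw β (x ++ y) k = cw β x k + cw β y (k + wt β x) := by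
  induction x generalizing k with
  | nil => simp [cw]
  | cons a x ih =>
    simp only [List.cons_append, cw, ih, wt_cons, Multiset.cons_add]
    rw [add_assoc]

/-- a word of letters of weight `0` has constant index -/
theorem cw_flat (β : T → ℤ) (x : List T) (k : ℤ) (h : ∀ a ∈ x, β a = 0) :
    cw β x k = (x : Multiset T).map (fun a => (a, k)) := by
  induction x with
  | nil => simp [cw]
  | cons a x ih =>
    have h1 : β a = 0 := h a (by simp)
    have h2 := ih (fun b hb => h b (by simp [hb]))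
    simp only [cw, h1, add_zero, h2]
    simp

theorem wt_flat (β : T → ℤ) (x : List T) (h : ∀ a ∈ x, β a = 0) : wt β x = 0 := by
  induction x with
  | nil => simp
  | cons a x ih =>
    rw [wt_cons, h a (by simp), ih (fun b hb => h b (by simp [hb]))]
    simp

/-- the multiset of first components of the content is the multiset of letters -/
theorem cw_map_fst (β : T → ℤ) (x : List T) (k : ℤ) : (cw β x k).map Prod.fst = (x : Multiset T) := by
  induction x generalizing k with
  | nil => simp [cw]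
  | cons a x ih => simp [cw, ih]

theorem mem_Labs_root (β : T → ℤ) (t : Tr V T) (k : ℤ) : (t.root, k) ∈ Labs β t k := by
  cases t <;> simp [Labs, Tr.root]

/-- the labels of a subtree -/
theorem Labs_plug_sub (β : T → ℤ) (c : Cx V T) (t : Tr V T) (k : ℤ) :
    Labs β t (k + wt β c.yl) ⊆ Labs β (c.plug t) k := by
  induction c generalizing k with
  | hole => simp [Cx.plug, Cx.yl]
  | lft A c r ih =>
    intro p hp
    simp only [Cx.plug, Labs, Cx.yl] at hp ⊢
    exact Or.inl (Or.inr (ih k hp))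
  | rgt A l c ih =>
    intro p hp
    simp only [Cx.plug, Labs, Cx.yl, wt_append] at hp ⊢
    right
    apply ih
    rwa [add_assoc]

/-- every label occurs at some node -/
theorem exists_of_mem_Labs (β : T → ℤ) {t : Tr V T} {k : ℤ} {p : V × ℤ} (h : p ∈ Labs β t k) :
    ∃ (c : Cx V T) (s : Tr V T), t = c.plug s ∧ p = (s.root, k + wt β c.yl) := by
  induction t generalizing k with
  | lf A x =>
    exact ⟨.hole, .lf A x, rfl, by simpa [Labs, Tr.root, Cx.yl] using h⟩
  | nd A l r ihl ihr =>
    simp only [Labs] at h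
    rcases h with (h | h) | h
    · exact ⟨.hole, .nd A l r, rfl, by simpa [Tr.root, Cx.yl] using h⟩
    · obtain ⟨c, s, rfl, rfl⟩ := ihl h
      exact ⟨.lft A c r, s, rfl, by simp [Cx.yl]⟩
    · obtain ⟨c, s, rfl, rfl⟩ := ihr h
      exact ⟨.rgt A l c, s, rfl, by simp [Cx.yl, add_assoc]⟩

theorem mem_Labs_iff (β : T → ℤ) {t : Tr V T} {k : ℤ} {p : V × ℤ} : p ∈ Labs β t k ↔
    ∃ (c : Cx V T) (s : Tr V T), t = c.plug s ∧ p = (s.root, k + wt β c.yl) := by
  constructor
  · exact exists_of_mem_Labs β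
  · rintro ⟨c, s, rfl, rfl⟩
    exact Labs_plug_sub β c s k (mem_Labs_root β s _)

/-- labels of the nodes of a context (the hole not included), when the hole is filled by something
of balance `h` -/
def LabsC (β : T → ℤ) : Cx V T → ℤ → ℤ → Set (V × ℤ)
  | .hole, _, _ => ∅
  | .lft A c r, k, h => {(A, k)} ∪ LabsC β c k h ∪ Labs β r (k + wt β c.yl + h + wt β c.yr)
  | .rgt A l c, k, h => {(A, k)} ∪ Labs β l k ∪ LabsC β c (k + wt β l.yd) h

theorem Labs_plug (β : T → ℤ) (c : Cx V T) (t : Tr V T) (k : ℤ) :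
    Labs β (c.plug t) k = LabsC β c k (wt β t.yd) ∪ Labs β t (k + wt β c.yl) := by
  induction c generalizing k with
  | hole => simp [Cx.plug, Cx.yl, LabsC]
  | lft A c r ih =>
    simp only [Cx.plug, Labs, Cx.yl, LabsC, ih, Cx.yd_plug, wt_append]
    rw [show k + (wt β c.yl + wt β t.yd + wt β c.yr) = k + wt β c.yl + wt β t.yd + wt β c.yr by ring]
    ext p
    simp only [Set.mem_union, Set.mem_singleton_iff]
    tauto
  | rgt A l c ih =>
    simp only [Cx.plug, Labs, Cx.yl, LabsC, ih, wt_append]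
    rw [← add_assoc]
    ext p
    simp only [Set.mem_union, Set.mem_singleton_iff]
    tauto

theorem LabsC_comp (β : T → ℤ) (c d : Cx V T) (k h : ℤ) :
    LabsC β (c.comp d) k h =
      LabsC β c k (wt β d.yl + h + wt β d.yr) ∪ LabsC β d (k + wt β c.yl) h := by
  induction c generalizing k with
  | hole => simp [Cx.comp, Cx.yl, LabsC]
  | lft A c r ih =>
    simp only [Cx.comp, LabsC, Cx.yl, ih, Cx.yl_comp, Cx.yr_comp, wt_append]
    rw [show k + (wt β c.yl + wt β d.yl) + h + (wt β d.yr + wt β c.yr) =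
      k + wt β c.yl + (wt β d.yl + h + wt β d.yr) + wt β c.yr by ring]
    ext p
    simp only [Set.mem_union, Set.mem_singleton_iff]
    tauto
  | rgt A l c ih =>
    simp only [Cx.comp, LabsC, Cx.yl, ih, wt_append]
    rw [← add_assoc]
    ext p
    simp only [Set.mem_union, Set.mem_singleton_iff]
    tauto

/-! ### `Bnd` -/

theorem Bnd.mono {P Q : ℕ → ℕ → Prop} (h : Bnd P) (hPQ : ∀ s N, P s N → Q s N) : Bnd Q := by
  obtain ⟨b, h1, h2, h3⟩ := h
  exact ⟨b, h1, h2, fun s => hPQ s _ (h3 s)⟩

/-- a constant bound given by an explicit function -/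
theorem Bnd.of {P : ℕ → ℕ → Prop} (b : ℕ → ℕ) (h1 : Primrec b) (h2 : Monotone b)
    (h3 : ∀ s, P s (b s)) : Bnd P := ⟨b, h1, h2, h3⟩

/-- two bounds at the same time, for properties that are monotone in the bound -/
theorem Bnd.and {P Q : ℕ → ℕ → Prop} (hP : Bnd P) (hQ : Bnd Q)
    (mP : ∀ s N N', N ≤ N' → P s N → P s N') (mQ : ∀ s N N', N ≤ N' → Q s N → Q s N') :
    Bnd (fun s N => P s N ∧ Q s N) := by
  obtain ⟨b, h1, h2, h3⟩ := hP
  obtain ⟨c, g1, g2, g3⟩ := hQ
  refine ⟨fun s => b s + c s, Primrec.nat_add.comp h1 g1, fun x y h => Nat.add_le_add (h2 h) (g2 h),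
    fun s => ⟨mP s _ _ (Nat.le_add_right _ _) (h3 s), mQ s _ _ (Nat.le_add_left _ _) (g3 s)⟩⟩

/-- composition of bounds -/
theorem Bnd.comp {P : ℕ → ℕ → Prop} (hP : Bnd P) {f : ℕ → ℕ} (h1 : Primrec f) (h2 : Monotone f) :
    Bnd (fun s N => P (f s) N) := by
  obtain ⟨b, g1, g2, g3⟩ := hP
  exact ⟨fun s => b (f s), g1.comp h1, fun x y h => g2 (h2 h), fun s => g3 (f s)⟩

theorem primrec_pow : Primrec₂ (fun a b : ℕ => a ^ b) := by
  have h0 : Primrec₂ (fun (a : ℕ) (p : ℕ × ℕ) => p.2 * a) :=
    Primrec.nat_mul.comp (Primrec.snd.comp Primrec.snd) Primrec.fst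
  have h := Primrec.nat_rec (f := fun _ : ℕ => 1) (Primrec.const 1) h0
  refine h.of_eq fun a b => ?_
  induction b with
  | zero => simp
  | succ b ih => rw [pow_succ, ← ih]

end NSI
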