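import Pool.Agent.Lib.NSI.CDefs

/-!
# C03 : finite grammars can be coded

Recipe.  `Fintype.equivFin V`, composed with a transposition such that the start symbol becomes `0`;
the lists of rules are `Finset.toList` of finite sets.  Trees are mapped to trees (define the map on
trees in both directions, by induction; `GC.lang` words only use nonterminals of rules).
-/

set_option autoImplicit false

namespace NSI

/-- map of trees -/
def C03_mp {V Γ : Type} (e : V → ℕ) (f : Γ → ℕ) : Tr V Γ → Tr ℕ ℕ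
  | .lf A x => .lf (e A) (x.map f)
  | .nd A l r => .nd (e A) (C03_mp e f l) (C03_mp e f r)

theorem C03_root {V Γ : Type} (e : V → ℕ) (f : Γ → ℕ) (t : Tr V Γ) :
    (C03_mp e f t).root = e t.root := by
  cases t <;> rfl

theorem C03_yd {V Γ : Type} (e : V → ℕ) (f : Γ → ℕ) (t : Tr V Γ) :
    (C03_mp e f t).yd = t.yd.map f := by
  induction t with
  | lf A x => cases x <;> simp [C03_mp, Tr.yd]
  | nd A l r ihl ihr => simp [C03_mp, Tr.yd, ihl, ihr]

open Classical in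
/-- the coded grammar -/
noncomputable def C03_gc {V Γ : Type} [Fintype V] [Fintype Γ] (G : Gr V Γ) (e : V → ℕ)
    (f : Γ → ℕ) : GC :=
  ((((Finset.univ : Finset (V × V × V)).filter (fun p => G.bin p.1 p.2.1 p.2.2)).toList.map
      (fun p => (e p.1, e p.2.1, e p.2.2))),
    (((Finset.univ : Finset (V × Option Γ)).filter (fun p => G.lf p.1 p.2)).toList.map
      (fun p => (e p.1, p.2.map f))))

theorem C03_mem1 {V Γ : Type} [Fintype V] [Fintype Γ] (G : Gr V Γ) (e : V → ℕ)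
    (f : Γ → ℕ) (a b c : ℕ) : (a, b, c) ∈ (C03_gc G e f).1 ↔
      ∃ A B C, G.bin A B C ∧ e A = a ∧ e B = b ∧ e C = c := by
  simp only [C03_gc, List.mem_map, Finset.mem_toList, Finset.mem_filter, Finset.mem_univ,
    true_and, Prod.mk.injEq, Prod.exists]

theorem C03_mem2 {V Γ : Type} [Fintype V] [Fintype Γ] (G : Gr V Γ) (e : V → ℕ)
    (f : Γ → ℕ) (a : ℕ) (x : Option ℕ) : (a, x) ∈ (C03_gc G e f).2 ↔
      ∃ A y, G.lf A y ∧ e A = a ∧ Option.map f y = x := by
  simp only [C03_gc, List.mem_map, Finset.mem_toList, Finset.mem_filter, Finset.mem_univ,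
    true_and, Prod.mk.injEq, Prod.exists]

theorem C03_ok1 {V Γ : Type} [Fintype V] [Fintype Γ] (G : Gr V Γ) (e : V → ℕ)
    (f : Γ → ℕ) (t : Tr V Γ) (ht : t.ok G) : (C03_mp e f t).ok (GC.toGr (C03_gc G e f)) := by
  induction t with
  | lf A x =>
    exact (C03_mem2 G e f _ _).2 ⟨A, x, ht, rfl, rfl⟩
  | nd A l r ihl ihr =>
    refine ⟨(C03_mem1 G e f _ _ _).2 ⟨A, l.root, r.root, ht.1, rfl, ?_, ?_⟩, ihl ht.2.1, ihr ht.2.2⟩
    · rw [C03_root]
    · rw [C03_root]

theorem C03_ok2 {V Γ : Type} [Fintype V] [Fintype Γ] (G : Gr V Γ) (e : V → ℕ)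
    (he : Function.Injective e) (f : Γ → ℕ) (s : Tr ℕ ℕ) (hs : s.ok (GC.toGr (C03_gc G e f))) :
    ∃ t : Tr V Γ, t.ok G ∧ C03_mp e f t = s := by
  induction s with
  | lf a x =>
    obtain ⟨A, y, h1, h2, h3⟩ := (C03_mem2 G e f _ _).1 hs
    exact ⟨.lf A y, h1, by rw [C03_mp, h2, h3]⟩
  | nd a l r ihl ihr =>
    obtain ⟨h1, h2, h3⟩ := hs
    obtain ⟨A, B, C, h4, h5, h6, h7⟩ := (C03_mem1 G e f _ _ _).1 h1
    obtain ⟨l', hl1, hl2⟩ := ihl h2
    obtain ⟨r', hr1, hr2⟩ := ihr h3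
    subst hl2
    subst hr2
    rw [C03_root] at h6 h7
    have h8 := he h6
    have h9 := he h7
    subst h8
    subst h9
    exact ⟨.nd A l' r', ⟨h4, hl1, hr1⟩, by rw [C03_mp, h5]⟩

theorem C03_code {V Γ : Type} [Fintype V] (v : V) :
    ∃ e : V → ℕ, Function.Injective e ∧ e v = 0 := by
  classical
  refine ⟨fun A => if A = v then 0 else (Fintype.equivFin V A : ℕ) + 1, ?_, by simp⟩
  intro A B hAB
  by_cases hA : A = v <;> by_cases hB : B = v
  · rw [hA, hB]
  · simp [hA, hB] at hAB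
  · simp [hA, hB] at hAB
  · simp only [hA, hB, if_false, Nat.add_right_cancel_iff] at hAB
    exact (Fintype.equivFin V).injective (Fin.ext hAB)

theorem CF.code {Γ : Type} [Fintype Γ] {L : Language Γ} (h : CF L) (f : Γ → ℕ)
    (hf : Function.Injective f) : ∃ g : GC, g.lang = {z | ∃ x ∈ L, z = x.map f} := by
  obtain ⟨V, hV, G, hG⟩ := h
  obtain ⟨e, he, he0⟩ := C03_code (Γ := Γ) G.start
  refine ⟨C03_gc G e f, ?_⟩
  ext z
  constructor
  · rintro ⟨s, hs1, hs2, hs3⟩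
    obtain ⟨t, ht1, ht2⟩ := C03_ok2 G e he f s hs1
    subst ht2
    rw [C03_root] at hs2
    have h0 : t.root = G.start := he (hs2.trans he0.symm)
    refine ⟨t.yd, ?_, ?_⟩
    · rw [← hG]
      exact ⟨t, ht1, h0, rfl⟩
    · rw [← hs3, C03_yd]
  · rintro ⟨x, hx, hz⟩
    rw [← hG] at hx
    obtain ⟨t, ht1, ht2, ht3⟩ := hx
    refine ⟨C03_mp e f t, C03_ok1 G e f t ht1, ?_, ?_⟩
    · rw [C03_root, ht2, he0]
      rfl
    · rw [C03_yd, ht3, hz]

end NSI
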