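import Pool.Agent.Lib.NSI.CDefs
import Pool.Agent.Lib.NSI.C03

/-!
# C01 : Mathlib context-free languages are generated by coded grammars

`f : α → ℕ` is an injective coding of the alphabet.

Recipe.  Let `g : ContextFreeGrammar α` with `g.language = L`; only finitely many nonterminals occur
in the rules.  Nonterminals of the weak Chomsky grammar: (i) nonterminals `A` of `g` (those that
occur in rules, and the initial one), (ii) suffixes of right-hand sides (lists of symbols), i.e.
`(rule, position)`.  Rules: `A → [rhs] [ε]`: for a rule `A → s1 ... sk` put `A → S_0 E`, `E → ε`,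
`S_i → X_i S_(i+1)`, `S_k → ε`, where `X_i` is the nonterminal `s_i` or a nonterminal with the single
rule `X_i → s_i`.  Prove the equality of languages: (⊆) by induction on trees:
`A ⇒* yield`; (⊇) `derives` to trees: show by induction on the number of steps that every
derivation of a terminal word from a sentential form `s1 ... sk` splits into derivations from the
symbols (Mathlib has `ContextFreeGrammar.Derives` API; e.g. prove: if `u.Derives w`, `w` terminal,
then `w` is a concatenation of yields of trees of the symbols of `u`, by head induction).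
Code the finitely many nonterminals injectively by natural numbers, start symbol `0`.
It may be convenient to go through `CF L` with a finite type of nonterminals and then `C03`-like
coding; do as you like.
-/

set_option autoImplicit false

namespace NSI

namespace C01

variable {α : Type} (g : ContextFreeGrammar α)

/-- the grammar whose nonterminals are sentential forms -/
def big : Gr (List (Symbol α g.NT)) α where
  start := [Symbol.nonterminal g.initial]
  bin := fun u v w => (∃ r ∈ g.rules, u = [Symbol.nonterminal r.input] ∧ v = r.output ∧ w = []) ∨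
    ∃ x y l, u = x :: y :: l ∧ v = [x] ∧ w = y :: l
  lf := fun u x => (u = [] ∧ x = none) ∨ ∃ a, u = [Symbol.terminal a] ∧ x = some a

/-- some tree with root `u` has yield `w` -/
def T (u : List (Symbol α g.NT)) (w : List α) : Prop :=
  ∃ t : Tr (List (Symbol α g.NT)) α, t.ok (big g) ∧ t.root = u ∧ t.yd = w

variable {g}

theorem T_nil : T g [] [] := ⟨.lf [] none, Or.inl ⟨rfl, rfl⟩, rfl, rfl⟩

theorem T_term (a : α) : T g [Symbol.terminal a] [a] :=
  ⟨.lf [Symbol.terminal a] (some a), Or.inr ⟨a, rfl, rfl⟩, rfl, rfl⟩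

theorem T_cons {x y : Symbol α g.NT} {l : List (Symbol α g.NT)} {w w' : List α} (h : T g [x] w)
    (h' : T g (y :: l) w') : T g (x :: y :: l) (w ++ w') := by
  obtain ⟨t, h1, h2, h3⟩ := h
  obtain ⟨t', h1', h2', h3'⟩ := h'
  refine ⟨.nd (x :: y :: l) t t', ⟨Or.inr ⟨x, y, l, rfl, h2, h2'⟩, h1, h1'⟩, rfl, ?_⟩
  rw [Tr.yd, h3, h3']

theorem T_rule {r : ContextFreeRule α g.NT} (hr : r ∈ g.rules) {w : List α}
    (h : T g r.output w) : T g [Symbol.nonterminal r.input] w := by
  obtain ⟨t, h1, h2, h3⟩ := h
  refine ⟨.nd [Symbol.nonterminal r.input] t (.lf [] none),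
    ⟨Or.inl ⟨r, hr, rfl, h2, rfl⟩, h1, Or.inl ⟨rfl, rfl⟩⟩, rfl, ?_⟩
  simp [Tr.yd, h3]

theorem T_of_nil {w : List α} (h : T g [] w) : w = [] := by
  obtain ⟨t, h1, h2, h3⟩ := h
  cases t with
  | lf A x =>
    change A = [] at h2
    subst h2
    rcases h1 with ⟨-, rfl⟩ | ⟨a, h4, -⟩
    · exact h3.symm
    · exact absurd h4 (by simp)
  | nd A l r =>
    change A = [] at h2
    subst h2
    rcases h1.1 with ⟨r, -, h4, -⟩ | ⟨x, y, l, h4, -⟩
    · exact absurd h4 (by simp)
    · exact absurd h4 (by simp)

theorem T_cons' {x : Symbol α g.NT} {l : List (Symbol α g.NT)} {w w' : List α} (h : T g [x] w)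
    (h' : T g l w') : T g (x :: l) (w ++ w') := by
  cases l with
  | nil =>
    rw [T_of_nil h', List.append_nil]
    exact h
  | cons y l => exact T_cons h h'

theorem T_split {x : Symbol α g.NT} {l : List (Symbol α g.NT)} {w : List α}
    (h : T g (x :: l) w) : ∃ w1 w2, w = w1 ++ w2 ∧ T g [x] w1 ∧ T g l w2 := by
  cases l with
  | nil => exact ⟨w, [], by simp, h, T_nil⟩
  | cons y l =>
    obtain ⟨t, h1, h2, h3⟩ := h
    cases t with
    | lf A x' =>
      change A = x :: y :: l at h2
      subst h2
      rcases h1 with ⟨h4, -⟩ | ⟨a, h4, -⟩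
      · exact absurd h4 (by simp)
      · exact absurd h4 (by simp)
    | nd A t1 t2 =>
      change A = x :: y :: l at h2
      subst h2
      obtain ⟨h4, h5, h6⟩ := h1
      rcases h4 with ⟨r, -, h4, -⟩ | ⟨x', y', l', h4, h7, h8⟩
      · exact absurd h4 (by simp)
      · injection h4 with e1 e2
        subst e1
        refine ⟨t1.yd, t2.yd, h3.symm, ⟨t1, h5, h7, rfl⟩, ⟨t2, h6, ?_, rfl⟩⟩
        rw [h8, e2]

theorem T_append {u v : List (Symbol α g.NT)} {w w' : List α} (h : T g u w) (h' : T g v w') :
    T g (u ++ v) (w ++ w') := by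
  induction u generalizing w with
  | nil =>
    rw [T_of_nil h]
    exact h'
  | cons x u ih =>
    obtain ⟨w1, w2, rfl, h1, h2⟩ := T_split h
    rw [List.cons_append, List.append_assoc]
    exact T_cons' h1 (ih h2)

theorem T_unappend {u v : List (Symbol α g.NT)} {w : List α} (h : T g (u ++ v) w) :
    ∃ w1 w2, w = w1 ++ w2 ∧ T g u w1 ∧ T g v w2 := by
  induction u generalizing w with
  | nil => exact ⟨[], w, rfl, T_nil, h⟩
  | cons x u ih =>
    obtain ⟨w1, w2, rfl, h1, h2⟩ := T_split h
    obtain ⟨w3, w4, rfl, h3, h4⟩ := ih h2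
    exact ⟨w1 ++ w3, w4, by simp, T_cons' h1 h3, h4⟩

theorem T_word (w : List α) : T g (w.map Symbol.terminal) w := by
  induction w with
  | nil => exact T_nil
  | cons a w ih => exact T_cons' (T_term a) ih

theorem T_of_derives {u : List (Symbol α g.NT)} {w : List α}
    (h : g.Derives u (w.map Symbol.terminal)) : T g u w := by
  refine Relation.ReflTransGen.head_induction_on (motive := fun u _ => T g u w) h (T_word w) ?_
  rintro u v ⟨r, hr, hrw⟩ - hT
  obtain ⟨p, q, rfl, rfl⟩ := hrw.exists_parts
  obtain ⟨w1, w3, rfl, h1, h3⟩ := T_unappend hT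
  obtain ⟨w1, w2, rfl, h1, h2⟩ := T_unappend h1
  exact T_append (T_append h1 (T_rule hr h2)) h3

theorem derives_of_tree (t : Tr (List (Symbol α g.NT)) α) (ht : t.ok (big g)) :
    g.Derives t.root (t.yd.map Symbol.terminal) := by
  induction t with
  | lf A x =>
    rcases ht with ⟨rfl, rfl⟩ | ⟨a, rfl, rfl⟩
    · exact ContextFreeGrammar.Derives.refl _
    · exact ContextFreeGrammar.Derives.refl _
  | nd A l r ihl ihr =>
    obtain ⟨h1, h2, h3⟩ := ht
    have key : g.Derives (l.root ++ r.root) ((Tr.nd A l r).yd.map Symbol.terminal) := by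
      rw [Tr.yd, List.map_append]
      exact ((ihl h2).append_right _).trans ((ihr h3).append_left _)
    change g.Derives A _
    rcases h1 with ⟨r', hr, rfl, h4, h5⟩ | ⟨x, y, l', rfl, h4, h5⟩
    · rw [h4, h5, List.append_nil] at key
      exact ContextFreeGrammar.Produces.trans_derives
        ⟨r', hr, ContextFreeRule.Rewrites.input_output⟩ key
    · rw [h4, h5] at key
      exact key

theorem T_iff {u : List (Symbol α g.NT)} {w : List α} :
    T g u w ↔ g.Derives u (w.map Symbol.terminal) := by
  constructor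
  · rintro ⟨t, h1, rfl, rfl⟩
    exact derives_of_tree t h1
  · exact T_of_derives

variable (g)

/-- the relevant sentential forms -/
def R : Set (List (Symbol α g.NT)) :=
  {u | u.Sublist [Symbol.nonterminal g.initial] ∨
    ∃ r ∈ g.rules, u.Sublist (Symbol.nonterminal r.input :: r.output)}

theorem R_finite : (R g).Finite := by
  classical
  have h : R g ⊆ (([Symbol.nonterminal g.initial].sublists.toFinset ∪
      g.rules.biUnion fun r => (Symbol.nonterminal r.input :: r.output).sublists.toFinset :
      Finset (List (Symbol α g.NT))) : Set (List (Symbol α g.NT))) := by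
    rintro u (hu | ⟨r, hr, hu⟩)
    · rw [Finset.mem_coe, Finset.mem_union, List.mem_toFinset, List.mem_sublists]
      exact Or.inl hu
    · rw [Finset.mem_coe, Finset.mem_union, Finset.mem_biUnion]
      refine Or.inr ⟨r, hr, ?_⟩
      rw [List.mem_toFinset, List.mem_sublists]
      exact hu
  exact (Finset.finite_toSet _).subset h

variable {g}

theorem R_sublist {u v : List (Symbol α g.NT)} (hu : u ∈ R g) (hv : v.Sublist u) : v ∈ R g := by
  rcases hu with hu | ⟨r, hr, hu⟩
  · exact Or.inl (hv.trans hu)
  · exact Or.inr ⟨r, hr, hv.trans hu⟩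

variable (g)

/-- the grammar with finitely many nonterminals -/
def small : Gr (R g) α where
  start := ⟨[Symbol.nonterminal g.initial], Or.inl (List.Sublist.refl _)⟩
  bin := fun u v w => (big g).bin u v w
  lf := fun u x => (big g).lf u x

variable {g}

/-- forget the restriction -/
def up : Tr (R g) α → Tr (List (Symbol α g.NT)) α
  | .lf A x => .lf A x
  | .nd A l r => .nd A (up l) (up r)

theorem up_root (t : Tr (R g) α) : (up t).root = t.root := by
  cases t <;> rfl

theorem up_yd (t : Tr (R g) α) : (up t).yd = t.yd := by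
  induction t with
  | lf A x => rfl
  | nd A l r ihl ihr => simp only [up, Tr.yd, ihl, ihr]

theorem up_ok (t : Tr (R g) α) (h : t.ok (small g)) : (up t).ok (big g) := by
  induction t with
  | lf A x => exact h
  | nd A l r ihl ihr =>
    obtain ⟨h1, h2, h3⟩ := h
    refine ⟨?_, ihl h2, ihr h3⟩
    rw [up_root, up_root]
    exact h1

theorem down (t : Tr (List (Symbol α g.NT)) α) (h : t.ok (big g)) (hR : t.root ∈ R g) :
    ∃ t' : Tr (R g) α, t'.ok (small g) ∧ up t' = t := by
  induction t with
  | lf A x => exact ⟨.lf ⟨A, hR⟩ x, h, rfl⟩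
  | nd A l r ihl ihr =>
    obtain ⟨h1, h2, h3⟩ := h
    change A ∈ R g at hR
    have hlr : l.root ∈ R g ∧ r.root ∈ R g := by
      rcases h1 with ⟨r', hr, rfl, h4, h5⟩ | ⟨x, y, l', rfl, h4, h5⟩
      · rw [h4, h5]
        exact ⟨Or.inr ⟨r', hr, List.sublist_cons_self _ _⟩,
          Or.inr ⟨r', hr, List.nil_sublist _⟩⟩
      · rw [h4, h5]
        exact ⟨R_sublist hR (List.Sublist.cons_cons _ (List.nil_sublist _)),
          R_sublist hR (List.sublist_cons_self _ _)⟩
    obtain ⟨l', hl1, hl2⟩ := ihl h2 hlr.1
    obtain ⟨r', hr1, hr2⟩ := ihr h3 hlr.2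
    refine ⟨.nd ⟨A, hR⟩ l' r', ⟨?_, hl1, hr1⟩, by simp only [up, hl2, hr2]⟩
    change (big g).bin A l'.root r'.root
    rw [← up_root, ← up_root, hl2, hr2]
    exact h1

theorem small_lang : (small g).lang = g.language := by
  ext w
  rw [ContextFreeGrammar.mem_language_iff, ← T_iff]
  constructor
  · rintro ⟨t, h1, h2, h3⟩
    refine ⟨up t, up_ok t h1, ?_, ?_⟩
    · rw [up_root, h2]
      rfl
    · rw [up_yd, h3]
  · rintro ⟨t, h1, h2, h3⟩
    obtain ⟨t', h4, rfl⟩ := down t h1 (by
      rw [h2]
      exact Or.inl (List.Sublist.refl _))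
    refine ⟨t', h4, ?_, ?_⟩
    · apply Subtype.ext
      rw [← up_root, h2]
      rfl
    · rw [← up_yd, h3]

end C01

/-- Mathlib context-free languages are generated by finite weak Chomsky grammars. -/
theorem C01_CF {α : Type} {L : Language α} (hL : L.IsContextFree) : CF L := by
  obtain ⟨g, rfl⟩ := hL
  exact ⟨C01.R g, (C01.R_finite g).fintype, C01.small g, C01.small_lang⟩

theorem cfg_to_code {α : Type} [Fintype α] (f : α → ℕ) (hf : Function.Injective f)
    (L : Language α) (hL : L.IsContextFree) :
    ∃ g : GC, g.lang = {z | ∃ x ∈ L, z = x.map f} :=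
  (C01_CF hL).code f hf

end NSI
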