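import Pool.Agent.Lib.NSI.CDefs

/-!
# C02 : weak Chomsky grammars are context-free in the sense of Mathlib

Recipe.  Given `G : Gr V Γ` with `V`, `Γ` finite, take the Mathlib grammar with `NT := V`
(universe `Type`), `initial := G.start` and the finite set of rules (use `Set.Finite.toFinset` or
`Finset.univ.filter` with classical decidability) `A → [nonterminal B, nonterminal C]` for
`G.bin A B C` and `A → (x.toList.map terminal)` for `G.lf A x`.  Trees give derivations by
induction; conversely a derivation of a terminal word from `[nonterminal A]` gives a tree: prove for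
sentential forms `u` that derive a terminal word `w` that `w` is the concatenation of yields of ok
trees with roots the symbols of `u` (head induction on the derivation).
-/

set_option autoImplicit false

namespace NSI

/-- the set of rules -/
def C02_rules {V Γ : Type} (G : Gr V Γ) : Set (ContextFreeRule Γ V) :=
  {r | (∃ A B C, G.bin A B C ∧ r = ⟨A, [Symbol.nonterminal B, Symbol.nonterminal C]⟩) ∨
    (∃ A x, G.lf A x ∧ r = ⟨A, x.toList.map Symbol.terminal⟩)}

theorem C02_finite {V Γ : Type} [Fintype V] [Fintype Γ] (G : Gr V Γ) : (C02_rules G).Finite := by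
  apply Set.Finite.subset ((Set.finite_range (fun p : V × V × V =>
    (⟨p.1, [Symbol.nonterminal p.2.1, Symbol.nonterminal p.2.2]⟩ : ContextFreeRule Γ V))).union
    (Set.finite_range (fun p : V × Option Γ =>
    (⟨p.1, p.2.toList.map Symbol.terminal⟩ : ContextFreeRule Γ V))))
  rintro r (⟨A, B, C, _, rfl⟩ | ⟨A, x, _, rfl⟩)
  · exact Or.inl ⟨(A, B, C), rfl⟩
  · exact Or.inr ⟨(A, x), rfl⟩

/-- the Mathlib grammar -/
noncomputable def C02_g {V Γ : Type} [Fintype V] [Fintype Γ] (G : Gr V Γ) :
    ContextFreeGrammar Γ where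
  NT := V
  initial := G.start
  rules := (C02_finite G).toFinset

theorem C02_der {V Γ : Type} [Fintype V] [Fintype Γ] (G : Gr V Γ) (t : Tr V Γ) (ht : t.ok G) :
    (C02_g G).Derives [Symbol.nonterminal t.root] (t.yd.map Symbol.terminal) := by
  induction t with
  | lf A x =>
    apply ContextFreeGrammar.Produces.single
    refine ⟨⟨A, x.toList.map Symbol.terminal⟩, ?_, ?_⟩
    · exact (C02_finite G).mem_toFinset.2 (Or.inr ⟨A, x, ht, rfl⟩)
    · exact ContextFreeRule.Rewrites.input_output
  | nd A l r ihl ihr =>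
    have h1 : (C02_g G).Produces [Symbol.nonterminal A]
        [Symbol.nonterminal l.root, Symbol.nonterminal r.root] := by
      refine ⟨⟨A, [Symbol.nonterminal l.root, Symbol.nonterminal r.root]⟩, ?_, ?_⟩
      · exact (C02_finite G).mem_toFinset.2 (Or.inl ⟨A, l.root, r.root, ht.1, rfl⟩)
      · exact ContextFreeRule.Rewrites.input_output
    refine h1.trans_derives ?_
    have h2 := (ihl ht.2.1).append_right [Symbol.nonterminal r.root]
    have h3 := (ihr ht.2.2).append_left (l.yd.map Symbol.terminal)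
    have h4 := h2.trans h3
    simpa [Tr.yd] using h4

/-- a word is a concatenation of yields of trees for the symbols of a sentential form -/
def C02_good {V Γ : Type} (G : Gr V Γ) : List (Symbol Γ V) → List Γ → Prop
  | [], w => w = []
  | .terminal a :: u, w => ∃ w', w = a :: w' ∧ C02_good G u w'
  | .nonterminal A :: u, w => ∃ (t : Tr V Γ) (w' : List Γ), t.ok G ∧ t.root = A ∧
      w = t.yd ++ w' ∧ C02_good G u w'

theorem C02_good_append {V Γ : Type} (G : Gr V Γ) (u v : List (Symbol Γ V)) (w : List Γ) :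
    C02_good G (u ++ v) w ↔ ∃ w1 w2, w = w1 ++ w2 ∧ C02_good G u w1 ∧ C02_good G v w2 := by
  induction u generalizing w with
  | nil =>
    simp only [List.nil_append, C02_good]
    constructor
    · intro h
      exact ⟨[], w, rfl, rfl, h⟩
    · rintro ⟨w1, w2, h1, h2, h3⟩
      subst h2
      rw [h1]
      exact h3
  | cons a u ih =>
    cases a with
    | terminal a =>
      simp only [List.cons_append, C02_good, ih]
      constructor
      · rintro ⟨w', h1, w1, w2, h2, h3, h4⟩
        exact ⟨a :: w1, w2, by rw [h1, h2]; rfl, ⟨w1, rfl, h3⟩, h4⟩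
      · rintro ⟨w1, w2, h1, ⟨w', h2, h3⟩, h4⟩
        exact ⟨w' ++ w2, by rw [h1, h2]; rfl, w', w2, rfl, h3, h4⟩
    | nonterminal A =>
      simp only [List.cons_append, C02_good, ih]
      constructor
      · rintro ⟨t, w', h0, h1, h2, w1, w2, h3, h4, h5⟩
        exact ⟨t.yd ++ w1, w2, by rw [h2, h3, List.append_assoc], ⟨t, w1, h0, h1, rfl, h4⟩, h5⟩
      · rintro ⟨w1, w2, h1, ⟨t, w', h2, h3, h4, h5⟩, h6⟩
        exact ⟨t, w' ++ w2, h2, h3, by rw [h1, h4, List.append_assoc], w', w2, rfl, h5, h6⟩

theorem C02_good_terminal {V Γ : Type} (G : Gr V Γ) (w : List Γ) :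
    C02_good G (w.map Symbol.terminal) w := by
  induction w with
  | nil => rfl
  | cons a w ih => exact ⟨w, rfl, ih⟩

theorem C02_good_terminal' {V Γ : Type} (G : Gr V Γ) (w z : List Γ)
    (h : C02_good G (w.map Symbol.terminal) z) : z = w := by
  induction w generalizing z with
  | nil => exact h
  | cons a w ih =>
    obtain ⟨w', h1, h2⟩ := h
    rw [h1, ih w' h2]

theorem C02_step {V Γ : Type} (G : Gr V Γ) (r : ContextFreeRule Γ V) (hr1 : r ∈ C02_rules G)
    (p q : List (Symbol Γ V)) (w : List Γ) (ih : C02_good G (p ++ r.output ++ q) w) :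
    C02_good G (p ++ [Symbol.nonterminal r.input] ++ q) w := by
  rw [C02_good_append] at ih
  obtain ⟨w1, w2, h2, h3, h4⟩ := ih
  rw [C02_good_append] at h3
  obtain ⟨w3, w4, h5, h6, h7⟩ := h3
  rw [C02_good_append]
  refine ⟨w1, w2, h2, ?_, h4⟩
  rw [C02_good_append]
  refine ⟨w3, w4, h5, h6, ?_⟩
  rcases hr1 with ⟨A, B, C, hb, rfl⟩ | ⟨A, x, hl, rfl⟩
  · obtain ⟨t1, w5, k1, k2, k3, t2, w6, k4, k5, k6, k7⟩ := h7
    refine ⟨.nd A t1 t2, [], ⟨?_, k1, k4⟩, rfl, ?_, rfl⟩
    · rw [k2, k5]
      exact hb
    · have : w6 = [] := k7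
      rw [k3, k6, this]
      simp [Tr.yd]
  · have h8 := C02_good_terminal' G _ _ h7
    exact ⟨.lf A x, [], hl, rfl, by rw [h8]; simp [Tr.yd], rfl⟩

theorem C02_good_of_derives {V Γ : Type} [Fintype V] [Fintype Γ] (G : Gr V Γ)
    (u : List (Symbol Γ V)) (w : List Γ)
    (h : (C02_g G).Derives u (w.map Symbol.terminal)) : C02_good G u w := by
  induction h using Relation.ReflTransGen.head_induction_on with
  | refl => exact C02_good_terminal G w
  | head h1 _ ih =>
    obtain ⟨r, hr1, hr2⟩ := h1
    obtain ⟨p, q, hp, hq⟩ := ContextFreeRule.Rewrites.exists_parts hr2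
    have h2 := C02_step G r ((C02_finite G).mem_toFinset.1 hr1) p q w
      ((congrArg (fun z => C02_good G z w) hq).mp ih)
    exact (congrArg (fun z => C02_good G z w) hp).mpr h2

theorem CF.isContextFree {Γ : Type} [Fintype Γ] {L : Language Γ} (h : CF L) : L.IsContextFree := by
  obtain ⟨V, hV, G, hG⟩ := h
  refine ⟨C02_g G, ?_⟩
  rw [← hG]
  ext w
  constructor
  · intro hw
    have h1 := C02_good_of_derives G _ _ hw
    obtain ⟨t, w', h2, h3, h4, h5⟩ := h1
    have h6 : w' = [] := h5
    refine ⟨t, h2, h3, ?_⟩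
    rw [h4, h6, List.append_nil]
  · rintro ⟨t, ht1, ht2, ht3⟩
    have h1 := C02_der G t ht1
    rw [ht2, ht3] at h1
    exact h1

end NSI
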