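import Pool.Agent.Lib.NSI.CDefs

/-!
# C04 : image of a coded grammar under a coded transducer

Recipe.  Nonterminals of the new grammar are coded by natural numbers: use `Nat.pair`.  With state
`p, q` and tag: `N0` (start) `= 0`, `pair`-codes `+ 1` of: `(0, p, A, q)`: reads a word generated by
`A` on the way from `p` to `q`; `(1, p, 0, q)` = `E(p,q)`: a path reading nothing; `(2, p, x, q)`:
one transition reading the letter `x`; `(3, p, 0, q)`: one transition reading nothing.  Rules, for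
all states `p, q, r` occurring in `τ` or `0, 1`, all rules of `g`, all transitions:
`0 → (0,0,0,q) (1,q,0,1)`;
`(0,p,A,q) → (0,p,B,r) (0,r,C,q)` for `(A,B,C) ∈ g.1`;
`(0,p,A,q) → (1,p,0,r) (2,r,x,q)` for `(A, some x) ∈ g.2`;  `(0,p,A,p) → ε` for `(A, none) ∈ g.2`;
`(1,p,0,p) → ε`;  `(1,p,0,q) → (3,p,0,r) (1,r,0,q)`;
`(2,p,x,q) → y` for `(p, some x, y, q) ∈ τ`;  `(3,p,0,q) → y` for `(p, none, y, q) ∈ τ`.
Keep the definition of `tri` as a composition of `List.map`, `List.flatMap`, `List.append`,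
`List.filterMap` so that C05 (primitive recursiveness) is easy.
Correctness: tree of the new grammar at `(0,p,A,q)` with yield `v` iff there are a `g`-tree at `A`
with yield `u` and `TRun τ p u v q'` ending right after the last input letter at `q' = q`.  (ε-moves
are made immediately before the input letters, and at the end.)  Prove the two directions by
induction; useful: every run `TRun τ p (u1 ++ u2) v q` splits, a run reading nothing is an `E`-tree.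
You may change the shape of the construction; the statement of `tri_lang` is what matters, and
`tri` must be suitable for C05.
-/

set_option autoImplicit false

namespace NSI

/-- the states that matter -/
def sts (τ : TC) : List ℕ := [0, 1] ++ τ.flatMap (fun t => [t.1, t.2.2.2])

/-- coding of the new nonterminals -/
def nn (k p A q : ℕ) : ℕ := Nat.pair (Nat.pair k p) (Nat.pair A q) + 1

/-- the grammar of the image -/
def tri (g : GC) (τ : TC) : GC :=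
  ( (sts τ).flatMap (fun q => [(0, nn 0 0 0 q, nn 1 q 0 1)])
    ++ (sts τ).flatMap (fun p => (sts τ).flatMap (fun q => (sts τ).flatMap (fun r =>
        g.1.map (fun R => (nn 0 p R.1 q, nn 0 p R.2.1 r, nn 0 r R.2.2 q))
        ++ g.2.filterMap (fun R => R.2.map (fun x => (nn 0 p R.1 q, nn 1 p 0 r, nn 2 r x q)))
        ++ [(nn 1 p 0 q, nn 3 p 0 r, nn 1 r 0 q)])))
  , (sts τ).flatMap (fun p =>
        g.2.flatMap (fun R => if R.2.isNone then [(nn 0 p R.1 p, (none : Option ℕ))] else [])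
        ++ [(nn 1 p 0 p, (none : Option ℕ))])
    ++ τ.map (fun t => (match t.2.1 with
        | some x => nn 2 t.1 x t.2.2.2
        | none => nn 3 t.1 0 t.2.2.2, t.2.2.1)) )

private theorem C04_nn_inj {k p A q k' p' A' q' : ℕ} (h : nn k p A q = nn k' p' A' q') :
    k = k' ∧ p = p' ∧ A = A' ∧ q = q' := by
  unfold nn at h
  have h1 := Nat.succ.inj h
  have h2 := Nat.pair_eq_pair.1 h1
  obtain ⟨h3, h4⟩ := Nat.pair_eq_pair.1 h2.1
  obtain ⟨h5, h6⟩ := Nat.pair_eq_pair.1 h2.2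
  exact ⟨h3, h4, h5, h6⟩

private theorem C04_nn_ne (k p A q : ℕ) : nn k p A q ≠ 0 := by
  unfold nn; omega

private theorem C04_mem_sts (τ : TC) (x : ℕ) : x ∈ sts τ ↔ x = 0 ∨ x = 1 ∨
    ∃ t ∈ τ, x = t.1 ∨ x = t.2.2.2 := by
  unfold sts
  simp [List.mem_flatMap]

private theorem C04_bin (g : GC) (τ : TC) (a b c : ℕ) : (a, b, c) ∈ (tri g τ).1 ↔
    (∃ q ∈ sts τ, a = 0 ∧ b = nn 0 0 0 q ∧ c = nn 1 q 0 1) ∨
    (∃ p ∈ sts τ, ∃ q ∈ sts τ, ∃ r ∈ sts τ,
      (∃ A B C, (A, B, C) ∈ g.1 ∧ a = nn 0 p A q ∧ b = nn 0 p B r ∧ c = nn 0 r C q) ∨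
      (∃ A x, (A, some x) ∈ g.2 ∧ a = nn 0 p A q ∧ b = nn 1 p 0 r ∧ c = nn 2 r x q) ∨
      (a = nn 1 p 0 q ∧ b = nn 3 p 0 r ∧ c = nn 1 r 0 q)) := by
  unfold tri
  simp only [List.mem_append, List.mem_flatMap, List.mem_map, List.mem_filterMap, List.mem_cons,
    List.not_mem_nil, or_false, Prod.mk.injEq, Option.map_eq_some_iff, Prod.exists]
  constructor
  · rintro (⟨q, hq, h1, h2, h3⟩ | ⟨p, hp, q, hq, r, hr, ((⟨A, B, C, hR, h⟩ | ⟨A, y, hR, x, hx, h⟩) | h)⟩)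
    · exact Or.inl ⟨q, hq, h1, h2, h3⟩
    · exact Or.inr ⟨p, hp, q, hq, r, hr, Or.inl ⟨A, B, C, hR, h.1.symm, h.2.1.symm, h.2.2.symm⟩⟩
    · subst hx
      exact Or.inr ⟨p, hp, q, hq, r, hr, Or.inr (Or.inl ⟨A, x, hR, h.1.symm, h.2.1.symm, h.2.2.symm⟩)⟩
    · exact Or.inr ⟨p, hp, q, hq, r, hr, Or.inr (Or.inr h)⟩
  · rintro (⟨q, hq, h1, h2, h3⟩ | ⟨p, hp, q, hq, r, hr, (⟨A, B, C, hR, h⟩ | ⟨A, x, hR, h⟩ | h)⟩)
    · exact Or.inl ⟨q, hq, h1, h2, h3⟩
    · exact Or.inr ⟨p, hp, q, hq, r, hr, Or.inl (Or.inl ⟨A, B, C, hR, h.1.symm, h.2.1.symm, h.2.2.symm⟩)⟩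
    · exact Or.inr ⟨p, hp, q, hq, r, hr, Or.inl (Or.inr ⟨A, some x, hR, x, rfl, h.1.symm, h.2.1.symm, h.2.2.symm⟩)⟩
    · exact Or.inr ⟨p, hp, q, hq, r, hr, Or.inr h⟩

private theorem C04_lf (g : GC) (τ : TC) (a : ℕ) (z : Option ℕ) : (a, z) ∈ (tri g τ).2 ↔
    (∃ p ∈ sts τ, (∃ A, (A, none) ∈ g.2 ∧ a = nn 0 p A p ∧ z = none) ∨ (a = nn 1 p 0 p ∧ z = none)) ∨
    (∃ p q x, (p, some x, z, q) ∈ τ ∧ a = nn 2 p x q) ∨
    (∃ p q, (p, none, z, q) ∈ τ ∧ a = nn 3 p 0 q) := by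
  unfold tri
  simp only [List.mem_append, List.mem_flatMap, List.mem_map, List.mem_cons,
    List.not_mem_nil, or_false, Prod.mk.injEq, Prod.exists]
  constructor
  · rintro (⟨p, hp, (⟨A, w, hR, h⟩ | h)⟩ | ⟨p, x, y, q, ht, h1, h2⟩)
    · cases w with
      | none => 
        simp only [Option.isNone_none, if_true, List.mem_cons, List.not_mem_nil, or_false,
          Prod.mk.injEq] at h
        exact Or.inl ⟨p, hp, Or.inl ⟨A, hR, h⟩⟩
      | some w => simp at h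
    · exact Or.inl ⟨p, hp, Or.inr h⟩
    · subst h2
      cases x with
      | none => exact Or.inr (Or.inr ⟨p, q, ht, h1.symm⟩)
      | some x => exact Or.inr (Or.inl ⟨p, q, x, ht, h1.symm⟩)
  · rintro (⟨p, hp, (⟨A, hR, h⟩ | h)⟩ | ⟨p, q, x, ht, h⟩ | ⟨p, q, ht, h⟩)
    · exact Or.inl ⟨p, hp, Or.inl ⟨A, none, hR, by simpa using h⟩⟩
    · exact Or.inl ⟨p, hp, Or.inr h⟩
    · exact Or.inr ⟨p, some x, z, q, ht, h.symm, rfl⟩
    · exact Or.inr ⟨p, none, z, q, ht, h.symm, rfl⟩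

private theorem C04_run_append (τ : TC) {p q r : ℕ} {u v u' v' : List ℕ} (h : TRun τ p u v q)
    (h' : TRun τ q u' v' r) : TRun τ p (u ++ u') (v ++ v') r := by
  induction h with
  | nil p => exact h'
  | step ht _ ih =>
    have := TRun.step ht (ih h')
    simpa [List.append_assoc] using this

private theorem C04_run_one (τ : TC) {p q : ℕ} {x y : Option ℕ} (h : (p, x, y, q) ∈ τ) :
    TRun τ p x.toList y.toList q := by
  have := TRun.step h (TRun.nil (τ := τ) q)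
  simpa using this

/-- meaning of the nonterminals -/
private def C04_Sem (g : GC) (τ : TC) (k p A q : ℕ) (v : List ℕ) : Prop :=
  (k = 0 → ∃ s : Tr ℕ ℕ, s.ok (GC.toGr g) ∧ s.root = A ∧ TRun τ p s.yd v q) ∧
  (k = 1 → TRun τ p [] v q) ∧ (k = 2 → TRun τ p [A] v q) ∧ (k = 3 → TRun τ p [] v q)

private theorem C04_sound (g : GC) (τ : TC) (t : Tr ℕ ℕ) (ht : t.ok (GC.toGr (tri g τ))) :
    ∀ k p A q, t.root = nn k p A q → C04_Sem g τ k p A q t.yd := by
  induction t with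
  | lf a z =>
    intro k p A q h
    have h1 : (a, z) ∈ (tri g τ).2 := ht
    simp only [Tr.root] at h
    subst h
    rw [C04_lf] at h1
    rcases h1 with (⟨p', hp, (⟨A', hR, h1, rfl⟩ | ⟨h1, rfl⟩)⟩ | ⟨p', q', x, h2, h1⟩ | ⟨p', q', h2, h1⟩)
    · obtain ⟨rfl, rfl, rfl, rfl⟩ := C04_nn_inj h1
      refine ⟨fun _ => ⟨.lf A none, hR, rfl, ?_⟩, by simp, by simp, by simp⟩
      exact TRun.nil (τ := τ) _
    · obtain ⟨rfl, rfl, rfl, rfl⟩ := C04_nn_inj h1
      refine ⟨by simp, fun _ => ?_, by simp, by simp⟩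
      exact TRun.nil (τ := τ) _
    · obtain ⟨rfl, rfl, rfl, rfl⟩ := C04_nn_inj h1
      refine ⟨by simp, by simp, fun _ => ?_, by simp⟩
      simpa [Tr.yd] using C04_run_one τ h2
    · obtain ⟨rfl, rfl, rfl, rfl⟩ := C04_nn_inj h1
      refine ⟨by simp, by simp, by simp, fun _ => ?_⟩
      simpa [Tr.yd] using C04_run_one τ h2
  | nd a l r ihl ihr =>
    intro k p A q h
    obtain ⟨h1, h2, h3⟩ := ht
    have h1 : (a, l.root, r.root) ∈ (tri g τ).1 := h1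
    simp only [Tr.root] at h
    subst h
    rw [C04_bin] at h1
    rcases h1 with (⟨q', hq, h1, _⟩ | ⟨p', hp, q', hq, r', hr, (⟨A', B, C, hR, h1, hl, hr'⟩ |
      ⟨A', x, hR, h1, hl, hr'⟩ | ⟨h1, hl, hr'⟩)⟩)
    · exact absurd h1 (C04_nn_ne _ _ _ _)
    · obtain ⟨rfl, rfl, rfl, rfl⟩ := C04_nn_inj h1
      obtain ⟨s1, hs1, hr1, ht1⟩ := (ihl h2 _ _ _ _ hl).1 rfl
      obtain ⟨s2, hs2, hr2, ht2⟩ := (ihr h3 _ _ _ _ hr').1 rfl
      refine ⟨fun _ => ⟨.nd A s1 s2, ⟨?_, hs1, hs2⟩, rfl, ?_⟩, by simp, by simp, by simp⟩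
      · rw [hr1, hr2]; exact hR
      · exact C04_run_append τ ht1 ht2
    · obtain ⟨rfl, rfl, rfl, rfl⟩ := C04_nn_inj h1
      have ht1 := (ihl h2 _ _ _ _ hl).2.1 rfl
      have ht2 := (ihr h3 _ _ _ _ hr').2.2.1 rfl
      refine ⟨fun _ => ⟨.lf A (some x), hR, rfl, ?_⟩, by simp, by simp, by simp⟩
      have := C04_run_append τ ht1 ht2
      simpa [Tr.yd] using this
    · obtain ⟨rfl, rfl, rfl, rfl⟩ := C04_nn_inj h1
      have ht1 := (ihl h2 _ _ _ _ hl).2.2.2 rfl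
      have ht2 := (ihr h3 _ _ _ _ hr').2.1 rfl
      refine ⟨by simp, fun _ => ?_, by simp, by simp⟩
      have := C04_run_append τ ht1 ht2
      simpa [Tr.yd] using this

private theorem C04_E (g : GC) (τ : TC) {p q : ℕ} {u v : List ℕ} (h : TRun τ p u v q)
    (hu : u = []) (hp : p ∈ sts τ) : q ∈ sts τ ∧
    ∃ t : Tr ℕ ℕ, t.ok (GC.toGr (tri g τ)) ∧ t.root = nn 1 p 0 q ∧ t.yd = v := by
  induction h with
  | nil p =>
    refine ⟨hp, .lf (nn 1 p 0 p) none, ?_, rfl, rfl⟩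
    exact (C04_lf g τ _ _).2 (Or.inl ⟨p, hp, Or.inr ⟨rfl, rfl⟩⟩)
  | @step p q r x y u v ht _ ih =>
    have hx : x = none ∧ u = [] := by
      cases x with
      | none => exact ⟨rfl, by simpa using hu⟩
      | some x => simp at hu
    obtain ⟨rfl, rfl⟩ := hx
    have hq : q ∈ sts τ := (C04_mem_sts τ q).2 (Or.inr (Or.inr ⟨_, ht, Or.inr rfl⟩))
    obtain ⟨hr, t, h1, h2, h3⟩ := ih rfl hq
    refine ⟨hr, .nd (nn 1 p 0 r) (.lf (nn 3 p 0 q) y) t, ⟨?_, ?_, h1⟩, rfl, ?_⟩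
    · show (nn 1 p 0 r, nn 3 p 0 q, t.root) ∈ (tri g τ).1
      rw [h2]
      exact (C04_bin g τ _ _ _).2 (Or.inr ⟨p, hp, r, hr, q, hq, Or.inr (Or.inr ⟨rfl, rfl, rfl⟩)⟩)
    · exact (C04_lf g τ _ _).2 (Or.inr (Or.inr ⟨p, q, ht, rfl⟩))
    · simp [Tr.yd, h3]

/-- runs whose silent moves are immediately before the letters read -/
private inductive C04_CRun (τ : TC) : ℕ → List ℕ → List ℕ → ℕ → Prop
  | nil (p : ℕ) : C04_CRun τ p [] [] p
  | step {p r q s x : ℕ} {y : Option ℕ} {u v1 v2 : List ℕ} :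
      TRun τ p [] v1 r → (r, some x, y, q) ∈ τ → C04_CRun τ q u v2 s →
      C04_CRun τ p (x :: u) (v1 ++ (y.toList ++ v2)) s

private theorem C04_canon (τ : TC) {p q : ℕ} {u v : List ℕ} (h : TRun τ p u v q) :
    ∃ r v1 v2, C04_CRun τ p u v1 r ∧ TRun τ r [] v2 q ∧ v = v1 ++ v2 := by
  induction h with
  | nil p => exact ⟨p, [], [], C04_CRun.nil p, TRun.nil p, rfl⟩
  | @step p q r x y u v ht _ ih =>
    obtain ⟨r', v1, v2, h1, h2, rfl⟩ := ih
    cases x with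
    | some x =>
      refine ⟨r', y.toList ++ v1, v2, ?_, h2, by simp⟩
      have := C04_CRun.step (TRun.nil (τ := τ) p) ht h1
      simpa using this
    | none =>
      have h3 : TRun τ p [] y.toList q := by
        have := C04_run_one τ ht
        simpa using this
      cases h1 with
      | nil =>
        refine ⟨p, [], y.toList ++ v2, ?_, ?_, by simp⟩
        · simpa using C04_CRun.nil (τ := τ) p
        · have := C04_run_append τ h3 h2
          simpa using this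
      | @step p' r1 q1 s x y' u' w1 w2 g1 g2 g3 =>
        refine ⟨r', (y.toList ++ w1) ++ (y'.toList ++ w2), v2, ?_, h2, by simp⟩
        have h4 : TRun τ p [] (y.toList ++ w1) r1 := by
          have := C04_run_append τ h3 g1
          simpa using this
        have := C04_CRun.step h4 g2 g3
        simpa using this

private theorem C04_split (τ : TC) {q : ℕ} (u1 : List ℕ) : ∀ {u2 v : List ℕ} {p : ℕ},
    C04_CRun τ p (u1 ++ u2) v q →
    ∃ r v1 v2, C04_CRun τ p u1 v1 r ∧ C04_CRun τ r u2 v2 q ∧ v = v1 ++ v2 := by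
  induction u1 with
  | nil =>
    intro u2 v p h
    exact ⟨p, [], v, C04_CRun.nil p, h, rfl⟩
  | cons x u1 ih =>
    intro u2 v p h
    rw [List.cons_append] at h
    cases h with
    | @step _ r1 q1 _ _ y _ w1 w2 g1 g2 g3 =>
      obtain ⟨r, v1, v2, h1, h2, rfl⟩ := ih g3
      refine ⟨r, w1 ++ (y.toList ++ v1), v2, C04_CRun.step g1 g2 h1, h2, by simp⟩

private theorem C04_CRun_sts (τ : TC) {p q : ℕ} {u v : List ℕ} (h : C04_CRun τ p u v q)
    (hp : p ∈ sts τ) : q ∈ sts τ := by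
  induction h with
  | nil p => exact hp
  | step _ ht _ ih => exact ih ((C04_mem_sts τ _).2 (Or.inr (Or.inr ⟨_, ht, Or.inr rfl⟩)))

private theorem C04_complete (g : GC) (τ : TC) (s : Tr ℕ ℕ) (hs : s.ok (GC.toGr g)) :
    ∀ p q v, p ∈ sts τ → C04_CRun τ p s.yd v q →
    ∃ t : Tr ℕ ℕ, t.ok (GC.toGr (tri g τ)) ∧ t.root = nn 0 p s.root q ∧ t.yd = v := by
  induction s with
  | lf A z =>
    intro p q v hp h
    have hA : (A, z) ∈ g.2 := hs
    cases z with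
    | none =>
      simp only [Tr.yd, Option.toList] at h
      cases h
      refine ⟨.lf (nn 0 p A p) none, ?_, rfl, rfl⟩
      exact (C04_lf g τ _ _).2 (Or.inl ⟨p, hp, Or.inl ⟨A, hA, rfl, rfl⟩⟩)
    | some x =>
      simp only [Tr.yd, Option.toList] at h
      cases h with
      | @step _ r1 q1 _ _ y _ w1 w2 g1 g2 g3 =>
        cases g3
        obtain ⟨hr, t, h1, h2, h3⟩ := C04_E g τ g1 rfl hp
        have hq : q ∈ sts τ := (C04_mem_sts τ q).2 (Or.inr (Or.inr ⟨_, g2, Or.inr rfl⟩))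
        refine ⟨.nd (nn 0 p A q) t (.lf (nn 2 r1 x q) y), ⟨?_, h1, ?_⟩, rfl, ?_⟩
        · show (nn 0 p A q, t.root, nn 2 r1 x q) ∈ (tri g τ).1
          rw [h2]
          exact (C04_bin g τ _ _ _).2 (Or.inr ⟨p, hp, q, hq, r1, hr,
            Or.inr (Or.inl ⟨A, x, hA, rfl, rfl, rfl⟩)⟩)
        · exact (C04_lf g τ _ _).2 (Or.inr (Or.inl ⟨r1, q, x, g2, rfl⟩))
        · simp [Tr.yd, h3]
  | nd A l r ihl ihr =>
    intro p q v hp h
    obtain ⟨h1, h2, h3⟩ := hs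
    simp only [Tr.yd] at h
    obtain ⟨m, v1, v2, g1, g2, rfl⟩ := C04_split τ l.yd h
    have hm := C04_CRun_sts τ g1 hp
    have hq := C04_CRun_sts τ g2 hm
    obtain ⟨t1, a1, a2, a3⟩ := ihl h2 p m v1 hp g1
    obtain ⟨t2, b1, b2, b3⟩ := ihr h3 m q v2 hm g2
    refine ⟨.nd (nn 0 p A q) t1 t2, ⟨?_, a1, b1⟩, rfl, by simp [Tr.yd, a3, b3]⟩
    show (nn 0 p A q, t1.root, t2.root) ∈ (tri g τ).1
    rw [a2, b2]
    exact (C04_bin g τ _ _ _).2 (Or.inr ⟨p, hp, q, hq, m, hm, Or.inl ⟨A, _, _, h1, rfl, rfl, rfl⟩⟩)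

theorem tri_lang (g : GC) (τ : TC) (v : List ℕ) :
    v ∈ (tri g τ).lang ↔ ∃ u ∈ g.lang, TRel τ u v := by
  constructor
  · rintro ⟨t, ht, hr, rfl⟩
    have hr : t.root = 0 := hr
    cases t with
    | lf a z =>
      exfalso
      simp only [Tr.root] at hr
      subst hr
      have h1 : (0, z) ∈ (tri g τ).2 := ht
      rw [C04_lf] at h1
      rcases h1 with (⟨p', hp, (⟨A', hR, h1, _⟩ | ⟨h1, _⟩)⟩ | ⟨p', q', x, h2, h1⟩ | ⟨p', q', h2, h1⟩) <;>
        exact C04_nn_ne _ _ _ _ h1.symm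
    | nd a l r =>
      simp only [Tr.root] at hr
      subst hr
      obtain ⟨h1, h2, h3⟩ := ht
      have h1 : (0, l.root, r.root) ∈ (tri g τ).1 := h1
      rw [C04_bin] at h1
      rcases h1 with (⟨q', hq, _, hl, hr'⟩ | ⟨p', hp, q', hq, r', hr, (⟨A', B, C, hR, h1, hl, hr'⟩ |
        ⟨A', x, hR, h1, hl, hr'⟩ | ⟨h1, hl, hr'⟩)⟩)
      · obtain ⟨s, hs, hsr, hrun⟩ := (C04_sound g τ l h2 _ _ _ _ hl).1 rfl
        have hrun2 := (C04_sound g τ r h3 _ _ _ _ hr').2.1 rfl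
        refine ⟨s.yd, ⟨s, hs, hsr, rfl⟩, ?_⟩
        have := C04_run_append τ hrun hrun2
        simpa [TRel, Tr.yd] using this
      all_goals exact absurd h1.symm (C04_nn_ne _ _ _ _)
  · rintro ⟨u, ⟨s, hs, hr, rfl⟩, h⟩
    have hr : s.root = 0 := hr
    obtain ⟨r, v1, v2, h1, h2, rfl⟩ := C04_canon τ h
    have h0 : 0 ∈ sts τ := (C04_mem_sts τ 0).2 (Or.inl rfl)
    have hrs := C04_CRun_sts τ h1 h0
    obtain ⟨t1, a1, a2, a3⟩ := C04_complete g τ s hs 0 r v1 h0 h1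
    obtain ⟨_, t2, b1, b2, b3⟩ := C04_E g τ h2 rfl hrs
    refine ⟨.nd 0 t1 t2, ⟨?_, a1, b1⟩, rfl, by simp [Tr.yd, a3, b3]⟩
    show (0, t1.root, t2.root) ∈ (tri g τ).1
    rw [a2, b2, hr]
    exact (C04_bin g τ _ _ _).2 (Or.inl ⟨r, hrs, rfl, rfl, rfl⟩)

end NSI
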