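import Pool.Agent.Lib.NSI.C04

/-!
# C05 : the construction is primitive recursive

Recipe.  `Primrec.list_flatMap`, `list_map`, `listFilterMap`, `list_append`, `Primrec₂.natPair`,
`Primrec.option_casesOn`, ...  If the definition of `tri` is changed in C04 this file follows.
-/

set_option autoImplicit false

namespace NSI

private theorem C05_nn {α : Type} [Primcodable α] {k p A q : α → ℕ} (hk : Primrec k)
    (hp : Primrec p) (hA : Primrec A) (hq : Primrec q) :
    Primrec (fun a => nn (k a) (p a) (A a) (q a)) := by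
  unfold nn
  exact Primrec.succ.comp (Primrec₂.natPair.comp (Primrec₂.natPair.comp hk hp)
    (Primrec₂.natPair.comp hA hq))

private theorem C05_two {α β σ : Type} [Primcodable α] [Primcodable β] [Primcodable σ]
    {f : α → β → σ} (h : Primrec (fun p : α × β => f p.1 p.2)) : Primrec₂ f := h

private theorem C05_sts : Primrec sts := by
  unfold sts
  refine Primrec.list_append.comp (Primrec.const _) ?_
  refine Primrec.list_flatMap Primrec.id ?_
  have h1 : Primrec (fun p : TC × (ℕ × Option ℕ × Option ℕ × ℕ) => p.2.1) :=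
    Primrec.fst.comp Primrec.snd
  have h2 : Primrec (fun p : TC × (ℕ × Option ℕ × Option ℕ × ℕ) => p.2.2.2.2) :=
    Primrec.snd.comp (Primrec.snd.comp (Primrec.snd.comp Primrec.snd))
  exact (Primrec.list_cons.comp h1 (Primrec.list_cons.comp h2 (Primrec.const []))).to₂

theorem tri_primrec (g : GC) : Primrec (fun τ : TC => tri g τ) := by
  unfold tri
  refine Primrec.pair ?_ ?_
  · refine Primrec.list_append.comp ?_ ?_
    · refine Primrec.list_flatMap C05_sts ?_
      have hq : Primrec (fun p : TC × ℕ => p.2) := Primrec.snd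
      have h1 : Primrec (fun p : TC × ℕ => nn 0 0 0 p.2) :=
        C05_nn (Primrec.const 0) (Primrec.const 0) (Primrec.const 0) hq
      have h2 : Primrec (fun p : TC × ℕ => nn 1 p.2 0 1) :=
        C05_nn (Primrec.const 1) hq (Primrec.const 0) (Primrec.const 1)
      exact (Primrec.list_cons.comp (Primrec.pair (Primrec.const 0) (Primrec.pair h1 h2))
        (Primrec.const [])).to₂
    · refine Primrec.list_flatMap C05_sts (C05_two ?_)
      refine Primrec.list_flatMap (C05_sts.comp Primrec.fst) (C05_two ?_)
      refine Primrec.list_flatMap (C05_sts.comp (Primrec.fst.comp Primrec.fst)) (C05_two ?_)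
      -- context: ((τ, p), q), r
      have hp : Primrec (fun x : ((TC × ℕ) × ℕ) × ℕ => x.1.1.2) :=
        Primrec.snd.comp (Primrec.fst.comp Primrec.fst)
      have hq : Primrec (fun x : ((TC × ℕ) × ℕ) × ℕ => x.1.2) := Primrec.snd.comp Primrec.fst
      have hr : Primrec (fun x : ((TC × ℕ) × ℕ) × ℕ => x.2) := Primrec.snd
      refine Primrec.list_append.comp (Primrec.list_append.comp ?_ ?_) ?_
      · refine Primrec.list_map (Primrec.const g.1) (C05_two ?_)
        have hR1 : Primrec (fun y : (((TC × ℕ) × ℕ) × ℕ) × (ℕ × ℕ × ℕ) => y.2.1) :=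
          Primrec.fst.comp Primrec.snd
        have hR2 : Primrec (fun y : (((TC × ℕ) × ℕ) × ℕ) × (ℕ × ℕ × ℕ) => y.2.2.1) :=
          Primrec.fst.comp (Primrec.snd.comp Primrec.snd)
        have hR3 : Primrec (fun y : (((TC × ℕ) × ℕ) × ℕ) × (ℕ × ℕ × ℕ) => y.2.2.2) :=
          Primrec.snd.comp (Primrec.snd.comp Primrec.snd)
        exact Primrec.pair
          (C05_nn (Primrec.const 0) (hp.comp Primrec.fst) hR1 (hq.comp Primrec.fst))
          (Primrec.pair (C05_nn (Primrec.const 0) (hp.comp Primrec.fst) hR2 (hr.comp Primrec.fst))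
            (C05_nn (Primrec.const 0) (hr.comp Primrec.fst) hR3 (hq.comp Primrec.fst)))
      · refine Primrec.listFilterMap (Primrec.const g.2) (C05_two ?_)
        refine Primrec.option_map (Primrec.snd.comp Primrec.snd) (C05_two ?_)
        have hR1 : Primrec (fun z : ((((TC × ℕ) × ℕ) × ℕ) × (ℕ × Option ℕ)) × ℕ => z.1.2.1) :=
          Primrec.fst.comp (Primrec.snd.comp Primrec.fst)
        have hx : Primrec (fun z : ((((TC × ℕ) × ℕ) × ℕ) × (ℕ × Option ℕ)) × ℕ => z.2) :=
          Primrec.snd
        have hc : Primrec (fun z : ((((TC × ℕ) × ℕ) × ℕ) × (ℕ × Option ℕ)) × ℕ => z.1.1) :=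
          Primrec.fst.comp Primrec.fst
        exact Primrec.pair
          (C05_nn (Primrec.const 0) (hp.comp hc) hR1 (hq.comp hc))
          (Primrec.pair (C05_nn (Primrec.const 1) (hp.comp hc) (Primrec.const 0) (hr.comp hc))
            (C05_nn (Primrec.const 2) (hr.comp hc) hx (hq.comp hc)))
      · exact Primrec.list_cons.comp (Primrec.pair
          (C05_nn (Primrec.const 1) hp (Primrec.const 0) hq)
          (Primrec.pair (C05_nn (Primrec.const 3) hp (Primrec.const 0) hr)
            (C05_nn (Primrec.const 1) hr (Primrec.const 0) hq))) (Primrec.const [])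
  · refine Primrec.list_append.comp ?_ ?_
    · refine Primrec.list_flatMap C05_sts (C05_two ?_)
      have hp : Primrec (fun x : TC × ℕ => x.2) := Primrec.snd
      refine Primrec.list_append.comp ?_ ?_
      · refine Primrec.list_flatMap (Primrec.const g.2) (C05_two ?_)
        have hb : Primrec (fun y : (TC × ℕ) × (ℕ × Option ℕ) => !(y.2.2.isSome)) :=
          Primrec.not.comp (Primrec.option_isSome.comp (Primrec.snd.comp Primrec.snd))
        have hv : Primrec (fun y : (TC × ℕ) × (ℕ × Option ℕ) =>
            [(nn 0 y.1.2 y.2.1 y.1.2, (none : Option ℕ))]) :=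
          Primrec.list_cons.comp (Primrec.pair (C05_nn (Primrec.const 0) (hp.comp Primrec.fst)
            (Primrec.fst.comp Primrec.snd) (hp.comp Primrec.fst)) (Primrec.const none))
            (Primrec.const [])
        refine (Primrec.cond hb hv (Primrec.const [])).of_eq ?_
        rintro ⟨⟨τ, p⟩, A, x⟩
        cases x <;> simp
      · exact Primrec.list_cons.comp (Primrec.pair
          (C05_nn (Primrec.const 1) hp (Primrec.const 0) hp) (Primrec.const none))
          (Primrec.const [])
    · refine Primrec.list_map Primrec.id (C05_two ?_)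
      refine Primrec.pair ?_ ?_
      · have h1 : Primrec (fun y : TC × (ℕ × Option ℕ × Option ℕ × ℕ) => y.2.2.1) :=
          Primrec.fst.comp (Primrec.snd.comp Primrec.snd)
        have ht1 : Primrec (fun y : TC × (ℕ × Option ℕ × Option ℕ × ℕ) => y.2.1) :=
          Primrec.fst.comp Primrec.snd
        have ht4 : Primrec (fun y : TC × (ℕ × Option ℕ × Option ℕ × ℕ) => y.2.2.2.2) :=
          Primrec.snd.comp (Primrec.snd.comp (Primrec.snd.comp Primrec.snd))
        have h2 : Primrec (fun y : TC × (ℕ × Option ℕ × Option ℕ × ℕ) =>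
            nn 3 y.2.1 0 y.2.2.2.2) :=
          C05_nn (Primrec.const 3) ht1 (Primrec.const 0) ht4
        have h3 : Primrec₂ (fun (y : TC × (ℕ × Option ℕ × Option ℕ × ℕ)) (x : ℕ) =>
            nn 2 y.2.1 x y.2.2.2.2) :=
          (C05_nn (Primrec.const 2) (ht1.comp Primrec.fst) Primrec.snd (ht4.comp Primrec.fst)).to₂
        refine (Primrec.option_casesOn h1 h2 h3).of_eq ?_
        rintro ⟨τ, p, x, y, q⟩
        cases x <;> rfl
      · exact Primrec.fst.comp (Primrec.snd.comp (Primrec.snd.comp Primrec.snd))

private theorem C05_sum : Primrec (fun l : List ℕ => l.sum) := by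
  have h := Primrec.list_foldr (f := fun l : List ℕ => l) (g := fun _ : List ℕ => (0 : ℕ))
    (h := fun _ (p : ℕ × ℕ) => p.1 + p.2) Primrec.id (Primrec.const 0)
    ((Primrec.nat_add.comp (Primrec.fst.comp Primrec.snd) (Primrec.snd.comp Primrec.snd)).to₂)
  refine h.of_eq fun l => ?_
  induction l with
  | nil => rfl
  | cons a l ih => simp only [List.foldr_cons, List.sum_cons, ih]

theorem nt_primrec : Primrec nt := by
  unfold nt
  refine Primrec.nat_add.comp (Primrec.nat_add.comp (Primrec.const 1) ?_) ?_
  · refine C05_sum.comp (Primrec.list_map Primrec.fst (C05_two ?_))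
    exact Primrec.nat_add.comp (Primrec.nat_add.comp (Primrec.fst.comp Primrec.snd)
      (Primrec.fst.comp (Primrec.snd.comp Primrec.snd)))
      (Primrec.snd.comp (Primrec.snd.comp Primrec.snd))
  · exact C05_sum.comp (Primrec.list_map Primrec.snd
      (Primrec.to₂ (Primrec.fst.comp Primrec.snd)))

end NSI
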