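import Pool.Agent.Lib.NSI.Basic

/-!
# T01 : reduction of trees with respect to a compositional valuation

Recipe.  Among all trees `t'` with `t'.ok G`, the same root and value as `t`, and all
(root, value) pairs of subtrees in `S`, take one of minimal size (Nat.find on the size, or strong
induction).  If `t' = c.plug (d.plug s)` with `d ≠ hole` and `d.plug s`, `s` have the same root and
the same value, then `c.plug s` is smaller, still ok (Cx.ok_plug), has the same root and value
(prove: if `s, s'` have the same value then `c.plug s, c.plug s'` have the same value, induction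
on `c`) and its subtrees are subtrees of `t'` or have the root and value of a subtree of `t'`.
Hence on every path of `t'` the pairs are distinct.  A tree of height `h` has a path with `h + 1`
nodes: show by induction on the tree that there is a list `l` of pairs of length `h + 1`, without
duplicates if the previous property holds, all in `S` (for example: prove directly by induction on
`t` the statement: if `t` has no repetition on paths and all pairs of subtrees of `t` lie in a
finset `S'` then `t.ht < S'.card`; for the induction step remove the pair of the root from `S'`).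
-/

set_option autoImplicit false

namespace NSI

variable {V T X : Type}

/-- compositional valuation of a tree -/
def Tr.val (f : X → X → X) (g : Option T → X) : Tr V T → X
  | .lf _ x => g x
  | .nd _ l r => f (l.val f g) (r.val f g)

private theorem val_plug_congr (f : X → X → X) (g : Option T → X) (c : Cx V T) {s s' : Tr V T}
    (h : s.val f g = s'.val f g) : (c.plug s).val f g = (c.plug s').val f g := by
  induction c with
  | hole => exact h
  | lft A c r ih => simp only [Cx.plug, Tr.val, ih]
  | rgt A l c ih => simp only [Cx.plug, Tr.val, ih]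

private theorem sub_replace (f : X → X → X) (g : Option T → X) (c : Cx V T) {s u : Tr V T}
    (hroot : u.root = s.root) (hval : u.val f g = s.val f g)
    (hsub : ∀ (e : Cx V T) (s' : Tr V T), s = e.plug s' →
      ∃ (e' : Cx V T) (s'' : Tr V T), u = e'.plug s'' ∧ s''.root = s'.root ∧
        s''.val f g = s'.val f g) :
    ∀ (c' : Cx V T) (s' : Tr V T), c.plug s = c'.plug s' →
      ∃ (c'' : Cx V T) (s'' : Tr V T), c.plug u = c''.plug s'' ∧ s''.root = s'.root ∧
        s''.val f g = s'.val f g := by
  induction c with
  | hole => intro c' s' h; exact hsub c' s' h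
  | lft A c r ih =>
    intro c' s' h
    cases c' with
    | hole =>
      refine ⟨.hole, (Cx.lft A c r).plug u, rfl, ?_, ?_⟩
      · rw [show s' = (Cx.lft A c r).plug s from h.symm]; rfl
      · rw [show s' = (Cx.lft A c r).plug s from h.symm]
        exact val_plug_congr f g _ hval
    | lft A' c1 r' =>
      simp only [Cx.plug, Tr.nd.injEq] at h
      obtain ⟨c'', s'', h1, h2, h3⟩ := ih c1 s' h.2.1
      exact ⟨.lft A c'' r, s'', by simp only [Cx.plug, h1], h2, h3⟩
    | rgt A' l' c1 =>
      simp only [Cx.plug, Tr.nd.injEq] at h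
      exact ⟨.rgt A (c.plug u) c1, s', by simp only [Cx.plug, h.2.2], rfl, rfl⟩
  | rgt A l c ih =>
    intro c' s' h
    cases c' with
    | hole =>
      refine ⟨.hole, (Cx.rgt A l c).plug u, rfl, ?_, ?_⟩
      · rw [show s' = (Cx.rgt A l c).plug s from h.symm]; rfl
      · rw [show s' = (Cx.rgt A l c).plug s from h.symm]
        exact val_plug_congr f g _ hval
    | rgt A' l' c1 =>
      simp only [Cx.plug, Tr.nd.injEq] at h
      obtain ⟨c'', s'', h1, h2, h3⟩ := ih c1 s' h.2.2
      exact ⟨.rgt A l c'', s'', by simp only [Cx.plug, h1], h2, h3⟩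
    | lft A' c1 r' =>
      simp only [Cx.plug, Tr.nd.injEq] at h
      exact ⟨.lft A c1 (c.plug u), s', by simp only [Cx.plug, h.2.1], rfl, rfl⟩

private theorem ht_lt (f : X → X → X) (g : Option T → X) (t : Tr V T) :
    ∀ (S : Finset (V × X)),
      (∀ (c d : Cx V T) (s : Tr V T), t = c.plug (d.plug s) → d ≠ .hole →
        ¬ ((d.plug s).root = s.root ∧ (d.plug s).val f g = s.val f g)) →
      (∀ (c : Cx V T) (s : Tr V T), t = c.plug s → (s.root, s.val f g) ∈ S) →
      t.ht < S.card := by
  classical
  induction t with
  | lf A x =>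
    intro S _ hS
    exact Finset.card_pos.mpr ⟨_, hS .hole _ rfl⟩
  | nd A l r ihl ihr =>
    intro S hN hS
    have hmem : ((Tr.nd A l r).root, (Tr.nd A l r).val f g) ∈ S := hS .hole _ rfl
    have hl := ihl (S.erase ((Tr.nd A l r).root, (Tr.nd A l r).val f g))
      (fun c d s h hd => hN (.lft A c r) d s (by simp only [Cx.plug, h]) hd)
      (fun c s h => by
        refine Finset.mem_erase.mpr ⟨?_, hS (.lft A c r) s (by simp only [Cx.plug, h])⟩
        intro he
        have h1 := hN .hole (.lft A c r) s (by simp only [Cx.plug, h]) (by simp)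
        rw [show (Cx.lft A c r).plug s = Tr.nd A l r by simp only [Cx.plug, h]] at h1
        exact h1 ⟨(Prod.ext_iff.mp he).1.symm, (Prod.ext_iff.mp he).2.symm⟩)
    have hr := ihr (S.erase ((Tr.nd A l r).root, (Tr.nd A l r).val f g))
      (fun c d s h hd => hN (.rgt A l c) d s (by simp only [Cx.plug, h]) hd)
      (fun c s h => by
        refine Finset.mem_erase.mpr ⟨?_, hS (.rgt A l c) s (by simp only [Cx.plug, h])⟩
        intro he
        have h1 := hN .hole (.rgt A l c) s (by simp only [Cx.plug, h]) (by simp)
        rw [show (Cx.rgt A l c).plug s = Tr.nd A l r by simp only [Cx.plug, h]] at h1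
        exact h1 ⟨(Prod.ext_iff.mp he).1.symm, (Prod.ext_iff.mp he).2.symm⟩)
    have hc : 0 < S.card := Finset.card_pos.mpr ⟨_, hmem⟩
    rw [Finset.card_erase_of_mem hmem] at hl hr
    simp only [Tr.ht]
    omega

private theorem reduce_aux (G : Gr V T) (f : X → X → X) (g : Option T → X) (S : Finset (V × X))
    (n : ℕ) : ∀ (t : Tr V T), t.size ≤ n → t.ok G →
    (∀ (c : Cx V T) (s : Tr V T), t = c.plug s → (s.root, s.val f g) ∈ S) →
    ∃ t' : Tr V T, t'.ok G ∧ t'.root = t.root ∧ t'.val f g = t.val f g ∧ t'.ht < S.card ∧
      ∀ (c : Cx V T) (s : Tr V T), t' = c.plug s → (s.root, s.val f g) ∈ S := by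
  induction n with
  | zero =>
    intro t hn
    have := t.size_pos
    omega
  | succ n ih =>
    intro t hn ht hS
    by_cases hN : ∀ (c d : Cx V T) (s : Tr V T), t = c.plug (d.plug s) → d ≠ .hole →
        ¬ ((d.plug s).root = s.root ∧ (d.plug s).val f g = s.val f g)
    · exact ⟨t, ht, rfl, rfl, ht_lt f g t S hN hS, hS⟩
    · push Not at hN
      obtain ⟨c, d, s, rfl, hd, hr, hv⟩ := hN
      have hsz : (c.plug s).size ≤ n := by
        have := Cx.size_pos hd
        simp only [Cx.size_plug] at hn ⊢
        omega
      have hok : (c.plug s).ok G := by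
        rw [Cx.ok_plug, Cx.ok_plug] at ht
        rw [Cx.ok_plug, ← hr]
        exact ⟨ht.1, ht.2.2⟩
      obtain ⟨t', h1, h2, h3, h4, h5⟩ := ih (c.plug s) hsz hok (by
        intro c' s' h
        obtain ⟨c'', s'', e1, e2, e3⟩ := sub_replace f g c (u := d.plug s) (s := s) hr hv
          (fun e s' he => ⟨d.comp e, s', by rw [Cx.plug_comp, he], rfl, rfl⟩) c' s' h
        have := hS c'' s'' e1
        rwa [e2, e3] at this)
      refine ⟨t', h1, ?_, ?_, h4, h5⟩
      · rw [h2, Cx.root_plug, Cx.root_plug, hr]
      · rw [h3]
        exact val_plug_congr f g c hv.symm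

theorem reduce (G : Gr V T) (f : X → X → X) (g : Option T → X) (t : Tr V T) (ht : t.ok G)
    (S : Finset (V × X))
    (hS : ∀ (c : Cx V T) (s : Tr V T), t = c.plug s → (s.root, s.val f g) ∈ S) :
    ∃ t' : Tr V T, t'.ok G ∧ t'.root = t.root ∧ t'.val f g = t.val f g ∧ t'.ht < S.card ∧
      ∀ (c : Cx V T) (s : Tr V T), t' = c.plug s → (s.root, s.val f g) ∈ S := by
  exact reduce_aux G f g S t.size t le_rfl ht hS

end NSI
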