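import Pool.Agent.Lib.NSI.CDefs
import Pool.Agent.Lib.NSI.T01

/-!
# C06 : membership is primitive recursive

Recipe.  For a word `z` of length `n` consider items `(A, i, j)`.  One round:
`f (g, z) S = S ++ [(A, i, i) | i ≤ n, (A, none) ∈ g.2] ++ [(A, i, i+1) | (A, some x) ∈ g.2,
z[i]? = some x] ++ [(A, i, k) | (A, B, C) ∈ g.1, (B, i, j) ∈ S, (C, j', k) ∈ S, j = j']` (only the
rules matching the nonterminals).  `z ∈ g.lang` iff `(0, 0, n)` is in the `N`-th iterate from `[]`
with `N = nt g * (n + 1) * (n + 1) + 1`.  Soundness: every item in an iterate is derived by a tree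
with yield `z[i..j)`.  Completeness: `T01.reduce` does not apply verbatim (it forgets positions), but
the same argument: define annotated trees, or apply `reduce` with the valuation into
relations: take `X = Finset (ℕ × ℕ)` or `Set (Fin (n+1) × Fin (n+1))`?  Simplest: the items derived
in at most `h + 1` rounds are exactly those with a tree of height `≤ h` (induction), and a tree of
minimal size for an item `(A, i, j)` (yield `= z[i..j)`) has height `< ` number of items, because on a
path the items `(root, i, j)` of the nodes are distinct (exchange).  Alternatively: the iterates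
increase as sets, all items lie in a finite set of size `< N`, so the iteration is stationary after
`N` rounds, and the stationary set contains all derivable items by induction on trees: this avoids
heights altogether (recommended).
Primitive recursiveness: `Primrec.nat_rec`/iterate (`Primrec.nat_iterate`), `list_flatMap`,
`listFilterMap`, `list_map`, `list_range`, `list_getElem?`, `exists_mem_list`.
-/

set_option autoImplicit false

namespace NSI

namespace C06

/-- items: nonterminal, start, end -/
abbrev Item : Type := ℕ × ℕ × ℕ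

/-- the items given by the leaf rules -/
def base (w : GC × List ℕ) : List Item :=
  w.1.2.flatMap fun R => (List.range (w.2.length + 1)).flatMap fun i =>
    if R.2 = none then [(R.1, i, i)] else if w.2[i]? = R.2 then [(R.1, i, i + 1)] else []

/-- the items given by the binary rules -/
def comb (w : GC × List ℕ) (S : List Item) : List Item :=
  w.1.1.flatMap fun R => S.flatMap fun x => S.flatMap fun y =>
    if x.1 = R.2.1 ∧ y.1 = R.2.2 ∧ x.2.2 = y.2.1 then [(R.1, x.2.1, y.2.2)] else []

/-- one round -/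
def step (w : GC × List ℕ) (S : List Item) : List Item := S ++ (base w ++ comb w S)

/-- a bound for the number of items -/
def bd (w : GC × List ℕ) : ℕ :=
  (w.1.1.length + w.1.2.length) * ((w.2.length + 1) * (w.2.length + 1)) + 1

theorem mem_base {w : GC × List ℕ} {x : Item} : x ∈ base w ↔
    (∃ A i, (A, none) ∈ w.1.2 ∧ i ≤ w.2.length ∧ x = (A, i, i)) ∨
      ∃ A a i, (A, some a) ∈ w.1.2 ∧ w.2[i]? = some a ∧ x = (A, i, i + 1) := by
  unfold base
  simp only [List.mem_flatMap, List.mem_range]
  constructor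
  · rintro ⟨⟨A, y⟩, hR, i, hi, hx⟩
    cases y with
    | none =>
      rw [if_pos rfl, List.mem_singleton] at hx
      exact Or.inl ⟨A, i, hR, Nat.lt_succ_iff.1 hi, hx⟩
    | some a =>
      rw [if_neg (by simp)] at hx
      by_cases h : w.2[i]? = some a
      · rw [if_pos h, List.mem_singleton] at hx
        exact Or.inr ⟨A, a, i, hR, h, hx⟩
      · rw [if_neg h] at hx
        simp at hx
  · rintro (⟨A, i, hR, hi, rfl⟩ | ⟨A, a, i, hR, hi, rfl⟩)
    · exact ⟨(A, none), hR, i, Nat.lt_succ_iff.2 hi, by simp⟩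
    · refine ⟨(A, some a), hR, i, ?_, by simp [hi]⟩
      have := (List.getElem?_eq_some_iff.1 hi).1
      omega

theorem mem_comb {w : GC × List ℕ} {S : List Item} {x : Item} : x ∈ comb w S ↔
    ∃ A B C i j k, (A, B, C) ∈ w.1.1 ∧ (B, i, j) ∈ S ∧ (C, j, k) ∈ S ∧ x = (A, i, k) := by
  unfold comb
  simp only [List.mem_flatMap]
  constructor
  · rintro ⟨⟨A, B, C⟩, hR, ⟨B', i, j⟩, h1, ⟨C', j', k⟩, h2, hx⟩
    by_cases h : B' = B ∧ C' = C ∧ j = j'
    · rw [if_pos h, List.mem_singleton] at hx
      obtain ⟨rfl, rfl, rfl⟩ := h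
      exact ⟨A, B', C', i, j, k, hR, h1, h2, hx⟩
    · rw [if_neg h] at hx
      simp at hx
  · rintro ⟨A, B, C, i, j, k, hR, h1, h2, rfl⟩
    exact ⟨(A, B, C), hR, (B, i, j), h1, (C, j, k), h2, by simp⟩

theorem mem_step {w : GC × List ℕ} {S : List Item} {x : Item} : x ∈ step w S ↔
    x ∈ S ∨ x ∈ base w ∨ x ∈ comb w S := by
  unfold step
  simp only [List.mem_append]

theorem step_mono {w : GC × List ℕ} {S S' : List Item} (h : ∀ x ∈ S, x ∈ S') :
    ∀ x ∈ step w S, x ∈ step w S' := by
  intro x hx
  rw [mem_step] at hx ⊢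
  rcases hx with hx | hx | hx
  · exact Or.inl (h x hx)
  · exact Or.inr (Or.inl hx)
  · rw [mem_comb] at hx ⊢
    obtain ⟨A, B, C, i, j, k, h1, h2, h3, h4⟩ := hx
    exact Or.inr (Or.inr ⟨A, B, C, i, j, k, h1, h _ h2, h _ h3, h4⟩)

/-- an item is derived by a tree -/
def Good (w : GC × List ℕ) (x : Item) : Prop :=
  ∃ (t : Tr ℕ ℕ) (a b : List ℕ), t.ok (GC.toGr w.1) ∧ t.root = x.1 ∧ w.2 = a ++ t.yd ++ b ∧
    a.length = x.2.1 ∧ (a ++ t.yd).length = x.2.2

theorem good_step {w : GC × List ℕ} {S : List Item} (h : ∀ x ∈ S, Good w x) :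
    ∀ x ∈ step w S, Good w x := by
  intro x hx
  rcases mem_step.1 hx with hx | hx | hx
  · exact h x hx
  · rcases mem_base.1 hx with ⟨A, i, hR, hi, rfl⟩ | ⟨A, a, i, hR, hi, rfl⟩
    · refine ⟨.lf A none, w.2.take i, w.2.drop i, hR, rfl, ?_, ?_, ?_⟩
      · simp [Tr.yd]
      · simp [hi]
      · simp [Tr.yd, hi]
    · have h1 := (List.getElem?_eq_some_iff.1 hi).1
      have h2 := (List.getElem?_eq_some_iff.1 hi).2
      refine ⟨.lf A (some a), w.2.take i, w.2.drop (i + 1), hR, rfl, ?_, ?_, ?_⟩
      · have h3 : w.2 = w.2.take i ++ w.2.drop i := (List.take_append_drop _ _).symm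
        have h4 : w.2.drop i = a :: w.2.drop (i + 1) := by
          rw [← h2]
          exact List.drop_eq_getElem_cons h1
        rw [h4] at h3
        simpa [Tr.yd] using h3
      · simp only [List.length_take]
        omega
      · simp only [Tr.yd, List.length_append, List.length_take, Option.toList,
          List.length_singleton]
        omega
  · obtain ⟨A, B, C, i, j, k, hR, h1, h2, rfl⟩ := mem_comb.1 hx
    obtain ⟨t1, a1, b1, ok1, r1, e1, f1, g1⟩ := h _ h1
    obtain ⟨t2, a2, b2, ok2, r2, e2, f2, g2⟩ := h _ h2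
    dsimp only at r1 f1 g1 r2 f2 g2
    have e3 : (a1 ++ t1.yd) ++ b1 = a2 ++ (t2.yd ++ b2) := by
      rw [← e1, e2, List.append_assoc]
    obtain ⟨e4, e5⟩ := List.append_inj e3 (by rw [g1, f2])
    refine ⟨.nd A t1 t2, a1, b2, ⟨?_, ok1, ok2⟩, rfl, ?_, f1, ?_⟩
    · rw [r1, r2]
      exact hR
    · rw [e2, ← e4]
      simp [Tr.yd]
    · have : a1 ++ (Tr.nd A t1 t2).yd = a2 ++ t2.yd := by
        rw [← e4]
        simp [Tr.yd]
      rw [this]
      exact g2

theorem good_iter (w : GC × List ℕ) (k : ℕ) : ∀ x ∈ (step w)^[k] [], Good w x := by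
  induction k with
  | zero => simp
  | succ k ih =>
    rw [Function.iterate_succ_apply']
    exact good_step ih

/-- the finite set of all items -/
def fin (w : GC × List ℕ) : Finset Item :=
  ((w.1.1.map Prod.fst ++ w.1.2.map Prod.fst).toFinset) ×ˢ
    (Finset.range (w.2.length + 1) ×ˢ Finset.range (w.2.length + 1))

theorem card_fin (w : GC × List ℕ) : (fin w).card < bd w := by
  unfold fin bd
  rw [Finset.card_product, Finset.card_product, Finset.card_range]
  have h : (w.1.1.map Prod.fst ++ w.1.2.map Prod.fst).toFinset.card ≤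
      w.1.1.length + w.1.2.length := by
    refine (List.toFinset_card_le _).trans ?_
    simp
  exact Nat.lt_succ_of_le (Nat.mul_le_mul_right _ h)

theorem mem_fin {w : GC × List ℕ} {x : Item} : x ∈ fin w ↔
    (x.1 ∈ w.1.1.map Prod.fst ∨ x.1 ∈ w.1.2.map Prod.fst) ∧ x.2.1 < w.2.length + 1 ∧
      x.2.2 < w.2.length + 1 := by
  unfold fin
  simp only [Finset.mem_product, List.mem_toFinset, List.mem_append, Finset.mem_range]

theorem fin_step {w : GC × List ℕ} {S : List Item} (h : ∀ x ∈ S, x ∈ fin w) :
    ∀ x ∈ step w S, x ∈ fin w := by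
  intro x hx
  rcases mem_step.1 hx with hx | hx | hx
  · exact h x hx
  · rcases mem_base.1 hx with ⟨A, i, hR, hi, rfl⟩ | ⟨A, a, i, hR, hi, rfl⟩
    · exact mem_fin.2 ⟨Or.inr (List.mem_map_of_mem hR), Nat.lt_succ_of_le hi, Nat.lt_succ_of_le hi⟩
    · have h1 := (List.getElem?_eq_some_iff.1 hi).1
      refine mem_fin.2 ⟨Or.inr (List.mem_map_of_mem hR), ?_, ?_⟩
      · dsimp only
        omega
      · dsimp only
        omega
  · obtain ⟨A, B, C, i, j, k, hR, h1, h2, rfl⟩ := mem_comb.1 hx
    exact mem_fin.2 ⟨Or.inl (List.mem_map.2 ⟨(A, B, C), hR, rfl⟩), (mem_fin.1 (h _ h1)).2.1,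
      (mem_fin.1 (h _ h2)).2.2⟩

theorem fin_iter (w : GC × List ℕ) (k : ℕ) : ∀ x ∈ (step w)^[k] [], x ∈ fin w := by
  induction k with
  | zero => simp
  | succ k ih =>
    rw [Function.iterate_succ_apply']
    exact fin_step ih

/-- nothing new -/
def Closed (w : GC × List ℕ) (S : List Item) : Prop := ∀ x ∈ step w S, x ∈ S

theorem closed_or (w : GC × List ℕ) (k : ℕ) : Closed w ((step w)^[k] []) ∨
    k ≤ ((step w)^[k] []).toFinset.card := by
  induction k with
  | zero => exact Or.inr (Nat.zero_le _)
  | succ k ih =>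
    rw [Function.iterate_succ_apply']
    set S := (step w)^[k] [] with hS
    by_cases hc : Closed w S
    · left
      intro x hx
      exact mem_step.2 (Or.inl (hc x (step_mono hc x hx)))
    · right
      have h1 := ih.resolve_left hc
      unfold Closed at hc
      push Not at hc
      obtain ⟨x, hx, hx'⟩ := hc
      have h2 : S.toFinset ⊂ (step w S).toFinset := by
        refine (Finset.ssubset_iff_of_subset ?_).2 ⟨x, List.mem_toFinset.2 hx, ?_⟩
        · intro y hy
          exact List.mem_toFinset.2 (mem_step.2 (Or.inl (List.mem_toFinset.1 hy)))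
        · intro h
          exact hx' (List.mem_toFinset.1 h)
      exact Nat.succ_le_of_lt (h1.trans_lt (Finset.card_lt_card h2))

theorem closed_bd (w : GC × List ℕ) : Closed w ((step w)^[bd w] []) := by
  rcases closed_or w (bd w) with h | h
  · exact h
  · exfalso
    have h1 : ((step w)^[bd w] []).toFinset ⊆ fin w := by
      intro x hx
      exact fin_iter w _ x (List.mem_toFinset.1 hx)
    exact absurd (h.trans (Finset.card_le_card h1)) (Nat.not_le.2 (card_fin w))

/-- completeness -/
theorem complete {w : GC × List ℕ} {S : List Item} (hS : Closed w S) (t : Tr ℕ ℕ)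
    (ht : t.ok (GC.toGr w.1)) (a b : List ℕ) (h : w.2 = a ++ t.yd ++ b) :
    (t.root, a.length, (a ++ t.yd).length) ∈ S := by
  induction t generalizing a b with
  | lf A x =>
    refine hS _ (mem_step.2 (Or.inr (Or.inl (mem_base.2 ?_))))
    cases x with
    | none =>
      left
      refine ⟨A, a.length, ht, ?_, by simp [Tr.root, Tr.yd]⟩
      rw [h]
      simp
    | some x =>
      right
      refine ⟨A, x, a.length, ht, ?_, by simp [Tr.root, Tr.yd]⟩
      rw [h]
      simp [Tr.yd]
  | nd A l r ihl ihr =>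
    obtain ⟨h1, h2, h3⟩ := ht
    have e1 := ihl h2 a (r.yd ++ b) (by rw [h]; simp [Tr.yd])
    have e2 := ihr h3 (a ++ l.yd) b (by rw [h]; simp [Tr.yd])
    refine hS _ (mem_step.2 (Or.inr (Or.inr (mem_comb.2 ?_))))
    refine ⟨A, l.root, r.root, _, _, _, h1, e1, e2, ?_⟩
    simp [Tr.root, Tr.yd]

theorem mem_lang_iff (g : GC) (z : List ℕ) : z ∈ g.lang ↔
    (0, 0, z.length) ∈ (step (g, z))^[bd (g, z)] [] := by
  constructor
  · rintro ⟨t, h1, h2, h3⟩
    have h4 := complete (closed_bd (g, z)) t h1 [] [] (by simp [h3])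
    rw [h2] at h4
    simpa [h3, GC.toGr] using h4
  · intro h
    obtain ⟨t, a, b, h1, h2, h3, h4, h5⟩ := good_iter (g, z) _ _ h
    dsimp only at h2 h3 h4 h5
    have ha : a = [] := List.eq_nil_of_length_eq_zero h4
    subst ha
    have hb : b = [] := by
      apply List.eq_nil_of_length_eq_zero
      have h6 := congrArg List.length h3
      rw [List.length_append] at h6
      omega
    subst hb
    exact ⟨t, h1, h2, by simpa using h3.symm⟩

theorem base_primrec : Primrec base := by
  unfold base
  refine Primrec.list_flatMap (Primrec.snd.comp Primrec.fst) ?_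
  refine Primrec.list_flatMap (α := (GC × List ℕ) × (ℕ × Option ℕ))
    (Primrec.list_range.comp (Primrec.succ.comp (Primrec.list_length.comp
      (Primrec.snd.comp Primrec.fst)))) ?_
  have hi : Primrec fun p : ((GC × List ℕ) × (ℕ × Option ℕ)) × ℕ => p.2 := Primrec.snd
  have hA : Primrec fun p : ((GC × List ℕ) × (ℕ × Option ℕ)) × ℕ => p.1.2.1 :=
    Primrec.fst.comp (Primrec.snd.comp Primrec.fst)
  have hx : Primrec fun p : ((GC × List ℕ) × (ℕ × Option ℕ)) × ℕ => p.1.2.2 :=
    Primrec.snd.comp (Primrec.snd.comp Primrec.fst)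
  have hz : Primrec fun p : ((GC × List ℕ) × (ℕ × Option ℕ)) × ℕ => p.1.1.2 :=
    Primrec.snd.comp (Primrec.fst.comp Primrec.fst)
  have hget : Primrec fun p : ((GC × List ℕ) × (ℕ × Option ℕ)) × ℕ => p.1.1.2[p.2]? :=
    Primrec.list_getElem?.comp hz hi
  refine Primrec.ite (Primrec.eq.comp hx (Primrec.const none)) ?_
    (Primrec.ite (Primrec.eq.comp hget hx) ?_ (Primrec.const []))
  · exact Primrec.list_cons.comp (hA.pair (hi.pair hi)) (Primrec.const [])
  · exact Primrec.list_cons.comp (hA.pair (hi.pair (Primrec.succ.comp hi))) (Primrec.const [])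

theorem comb_primrec : Primrec₂ comb := by
  unfold comb
  refine Primrec.list_flatMap (α := (GC × List ℕ) × List Item)
    (Primrec.fst.comp (Primrec.fst.comp Primrec.fst)) ?_
  refine Primrec.list_flatMap (α := ((GC × List ℕ) × List Item) × (ℕ × ℕ × ℕ))
    (Primrec.snd.comp Primrec.fst) ?_
  refine Primrec.list_flatMap (α := (((GC × List ℕ) × List Item) × (ℕ × ℕ × ℕ)) × Item)
    (Primrec.snd.comp (Primrec.fst.comp Primrec.fst)) ?_
  have hR : Primrec fun p : ((((GC × List ℕ) × List Item) × (ℕ × ℕ × ℕ)) × Item) × Item =>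
      p.1.1.2 := Primrec.snd.comp (Primrec.fst.comp Primrec.fst)
  have hx : Primrec fun p : ((((GC × List ℕ) × List Item) × (ℕ × ℕ × ℕ)) × Item) × Item =>
      p.1.2 := Primrec.snd.comp Primrec.fst
  have hy : Primrec fun p : ((((GC × List ℕ) × List Item) × (ℕ × ℕ × ℕ)) × Item) × Item =>
      p.2 := Primrec.snd
  refine Primrec.ite ?_ ?_ (Primrec.const [])
  · refine PrimrecPred.and ?_ (PrimrecPred.and ?_ ?_)
    · exact Primrec.eq.comp (Primrec.fst.comp hx) (Primrec.fst.comp (Primrec.snd.comp hR))
    · exact Primrec.eq.comp (Primrec.fst.comp hy) (Primrec.snd.comp (Primrec.snd.comp hR))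
    · exact Primrec.eq.comp (Primrec.snd.comp (Primrec.snd.comp hx))
        (Primrec.fst.comp (Primrec.snd.comp hy))
  · exact Primrec.list_cons.comp ((Primrec.fst.comp hR).pair
      ((Primrec.fst.comp (Primrec.snd.comp hx)).pair (Primrec.snd.comp (Primrec.snd.comp hy))))
      (Primrec.const [])

theorem step_primrec : Primrec₂ step := by
  unfold step
  exact Primrec.list_append.comp Primrec.snd
    (Primrec.list_append.comp (base_primrec.comp Primrec.fst)
      (comb_primrec.comp Primrec.fst Primrec.snd))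

theorem bd_primrec : Primrec bd := by
  unfold bd
  have h1 : Primrec fun w : GC × List ℕ => w.1.1.length :=
    Primrec.list_length.comp (Primrec.fst.comp Primrec.fst)
  have h2 : Primrec fun w : GC × List ℕ => w.1.2.length :=
    Primrec.list_length.comp (Primrec.snd.comp Primrec.fst)
  have h3 : Primrec fun w : GC × List ℕ => w.2.length + 1 :=
    Primrec.succ.comp (Primrec.list_length.comp Primrec.snd)
  exact Primrec.succ.comp (Primrec.nat_mul.comp (Primrec.nat_add.comp h1 h2)
    (Primrec.nat_mul.comp h3 h3))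

end C06

theorem mem_primrec : PrimrecRel (fun (g : GC) (z : List ℕ) => z ∈ g.lang) := by
  have h1 : Primrec fun w : GC × List ℕ => (C06.step w)^[C06.bd w] [] :=
    Primrec.nat_iterate C06.bd_primrec (Primrec.const []) C06.step_primrec
  have h2 : PrimrecRel fun (L : List C06.Item) (b : C06.Item) => ∃ a ∈ L, a = b :=
    PrimrecRel.exists_mem_list Primrec.eq
  have h3 : PrimrecPred fun w : GC × List ℕ => ∃ a ∈ (C06.step w)^[C06.bd w] [],
      a = ((0, 0, w.2.length) : C06.Item) :=
    h2.comp h1 ((Primrec.const 0).pair ((Primrec.const 0).pair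
      (Primrec.list_length.comp Primrec.snd)))
  refine PrimrecPred.of_eq h3 fun w => ?_
  have h4 := C06.mem_lang_iff w.1 w.2
  simp only [exists_eq_right]
  exact h4.symm

end NSI
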