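import Pool.Agent.Lib.NSI.CDefs

/-!
# C07 : all words of bounded length over `{0, ..., c - 1}`

Recipe.  `words c 0 = [[]]`, `words c (n+1) = [] :: (words c n).flatMap (fun z => (range c).map (· :: z))`.
Primrec: `Primrec.nat_rec`, `list_flatMap`, `list_map`, `list_range`.
-/

set_option autoImplicit false

namespace NSI

/-- all words over `{0, ..., c-1}` of length at most `n` -/
def words (c : ℕ) : ℕ → List (List ℕ)
  | 0 => [[]]
  | n + 1 => [] :: (words c n).flatMap (fun z => (List.range c).map (fun x => x :: z))

theorem mem_words (c n : ℕ) (z : List ℕ) : z ∈ words c n ↔ z.length ≤ n ∧ ∀ x ∈ z, x < c := by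
  induction n generalizing z with
  | zero =>
    simp only [words, List.mem_singleton, Nat.le_zero, List.length_eq_zero_iff]
    constructor
    · rintro rfl
      simp
    · exact fun h => h.1
  | succ n ih =>
    simp only [words, List.mem_cons, List.mem_flatMap, List.mem_map, List.mem_range]
    constructor
    · rintro (rfl | ⟨y, hy, x, hx, rfl⟩)
      · simp
      · rw [ih] at hy
        refine ⟨?_, ?_⟩
        · simp only [List.length_cons]
          omega
        · intro a ha
          rcases List.mem_cons.mp ha with rfl | h
          · exact hx
          · exact hy.2 a h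
    · rintro ⟨h1, h2⟩
      cases z with
      | nil => exact Or.inl rfl
      | cons x y =>
        right
        refine ⟨y, ?_, x, h2 x (by simp), rfl⟩
        rw [ih]
        simp only [List.length_cons] at h1
        exact ⟨by omega, fun a ha => h2 a (by simp [ha])⟩

theorem words_primrec (c : ℕ) : Primrec (words c) := by
  have hg : Primrec₂ (fun (z : List ℕ) (x : ℕ) => x :: z) :=
    Primrec.list_cons.comp Primrec.snd Primrec.fst
  have hm : Primrec (fun z : List ℕ => (List.range c).map (fun x => x :: z)) :=
    Primrec.list_map (Primrec.const (List.range c)) hg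
  have hf : Primrec₂ (fun (_ : ℕ) (W : List (List ℕ)) =>
      ([] : List ℕ) :: W.flatMap (fun z => (List.range c).map (fun x => x :: z))) := by
    refine Primrec.list_cons.comp (Primrec.const []) ?_
    exact Primrec.list_flatMap Primrec.snd (hm.comp Primrec.snd)
  refine (Primrec.nat_rec₁ ([[]] : List (List ℕ)) hf).of_eq fun n => ?_
  induction n with
  | zero => rfl
  | succ n ih =>
    simp only [words]
    rw [← ih]

end NSI
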