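import Pool.Agent.Lib.NSI.CDefs

/-!
# C08 : projection of a decidable relation is recursively enumerable

Recipe.  `Partrec.rfind` / `Nat.rfind` on the computable characteristic function
(`ComputablePred.computable_iff`), `Part.dom_iff`, `Partrec.dom_re`.  For `TC` encode by natural
numbers: `∃ τ, P τ ↔ ∃ n, ∃ τ, decode n = some τ ∧ P τ` (or `Denumerable`, or `Encodable`).
-/

set_option autoImplicit false

namespace NSI

theorem re_exists {α σ : Type} [Primcodable α] [Primcodable σ] (P : σ → α → Prop)
    (hP : PrimrecRel P) (E : ℕ → α) (hE : Computable E) :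
    REPred (fun x : ℕ => ∃ τ : σ, P τ (E x)) := by
  obtain ⟨hdec, hprim⟩ := hP
  have hc : Computable (fun p : σ × α => @decide (P p.1 p.2) (hdec p)) := hprim.to_comp
  let test : ℕ → ℕ → Bool := fun x n =>
    Option.casesOn (Encodable.decode n : Option σ) false (fun τ => @decide (P τ (E x)) (hdec (τ, E x)))
  have htest : Computable₂ test := by
    have h1 : Computable (fun p : ℕ × ℕ => (Encodable.decode p.2 : Option σ)) :=
      Computable.decode.comp Computable.snd
    have h2 : Computable₂ (fun (p : ℕ × ℕ) (τ : σ) => @decide (P τ (E p.1)) (hdec (τ, E p.1))) :=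
      hc.comp (Computable.pair Computable.snd (hE.comp (Computable.fst.comp Computable.fst)))
    exact Computable.option_casesOn h1 (Computable.const false) h2
  have hp : Partrec₂ (fun x n => (Part.some (test x n) : Part Bool)) := htest.partrec₂
  have hr : Partrec (fun x => Nat.rfind (fun n => (Part.some (test x n) : Part Bool))) :=
    Partrec.rfind hp
  refine hr.dom_re.of_eq fun x => ?_
  rw [Nat.rfind_dom]
  constructor
  · rintro ⟨n, hn, -⟩
    have hn' : test x n = true := by
      simpa using hn
    cases h : (Encodable.decode n : Option σ) with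
    | none =>
      simp only [test, h] at hn'
      exact absurd hn' (by simp)
    | some τ =>
      simp only [test, h] at hn'
      exact ⟨τ, @of_decide_eq_true _ (hdec (τ, E x)) hn'⟩
  · rintro ⟨τ, hτ⟩
    refine ⟨Encodable.encode τ, ?_, fun {m} _ => trivial⟩
    have : test x (Encodable.encode τ) = true := by
      simp only [test, Encodable.encodek]
      exact @decide_eq_true _ (hdec (τ, E x)) hτ
    simp [this]

end NSI
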