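import Pool.Agent.Lib.NSI.CDefs

/-!
# C09 : transducers and coded transducers

`f : α → ℕ`, `h : β → ℕ` injective codings of finite alphabets.

Recipe.  `transducer_code`: for every transition `(p, u, v, q)` of `τ` add a chain of new states
reading the letters of `u` one by one and then writing the letters of `v` one by one (a transition
`(p, [], [], q)` becomes `(p, none, none, q)`); a new initial state `0` with moves
`(0, none, none, p)` for `p ∈ init`, a new final state `1` with moves `(q, none, none, 1)` for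
`q ∈ acc`.  The finitely many states are coded by natural numbers `≥ 2`.
`code_transducer`: the states of the coded transducer are natural numbers below a bound; take
`Fin` of the bound, transitions `(p, x.toList, y.toList, q)` for `x : Option α`, `y : Option β` with
`(p, x.map f, y.map h, q) ∈ τ`.  By the hypothesis on `τ` every letter of a transition is in the
range of the codings.
-/

set_option autoImplicit false

namespace NSI

/-- all letters of the transitions are codes of letters -/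
def TCok {α β : Type} (f : α → ℕ) (h : β → ℕ) (τ : TC) : Prop :=
  ∀ t ∈ τ, (∀ x, t.2.1 = some x → x ∈ Set.range f) ∧ (∀ y, t.2.2.1 = some y → y ∈ Set.range h)

/-- the states of the coded transducer: `(u, v, q)` means: still read `u`, write `v`, go to `q` -/
abbrev C09_St (α β : Type) (n : ℕ) : Type := List α × List β × Fin n

/-- the transitions, as a set; `e` codes the states, `N` bounds the lengths -/
def C09_set {α β : Type} (f : α → ℕ) (h : β → ℕ) (τ : Transducer α β)
    (e : C09_St α β τ.n → ℕ) (N : ℕ) : Set (ℕ × Option ℕ × Option ℕ × ℕ) :=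
  {t | (∃ p ∈ τ.init, t = (0, none, none, e ([], [], p))) ∨
    (∃ q ∈ τ.acc, t = (e ([], [], q), none, none, 1)) ∨
    (∃ p u v q, (p, u, v, q) ∈ τ.trans ∧ t = (e ([], [], p), none, none, e (u, v, q))) ∨
    (∃ a u v q, (a :: u).length ≤ N ∧ v.length ≤ N ∧
      t = (e (a :: u, v, q), some (f a), none, e (u, v, q))) ∨
    (∃ b v q, (b :: v).length ≤ N ∧
      t = (e ([], b :: v, q), none, some (h b), e ([], v, q)))}

theorem C09_set_finite {α β : Type} [Finite α] [Finite β] (f : α → ℕ) (h : β → ℕ)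
    (τ : Transducer α β) (e : C09_St α β τ.n → ℕ) (N : ℕ) : (C09_set f h τ e N).Finite := by
  have hA : ({u : List α | u.length ≤ N}).Finite := List.finite_length_le α N
  have hB : ({u : List β | u.length ≤ N}).Finite := List.finite_length_le β N
  have h1 : (Set.range (fun p : Fin τ.n => ((0 : ℕ), (none : Option ℕ), (none : Option ℕ),
      e ([], [], p)))).Finite := Set.finite_range _
  have h2 : (Set.range (fun q : Fin τ.n => (e ([], [], q), (none : Option ℕ), (none : Option ℕ),
      (1 : ℕ)))).Finite := Set.finite_range _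
  have h3 : ((fun t : Fin τ.n × List α × List β × Fin τ.n =>
      (e ([], [], t.1), (none : Option ℕ), (none : Option ℕ), e (t.2.1, t.2.2.1, t.2.2.2))) ''
      τ.trans).Finite := τ.fin.image _
  have h4 : ((fun t : α × List α × List β × Fin τ.n =>
      (e (t.1 :: t.2.1, t.2.2.1, t.2.2.2), some (f t.1), (none : Option ℕ),
        e (t.2.1, t.2.2.1, t.2.2.2))) ''
      (Set.univ ×ˢ ({u : List α | u.length ≤ N} ×ˢ ({v : List β | v.length ≤ N} ×ˢ
        Set.univ)))).Finite :=
    (Set.finite_univ.prod (hA.prod (hB.prod Set.finite_univ))).image _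
  have h5 : ((fun t : β × List β × Fin τ.n =>
      (e ([], t.1 :: t.2.1, t.2.2), (none : Option ℕ), some (h t.1),
        e ([], t.2.1, t.2.2))) ''
      (Set.univ ×ˢ ({v : List β | v.length ≤ N} ×ˢ Set.univ))).Finite :=
    (Set.finite_univ.prod (hB.prod Set.finite_univ)).image _
  refine ((h1.union (h2.union (h3.union (h4.union h5))))).subset ?_
  rintro t (⟨p, _, rfl⟩ | ⟨q, _, rfl⟩ | ⟨p, u, v, q, hp, rfl⟩ | ⟨a, u, v, q, hu, hv, rfl⟩ |
    ⟨b, v, q, hv, rfl⟩)
  · exact Or.inl ⟨p, rfl⟩
  · exact Or.inr (Or.inl ⟨q, rfl⟩)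
  · exact Or.inr (Or.inr (Or.inl ⟨(p, u, v, q), hp, rfl⟩))
  · refine Or.inr (Or.inr (Or.inr (Or.inl ⟨(a, u, v, q), ⟨Set.mem_univ _, ?_, hv, Set.mem_univ _⟩,
      rfl⟩)))
    simp only [List.length_cons] at hu
    show u.length ≤ N
    omega
  · refine Or.inr (Or.inr (Or.inr (Or.inr ⟨(b, v, q), ⟨Set.mem_univ _, ?_, Set.mem_univ _⟩,
      rfl⟩)))
    simp only [List.length_cons] at hv
    show v.length ≤ N
    omega

theorem C09_code (α β : Type) [Finite α] [Finite β] (n : ℕ) :
    ∃ e : C09_St α β n → ℕ, Function.Injective e ∧ ∀ s, 2 ≤ e s := by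
  have : Countable (C09_St α β n) := inferInstance
  obtain ⟨e, he⟩ := exists_injective_nat (C09_St α β n)
  exact ⟨fun s => e s + 2, fun s t hst => he (by simpa using hst), fun s => Nat.le_add_left 2 (e s)⟩

theorem C09_bound {α β : Type} (τ : Transducer α β) :
    ∃ N : ℕ, ∀ p u v q, (p, u, v, q) ∈ τ.trans → u.length ≤ N ∧ v.length ≤ N := by
  obtain ⟨N, hN⟩ := (τ.fin.image (fun t => t.2.1.length + t.2.2.1.length)).bddAbove
  refine ⟨N, fun p u v q hp => ?_⟩
  have h1 : u.length + v.length ≤ N := hN ⟨(p, u, v, q), hp, rfl⟩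
  constructor <;> omega

theorem C09_mem {α β : Type} (f : α → ℕ) (h : β → ℕ) (τ : Transducer α β)
    (e : C09_St α β τ.n → ℕ) (N : ℕ) (σ : TC) (hσ : ∀ t, t ∈ σ ↔ t ∈ C09_set f h τ e N)
    (u : List α) (v : List β) (q : Fin τ.n) (hu : u.length ≤ N) (hv : v.length ≤ N)
    (X Y : List ℕ) (r : ℕ) (hr : TRun σ (e ([], [], q)) X Y r) :
    TRun σ (e (u, v, q)) (u.map f ++ X) (v.map h ++ Y) r := by
  induction u with
  | nil =>
    induction v with
    | nil => simpa using hr
    | cons b v ih =>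
      have h1 : (e (([] : List α), b :: v, q), (none : Option ℕ), some (h b), e ([], v, q)) ∈ σ :=
        (hσ _).2 (Or.inr (Or.inr (Or.inr (Or.inr ⟨b, v, q, hv, rfl⟩))))
      have hv' : v.length ≤ N := by
        simp only [List.length_cons] at hv
        omega
      exact TRun.step h1 (ih hv')
  | cons a u ih =>
    have h1 : (e (a :: u, v, q), some (f a), (none : Option ℕ), e (u, v, q)) ∈ σ :=
      (hσ _).2 (Or.inr (Or.inr (Or.inr (Or.inl ⟨a, u, v, q, hu, hv, rfl⟩))))
    have hu' : u.length ≤ N := by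
      simp only [List.length_cons] at hu
      omega
    exact TRun.step h1 (ih hu')

theorem C09_fwd {α β : Type} (f : α → ℕ) (h : β → ℕ) (τ : Transducer α β)
    (e : C09_St α β τ.n → ℕ) (N : ℕ) (σ : TC) (hσ : ∀ t, t ∈ σ ↔ t ∈ C09_set f h τ e N)
    (hN : ∀ p u v q, (p, u, v, q) ∈ τ.trans → u.length ≤ N ∧ v.length ≤ N)
    {p q : Fin τ.n} {x : List α} {y : List β} (hr : τ.Run p x y q) (X Y : List ℕ) (r : ℕ)
    (hq : TRun σ (e ([], [], q)) X Y r) :
    TRun σ (e ([], [], p)) (x.map f ++ X) (y.map h ++ Y) r := by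
  induction hr with
  | nil p => simpa using hq
  | @step p q r' u x v y ht _ ih =>
    have h1 := ih hq
    obtain ⟨hu, hv⟩ := hN _ _ _ _ ht
    have h2 := C09_mem f h τ e N σ hσ u v q hu hv _ _ r h1
    have h3 : (e (([] : List α), ([] : List β), p), (none : Option ℕ), (none : Option ℕ),
        e (u, v, q)) ∈ σ := (hσ _).2 (Or.inr (Or.inr (Or.inl ⟨p, u, v, q, ht, rfl⟩)))
    have h4 := TRun.step h3 h2
    simpa using h4

/-- what a run to the final state looks like -/
theorem C09_bwd {α β : Type} (f : α → ℕ) (h : β → ℕ) (τ : Transducer α β)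
    (e : C09_St α β τ.n → ℕ) (he : Function.Injective e) (he2 : ∀ s, 2 ≤ e s)
    (N : ℕ) (σ : TC) (hσ : ∀ t, t ∈ σ ↔ t ∈ C09_set f h τ e N)
    {s r : ℕ} {X Y : List ℕ} (hr : TRun σ s X Y r) (hr1 : r = 1) :
    (∀ (u : List α) (v : List β) (q : Fin τ.n), s = e (u, v, q) →
      ∃ (x : List α) (y : List β), X = (u ++ x).map f ∧ Y = (v ++ y).map h ∧
        ∃ q' ∈ τ.acc, τ.Run q x y q') ∧
    (s = 1 → X = [] ∧ Y = []) ∧
    (s = 0 → ∃ (x : List α) (y : List β), X = x.map f ∧ Y = y.map h ∧
      ∃ p ∈ τ.init, ∃ q' ∈ τ.acc, τ.Run p x y q') := by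
  induction hr with
  | nil p =>
    subst hr1
    refine ⟨fun u v q hs => ?_, fun _ => ⟨rfl, rfl⟩, fun hs => ?_⟩
    · have := he2 (u, v, q)
      omega
    · omega
  | @step p q r' a b X Y ht _ ih =>
    obtain ⟨ih1, ih2, ih3⟩ := ih hr1
    rcases (hσ _).1 ht with ⟨p0, hp0, h1⟩ | ⟨q0, hq0, h1⟩ | ⟨p0, u0, v0, q0, ht0, h1⟩ |
      ⟨a0, u0, v0, q0, hu0, hv0, h1⟩ | ⟨b0, v0, q0, hv0, h1⟩
    · simp only [Prod.mk.injEq] at h1
      obtain ⟨rfl, rfl, rfl, h2⟩ := h1
      refine ⟨fun u v q1 hs => ?_, fun hs => ?_, fun _ => ?_⟩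
      · have := he2 (u, v, q1)
        omega
      · omega
      · obtain ⟨x, y, k1, k2, q', k3, k4⟩ := ih1 [] [] p0 h2
        exact ⟨x, y, by simpa using k1, by simpa using k2, p0, hp0, q', k3, k4⟩
    · simp only [Prod.mk.injEq] at h1
      obtain ⟨rfl, rfl, rfl, h2⟩ := h1
      obtain ⟨k1, k2⟩ := ih2 h2
      refine ⟨fun u v q1 hs => ?_, fun hs => ?_, fun hs => ?_⟩
      · have h3 := he hs
        simp only [Prod.mk.injEq] at h3
        obtain ⟨rfl, rfl, rfl⟩ := h3
        exact ⟨[], [], by simp [k1], by simp [k2], q0, hq0, Transducer.Run.nil q0⟩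
      · have := he2 (([] : List α), ([] : List β), q0)
        omega
      · have := he2 (([] : List α), ([] : List β), q0)
        omega
    · simp only [Prod.mk.injEq] at h1
      obtain ⟨rfl, rfl, rfl, h2⟩ := h1
      refine ⟨fun u v q1 hs => ?_, fun hs => ?_, fun hs => ?_⟩
      · have h3 := he hs
        simp only [Prod.mk.injEq] at h3
        obtain ⟨rfl, rfl, rfl⟩ := h3
        obtain ⟨x, y, k1, k2, q', k3, k4⟩ := ih1 u0 v0 q0 h2
        exact ⟨u0 ++ x, v0 ++ y, by simpa using k1, by simpa using k2, q', k3,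
          Transducer.Run.step ht0 k4⟩
      · have := he2 (([] : List α), ([] : List β), p0)
        omega
      · have := he2 (([] : List α), ([] : List β), p0)
        omega
    · simp only [Prod.mk.injEq] at h1
      obtain ⟨rfl, rfl, rfl, h2⟩ := h1
      refine ⟨fun u v q1 hs => ?_, fun hs => ?_, fun hs => ?_⟩
      · have h3 := he hs
        simp only [Prod.mk.injEq] at h3
        obtain ⟨rfl, rfl, rfl⟩ := h3
        obtain ⟨x, y, k1, k2, q', k3, k4⟩ := ih1 u0 v0 q0 h2
        exact ⟨x, y, by simp [k1], by simpa using k2, q', k3, k4⟩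
      · have := he2 (a0 :: u0, v0, q0)
        omega
      · have := he2 (a0 :: u0, v0, q0)
        omega
    · simp only [Prod.mk.injEq] at h1
      obtain ⟨rfl, rfl, rfl, h2⟩ := h1
      refine ⟨fun u v q1 hs => ?_, fun hs => ?_, fun hs => ?_⟩
      · have h3 := he hs
        simp only [Prod.mk.injEq] at h3
        obtain ⟨rfl, rfl, rfl⟩ := h3
        obtain ⟨x, y, k1, k2, q', k3, k4⟩ := ih1 [] v0 q0 h2
        exact ⟨x, y, by simpa using k1, by simp [k2], q', k3, k4⟩
      · have := he2 (([] : List α), b0 :: v0, q0)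
        omega
      · have := he2 (([] : List α), b0 :: v0, q0)
        omega

theorem transducer_code {α β : Type} [Fintype α] [Fintype β] (f : α → ℕ) (h : β → ℕ)
    (hf : Function.Injective f) (hh : Function.Injective h) (τ : Transducer α β) :
    ∃ σ : TC, TCok f h σ ∧ ∀ (x : List α) (y : List β),
      TRel σ (x.map f) (y.map h) ↔ τ.Rel x y := by
  obtain ⟨e, he, he2⟩ := C09_code α β τ.n
  obtain ⟨N, hN⟩ := C09_bound τ
  have hσ : ∀ t, t ∈ (C09_set_finite f h τ e N).toFinset.toList ↔ t ∈ C09_set f h τ e N := by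
    intro t
    rw [Finset.mem_toList, Set.Finite.mem_toFinset]
  refine ⟨(C09_set_finite f h τ e N).toFinset.toList, ?_, ?_⟩
  · intro t ht
    rcases (hσ t).1 ht with ⟨p0, hp0, rfl⟩ | ⟨q0, hq0, rfl⟩ | ⟨p0, u0, v0, q0, ht0, rfl⟩ |
      ⟨a0, u0, v0, q0, hu0, hv0, rfl⟩ | ⟨b0, v0, q0, hv0, rfl⟩
    · exact ⟨fun x hx => by simp at hx, fun y hy => by simp at hy⟩
    · exact ⟨fun x hx => by simp at hx, fun y hy => by simp at hy⟩
    · exact ⟨fun x hx => by simp at hx, fun y hy => by simp at hy⟩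
    · exact ⟨fun x hx => ⟨a0, by simpa using hx⟩, fun y hy => by simp at hy⟩
    · exact ⟨fun x hx => by simp at hx, fun y hy => ⟨b0, by simpa using hy⟩⟩
  · intro x y
    constructor
    · intro hr
      obtain ⟨x', y', k1, k2, p, hp, q, hq, k3⟩ := (C09_bwd f h τ e he he2 N _ hσ hr rfl).2.2 rfl
      have h1 := List.map_injective_iff.2 hf k1
      have h2 := List.map_injective_iff.2 hh k2
      rw [h1, h2]
      exact ⟨p, hp, q, hq, k3⟩
    · rintro ⟨p, hp, q, hq, hr⟩
      have h1 : (e (([] : List α), ([] : List β), q), (none : Option ℕ), (none : Option ℕ),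
        (1 : ℕ)) ∈ (C09_set_finite f h τ e N).toFinset.toList :=
        (hσ _).2 (Or.inr (Or.inl ⟨q, hq, rfl⟩))
      have h2 := TRun.step h1 (TRun.nil 1)
      have h3 := C09_fwd f h τ e N _ hσ hN hr _ _ 1 h2
      have h4 : ((0 : ℕ), (none : Option ℕ), (none : Option ℕ),
        e (([] : List α), ([] : List β), p)) ∈ (C09_set_finite f h τ e N).toFinset.toList :=
        (hσ _).2 (Or.inl ⟨p, hp, rfl⟩)
      have h5 := TRun.step h4 h3
      show TRun _ 0 _ _ 1
      simpa using h5

/-- a bound for the states -/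
def C09_b (σ : TC) : ℕ := 2 + (σ.map (fun t => t.1 + t.2.2.2)).sum

theorem C09_le_sum (l : List ℕ) (x : ℕ) (hx : x ∈ l) : x ≤ l.sum := by
  induction l with
  | nil => simp at hx
  | cons a l ih =>
    rw [List.sum_cons]
    rcases List.mem_cons.1 hx with h | h
    · omega
    · have := ih h
      omega

theorem C09_lt (σ : TC) (p : ℕ) (x y : Option ℕ) (q : ℕ) (h : (p, x, y, q) ∈ σ) :
    p < C09_b σ ∧ q < C09_b σ := by
  have h1 := C09_le_sum (σ.map (fun t => t.1 + t.2.2.2)) (p + q)
    (List.mem_map.2 ⟨(p, x, y, q), h, rfl⟩)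
  unfold C09_b
  constructor <;> omega

/-- the decoded transducer -/
def C09_tr {α β : Type} [Finite α] [Finite β] (f : α → ℕ) (h : β → ℕ) (σ : TC) :
    Transducer α β where
  n := C09_b σ
  trans := {t | ∃ (x : Option α) (y : Option β), t.2.1 = x.toList ∧ t.2.2.1 = y.toList ∧
    (t.1.1, x.map f, y.map h, t.2.2.2.1) ∈ σ}
  fin := by
    refine (Set.finite_range (fun t : Fin (C09_b σ) × Option α × Option β × Fin (C09_b σ) =>
      (t.1, t.2.1.toList, t.2.2.1.toList, t.2.2.2))).subset ?_
    rintro ⟨p, u, v, q⟩ ⟨x, y, h1, h2, _⟩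
    simp only at h1 h2
    exact ⟨(p, x, y, q), by simp [h1, h2]⟩
  init := {p | p.1 = 0}
  acc := {p | p.1 = 1}

theorem C09_toList_map {α : Type} (f : α → ℕ) (x : Option α) :
    (x.map f).toList = x.toList.map f := by
  cases x <;> rfl

theorem C09_tfwd {α β : Type} [Finite α] [Finite β] (f : α → ℕ) (h : β → ℕ) (σ : TC)
    {p q : Fin (C09_tr f h σ).n} {x : List α} {y : List β}
    (hr : (C09_tr f h σ).Run p x y q) : TRun σ p.1 (x.map f) (y.map h) q.1 := by
  induction hr with
  | nil p => exact TRun.nil _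
  | step ht _ ih =>
    obtain ⟨x0, y0, h1, h2, h3⟩ := ht
    simp only at h1 h2 h3
    subst h1
    subst h2
    have h4 := TRun.step h3 ih
    rw [C09_toList_map, C09_toList_map] at h4
    rw [List.map_append, List.map_append]
    exact h4

theorem C09_split {α : Type} (f : α → ℕ) (x : Option ℕ) (u : List ℕ) (z : List α)
    (hz : x.toList ++ u = z.map f) :
    ∃ (x' : Option α) (z' : List α), x = x'.map f ∧ u = z'.map f ∧ z = x'.toList ++ z' := by
  cases x with
  | none => exact ⟨none, z, rfl, by simpa using hz, rfl⟩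
  | some a =>
    cases z with
    | nil => simp at hz
    | cons b z =>
      simp only [Option.toList_some, List.cons_append, List.nil_append, List.map_cons,
        List.cons.injEq] at hz
      exact ⟨some b, z, by simp [hz.1], hz.2, rfl⟩

theorem C09_tbwd {α β : Type} [Finite α] [Finite β] (f : α → ℕ) (h : β → ℕ) (σ : TC)
    {p q : ℕ} {X Y : List ℕ} (hr : TRun σ p X Y q) (hp : p < C09_b σ) (x : List α) (y : List β)
    (hX : X = x.map f) (hY : Y = y.map h) :
    ∃ hq : q < C09_b σ, (C09_tr f h σ).Run ⟨p, hp⟩ x y ⟨q, hq⟩ := by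
  induction hr generalizing x y with
  | nil p =>
    refine ⟨hp, ?_⟩
    have h1 : x = [] := by simpa using hX.symm
    have h2 : y = [] := by simpa using hY.symm
    subst h1
    subst h2
    exact Transducer.Run.nil _
  | @step p q r a b u v ht _ ih =>
    obtain ⟨x', z', h1, h2, h3⟩ := C09_split f a u x hX
    obtain ⟨y', w', k1, k2, k3⟩ := C09_split h b v y hY
    obtain ⟨hq, h4⟩ := ih (C09_lt σ _ _ _ _ ht).2 z' w' h2 k2
    refine ⟨hq, ?_⟩
    rw [h3, k3]
    refine Transducer.Run.step ?_ h4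
    refine ⟨x', y', rfl, rfl, ?_⟩
    rw [← h1, ← k1]
    exact ht

theorem code_transducer {α β : Type} [Fintype α] [Fintype β] (f : α → ℕ) (h : β → ℕ)
    (hf : Function.Injective f) (hh : Function.Injective h) (σ : TC) (hσ : TCok f h σ) :
    ∃ τ : Transducer α β, ∀ (x : List α) (y : List β),
      TRel σ (x.map f) (y.map h) ↔ τ.Rel x y := by
  have hb : 2 ≤ C09_b σ := by
    unfold C09_b
    omega
  refine ⟨C09_tr f h σ, fun x y => ⟨?_, ?_⟩⟩
  · intro hr
    obtain ⟨hq, h1⟩ := C09_tbwd f h σ hr (by omega) x y rfl rfl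
    exact ⟨⟨0, by show 0 < C09_b σ; omega⟩, rfl, ⟨1, hq⟩, rfl, h1⟩
  · rintro ⟨p, hp, q, hq, hr⟩
    have h1 := C09_tfwd f h σ hr
    have h2 : p.1 = 0 := hp
    have h3 : q.1 = 1 := hq
    rw [h2, h3] at h1
    exact h1

/-- outputs of words over the range of `f` are words over the range of `h` -/
theorem TRel_range {α β : Type} (f : α → ℕ) (h : β → ℕ) (σ : TC) (hσ : TCok f h σ)
    (u v : List ℕ) (hr : TRel σ u v) : ∃ y : List β, v = y.map h := by
  have key : ∀ {p q : ℕ} {X Y : List ℕ}, TRun σ p X Y q → ∃ y : List β, Y = y.map h := by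
    intro p q X Y hr
    induction hr with
    | nil p => exact ⟨[], rfl⟩
    | @step p q r a b u v ht _ ih =>
      obtain ⟨y, hy⟩ := ih
      cases b with
      | none => exact ⟨y, by simpa using hy⟩
      | some c =>
        obtain ⟨d, hd⟩ := (hσ _ ht).2 c rfl
        exact ⟨d :: y, by simp [hy, hd]⟩
  exact key hr

end NSI
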