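import Pool.Agent.Lib.NSI.CDefs

/-!
# C10 : closure properties of `CF`

Recipe.  `CF_nest`: nonterminals `P ⊕ Ed ⊕ (Σ e, VX e) ⊕ (Σ e, VY e) ⊕ (Σ p, VZ p) ⊕ ...`; rules
`p → (start of X e) [e]`, `[e] → (dst e) (start of Y e)` for `src e = p`, the rules of the grammars
of the `X e`, `Y e`, `Z p`, and for the start symbol `S` of `Z p`: every rule of `S` (binary or
leaf) is also a rule of `p` (so no unit rules are needed).  Both inclusions by induction.
`CF_mul`, `CF_union`, `CF_word` are direct (or special cases of `CF_nest`: union of finitely many,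
with trivial edges `X = {[]}`, `Y = {[]}`).
-/

set_option autoImplicit false

namespace NSI

variable {Γ : Type}

/-- the languages defined by a finite graph whose edges add a left factor and a right factor -/
inductive Nest {P Ed : Type} (src dst : Ed → P) (X Y : Ed → Language Γ) (Z : P → Language Γ) :
    P → List Γ → Prop
  | base {p : P} {z : List Γ} : z ∈ Z p → Nest src dst X Y Z p z
  | step (e : Ed) {x z y : List Γ} : x ∈ X e → Nest src dst X Y Z (dst e) z → y ∈ Y e →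
      Nest src dst X Y Z (src e) (x ++ z ++ y)

/-! ### systems of rules over context-free languages -/

/-- the words generated by a finite system of rules over given languages `L i` -/
inductive C10_Sys {I Q : Type} (R1 : Q → (I ⊕ Q) → Prop) (R2 : Q → (I ⊕ Q) → (I ⊕ Q) → Prop)
    (L : I → Language Γ) : (I ⊕ Q) → List Γ → Prop
  | base {i : I} {z : List Γ} : z ∈ L i → C10_Sys R1 R2 L (Sum.inl i) z
  | one {q : Q} {a : I ⊕ Q} {z : List Γ} : R1 q a → C10_Sys R1 R2 L a z →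
      C10_Sys R1 R2 L (Sum.inr q) z
  | two {q : Q} {a b : I ⊕ Q} {y z : List Γ} : R2 q a b → C10_Sys R1 R2 L a y →
      C10_Sys R1 R2 L b z → C10_Sys R1 R2 L (Sum.inr q) (y ++ z)

section sys

variable {I Q : Type} {W : I → Type}

private def C10_emb (G : ∀ i, Gr (W i) Γ) : (I ⊕ Q) → ((Σ i, W i) ⊕ Q)
  | Sum.inl i => Sum.inl ⟨i, (G i).start⟩
  | Sum.inr q => Sum.inr q

private def C10_U (R1 : Q → (I ⊕ Q) → Prop) (G : ∀ i, Gr (W i) Γ) (a b : (Σ i, W i) ⊕ Q) : Prop :=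
  ∃ q c, R1 q c ∧ a = Sum.inr q ∧ b = C10_emb G c

private def C10_B (R2 : Q → (I ⊕ Q) → (I ⊕ Q) → Prop) (G : ∀ i, Gr (W i) Γ)
    (a b c : (Σ i, W i) ⊕ Q) : Prop :=
  (∃ (i : I) (A B C : W i), (G i).bin A B C ∧ a = Sum.inl ⟨i, A⟩ ∧ b = Sum.inl ⟨i, B⟩ ∧
    c = Sum.inl ⟨i, C⟩) ∨
  ∃ q x y, R2 q x y ∧ a = Sum.inr q ∧ b = C10_emb G x ∧ c = C10_emb G y

private def C10_F (G : ∀ i, Gr (W i) Γ) (a : (Σ i, W i) ⊕ Q) (x : Option Γ) : Prop :=
  ∃ (i : I) (A : W i), (G i).lf A x ∧ a = Sum.inl ⟨i, A⟩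

private def C10_G (R1 : Q → (I ⊕ Q) → Prop) (R2 : Q → (I ⊕ Q) → (I ⊕ Q) → Prop)
    (G : ∀ i, Gr (W i) Γ) (a0 : I ⊕ Q) : Gr ((Σ i, W i) ⊕ Q) Γ where
  start := C10_emb G a0
  bin := fun a b c => ∃ a', Relation.ReflTransGen (C10_U R1 G) a a' ∧ C10_B R2 G a' b c
  lf := fun a x => ∃ a', Relation.ReflTransGen (C10_U R1 G) a a' ∧ C10_F G a' x

private def C10_Sem (R1 : Q → (I ⊕ Q) → Prop) (R2 : Q → (I ⊕ Q) → (I ⊕ Q) → Prop)
    (L : I → Language Γ) (G : ∀ i, Gr (W i) Γ) : ((Σ i, W i) ⊕ Q) → List Γ → Prop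
  | Sum.inl p, z => ∃ s : Tr (W p.1) Γ, s.ok (G p.1) ∧ s.root = p.2 ∧ s.yd = z
  | Sum.inr q, z => C10_Sys R1 R2 L (Sum.inr q) z

private theorem C10_Sem_emb (R1 : Q → (I ⊕ Q) → Prop) (R2 : Q → (I ⊕ Q) → (I ⊕ Q) → Prop)
    (L : I → Language Γ) (G : ∀ i, Gr (W i) Γ) (hG : ∀ i, (G i).lang = L i) (c : I ⊕ Q)
    (z : List Γ) (h : C10_Sem R1 R2 L G (C10_emb G c) z) : C10_Sys R1 R2 L c z := by
  cases c with
  | inl i =>
    obtain ⟨s, h1, h2, h3⟩ := h
    apply C10_Sys.base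
    rw [← hG i]
    exact ⟨s, h1, h2, h3⟩
  | inr q => exact h

private theorem C10_Sem_U (R1 : Q → (I ⊕ Q) → Prop) (R2 : Q → (I ⊕ Q) → (I ⊕ Q) → Prop)
    (L : I → Language Γ) (G : ∀ i, Gr (W i) Γ) (hG : ∀ i, (G i).lang = L i)
    {a b : (Σ i, W i) ⊕ Q} (hab : Relation.ReflTransGen (C10_U R1 G) a b)
    (z : List Γ) (h : C10_Sem R1 R2 L G b z) : C10_Sem R1 R2 L G a z := by
  induction hab using Relation.ReflTransGen.head_induction_on with
  | refl => exact h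
  | head h1 _ ih =>
    obtain ⟨q, c, h2, rfl, rfl⟩ := h1
    exact C10_Sys.one h2 (C10_Sem_emb R1 R2 L G hG c z ih)

private theorem C10_sound (R1 : Q → (I ⊕ Q) → Prop) (R2 : Q → (I ⊕ Q) → (I ⊕ Q) → Prop)
    (L : I → Language Γ) (G : ∀ i, Gr (W i) Γ) (hG : ∀ i, (G i).lang = L i) (a0 : I ⊕ Q)
    (t : Tr ((Σ i, W i) ⊕ Q) Γ) (ht : t.ok (C10_G R1 R2 G a0)) :
    C10_Sem R1 R2 L G t.root t.yd := by
  induction t with
  | lf a x =>
    obtain ⟨a', h1, i, A, h2, rfl⟩ := ht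
    refine C10_Sem_U R1 R2 L G hG h1 _ ?_
    exact ⟨.lf A x, h2, rfl, rfl⟩
  | nd a l r ihl ihr =>
    obtain ⟨⟨a', h1, h2⟩, hl, hr⟩ := ht
    refine C10_Sem_U R1 R2 L G hG h1 _ ?_
    have il := ihl hl
    have ir := ihr hr
    simp only [Tr.yd]
    rcases h2 with ⟨i, A, B, C, h3, rfl, h4, h5⟩ | ⟨q, x, y, h3, rfl, h4, h5⟩
    · rw [h4] at il
      rw [h5] at ir
      obtain ⟨s1, u1, u2, u3⟩ := il
      obtain ⟨s2, v1, v2, v3⟩ := ir
      refine ⟨.nd A s1 s2, ⟨?_, u1, v1⟩, rfl, by simp [Tr.yd, u3, v3]⟩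
      rw [u2, v2]
      exact h3
    · rw [h4] at il
      rw [h5] at ir
      exact C10_Sys.two h3 (C10_Sem_emb R1 R2 L G hG x _ il) (C10_Sem_emb R1 R2 L G hG y _ ir)

private theorem C10_tree (R1 : Q → (I ⊕ Q) → Prop) (R2 : Q → (I ⊕ Q) → (I ⊕ Q) → Prop)
    (G : ∀ i, Gr (W i) Γ) (a0 : I ⊕ Q) (i : I) (s : Tr (W i) Γ) (hs : s.ok (G i)) :
    ∃ t : Tr ((Σ i, W i) ⊕ Q) Γ, t.ok (C10_G R1 R2 G a0) ∧ t.root = Sum.inl ⟨i, s.root⟩ ∧
      t.yd = s.yd := by
  induction s with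
  | lf A x =>
    exact ⟨.lf (Sum.inl ⟨i, A⟩) x, ⟨_, Relation.ReflTransGen.refl, i, A, hs, rfl⟩, rfl, rfl⟩
  | nd A l r ihl ihr =>
    obtain ⟨h1, h2, h3⟩ := hs
    obtain ⟨t1, a1, a2, a3⟩ := ihl h2
    obtain ⟨t2, b1, b2, b3⟩ := ihr h3
    refine ⟨.nd (Sum.inl ⟨i, A⟩) t1 t2, ⟨⟨_, Relation.ReflTransGen.refl, Or.inl
      ⟨i, A, _, _, h1, rfl, a2, b2⟩⟩, a1, b1⟩, rfl, by simp [Tr.yd, a3, b3]⟩

private theorem C10_unit (R1 : Q → (I ⊕ Q) → Prop) (R2 : Q → (I ⊕ Q) → (I ⊕ Q) → Prop)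
    (G : ∀ i, Gr (W i) Γ) (a0 : I ⊕ Q) (t : Tr ((Σ i, W i) ⊕ Q) Γ)
    (ht : t.ok (C10_G R1 R2 G a0)) (a : (Σ i, W i) ⊕ Q) (h : C10_U R1 G a t.root) :
    ∃ t' : Tr ((Σ i, W i) ⊕ Q) Γ, t'.ok (C10_G R1 R2 G a0) ∧ t'.root = a ∧ t'.yd = t.yd := by
  cases t with
  | lf b x =>
    obtain ⟨a', h1, h2⟩ := ht
    exact ⟨.lf a x, ⟨a', Relation.ReflTransGen.head h h1, h2⟩, rfl, rfl⟩
  | nd b l r =>
    obtain ⟨⟨a', h1, h2⟩, h3, h4⟩ := ht
    exact ⟨.nd a l r, ⟨⟨a', Relation.ReflTransGen.head h h1, h2⟩, h3, h4⟩, rfl, rfl⟩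

private theorem C10_complete (R1 : Q → (I ⊕ Q) → Prop) (R2 : Q → (I ⊕ Q) → (I ⊕ Q) → Prop)
    (L : I → Language Γ) (G : ∀ i, Gr (W i) Γ) (hG : ∀ i, (G i).lang = L i) (a0 : I ⊕ Q)
    {a : I ⊕ Q} {z : List Γ} (h : C10_Sys R1 R2 L a z) :
    ∃ t : Tr ((Σ i, W i) ⊕ Q) Γ, t.ok (C10_G R1 R2 G a0) ∧ t.root = C10_emb G a ∧ t.yd = z := by
  induction h with
  | @base i z hz =>
    rw [← hG i] at hz
    obtain ⟨s, h1, h2, rfl⟩ := hz
    obtain ⟨t, a1, a2, a3⟩ := C10_tree R1 R2 G a0 i s h1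
    refine ⟨t, a1, ?_, a3⟩
    rw [a2, h2]
    rfl
  | @one q a z h1 _ ih =>
    obtain ⟨t, a1, a2, rfl⟩ := ih
    exact C10_unit R1 R2 G a0 t a1 (Sum.inr q) ⟨q, a, h1, rfl, a2⟩
  | @two q a b y z h1 _ _ ih1 ih2 =>
    obtain ⟨t1, a1, a2, rfl⟩ := ih1
    obtain ⟨t2, b1, b2, rfl⟩ := ih2
    exact ⟨.nd (Sum.inr q) t1 t2, ⟨⟨_, Relation.ReflTransGen.refl, Or.inr
      ⟨q, a, b, h1, rfl, a2, b2⟩⟩, a1, b1⟩, rfl, rfl⟩

end sys

/-- languages generated by finite systems of rules over context-free languages are context-free -/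
theorem C10_CF_sys {I Q : Type} [Fintype I] [Fintype Q] (R1 : Q → (I ⊕ Q) → Prop)
    (R2 : Q → (I ⊕ Q) → (I ⊕ Q) → Prop) (L : I → Language Γ) (hL : ∀ i, CF (L i)) (a : I ⊕ Q) :
    CF ({z | C10_Sys R1 R2 L a z} : Language Γ) := by
  classical
  choose W hW G hG using hL
  refine ⟨(Σ i, W i) ⊕ Q, inferInstance, C10_G R1 R2 G a, ?_⟩
  ext z
  constructor
  · rintro ⟨t, ht, hr, rfl⟩
    have h := C10_sound R1 R2 L G hG a t ht
    rw [hr] at h
    exact C10_Sem_emb R1 R2 L G hG a _ h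
  · intro hz
    obtain ⟨t, a1, a2, a3⟩ := C10_complete R1 R2 L G hG a hz
    exact ⟨t, a1, a2, a3⟩

private theorem C10_congr {L L' : Language Γ} (h : CF L) (hL : ∀ z, z ∈ L' ↔ z ∈ L) : CF L' := by
  have : L' = L := by
    ext z
    exact hL z
  rwa [this]

private inductive C10_R1 {P Ed : Type} : (P ⊕ Ed) → ((Ed ⊕ Ed ⊕ P) ⊕ (P ⊕ Ed)) → Prop
  | mk (p : P) : C10_R1 (Sum.inl p) (Sum.inl (Sum.inr (Sum.inr p)))

private inductive C10_R2 {P Ed : Type} (src dst : Ed → P) :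
    (P ⊕ Ed) → ((Ed ⊕ Ed ⊕ P) ⊕ (P ⊕ Ed)) → ((Ed ⊕ Ed ⊕ P) ⊕ (P ⊕ Ed)) → Prop
  | fst (e : Ed) : C10_R2 src dst (Sum.inl (src e)) (Sum.inl (Sum.inl e)) (Sum.inr (Sum.inr e))
  | snd (e : Ed) : C10_R2 src dst (Sum.inr e) (Sum.inr (Sum.inl (dst e)))
      (Sum.inl (Sum.inr (Sum.inl e)))

private theorem C10_nest_sound {P Ed : Type} (src dst : Ed → P)
    (X Y : Ed → Language Γ) (Z : P → Language Γ) {a : (Ed ⊕ Ed ⊕ P) ⊕ (P ⊕ Ed)} {z : List Γ}
    (h : C10_Sys C10_R1 (C10_R2 src dst) (Sum.elim X (Sum.elim Y Z)) a z) :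
    (∀ e, a = Sum.inl (Sum.inl e) → z ∈ X e) ∧ (∀ e, a = Sum.inl (Sum.inr (Sum.inl e)) → z ∈ Y e) ∧
    (∀ p, a = Sum.inl (Sum.inr (Sum.inr p)) → z ∈ Z p) ∧
    (∀ p, a = Sum.inr (Sum.inl p) → Nest src dst X Y Z p z) ∧
    (∀ e, a = Sum.inr (Sum.inr e) → ∃ u v, Nest src dst X Y Z (dst e) u ∧ v ∈ Y e ∧ z = u ++ v) := by
  induction h with
  | @base i z hz =>
    refine ⟨?_, ?_, ?_, by simp, by simp⟩
    · rintro e h
      cases h
      exact hz
    · rintro e h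
      cases h
      exact hz
    · rintro e h
      cases h
      exact hz
  | @one q a z h1 _ ih =>
    cases h1 with
    | mk p =>
      refine ⟨by simp, by simp, by simp, ?_, by simp⟩
      rintro p' h
      cases h
      exact Nest.base (ih.2.2.1 p rfl)
  | @two q a b y z h1 _ _ ih1 ih2 =>
    cases h1 with
    | fst e =>
      refine ⟨by simp, by simp, by simp, ?_, by simp⟩
      rintro p' h
      cases h
      obtain ⟨u, v, h2, h3, rfl⟩ := ih2.2.2.2.2 e rfl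
      have := Nest.step (src := src) (dst := dst) (X := X) (Y := Y) (Z := Z) e (ih1.1 e rfl) h2 h3
      simpa using this
    | snd e =>
      refine ⟨by simp, by simp, by simp, by simp, ?_⟩
      rintro p' h
      cases h
      exact ⟨y, z, ih1.2.2.2.1 _ rfl, ih2.2.1 e rfl, rfl⟩

private theorem C10_nest_complete {P Ed : Type} (src dst : Ed → P)
    (X Y : Ed → Language Γ) (Z : P → Language Γ) {p : P} {z : List Γ}
    (h : Nest src dst X Y Z p z) :
    C10_Sys C10_R1 (C10_R2 src dst) (Sum.elim X (Sum.elim Y Z)) (Sum.inr (Sum.inl p)) z := by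
  induction h with
  | @base p z hz =>
    exact C10_Sys.one (C10_R1.mk p) (C10_Sys.base hz)
  | @step e x z y hx _ hy ih =>
    rw [List.append_assoc]
    refine C10_Sys.two (C10_R2.fst e) (C10_Sys.base hx) ?_
    exact C10_Sys.two (C10_R2.snd e) ih (C10_Sys.base hy)

theorem CF_nest {P Ed : Type} [Fintype P] [Fintype Ed] (src dst : Ed → P)
    (X Y : Ed → Language Γ) (Z : P → Language Γ) (hX : ∀ e, CF (X e)) (hY : ∀ e, CF (Y e))
    (hZ : ∀ p, CF (Z p)) (p : P) : CF ({z | Nest src dst X Y Z p z} : Language Γ) := by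
  have h := C10_CF_sys C10_R1 (C10_R2 src dst) (Sum.elim X (Sum.elim Y Z))
    (by rintro (e | e | p) <;> simp [hX, hY, hZ]) (Sum.inr (Sum.inl p))
  refine C10_congr h (fun z => ?_)
  exact ⟨fun hz => C10_nest_complete src dst X Y Z hz,
    fun hz => (C10_nest_sound src dst X Y Z hz).2.2.2.1 p rfl⟩

theorem CF_iUnion {I : Type} [Fintype I] (L : I → Language Γ) (h : ∀ i, CF (L i)) :
    CF ({z | ∃ i, z ∈ L i} : Language Γ) := by
  have h1 := C10_CF_sys (I := I) (Q := Unit) (fun _ a => ∃ i, a = Sum.inl i)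
    (fun _ _ _ => False) L h (Sum.inr ())
  refine C10_congr h1 (fun z => ?_)
  constructor
  · rintro ⟨i, hi⟩
    exact C10_Sys.one ⟨i, rfl⟩ (C10_Sys.base hi)
  · intro hz
    cases hz with
    | one h2 h3 =>
      obtain ⟨i, rfl⟩ := h2
      cases h3 with
      | base h4 => exact ⟨i, h4⟩
    | two h2 _ _ => exact h2.elim

theorem CF_union (L L' : Language Γ) (h : CF L) (h' : CF L') : CF ({z | z ∈ L ∨ z ∈ L'} : Language Γ) := by
  have h1 := CF_iUnion (I := Bool) (fun b => if b then L else L') (by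
    intro b
    cases b
    · simpa using h'
    · simpa using h)
  refine C10_congr h1 (fun z => ?_)
  constructor
  · rintro (hz | hz)
    · exact ⟨true, by simpa using hz⟩
    · exact ⟨false, by simpa using hz⟩
  · rintro ⟨b, hb⟩
    cases b
    · exact Or.inr (by simpa using hb)
    · exact Or.inl (by simpa using hb)

theorem CF_mul (L L' : Language Γ) (h : CF L) (h' : CF L') :
    CF ({z | ∃ x ∈ L, ∃ y ∈ L', z = x ++ y} : Language Γ) := by
  have h1 := C10_CF_sys (I := Bool) (Q := Unit) (fun _ _ => False)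
    (fun _ a b => a = Sum.inl true ∧ b = Sum.inl false) (fun b => if b then L else L') (by
      intro b
      cases b
      · simpa using h'
      · simpa using h) (Sum.inr ())
  refine C10_congr h1 (fun z => ?_)
  constructor
  · rintro ⟨x, hx, y, hy, rfl⟩
    exact C10_Sys.two ⟨rfl, rfl⟩ (C10_Sys.base (by simpa using hx))
      (C10_Sys.base (by simpa using hy))
  · intro hz
    cases hz with
    | one h2 h3 => exact h2.elim
    | @two _ a b x y h2 h3 h4 =>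
      obtain ⟨rfl, rfl⟩ := h2
      cases h3 with
      | base h5 =>
        cases h4 with
        | base h6 => exact ⟨x, by simpa using h5, y, by simpa using h6, rfl⟩

private theorem C10_leaf (x : Option Γ) : CF ({x.toList} : Language Γ) := by
  refine ⟨Unit, inferInstance, ⟨(), fun _ _ _ => False, fun _ y => y = x⟩, ?_⟩
  ext z
  constructor
  · rintro ⟨t, ht, _, rfl⟩
    cases t with
    | lf A y =>
      have h1 : y = x := ht
      subst h1
      rfl
    | nd A l r => exact ht.1.elim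
  · rintro rfl
    exact ⟨.lf () x, rfl, rfl, rfl⟩

theorem CF_word (z : List Γ) : CF ({z} : Language Γ) := by
  induction z with
  | nil => exact C10_leaf none
  | cons x z ih =>
    have h := CF_mul _ _ (C10_leaf (some x)) ih
    refine C10_congr h (fun w => ?_)
    constructor
    · rintro rfl
      exact ⟨[x], rfl, z, rfl, rfl⟩
    · rintro ⟨a, rfl, b, rfl, rfl⟩
      rfl

theorem CF_empty : CF (∅ : Set (List Γ)) := by
  refine ⟨Unit, inferInstance, ⟨(), fun _ _ _ => False, fun _ _ => False⟩, ?_⟩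
  ext z
  constructor
  · rintro ⟨t, ht, _, rfl⟩
    cases t with
    | lf A y => exact ht.elim
    | nd A l r => exact ht.1.elim
  · intro h
    exact h.elim

/-- powers of a word -/
theorem CF_star_word (u : List Γ) : CF ({z | ∃ n : ℕ, z = pw u n} : Language Γ) := by
  have h1 := C10_CF_sys (I := Bool) (Q := Unit) (fun _ a => a = Sum.inl false)
    (fun _ a b => a = Sum.inl true ∧ b = Sum.inr ())
    (fun b => if b then ({u} : Language Γ) else ({[]} : Language Γ)) (by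
      intro b
      cases b
      · simpa using CF_word ([] : List Γ)
      · simpa using CF_word u) (Sum.inr ())
  refine C10_congr h1 (fun z => ?_)
  constructor
  · rintro ⟨n, rfl⟩
    induction n with
    | zero =>
      refine C10_Sys.one rfl (C10_Sys.base ?_)
      show pw u 0 ∈ ({[]} : Set (List Γ))
      rw [pw_zero]
      exact Set.mem_singleton _
    | succ n ih =>
      rw [pw_succ]
      refine C10_Sys.two ⟨rfl, rfl⟩ (C10_Sys.base ?_) ih
      exact Set.mem_singleton u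
  · intro hz
    have key : ∀ a w, C10_Sys (I := Bool) (Q := Unit) (fun _ a => a = Sum.inl false)
        (fun _ a b => a = Sum.inl true ∧ b = Sum.inr ())
        (fun b => if b then ({u} : Language Γ) else ({[]} : Language Γ)) a w →
        (a = Sum.inl true → w = u) ∧ (a = Sum.inl false → w = []) ∧
        (a = Sum.inr () → ∃ n : ℕ, w = pw u n) := by
      intro a w h
      induction h with
      | @base i z hz =>
        refine ⟨?_, ?_, by simp⟩
        · intro h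
          cases h
          exact Set.mem_singleton_iff.1 hz
        · intro h
          cases h
          exact Set.mem_singleton_iff.1 hz
      | @one q a z h1 _ ih =>
        refine ⟨by simp, by simp, ?_⟩
        intro _
        exact ⟨0, by rw [ih.2.1 h1]; simp⟩
      | @two q a b y z h1 _ _ ih1 ih2 =>
        refine ⟨by simp, by simp, ?_⟩
        intro _
        obtain ⟨n, hn⟩ := ih2.2.2 h1.2
        exact ⟨n + 1, by rw [pw_succ, ih1.1 h1.1, hn]⟩
    exact (key _ _ hz).2.2 rfl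

end NSI
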