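import Pool.Agent.Lib.NSI.CDefs

/-!
# C11 : intersection with a regular language

Recipe.  Nonterminals `Option (St × V × St)`; rules `(p,A,q) → (p,B,r) (r,C,q)`, `(p,A,q) → x` if
`D.step p x = q`, `(p,A,p) → ε`; the new start `none` has the rules of all `(D.start, G.start, q)`,
`q ∈ D.accept`.
-/

set_option autoImplicit false

namespace NSI

/-- the nonterminals `X` standing for the triple `(p, A, q)` -/
private def C11_R {Γ St V : Type} (D : DFA Γ St) (G : Gr V Γ) (X : Option (St × V × St))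
    (p : St) (A : V) (q : St) : Prop :=
  X = some (p, A, q) ∨ (X = none ∧ p = D.start ∧ A = G.start ∧ q ∈ D.accept)

private def C11_G {Γ St V : Type} (D : DFA Γ St) (G : Gr V Γ) : Gr (Option (St × V × St)) Γ where
  start := none
  bin := fun X Y Z => ∃ (p r q : St) (A B C : V), C11_R D G X p A q ∧ Y = some (p, B, r) ∧
    Z = some (r, C, q) ∧ G.bin A B C
  lf := fun X x => ∃ (p q : St) (A : V), C11_R D G X p A q ∧ G.lf A x ∧
    D.evalFrom p x.toList = q

private theorem C11_down {Γ St V : Type} (D : DFA Γ St) (G : Gr V Γ)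
    (t : Tr (Option (St × V × St)) Γ) (ht : t.ok (C11_G D G)) :
    ∃ (p q : St) (A : V), C11_R D G t.root p A q ∧ D.evalFrom p t.yd = q ∧
      ∃ u : Tr V Γ, u.ok G ∧ u.root = A ∧ u.yd = t.yd := by
  induction t with
  | lf X x =>
    obtain ⟨p, q, A, h1, h2, h3⟩ := ht
    exact ⟨p, q, A, h1, h3, Tr.lf A x, h2, rfl, rfl⟩
  | nd X l r ihl ihr =>
    obtain ⟨⟨p, s, q, A, B, C, h1, h2, h3, h4⟩, hl, hr⟩ := ht
    obtain ⟨p1, q1, A1, k1, k2, u1, v1, v2, v3⟩ := ihl hl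
    obtain ⟨p2, q2, A2, m1, m2, u2, w1, w2, w3⟩ := ihr hr
    rw [h2] at k1
    rw [h3] at m1
    have e1 : some (p, B, s) = some (p1, A1, q1) := by
      rcases k1 with k | ⟨k, _⟩
      · exact k
      · exact absurd k (by simp)
    have e2 : some (s, C, q) = some (p2, A2, q2) := by
      rcases m1 with k | ⟨k, _⟩
      · exact k
      · exact absurd k (by simp)
    simp only [Option.some.injEq, Prod.mk.injEq] at e1 e2
    obtain ⟨rfl, rfl, rfl⟩ := e1
    obtain ⟨rfl, rfl, rfl⟩ := e2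
    refine ⟨p, q, A, h1, ?_, Tr.nd A u1 u2, ⟨?_, v1, w1⟩, rfl, ?_⟩
    · show D.evalFrom p (l.yd ++ r.yd) = q
      rw [DFA.evalFrom_of_append, k2, m2]
    · rw [v2, w2]
      exact h4
    · show u1.yd ++ u2.yd = l.yd ++ r.yd
      rw [v3, w3]

private theorem C11_up {Γ St V : Type} (D : DFA Γ St) (G : Gr V Γ) (t : Tr V Γ) (ht : t.ok G) :
    ∀ (p : St) (X : Option (St × V × St)), C11_R D G X p t.root (D.evalFrom p t.yd) →
      ∃ u : Tr (Option (St × V × St)) Γ, u.ok (C11_G D G) ∧ u.root = X ∧ u.yd = t.yd := by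
  induction t with
  | lf A x =>
    intro p X h
    exact ⟨Tr.lf X x, ⟨p, _, A, h, ht, rfl⟩, rfl, rfl⟩
  | nd A l r ihl ihr =>
    intro p X h
    obtain ⟨h1, hl, hr⟩ := ht
    obtain ⟨u1, a1, a2, a3⟩ := ihl hl p _ (Or.inl rfl)
    obtain ⟨u2, b1, b2, b3⟩ := ihr hr (D.evalFrom p l.yd) _ (Or.inl rfl)
    refine ⟨Tr.nd X u1 u2, ⟨?_, a1, b1⟩, rfl, ?_⟩
    · refine ⟨p, D.evalFrom p l.yd, D.evalFrom p (l.yd ++ r.yd), A, l.root, r.root, h, a2, ?_, h1⟩
      rw [b2, DFA.evalFrom_of_append]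
    · show u1.yd ++ u2.yd = l.yd ++ r.yd
      rw [a3, b3]

theorem CF_inter {Γ St : Type} [Fintype St] (D : DFA Γ St) (L : Language Γ) (h : CF L) :
    CF ({z | z ∈ L ∧ z ∈ D.accepts} : Language Γ) := by
  obtain ⟨V, hV, G, rfl⟩ := h
  refine ⟨Option (St × V × St), inferInstance, C11_G D G, ?_⟩
  ext z
  constructor
  · rintro ⟨t, ht, h1, rfl⟩
    obtain ⟨p, q, A, k1, k2, u, v1, v2, v3⟩ := C11_down D G t ht
    have h1' : t.root = none := h1
    rw [h1'] at k1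
    rcases k1 with k | ⟨_, rfl, rfl, k⟩
    · exact absurd k (by simp)
    · refine ⟨⟨u, v1, v2, v3⟩, ?_⟩
      rw [DFA.mem_accepts]
      show D.evalFrom D.start t.yd ∈ D.accept
      rw [k2]
      exact k
  · rintro ⟨⟨t, ht, h1, rfl⟩, h2⟩
    have h3 : D.evalFrom D.start t.yd ∈ D.accept := h2
    exact C11_up D G t ht D.start none (Or.inr ⟨rfl, rfl, h1, h3⟩) |>.imp
      fun u hu => ⟨hu.1, hu.2.1, hu.2.2⟩

end NSI
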