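import Pool.Agent.Lib.NSI.Basic

/-!
# Coded grammars and coded transducers

Terminals and nonterminals are natural numbers; the start symbol is `0`.
-/

set_option autoImplicit false

namespace NSI

/-- coded grammars: binary rules `(A, B, C)` and leaf rules `(A, x)` -/
abbrev GC : Type := List (ℕ × ℕ × ℕ) × List (ℕ × Option ℕ)

def GC.toGr (g : GC) : Gr ℕ ℕ where
  start := 0
  bin := fun A B C => (A, B, C) ∈ g.1
  lf := fun A x => (A, x) ∈ g.2

/-- the language of a coded grammar -/
def GC.lang (g : GC) : Language ℕ := (GC.toGr g).lang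

/-- all nonterminals of the rules are smaller than `nt g` -/
def nt (g : GC) : ℕ :=
  1 + (g.1.map (fun r => r.1 + r.2.1 + r.2.2)).sum + (g.2.map (fun r => r.1)).sum

/-- coded letter-to-letter transducers: transitions `(p, x, y, q)`; initial state `0`,
final state `1` -/
abbrev TC : Type := List (ℕ × Option ℕ × Option ℕ × ℕ)

inductive TRun (τ : TC) : ℕ → List ℕ → List ℕ → ℕ → Prop
  | nil (p : ℕ) : TRun τ p [] [] p
  | step {p q r : ℕ} {x y : Option ℕ} {u v : List ℕ} :
      (p, x, y, q) ∈ τ → TRun τ q u v r → TRun τ p (x.toList ++ u) (y.toList ++ v) r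

/-- relation of a coded transducer -/
def TRel (τ : TC) (u v : List ℕ) : Prop := TRun τ 0 u v 1

/-- context-free in our sense: generated by a finite weak Chomsky grammar -/
def CF {Γ : Type} (L : Language Γ) : Prop :=
  ∃ (V : Type) (_ : Fintype V) (G : Gr V Γ), G.lang = L

end NSI
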