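import Pool.Agent.Lib.NSI.Stmt

/-!
# Grammars in weak Chomsky form, derivation trees, contexts, weights of words
-/

set_option autoImplicit false

namespace NSI

/-! ### Grammars in weak Chomsky form, derivation trees, contexts -/

/-- A grammar with binary rules `A → B C` and leaf rules `A → x`, `A → ε`. -/
structure Gr (V T : Type) where
  start : V
  bin : V → V → V → Prop
  lf : V → Option T → Prop

/-- trees -/
inductive Tr (V T : Type) : Type
  | lf (A : V) (x : Option T) : Tr V T
  | nd (A : V) (l r : Tr V T) : Tr V T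

/-- contexts: trees with one hole -/
inductive Cx (V T : Type) : Type
  | hole : Cx V T
  | lft (A : V) (c : Cx V T) (r : Tr V T) : Cx V T
  | rgt (A : V) (l : Tr V T) (c : Cx V T) : Cx V T

variable {V T : Type}

def Tr.root : Tr V T → V
  | .lf A _ => A
  | .nd A _ _ => A

/-- the yield -/
def Tr.yd : Tr V T → List T
  | .lf _ x => x.toList
  | .nd _ l r => l.yd ++ r.yd

/-- height -/
def Tr.ht : Tr V T → ℕ
  | .lf _ _ => 0
  | .nd _ l r => max l.ht r.ht + 1

/-- number of nodes -/
def Tr.size : Tr V T → ℕ
  | .lf _ _ => 1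
  | .nd _ l r => l.size + r.size + 1

/-- derivation trees of a grammar -/
def Tr.ok (G : Gr V T) : Tr V T → Prop
  | .lf A x => G.lf A x
  | .nd A l r => G.bin A l.root r.root ∧ l.ok G ∧ r.ok G

/-- the language generated -/
def Gr.lang (G : Gr V T) : Language T := {z | ∃ t : Tr V T, t.ok G ∧ t.root = G.start ∧ t.yd = z}

/-- put a tree into the hole -/
def Cx.plug : Cx V T → Tr V T → Tr V T
  | .hole, t => t
  | .lft A c r, t => .nd A (c.plug t) r
  | .rgt A l c, t => .nd A l (c.plug t)

/-- composition: `(c.comp d).plug t = c.plug (d.plug t)` -/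
def Cx.comp : Cx V T → Cx V T → Cx V T
  | .hole, d => d
  | .lft A c r, d => .lft A (c.comp d) r
  | .rgt A l c, d => .rgt A l (c.comp d)

/-- the part of the yield to the left of the hole -/
def Cx.yl : Cx V T → List T
  | .hole => []
  | .lft _ c _ => c.yl
  | .rgt _ l c => l.yd ++ c.yl

/-- the part of the yield to the right of the hole -/
def Cx.yr : Cx V T → List T
  | .hole => []
  | .lft _ c r => c.yr ++ r.yd
  | .rgt _ _ c => c.yr

/-- number of nodes, the hole not counted -/
def Cx.size : Cx V T → ℕ
  | .hole => 0
  | .lft _ c r => c.size + r.size + 1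
  | .rgt _ l c => l.size + c.size + 1

/-- length of the path to the hole -/
def Cx.depth : Cx V T → ℕ
  | .hole => 0
  | .lft _ c _ => c.depth + 1
  | .rgt _ _ c => c.depth + 1

/-- the root label, if the hole is labelled `B` -/
def Cx.root (B : V) : Cx V T → V
  | .hole => B
  | .lft A _ _ => A
  | .rgt A _ _ => A

/-- derivation contexts of a grammar with hole labelled `B` -/
def Cx.ok (G : Gr V T) (B : V) : Cx V T → Prop
  | .hole => True
  | .lft A c r => G.bin A (c.root B) r.root ∧ c.ok G B ∧ r.ok G
  | .rgt A l c => G.bin A l.root (c.root B) ∧ l.ok G ∧ c.ok G B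

/-- additive weight of a word -/
def wt (ψ : T → ℤ) (z : List T) : ℤ := (z.map ψ).sum

/-- content of a word: the multiset of its letters, each with its index (start index `k`, every
letter `x` changes the index by `β x`; a letter carries the index before it). -/
def cw (β : T → ℤ) : List T → ℤ → Multiset (T × ℤ)
  | [], _ => 0
  | x :: z, k => (x, k) ::ₘ cw β z (k + β x)

/-- labels (nonterminal, index) of the nodes of a tree starting at index `k` -/
def Labs (β : T → ℤ) : Tr V T → ℤ → Set (V × ℤ)
  | .lf A _, k => {(A, k)}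
  | .nd A l r, k => {(A, k)} ∪ Labs β l k ∪ Labs β r (k + wt β l.yd)

/-- A family of statements holds with a primitive recursive monotone bound. -/
def Bnd (P : ℕ → ℕ → Prop) : Prop := ∃ b : ℕ → ℕ, Primrec b ∧ Monotone b ∧ ∀ s, P s (b s)

end NSI
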