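import Pool.Agent.Lib.NSI.KDefs

/-!
# K01 : the coding of words

Recipe.  `encL_append`, `encR_append`: induction.  `enc_inj`: split at the unique `mid`
(`List.append_eq_append_iff` or induction); the `a`-block and `encL` are separated because `encL w`
contains no `a` and `a`-block no other letter (e.g. `takeWhile (≠ a)`), same on the right with `b`;
`encL` is injective: every `rl r` starts with a row letter followed by ones; `encR` is the reverse of
a copy of `encL`.  `encR_eq`: `encR w = ((encL w).map cp).reverse` with `cp` as in T14 (not imported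
here, so it is stated with an explicit function).
-/

set_option autoImplicit false

namespace NSI

variable {Q : ℕ}

/-- decoding of the left letters: pending ones and rows -/
private def K01_dL : List (Lt Q) → ℕ × List (Row Q)
  | [] => (0, [])
  | Lt.one :: z => ((K01_dL z).1 + 1, (K01_dL z).2)
  | Lt.row q π :: z => (0, ((q, π), (K01_dL z).1) :: (K01_dL z).2)
  | Lt.a :: z => K01_dL z
  | Lt.mid :: z => K01_dL z
  | Lt.b :: z => K01_dL z
  | Lt.one' :: z => K01_dL z
  | Lt.row' _ _ :: z => K01_dL z

private theorem K01_dL_ones (k : ℕ) (z : List (Lt Q)) :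
    K01_dL (List.replicate k Lt.one ++ z) = ((K01_dL z).1 + k, (K01_dL z).2) := by
  induction k with
  | zero => simp
  | succ k ih => simp [List.replicate_succ, K01_dL, ih, add_assoc]

private theorem K01_dL_encL (w : List (Row Q)) (z : List (Lt Q)) (hz : K01_dL z = (0, [])) :
    K01_dL (encL w ++ z) = (0, w) := by
  induction w with
  | nil => simpa [encL] using hz
  | cons r w ih =>
    obtain ⟨⟨q, π⟩, k⟩ := r
    simp only [encL, rl, List.cons_append, List.append_assoc, K01_dL, K01_dL_ones, ih]
    simp

/-- inverse of the copy map -/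
private def K01_uc : Lt Q → Lt Q
  | Lt.one' => Lt.one
  | Lt.row' q π => Lt.row q π
  | x => x

private theorem K01_uc_encR (w : List (Row Q)) : (encR w).reverse.map K01_uc = encL w := by
  induction w with
  | nil => rfl
  | cons r w ih =>
    obtain ⟨⟨q, π⟩, k⟩ := r
    simp only [encR, rr, encL, rl, List.reverse_append, List.map_append, ih]
    simp [K01_uc]

theorem encL_append (w v : List (Row Q)) : encL (w ++ v) = encL w ++ encL v := by
  induction w with
  | nil => rfl
  | cons r w ih => simp only [List.cons_append, encL, ih, List.append_assoc]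

theorem encR_append (w v : List (Row Q)) : encR (w ++ v) = encR v ++ encR w := by
  induction w with
  | nil => simp [encR]
  | cons r w ih => simp only [List.cons_append, encR, ih, List.append_assoc]

theorem encL_inj {w v : List (Row Q)} (h : encL w = encL v) : w = v := by
  have h1 := K01_dL_encL w [] rfl
  have h2 := K01_dL_encL v [] rfl
  rw [List.append_nil] at h1 h2
  rw [h, h2] at h1
  exact (congrArg Prod.snd h1).symm

theorem encR_inj {w v : List (Row Q)} (h : encR w = encR v) : w = v := by
  apply encL_inj
  rw [← K01_uc_encR w, ← K01_uc_encR v, h]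

/-- the letters of the left coding -/
theorem mem_encL {w : List (Row Q)} {x : Lt Q} (h : x ∈ encL w) : x = Lt.one ∨ ∃ q π, x = Lt.row q π := by
  induction w with
  | nil => simp [encL] at h
  | cons r w ih =>
    simp only [encL, rl, List.mem_append, List.mem_cons, List.mem_replicate] at h
    rcases h with (h | h) | h
    · exact Or.inr ⟨_, _, h⟩
    · exact Or.inl h.2
    · exact ih h

theorem mem_encR {w : List (Row Q)} {x : Lt Q} (h : x ∈ encR w) :
    x = Lt.one' ∨ ∃ q π, x = Lt.row' q π := by
  induction w with
  | nil => simp [encR] at h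
  | cons r w ih =>
    simp only [encR, rr, List.mem_append, List.mem_cons, List.mem_replicate, List.not_mem_nil,
      or_false] at h
    rcases h with h | h | h
    · exact ih h
    · exact Or.inl h.2
    · exact Or.inr ⟨_, _, h⟩

private theorem K01_dL_right (z : List (Lt Q)) (hz : ∀ x ∈ z, x ≠ Lt.one ∧ ∀ q π, x ≠ Lt.row q π) :
    K01_dL z = (0, []) := by
  induction z with
  | nil => rfl
  | cons x z ih =>
    have h1 := hz x (by simp)
    have h2 := ih (fun y hy => hz y (by simp [hy]))
    cases x with
    | one => exact absurd rfl h1.1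
    | row q π => exact absurd rfl (h1.2 q π)
    | a => exact h2
    | mid => exact h2
    | b => exact h2
    | one' => exact h2
    | row' q π => exact h2

private theorem K01_count_encL_a (w : List (Row Q)) : (encL w).count Lt.a = 0 := by
  apply List.count_eq_zero_of_not_mem
  intro h
  rcases mem_encL h with h | ⟨q, π, h⟩ <;> cases h

private theorem K01_count_encL_b (w : List (Row Q)) : (encL w).count Lt.b = 0 := by
  apply List.count_eq_zero_of_not_mem
  intro h
  rcases mem_encL h with h | ⟨q, π, h⟩ <;> cases h

private theorem K01_count_encR_a (w : List (Row Q)) : (encR w).count Lt.a = 0 := by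
  apply List.count_eq_zero_of_not_mem
  intro h
  rcases mem_encR h with h | ⟨q, π, h⟩ <;> cases h

private theorem K01_count_encR_b (w : List (Row Q)) : (encR w).count Lt.b = 0 := by
  apply List.count_eq_zero_of_not_mem
  intro h
  rcases mem_encR h with h | ⟨q, π, h⟩ <;> cases h

private theorem K01_count_a (w w' : List (Row Q)) (n m : ℕ) : (enc w n m w').count Lt.a = n := by
  simp only [enc, List.count_append, K01_count_encL_a, K01_count_encR_a, List.count_replicate]
  simp

private theorem K01_count_b (w w' : List (Row Q)) (n m : ℕ) : (enc w n m w').count Lt.b = m := by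
  simp only [enc, List.count_append, K01_count_encL_b, K01_count_encR_b, List.count_replicate]
  simp

private theorem K01_dL_enc (w w' : List (Row Q)) (n m : ℕ) : K01_dL (enc w n m w') = (0, w) := by
  apply K01_dL_encL
  apply K01_dL_right
  intro x hx
  simp only [List.mem_append, List.mem_replicate, List.mem_cons, List.not_mem_nil, or_false] at hx
  rcases hx with h | h | h | h
  · rw [h.2]
    exact ⟨by simp, by simp⟩
  · rw [h]
    exact ⟨by simp, by simp⟩
  · rw [h.2]
    exact ⟨by simp, by simp⟩
  · rcases mem_encR h with h | ⟨q, π, h⟩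
    · rw [h]
      exact ⟨by simp, by simp⟩
    · rw [h]
      exact ⟨by simp, by simp⟩

theorem enc_inj {w v w' v' : List (Row Q)} {n m n' m' : ℕ}
    (h : enc w n m w' = enc v n' m' v') : w = v ∧ n = n' ∧ m = m' ∧ w' = v' := by
  have h1 : w = v := by
    have e1 := K01_dL_enc w w' n m
    rw [h, K01_dL_enc] at e1
    exact (congrArg Prod.snd e1).symm
  have h2 : n = n' := by
    have e1 := K01_count_a w w' n m
    rw [h, K01_count_a] at e1
    exact e1.symm
  have h3 : m = m' := by
    have e1 := K01_count_b w w' n m
    rw [h, K01_count_b] at e1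
    exact e1.symm
  subst h1
  subst h2
  subst h3
  refine ⟨rfl, rfl, rfl, encR_inj ?_⟩
  unfold enc at h
  exact List.append_cancel_left (List.append_cancel_left
    (List.append_cancel_left (List.append_cancel_left h)))

/-- a word over `1'` and right row letters is a right coding iff it is empty or ends with a row
letter -/
theorem exists_encR (v : List (Lt Q)) (hv : ∀ x ∈ v, x = Lt.one' ∨ ∃ q π, x = Lt.row' q π)
    (hl : v = [] ∨ ∃ u q π, v = u ++ [Lt.row' q π]) : ∃ w : List (Row Q), v = encR w := by
  have key : ∀ v : List (Lt Q), (∀ x ∈ v, x = Lt.one' ∨ ∃ q π, x = Lt.row' q π) →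
      ∃ (w : List (Row Q)) (k : ℕ), v = encR w ++ List.replicate k Lt.one' := by
    intro v
    induction v using List.reverseRecOn with
    | nil => exact fun _ => ⟨[], 0, rfl⟩
    | append_singleton v x ih =>
      intro h
      obtain ⟨w, k, hw⟩ := ih (fun y hy => h y (by simp [hy]))
      rcases h x (by simp) with rfl | ⟨q, π, rfl⟩
      · refine ⟨w, k + 1, ?_⟩
        rw [hw, List.replicate_succ', List.append_assoc]
      · refine ⟨((q, π), k) :: w, 0, ?_⟩
        rw [hw]
        simp [encR, rr]
  rcases hl with rfl | ⟨u, q, π, rfl⟩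
  · exact ⟨[], rfl⟩
  · obtain ⟨w, k, hw⟩ := key u (fun y hy => hv y (by simp [hy]))
    refine ⟨((q, π), k) :: w, ?_⟩
    rw [hw]
    simp [encR, rr]

theorem encR_last {w : List (Row Q)} (h : w ≠ []) : ∃ u q π, encR w = u ++ [Lt.row' q π] := by
  cases w with
  | nil => exact absurd rfl h
  | cons r w =>
    refine ⟨encR w ++ List.replicate r.2 Lt.one', r.1.1, r.1.2, ?_⟩
    simp [encR, rr]

private theorem K01_wt_encL (ψ : Lt Q → ℤ) (w : List (Row Q)) :
    wt ψ (encL w) = (w.map (fun r => ψ (Lt.row r.1.1 r.1.2) + (r.2 : ℤ) * ψ Lt.one)).sum := by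
  induction w with
  | nil => simp [encL]
  | cons r w ih =>
    simp only [encL, rl, wt_append, ih, wt_replicate, wt_cons, List.map_cons, List.sum_cons]

private theorem K01_wt_encR (ψ : Lt Q → ℤ) (w : List (Row Q)) :
    wt ψ (encR w) = (w.map (fun r => ψ (Lt.row' r.1.1 r.1.2) + (r.2 : ℤ) * ψ Lt.one')).sum := by
  induction w with
  | nil => simp [encR]
  | cons r w ih =>
    simp only [encR, rr, wt_append, ih, wt_replicate, wt_cons, wt_nil, List.map_cons,
      List.sum_cons]
    ring

private theorem K01_sum_const (w : List (Row Q)) (c : ℤ) : (w.map (fun _ => c)).sum = w.length * c := by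
  induction w with
  | nil => simp
  | cons r w ih =>
    simp only [List.map_cons, List.sum_cons, ih, List.length_cons]
    push_cast
    ring

private theorem K01_sum_neg (w : List (Row Q)) :
    (w.map (fun r => -(r.2 : ℤ))).sum = -(w.map (fun r => (r.2 : ℤ))).sum := by
  induction w with
  | nil => simp
  | cons r w ih =>
    simp only [List.map_cons, List.sum_cons, ih]
    ring

theorem wt_enc (w w' : List (Row Q)) (n m : ℕ) :
    wt ψμ (enc w n m w') = (w'.length : ℤ) - w.length ∧
    wt β (enc w n m w') = (w.length : ℤ) - w'.length ∧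
    wt ψm (enc w n m w') = 1 ∧
    wt ψε (enc w n m w') = (m : ℤ) - n ∧
    wt ψl (enc w n m w') = ((w'.map (fun r => (r.2 : ℤ))).sum - (w.map (fun r => (r.2 : ℤ))).sum) := by
  refine ⟨?_, ?_, ?_, ?_, ?_⟩
  · simp only [enc, wt_append, K01_wt_encL, K01_wt_encR, wt_replicate, wt_cons, wt_nil, ψμ,
      mul_zero, add_zero, K01_sum_const]
    ring
  · simp only [enc, wt_append, K01_wt_encL, K01_wt_encR, wt_replicate, wt_cons, wt_nil, β,
      mul_zero, add_zero, K01_sum_const]
    ring
  · simp only [enc, wt_append, K01_wt_encL, K01_wt_encR, wt_replicate, wt_cons, wt_nil, ψm,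
      mul_zero, add_zero, K01_sum_const]
    ring
  · simp only [enc, wt_append, K01_wt_encL, K01_wt_encR, wt_replicate, wt_cons, wt_nil, ψε,
      mul_zero, add_zero, K01_sum_const]
    ring
  · simp only [enc, wt_append, K01_wt_encL, K01_wt_encR, wt_replicate, wt_cons, wt_nil, ψl,
      mul_zero, add_zero, zero_add, mul_one, mul_neg, K01_sum_neg]
    ring

end NSI
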