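import Pool.Agent.Lib.NSI.K01

/-!
# K02 : insertion of letters into coded words

`addAt w s i` adds `i` to the number of row `s` (counted from `0`).

Recipe.  `ins_one`: `x ++ y` is a coded word and `x ++ one :: y` too (both as in the hypotheses).
The letter `one` is inserted before `mid`, and not inside the block of `a` nor before the first row
letter; so the insertion point is in the row number `(number of row letters of x) - 1`.
Prove it by induction on `w` for the left part, or via: `x` is a prefix of `encL w` (it contains no
`a`, because after an `a` no `one` may come), so `x = encL w1 ++ row :: ones` .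
Same for `ins_one'` on the right-hand side (inserting letters `1'`), where the hypothesis is that the
insertion point is right of `mid`, `x = x1 ++ mid :: x2` and that `x2` or `y` starts/ends
suitably; note that inserting `1'` into the `b` block or after the last row letter is excluded by the
second hypothesis (the word with the inserted letters is coded).
-/

set_option autoImplicit false

namespace NSI

variable {Q : ℕ}

/-- add `i` to the number of row `s` -/
def addAt (w : List (Row Q)) (s i : ℕ) : List (Row Q) := w.modify s (fun r => (r.1, r.2 + i))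

private lemma K02_cutL {α : Type} {x y A B : List α} {c : α} (h : x ++ c :: y = A ++ B)
    (hc : c ∉ B) : ∃ q, A = x ++ c :: q ∧ y = q ++ B := by
  rcases List.append_eq_append_iff.1 h with ⟨a', h1, h2⟩ | ⟨c', h1, h2⟩
  · cases a' with
    | nil =>
      exfalso
      apply hc
      rw [List.nil_append] at h2
      rw [← h2]
      simp
    | cons b q =>
      rw [List.cons_append, List.cons.injEq] at h2
      obtain ⟨rfl, h3⟩ := h2
      exact ⟨q, h1, h3⟩
  · exfalso
    apply hc
    rw [h2]
    simp

private lemma K02_cutR {α : Type} {x y A B : List α} {c : α} (h : x ++ c :: y = A ++ B)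
    (hc : c ∉ A) : ∃ p, x = A ++ p ∧ B = p ++ c :: y := by
  rcases List.append_eq_append_iff.1 h with ⟨a', h1, h2⟩ | ⟨c', h1, h2⟩
  · cases a' with
    | nil =>
      refine ⟨[], ?_, ?_⟩
      · rw [h1]
        simp
      · rw [List.nil_append] at h2
        rw [← h2]
        simp
    | cons b q =>
      exfalso
      rw [List.cons_append, List.cons.injEq] at h2
      obtain ⟨rfl, h3⟩ := h2
      apply hc
      rw [h1]
      simp
  · exact ⟨c', h1, h2⟩

private lemma K02_rep {α : Type} {p q : List α} {c : α} {k : ℕ}
    (h : List.replicate k c = p ++ q) : p = List.replicate p.length c ∧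
      q = List.replicate q.length c ∧ k = p.length + q.length := by
  refine ⟨List.eq_replicate_iff.2 ⟨rfl, fun b hb => ?_⟩,
    List.eq_replicate_iff.2 ⟨rfl, fun b hb => ?_⟩, ?_⟩
  · exact List.eq_of_mem_replicate (n := k) (by rw [h]; exact List.mem_append_left _ hb)
  · exact List.eq_of_mem_replicate (n := k) (by rw [h]; exact List.mem_append_right _ hb)
  · have := congrArg List.length h
    simpa using this

private lemma K02_addAt_zero (r : Row Q) (w : List (Row Q)) (i : ℕ) :
    addAt (r :: w) 0 i = (r.1, r.2 + i) :: w := rfl

private lemma K02_addAt_succ (r : Row Q) (w : List (Row Q)) (s i : ℕ) :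
    addAt (r :: w) (s + 1) i = r :: addAt w s i := rfl

/-- insertion into the left coding -/
private lemma K02_left (w : List (Row Q)) : ∀ (x a' : List (Lt Q)), encL w = x ++ a' → x ≠ [] →
    ∃ s < w.length, ∀ i : ℕ, x ++ (List.replicate i Lt.one ++ a') = encL (addAt w s i) := by
  induction w with
  | nil =>
    intro x a' h hx
    exfalso
    apply hx
    have : x ++ a' = [] := h.symm
    exact (List.append_eq_nil_iff.1 this).1
  | cons r w ih =>
    intro x a' h hx
    cases x with
    | nil => exact absurd rfl hx
    | cons y x =>
      have h0 : Lt.row r.1.1 r.1.2 :: (List.replicate r.2 Lt.one ++ encL w) = y :: (x ++ a') := h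
      rw [List.cons.injEq] at h0
      obtain ⟨rfl, h1⟩ := h0
      have key0 : ∀ c : List (Lt Q), List.replicate r.2 Lt.one = x ++ c → a' = c ++ encL w →
          ∃ s < (r :: w).length, ∀ i : ℕ, (Lt.row r.1.1 r.1.2 :: x) ++
            (List.replicate i Lt.one ++ a') = encL (addAt (r :: w) s i) := by
        intro c hc ha
        refine ⟨0, by simp, fun i => ?_⟩
        rw [K02_addAt_zero]
        obtain ⟨e1, e2, e3⟩ := K02_rep hc
        show _ = Lt.row r.1.1 r.1.2 :: (List.replicate (r.2 + i) Lt.one ++ encL w)
        rw [ha, e1, e2, e3]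
        simp only [List.length_replicate, List.cons_append, List.cons.injEq, true_and]
        rw [show x.length + c.length + i = x.length + (i + c.length) by ring,
          List.replicate_add, List.replicate_add]
        simp only [List.append_assoc, List.cons_append, List.nil_append]
      rcases List.append_eq_append_iff.1 h1 with ⟨c, e1, e2⟩ | ⟨c, e1, e2⟩
      · -- x = replicate ++ c, encL w = c ++ a'
        by_cases hc : c = []
        · subst hc
          rw [List.append_nil] at e1
          exact key0 [] (by rw [e1, List.append_nil]) (by rw [e2]; rfl)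
        · obtain ⟨s, hs, hi⟩ := ih c a' e2 hc
          refine ⟨s + 1, by simpa using hs, fun i => ?_⟩
          rw [K02_addAt_succ, e1]
          show _ = Lt.row r.1.1 r.1.2 :: (List.replicate r.2 Lt.one ++ encL (addAt w s i))
          rw [← hi i]
          simp only [List.append_assoc, List.cons_append, List.nil_append]
      · exact key0 c e1 e2

/-- insertion into the right coding -/
private lemma K02_right (w : List (Row Q)) : ∀ (c y : List (Lt Q)), encR w = c ++ y → y ≠ [] →
    ∃ s < w.length, ∀ i : ℕ, c ++ (List.replicate i Lt.one' ++ y) = encR (addAt w s i) := by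
  induction w with
  | nil =>
    intro c y h hy
    exfalso
    apply hy
    have : c ++ y = [] := h.symm
    exact (List.append_eq_nil_iff.1 this).2
  | cons r w ih =>
    intro c y h hy
    have h0 : encR w ++ (List.replicate r.2 Lt.one' ++ [Lt.row' r.1.1 r.1.2]) = c ++ y := h
    have key0 : ∀ c2 : List (Lt Q), c = encR w ++ c2 →
        List.replicate r.2 Lt.one' ++ [Lt.row' r.1.1 r.1.2] = c2 ++ y →
        ∃ s < (r :: w).length, ∀ i : ℕ, c ++ (List.replicate i Lt.one' ++ y) =
          encR (addAt (r :: w) s i) := by
      intro c2 hc h1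
      refine ⟨0, by simp, fun i => ?_⟩
      rw [K02_addAt_zero]
      -- `y` ends with the row letter
      obtain ⟨y2, z, rfl⟩ : ∃ y2 z, y = y2 ++ [z] :=
        ⟨y.dropLast, y.getLast hy, (List.dropLast_append_getLast hy).symm⟩
      rw [← List.append_assoc] at h1
      obtain ⟨h2, h3⟩ := List.append_inj' h1 rfl
      rw [List.cons.injEq] at h3
      obtain ⟨e1, e2, e3⟩ := K02_rep h2
      show _ = encR w ++ (List.replicate (r.2 + i) Lt.one' ++ [Lt.row' r.1.1 r.1.2])
      rw [hc, e1, e2, e3, h3.1]
      rw [show c2.length + y2.length + i = c2.length + (i + y2.length) by ring,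
        List.replicate_add, List.replicate_add]
      simp only [List.append_assoc, List.cons_append, List.nil_append]
    rcases List.append_eq_append_iff.1 h0 with ⟨c2, e1, e2⟩ | ⟨c3, e1, e2⟩
    · exact key0 c2 e1 e2
    · by_cases hc : c3 = []
      · subst hc
        rw [List.append_nil] at e1
        rw [List.nil_append] at e2
        exact key0 [] (by rw [e1, List.append_nil]) (by rw [← e2, List.nil_append])
      · obtain ⟨s, hs, hi⟩ := ih c c3 e1 hc
        refine ⟨s + 1, by simpa using hs, fun i => ?_⟩
        rw [K02_addAt_succ, e2]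
        show _ = encR (addAt w s i) ++ (List.replicate r.2 Lt.one' ++ [Lt.row' r.1.1 r.1.2])
        rw [← hi i]
        simp only [List.append_assoc, List.cons_append, List.nil_append]

private lemma K02_not_mem_R {w' : List (Row Q)} {x : Lt Q} (h1 : x ≠ Lt.one')
    (h2 : ∀ q π, x ≠ Lt.row' q π) : x ∉ encR w' := by
  intro h
  rcases mem_encR h with h | ⟨q, π, h⟩
  · exact h1 h
  · exact h2 q π h

private lemma K02_not_mem_L {w : List (Row Q)} {x : Lt Q} (h1 : x ≠ Lt.one)
    (h2 : ∀ q π, x ≠ Lt.row q π) : x ∉ encL w := by
  intro h
  rcases mem_encL h with h | ⟨q, π, h⟩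
  · exact h1 h
  · exact h2 q π h

private lemma K02_not_rep {x c : Lt Q} {k : ℕ} (h : x ≠ c) : x ∉ List.replicate k c :=
  fun hx => h (List.eq_of_mem_replicate hx)

theorem ins_one (x y : List (Lt Q)) (w w' v v' : List (Row Q)) (n m n' m' : ℕ)
    (h : x ++ y = enc w n m w') (h' : x ++ Lt.one :: y = enc v n' m' v') :
    ∃ s < w.length, ∀ i : ℕ, x ++ (List.replicate i Lt.one ++ y) = enc (addAt w s i) n m w' := by
  have hT : Lt.one ∉ List.replicate n' Lt.a ++ ([Lt.mid] ++ (List.replicate m' Lt.b ++ encR v')) := by
    intro hx
    rcases List.mem_append.1 hx with hx | hx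
    · exact K02_not_rep (by simp) hx
    · rcases List.mem_append.1 hx with hx | hx
      · simp at hx
      · rcases List.mem_append.1 hx with hx | hx
        · exact K02_not_rep (by simp) hx
        · exact K02_not_mem_R (by simp) (by simp) hx
  obtain ⟨q, hq, -⟩ := K02_cutL h' hT
  have hxl : ∀ z ∈ x, z = Lt.one ∨ ∃ q π, z = Lt.row q π := by
    intro z hz
    exact mem_encL (w := v) (by rw [hq]; exact List.mem_append_left _ hz)
  have hx0 : x ≠ [] := by
    rintro rfl
    cases v with
    | nil => simp [encL] at hq
    | cons r v => simp [encL, rl] at hq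
  set R := List.replicate n Lt.a ++ ([Lt.mid] ++ (List.replicate m Lt.b ++ encR w')) with hR
  have hsplit : ∃ a', encL w = x ++ a' ∧ y = a' ++ R := by
    rcases List.append_eq_append_iff.1 h with ⟨a', h1, h2⟩ | ⟨c', h1, h2⟩
    · exact ⟨a', h1, h2⟩
    · cases c' with
      | nil => exact ⟨[], by rw [h1]; simp, by rw [List.nil_append]; exact h2.symm⟩
      | cons z c' =>
        exfalso
        have hz := hxl z (by rw [h1]; simp)
        have hz2 : z = Lt.a ∨ z = Lt.mid := by
          cases n with
          | zero =>
            right
            have h3 : Lt.mid :: (List.replicate m Lt.b ++ encR w') = z :: (c' ++ y) := by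
              simpa using h2
            rw [List.cons.injEq] at h3
            exact h3.1.symm
          | succ n =>
            left
            have h3 : Lt.a :: (List.replicate n Lt.a ++ ([Lt.mid] ++
              (List.replicate m Lt.b ++ encR w'))) = z :: (c' ++ y) := by
              simpa [List.replicate_succ] using h2
            rw [List.cons.injEq] at h3
            exact h3.1.symm
        rcases hz with rfl | ⟨q', π', rfl⟩ <;> simp at hz2
  obtain ⟨a', h1, h2⟩ := hsplit
  obtain ⟨s, hs, hi⟩ := K02_left w x a' h1 hx0
  refine ⟨s, hs, fun i => ?_⟩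
  show _ = encL (addAt w s i) ++ R
  rw [← hi i, h2]
  simp only [List.append_assoc, List.cons_append, List.nil_append]

theorem ins_one' (x y : List (Lt Q)) (w w' v v' : List (Row Q)) (n m n' m' : ℕ)
    (h : x ++ y = enc w n m w') (h' : x ++ Lt.one' :: y = enc v n' m' v') :
    ∃ s < w'.length, ∀ i : ℕ, x ++ (List.replicate i Lt.one' ++ y) = enc w n m (addAt w' s i) := by
  have hform : ∀ (w : List (Row Q)) (n m : ℕ) (w' : List (Row Q)), enc w n m w' =
      (encL w ++ (List.replicate n Lt.a ++ ([Lt.mid] ++ List.replicate m Lt.b))) ++ encR w' := by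
    intro w n m w'
    simp [enc, List.append_assoc]
  rw [hform] at h'
  have hT : Lt.one' ∉ encL v ++ (List.replicate n' Lt.a ++ ([Lt.mid] ++ List.replicate m' Lt.b)) := by
    intro hx
    rcases List.mem_append.1 hx with hx | hx
    · exact K02_not_mem_L (by simp) (by simp) hx
    · rcases List.mem_append.1 hx with hx | hx
      · exact K02_not_rep (by simp) hx
      · rcases List.mem_append.1 hx with hx | hx
        · simp at hx
        · exact K02_not_rep (by simp) hx
  obtain ⟨p, -, hp⟩ := K02_cutR h' hT
  have hyl : ∀ z ∈ y, z = Lt.one' ∨ ∃ q π, z = Lt.row' q π := by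
    intro z hz
    exact mem_encR (w := v') (by rw [hp]; simp [hz])
  have hy0 : y ≠ [] := by
    rintro rfl
    have hv : v' ≠ [] := by
      rintro rfl
      simp [encR] at hp
    obtain ⟨u, q, π, hu⟩ := encR_last hv
    rw [hu] at hp
    obtain ⟨-, h3⟩ := List.append_inj' hp rfl
    simp at h3
  rw [hform] at h
  set P := encL w ++ (List.replicate n Lt.a ++ ([Lt.mid] ++ List.replicate m Lt.b)) with hP
  have hsplit : ∃ c, x = P ++ c ∧ encR w' = c ++ y := by
    rcases List.append_eq_append_iff.1 h with ⟨a', h1, h2⟩ | ⟨c', h1, h2⟩
    · by_cases ha : a' = []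
      · subst ha
        rw [List.append_nil] at h1
        rw [List.nil_append] at h2
        exact ⟨[], by rw [h1]; simp, by rw [h2]; simp⟩
      · exfalso
        obtain ⟨a2, z, rfl⟩ : ∃ a2 z, a' = a2 ++ [z] :=
          ⟨a'.dropLast, a'.getLast ha, (List.dropLast_append_getLast ha).symm⟩
        have hz := hyl z (by rw [h2]; simp)
        have hz2 : z = Lt.b ∨ z = Lt.mid := by
          cases m with
          | zero =>
            right
            have h3 : (encL w ++ List.replicate n Lt.a) ++ [Lt.mid] = (x ++ a2) ++ [z] := by
              rw [hP] at h1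
              simpa [List.append_assoc] using h1
            obtain ⟨-, h4⟩ := List.append_inj' h3 rfl
            rw [List.cons.injEq] at h4
            exact h4.1.symm
          | succ m =>
            left
            have h3 : (encL w ++ (List.replicate n Lt.a ++ ([Lt.mid] ++ List.replicate m Lt.b))) ++
                [Lt.b] = (x ++ a2) ++ [z] := by
              rw [hP] at h1
              simpa [List.append_assoc, List.replicate_succ'] using h1
            obtain ⟨-, h4⟩ := List.append_inj' h3 rfl
            rw [List.cons.injEq] at h4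
            exact h4.1.symm
        rcases hz with rfl | ⟨q', π', rfl⟩ <;> simp at hz2
    · exact ⟨c', h1, h2⟩
  obtain ⟨c, h1, h2⟩ := hsplit
  obtain ⟨s, hs, hi⟩ := K02_right w' c y h2 hy0
  refine ⟨s, hs, fun i => ?_⟩
  rw [hform, ← hP, ← hi i, h1]
  simp only [List.append_assoc, List.cons_append, List.nil_append]

theorem ins_a (x y : List (Lt Q)) (w w' v v' : List (Row Q)) (n m n' m' : ℕ)
    (h : x ++ y = enc w n m w') (h' : x ++ Lt.a :: y = enc v n' m' v') (i : ℕ) :
    x ++ (List.replicate i Lt.a ++ y) = enc w (n + i) m w' := by
  have hL : Lt.a ∉ encL v := K02_not_mem_L (by simp) (by simp)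
  obtain ⟨p, hp, hp2⟩ := K02_cutR h' hL
  have hT : Lt.a ∉ [Lt.mid] ++ (List.replicate m' Lt.b ++ encR v') := by
    intro hx
    rcases List.mem_append.1 hx with hx | hx
    · simp at hx
    · rcases List.mem_append.1 hx with hx | hx
      · exact K02_not_rep (by simp) hx
      · exact K02_not_mem_R (by simp) (by simp) hx
  obtain ⟨q, hq, hq2⟩ := K02_cutL hp2.symm hT
  obtain ⟨e1, e2, e3⟩ := K02_rep hq
  obtain ⟨-, e4, -⟩ := K02_rep (p := p ++ [Lt.a]) (q := q) (by rw [hq]; simp)
  have hxy : x ++ y = enc v (p.length + q.length) m' v' := by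
    rw [hp, hq2, e1, e4]
    simp only [enc, List.length_replicate]
    rw [List.replicate_add]
    simp only [List.append_assoc, List.cons_append, List.nil_append]
  rw [h] at hxy
  obtain ⟨rfl, rfl, rfl, rfl⟩ := enc_inj hxy
  rw [hp, hq2, e1, e4]
  simp only [enc, List.length_replicate]
  rw [show p.length + q.length + i = p.length + (i + q.length) by ring,
    List.replicate_add, List.replicate_add]
  simp only [List.append_assoc, List.cons_append, List.nil_append]

theorem ins_b (x y : List (Lt Q)) (w w' v v' : List (Row Q)) (n m n' m' : ℕ)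
    (h : x ++ y = enc w n m w') (h' : x ++ Lt.b :: y = enc v n' m' v') (i : ℕ) :
    x ++ (List.replicate i Lt.b ++ y) = enc w n (m + i) w' := by
  have hform : ∀ (w : List (Row Q)) (n m : ℕ) (w' : List (Row Q)), enc w n m w' =
      (encL w ++ (List.replicate n Lt.a ++ [Lt.mid])) ++ (List.replicate m Lt.b ++ encR w') := by
    intro w n m w'
    simp [enc, List.append_assoc]
  have hL : Lt.b ∉ encL v ++ (List.replicate n' Lt.a ++ [Lt.mid]) := by
    intro hx
    rcases List.mem_append.1 hx with hx | hx
    · exact K02_not_mem_L (by simp) (by simp) hx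
    · rcases List.mem_append.1 hx with hx | hx
      · exact K02_not_rep (by simp) hx
      · simp at hx
  have h2 := h'
  rw [hform] at h2
  obtain ⟨p, hp, hp2⟩ := K02_cutR h2 hL
  have hT : Lt.b ∉ encR v' := K02_not_mem_R (by simp) (by simp)
  obtain ⟨q, hq, hq2⟩ := K02_cutL hp2.symm hT
  obtain ⟨e1, e2, e3⟩ := K02_rep hq
  obtain ⟨-, e4, -⟩ := K02_rep (p := p ++ [Lt.b]) (q := q) (by rw [hq]; simp)
  have hxy : x ++ y = enc v n' (p.length + q.length) v' := by
    rw [hp, hq2, e1, e4]
    simp only [hform, List.length_replicate]
    rw [List.replicate_add]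
    simp only [List.append_assoc, List.cons_append, List.nil_append]
  rw [h] at hxy
  obtain ⟨rfl, rfl, rfl, rfl⟩ := enc_inj hxy
  rw [hp, hq2, e1, e4]
  simp only [hform, List.length_replicate]
  rw [show p.length + q.length + i = p.length + (i + q.length) by ring,
    List.replicate_add, List.replicate_add]
  simp only [List.append_assoc, List.cons_append, List.nil_append]

end NSI
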