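import Pool.Agent.Lib.NSI.K02

/-!
# K03 : K is closed under adding letters on the right-hand side

Recipe.  `up_one'`: case analysis.  More rows on the right: same lengths.  (A): `Forall₂ LeRow` is
preserved and `w ≠ addAt w' s i` for `i > 0` (some number of `w'` is larger than that of `w`).
(C): if the row `s` is one of the two free rows of the window, keep the window; otherwise
`Forall₂ LeRow w1 w1'` or `Forall₂ LeRow w2 w2'` is preserved.
-/

set_option autoImplicit false

namespace NSI

section
variable {Q : ℕ}

private theorem K03_length (w : List (Row Q)) (s i : ℕ) : (addAt w s i).length = w.length := by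
  simp [addAt]

private theorem K03_cons_zero (r : Row Q) (w : List (Row Q)) (i : ℕ) :
    addAt (r :: w) 0 i = (r.1, r.2 + i) :: w := by
  simp [addAt]

private theorem K03_cons_succ (r : Row Q) (w : List (Row Q)) (s i : ℕ) :
    addAt (r :: w) (s + 1) i = r :: addAt w s i := by
  simp [addAt]

private theorem K03_zero (w : List (Row Q)) (s : ℕ) : addAt w s 0 = w := by
  induction w generalizing s with
  | nil => simp [addAt]
  | cons r w ih =>
    cases s with
    | zero => rw [K03_cons_zero]; simp
    | succ s => rw [K03_cons_succ, ih s]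

private theorem K03_le (w w' : List (Row Q)) (s i : ℕ) (h : List.Forall₂ LeRow w w') :
    List.Forall₂ LeRow w (addAt w' s i) := by
  induction h generalizing s with
  | nil => simp [addAt]
  | cons h1 h2 ih =>
    cases s with
    | zero =>
      rw [K03_cons_zero]
      exact List.Forall₂.cons ⟨h1.1, h1.2.trans (Nat.le_add_right _ _)⟩ h2
    | succ s =>
      rw [K03_cons_succ]
      exact List.Forall₂.cons h1 (ih s)

private theorem K03_out (w : List (Row Q)) (s i : ℕ) (h : w.length ≤ s) : addAt w s i = w := by
  induction w generalizing s with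
  | nil => simp [addAt]
  | cons r w ih =>
    cases s with
    | zero => simp at h
    | succ s =>
      rw [K03_cons_succ, ih s (by simpa using h)]

private theorem K03_sum (w : List (Row Q)) (s i : ℕ) (h : s < w.length) :
    ((addAt w s i).map (fun r => r.2)).sum = (w.map (fun r => r.2)).sum + i := by
  induction w generalizing s with
  | nil => simp at h
  | cons r w ih =>
    cases s with
    | zero =>
      rw [K03_cons_zero]
      simp only [List.map_cons, List.sum_cons]
      ring
    | succ s =>
      rw [K03_cons_succ]
      simp only [List.map_cons, List.sum_cons, ih s (by simpa using h)]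
      ring

private theorem K03_sum_le {w w' : List (Row Q)} (h : List.Forall₂ LeRow w w') :
    (w.map (fun r => r.2)).sum ≤ (w'.map (fun r => r.2)).sum := by
  induction h with
  | nil => simp
  | cons h1 h2 ih =>
    simp only [List.map_cons, List.sum_cons]
    exact Nat.add_le_add h1.2 ih

private theorem K03_append (w v : List (Row Q)) (s i : ℕ) :
    addAt (w ++ v) s i = if s < w.length then addAt w s i ++ v
      else w ++ addAt v (s - w.length) i := by
  induction w generalizing s with
  | nil => simp
  | cons r w ih =>
    cases s with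
    | zero => simp [K03_cons_zero]
    | succ s =>
      rw [List.cons_append, K03_cons_succ, ih s, K03_cons_succ]
      by_cases hs : s < w.length
      · simp [hs]
      · simp [hs]

end

theorem up_one' (𝓜 : Mach) (E : ℕ) (w w' : List (Row 𝓜.Q)) (n m s i : ℕ)
    (h : InK 𝓜 E w n m w') : InK 𝓜 E w n m (addAt w' s i) := by
  by_cases hs : s < w'.length
  swap
  · rw [K03_out w' s i (by omega)]
    exact h
  rcases Nat.eq_zero_or_pos i with rfl | hi
  · rw [K03_zero]
    exact h
  obtain ⟨h1, h2, h3⟩ := h
  refine ⟨h1, h2, ?_⟩
  rcases h3 with h3 | h3 | h3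
  · left
    rw [K03_length]
    exact h3
  · right
    left
    refine ⟨K03_le _ _ s i h3.1, Or.inr ?_⟩
    intro hw
    have e1 := K03_sum w' s i hs
    rw [← hw] at e1
    have e2 := K03_sum_le h3.1
    omega
  · right
    right
    obtain ⟨w1, w2, w1', w2', r, t, r', t', e1, e2, e3, e4, e5, e6, e7⟩ := h3
    subst e1
    subst e2
    by_cases c1 : s < w1'.length
    · refine ⟨w1, w2, addAt w1' s i, w2', r, t, r', t', rfl, ?_, K03_le _ _ s i e3, e4, e5, e6, e7⟩
      rw [K03_append, if_pos c1]
    · rw [K03_append, if_neg c1]
      obtain ⟨k, hk⟩ : ∃ k, s - w1'.length = k := ⟨_, rfl⟩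
      rw [hk]
      rcases k with _ | _ | k
      · rw [K03_cons_zero]
        exact ⟨w1, w2, w1', w2', r, t, _, t', rfl, rfl, e3, e4, e5, e6, e7⟩
      · rw [K03_cons_succ, K03_cons_zero]
        exact ⟨w1, w2, w1', w2', r, t, r', _, rfl, rfl, e3, e4, e5, e6, e7⟩
      · rw [K03_cons_succ, K03_cons_succ]
        exact ⟨w1, w2, w1', addAt w2' k i, r, t, r', t', rfl, rfl, e3, K03_le _ _ k i e4, e5, e6,
          e7⟩

theorem up_rows (𝓜 : Mach) (E : ℕ) (w w' v' : List (Row 𝓜.Q)) (n m : ℕ)
    (h : InK 𝓜 E w n m w') (hl : w'.length < v'.length) : InK 𝓜 E w n m v' := by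
  obtain ⟨h1, h2, h3⟩ := h
  refine ⟨h1, h2, Or.inl ?_⟩
  rcases h3 with h3 | h3 | h3
  · exact h3.trans hl
  · rw [h3.1.length_eq]
    exact hl
  · obtain ⟨w1, w2, w1', w2', r, t, r', t', e1, e2, e3, e4, e5, e6, e7⟩ := h3
    subst e1
    subst e2
    have f1 := e3.length_eq
    have f2 := e4.length_eq
    simp only [List.length_append, List.length_cons] at hl ⊢
    omega

end NSI
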