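import Pool.Agent.Lib.NSI.K02

/-!
# K04 : case (H1): letters `1` added in two rows of the left-hand side
-/

set_option autoImplicit false

namespace NSI

private theorem K04_addAt_fst {Q : ℕ} (w : List (Row Q)) (s a : ℕ) :
    (addAt w s a).map Prod.fst = w.map Prod.fst := by
  induction w generalizing s with
  | nil => simp [addAt]
  | cons r w ih =>
    cases s with
    | zero => simp [addAt]
    | succ s =>
      have := ih s
      simp only [addAt] at this
      simp [addAt, this]

private theorem K04_length {Q : ℕ} (w : List (Row Q)) (s a : ℕ) :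
    (addAt w s a).length = w.length := by
  simp [addAt]

private theorem K04_zero {Q : ℕ} (w : List (Row Q)) (s : ℕ) : addAt w s 0 = w := by
  have h1 : (fun r : Row Q => (r.1, r.2 + 0)) = id := by
    funext r; simp
  rw [addAt, h1, List.modify_id]

private theorem K04_same {Q : ℕ} (w : List (Row Q)) (s a b : ℕ) :
    addAt (addAt w s a) s b = addAt w s (a + b) := by
  induction w generalizing s with
  | nil => simp [addAt]
  | cons r w ih =>
    cases s with
    | zero => simp [addAt, Nat.add_assoc]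
    | succ s =>
      have := ih s
      simp only [addAt] at this
      simp [addAt, this]

private theorem K04_comm {Q : ℕ} (w : List (Row Q)) (s t a b : ℕ) :
    addAt (addAt w s a) t b = addAt (addAt w t b) s a := by
  induction w generalizing s t with
  | nil => simp [addAt]
  | cons r w ih =>
    cases s with
    | zero =>
      cases t with
      | zero => simp [addAt, Nat.add_right_comm]
      | succ t => simp [addAt]
    | succ s =>
      cases t with
      | zero => simp [addAt]
      | succ t =>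
        have := ih s t
        simp only [addAt] at this
        simp [addAt, this]

private theorem K04_head {Q : ℕ} (w : List (Row Q)) (s a : ℕ) (hs : s ≠ 0) :
    (addAt w s a).head? = w.head? := by
  cases w with
  | nil => simp [addAt]
  | cons r w =>
    cases s with
    | zero => exact absurd rfl hs
    | succ s => simp [addAt]

private theorem K04_FF (𝓜 : Mach) (E : ℕ) (w : List (Row 𝓜.Q)) (s a : ℕ) (hs : s ≠ 0)
    (h : FF 𝓜 E w) : FF 𝓜 E (addAt w s a) := by
  obtain ⟨h1, h2, r, h3, h4⟩ := h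
  refine ⟨by rw [K04_head w s a hs]; exact h1, ?_, ?_⟩
  · have h5 : List.IsChain (fun r s : Fin 𝓜.Q × Bool => s.2 = !r.2) (w.map Prod.fst) := by
      rw [List.isChain_map]; exact h2
    rw [← K04_addAt_fst w s a, List.isChain_map] at h5
    exact h5
  · have h6 : (w.map Prod.fst).getLast? = some r.1 := by
      rw [List.getLast?_map, h3]; rfl
    rw [← K04_addAt_fst w s a, List.getLast?_map] at h6
    cases h7 : (addAt w s a).getLast? with
    | none => rw [h7] at h6; simp at h6
    | some x =>
      rw [h7] at h6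
      simp only [Option.map_some, Option.some.injEq] at h6
      exact ⟨x, rfl, by rw [h6]; exact h4⟩

/-- modification in an appended list, second part -/
private theorem K04_app {Q : ℕ} (w1 w2 : List (Row Q)) (s a : ℕ) :
    addAt (w1 ++ w2) (w1.length + s) a = w1 ++ addAt w2 s a := by
  induction w1 with
  | nil => simp
  | cons r w1 ih =>
    have h1 : (r :: w1).length + s = (w1.length + s) + 1 := by simp; omega
    rw [h1]
    simp only [addAt] at ih
    simp [addAt, ih]

/-- numbers of a row after addition -/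
private theorem K04_get {Q : ℕ} (w : List (Row Q)) (s a : ℕ) (hs : s < w.length) :
    (addAt w s a)[s]? = some ((w[s]).1, (w[s]).2 + a) := by
  simp [addAt, hs]

private theorem K04_get_ne {Q : ℕ} (w : List (Row Q)) (s t a : ℕ) (hst : s ≠ t) :
    (addAt w s a)[t]? = w[t]? := by
  simp [addAt, hst]

private theorem K04_get_ge {Q : ℕ} (w : List (Row Q)) (s t a : ℕ) (r : Row Q)
    (h : w[t]? = some r) : ∃ r', (addAt w s a)[t]? = some r' ∧ r.2 ≤ r'.2 := by
  by_cases hst : s = t
  · subst hst
    exact ⟨(r.1, r.2 + a), by simp [addAt, h], by simp⟩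
  · exact ⟨r, by rw [K04_get_ne w s t a hst]; exact h, le_rfl⟩

/-- a comparison of lists of rows forces numbers -/
private theorem K04_forall₂ {Q : ℕ} {u v : List (Row Q)} (h : List.Forall₂ LeRow u v) (t : ℕ)
    (r : Row Q) (hr : u[t]? = some r) : ∃ r', v[t]? = some r' ∧ r.2 ≤ r'.2 := by
  induction h generalizing t with
  | nil => simp at hr
  | cons hab _ ih =>
    cases t with
    | zero =>
      simp only [List.getElem?_cons_zero, Option.some.injEq] at hr ⊢
      subst hr
      exact ⟨_, rfl, hab.2⟩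
    | succ t =>
      simp only [List.getElem?_cons_succ] at hr ⊢
      exact ih t hr

/-- a window which contains all rows with large numbers -/
private theorem K04_window {Q : ℕ} {w1 w2 w1' w2' : List (Row Q)} {r s r' s' : Row Q} (B : ℕ)
    (hB : ∀ x ∈ w1' ++ r' :: s' :: w2', x.2 < B)
    (h1 : List.Forall₂ LeRow w1 w1') (h2 : List.Forall₂ LeRow w2 w2') (t : ℕ) (x : Row Q)
    (hx : (w1 ++ r :: s :: w2)[t]? = some x) (hxB : B ≤ x.2) :
    t = w1.length ∨ t = w1.length + 1 := by
  by_contra hne
  push Not at hne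
  obtain ⟨hne1, hne2⟩ := hne
  rcases Nat.lt_or_ge t w1.length with hlt | hge
  · rw [List.getElem?_append_left hlt] at hx
    obtain ⟨y, hy, hxy⟩ := K04_forall₂ h1 t x hx
    have hmem : y ∈ w1' := List.mem_of_getElem? hy
    have := hB y (List.mem_append_left _ hmem)
    omega
  · obtain ⟨u, rfl⟩ : ∃ u, t = w1.length + (u + 2) := ⟨t - w1.length - 2, by omega⟩
    rw [List.getElem?_append_right (by omega)] at hx
    have h3 : w1.length + (u + 2) - w1.length = u + 1 + 1 := by omega
    rw [h3, List.getElem?_cons_succ, List.getElem?_cons_succ] at hx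
    obtain ⟨y, hy, hxy⟩ := K04_forall₂ h2 u x hx
    have hmem : y ∈ w2' := List.mem_of_getElem? hy
    have := hB y (List.mem_append_right _ (List.mem_cons_of_mem _ (List.mem_cons_of_mem _ hmem)))
    omega

/-- one of two numbers in the second row makes the transition incorrect -/
private theorem K04_invalid (𝓜 : Mach) (r s : Row 𝓜.Q) (a b : ℕ) (hab : a ≠ b) :
    ¬ Valid 𝓜 r (s.1, s.2 + a) ∨ ¬ Valid 𝓜 r (s.1, s.2 + b) := by
  by_contra hcon
  push Not at hcon
  obtain ⟨h1, h2⟩ := hcon
  unfold Valid at h1 h2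
  rw [h1] at h2
  have := congrArg Prod.snd h2
  simp only at this
  omega

/-- the main step: two rows of the window -/
private theorem K04_main (𝓜 : Mach) (E : ℕ) (W : List (Row 𝓜.Q)) (w' : List (Row 𝓜.Q))
    (n m s j : ℕ) (hj : 0 < j) (w1 w2 w1' w2' : List (Row 𝓜.Q)) (r q r' q' : Row 𝓜.Q)
    (hFF : ∀ a, FF 𝓜 E (addAt W s a)) (hnm : n ≤ m)
    (hW : W = w1 ++ r :: q :: w2) (hw' : w' = w1' ++ r' :: q' :: w2')
    (h1 : List.Forall₂ LeRow w1 w1') (h2 : List.Forall₂ LeRow w2 w2')
    (h3 : r.1.1 ≠ 𝓜.qh) (h4 : Reg r.1.2 n m) (hs : s = w1.length + 1) :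
    ∃ d : ℕ, 0 < d ∧ InK 𝓜 E (addAt W s (d * j)) n m w' := by
  have hadd : ∀ a, addAt W s a = w1 ++ r :: (q.1, q.2 + a) :: w2 := by
    intro a
    rw [hW, hs, K04_app]
    simp [addAt]
  rcases K04_invalid 𝓜 r q (1 * j) (2 * j) (by omega) with h5 | h5
  · refine ⟨1, by omega, hFF _, hnm, Or.inr (Or.inr ?_)⟩
    exact ⟨w1, w2, w1', w2', r, _, r', q', hadd _, hw', h1, h2, h3, h5, h4⟩
  · refine ⟨2, by omega, hFF _, hnm, Or.inr (Or.inr ?_)⟩
    exact ⟨w1, w2, w1', w2', r, _, r', q', hadd _, hw', h1, h2, h3, h5, h4⟩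

theorem case_H1 (𝓜 : Mach) (E : ℕ) (w w' : List (Row 𝓜.Q)) (n m s t i j : ℕ) (hi : 0 < i)
    (hj : 0 < j) (hs : s < w.length) (ht : t < w.length)
    (h : ∀ k : ℕ, InK 𝓜 E (addAt (addAt w s (k * i)) t (k * j)) n m w') :
    ∃ k l : ℕ, k ≠ l ∧ InK 𝓜 E (addAt (addAt w s (k * i)) t (l * j)) n m w' := by
  -- `s`, `t` are not `0`
  have h0 : FF 𝓜 E w := by
    have h1 := (h 0).1
    rw [Nat.zero_mul, Nat.zero_mul, K04_zero, K04_zero] at h1
    exact h1
  have hhead : ∀ k, (addAt (addAt w s (k * i)) t (k * j)).head? = some ((𝓜.q0, false), E) :=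
    fun k => (h k).1.1
  have hs0 : s ≠ 0 := by
    rintro rfl
    have h1 := hhead 1
    have h2 := h0.1
    rw [List.head?_eq_getElem?] at h1 h2
    have h3 : (addAt w 0 (1 * i))[0]? = some ((𝓜.q0, false), E + 1 * i) := by
      simp [addAt, h2]
    obtain ⟨r', hr', hle⟩ := K04_get_ge _ t 0 (1 * j) _ h3
    rw [hr'] at h1
    simp only [Option.some.injEq] at h1
    subst h1
    simp at hle
    omega
  have ht0 : t ≠ 0 := by
    rintro rfl
    have h1 := hhead 1
    have h2 := h0.1
    rw [K04_comm] at h1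
    rw [List.head?_eq_getElem?] at h1 h2
    have h3 : (addAt w 0 (1 * j))[0]? = some ((𝓜.q0, false), E + 1 * j) := by
      simp [addAt, h2]
    obtain ⟨r', hr', hle⟩ := K04_get_ge _ s 0 (1 * i) _ h3
    rw [hr'] at h1
    simp only [Option.some.injEq] at h1
    subst h1
    simp at hle
    omega
  have hFF : ∀ a b, FF 𝓜 E (addAt (addAt w s a) t b) := fun a b =>
    K04_FF 𝓜 E _ t b ht0 (K04_FF 𝓜 E _ s a hs0 h0)
  have hnm : n ≤ m := (h 0).2.1
  by_cases hlen : w.length < w'.length
  · refine ⟨0, 1, by omega, hFF _ _, hnm, Or.inl ?_⟩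
    rw [K04_length, K04_length]
    exact hlen
  by_cases hst : s = t
  · subst hst
    refine ⟨i + j, 0, by omega, ?_⟩
    have h1 := h i
    rw [K04_same] at h1 ⊢
    have h2 : (i + j) * i + 0 * j = i * i + i * j := by ring
    rw [h2]
    exact h1
  -- a bound for all numbers of `w'`
  obtain ⟨B, hB⟩ : ∃ B : ℕ, ∀ x ∈ w', x.2 < B := by
    refine ⟨(w'.map Prod.snd).sum + 1, fun x hx => ?_⟩
    have : x.2 ≤ (w'.map Prod.snd).sum := List.le_sum_of_mem (List.mem_map_of_mem hx)
    omega
  set W := addAt (addAt w s (B * i)) t (B * j) with hWdef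
  have hget_s : ∃ x, W[s]? = some x ∧ B ≤ x.2 := by
    have h3 := K04_get w s (B * i) hs
    obtain ⟨r', hr', hle⟩ := K04_get_ge _ t s (B * j) _ h3
    refine ⟨r', hr', ?_⟩
    simp only at hle
    nlinarith
  have hget_t : ∃ x, W[t]? = some x ∧ B ≤ x.2 := by
    have h3 := K04_get w t (B * j) ht
    obtain ⟨r', hr', hle⟩ := K04_get_ge _ s t (B * i) _ h3
    refine ⟨r', by rw [hWdef, K04_comm]; exact hr', ?_⟩
    simp only at hle
    nlinarith
  obtain ⟨xs, hxs, hxsB⟩ := hget_s
  obtain ⟨xt, hxt, hxtB⟩ := hget_t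
  rcases (h B).2.2 with h1 | h1 | h1
  · rw [K04_length, K04_length] at h1
    exact absurd h1 hlen
  · obtain ⟨y, hy, hxy⟩ := K04_forall₂ h1.1 s xs hxs
    have := hB y (List.mem_of_getElem? hy)
    omega
  · obtain ⟨w1, w2, w1', w2', r, q, r', q', hW, hw', hF1, hF2, hr, -, hreg⟩ := h1
    rw [← hWdef] at hW
    rw [hw'] at hB
    have hs1 := K04_window B hB hF1 hF2 s xs (by rw [← hW]; exact hxs) hxsB
    have ht1 := K04_window B hB hF1 hF2 t xt (by rw [← hW]; exact hxt) hxtB
    rcases Nat.lt_or_ge s t with hlt | hge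
    · -- `s = p`, `t = p + 1`
      have hFF' : ∀ a, FF 𝓜 E (addAt W t a) := fun a => by
        rw [hWdef, K04_same]; exact hFF _ _
      obtain ⟨d, hd, hd2⟩ := K04_main 𝓜 E W w' n m t j hj w1 w2 w1' w2' r q r' q' hFF' hnm hW hw'
        hF1 hF2 hr hreg (by omega)
      refine ⟨B, B + d, by omega, ?_⟩
      rw [hWdef, K04_same] at hd2
      have h2 : (B + d) * j = B * j + d * j := by ring
      rw [h2]
      exact hd2
    · have hFF' : ∀ a, FF 𝓜 E (addAt W s a) := fun a => by
        rw [hWdef, K04_comm w s t, K04_same, K04_comm w t s]; exact hFF _ _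
      obtain ⟨d, hd, hd2⟩ := K04_main 𝓜 E W w' n m s i hi w1 w2 w1' w2' r q r' q' hFF' hnm hW hw'
        hF1 hF2 hr hreg (by omega)
      refine ⟨B + d, B, by omega, ?_⟩
      rw [hWdef, K04_comm w s t, K04_same, K04_comm w t s] at hd2
      have h2 : (B + d) * i = B * i + d * i := by ring
      rw [h2]
      exact hd2

end NSI
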