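import Pool.Agent.Lib.NSI.K02

/-!
# K05 : case (H2): letters `1` added on the left-hand side together with letters `b`

Recipe.  If `w.length < w'.length` take `(k, l) = (0, 1)` (`n ≤ m + j`).  Otherwise choose `k` so
large that row `s` violates `LeRow` and `m + k * j > 2 * n`.  Then case (C) holds for `(k, k)` with
region `true`; it also holds for `(k, k + 1)`.
-/

set_option autoImplicit false

namespace NSI

private theorem K05_len {Q : ℕ} (w : List (Row Q)) (s i : ℕ) : (addAt w s i).length = w.length := by
  unfold addAt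
  simp

theorem case_H2 (𝓜 : Mach) (E : ℕ) (w w' : List (Row 𝓜.Q)) (n m s i j : ℕ) (hi : 0 < i)
    (hj : 0 < j) (hs : s < w.length)
    (h : ∀ k : ℕ, InK 𝓜 E (addAt w s (k * i)) n (m + k * j) w') :
    ∃ k l : ℕ, k ≠ l ∧ InK 𝓜 E (addAt w s (k * i)) n (m + l * j) w' := by
  by_cases hlen : w.length < w'.length
  · obtain ⟨h1, h2, _⟩ := h 0
    refine ⟨0, 1, by norm_num, h1, ?_, Or.inl ?_⟩
    · omega
    · rw [K05_len]; exact hlen
  · set k : ℕ := (w'.map Prod.snd).sum + 2 * n + 1 with hk
    obtain ⟨h1, h2, h3⟩ := h k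
    have hki : k ≤ k * i := Nat.le_mul_of_pos_right _ hi
    have hkj : k ≤ k * j := Nat.le_mul_of_pos_right _ hj
    refine ⟨k, k + 1, by omega, h1, ?_, ?_⟩
    · have : k * j ≤ (k + 1) * j := Nat.mul_le_mul_right _ (by omega)
      omega
    · rcases h3 with h3 | h3 | h3
      · rw [K05_len] at h3
        exact absurd h3 hlen
      · exfalso
        obtain ⟨hf, _⟩ := h3
        have hl := hf.length_eq
        rw [K05_len] at hl
        have hs1 : s < (addAt w s (k * i)).length := by rw [K05_len]; exact hs
        have hs2 : s < w'.length := by rw [← hl]; exact hs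
        have h4 := hf.get hs1 hs2
        have h5 : (addAt w s (k * i)).get ⟨s, hs1⟩ = (w[s].1, w[s].2 + k * i) := by
          unfold addAt
          simp
        rw [h5] at h4
        have h6 : w[s].2 + k * i ≤ (w'.get ⟨s, hs2⟩).2 := h4.2
        have h7 : (w'.get ⟨s, hs2⟩).2 ≤ (w'.map Prod.snd).sum := by
          apply List.single_le_sum (by simp)
          rw [List.mem_map]
          exact ⟨_, List.get_mem _ _, rfl⟩
        omega
      · right; right
        obtain ⟨w1, w2, w1', w2', r, t, r', t', e1, e2, f1, f2, g1, g2, g3⟩ := h3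
        refine ⟨w1, w2, w1', w2', r, t, r', t', e1, e2, f1, f2, g1, g2, ?_⟩
        have hjk : (k + 1) * j = k * j + j := by ring
        unfold Reg at g3 ⊢
        split_ifs at g3 ⊢ with hr
        · omega
        · omega

end NSI
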