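import Pool.Agent.Lib.NSI.K02

/-!
# K06 : case (H3): letters `a` and `b`

Recipe.  `n + k i ≤ m + k j` for all `k` gives `i ≤ j`.  `w.length < w'.length`: `(0, 1)`.
(A) for some `k` with `w ≠ w'`: `(k, k + 1)` is in `K` by (A).
Otherwise there is an invalid window of some parity, which gives (C) for all `(k, l)` in the region.
-/

set_option autoImplicit false

namespace NSI

theorem K06_aux (𝓜 : Mach) : ∀ (w : List (Row 𝓜.Q)) (c : Fin 𝓜.Q × ℕ) (π : Bool),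
    w.head? = some ((c.1, π), c.2) → (∃ r, w.getLast? = some r ∧ r.1.1 = 𝓜.qh) →
    (¬ ∃ k : ℕ, (𝓜.step^[k] c).1 = 𝓜.qh) →
    ∃ (w1 w2 : List (Row 𝓜.Q)) (r s : Row 𝓜.Q), w = w1 ++ r :: s :: w2 ∧
      r.1.1 ≠ 𝓜.qh ∧ ¬ Valid 𝓜 r s
  | [], c, π, h, _, _ => by simp at h
  | [r], c, π, h, hl, hh => by
    exfalso
    apply hh
    obtain ⟨r', h1, h2⟩ := hl
    rw [List.head?_cons, Option.some_inj] at h
    rw [List.getLast?_singleton, Option.some_inj] at h1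
    refine ⟨0, ?_⟩
    rw [← h1, h] at h2
    exact h2
  | r :: s :: w, c, π, h, hl, hh => by
    rw [List.head?_cons, Option.some_inj] at h
    by_cases hv : Valid 𝓜 r s
    · have hv' : 𝓜.step c = (s.1.1, s.2) := by
        unfold Valid at hv
        rw [h] at hv
        exact hv
      have h1 : (s :: w).head? = some (((𝓜.step c).1, s.1.2), (𝓜.step c).2) := by
        rw [hv']
        rfl
      have h2 : ∃ r, (s :: w).getLast? = some r ∧ r.1.1 = 𝓜.qh := by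
        obtain ⟨r', h3, h4⟩ := hl
        refine ⟨r', ?_, h4⟩
        rw [← h3, List.getLast?_cons_cons]
      obtain ⟨w1, w2, r1, s1, h3, h4, h5⟩ := K06_aux 𝓜 (s :: w) (𝓜.step c) s.1.2 h1 h2 (by
        rintro ⟨k, hk⟩
        exact hh ⟨k + 1, by rw [Function.iterate_succ_apply]; exact hk⟩)
      refine ⟨r :: w1, w2, r1, s1, ?_, h4, h5⟩
      rw [h3]
      rfl
    · refine ⟨[], w, r, s, rfl, ?_, hv⟩
      intro h1
      apply hh
      refine ⟨0, ?_⟩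
      rw [h] at h1
      exact h1

theorem exists_invalid (𝓜 : Mach) (E : ℕ) (hE : ¬ 𝓜.Halts E) (w : List (Row 𝓜.Q))
    (hw : FF 𝓜 E w) : ∃ (w1 w2 : List (Row 𝓜.Q)) (r s : Row 𝓜.Q), w = w1 ++ r :: s :: w2 ∧
      r.1.1 ≠ 𝓜.qh ∧ ¬ Valid 𝓜 r s :=
  K06_aux 𝓜 w (𝓜.q0, E) false hw.1 hw.2.2 hE

/-- windows of parity `π` -/
def K06_W (𝓜 : Mach) (w w' : List (Row 𝓜.Q)) (π : Bool) : Prop :=
  ∃ (w1 w2 w1' w2' : List (Row 𝓜.Q)) (r s r' s' : Row 𝓜.Q),
    w = w1 ++ r :: s :: w2 ∧ w' = w1' ++ r' :: s' :: w2' ∧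
    List.Forall₂ LeRow w1 w1' ∧ List.Forall₂ LeRow w2 w2' ∧
    r.1.1 ≠ 𝓜.qh ∧ ¬ Valid 𝓜 r s ∧ r.1.2 = π

theorem K06_KC {𝓜 : Mach} {w w' : List (Row 𝓜.Q)} {π : Bool} (h : K06_W 𝓜 w w' π) {n m : ℕ}
    (hr : Reg π n m) : KC 𝓜 w n m w' := by
  obtain ⟨w1, w2, w1', w2', r, s, r', s', h1, h2, h3, h4, h5, h6, h7⟩ := h
  exact ⟨w1, w2, w1', w2', r, s, r', s', h1, h2, h3, h4, h5, h6, by rw [h7]; exact hr⟩

theorem K06_W_of_KC {𝓜 : Mach} {w w' : List (Row 𝓜.Q)} {n m : ℕ} (h : KC 𝓜 w n m w') :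
    ∃ π, K06_W 𝓜 w w' π := by
  obtain ⟨w1, w2, w1', w2', r, s, r', s', h1, h2, h3, h4, h5, h6, -⟩ := h
  exact ⟨r.1.2, w1, w2, w1', w2', r, s, r', s', h1, h2, h3, h4, h5, h6, rfl⟩

theorem K06_refl {Q : ℕ} (w : List (Row Q)) : List.Forall₂ LeRow w w := by
  induction w with
  | nil => exact List.Forall₂.nil
  | cons r w ih => exact List.Forall₂.cons ⟨rfl, le_refl _⟩ ih

theorem K06_reg_le {π : Bool} {n m : ℕ} (h : Reg π n m) : n ≤ m := by
  unfold Reg at h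
  cases π
  · simp at h
    omega
  · simp at h
    omega

theorem K06_num (π : Bool) (n m i j : ℕ) (hi : 0 < i) (hj : 0 < j) :
    ∃ k l : ℕ, k ≠ l ∧ Reg π (n + k * i) (m + l * j) := by
  cases π
  · -- region false
    obtain ⟨k, hk⟩ : ∃ k : ℕ, k = m + 2 * j := ⟨_, rfl⟩
    obtain ⟨A, hA⟩ : ∃ A, A = n + k * i := ⟨_, rfl⟩
    have h1 : m + 2 * j ≤ A := by
      rw [hA, ← hk]
      nlinarith
    obtain ⟨l, hl⟩ : ∃ l, l = (A - m) / j + 1 := ⟨_, rfl⟩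
    have h2 : (A - m) / j * j ≤ A - m := Nat.div_mul_le_self _ _
    have h3 : A - m < ((A - m) / j + 1) * j := by
      have := Nat.lt_succ_iff.2 (le_refl ((A - m) / j))
      exact (Nat.div_lt_iff_lt_mul hj).1 this
    have h4 : A < m + l * j ∧ m + l * j ≤ A + j := by
      rw [hl]
      constructor
      · omega
      · rw [Nat.succ_mul]
        omega
    have h5 : (l + 1) * j = l * j + j := Nat.succ_mul _ _
    by_cases hkl : k = l
    · refine ⟨k, l + 1, by omega, ?_⟩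
      rw [← hA]
      unfold Reg
      simp only [Bool.false_eq_true, if_false]
      omega
    · refine ⟨k, l, hkl, ?_⟩
      rw [← hA]
      unfold Reg
      simp only [Bool.false_eq_true, if_false]
      omega
  · refine ⟨0, 2 * n + 1, by omega, ?_⟩
    unfold Reg
    simp only [if_true]
    nlinarith

theorem case_H3 (𝓜 : Mach) (E : ℕ) (hE : ¬ 𝓜.Halts E) (w w' : List (Row 𝓜.Q)) (n m i j : ℕ)
    (hi : 0 < i) (hj : 0 < j)
    (h : ∀ k : ℕ, InK 𝓜 E w (n + k * i) (m + k * j) w') :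
    ∃ k l : ℕ, k ≠ l ∧ InK 𝓜 E w (n + k * i) (m + l * j) w' := by
  have hF : FF 𝓜 E w := (h 0).1
  have hnm : n ≤ m := by
    have := (h 0).2.1
    omega
  have hW : ∀ π, K06_W 𝓜 w w' π →
      ∃ k l : ℕ, k ≠ l ∧ InK 𝓜 E w (n + k * i) (m + l * j) w' := by
    intro π hπ
    obtain ⟨k, l, hkl, hr⟩ := K06_num π n m i j hi hj
    exact ⟨k, l, hkl, hF, K06_reg_le hr, Or.inr (Or.inr (K06_KC hπ hr))⟩
  by_cases h1 : w.length < w'.length
  · exact ⟨0, 1, by omega, hF, by omega, Or.inl h1⟩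
  by_cases h2 : w = w'
  · obtain ⟨w1, w2, r, s, h3, h4, h5⟩ := exists_invalid 𝓜 E hE w hF
    refine hW r.1.2 ⟨w1, w2, w1, w2, r, s, r, s, h3, ?_, K06_refl w1, K06_refl w2, h4, h5, rfl⟩
    rw [← h2]
    exact h3
  · rcases (h 0).2.2 with h3 | h3 | h3
    · exact absurd h3 h1
    · refine ⟨0, 1, by omega, hF, by omega, Or.inr (Or.inl ⟨h3.1, Or.inr h2⟩)⟩
    · obtain ⟨π, hπ⟩ := K06_W_of_KC h3
      exact hW π hπ

end NSI
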