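import Pool.Agent.Lib.NSI.K07a
import Pool.Agent.Lib.NSI.K04

/-!
# K07d : both factors left of `mid`

`Z k l = x u^k y v^l z`.  Recipe.  `wt ψμ (Z k k) ≥ 0` for all `k`: no row letters in `u, v` (`wt_enc`,
`InK`); `wt ψε (Z k k) ≥ 0`: no `a`; no `mid`; no right letters (they are right of `mid`): so
`u = 1^i`, `v = 1^j`.  `ins_one` for `x | y z` at `Z 0 0` (both `Z 0 0` and the word with one more
letter `1`: a coded word, because `Z 1 1` is; you may use `ins_one` in `Z 0 0` with letter inserted at
the first place only if the word with one inserted letter is coded: `Z 1 1` contains `u v`; the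
cleanest way is a lemma: if `x 1^i y 1^j z` is coded, `i, j > 0`, then all `x 1^k y 1^l z` are coded
with data `addAt (addAt w s k) t l`, the rows `s, t` being determined by the number of row letters
in `x`, `x y`).  Then `case_H1`.
-/

set_option autoImplicit false

namespace NSI

section
variable {Q : ℕ}

/-- the right-hand side of a coded word contains no `mid` -/
theorem K07d_mid_R (m : ℕ) (w' : List (Row Q)) :
    Lt.mid ∉ List.replicate m (Lt.b : Lt Q) ++ encR w' := by
  intro h
  rcases List.mem_append.1 h with h | h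
  · have := List.eq_of_mem_replicate h
    cases this
  · rcases mem_encR h with h | ⟨q, π, h⟩ <;> cases h

theorem K07d_mid_L (n : ℕ) (w : List (Row Q)) :
    Lt.mid ∉ encL w ++ List.replicate n (Lt.a : Lt Q) := by
  intro h
  rcases List.mem_append.1 h with h | h
  · rcases mem_encL h with h | ⟨q, π, h⟩ <;> cases h
  · have := List.eq_of_mem_replicate h
    cases this

theorem K07d_enc (w w' : List (Row Q)) (n m : ℕ) : enc w n m w' =
    (encL w ++ List.replicate n Lt.a) ++ Lt.mid :: (List.replicate m Lt.b ++ encR w') := by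
  simp [enc]

/-- splitting a coded word at `mid` -/
theorem K07d_split {p r : List (Lt Q)} {w w' : List (Row Q)} {n m : ℕ}
    (h : p ++ Lt.mid :: r = enc w n m w') :
    p = encL w ++ List.replicate n Lt.a ∧ r = List.replicate m Lt.b ++ encR w' := by
  rw [K07d_enc] at h
  have hL := K07d_mid_L n w
  have hR := K07d_mid_R m w'
  rcases List.append_eq_append_iff.1 h with ⟨c, h1, h2⟩ | ⟨c, h1, h2⟩
  · cases c with
    | nil =>
      simp only [List.append_nil] at h1
      simp only [List.nil_append, List.cons.injEq, true_and] at h2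
      exact ⟨h1.symm, h2⟩
    | cons x c =>
      simp only [List.cons_append, List.cons.injEq] at h2
      exfalso
      apply hL
      rw [h1, ← h2.1]
      simp
  · cases c with
    | nil =>
      simp only [List.append_nil] at h1
      simp only [List.nil_append, List.cons.injEq, true_and] at h2
      exact ⟨h1, h2.symm⟩
    | cons x c =>
      simp only [List.cons_append, List.cons.injEq] at h2
      exfalso
      apply hR
      rw [h2.2]
      simp

theorem K07d_encL_cons (w : List (Row Q)) (z : List (Lt Q)) : encL w ≠ Lt.one :: z := by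
  cases w with
  | nil => simp [encL]
  | cons r w => simp [encL, rl]

/-- a letter `1` in the left coding -/
theorem K07d_one {w : List (Row Q)} {x z : List (Lt Q)} (h : encL w = x ++ Lt.one :: z) :
    ∃ (w1 w2 : List (Row Q)) (r : Fin Q × Bool) (c d : ℕ),
      x = encL w1 ++ Lt.row r.1 r.2 :: List.replicate c Lt.one ∧
        z = List.replicate d Lt.one ++ encL w2 := by
  induction w generalizing x with
  | nil => simp [encL] at h
  | cons r w ih =>
    obtain ⟨r, N⟩ := r
    cases x with
    | nil => simp [encL, rl] at h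
    | cons a x =>
      simp only [encL, rl, List.cons_append, List.cons.injEq] at h
      obtain ⟨h1, h2⟩ := h
      subst h1
      rcases List.append_eq_append_iff.1 h2 with ⟨c, h3, h4⟩ | ⟨c, h3, h4⟩
      · -- `x = 1^N ++ c`, `encL w = c ++ 1 :: z`
        obtain ⟨w1, w2, r', c', d, h5, h6⟩ := ih h4
        refine ⟨(r, N) :: w1, w2, r', c', d, ?_, h6⟩
        rw [h3, h5]
        simp [encL, rl]
      · cases c with
        | nil =>
          simp only [List.nil_append] at h4
          exact absurd h4.symm (K07d_encL_cons w z)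
        | cons y c =>
          simp only [List.cons_append, List.cons.injEq] at h4
          obtain ⟨h5, h6⟩ := h4
          have h7 : ∀ e ∈ x, e = Lt.one := fun e he => List.eq_of_mem_replicate (by
            rw [h3]; exact List.mem_append_left _ he)
          have h8 : ∀ e ∈ c, e = Lt.one := fun e he => List.eq_of_mem_replicate (by
            rw [h3]; exact List.mem_append_right _ (List.mem_cons_of_mem _ he))
          refine ⟨[], w, r, x.length, c.length, ?_, ?_⟩
          · rw [← List.eq_replicate_of_mem h7]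
            simp [encL]
          · rw [← List.eq_replicate_of_mem h8]
            exact h6

theorem K07d_addAt (w1 w2 : List (Row Q)) (r : Fin Q × Bool) (c e : ℕ) :
    addAt (w1 ++ (r, c) :: w2) w1.length e = w1 ++ (r, c + e) :: w2 := by
  unfold addAt
  induction w1 with
  | nil => simp [List.modify_cons]
  | cons a w1 ih =>
    simp only [List.cons_append, List.length_cons, List.modify_succ_cons]
    rw [ih]

/-- insertion of letters `1` on the left-hand side -/
theorem K07d_insL {p1 p2 : List (Lt Q)} {w : List (Row Q)} {n : ℕ}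
    (h : p1 ++ Lt.one :: p2 = encL w ++ List.replicate n Lt.a) :
    ∃ (v : List (Row Q)) (s : ℕ), (s : ℤ) + 1 = wt β p1 ∧ s < v.length ∧
      ∀ e : ℕ, p1 ++ (List.replicate e Lt.one ++ p2) =
        encL (addAt v s e) ++ List.replicate n Lt.a := by
  rcases List.append_eq_append_iff.1 h with ⟨c, h1, h2⟩ | ⟨c, h1, h2⟩
  · -- `encL w = p1 ++ c`, `1 :: p2 = c ++ a^n`
    cases c with
    | nil =>
      exfalso
      simp only [List.nil_append] at h2
      have : (Lt.one : Lt Q) ∈ List.replicate n Lt.a := by rw [← h2]; simp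
      have := List.eq_of_mem_replicate this
      cases this
    | cons y c =>
      simp only [List.cons_append, List.cons.injEq] at h2
      obtain ⟨rfl, h3⟩ := h2
      obtain ⟨w1, w2, r, c1, d, h4, h5⟩ := K07d_one h1
      refine ⟨w1 ++ (r, c1 + d) :: w2, w1.length, ?_, by simp, ?_⟩
      · have h6 : wt β (encL w1) = (w1.length : ℤ) := by
          have := (wt_enc w1 [] 0 0).2.1
          simpa [enc, encR, β] using this
        rw [h4]
        simp [h6, β]
      · intro e
        rw [K07d_addAt, encL_append, h3, h4, h5]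
        have h7 : encL (((r, c1 + d + e) : Row Q) :: w2) =
            Lt.row r.1 r.2 :: (List.replicate c1 Lt.one ++ (List.replicate e Lt.one ++
              (List.replicate d Lt.one ++ encL w2))) := by
          simp only [encL, rl, List.cons_append, List.cons.injEq, true_and]
          rw [← List.append_assoc, ← List.append_assoc, ← List.replicate_add,
            ← List.replicate_add]
          congr 2
          omega
        rw [h7]
        simp
  · -- `p1 = encL w ++ c`, `a^n = c ++ 1 :: p2`
    exfalso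
    have : (Lt.one : Lt Q) ∈ List.replicate n Lt.a := by rw [h2]; simp
    have := List.eq_of_mem_replicate this
    cases this

/-- the coded words -/
def K07d_Cd (z : List (Lt Q)) : Prop := ∃ w n m w', z = enc w n m w'

theorem K07d_addAt_zero (w : List (Row Q)) (s : ℕ) : addAt w s 0 = w := by
  unfold addAt
  have : (fun r : Row Q => (r.1, r.2 + 0)) = id := by
    funext r
    simp
  rw [this, List.modify_id]

theorem K07d_addAt_comm (w : List (Row Q)) (s t i j : ℕ) :
    addAt (addAt w s i) t j = addAt (addAt w t j) s i := by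
  unfold addAt
  apply List.ext_getElem?
  intro k
  simp only [List.getElem?_modify]
  cases w[k]? with
  | none => simp
  | some r =>
    by_cases h1 : s = k <;> by_cases h2 : t = k <;> simp [h1, h2, add_right_comm]

theorem K07d_length_addAt (w : List (Row Q)) (s i : ℕ) : (addAt w s i).length = w.length := by
  unfold addAt
  exact List.length_modify _ _ _

/-- insertion of letters `1` before `mid` -/
theorem K07d_ins {x y : List (Lt Q)} (hm : Lt.mid ∈ y) (h : K07d_Cd (x ++ Lt.one :: y)) :
    ∃ (v w' : List (Row Q)) (s n m : ℕ), (s : ℤ) + 1 = wt β x ∧ s < v.length ∧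
      ∀ e : ℕ, x ++ (List.replicate e Lt.one ++ y) = enc (addAt v s e) n m w' := by
  obtain ⟨w, n, m, w', h⟩ := h
  obtain ⟨y1, y2, rfl⟩ := List.append_of_mem hm
  have h1 : (x ++ Lt.one :: y1) ++ Lt.mid :: y2 = enc w n m w' := by
    rw [← h]; simp
  obtain ⟨h2, h3⟩ := K07d_split h1
  obtain ⟨v, s, h4, h5, h6⟩ := K07d_insL h2
  refine ⟨v, w', s, n, m, h4, h5, fun e => ?_⟩
  rw [K07d_enc, ← h6 e, ← h3]
  simp

theorem K07d_many {x y : List (Lt Q)} (hm : Lt.mid ∈ y) (i : ℕ) (hi : 0 < i)
    (h : K07d_Cd (x ++ (List.replicate i Lt.one ++ y))) (e : ℕ) :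
    K07d_Cd (x ++ (List.replicate e Lt.one ++ y)) := by
  induction i with
  | zero => omega
  | succ i ih =>
    rw [List.replicate_succ, List.cons_append] at h
    rcases Nat.eq_zero_or_pos i with rfl | hi'
    · simp only [List.replicate_zero, List.nil_append] at h
      obtain ⟨v, w', s, n, m, -, -, h1⟩ := K07d_ins hm h
      exact ⟨_, _, _, _, h1 e⟩
    · apply ih hi'
      obtain ⟨v, w', s, n, m, -, -, h1⟩ := K07d_ins (List.mem_append_right _ hm) h
      have h2 := h1 0
      simp only [List.replicate_zero, List.nil_append] at h2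
      exact ⟨_, _, _, _, h2⟩

theorem K07d_pw (c : Lt Q) (i k : ℕ) : pw (List.replicate i c) k = List.replicate (k * i) c := by
  induction k with
  | zero => simp
  | succ k ih =>
    rw [pw_succ, ih, ← List.replicate_add]
    congr 1
    ring

/-- two insertions -/
theorem K07d_two {x y z : List (Lt Q)} (hm : Lt.mid ∈ z) (i j : ℕ) (hi : 0 < i) (hj : 0 < j)
    (h : K07d_Cd (x ++ (List.replicate i Lt.one ++ (y ++ (List.replicate j Lt.one ++ z))))) :
    ∃ (v w' : List (Row Q)) (s t n m : ℕ), s < v.length ∧ t < v.length ∧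
      ∀ k l : ℕ, x ++ (List.replicate k Lt.one ++ (y ++ (List.replicate l Lt.one ++ z))) =
        enc (addAt (addAt v s k) t l) n m w' := by
  have hm1 : ∀ l : ℕ, Lt.mid ∈ y ++ (List.replicate l Lt.one ++ z) := fun l =>
    List.mem_append_right _ (List.mem_append_right _ hm)
  -- all words are coded
  have hall : ∀ k l : ℕ, K07d_Cd (x ++ (List.replicate k Lt.one ++
      (y ++ (List.replicate l Lt.one ++ z)))) := by
    intro k l
    have h1 := K07d_many (hm1 j) i hi h k
    have h2 : K07d_Cd ((x ++ (List.replicate k Lt.one ++ y)) ++ (List.replicate j Lt.one ++ z)) := by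
      simpa using h1
    have h3 := K07d_many hm j hj h2 l
    simpa using h3
  have h1 : K07d_Cd ((x ++ y) ++ Lt.one :: z) := by simpa using hall 0 1
  obtain ⟨v, w', t, n, m, -, ht, h2⟩ := K07d_ins hm h1
  have h3 : ∀ l : ℕ, ∃ (v' w'' : List (Row Q)) (s n' m' : ℕ), (s : ℤ) + 1 = wt β x ∧
      s < v'.length ∧ ∀ e : ℕ, x ++ (List.replicate e Lt.one ++
        (y ++ (List.replicate l Lt.one ++ z))) = enc (addAt v' s e) n' m' w'' := fun l =>
    K07d_ins (hm1 l) (by simpa using hall 1 l)
  obtain ⟨v0, w0, s, n0, m0, hs, hs', h4⟩ := h3 0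
  have hv0 : v0 = v := by
    have e1 := h4 0
    have e2 := h2 0
    rw [K07d_addAt_zero] at e1 e2
    simp only [List.replicate_zero, List.nil_append] at e1 e2
    rw [← List.append_assoc, e2] at e1
    exact (enc_inj e1).1.symm
  refine ⟨v, w', s, t, n, m, hv0 ▸ hs', ht, fun k l => ?_⟩
  obtain ⟨v1, w1, s1, n1, m1, hs1, -, h5⟩ := h3 l
  have hss : s1 = s := by omega
  subst hss
  have e1 := h5 0
  rw [K07d_addAt_zero] at e1
  have e2 := h2 l
  simp only [List.replicate_zero, List.nil_append] at e1
  rw [← List.append_assoc, e2] at e1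
  obtain ⟨f1, f2, f3, f4⟩ := enc_inj e1
  rw [h5 k, ← f1, ← f2, ← f3, ← f4, K07d_addAt_comm]

theorem K07d_len {𝓜 : Mach} {E : ℕ} {w w' : List (Row 𝓜.Q)} {n m : ℕ} (h : InK 𝓜 E w n m w') :
    w.length ≤ w'.length := by
  obtain ⟨-, -, h | h | h⟩ := h
  · exact h.le
  · exact h.1.length_eq.le
  · obtain ⟨w1, w2, w1', w2', r, s, r', s', rfl, rfl, h1, h2, -⟩ := h
    simp [h1.length_eq, h2.length_eq]

/-- linear functions that are nonnegative have a nonnegative slope -/
theorem K07d_slope (c d : ℤ) (h : ∀ k : ℕ, 0 ≤ c + k * d) : 0 ≤ d := by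
  by_contra hd
  push Not at hd
  have h1 := h (c.toNat + 1)
  have h2 : (c.toNat : ℤ) = max c 0 := Int.toNat_eq_max c
  push_cast at h1
  rw [h2] at h1
  have h3 : 0 ≤ max c 0 := le_max_right _ _
  have h4 : c ≤ max c 0 := le_max_left _ _
  nlinarith

theorem K07d_wt_le {ψ : Lt Q → ℤ} {u : List (Lt Q)} (h : ∀ x ∈ u, ψ x ≤ 0) : wt ψ u ≤ 0 := by
  induction u with
  | nil => simp
  | cons a u ih =>
    rw [wt_cons]
    have h1 := h a (by simp)
    have h2 := ih (fun x hx => h x (by simp [hx]))
    omega

theorem K07d_wt_zero {ψ : Lt Q → ℤ} {u : List (Lt Q)} (h : ∀ x ∈ u, ψ x ≤ 0) (h0 : 0 ≤ wt ψ u) :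
    ∀ x ∈ u, ψ x = 0 := by
  induction u with
  | nil => simp
  | cons a u ih =>
    rw [wt_cons] at h0
    have h1 := h a (by simp)
    have h2 := K07d_wt_le (fun x hx => h x (by simp [hx]) : ∀ x ∈ u, ψ x ≤ 0)
    intro x hx
    rcases List.mem_cons.1 hx with rfl | hx
    · omega
    · exact ih (fun x hx => h x (by simp [hx])) (by omega) x hx

end

theorem case_left (𝓜 : Mach) (E : ℕ) (x u y v z : List (Lt 𝓜.Q)) (hu : u ≠ []) (hv : v ≠ [])
    (h : ∀ k : ℕ, x ++ pw u k ++ y ++ pw v k ++ z ∈ K 𝓜 E) (hm : Lt.mid ∈ z) :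
    ∃ k l : ℕ, k ≠ l ∧ x ++ pw u k ++ y ++ pw v l ++ z ∈ K 𝓜 E := by
  have hZ : ∀ k : ℕ, ∃ w n m w', x ++ pw u k ++ y ++ pw v k ++ z = enc w n m w' ∧
      InK 𝓜 E w n m w' := h
  obtain ⟨z1, z2, hz⟩ := List.append_of_mem hm
  -- letters of `u` and `v`
  have hletters : ∀ c, c ∈ u ∨ c ∈ v → c = Lt.one ∨ c = Lt.a ∨ ∃ q π, c = Lt.row q π := by
    intro c hc
    obtain ⟨w, n, m, w', h1, -⟩ := hZ 1
    rw [hz, ← List.append_assoc] at h1
    obtain ⟨h2, -⟩ := K07d_split h1
    have h3 : c ∈ encL w ++ List.replicate n Lt.a := by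
      rw [← h2]
      simp only [pw_one, List.mem_append]
      tauto
    rcases List.mem_append.1 h3 with h4 | h4
    · rcases mem_encL h4 with h5 | h5
      · exact Or.inl h5
      · exact Or.inr (Or.inr h5)
    · exact Or.inr (Or.inl (List.eq_of_mem_replicate h4))
  have hμ : 0 ≤ wt ψμ u + wt ψμ v := by
    apply K07d_slope (wt ψμ x + wt ψμ y + wt ψμ z)
    intro k
    obtain ⟨w, n, m, w', h1, h2⟩ := hZ k
    have h3 := (wt_enc w w' n m).1
    rw [← h1] at h3
    simp only [wt_append, wt_pw] at h3
    have h4 := K07d_len h2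
    have h5 : (w.length : ℤ) ≤ w'.length := by exact_mod_cast h4
    linarith
  have hε : 0 ≤ wt ψε u + wt ψε v := by
    apply K07d_slope (wt ψε x + wt ψε y + wt ψε z)
    intro k
    obtain ⟨w, n, m, w', h1, h2⟩ := hZ k
    have h3 := (wt_enc w w' n m).2.2.2.1
    rw [← h1] at h3
    simp only [wt_append, wt_pw] at h3
    have h5 : (n : ℤ) ≤ m := by exact_mod_cast h2.2.1
    linarith
  have hone : ∀ c, c ∈ u ∨ c ∈ v → c = Lt.one := by
    have a1 : ∀ c, c ∈ u ∨ c ∈ v → ψμ c ≤ 0 := by
      intro c hc
      rcases hletters c hc with rfl | rfl | ⟨q, π, rfl⟩ <;> simp [ψμ]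
    have a2 : ∀ c, c ∈ u ∨ c ∈ v → ψε c ≤ 0 := by
      intro c hc
      rcases hletters c hc with rfl | rfl | ⟨q, π, rfl⟩ <;> simp [ψε]
    have b1 := K07d_wt_le (fun c hc => a1 c (Or.inl hc))
    have b2 := K07d_wt_le (fun c hc => a1 c (Or.inr hc))
    have b3 := K07d_wt_le (fun c hc => a2 c (Or.inl hc))
    have b4 := K07d_wt_le (fun c hc => a2 c (Or.inr hc))
    have c1 := K07d_wt_zero (fun c hc => a1 c (Or.inl hc)) (by omega)
    have c2 := K07d_wt_zero (fun c hc => a1 c (Or.inr hc)) (by omega)
    have c3 := K07d_wt_zero (fun c hc => a2 c (Or.inl hc)) (by omega)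
    have c4 := K07d_wt_zero (fun c hc => a2 c (Or.inr hc)) (by omega)
    intro c hc
    have d1 : ψμ c = 0 := by rcases hc with h | h; exacts [c1 c h, c2 c h]
    have d2 : ψε c = 0 := by rcases hc with h | h; exacts [c3 c h, c4 c h]
    rcases hletters c hc with rfl | rfl | ⟨q, π, rfl⟩
    · rfl
    · simp [ψε] at d2
    · simp [ψμ] at d1
  obtain ⟨i, hi, rfl⟩ : ∃ i, 0 < i ∧ u = List.replicate i Lt.one :=
    ⟨u.length, List.length_pos_iff.2 hu, List.eq_replicate_of_mem fun c hc => hone c (Or.inl hc)⟩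
  obtain ⟨j, hj, rfl⟩ : ∃ j, 0 < j ∧ v = List.replicate j Lt.one :=
    ⟨v.length, List.length_pos_iff.2 hv, List.eq_replicate_of_mem fun c hc => hone c (Or.inr hc)⟩
  simp only [K07d_pw] at hZ ⊢
  have h11 : K07d_Cd (x ++ (List.replicate i Lt.one ++ (y ++ (List.replicate j Lt.one ++ z)))) := by
    obtain ⟨w, n, m, w', h1, -⟩ := hZ 1
    refine ⟨w, n, m, w', ?_⟩
    rw [← h1]
    simp
  obtain ⟨w, w', s, t, n, m, hs, ht, hkl⟩ := K07d_two hm i j hi hj h11
  obtain ⟨k, l, hne, hK⟩ := case_H1 𝓜 E w w' n m s t i j hi hj hs ht (by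
    intro k
    obtain ⟨w1, n1, m1, w1', h1, h2⟩ := hZ k
    have h3 : x ++ List.replicate (k * i) Lt.one ++ y ++ List.replicate (k * j) Lt.one ++ z =
        x ++ (List.replicate (k * i) Lt.one ++ (y ++ (List.replicate (k * j) Lt.one ++ z))) := by
      simp
    rw [h3, hkl] at h1
    obtain ⟨f1, f2, f3, f4⟩ := enc_inj h1
    rw [f1, f2, f3, f4]
    exact h2)
  refine ⟨k, l, hne, _, _, _, _, ?_, hK⟩
  rw [← hkl]
  simp

end NSI
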