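import Pool.Agent.Lib.NSI.K07a
import Pool.Agent.Lib.NSI.K07d
import Pool.Agent.Lib.NSI.K05
import Pool.Agent.Lib.NSI.K06

/-!
# K07c : `mid` between the two factors

`Z k l = x u^k y v^l z`.  Recipe.  `v ∈ {1', row'}*` (`right_factor` for `Z 2 2`): `Z 0 1` is in `K`: left
part and `n, m` as in `Z 0 0`, right rows as in `Z 1 1` (or: see K07b): `up_rows` or `up_one'`.
`v ∈ b*`: `wt ψμ (Z k k) ≥ 0` for all `k` shows that `u` has no row letter (`wt_enc`, `InK` gives
`w.length ≤ w'.length`), `mid ∉ u` (`wt ψm = 1`), so `u = 1^i` or `u = a^i` (`pow_factor`; the letters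
`b, 1'` are impossible left of `mid`).  `ins_one`, `ins_a`, `ins_b` bring us to `case_H2`, `case_H3`.
-/

set_option autoImplicit false

namespace NSI

section
variable {Q : ℕ}

theorem K07c_gen (P : List (Lt Q) → Prop) (c : Lt Q)
    (hP : ∀ p q, P (p ++ c :: q) → ∀ e : ℕ, P (p ++ (List.replicate e c ++ q)))
    (p q : List (Lt Q)) (i : ℕ) (hi : 0 < i) (h : P (p ++ (List.replicate i c ++ q))) (e : ℕ) :
    P (p ++ (List.replicate e c ++ q)) := by
  induction i with
  | zero => omega
  | succ i ih =>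
    rw [List.replicate_succ, List.cons_append] at h
    rcases Nat.eq_zero_or_pos i with rfl | hi'
    · simp only [List.replicate_zero, List.nil_append] at h
      exact hP _ _ h e
    · apply ih hi'
      have h2 := hP _ _ h 0
      simpa only [List.replicate_zero, List.nil_append] using h2

/-- left halves -/
def K07c_CL (r : List (Lt Q)) : Prop := ∃ w n, r = encL w ++ List.replicate n Lt.a

/-- right halves -/
def K07c_CR (r : List (Lt Q)) : Prop := ∃ m w, r = List.replicate m Lt.b ++ encR w

theorem K07c_injL {w v : List (Row Q)} {n m : ℕ}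
    (h : encL w ++ List.replicate n Lt.a = encL v ++ List.replicate m Lt.a) : w = v ∧ n = m := by
  have h1 : enc w n 0 [] = enc v m 0 [] := by
    rw [K07d_enc, K07d_enc, h]
  obtain ⟨h2, h3, -, -⟩ := enc_inj h1
  exact ⟨h2, h3⟩

theorem K07c_injR {w v : List (Row Q)} {n m : ℕ}
    (h : List.replicate n Lt.b ++ encR w = List.replicate m Lt.b ++ encR v) : n = m ∧ w = v := by
  have h1 : enc [] 0 n w = enc [] 0 m v := by
    rw [K07d_enc, K07d_enc, h]
  obtain ⟨-, -, h2, h3⟩ := enc_inj h1
  exact ⟨h2, h3⟩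

theorem K07c_insA {p1 p2 : List (Lt Q)} {w : List (Row Q)} {n : ℕ}
    (h : p1 ++ Lt.a :: p2 = encL w ++ List.replicate n Lt.a) :
    ∃ n0 : ℕ, ∀ e : ℕ, p1 ++ (List.replicate e Lt.a ++ p2) =
      encL w ++ List.replicate (n0 + e) Lt.a := by
  rcases List.append_eq_append_iff.1 h with ⟨c, h1, h2⟩ | ⟨c, h1, h2⟩
  · cases c with
    | nil =>
      simp only [List.append_nil] at h1
      simp only [List.nil_append] at h2
      have h3 : ∀ x ∈ p2, x = Lt.a := fun x hx => List.eq_of_mem_replicate (by
        rw [← h2]; exact List.mem_cons_of_mem _ hx)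
      refine ⟨p2.length, fun e => ?_⟩
      rw [← h1, List.eq_replicate_of_mem h3, List.length_replicate, ← List.replicate_add,
        add_comm]
    | cons y c =>
      exfalso
      simp only [List.cons_append, List.cons.injEq] at h2
      have h3 : Lt.a ∈ encL w := by
        rw [h1, ← h2.1]
        simp
      rcases mem_encL h3 with h4 | ⟨q, π, h4⟩ <;> cases h4
  · have h3 : ∀ x ∈ c, x = Lt.a := fun x hx => List.eq_of_mem_replicate (by
      rw [h2]; exact List.mem_append_left _ hx)
    have h4 : ∀ x ∈ p2, x = Lt.a := fun x hx => List.eq_of_mem_replicate (by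
      rw [h2]; exact List.mem_append_right _ (List.mem_cons_of_mem _ hx))
    refine ⟨c.length + p2.length, fun e => ?_⟩
    rw [h1, List.append_assoc]
    congr 1
    conv_lhs => rw [List.eq_replicate_of_mem h3, List.eq_replicate_of_mem h4]
    rw [← List.replicate_add, ← List.replicate_add]
    congr 1
    omega

theorem K07c_insB {p1 p2 : List (Lt Q)} {w : List (Row Q)} {n : ℕ}
    (h : p1 ++ Lt.b :: p2 = List.replicate n Lt.b ++ encR w) :
    ∃ n0 : ℕ, ∀ e : ℕ, p1 ++ (List.replicate e Lt.b ++ p2) =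
      List.replicate (n0 + e) Lt.b ++ encR w := by
  have hb : Lt.b ∉ encR w := by
    intro h4
    rcases mem_encR h4 with h5 | ⟨q, π, h5⟩ <;> cases h5
  rcases List.append_eq_append_iff.1 h with ⟨c, h1, h2⟩ | ⟨c, h1, h2⟩
  · cases c with
    | nil =>
      exfalso
      simp only [List.nil_append] at h2
      apply hb
      rw [← h2]
      simp
    | cons y c =>
      simp only [List.cons_append, List.cons.injEq] at h2
      have h3 : ∀ x ∈ p1, x = Lt.b := fun x hx => List.eq_of_mem_replicate (by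
        rw [h1]; exact List.mem_append_left _ hx)
      have h4 : ∀ x ∈ c, x = Lt.b := fun x hx => List.eq_of_mem_replicate (by
        rw [h1]; exact List.mem_append_right _ (List.mem_cons_of_mem _ hx))
      refine ⟨p1.length + c.length, fun e => ?_⟩
      rw [h2.2]
      conv_lhs => rw [List.eq_replicate_of_mem h3, List.eq_replicate_of_mem h4]
      rw [← List.append_assoc, ← List.append_assoc, ← List.replicate_add, ← List.replicate_add]
      congr 2
      omega
  · exfalso
    apply hb
    rw [h2]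
    simp

theorem K07c_encR_app {w : List (Row Q)} {N : ℕ} {r : Fin Q × Bool} {x z : List (Lt Q)}
    (h : List.replicate N Lt.one' ++ [Lt.row' r.1 r.2] = x ++ Lt.one' :: z) :
    ∃ c d : ℕ, N = c + 1 + d ∧ x = List.replicate c Lt.one' ∧
      z = List.replicate d Lt.one' ++ [Lt.row' r.1 r.2] := by
  rcases List.append_eq_append_iff.1 h with ⟨c, h1, h2⟩ | ⟨c, h1, h2⟩
  · exfalso
    cases c with
    | nil => simp at h2
    | cons y c => simp at h2
  · cases c with
    | nil => simp at h2
    | cons y c =>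
      simp only [List.cons_append, List.cons.injEq] at h2
      have h3 : ∀ e ∈ x, e = Lt.one' := fun e he => List.eq_of_mem_replicate (by
        rw [h1]; exact List.mem_append_left _ he)
      have h4 : ∀ e ∈ c, e = Lt.one' := fun e he => List.eq_of_mem_replicate (by
        rw [h1]; exact List.mem_append_right _ (List.mem_cons_of_mem _ he))
      refine ⟨x.length, c.length, ?_, List.eq_replicate_of_mem h3, ?_⟩
      · have := congrArg List.length h1
        simp at this
        omega
      · rw [h2.2, ← List.eq_replicate_of_mem h4]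

/-- a letter `1'` in the right coding -/
theorem K07c_one' {w : List (Row Q)} {x z : List (Lt Q)} (h : encR w = x ++ Lt.one' :: z) :
    ∃ (w1 w2 : List (Row Q)) (r : Fin Q × Bool) (c d : ℕ),
      x = encR w2 ++ List.replicate c Lt.one' ∧
        z = List.replicate d Lt.one' ++ (Lt.row' r.1 r.2 :: encR w1) := by
  induction w generalizing z with
  | nil => simp [encR] at h
  | cons r w ih =>
    obtain ⟨r, N⟩ := r
    simp only [encR, rr] at h
    rcases List.append_eq_append_iff.1 h with ⟨c, h1, h2⟩ | ⟨c, h1, h2⟩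
    · -- `x = encR w ++ c`
      obtain ⟨c1, d, -, h4, h5⟩ := K07c_encR_app (w := w) h2
      refine ⟨[], w, r, c1, d, ?_, ?_⟩
      · rw [h1, h4]
      · rw [h5]
        simp [encR]
    · cases c with
      | nil =>
        simp only [List.append_nil] at h1
        simp only [List.nil_append] at h2
        obtain ⟨c1, d, -, h4, h5⟩ := K07c_encR_app (w := w) (x := []) (by
          rw [List.nil_append]; exact h2.symm)
        refine ⟨[], w, r, 0, d, ?_, ?_⟩
        · rw [← h1]; simp
        · rw [h5]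
          simp [encR]
      | cons y c =>
        simp only [List.cons_append, List.cons.injEq] at h2
        obtain ⟨rfl, h3⟩ := h2
        obtain ⟨w1, w2, r', c1, d, h4, h5⟩ := ih h1
        refine ⟨(r, N) :: w1, w2, r', c1, d, h4, ?_⟩
        rw [h3, h5]
        simp [encR, rr]

theorem K07c_insR {p1 p2 : List (Lt Q)} {w : List (Row Q)} {m : ℕ}
    (h : p1 ++ Lt.one' :: p2 = List.replicate m Lt.b ++ encR w) :
    ∃ (v : List (Row Q)) (s : ℕ), s < v.length ∧ ∀ e : ℕ, p1 ++ (List.replicate e Lt.one' ++ p2) =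
      List.replicate m Lt.b ++ encR (addAt v s e) := by
  have key : ∀ (q : List (Lt Q)), encR w = q ++ Lt.one' :: p2 →
      ∃ (v : List (Row Q)) (s : ℕ), s < v.length ∧ ∀ e : ℕ,
        q ++ (List.replicate e Lt.one' ++ p2) = encR (addAt v s e) := by
    intro q hq
    obtain ⟨w1, w2, r, c1, d, h3, h4⟩ := K07c_one' hq
    refine ⟨w1 ++ (r, c1 + d) :: w2, w1.length, by simp, fun e => ?_⟩
    rw [K07d_addAt, encR_append, h3, h4]
    have h7 : encR (((r, c1 + d + e) : Row Q) :: w2) =
        encR w2 ++ (List.replicate c1 Lt.one' ++ (List.replicate e Lt.one' ++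
          (List.replicate d Lt.one' ++ [Lt.row' r.1 r.2]))) := by
      simp only [encR, rr]
      rw [← List.append_assoc (List.replicate e _), ← List.append_assoc (List.replicate c1 _),
        ← List.replicate_add, ← List.replicate_add]
      congr 3
      omega
    rw [h7]
    simp
  rcases List.append_eq_append_iff.1 h with ⟨c, h1, h2⟩ | ⟨c, h1, h2⟩
  · cases c with
    | nil =>
      simp only [List.append_nil] at h1
      simp only [List.nil_append] at h2
      obtain ⟨v, s, h3, h4⟩ := key [] h2.symm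
      refine ⟨v, s, h3, fun e => ?_⟩
      rw [← h1, ← h4 e]
      simp
    | cons y c =>
      exfalso
      simp only [List.cons_append, List.cons.injEq] at h2
      have h3 : y = Lt.b := List.eq_of_mem_replicate (n := m) (by rw [h1]; simp)
      rw [← h2.1] at h3
      cases h3
  · obtain ⟨v, s, h3, h4⟩ := key c h2
    refine ⟨v, s, h3, fun e => ?_⟩
    rw [h1, ← h4 e]
    simp

theorem K07c_no_b {p q : List (Lt Q)} {c : Lt Q} {w : List (Row Q)} {m : ℕ} (hc : c ≠ Lt.b)
    (h : p ++ c :: q = List.replicate m Lt.b ++ encR w) : Lt.b ∉ q := by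
  have hb : Lt.b ∉ encR w := by
    intro h4
    rcases mem_encR h4 with h5 | ⟨q, π, h5⟩ <;> cases h5
  intro hq
  rcases List.append_eq_append_iff.1 h with ⟨d, h1, h2⟩ | ⟨d, h1, h2⟩
  · cases d with
    | nil =>
      simp only [List.nil_append] at h2
      apply hb
      rw [← h2]
      exact List.mem_cons_of_mem _ hq
    | cons y d =>
      simp only [List.cons_append, List.cons.injEq] at h2
      have h3 : y = Lt.b := List.eq_of_mem_replicate (n := m) (by rw [h1]; simp)
      rw [← h2.1] at h3
      exact hc h3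
  · apply hb
    rw [h2]
    exact List.mem_append_right _ (List.mem_cons_of_mem _ hq)

theorem K07c_count (m : ℕ) (w : List (Row Q)) :
    (List.replicate m Lt.b ++ encR w).count Lt.b = m := by
  have hb : Lt.b ∉ encR w := by
    intro h4
    rcases mem_encR h4 with h5 | ⟨q, π, h5⟩ <;> cases h5
  rw [List.count_append, List.count_replicate_self, List.count_eq_zero_of_not_mem hb, add_zero]

theorem K07c_wt (m : ℕ) (w : List (Row Q)) :
    wt ψμ (List.replicate m Lt.b ++ encR w) = (w.length : ℤ) := by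
  have := (wt_enc ([] : List (Row Q)) w 0 m).1
  simpa [enc, encL, ψμ] using this

end

theorem case_mid (𝓜 : Mach) (E : ℕ) (hE : ¬ 𝓜.Halts E) (x u y v z : List (Lt 𝓜.Q)) (hu : u ≠ [])
    (hv : v ≠ []) (h : ∀ k : ℕ, x ++ pw u k ++ y ++ pw v k ++ z ∈ K 𝓜 E) (hm : Lt.mid ∈ y) :
    ∃ k l : ℕ, k ≠ l ∧ x ++ pw u k ++ y ++ pw v l ++ z ∈ K 𝓜 E := by
  obtain ⟨y1, y2, rfl⟩ := List.append_of_mem hm
  have hZ : ∀ k : ℕ, ∃ w n m w', x ++ (pw u k ++ y1) = encL w ++ List.replicate n Lt.a ∧
      y2 ++ (pw v k ++ z) = List.replicate m Lt.b ++ encR w' ∧ InK 𝓜 E w n m w' := by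
    intro k
    obtain ⟨w, n, m, w', h1, h2⟩ := h k
    have h3 : (x ++ (pw u k ++ y1)) ++ Lt.mid :: (y2 ++ (pw v k ++ z)) = enc w n m w' := by
      rw [← h1]; simp
    obtain ⟨h4, h5⟩ := K07d_split h3
    exact ⟨w, n, m, w', h4, h5, h2⟩
  have hword : ∀ (k l : ℕ) (w w' : List (Row 𝓜.Q)) (n m : ℕ),
      x ++ (pw u k ++ y1) = encL w ++ List.replicate n Lt.a →
      y2 ++ (pw v l ++ z) = List.replicate m Lt.b ++ encR w' → InK 𝓜 E w n m w' →
      x ++ pw u k ++ (y1 ++ Lt.mid :: y2) ++ pw v l ++ z ∈ K 𝓜 E := by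
    intro k l w w' n m h1 h2 h3
    refine ⟨w, n, m, w', ?_, h3⟩
    rw [K07d_enc, ← h1, ← h2]
    simp
  -- the letters of `v`
  have hvl : (∀ c ∈ v, c = Lt.b) ∨ (∀ c ∈ v, c = Lt.one' ∨ ∃ q π, c = Lt.row' q π) := by
    obtain ⟨w, n, m, w', h1, -⟩ := h 2
    refine right_factor (x ++ pw u 2 ++ (y1 ++ Lt.mid :: y2)) v z w w' n m ?_ (by simp)
    rw [← h1]
    simp [pw]
  rcases hvl with hvb | hvr
  · -- `v = b^j`
    obtain ⟨j, hj, rfl⟩ : ∃ j, 0 < j ∧ v = List.replicate j Lt.b :=
      ⟨v.length, List.length_pos_iff.2 hv, List.eq_replicate_of_mem hvb⟩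
    simp only [K07d_pw] at hZ hword ⊢
    -- the right-hand side
    obtain ⟨m0, w0', hR⟩ : ∃ m0 w0', ∀ e : ℕ, y2 ++ (List.replicate e Lt.b ++ z) =
        List.replicate (m0 + e) Lt.b ++ encR w0' := by
      obtain ⟨w, n, m, w', -, h1, -⟩ := hZ 1
      rw [one_mul] at h1
      have h2 : K07c_CR (y2 ++ (List.replicate 1 Lt.b ++ z)) :=
        K07c_gen K07c_CR Lt.b (by
          rintro p q ⟨m, w, h3⟩ e
          obtain ⟨n0, h4⟩ := K07c_insB h3
          exact ⟨_, _, h4 e⟩) y2 z j hj ⟨_, _, h1⟩ 1
      obtain ⟨m1, w1, h3⟩ := h2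
      obtain ⟨n0, h4⟩ := K07c_insB (p1 := y2) (p2 := z) (by simpa using h3)
      exact ⟨n0, w1, h4⟩
    -- the letters of `u`
    have hletters : ∀ c ∈ u, c = Lt.one ∨ c = Lt.a ∨ ∃ q π, c = Lt.row q π := by
      intro c hc
      obtain ⟨w, n, m, w', h1, -⟩ := hZ 1
      have h3 : c ∈ encL w ++ List.replicate n Lt.a := by
        rw [← h1]
        simp only [pw_one, List.mem_append]
        tauto
      rcases List.mem_append.1 h3 with h4 | h4
      · rcases mem_encL h4 with h5 | h5
        · exact Or.inl h5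
        · exact Or.inr (Or.inr h5)
      · exact Or.inr (Or.inl (List.eq_of_mem_replicate h4))
    have hμ : 0 ≤ wt ψμ u := by
      apply K07d_slope (wt ψμ x + wt ψμ y1 + (wt ψμ y2 + wt ψμ z))
      intro k
      obtain ⟨w, n, m, w', h1, h2, h3⟩ := hZ k
      have h4 := K07c_wt m w'
      rw [← h2] at h4
      have h5 : wt ψμ (encL w ++ List.replicate n Lt.a) = -(w.length : ℤ) := by
        have := (wt_enc w [] n 0).1
        simpa [enc, encR, ψμ] using this
      rw [← h1] at h5
      simp only [wt_append, wt_pw, wt_replicate, ψμ, mul_zero] at h4 h5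
      have h6 := K07d_len h3
      have h7 : (w.length : ℤ) ≤ w'.length := by exact_mod_cast h6
      linarith
    have a1 : ∀ c ∈ u, ψμ c ≤ 0 := by
      intro c hc
      rcases hletters c hc with rfl | rfl | ⟨q, π, rfl⟩ <;> simp [ψμ]
    have c1 := K07d_wt_zero a1 hμ
    have hfl : ∀ c ∈ u, fl c := by
      intro c hc
      have h1 := c1 c hc
      rcases hletters c hc with rfl | rfl | ⟨q, π, rfl⟩
      · trivial
      · trivial
      · simp [ψμ] at h1
    obtain ⟨c, hc⟩ : ∃ c : Lt 𝓜.Q, u = List.replicate u.length c := by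
      obtain ⟨w, n, m, w', h1, -⟩ := h 2
      refine pow_factor x u (y1 ++ Lt.mid :: y2 ++ pw (List.replicate j Lt.b) 2 ++ z) w w' n m
        hfl ?_
      rw [← h1]
      simp [pw]
    have hi : 0 < u.length := List.length_pos_iff.2 hu
    have hcu : c ∈ u := by
      rw [hc]
      exact List.mem_replicate.2 ⟨by omega, rfl⟩
    generalize u.length = i at hc hi
    subst hc
    simp only [K07d_pw] at hZ hword ⊢
    rcases hletters c hcu with rfl | rfl | ⟨q, π, rfl⟩
    · -- `u = 1^i`
      obtain ⟨w0, s, n0, hs, hL⟩ : ∃ (w0 : List (Row 𝓜.Q)) (s n0 : ℕ), s < w0.length ∧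
          ∀ e : ℕ, x ++ (List.replicate e Lt.one ++ y1) =
            encL (addAt w0 s e) ++ List.replicate n0 Lt.a := by
        obtain ⟨w, n, m, w', h1, -, -⟩ := hZ 1
        rw [one_mul] at h1
        have h2 : K07c_CL (x ++ (List.replicate 1 Lt.one ++ y1)) :=
          K07c_gen K07c_CL Lt.one (by
            rintro p q ⟨w, n, h3⟩ e
            obtain ⟨v, s, -, -, h4⟩ := K07d_insL h3
            exact ⟨_, _, h4 e⟩) x y1 i hi ⟨_, _, h1⟩ 1
        obtain ⟨w1, n1, h3⟩ := h2
        obtain ⟨v, s, -, h4, h5⟩ := K07d_insL (p1 := x) (p2 := y1) (by simpa using h3)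
        exact ⟨v, s, n1, h4, h5⟩
      obtain ⟨k, l, hne, hK⟩ := case_H2 𝓜 E w0 w0' n0 m0 s i j hi hj hs (by
        intro k
        obtain ⟨w, n, m, w', h1, h2, h3⟩ := hZ k
        rw [hL] at h1
        rw [hR] at h2
        obtain ⟨f1, f2⟩ := K07c_injL h1
        obtain ⟨f3, f4⟩ := K07c_injR h2
        rw [f1, f2, f3, f4]
        exact h3)
      exact ⟨k, l, hne, hword k l _ _ _ _ (hL _) (hR _) hK⟩
    · -- `u = a^i`
      obtain ⟨w0, n0, hL⟩ : ∃ (w0 : List (Row 𝓜.Q)) (n0 : ℕ),
          ∀ e : ℕ, x ++ (List.replicate e Lt.a ++ y1) =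
            encL w0 ++ List.replicate (n0 + e) Lt.a := by
        obtain ⟨w, n, m, w', h1, -, -⟩ := hZ 1
        rw [one_mul] at h1
        have h2 : K07c_CL (x ++ (List.replicate 1 Lt.a ++ y1)) :=
          K07c_gen K07c_CL Lt.a (by
            rintro p q ⟨w, n, h3⟩ e
            obtain ⟨n0, h4⟩ := K07c_insA h3
            exact ⟨_, _, h4 e⟩) x y1 i hi ⟨_, _, h1⟩ 1
        obtain ⟨w1, n1, h3⟩ := h2
        obtain ⟨n0, h5⟩ := K07c_insA (p1 := x) (p2 := y1) (by simpa using h3)
        exact ⟨w1, n0, h5⟩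
      obtain ⟨k, l, hne, hK⟩ := case_H3 𝓜 E hE w0 w0' n0 m0 i j hi hj (by
        intro k
        obtain ⟨w, n, m, w', h1, h2, h3⟩ := hZ k
        rw [hL] at h1
        rw [hR] at h2
        obtain ⟨f1, f2⟩ := K07c_injL h1
        obtain ⟨f3, f4⟩ := K07c_injR h2
        rw [f1, f2, f3, f4]
        exact h3)
      exact ⟨k, l, hne, hword k l _ _ _ _ (hL _) (hR _) hK⟩
    · exact absurd (c1 _ hcu) (by simp [ψμ])
  · -- `v` consists of letters `1'`, row'
    obtain ⟨w0, n0, m0, w0', hL0, hR0, hK0⟩ := hZ 0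
    obtain ⟨w1, n1, m1, w1', -, hR1, -⟩ := hZ 1
    rw [pw_one] at hR1
    simp only [pw_zero, List.nil_append] at hL0 hR0
    have hvb : Lt.b ∉ v := by
      intro hb
      rcases hvr _ hb with h1 | ⟨q, π, h1⟩ <;> cases h1
    have hzb : Lt.b ∉ z := by
      cases v with
      | nil => exact absurd rfl hv
      | cons c v =>
        have hc : c ≠ Lt.b := by
          rintro rfl
          exact hvb (by simp)
        have h1 : Lt.b ∉ v ++ z := K07c_no_b (p := y2) (q := v ++ z) hc (by
          rw [← hR1]; simp)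
        intro h2
        exact h1 (List.mem_append_right _ h2)
    have hm01 : m1 = m0 := by
      have e0 := K07c_count m0 w0'
      have e1 := K07c_count m1 w1'
      rw [← hR0, List.count_append, List.count_eq_zero_of_not_mem hzb] at e0
      rw [← hR1, List.count_append, List.count_append, List.count_eq_zero_of_not_mem hzb,
        List.count_eq_zero_of_not_mem hvb] at e1
      omega
    subst hm01
    refine ⟨0, 1, by norm_num, hword 0 1 w0 w1' n0 m1 ?_ ?_ ?_⟩
    · simpa only [pw_zero, List.nil_append] using hL0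
    · rw [pw_one]
      exact hR1
    · by_cases hrow : ∃ q π, Lt.row' q π ∈ v
      · apply up_rows 𝓜 E w0 w0' w1' n0 m1 hK0
        obtain ⟨q, π, hq⟩ := hrow
        have e0 := K07c_wt m1 w0'
        have e1 := K07c_wt m1 w1'
        rw [← hR0] at e0
        rw [← hR1] at e1
        simp only [wt_append] at e0 e1
        have h2 : ∀ c ∈ v, (fun x => -ψμ x) c ≤ 0 := by
          intro c hc
          rcases hvr c hc with rfl | ⟨q, π, rfl⟩ <;> simp [ψμ]
        have h3 : wt (fun x => -ψμ x) v = -wt ψμ v := by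
          clear * -
          induction v with
          | nil => simp
          | cons a v ih =>
            rw [wt_cons, wt_cons, ih]
            ring
        have h4 : wt ψμ v ≠ 0 := by
          intro h5
          have h6 := K07d_wt_zero h2 (by rw [h3]; omega) _ hq
          simp [ψμ] at h6
        have h5 := K07d_wt_le h2
        rw [h3] at h5
        omega
      · have h1 : ∀ c ∈ v, c = Lt.one' := by
          intro c hc
          rcases hvr c hc with h2 | ⟨q, π, rfl⟩
          · exact h2
          · exact absurd ⟨q, π, hc⟩ hrow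
        obtain ⟨i, hi, rfl⟩ : ∃ i, 0 < i ∧ v = List.replicate i Lt.one' :=
          ⟨v.length, List.length_pos_iff.2 hv, List.eq_replicate_of_mem h1⟩
        have h2 : K07c_CR (y2 ++ (List.replicate 1 Lt.one' ++ z)) :=
          K07c_gen K07c_CR Lt.one' (by
            rintro p q ⟨m, w, h3⟩ e
            obtain ⟨v, s, -, h4⟩ := K07c_insR h3
            exact ⟨_, _, h4 e⟩) y2 z i hi ⟨_, _, hR1⟩ 1
        obtain ⟨m2, w2, h3⟩ := h2
        obtain ⟨v, s, -, h4⟩ := K07c_insR (p1 := y2) (p2 := z) (by simpa using h3)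
        have e0 := h4 0
        simp only [List.replicate_zero, List.nil_append, K07d_addAt_zero] at e0
        rw [hR0] at e0
        obtain ⟨f1, f2⟩ := K07c_injR e0
        have e1 := h4 i
        rw [hR1] at e1
        obtain ⟨f3, f4⟩ := K07c_injR e1
        rw [f4, ← f2]
        exact up_one' 𝓜 E w0 w0' n0 m1 s i hK0

end NSI
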