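import Pool.Agent.Lib.NSI.K07b
import Pool.Agent.Lib.NSI.K07c
import Pool.Agent.Lib.NSI.K07d

/-!
# K07 : `K E` has no strict iterative pair if the machine does not halt on `E`

Recipe.  `u = []` or `v = []`: `Z 0 1 = Z 1 1` or `Z 1 0 = Z 1 1`.  `mid ∉ u, v` (`wt ψm = 1` on `K`),
`mid ∈ Z 0 0`, so one of the three cases.
-/

set_option autoImplicit false

namespace NSI

private theorem K07_mid {Q : ℕ} {z : List (Lt Q)} (h : wt ψm z ≠ 0) : Lt.mid ∈ z := by
  induction z with
  | nil => simp at h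
  | cons x z ih =>
    by_cases hx : x = Lt.mid
    · rw [hx]
      exact List.mem_cons_self
    · apply List.mem_cons_of_mem
      apply ih
      rw [wt_cons] at h
      have h0 : ψm x = 0 := by
        cases x <;> simp_all [ψm]
      rw [h0, zero_add] at h
      exact h

private theorem K07_pw_nil {α : Type} (n : ℕ) : pw ([] : List α) n = [] := by
  induction n with
  | zero => rfl
  | succ n ih => rw [pw_succ, ih]; rfl

theorem K_no_strict (𝓜 : Mach) (E : ℕ) (hE : ¬ 𝓜.Halts E) :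
    ¬ ∃ x u y v z : List (Lt 𝓜.Q), IterPair (K 𝓜 E) x u y v z ∧ StrictPair (K 𝓜 E) x u y v z := by
  rintro ⟨x, u, y, v, z, hI, hS⟩
  have key : ∀ k l : ℕ, k ≠ l → x ++ pw u k ++ y ++ pw v l ++ z ∉ K 𝓜 E :=
    fun k l hkl h => hkl ((hS k l).1 h)
  by_cases hu : u = []
  · have h1 := hI 1
    have h2 := key 0 1 (by norm_num)
    rw [hu, K07_pw_nil] at h1 h2
    exact h2 h1
  by_cases hv : v = []
  · have h1 := hI 1
    have h2 := key 1 0 (by norm_num)
    rw [hv, K07_pw_nil] at h1 h2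
    exact h2 h1
  have h0 := hI 0
  obtain ⟨w, n, m, w', he, -⟩ := h0
  have h1 := (wt_enc w w' n m).2.2.1
  rw [← he] at h1
  simp only [pw_zero, List.append_nil] at h1
  have h2 : Lt.mid ∈ x ++ y ++ z := K07_mid (by rw [h1]; norm_num)
  simp only [List.mem_append] at h2
  rcases h2 with (hm | hm) | hm
  · obtain ⟨k, l, hkl, h⟩ := case_right 𝓜 E x u y v z hu hv hI hm
    exact key k l hkl h
  · obtain ⟨k, l, hkl, h⟩ := case_mid 𝓜 E hE x u y v z hu hv hI hm
    exact key k l hkl h
  · obtain ⟨k, l, hkl, h⟩ := case_left 𝓜 E x u y v z hu hv hI hm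
    exact key k l hkl h

end NSI
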