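import Pool.Agent.Lib.NSI.K03

/-!
# K07a : factors of coded words

Recipe.  Rank of the flat letters: `1 ↦ 0, a ↦ 1, b ↦ 2, 1' ↦ 3`.  A factor of a coded word without
row letters and `mid` is sorted with respect to the rank; if `u u` is sorted then `u` is constant.
`right_factor`: right of `mid` a coded word is `b^m` followed by letters `1'`, row'.
-/

set_option autoImplicit false

namespace NSI

variable {Q : ℕ}

/-- rank of the flat letters -/
private def K07a_rk : Lt Q → ℕ
  | .one => 0
  | .a => 1
  | .b => 2
  | .one' => 3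
  | _ => 0

private def K07a_R (x y : Lt Q) : Prop := fl x → fl y → K07a_rk x ≤ K07a_rk y

private lemma K07a_rk_inj {x y : Lt Q} (hx : fl x) (hy : fl y) (h : K07a_rk x = K07a_rk y) :
    x = y := by
  cases x <;> cases y <;> simp_all [fl, K07a_rk]

private lemma K07a_enc_split (w w' : List (Row Q)) (n m : ℕ) : enc w n m w' =
    (encL w ++ List.replicate n Lt.a) ++ Lt.mid :: (List.replicate m Lt.b ++ encR w') := by
  simp [enc, List.append_assoc]

private lemma K07a_not_mem_left (w : List (Row Q)) (n : ℕ) :
    Lt.mid ∉ encL w ++ List.replicate n Lt.a := by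
  intro h
  rcases List.mem_append.1 h with h | h
  · rcases mem_encL h with h | ⟨q, π, h⟩ <;> simp at h
  · have := List.eq_of_mem_replicate h
    simp at this

private lemma K07a_not_mem_right (w' : List (Row Q)) (m : ℕ) :
    Lt.mid ∉ List.replicate m Lt.b ++ encR w' := by
  intro h
  rcases List.mem_append.1 h with h | h
  · have := List.eq_of_mem_replicate h
    simp at this
  · rcases mem_encR h with h | ⟨q, π, h⟩ <;> simp at h

private lemma K07a_pairwise (w w' : List (Row Q)) (n m : ℕ) :
    List.Pairwise K07a_R (enc w n m w') := by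
  have hall : ∀ l : List (Lt Q), (∀ x ∈ l, ∀ y ∈ l, K07a_R x y) → List.Pairwise K07a_R l := by
    intro l h
    exact List.pairwise_of_forall_mem_list h
  have hL : ∀ x ∈ encL w, fl x → K07a_rk x = 0 := by
    intro x hx hfl
    rcases mem_encL hx with rfl | ⟨q, π, rfl⟩
    · rfl
    · exact hfl.elim
  have hR : ∀ x ∈ encR w', fl x → K07a_rk x = 3 := by
    intro x hx hfl
    rcases mem_encR hx with rfl | ⟨q, π, rfl⟩
    · rfl
    · exact hfl.elim
  have ha : ∀ x ∈ List.replicate n (Lt.a : Lt Q), K07a_rk x = 1 := by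
    intro x hx
    rw [List.eq_of_mem_replicate hx]
    rfl
  have hb : ∀ x ∈ List.replicate m (Lt.b : Lt Q), K07a_rk x = 2 := by
    intro x hx
    rw [List.eq_of_mem_replicate hx]
    rfl
  have hle : ∀ x : Lt Q, K07a_rk x ≤ 3 := by
    intro x
    cases x <;> simp [K07a_rk]
  unfold enc
  rw [List.pairwise_append]
  refine ⟨hall _ fun x hx y hy fx fy => ?_, ?_, ?_⟩
  · rw [hL x hx fx]
    exact Nat.zero_le _
  · rw [List.pairwise_append]
    refine ⟨hall _ fun x hx y hy fx fy => ?_, ?_, ?_⟩
    · rw [ha x hx, ha y hy]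
    · rw [List.pairwise_append]
      refine ⟨List.pairwise_singleton _ _, ?_, ?_⟩
      · rw [List.pairwise_append]
        refine ⟨hall _ fun x hx y hy fx fy => ?_, hall _ fun x hx y hy fx fy => ?_, ?_⟩
        · rw [hb x hx, hb y hy]
        · rw [hR x hx fx, hR y hy fy]
        · intro x hx y hy fx fy
          rw [hb x hx, hR y hy fy]
          norm_num
      · intro x hx y hy fx
        rw [List.mem_singleton] at hx
        subst hx
        exact fx.elim
    · intro x hx y hy fx fy
      rw [ha x hx]
      rcases List.mem_append.1 hy with hy | hy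
      · rw [List.mem_singleton] at hy
        subst hy
        exact fy.elim
      · rcases List.mem_append.1 hy with hy | hy
        · rw [hb y hy]
          norm_num
        · rw [hR y hy fy]
          norm_num
  · intro x hx y hy fx fy
    rw [hL x hx fx]
    exact Nat.zero_le _

theorem pow_factor (x u y : List (Lt Q)) (w w' : List (Row Q)) (n m : ℕ) (hu : ∀ c ∈ u, fl c)
    (h : x ++ (u ++ (u ++ y)) = enc w n m w') : ∃ c : Lt Q, u = List.replicate u.length c := by
  have hp := K07a_pairwise w w' n m
  rw [← h, List.pairwise_append] at hp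
  have hp2 := hp.2.1
  rw [List.pairwise_append] at hp2
  have key : ∀ c ∈ u, ∀ d ∈ u, c = d := by
    intro c hc d hd
    apply K07a_rk_inj (hu c hc) (hu d hd)
    apply le_antisymm
    · exact hp2.2.2 c hc d (List.mem_append_left _ hd) (hu c hc) (hu d hd)
    · exact hp2.2.2 d hd c (List.mem_append_left _ hc) (hu d hd) (hu c hc)
  cases u with
  | nil => exact ⟨Lt.a, rfl⟩
  | cons c u =>
    refine ⟨c, List.eq_replicate_of_mem fun d hd => ?_⟩
    exact key d hd c (by simp)

theorem right_factor (x u y : List (Lt Q)) (w w' : List (Row Q)) (n m : ℕ)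
    (h : x ++ (u ++ (u ++ y)) = enc w n m w') (hx : Lt.mid ∈ x) :
    (∀ c ∈ u, c = Lt.b) ∨ (∀ c ∈ u, c = Lt.one' ∨ ∃ q π, c = Lt.row' q π) := by
  obtain ⟨x1, x2, rfl⟩ := List.append_of_mem hx
  rw [K07a_enc_split, List.append_assoc, List.cons_append] at h
  have h2 := ((List.append_cons_inj_of_notMem (K07a_not_mem_left w n)
    (K07a_not_mem_right w' m)).1 h.symm).2.2
  -- `h2 : b^m ++ encR w' = x2 ++ (u ++ (u ++ y))`
  by_cases hb : ∀ c ∈ u, c = Lt.b
  · exact Or.inl hb
  right
  push Not at hb
  obtain ⟨c, hc, hcb⟩ := hb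
  have hp : List.Pairwise (fun p q : Lt Q => q = Lt.b → p = Lt.b)
      (List.replicate m Lt.b ++ encR w') := by
    rw [List.pairwise_append]
    refine ⟨List.pairwise_of_forall_mem_list fun p hp q _ _ => List.eq_of_mem_replicate hp,
      List.pairwise_of_forall_mem_list fun p _ q hq hqb => ?_, fun p hp q _ _ =>
        List.eq_of_mem_replicate hp⟩
    subst hqb
    rcases mem_encR hq with h | ⟨q, π, h⟩ <;> simp at h
  rw [h2, List.pairwise_append] at hp
  have hp2 := hp.2.1
  rw [List.pairwise_append] at hp2
  intro d hd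
  have hdb : d ≠ Lt.b := by
    intro hdb
    exact hcb (hp2.2.2 c hc d (List.mem_append_left _ hd) hdb)
  have hmem : d ∈ List.replicate m Lt.b ++ encR w' := by
    rw [h2]
    simp [hd]
  rcases List.mem_append.1 hmem with h3 | h3
  · exact absurd (List.eq_of_mem_replicate h3) hdb
  · exact mem_encR h3

/-- replacing the right-hand side: if both words are coded then the word with the left part (up
to and including the letters `b`) of the first and the right rows of the second is coded -/
theorem right_swap (𝓜 : Mach) (E : ℕ) (x v1 v2 : List (Lt 𝓜.Q)) (w w1 w' w1' : List (Row 𝓜.Q))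
    (n n1 m m1 : ℕ) (h1 : x ++ v1 = enc w n m w') (h2 : x ++ v2 = enc w1 n1 m1 w1')
    (hx : Lt.mid ∈ x) (hb1 : Lt.b ∉ v1) (hb2 : Lt.b ∉ v2) : w1 = w ∧ n1 = n ∧ m1 = m := by
  obtain ⟨x1, x2, rfl⟩ := List.append_of_mem hx
  rw [K07a_enc_split, List.append_assoc, List.cons_append] at h1 h2
  obtain ⟨e1, -, e1'⟩ := (List.append_cons_inj_of_notMem (K07a_not_mem_left w n)
    (K07a_not_mem_right w' m)).1 h1.symm
  obtain ⟨e2, -, e2'⟩ := (List.append_cons_inj_of_notMem (K07a_not_mem_left w1 n1)
    (K07a_not_mem_right w1' m1)).1 h2.symm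
  have hcR : ∀ v : List (Row 𝓜.Q), (encR v).count Lt.b = 0 := by
    intro v
    rw [List.count_eq_zero]
    intro h
    rcases mem_encR h with h | ⟨q, π, h⟩ <;> simp at h
  have hcL : ∀ v : List (Row 𝓜.Q), (encL v).count Lt.a = 0 := by
    intro v
    rw [List.count_eq_zero]
    intro h
    rcases mem_encL h with h | ⟨q, π, h⟩ <;> simp at h
  have c1 := congrArg (List.count Lt.b) e1'
  have c2 := congrArg (List.count Lt.b) e2'
  rw [List.count_append, List.count_append, hcR, List.count_replicate_self,
    List.count_eq_zero.2 hb1] at c1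
  rw [List.count_append, List.count_append, hcR, List.count_replicate_self,
    List.count_eq_zero.2 hb2] at c2
  have e3 : encL w ++ List.replicate n Lt.a = encL w1 ++ List.replicate n1 Lt.a := e1.trans e2.symm
  have c3 := congrArg (List.count Lt.a) e3
  rw [List.count_append, List.count_append, hcL, hcL, List.count_replicate_self,
    List.count_replicate_self] at c3
  have hn : n = n1 := by omega
  subst hn
  have e4 := List.append_cancel_right e3
  exact ⟨(encL_inj e4).symm, rfl, by omega⟩

end NSI
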