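import Pool.Agent.Lib.NSI.K07a

/-!
# K07b : both factors right of `mid`

`Z k l = x u^k y v^l z`.  Recipe.  All `Z k k` are in `K`.  By `right_factor` (for `Z 2 2`) `u` consists of
`b`'s or of letters `1'`, row'; same for `v`.
`u ∈ b*`, `v ∈ b*`: with `u = b^i`, `v = b^j` and `y ∈ b*`: `Z (i + j) 0 = Z i i` as words (compare the
number of `b`), `i + j ≠ 0`.
`u ∈ {1', row'}*`: then `v, y, z` have no `b`: `Z 1 0`: left part, `n`, `m` as in `Z 0 0`, its right rows are
coded because its last letter is the last letter of `Z 1 1` or of `Z 0 0` (`exists_encR`); if `u`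
contains a row letter there are more rows than in `Z 0 0`: `up_rows`; otherwise `u = 1'^i` and
`ins_one'`, `up_one'`.
`u ∈ b*`, `v ∈ {1', row'}*` : `Z 0 1` in the same way.
-/

set_option autoImplicit false

namespace NSI

variable {Q : ℕ}

private theorem K07b_mid {T : Type} (c : T) (x1 x2 A B : List T) (hA : c ∉ A) (hB : c ∉ B)
    (h : x1 ++ c :: x2 = A ++ c :: B) : x1 = A ∧ x2 = B := by
  induction A generalizing x1 with
  | nil =>
    cases x1 with
    | nil => simpa using h
    | cons d x1 =>
      simp only [List.cons_append, List.nil_append, List.cons.injEq] at h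
      exact absurd (h.2 ▸ (by simp : c ∈ x1 ++ c :: x2)) hB
  | cons a A ih =>
    cases x1 with
    | nil =>
      simp only [List.nil_append, List.cons_append, List.cons.injEq] at h
      exact absurd (by simp [h.1]) hA
    | cons d x1 =>
      simp only [List.cons_append, List.cons.injEq] at h
      have := ih x1 (fun hh => hA (List.mem_cons_of_mem _ hh)) h.2
      exact ⟨by rw [h.1, this.1], this.2⟩

private theorem K07b_encR_R {w : List (Row Q)} {c : Lt Q} (h : c ∈ encR w) :
    c ≠ Lt.b ∧ c ≠ Lt.mid := by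
  rcases mem_encR h with rfl | ⟨q, π, rfl⟩ <;> simp

/-- the part before the right rows -/
private def K07b_P (w : List (Row Q)) (n m : ℕ) : List (Lt Q) :=
  encL w ++ (List.replicate n Lt.a ++ ([Lt.mid] ++ List.replicate m Lt.b))

private theorem K07b_enc (w w' : List (Row Q)) (n m : ℕ) :
    enc w n m w' = K07b_P w n m ++ encR w' := by
  simp [enc, K07b_P]

/-- splitting a coded word right of `mid` -/
private theorem K07b_split (x t : List (Lt Q)) (w w' : List (Row Q)) (n m : ℕ)
    (h : x ++ t = enc w n m w') (hx : Lt.mid ∈ x) :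
    (∃ x3, x = K07b_P w n m ++ x3 ∧ encR w' = x3 ++ t) ∨
    (∃ k, 0 < k ∧ k ≤ m ∧ x = K07b_P w n (m - k) ∧ t = List.replicate k Lt.b ++ encR w') := by
  obtain ⟨x1, x2, rfl⟩ := List.append_of_mem hx
  have hA : Lt.mid ∉ encL w ++ List.replicate n Lt.a := by
    intro hh
    rcases List.mem_append.1 hh with hh | hh
    · rcases mem_encL hh with h1 | ⟨q, π, h1⟩ <;> cases h1
    · cases List.eq_of_mem_replicate hh
  have hB : Lt.mid ∉ List.replicate m Lt.b ++ encR w' := by
    intro hh
    rcases List.mem_append.1 hh with hh | hh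
    · cases List.eq_of_mem_replicate hh
    · exact (K07b_encR_R hh).2 rfl
  have h0 : x1 ++ Lt.mid :: (x2 ++ t) =
      (encL w ++ List.replicate n Lt.a) ++ Lt.mid :: (List.replicate m Lt.b ++ encR w') := by
    simpa [enc] using h
  obtain ⟨h1, h2⟩ := K07b_mid _ _ _ _ _ hA hB h0
  rcases List.append_eq_append_iff.1 h2 with ⟨a', ha, hb⟩ | ⟨c', hc, hd⟩
  · -- replicate m b = x2 ++ a', t = a' ++ encR w'
    have hrep : a' = List.replicate a'.length Lt.b := by
      refine List.eq_replicate_of_mem fun b hb' => ?_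
      exact List.eq_of_mem_replicate (ha ▸ List.mem_append_right _ hb')
    have hrep2 : x2 = List.replicate x2.length Lt.b := by
      refine List.eq_replicate_of_mem fun b hb' => ?_
      exact List.eq_of_mem_replicate (ha ▸ List.mem_append_left _ hb')
    have hlen : m = x2.length + a'.length := by
      have := congrArg List.length ha
      simpa using this
    rcases Nat.eq_zero_or_pos a'.length with h3 | h3
    · left
      have : a' = [] := List.length_eq_zero_iff.1 h3
      subst this
      refine ⟨[], ?_, by simpa using hb.symm⟩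
      simp only [List.append_nil] at ha
      simp only [K07b_P, ha, h1]
      simp
    · right
      refine ⟨a'.length, h3, by omega, ?_, ?_⟩
      · have : m - a'.length = x2.length := by omega
        rw [this]
        simp only [K07b_P]
        rw [← hrep2, h1]
        simp
      · rw [← hrep]; exact hb
  · left
    refine ⟨c', ?_, hd⟩
    rw [hc, h1]
    simp [K07b_P]

/-- the case that `v` consists of letters of the right rows -/
private theorem K07b_R (𝓜 : Mach) (E : ℕ) (X X' v z : List (Lt 𝓜.Q)) (hv : v ≠ [])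
    (hR : ∀ c ∈ v, c = Lt.one' ∨ ∃ q π, c = Lt.row' q π)
    (h0 : X ++ z ∈ K 𝓜 E) (h1 : X' ++ v ++ z ∈ K 𝓜 E) (hm : Lt.mid ∈ X) (hm' : Lt.mid ∈ X') :
    X ++ v ++ z ∈ K 𝓜 E := by
  obtain ⟨w1, n1, m1, w1', h1, -⟩ := h1
  obtain ⟨w, n, m, w', h0, hK⟩ := h0
  obtain ⟨c0, hc0⟩ := List.exists_mem_of_ne_nil v hv
  -- decomposition of the second word
  have hs1 := K07b_split (X' ++ v) z w1 w1' n1 m1 h1 (by simp [hm'])
  have hs1' : ∃ x3, x3 ≠ [] ∧ X' ++ v = K07b_P w1 n1 m1 ++ x3 ∧ encR w1' = x3 ++ z := by
    rcases hs1 with ⟨x3, h2, h3⟩ | ⟨k, hk, hk', h2, h3⟩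
    · refine ⟨x3, ?_, h2, h3⟩
      rintro rfl
      rw [List.append_nil] at h2
      -- X' ++ v = P : v consists of b
      have hs := K07b_split X' v w1 [] n1 m1 (by rw [K07b_enc, h2]; simp [encR]) hm'
      rcases hs with ⟨y3, h4, h5⟩ | ⟨k, hk, hk', h4, h5⟩
      · have : y3 ++ v = [] := by rw [← h5]; simp [encR]
        exact hv (List.append_eq_nil_iff.1 this).2
      · have : c0 = Lt.b := by
          rw [h5] at hc0
          simpa [encR] using List.eq_of_mem_replicate (by simpa [encR] using hc0 : c0 ∈ List.replicate k Lt.b)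
        rcases hR c0 hc0 with h | ⟨q, π, h⟩ <;> simp [h] at this
    · exfalso
      have hs := K07b_split X' v w1 [] n1 (m1 - k) (by rw [K07b_enc, h2]; simp [encR]) hm'
      rcases hs with ⟨y3, h4, h5⟩ | ⟨k, hk, hk', h4, h5⟩
      · have : y3 ++ v = [] := by rw [← h5]; simp [encR]
        exact hv (List.append_eq_nil_iff.1 this).2
      · have : c0 = Lt.b := by
          rw [h5] at hc0
          simpa [encR] using List.eq_of_mem_replicate (by simpa [encR] using hc0 : c0 ∈ List.replicate k Lt.b)
        rcases hR c0 hc0 with h | ⟨q, π, h⟩ <;> simp [h] at this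
  obtain ⟨y3, hy3, hy, hy'⟩ := hs1'
  -- the letters of z
  have hz : ∀ c ∈ z, c = Lt.one' ∨ ∃ q π, c = Lt.row' q π := fun c hc =>
    mem_encR (w := w1') (by rw [hy']; simp [hc])
  -- the last letter of v ++ z
  have hlast : ∃ u q π, v ++ z = u ++ [Lt.row' q π] := by
    have hne : w1' ≠ [] := by
      rintro rfl
      simp only [encR] at hy'
      exact hy3 (List.append_eq_nil_iff.1 hy'.symm).1
    obtain ⟨u, q, π, hu⟩ := encR_last hne
    have e : X' ++ (v ++ z) = (K07b_P w1 n1 m1 ++ u) ++ [Lt.row' q π] := by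
      rw [← List.append_assoc, hy, List.append_assoc, ← hy', hu, List.append_assoc]
    have hvz : v ++ z ≠ [] := by simp [hv]
    refine ⟨(v ++ z).dropLast, q, π, ?_⟩
    have h3 := List.dropLast_append_getLast hvz
    have h4 : (v ++ z).getLast hvz = Lt.row' q π := by
      have : (X' ++ (v ++ z)).getLast (by simp [hv]) = Lt.row' q π := by
        simp only [e]; simp
      rwa [List.getLast_append_of_ne_nil _ hvz] at this
    rw [h4] at h3
    exact h3.symm
  -- decomposition of the first word
  have hs0 := K07b_split X z w w' n m h0 hm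
  have hs0' : ∃ x3, X = K07b_P w n m ++ x3 ∧ encR w' = x3 ++ z := by
    rcases hs0 with ⟨x3, h2, h3⟩ | ⟨k, hk, hk', h2, h3⟩
    · exact ⟨x3, h2, h3⟩
    · exfalso
      have : Lt.b ∈ z := by
        rw [h3]
        refine List.mem_append_left _ ?_
        rw [List.mem_replicate]
        exact ⟨by omega, rfl⟩
      rcases hz _ this with h | ⟨q, π, h⟩ <;> cases h
  obtain ⟨x3, hX, hw'⟩ := hs0'
  have hx3 : ∀ c ∈ x3, c = Lt.one' ∨ ∃ q π, c = Lt.row' q π := fun c hc =>
    mem_encR (w := w') (by rw [hw']; simp [hc])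
  -- coded words
  have code : ∀ t : List (Lt 𝓜.Q), (∀ c ∈ t, c = Lt.one' ∨ ∃ q π, c = Lt.row' q π) →
      (∃ u q π, t ++ z = u ++ [Lt.row' q π]) → ∃ v', X ++ t ++ z = enc w n m v' := by
    intro t ht hl
    obtain ⟨u, q, π, hu⟩ := hl
    obtain ⟨v', hv'⟩ := exists_encR (x3 ++ (t ++ z)) (by
      intro c hc
      rcases List.mem_append.1 hc with hc | hc
      · exact hx3 c hc
      · rcases List.mem_append.1 hc with hc | hc
        · exact ht c hc
        · exact hz c hc) (Or.inr ⟨x3 ++ u, q, π, by rw [hu, List.append_assoc]⟩)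
    refine ⟨v', ?_⟩
    rw [K07b_enc, ← hv', hX]
    simp only [List.append_assoc]
  obtain ⟨v', hv'⟩ := code v hR hlast
  by_cases hrow : ∃ q π, Lt.row' q π ∈ v
  · -- more rows
    refine ⟨w, n, m, v', hv', up_rows 𝓜 E w w' v' n m hK ?_⟩
    have e1 := (wt_enc w v' n m).1
    have e2 := (wt_enc w w' n m).1
    rw [← hv'] at e1
    rw [← h0] at e2
    simp only [wt_append] at e1 e2
    have e3 : 0 < wt ψμ v := by
      obtain ⟨q, π, hq⟩ := hrow
      obtain ⟨v1, v2, rfl⟩ := List.append_of_mem hq
      have nn : ∀ l : List (Lt 𝓜.Q), (∀ c ∈ l, c = Lt.one' ∨ ∃ q π, c = Lt.row' q π) →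
          0 ≤ wt ψμ l := by
        intro l
        induction l with
        | nil => intro _; simp
        | cons c l ih =>
          intro hl
          rw [wt_cons]
          have h5 := ih fun d hd => hl d (List.mem_cons_of_mem _ hd)
          rcases hl c (by simp) with rfl | ⟨q, π, rfl⟩ <;> simp only [ψμ] <;> omega
      have h6 := nn v1 fun d hd => hR d (by simp [hd])
      have h7 := nn v2 fun d hd => hR d (by simp [hd])
      rw [wt_append, wt_cons]
      simp only [ψμ]
      omega
    omega
  · have hone : ∀ c ∈ v, c = Lt.one' := by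
      intro c hc
      rcases hR c hc with h | ⟨q, π, h⟩
      · exact h
      · exact absurd ⟨q, π, h ▸ hc⟩ hrow
    have hrep : v = List.replicate v.length Lt.one' := List.eq_replicate_of_mem hone
    have hzne : z ≠ [] := by
      rintro rfl
      obtain ⟨u, q, π, hu⟩ := hlast
      have : Lt.row' q π ∈ v := by
        rw [List.append_nil] at hu
        rw [hu]; simp
      cases hone _ this
    obtain ⟨v'', hv''⟩ := code [Lt.one'] (by simp) (by
      obtain ⟨u, q, π, hu⟩ := hlast
      refine ⟨Lt.one' :: z.dropLast, q, π, ?_⟩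
      have h3 := List.dropLast_append_getLast hzne
      have h4 : z.getLast hzne = Lt.row' q π := by
        have : (v ++ z).getLast (by simp [hv]) = Lt.row' q π := by
          simp only [hu]; simp
        rwa [List.getLast_append_of_ne_nil _ hzne] at this
      rw [h4] at h3
      simp only [List.cons_append, List.nil_append]
      rw [h3])
    obtain ⟨s, -, hs⟩ := ins_one' X z w w' w v'' n m n m h0 (by simpa using hv'')
    refine ⟨w, n, m, addAt w' s v.length, ?_, up_one' 𝓜 E w w' n m s v.length hK⟩
    rw [← hs v.length, ← hrep, List.append_assoc]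

private theorem K07b_bpow (u : List (Lt Q)) (hu : ∀ c ∈ u, c = Lt.b) (k : ℕ) :
    pw u k = List.replicate (k * u.length) Lt.b := by
  have h1 : u = List.replicate u.length Lt.b := List.eq_replicate_of_mem hu
  induction k with
  | zero => simp
  | succ k ih =>
    rw [pw_succ, ih]
    have h2 : u ++ List.replicate (k * u.length) Lt.b =
        List.replicate u.length Lt.b ++ List.replicate (k * u.length) Lt.b := by
      rw [← h1]
    rw [h2, List.replicate_append_replicate]
    congr 1
    ring

theorem case_right (𝓜 : Mach) (E : ℕ) (x u y v z : List (Lt 𝓜.Q)) (hu : u ≠ []) (hv : v ≠ [])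
    (h : ∀ k : ℕ, x ++ pw u k ++ y ++ pw v k ++ z ∈ K 𝓜 E) (hm : Lt.mid ∈ x) :
    ∃ k l : ℕ, k ≠ l ∧ x ++ pw u k ++ y ++ pw v l ++ z ∈ K 𝓜 E := by
  have h0 := h 0
  have h1 := h 1
  have h2 := h 2
  simp only [pw_zero, pw_one, List.append_nil] at h0 h1
  obtain ⟨w2, n2, m2, w2', h2, -⟩ := h2
  have e2 : ∀ t : List (Lt 𝓜.Q), pw t 2 = t ++ t := by
    intro t; rw [pw_succ, pw_one]
  rw [e2, e2] at h2
  rcases right_factor (x ++ (u ++ u) ++ y) v z w2 w2' n2 m2 (by simpa using h2) (by simp [hm])
    with hvb | hvR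
  · -- v consists of b
    have hs := K07b_split (x ++ (u ++ u) ++ y) (v ++ v ++ z) w2 w2' n2 m2 (by simpa using h2)
      (by simp [hm])
    have hub : ∀ c ∈ u ++ y, c = Lt.b := by
      rcases hs with ⟨x3, h3, h4⟩ | ⟨k, hk, hk', h3, h4⟩
      · obtain ⟨c0, hc0⟩ := List.exists_mem_of_ne_nil v hv
        have := hvb c0 hc0
        subst this
        exact absurd rfl (K07b_encR_R (w := w2') (c := Lt.b) (by rw [h4]; simp [hc0])).1
      · have hs := K07b_split x (u ++ u ++ y) w2 [] n2 (m2 - k)
          (by rw [K07b_enc, ← h3]; simp [encR]) hm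
        rcases hs with ⟨y3, h5, h6⟩ | ⟨k', hk, hk', h5, h6⟩
        · have : y3 ++ (u ++ u ++ y) = [] := by rw [← h6]; simp [encR]
          have := (List.append_eq_nil_iff.1 this).2
          exact absurd (List.append_eq_nil_iff.1 (List.append_eq_nil_iff.1 this).1).1 hu
        · intro c hc
          have hc' : c ∈ u ++ u ++ y := by
            rcases List.mem_append.1 hc with hc | hc <;> simp [hc]
          rw [h6] at hc'
          simpa [encR] using List.eq_of_mem_replicate
            (by simpa [encR] using hc' : c ∈ List.replicate k' Lt.b)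
    have hub1 : ∀ c ∈ u, c = Lt.b := fun c hc => hub c (by simp [hc])
    have hyb : ∀ c ∈ y, c = Lt.b := fun c hc => hub c (by simp [hc])
    have hy : y = List.replicate y.length Lt.b := List.eq_replicate_of_mem hyb
    have hlu : 0 < u.length := List.length_pos_iff.2 hu
    have hlv : 0 < v.length := List.length_pos_iff.2 hv
    refine ⟨u.length + v.length, 0, by omega, ?_⟩
    have key : x ++ pw u (u.length + v.length) ++ y ++ pw v 0 ++ z =
        x ++ pw u u.length ++ y ++ pw v u.length ++ z := by
      rw [K07b_bpow u hub1, K07b_bpow u hub1, K07b_bpow v hvb, K07b_bpow v hvb, hy]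
      simp only [List.append_assoc, List.append_cancel_left_eq]
      simp only [← List.append_assoc, List.replicate_append_replicate]
      congr 2
      ring
    rw [key]
    exact h _
  · -- v consists of letters of rows
    refine ⟨0, 1, by omega, ?_⟩
    have := K07b_R 𝓜 E (x ++ y) (x ++ u ++ y) v z hv hvR (by simpa using h0) (by simpa using h1)
      (by simp [hm]) (by simp [hm])
    simpa using this

end NSI
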