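import Pool.Agent.Lib.NSI.C10
import Pool.Agent.Lib.NSI.K01

/-!
# K08 : the middle parts are context-free

Recipe.  `{a^n mid b^m : Reg false n m}`, `{... : Reg true n m}`, `{... : n = m}`, `{... : n ≤ m}`:
`CF_nest` with one or two vertices.  E.g. `n ≤ m`: vertex `p`, edges `(a, b)` and `([], b)`,
`Z = {mid}`.  `n < m ≤ 2 n`: vertices `0, 1`, edges at `0`: `(a, b)`, `(a, b b)`; edge `0 → 1`:
`(a, b b)`; `Z 1 = {mid}`, at `1` no edges, `Z 0 = ∅`  (at least one pair `(a, bb)`).  `m > 2 n`: edges
`(a, b b)`, `([], b)`, and a final obligatory edge `([], b)`.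
-/

set_option autoImplicit false

namespace NSI

variable {Q : ℕ}

/-- middle parts -/
def midW (n m : ℕ) : List (Lt Q) := List.replicate n Lt.a ++ ([Lt.mid] ++ List.replicate m Lt.b)

theorem K08_midW_add (n m k l : ℕ) : List.replicate k (Lt.a : Lt Q) ++ midW n m ++
    List.replicate l Lt.b = midW (n + k) (m + l) := by
  unfold midW
  rw [Nat.add_comm n k, List.replicate_add, List.replicate_add]
  simp only [List.append_assoc]

theorem K08_nest {P Ed : Type} [Fintype P] [Fintype Ed] (src dst : Ed → P) (k l : Ed → ℕ)
    (Z : P → Prop) (R : P → ℕ → ℕ → Prop) (h0 : ∀ p, Z p → R p 0 0)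
    (h1 : ∀ e n m, R (dst e) n m → R (src e) (n + k e) (m + l e))
    (h2 : ∀ p n m, R p n m → (Z p ∧ n = 0 ∧ m = 0) ∨ ∃ e n' m', src e = p ∧ R (dst e) n' m' ∧
      n = n' + k e ∧ m = m' + l e ∧ n' + m' < n + m) (p : P) :
    CF ({z | ∃ n m, R p n m ∧ z = midW n m} : Language (Lt Q)) := by
  have hcf := CF_nest src dst (fun e => ({List.replicate (k e) Lt.a} : Language (Lt Q)))
    (fun e => ({List.replicate (l e) Lt.b} : Language (Lt Q)))
    (fun p => {z | Z p ∧ z = [Lt.mid]}) (fun e => CF_word _) (fun e => CF_word _) (by
      intro p
      by_cases h : Z p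
      · have e : ({z | Z p ∧ z = [Lt.mid]} : Language (Lt Q)) = {[Lt.mid]} := by
          ext z
          constructor
          · exact fun hz => hz.2
          · exact fun hz => ⟨h, hz⟩
        rw [e]
        exact CF_word _
      · have e : ({z | Z p ∧ z = [Lt.mid]} : Language (Lt Q)) = (∅ : Set (List (Lt Q))) := by
          ext z
          constructor
          · exact fun hz => absurd hz.1 h
          · exact fun hz => absurd hz (Set.notMem_empty z)
        rw [e]
        exact CF_empty) p
  have e : ({z | ∃ n m, R p n m ∧ z = midW n m} : Language (Lt Q)) =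
      {z | Nest src dst (fun e => ({List.replicate (k e) Lt.a} : Language (Lt Q)))
        (fun e => ({List.replicate (l e) Lt.b} : Language (Lt Q)))
        (fun p => {z | Z p ∧ z = [Lt.mid]}) p z} := by
    ext z
    constructor
    · rintro ⟨n, m, hR, rfl⟩
      show Nest _ _ _ _ _ _ _
      clear hcf
      induction hN : n + m using Nat.strong_induction_on generalizing p n m with
      | _ N ih =>
        rcases h2 p n m hR with ⟨hZ, rfl, rfl⟩ | ⟨e, n', m', rfl, hR', rfl, rfl, hlt⟩
        · exact Nest.base ⟨hZ, rfl⟩
        · rw [← K08_midW_add]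
          exact Nest.step e rfl (ih (n' + m') (by omega) (dst e) n' m' hR' rfl) rfl
    · intro hz
      have hz' : Nest src dst (fun e => ({List.replicate (k e) Lt.a} : Language (Lt Q)))
        (fun e => ({List.replicate (l e) Lt.b} : Language (Lt Q)))
        (fun p => {z | Z p ∧ z = [Lt.mid]}) p z := hz
      show ∃ n m, R p n m ∧ z = midW n m
      clear hz hcf
      induction hz' with
      | base h => exact ⟨0, 0, h0 _ h.1, h.2⟩
      | @step e x z y hx _ hy ih =>
        obtain ⟨n, m, hR, rfl⟩ := ih
        have hx' : x = List.replicate (k e) Lt.a := hx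
        have hy' : y = List.replicate (l e) Lt.b := hy
        rw [hx', hy']
        exact ⟨_, _, h1 e n m hR, K08_midW_add n m _ _⟩
  rw [e]
  exact hcf

theorem CF_mid_eq : CF ({z | ∃ n, z = midW n n} : Language (Lt Q)) := by
  have h := K08_nest (Q := Q) (fun _ : Unit => ()) (fun _ => ()) (fun _ => 1) (fun _ => 1)
    (fun _ => True) (fun _ n m => n = m) (fun _ _ => rfl) (by intro _ n m h; omega) (by
      intro _ n m h
      subst h
      cases n with
      | zero => exact Or.inl ⟨trivial, rfl, rfl⟩
      | succ n => exact Or.inr ⟨(), n, n, rfl, rfl, rfl, rfl, by omega⟩) ()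
  have e : ({z | ∃ n, z = midW n n} : Language (Lt Q)) = {z | ∃ n m, n = m ∧ z = midW n m} := by
    ext z
    constructor
    · rintro ⟨n, h⟩
      exact ⟨n, n, rfl, h⟩
    · rintro ⟨n, m, rfl, h⟩
      exact ⟨n, h⟩
  rw [e]
  exact h

theorem CF_mid_le : CF ({z | ∃ n m, n ≤ m ∧ z = midW n m} : Language (Lt Q)) :=
  K08_nest (Q := Q) (fun _ : Bool => ()) (fun _ => ()) (fun e => if e then 1 else 0) (fun _ => 1)
    (fun _ => True) (fun _ n m => n ≤ m) (fun _ _ => le_rfl) (by
      intro e n m h
      cases e <;> simp <;> omega) (by
      intro _ n m h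
      by_cases h0 : m = 0
      · left
        exact ⟨trivial, by omega, h0⟩
      · right
        by_cases h1 : n = m
        · exact ⟨true, n - 1, m - 1, rfl, by omega, by simp; omega, by omega, by omega⟩
        · exact ⟨false, n, m - 1, rfl, by omega, by simp, by omega, by omega⟩) ()

theorem CF_mid_reg (j : Bool) : CF ({z | ∃ n m, Reg j n m ∧ z = midW n m} : Language (Lt Q)) := by
  cases j with
  | false =>
    have h := K08_nest (Q := Q) (P := Bool) (Ed := Fin 3) (fun _ => false) ![false, false, true]
      (fun _ => 1) ![1, 2, 2] (fun p => p = true)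
      (fun p n m => if p then n = 0 ∧ m = 0 else n < m ∧ m ≤ 2 * n)
      (by rintro p rfl; simp) (by
        intro e n m h
        fin_cases e <;> simp at h ⊢ <;> omega) (by
        intro p n m h
        cases p with
        | true =>
          simp only [if_true] at h
          exact Or.inl ⟨rfl, h.1, h.2⟩
        | false =>
          simp only [Bool.false_eq_true, if_false] at h
          right
          by_cases h1 : m = 2 * n
          · by_cases h2 : n = 1
            · subst h2
              exact ⟨2, 0, 0, rfl, by simp, by simp, by simp [h1], by omega⟩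
            · refine ⟨1, n - 1, m - 2, rfl, ?_, ?_, ?_, by omega⟩
              · show n - 1 < m - 2 ∧ m - 2 ≤ 2 * (n - 1)
                omega
              · show n = n - 1 + 1
                omega
              · show m = m - 2 + 2
                omega
          · refine ⟨0, n - 1, m - 1, rfl, ?_, ?_, ?_, by omega⟩
            · show n - 1 < m - 1 ∧ m - 1 ≤ 2 * (n - 1)
              omega
            · show n = n - 1 + 1
              omega
            · show m = m - 1 + 1
              omega) false
    refine Eq.mp (congrArg CF ?_) h
    ext z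
    simp [Reg]
  | true =>
    have h := K08_nest (Q := Q) (P := Bool) (Ed := Fin 3) (fun _ => false) ![false, false, true]
      ![1, 0, 0] ![2, 1, 1] (fun p => p = true)
      (fun p n m => if p then n = 0 ∧ m = 0 else 2 * n < m)
      (by rintro p rfl; simp) (by
        intro e n m h
        fin_cases e <;> simp at h ⊢ <;> omega) (by
        intro p n m h
        cases p with
        | true =>
          simp only [if_true] at h
          exact Or.inl ⟨rfl, h.1, h.2⟩
        | false =>
          simp only [Bool.false_eq_true, if_false] at h
          right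
          by_cases h1 : n = 0
          · by_cases h2 : m = 1
            · exact ⟨2, 0, 0, rfl, by simp, by simp [h1], by simp [h2], by omega⟩
            · refine ⟨1, 0, m - 1, rfl, ?_, ?_, ?_, by omega⟩
              · show 2 * 0 < m - 1
                omega
              · show n = 0 + 0
                omega
              · show m = m - 1 + 1
                omega
          · refine ⟨0, n - 1, m - 2, rfl, ?_, ?_, ?_, by omega⟩
            · show 2 * (n - 1) < m - 2
              omega
            · show n = n - 1 + 1
              omega
            · show m = m - 2 + 2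
              omega) false
    refine Eq.mp (congrArg CF ?_) h
    ext z
    simp [Reg]

end NSI
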