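import Pool.Agent.Lib.NSI.C10
import Pool.Agent.Lib.NSI.K01

/-!
# K09 : the incorrect transitions form a context-free language

Recipe.  Fix the letters `c1 = (q, π)`, `c2 = (q', π')`.  The language is the finite union over
`r < M` of `L r = {row c1 1^x row c2 1^y : x = M t + r, not (nx q r = q' ∧ y = l t + d)}`,
`l = l q r`, `d = d q r` (`x / M = t`, `x % M = r`).  If `nx q r ≠ q'` this is regular:
`CF_mul`, `CF_star_word`, `CF_word`.  Otherwise it is the union of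
(1) `y ≥ l t + d + 1`: `row c1 1^r · {1^(M t) row c2 1^(l t)} · 1^(d+1) 1^*`,
(2) `y = l t + i`, `i < d`,
(3) `y = l t1 + i`, `i < l`, `t1 < t` (equivalent to `y < l t` since `l > 0`).
The language `{1^(M t) row c2 1^(l t) : t}` is a nest with one vertex and one edge
`(1^M, 1^l)`.
-/

set_option autoImplicit false

namespace NSI

theorem K09_pw {T : Type} (x : T) (a t : ℕ) : pw (List.replicate a x) t = List.replicate (t * a) x := by
  induction t with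
  | zero => simp
  | succ t ih => rw [pw_succ, ih, ← List.replicate_add]; congr 1; ring

theorem K09_congr {Γ : Type} {L L' : Language Γ} (h : CF L) (e : ∀ z, z ∈ L' ↔ z ∈ L) : CF L' := by
  have : L' = L := Set.ext e
  rwa [this]

/-- ones -/
def K09_o {Q : ℕ} (n : ℕ) : List (Lt Q) := List.replicate n Lt.one

theorem K09_o_add {Q : ℕ} (n m : ℕ) : (K09_o (n + m) : List (Lt Q)) = K09_o n ++ K09_o m := by
  unfold K09_o
  exact List.replicate_add n m Lt.one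

theorem K09_CF_o {Q : ℕ} (a : ℕ) : CF ({z | ∃ t, z = K09_o (t * a)} : Language (Lt Q)) := by
  refine K09_congr (CF_star_word (K09_o a)) fun z => ?_
  constructor
  · rintro ⟨t, rfl⟩
    exact ⟨t, (K09_pw _ _ _).symm⟩
  · rintro ⟨t, rfl⟩
    exact ⟨t, K09_pw _ _ _⟩

theorem K09_nest {Q : ℕ} (a b : ℕ) (c : Lt Q) :
    CF ({z | ∃ t, z = K09_o (t * a) ++ (c :: K09_o (t * b))} : Language (Lt Q)) := by
  refine K09_congr (CF_nest (P := Unit) (Ed := Unit) (fun _ => ()) (fun _ => ())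
    (fun _ => {K09_o a}) (fun _ => {K09_o b}) (fun _ => {[c]}) (fun _ => CF_word _)
    (fun _ => CF_word _) (fun _ => CF_word _) ()) fun z => ?_
  constructor
  · rintro ⟨t, rfl⟩
    induction t with
    | zero =>
      refine Nest.base ?_
      show _ ∈ ({[c]} : Set (List (Lt Q)))
      simp [K09_o]
    | succ t ih =>
      have h := Nest.step (src := fun _ : Unit => ()) (dst := fun _ : Unit => ())
        (X := fun _ : Unit => ({K09_o a} : Language (Lt Q)))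
        (Y := fun _ : Unit => ({K09_o b} : Language (Lt Q)))
        (Z := fun _ : Unit => ({[c]} : Language (Lt Q))) () (x := K09_o a) (y := K09_o b)
        (Set.mem_singleton _) ih (Set.mem_singleton _)
      have e1 : (t + 1) * a = a + t * a := by ring
      have e2 : (t + 1) * b = t * b + b := by ring
      rw [e1, e2, K09_o_add, K09_o_add]
      show Nest _ _ _ _ _ _ _
      simpa only [List.append_assoc, List.cons_append] using h
  · intro h
    have key : ∀ (u : Unit) (z : List (Lt Q)), Nest (fun _ : Unit => ()) (fun _ : Unit => ())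
      (fun _ : Unit => ({K09_o a} : Language (Lt Q)))
      (fun _ : Unit => ({K09_o b} : Language (Lt Q)))
      (fun _ : Unit => ({[c]} : Language (Lt Q))) u z →
        ∃ t, z = K09_o (t * a) ++ (c :: K09_o (t * b)) := by
      intro u z h'
      induction h' with
      | base hz =>
        refine ⟨0, ?_⟩
        have hz' : _ = [c] := hz
        rw [hz']
        simp [K09_o]
      | step e hx _ hy ih =>
        obtain ⟨t, rfl⟩ := ih
        refine ⟨t + 1, ?_⟩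
        have hx' : _ = K09_o a := hx
        have hy' : _ = K09_o b := hy
        rw [hx', hy']
        have e1 : (t + 1) * a = a + t * a := by ring
        have e2 : (t + 1) * b = t * b + b := by ring
        rw [e1, e2, K09_o_add, K09_o_add]
        simp only [List.append_assoc, List.cons_append]
    exact key () z h

/-- all pairs -/
theorem K09_all {Q : ℕ} (c c' : Lt Q) (M r : ℕ) :
    CF ({z | ∃ t y, z = c :: (K09_o (M * t + r) ++ (c' :: K09_o y))} : Language (Lt Q)) := by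
  refine K09_congr (CF_mul _ _ (CF_word (c :: K09_o r)) (CF_mul _ _ (K09_CF_o M)
    (CF_mul _ _ (CF_word [c']) (K09_CF_o 1)))) fun z => ?_
  constructor
  · rintro ⟨t, y, rfl⟩
    refine ⟨_, rfl, _, ⟨_, ⟨t, rfl⟩, _, ⟨_, rfl, _, ⟨y, rfl⟩, rfl⟩, rfl⟩, ?_⟩
    rw [mul_one, show M * t + r = r + t * M by ring, K09_o_add]
    simp
  · rintro ⟨_, rfl, _, ⟨_, ⟨t, rfl⟩, _, ⟨_, rfl, _, ⟨y, rfl⟩, rfl⟩, rfl⟩, rfl⟩
    refine ⟨t, y, ?_⟩
    rw [mul_one, show M * t + r = r + t * M by ring, K09_o_add]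
    simp

/-- exact pairs -/
theorem K09_exact {Q : ℕ} (c c' : Lt Q) (M r l i : ℕ) :
    CF ({z | ∃ t, z = c :: (K09_o (M * t + r) ++ (c' :: K09_o (l * t + i)))} : Language (Lt Q)) := by
  refine K09_congr (CF_mul _ _ (CF_word (c :: K09_o r)) (CF_mul _ _ (K09_nest M l c')
    (CF_word (K09_o i)))) fun z => ?_
  constructor
  · rintro ⟨t, rfl⟩
    refine ⟨_, rfl, _, ⟨_, ⟨t, rfl⟩, _, rfl, rfl⟩, ?_⟩
    rw [show M * t + r = r + t * M by ring, K09_o_add, mul_comm l t, K09_o_add]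
    simp
  · rintro ⟨_, rfl, _, ⟨_, ⟨t, rfl⟩, _, rfl, rfl⟩, rfl⟩
    refine ⟨t, ?_⟩
    rw [show M * t + r = r + t * M by ring, K09_o_add, mul_comm l t, K09_o_add]
    simp

/-- larger second number -/
theorem K09_large {Q : ℕ} (c c' : Lt Q) (M r l i : ℕ) :
    CF ({z | ∃ t k, z = c :: (K09_o (M * t + r) ++ (c' :: K09_o (l * t + i + k)))} :
      Language (Lt Q)) := by
  refine K09_congr (CF_mul _ _ (K09_exact c c' M r l i) (K09_CF_o 1)) fun z => ?_
  constructor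
  · rintro ⟨t, k, rfl⟩
    refine ⟨_, ⟨t, rfl⟩, _, ⟨k, rfl⟩, ?_⟩
    rw [mul_one, K09_o_add (l * t + i) k]
    simp
  · rintro ⟨_, ⟨t, rfl⟩, _, ⟨k, rfl⟩, rfl⟩
    refine ⟨t, k, ?_⟩
    rw [mul_one, K09_o_add (l * t + i) k]
    simp

/-- larger first number -/
theorem K09_small {Q : ℕ} (c c' : Lt Q) (M r l i : ℕ) :
    CF ({z | ∃ t k, z = c :: (K09_o (M * (t + 1 + k) + r) ++ (c' :: K09_o (l * t + i)))} :
      Language (Lt Q)) := by
  refine K09_congr (CF_mul _ _ (CF_word (c :: K09_o (r + M))) (CF_mul _ _ (K09_CF_o M)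
    (CF_mul _ _ (K09_nest M l c') (CF_word (K09_o i))))) fun z => ?_
  constructor
  · rintro ⟨t, k, rfl⟩
    refine ⟨_, rfl, _, ⟨_, ⟨k, rfl⟩, _, ⟨_, ⟨t, rfl⟩, _, rfl, rfl⟩, rfl⟩, ?_⟩
    rw [show M * (t + 1 + k) + r = (r + M) + (k * M + t * M) by ring, K09_o_add (r + M),
      K09_o_add (k * M), mul_comm l t, K09_o_add (t * l)]
    simp
  · rintro ⟨_, rfl, _, ⟨_, ⟨k, rfl⟩, _, ⟨_, ⟨t, rfl⟩, _, rfl, rfl⟩, rfl⟩, rfl⟩
    refine ⟨t, k, ?_⟩
    rw [show M * (t + 1 + k) + r = (r + M) + (k * M + t * M) by ring, K09_o_add (r + M),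
      K09_o_add (k * M), mul_comm l t, K09_o_add (t * l)]
    simp

theorem K09_word {Q : ℕ} (c c' : Fin Q × Bool) (x y : ℕ) :
    rl (c, x) ++ rl (c', y) =
      Lt.row c.1 c.2 :: (K09_o x ++ (Lt.row c'.1 c'.2 :: K09_o y)) := by
  simp [rl, K09_o]

theorem CF_invalid (𝓜 : Mach) (c1 c2 : Fin 𝓜.Q × Bool) :
    CF ({z | ∃ x y : ℕ, z = rl (c1, x) ++ rl (c2, y) ∧ ¬ Valid 𝓜 (c1, x) (c2, y)} :
      Language (Lt 𝓜.Q)) := by
  classical
  set ca := Lt.row c1.1 c1.2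
  set cb := Lt.row c2.1 c2.2
  -- the four pieces
  let L0 : Fin 𝓜.M → Language (Lt 𝓜.Q) := fun r =>
    if 𝓜.nx c1.1 r = c2.1 then (∅ : Set (List (Lt 𝓜.Q))) else
      {z | ∃ t y, z = ca :: (K09_o (𝓜.M * t + r) ++ (cb :: K09_o y))}
  let L1 : Fin 𝓜.M → Language (Lt 𝓜.Q) := fun r =>
    {z | ∃ t k, z = ca :: (K09_o (𝓜.M * t + r) ++
      (cb :: K09_o (𝓜.l c1.1 r * t + (𝓜.d c1.1 r + 1) + k)))}
  let L2 : (Σ r : Fin 𝓜.M, Fin (𝓜.d c1.1 r)) → Language (Lt 𝓜.Q) := fun p =>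
    {z | ∃ t, z = ca :: (K09_o (𝓜.M * t + p.1) ++ (cb :: K09_o (𝓜.l c1.1 p.1 * t + p.2)))}
  let L3 : (Σ r : Fin 𝓜.M, Fin (𝓜.l c1.1 r)) → Language (Lt 𝓜.Q) := fun p =>
    {z | ∃ t k, z = ca :: (K09_o (𝓜.M * (t + 1 + k) + p.1) ++
      (cb :: K09_o (𝓜.l c1.1 p.1 * t + p.2)))}
  have h0 : CF ({z | ∃ i, z ∈ L0 i} : Language (Lt 𝓜.Q)) := CF_iUnion _ fun r => by
    by_cases h : 𝓜.nx c1.1 r = c2.1
    · simp only [L0, if_pos h]
      exact CF_empty
    · simp only [L0, if_neg h]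
      exact K09_all _ _ _ _
  have h1 : CF ({z | ∃ i, z ∈ L1 i} : Language (Lt 𝓜.Q)) := CF_iUnion _ fun r => K09_large _ _ _ _ _ _
  have h2 : CF ({z | ∃ i, z ∈ L2 i} : Language (Lt 𝓜.Q)) := CF_iUnion _ fun r => K09_exact _ _ _ _ _ _
  have h3 : CF ({z | ∃ i, z ∈ L3 i} : Language (Lt 𝓜.Q)) := CF_iUnion _ fun r => K09_small _ _ _ _ _ _
  refine K09_congr (CF_union _ _ h0 (CF_union _ _ h1 (CF_union _ _ h2 h3))) fun z => ?_
  have hM := 𝓜.hM
  have hdiv : ∀ t r : ℕ, r < 𝓜.M → (𝓜.M * t + r) / 𝓜.M = t := fun t r hr => by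
    rw [Nat.mul_add_div hM, Nat.div_eq_of_lt hr, add_zero]
  have hmod : ∀ t r : ℕ, r < 𝓜.M → (𝓜.M * t + r) % 𝓜.M = r := fun t r hr => by
    rw [Nat.mul_add_mod, Nat.mod_eq_of_lt hr]
  have hval : ∀ t r y : ℕ, r < 𝓜.M → (Valid 𝓜 (c1, 𝓜.M * t + r) (c2, y) ↔
      𝓜.nx c1.1 r = c2.1 ∧ 𝓜.l c1.1 r * t + 𝓜.d c1.1 r = y) := fun t r y hr => by
    simp only [Valid, Mach.step, hdiv t r hr, hmod t r hr, Prod.mk.injEq]
  constructor
  · rintro ⟨x, y, rfl, hv⟩
    rw [K09_word]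
    have hr : x % 𝓜.M < 𝓜.M := Nat.mod_lt _ hM
    have hx : 𝓜.M * (x / 𝓜.M) + x % 𝓜.M = x := Nat.div_add_mod x 𝓜.M
    rw [← hx, hval _ _ _ hr] at hv
    rw [← hx]
    generalize x / 𝓜.M = t at *
    generalize x % 𝓜.M = r at *
    clear hx
    by_cases hn : 𝓜.nx c1.1 r = c2.1
    · have hy : 𝓜.l c1.1 r * t + 𝓜.d c1.1 r ≠ y := fun h => hv ⟨hn, h⟩
      rcases Nat.lt_or_ge (𝓜.l c1.1 r * t + 𝓜.d c1.1 r) y with h | h
      · refine Or.inr (Or.inl ⟨⟨r, hr⟩, t, y - (𝓜.l c1.1 r * t + 𝓜.d c1.1 r + 1), ?_⟩)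
        show _ = _
        have e : 𝓜.l c1.1 r * t + (𝓜.d c1.1 r + 1) + (y - (𝓜.l c1.1 r * t + 𝓜.d c1.1 r + 1)) = y := by
          omega
        simp only [e]
        rfl
      · have h' : y < 𝓜.l c1.1 r * t + 𝓜.d c1.1 r := lt_of_le_of_ne h (Ne.symm hy)
        rcases Nat.lt_or_ge y (𝓜.l c1.1 r * t) with h4 | h4
        · have hl := 𝓜.hl c1.1 r
          have h5 : y / 𝓜.l c1.1 r < t := by
            rw [Nat.div_lt_iff_lt_mul hl, mul_comm]
            exact h4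
          refine Or.inr (Or.inr (Or.inr ⟨⟨⟨r, hr⟩, ⟨y % 𝓜.l c1.1 r, Nat.mod_lt _ hl⟩⟩,
            y / 𝓜.l c1.1 r, t - (y / 𝓜.l c1.1 r + 1), ?_⟩))
          show _ = _
          have e1 : y / 𝓜.l c1.1 r + 1 + (t - (y / 𝓜.l c1.1 r + 1)) = t := by omega
          have e2 : 𝓜.l c1.1 r * (y / 𝓜.l c1.1 r) + y % 𝓜.l c1.1 r = y := Nat.div_add_mod _ _
          simp only [e1, e2]
          rfl
        · refine Or.inr (Or.inr (Or.inl ⟨⟨⟨r, hr⟩, ⟨y - 𝓜.l c1.1 r * t, by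
            show y - 𝓜.l c1.1 r * t < 𝓜.d c1.1 r
            omega⟩⟩, t, ?_⟩))
          show _ = _
          have e1 : 𝓜.l c1.1 r * t + (y - 𝓜.l c1.1 r * t) = y := by omega
          simp only [e1]
          rfl
    · refine Or.inl ⟨⟨r, hr⟩, ?_⟩
      simp only [L0, if_neg hn]
      exact ⟨t, y, rfl⟩
  · rintro (⟨r, h⟩ | ⟨r, t, k, rfl⟩ | ⟨⟨r, i⟩, t, rfl⟩ | ⟨⟨r, i⟩, t, k, rfl⟩)
    · by_cases hn : 𝓜.nx c1.1 r = c2.1
      · simp only [L0, if_pos hn] at h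
        exact absurd h (Set.notMem_empty _)
      · simp only [L0, if_neg hn] at h
        obtain ⟨t, y, rfl⟩ := h
        refine ⟨𝓜.M * t + r, y, (K09_word _ _ _ _).symm, ?_⟩
        rw [hval _ _ _ r.2]
        exact fun h => hn h.1
    · refine ⟨_, _, (K09_word _ _ _ _).symm, ?_⟩
      rw [hval _ _ _ r.2]
      rintro ⟨-, h⟩
      omega
    · refine ⟨_, _, (K09_word _ _ _ _).symm, ?_⟩
      rw [hval _ _ _ r.2]
      rintro ⟨-, h⟩
      have := i.2
      simp only at h this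
      omega
    · refine ⟨_, _, (K09_word _ _ _ _).symm, ?_⟩
      rw [hval _ _ _ r.2]
      rintro ⟨-, h⟩
      have h1 := i.2
      simp only at h h1
      have h2 : 𝓜.l c1.1 r * (t + 1 + k) = 𝓜.l c1.1 r * t + 𝓜.l c1.1 r + 𝓜.l c1.1 r * k := by ring
      rw [h2] at h
      omega

end NSI
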