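import Pool.Agent.Lib.NSI.K08

/-!
# K10 : the words of type (A) form a context-free language

`FFc w`: `FF 𝓜 E w` for some `E` (first row letter fixed, first number arbitrary).

Recipe.  `CF_nest`.  Vertices: `Option (Fin Q × Bool) × Bool` (last row letter of the left-hand side,
strictness flag).  Edges (from the outside to the inside): row edge: `x = [row c]`, `y = [row' c]`,
allowed if `c = (q0, false)` at the start, otherwise if the parity alternates; `x = [one]`,
`y = [one']`; `x = []`, `y = [one']` with flag `:= true`.  (For the type `Ed` take a finite type of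
labels: e.g. triples (source, target, kind) with the languages `X e = ∅` if the edge is not allowed.)
`Z (some c, f) = {midW n m : n = m ∨ (f ∧ n ≤ m)}` if `c.1 = qh`, `∅` otherwise (also at the start).
(⊆) by induction on `Nest`: every word of `Nest` at `(some c, f)` has the form
`1^p encL w mid.. encR w' 1'^p'` ... ; (⊇) by induction on the rows.
-/

set_option autoImplicit false

namespace NSI

/-- the left-hand sides with arbitrary first number -/
def FFc (𝓜 : Mach) (w : List (Row 𝓜.Q)) : Prop := ∃ E, FF 𝓜 E w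


section
variable {Q : ℕ}

/-- vertices: last row letter of the left-hand side, strictness flag -/
private abbrev K10_P (Q : ℕ) : Type := Option (Fin Q × Bool) × Bool

/-- edges: row edges, pairs `(1, 1')`, additional letters `1'` -/
private abbrev K10_E (Q : ℕ) : Type := (K10_P Q × (Fin Q × Bool)) ⊕ (K10_P Q ⊕ K10_P Q)

private def K10_src : K10_E Q → K10_P Q
  | .inl e => e.1
  | .inr (.inl p) => p
  | .inr (.inr p) => p

private def K10_dst : K10_E Q → K10_P Q
  | .inl e => (some e.2, e.1.2)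
  | .inr (.inl p) => p
  | .inr (.inr p) => (p.1, true)

private def K10_Y : K10_E Q → Language (Lt Q)
  | .inl e => ({[Lt.row' e.2.1 e.2.2]} : Set (List (Lt Q)))
  | .inr (.inl _) => ({[Lt.one']} : Set (List (Lt Q)))
  | .inr (.inr _) => ({[Lt.one']} : Set (List (Lt Q)))

end

private def K10_ok (𝓜 : Mach) : Option (Fin 𝓜.Q × Bool) → (Fin 𝓜.Q × Bool) → Prop
  | none, c => c = (𝓜.q0, false)
  | some d, c => c.2 = !d.2

private def K10_X (𝓜 : Mach) : K10_E 𝓜.Q → Language (Lt 𝓜.Q)
  | .inl e => {z | K10_ok 𝓜 e.1.1 e.2 ∧ z = [Lt.row e.2.1 e.2.2]}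
  | .inr (.inl p) => {z | p.1 ≠ none ∧ z = [Lt.one]}
  | .inr (.inr p) => {z | p.1 ≠ none ∧ z = []}

private def K10_Z (𝓜 : Mach) : K10_P 𝓜.Q → Language (Lt 𝓜.Q)
  | (none, _) => {_z | False}
  | (some c, f) => {z | c.1 = 𝓜.qh ∧ ∃ n m, z = midW n m ∧ (n = m ∨ (f = true ∧ n ≤ m))}

private theorem K10_CF_if {Γ : Type} (P : Prop) (w : List Γ) : CF ({z | P ∧ z = w} : Language Γ) := by
  by_cases h : P
  · have : ({z | P ∧ z = w} : Set (List Γ)) = {w} := by ext z; simp [h]
    change CF ({z | P ∧ z = w} : Set (List Γ))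
    rw [this]
    exact CF_word w
  · have : ({z | P ∧ z = w} : Set (List Γ)) = ∅ := by ext z; simp [h]
    change CF ({z | P ∧ z = w} : Set (List Γ))
    rw [this]
    exact CF_empty

private theorem K10_CF_X (𝓜 : Mach) (e : K10_E 𝓜.Q) : CF (K10_X 𝓜 e) := by
  rcases e with e | e | e
  · exact K10_CF_if _ _
  · exact K10_CF_if _ _
  · exact K10_CF_if _ _

private theorem K10_CF_Y {Q : ℕ} (e : K10_E Q) : CF (K10_Y e) := by
  rcases e with e | e | e <;> exact CF_word _

private theorem K10_CF_Z (𝓜 : Mach) (p : K10_P 𝓜.Q) : CF (K10_Z 𝓜 p) := by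
  rcases p with ⟨c | c, f⟩
  · have : K10_Z 𝓜 (none, f) = (∅ : Set (List (Lt 𝓜.Q))) := by
      ext z
      exact ⟨fun h => h.elim, fun h => h.elim⟩
    rw [this]
    exact CF_empty
  · by_cases hc : c.1 = 𝓜.qh
    · cases f with
      | false =>
        have : K10_Z 𝓜 (some c, false) = {z | ∃ n, z = midW n n} := by
          ext z
          constructor
          · rintro ⟨-, n, m, rfl, h | ⟨h, -⟩⟩
            · subst h; exact ⟨n, rfl⟩
            · exact absurd h (by simp)
          · rintro ⟨n, rfl⟩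
            exact ⟨hc, n, n, rfl, Or.inl rfl⟩
        rw [this]
        exact CF_mid_eq
      | true =>
        have : K10_Z 𝓜 (some c, true) = {z | ∃ n m, n ≤ m ∧ z = midW n m} := by
          ext z
          constructor
          · rintro ⟨-, n, m, rfl, h | ⟨-, h⟩⟩
            · exact ⟨n, m, h.le, rfl⟩
            · exact ⟨n, m, h, rfl⟩
          · rintro ⟨n, m, h, rfl⟩
            exact ⟨hc, n, m, rfl, Or.inr ⟨rfl, h⟩⟩
        rw [this]
        exact CF_mid_le
    · have : K10_Z 𝓜 (some c, f) = (∅ : Set (List (Lt 𝓜.Q))) := by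
        ext z
        exact ⟨fun h => absurd h.1 hc, fun h => h.elim⟩
      rw [this]
      exact CF_empty

/-- the words at the vertex `(some c, f)` -/
private def K10_Inv (𝓜 : Mach) (c : Fin 𝓜.Q × Bool) (f : Bool) (z : List (Lt 𝓜.Q)) : Prop :=
  ∃ (p p' n m : ℕ) (w w' : List (Row 𝓜.Q)),
    z = List.replicate p Lt.one ++ (enc w n m w' ++ List.replicate p' Lt.one') ∧
    p ≤ p' ∧ List.Forall₂ LeRow w w' ∧
    (((c, 0) :: w : List (Row 𝓜.Q))).IsChain (fun r s => s.1.2 = !r.1.2) ∧
    (∃ r, ((c, 0) :: w : List (Row 𝓜.Q)).getLast? = some r ∧ r.1.1 = 𝓜.qh) ∧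
    n ≤ m ∧ (n = m ∨ f = true ∨ p < p' ∨ w ≠ w')

private theorem K10_rep_snoc {α : Type} (x : α) (n : ℕ) :
    List.replicate n x ++ [x] = List.replicate (n + 1) x := by
  rw [List.replicate_succ']

private theorem K10_isChain_num {Q : ℕ} {c : Fin Q × Bool} {k l : ℕ} {w : List (Row Q)}
    (h : (((c, k) :: w : List (Row Q))).IsChain (fun r s => s.1.2 = !r.1.2)) :
    (((c, l) :: w : List (Row Q))).IsChain (fun r s => s.1.2 = !r.1.2) := by
  cases w with
  | nil => simp
  | cons r w =>
    rw [List.isChain_cons_cons] at h ⊢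
    exact h

private theorem K10_last_num {Q : ℕ} {qh : Fin Q} {c : Fin Q × Bool} {k l : ℕ} {w : List (Row Q)}
    (h : ∃ r, ((c, k) :: w : List (Row Q)).getLast? = some r ∧ r.1.1 = qh) :
    ∃ r, ((c, l) :: w : List (Row Q)).getLast? = some r ∧ r.1.1 = qh := by
  cases w with
  | nil =>
    obtain ⟨r, h1, h2⟩ := h
    simp only [List.getLast?_singleton, Option.some.injEq] at h1
    subst h1
    exact ⟨(c, l), by simp, h2⟩
  | cons r w =>
    obtain ⟨s, h1, h2⟩ := h
    rw [List.getLast?_cons_cons] at h1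
    exact ⟨s, by rw [List.getLast?_cons_cons]; exact h1, h2⟩

private theorem K10_enc_cons {Q : ℕ} (r r' : Row Q) (w w' : List (Row Q)) (n m : ℕ) :
    enc (r :: w) n m (r' :: w') = [Lt.row r.1.1 r.1.2] ++
      (List.replicate r.2 Lt.one ++ (enc w n m w' ++ List.replicate r'.2 Lt.one')) ++
      [Lt.row' r'.1.1 r'.1.2] := by
  simp [enc, encL, encR, rl, rr, List.append_assoc]

/-- words of the nest: soundness -/
private theorem K10_sound (𝓜 : Mach) {p : K10_P 𝓜.Q} {z : List (Lt 𝓜.Q)}
    (h : Nest K10_src K10_dst (K10_X 𝓜) K10_Y (K10_Z 𝓜) p z) :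
    (∀ c, p.1 = some c → K10_Inv 𝓜 c p.2 z) ∧
    (p.1 = none → ∃ z', K10_Inv 𝓜 (𝓜.q0, false) p.2 z' ∧
      z = [Lt.row 𝓜.q0 false] ++ z' ++ [Lt.row' 𝓜.q0 false]) := by
  induction h with
  | @base p z hz =>
    rcases p with ⟨c | c, f⟩
    · exact (hz : False).elim
    · refine ⟨?_, fun h => by simp at h⟩
      intro c' hc'
      simp only [Option.some.injEq] at hc'
      subst hc'
      obtain ⟨h1, n, m, rfl, h2⟩ := hz
      refine ⟨0, 0, n, m, [], [], ?_, le_rfl, List.Forall₂.nil, by simp, ⟨(c, 0), by simp, h1⟩, ?_, ?_⟩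
      · simp [enc, encL, encR, midW]
      · rcases h2 with h2 | h2
        · exact h2.le
        · exact h2.2
      · rcases h2 with h2 | h2
        · exact Or.inl h2
        · exact Or.inr (Or.inl h2.1)
  | @step e x z y hx hz hy ih =>
    rcases e with ⟨⟨d, f⟩, c⟩ | ⟨d, f⟩ | ⟨d, f⟩
    · -- row edge
      obtain ⟨hok, rfl⟩ := hx
      have hy' : y = [Lt.row' c.1 c.2] := hy
      subst hy'
      have hinv : K10_Inv 𝓜 c f z := ih.1 c rfl
      obtain ⟨p, p', n, m, w, w', rfl, hp, hw, hch, hl, hnm, hs⟩ := hinv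
      constructor
      · intro d' hd'
        have hd : d = some d' := hd'
        subst hd
        refine ⟨0, 0, n, m, (c, p) :: w, (c, p') :: w', ?_, le_rfl,
          List.Forall₂.cons ⟨rfl, hp⟩ hw, ?_, ?_, hnm, ?_⟩
        · rw [K10_enc_cons]
          simp
        · rw [List.isChain_cons_cons]
          exact ⟨hok, K10_isChain_num hch⟩
        · obtain ⟨r, h1, h2⟩ := K10_last_num (l := p) hl
          exact ⟨r, by rw [List.getLast?_cons_cons]; exact h1, h2⟩
        · rcases hs with hs | hs | hs | hs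
          · exact Or.inl hs
          · exact Or.inr (Or.inl hs)
          · refine Or.inr (Or.inr (Or.inr ?_))
            intro heq
            simp only [List.cons.injEq, Prod.mk.injEq] at heq
            omega
          · refine Or.inr (Or.inr (Or.inr ?_))
            intro heq
            simp only [List.cons.injEq] at heq
            exact hs heq.2
      · intro hd'
        have hd : d = none := hd'
        subst hd
        have hc : c = (𝓜.q0, false) := hok
        subst hc
        exact ⟨_, ⟨p, p', n, m, w, w', rfl, hp, hw, hch, hl, hnm, hs⟩, rfl⟩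
    · -- pair
      obtain ⟨hok, rfl⟩ := hx
      have hy' : y = [Lt.one'] := hy
      subst hy'
      constructor
      · intro c hc
        have hd : d = some c := hc
        subst hd
        have hinv : K10_Inv 𝓜 c f z := ih.1 c rfl
        obtain ⟨p, p', n, m, w, w', rfl, hp, hw, hch, hl, hnm, hs⟩ := hinv
        refine ⟨p + 1, p' + 1, n, m, w, w', ?_, by omega, hw, hch, hl, hnm, ?_⟩
        · rw [← K10_rep_snoc Lt.one' p', List.replicate_succ]
          simp [List.append_assoc]
        · rcases hs with hs | hs | hs | hs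
          · exact Or.inl hs
          · exact Or.inr (Or.inl hs)
          · exact Or.inr (Or.inr (Or.inl (by omega)))
          · exact Or.inr (Or.inr (Or.inr hs))
      · intro hd
        exact absurd hd hok
    · -- additional letter
      obtain ⟨hok, rfl⟩ := hx
      have hy' : y = [Lt.one'] := hy
      subst hy'
      constructor
      · intro c hc
        have hd : d = some c := hc
        subst hd
        have hinv : K10_Inv 𝓜 c true z := ih.1 c rfl
        obtain ⟨p, p', n, m, w, w', rfl, hp, hw, hch, hl, hnm, hs⟩ := hinv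
        refine ⟨p, p' + 1, n, m, w, w', ?_, by omega, hw, hch, hl, hnm, ?_⟩
        · rw [← K10_rep_snoc Lt.one' p']
          simp [List.append_assoc]
        · exact Or.inr (Or.inr (Or.inl (by omega)))
      · intro hd
        exact absurd hd hok

private theorem K10_ones (𝓜 : Mach) (c : Fin 𝓜.Q × Bool) (f : Bool) (z : List (Lt 𝓜.Q)) (p : ℕ)
    (h : Nest K10_src K10_dst (K10_X 𝓜) K10_Y (K10_Z 𝓜) (some c, f) z) :
    Nest K10_src K10_dst (K10_X 𝓜) K10_Y (K10_Z 𝓜) (some c, f)
      (List.replicate p Lt.one ++ (z ++ List.replicate p Lt.one')) := by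
  induction p with
  | zero => simpa using h
  | succ p ih =>
    have h1 := Nest.step (src := K10_src) (dst := K10_dst) (X := K10_X 𝓜) (Y := K10_Y)
      (Z := K10_Z 𝓜) (.inr (.inl (some c, f)) : K10_E 𝓜.Q) (x := [Lt.one])
      (z := List.replicate p Lt.one ++ (z ++ List.replicate p Lt.one')) (y := [Lt.one'])
      ⟨by simp, rfl⟩ ih rfl
    have h2 : [Lt.one] ++ (List.replicate p Lt.one ++ (z ++ List.replicate p Lt.one')) ++ [Lt.one']
        = List.replicate (p + 1) Lt.one ++ (z ++ List.replicate (p + 1) Lt.one') := by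
      rw [← K10_rep_snoc Lt.one' p, List.replicate_succ]
      simp [List.append_assoc]
    rw [← h2]
    exact h1

private theorem K10_exts (𝓜 : Mach) (c : Fin 𝓜.Q × Bool) (f : Bool) (z : List (Lt 𝓜.Q)) (p : ℕ)
    (h : Nest K10_src K10_dst (K10_X 𝓜) K10_Y (K10_Z 𝓜) (some c, true) z) :
    Nest K10_src K10_dst (K10_X 𝓜) K10_Y (K10_Z 𝓜) (some c, f)
      (z ++ List.replicate (p + 1) Lt.one') := by
  induction p generalizing f with
  | zero =>
    have h1 := Nest.step (src := K10_src) (dst := K10_dst) (X := K10_X 𝓜) (Y := K10_Y)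
      (Z := K10_Z 𝓜) (.inr (.inr (some c, f)) : K10_E 𝓜.Q) (x := [])
      (z := z) (y := [Lt.one'])
      ⟨by simp, rfl⟩ h rfl
    exact h1
  | succ p ih =>
    have h1 := Nest.step (src := K10_src) (dst := K10_dst) (X := K10_X 𝓜) (Y := K10_Y)
      (Z := K10_Z 𝓜) (.inr (.inr (some c, f)) : K10_E 𝓜.Q) (x := [])
      (z := z ++ List.replicate (p + 1) Lt.one') (y := [Lt.one'])
      ⟨by simp, rfl⟩ (ih true) rfl
    rw [← K10_rep_snoc Lt.one' (p + 1), ← List.append_assoc]
    exact h1

/-- words of the nest: completeness -/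
private theorem K10_complete (𝓜 : Mach) (w : List (Row 𝓜.Q)) : ∀ (c : Fin 𝓜.Q × Bool) (f : Bool)
    (p p' n m : ℕ) (w' : List (Row 𝓜.Q)), p ≤ p' → List.Forall₂ LeRow w w' →
    (((c, 0) :: w : List (Row 𝓜.Q))).IsChain (fun r s => s.1.2 = !r.1.2) →
    (∃ r, ((c, 0) :: w : List (Row 𝓜.Q)).getLast? = some r ∧ r.1.1 = 𝓜.qh) →
    n ≤ m → (n = m ∨ f = true ∨ p < p' ∨ w ≠ w') →
    Nest K10_src K10_dst (K10_X 𝓜) K10_Y (K10_Z 𝓜) (some c, f)
      (List.replicate p Lt.one ++ (enc w n m w' ++ List.replicate p' Lt.one')) := by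
  induction w with
  | nil =>
    intro c f p p' n m w' hp hw hch hl hnm hs
    cases hw
    have hc : c.1 = 𝓜.qh := by
      obtain ⟨r, h1, h2⟩ := hl
      simp only [List.getLast?_singleton, Option.some.injEq] at h1
      subst h1
      exact h2
    have he : enc ([] : List (Row 𝓜.Q)) n m [] = midW n m := by simp [enc, encL, encR, midW]
    rw [he]
    rcases Nat.lt_or_ge p p' with hlt | hge
    · obtain ⟨d, rfl⟩ : ∃ d, p' = (d + 1) + p := ⟨p' - p - 1, by omega⟩
      have h0 : Nest K10_src K10_dst (K10_X 𝓜) K10_Y (K10_Z 𝓜) (some c, true) (midW n m) :=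
        Nest.base ⟨hc, n, m, rfl, Or.inr ⟨rfl, hnm⟩⟩
      have h1 := K10_ones 𝓜 c f _ p (K10_exts 𝓜 c f _ d h0)
      rw [List.replicate_add]
      simpa [List.append_assoc] using h1
    · obtain rfl : p = p' := by omega
      have h0 : Nest K10_src K10_dst (K10_X 𝓜) K10_Y (K10_Z 𝓜) (some c, f) (midW n m) := by
        refine Nest.base ⟨hc, n, m, rfl, ?_⟩
        rcases hs with hs | hs | hs | hs
        · exact Or.inl hs
        · exact Or.inr ⟨hs, hnm⟩
        · omega
        · exact absurd rfl hs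
      exact K10_ones 𝓜 c f _ p h0
  | cons r w ih =>
    intro c f p p' n m w' hp hw hch hl hnm hs
    obtain ⟨r', w1', hr, hw1, rfl⟩ : ∃ r' w1', LeRow r r' ∧ List.Forall₂ LeRow w w1' ∧
        w' = r' :: w1' := by
      cases hw with
      | cons h1 h2 => exact ⟨_, _, h1, h2, rfl⟩
    rw [List.isChain_cons_cons] at hch
    obtain ⟨hpar, hch⟩ := hch
    obtain ⟨⟨rc, rk⟩, hrr⟩ : ∃ q : Row 𝓜.Q, q = r := ⟨r, rfl⟩
    subst hrr
    obtain ⟨⟨rc', rk'⟩, hrr'⟩ : ∃ q : Row 𝓜.Q, q = r' := ⟨r', rfl⟩
    subst hrr'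
    obtain ⟨hr1, hr2⟩ := hr
    simp only at hr1 hr2 hpar
    subst hr1
    have hl' : ∃ r, ((rc, 0) :: w : List (Row 𝓜.Q)).getLast? = some r ∧ r.1.1 = 𝓜.qh := by
      obtain ⟨s, h1, h2⟩ := hl
      rw [List.getLast?_cons_cons] at h1
      exact K10_last_num ⟨s, h1, h2⟩
    have hch' : (((rc, 0) :: w : List (Row 𝓜.Q))).IsChain (fun r s => s.1.2 = !r.1.2) :=
      K10_isChain_num hch
    -- the word inside the row edge, with flag g
    have key : ∀ g : Bool, (n = m ∨ g = true ∨ rk < rk' ∨ w ≠ w1') →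
        Nest K10_src K10_dst (K10_X 𝓜) K10_Y (K10_Z 𝓜) (some c, g)
          (enc ((rc, rk) :: w) n m ((rc, rk') :: w1')) := by
      intro g hg
      have h0 := ih rc g rk rk' n m w1' hr2 hw1 hch' hl' hnm hg
      have h1 := Nest.step (src := K10_src) (dst := K10_dst) (X := K10_X 𝓜) (Y := K10_Y)
        (Z := K10_Z 𝓜) (.inl ((some c, g), rc) : K10_E 𝓜.Q) (x := [Lt.row rc.1 rc.2])
        (y := [Lt.row' rc.1 rc.2]) ⟨hpar, rfl⟩ h0 rfl
      rw [K10_enc_cons]
      exact h1
    rcases Nat.lt_or_ge p p' with hlt | hge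
    · obtain ⟨d, rfl⟩ : ∃ d, p' = (d + 1) + p := ⟨p' - p - 1, by omega⟩
      have h0 := key true (Or.inr (Or.inl rfl))
      have h1 := K10_ones 𝓜 c f _ p (K10_exts 𝓜 c f _ d h0)
      rw [List.replicate_add]
      simpa [List.append_assoc] using h1
    · obtain rfl : p = p' := by omega
      refine K10_ones 𝓜 c f _ p (key f ?_)
      rcases hs with hs | hs | hs | hs
      · exact Or.inl hs
      · exact Or.inr (Or.inl hs)
      · omega
      · by_cases h1 : w = w1'
        · by_cases h2 : rk = rk'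
          · subst h1 h2
            exact absurd rfl hs
          · exact Or.inr (Or.inr (Or.inl (by omega)))
        · exact Or.inr (Or.inr (Or.inr h1))

theorem CF_A (𝓜 : Mach) : CF ({z | ∃ w n m w', z = enc w n m w' ∧ FFc 𝓜 w ∧ n ≤ m ∧
    KA w n m w'} : Language (Lt 𝓜.Q)) := by
  have h : ({z | ∃ w n m w', z = enc w n m w' ∧ FFc 𝓜 w ∧ n ≤ m ∧
      KA w n m w'} : Language (Lt 𝓜.Q)) =
      ({z | Nest K10_src K10_dst (K10_X 𝓜) K10_Y (K10_Z 𝓜) (none, false) z} :
        Language (Lt 𝓜.Q)) := by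
    ext z
    constructor
    · rintro ⟨w, n, m, w', rfl, ⟨E, hE, hch, hl⟩, hnm, hw, hs⟩
      cases w with
      | nil => simp at hE
      | cons r w =>
        simp only [List.head?_cons, Option.some.injEq] at hE
        subst hE
        obtain ⟨r', w1', hr, hw1, rfl⟩ : ∃ r' w1', LeRow ((𝓜.q0, false), E) r' ∧
            List.Forall₂ LeRow w w1' ∧ w' = r' :: w1' := by
          cases hw with
          | cons h1 h2 => exact ⟨_, _, h1, h2, rfl⟩
        obtain ⟨⟨rc', rk'⟩, hrr'⟩ : ∃ q : Row 𝓜.Q, q = r' := ⟨r', rfl⟩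
        subst hrr'
        obtain ⟨hr1, hr2⟩ := hr
        simp only at hr1 hr2
        subst hr1
        have h0 := K10_complete 𝓜 w (𝓜.q0, false) false E rk' n m w1' hr2 hw1
          (K10_isChain_num hch) (K10_last_num hl) hnm (by
            rcases hs with hs | hs
            · exact Or.inl hs
            · by_cases h1 : w = w1'
              · by_cases h2 : E = rk'
                · subst h1 h2
                  exact absurd rfl hs
                · exact Or.inr (Or.inr (Or.inl (by omega)))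
              · exact Or.inr (Or.inr (Or.inr h1)))
        have h1 := Nest.step (src := K10_src) (dst := K10_dst) (X := K10_X 𝓜) (Y := K10_Y)
          (Z := K10_Z 𝓜) (.inl ((none, false), (𝓜.q0, false)) : K10_E 𝓜.Q)
          (x := [Lt.row 𝓜.q0 false]) (y := [Lt.row' 𝓜.q0 false]) ⟨rfl, rfl⟩ h0 rfl
        rw [K10_enc_cons]
        exact h1
    · intro hz
      obtain ⟨z', ⟨p, p', n, m, w, w', rfl, hp, hw, hch, hl, hnm, hs⟩, rfl⟩ :=
        (K10_sound 𝓜 hz).2 rfl
      refine ⟨((𝓜.q0, false), p) :: w, n, m, ((𝓜.q0, false), p') :: w', ?_,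
        ⟨p, by simp, K10_isChain_num hch, K10_last_num hl⟩, hnm,
        List.Forall₂.cons ⟨rfl, hp⟩ hw, ?_⟩
      · rw [K10_enc_cons]
      · rcases hs with hs | hs | hs | hs
        · exact Or.inl hs
        · exact absurd hs (by simp)
        · refine Or.inr ?_
          intro heq
          simp only [List.cons.injEq, Prod.mk.injEq] at heq
          omega
        · refine Or.inr ?_
          intro heq
          simp only [List.cons.injEq] at heq
          exact hs heq.2
  rw [h]
  exact CF_nest K10_src K10_dst (K10_X 𝓜) K10_Y (K10_Z 𝓜) (K10_CF_X 𝓜) K10_CF_Y (K10_CF_Z 𝓜)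
    (none, false)

end NSI
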