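import Pool.Agent.Lib.NSI.K08
import Pool.Agent.Lib.NSI.K09
import Pool.Agent.Lib.NSI.K10

/-!
# K11 : the words of type (C) form a context-free language

Recipe.  `CF_nest` with vertices: before the window: `Option (Fin Q × Bool)` (last row letter), after
the window: `(Fin Q × Bool) × Bool` (last row letter, parity of the window).  Edges: row edges and
number edges as in K10 (without flag), and for letters `c1, c2` (`c1` allowed after the last letter,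
`c2` of opposite parity, `c1.1 ≠ qh`) the window edge with `X e` = incorrect transitions with
letters `c1, c2` (K09) and `Y e = {rr s' ++ rr r'}` (all pairs of rows; context-free because it is
regular: finite union of products).  After the window `Z (c, j) = {midW n m : Reg j n m}` if
`c.1 = qh`.  `n ≤ m` follows from `Reg`.
-/

set_option autoImplicit false

namespace NSI

section K11aux

variable (𝓜 : Mach)

/-- the row letters allowed after the last row letter -/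
def K11_al : Option (Fin 𝓜.Q × Bool) → (Fin 𝓜.Q × Bool) → Prop
  | none, c => c = (𝓜.q0, false)
  | some c, c' => c'.2 = !c.2

/-- the list of rows leads from one vertex to another one -/
def K11_en : Option (Fin 𝓜.Q × Bool) → List (Row 𝓜.Q) → Option (Fin 𝓜.Q × Bool) → Prop
  | o, [], o' => o = o'
  | o, r :: w, o' => K11_al 𝓜 o r.1 ∧ K11_en (some r.1) w o'

/-- compared rows around a word of `Z` -/
def K11_R (Z : Option (Fin 𝓜.Q × Bool) → Language (Lt 𝓜.Q)) (o : Option (Fin 𝓜.Q × Bool)) :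
    Language (Lt 𝓜.Q) :=
  {z | ∃ (w w' : List (Row 𝓜.Q)) (o' : Option (Fin 𝓜.Q × Bool)) (z0 : List (Lt 𝓜.Q)),
    K11_en 𝓜 o w o' ∧ List.Forall₂ LeRow w w' ∧ z0 ∈ Z o' ∧ z = encL w ++ z0 ++ encR w'}

/-- edges -/
abbrev K11_Ed : Type :=
  (Option (Fin 𝓜.Q × Bool) × (Fin 𝓜.Q × Bool)) ⊕ (((Fin 𝓜.Q × Bool) × Bool) ⊕ (Fin 𝓜.Q × Bool))

def K11_src : K11_Ed 𝓜 → Option (Fin 𝓜.Q × Bool) × Bool
  | .inl (o, _) => (o, false)
  | .inr (.inl (c, _)) => (some c, true)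
  | .inr (.inr c) => (some c, true)

def K11_dst : K11_Ed 𝓜 → Option (Fin 𝓜.Q × Bool) × Bool
  | .inl (_, c) => (some c, true)
  | .inr (.inl (c, _)) => (some c, true)
  | .inr (.inr c) => (some c, false)

def K11_X : K11_Ed 𝓜 → Language (Lt 𝓜.Q)
  | .inl (o, c) => {z | K11_al 𝓜 o c ∧ z = [Lt.row c.1 c.2]}
  | .inr (.inl (_, b)) => {z | z = if b then [Lt.one] else []}
  | .inr (.inr _) => {z | z = []}

def K11_Y : K11_Ed 𝓜 → Language (Lt 𝓜.Q)
  | .inl (_, c) => {z | z = [Lt.row' c.1 c.2]}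
  | .inr (.inl _) => {z | z = [Lt.one']}
  | .inr (.inr _) => {z | z = []}

def K11_Z (Z : Option (Fin 𝓜.Q × Bool) → Language (Lt 𝓜.Q)) :
    Option (Fin 𝓜.Q × Bool) × Bool → Language (Lt 𝓜.Q)
  | (o, false) => Z o
  | (_, true) => (∅ : Set (List (Lt 𝓜.Q)))

/-- the words at the vertices -/
def K11_S (Z : Option (Fin 𝓜.Q × Bool) → Language (Lt 𝓜.Q)) :
    Option (Fin 𝓜.Q × Bool) × Bool → List (Lt 𝓜.Q) → Prop
  | (o, false), z => z ∈ K11_R 𝓜 Z o
  | (o, true), z => ∃ (x x' : ℕ) (z' : List (Lt 𝓜.Q)), x ≤ x' ∧ z' ∈ K11_R 𝓜 Z o ∧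
      z = List.replicate x Lt.one ++ z' ++ List.replicate x' Lt.one'

private theorem K11_congr {L L' : Language (Lt 𝓜.Q)} (h : CF L') (hL : ∀ z, z ∈ L ↔ z ∈ L') :
    CF L := by
  have e : L = L' := Set.ext hL
  rw [e]
  exact h

private theorem K11_CF_eq (z : List (Lt 𝓜.Q)) : CF ({x | x = z} : Language (Lt 𝓜.Q)) :=
  CF_word z

private theorem K11_CF_prop {P : Prop} {L : Language (Lt 𝓜.Q)} (h : CF L) :
    CF ({z | P ∧ z ∈ L} : Language (Lt 𝓜.Q)) := by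
  by_cases hP : P
  · have e : ({z | P ∧ z ∈ L} : Language (Lt 𝓜.Q)) = L := by
      apply Set.ext
      intro z
      exact ⟨fun h => h.2, fun h => ⟨hP, h⟩⟩
    rw [e]
    exact h
  · have e : ({z | P ∧ z ∈ L} : Language (Lt 𝓜.Q)) = (∅ : Set (List (Lt 𝓜.Q))) := by
      apply Set.ext
      intro z
      exact ⟨fun h => absurd h.1 hP, fun h => absurd h (Set.notMem_empty z)⟩
    rw [e]
    exact CF_empty

private theorem K11_sub (Z : Option (Fin 𝓜.Q × Bool) → Language (Lt 𝓜.Q))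
    {p : Option (Fin 𝓜.Q × Bool) × Bool} {z : List (Lt 𝓜.Q)}
    (h : Nest (K11_src 𝓜) (K11_dst 𝓜) (K11_X 𝓜) (K11_Y 𝓜) (K11_Z 𝓜 Z) p z) :
    K11_S 𝓜 Z p z := by
  induction h with
  | @base p z hz =>
    obtain ⟨o, f⟩ := p
    cases f with
    | false => exact ⟨[], [], o, z, rfl, List.Forall₂.nil, hz, by simp [encL, encR]⟩
    | true => exact absurd hz (Set.notMem_empty z)
  | @step e x z y hx hn hy ih =>
    rcases e with ⟨o, c⟩ | ⟨c, b⟩ | c
    · obtain ⟨hal, rfl⟩ := hx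
      have hy' : y = [Lt.row' c.1 c.2] := hy
      subst hy'
      obtain ⟨a, a', z', haa, ⟨w, w', o', z0, h1, h2, h3, rfl⟩, rfl⟩ := ih
      refine ⟨(c, a) :: w, (c, a') :: w', o', z0, ⟨hal, h1⟩, List.Forall₂.cons ⟨rfl, haa⟩ h2, h3, ?_⟩
      simp [encL, encR, rl, rr, List.append_assoc]
    · have hx' : x = if b then [Lt.one] else [] := hx
      have hy' : y = [Lt.one'] := hy
      subst hx' hy'
      obtain ⟨a, a', z', haa, hz', rfl⟩ := ih
      cases b with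
      | false =>
        refine ⟨a, a' + 1, z', by omega, hz', ?_⟩
        simp [List.replicate_succ', List.append_assoc]
      | true =>
        refine ⟨a + 1, a' + 1, z', by omega, hz', ?_⟩
        simp [List.replicate_succ' (n := a'), List.replicate_succ (n := a), List.append_assoc]
    · have hx' : x = [] := hx
      have hy' : y = [] := hy
      subst hx' hy'
      exact ⟨0, 0, z, le_rfl, ih, by simp⟩

private theorem K11_loop (Z : Option (Fin 𝓜.Q × Bool) → Language (Lt 𝓜.Q))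
    (c : Fin 𝓜.Q × Bool) (z : List (Lt 𝓜.Q))
    (h : Nest (K11_src 𝓜) (K11_dst 𝓜) (K11_X 𝓜) (K11_Y 𝓜) (K11_Z 𝓜 Z) (some c, true) z)
    (x d : ℕ) : Nest (K11_src 𝓜) (K11_dst 𝓜) (K11_X 𝓜) (K11_Y 𝓜) (K11_Z 𝓜 Z) (some c, true)
      (List.replicate x Lt.one ++ z ++ List.replicate (x + d) Lt.one') := by
  induction x with
  | zero =>
    induction d with
    | zero => simpa using h
    | succ d ih =>
      have h1 := Nest.step (src := K11_src 𝓜) (dst := K11_dst 𝓜) (X := K11_X 𝓜) (Y := K11_Y 𝓜)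
        (Z := K11_Z 𝓜 Z) (.inr (.inl (c, false))) (x := []) (y := [Lt.one']) rfl ih rfl
      have e : ([] : List (Lt 𝓜.Q)) ++ (List.replicate 0 Lt.one ++ z ++
          List.replicate (0 + d) Lt.one') ++ [Lt.one'] =
          List.replicate 0 Lt.one ++ z ++ List.replicate (0 + (d + 1)) Lt.one' := by
        rw [← Nat.add_assoc, List.replicate_succ']
        simp [List.append_assoc]
      rw [e] at h1
      exact h1
  | succ x ih =>
    have h1 := Nest.step (src := K11_src 𝓜) (dst := K11_dst 𝓜) (X := K11_X 𝓜) (Y := K11_Y 𝓜)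
      (Z := K11_Z 𝓜 Z) (.inr (.inl (c, true))) (x := [Lt.one]) (y := [Lt.one']) rfl ih rfl
    have e : [Lt.one] ++ (List.replicate x Lt.one ++ z ++
        List.replicate (x + d) Lt.one') ++ [Lt.one'] =
        List.replicate (x + 1) Lt.one ++ z ++ List.replicate (x + 1 + d) Lt.one' := by
      rw [Nat.add_right_comm x 1 d, List.replicate_succ' (n := x + d),
        List.replicate_succ (n := x)]
      simp [List.append_assoc]
    rw [e] at h1
    exact h1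

private theorem K11_sup (Z : Option (Fin 𝓜.Q × Bool) → Language (Lt 𝓜.Q))
    (w w' : List (Row 𝓜.Q)) (o o' : Option (Fin 𝓜.Q × Bool)) (z0 : List (Lt 𝓜.Q))
    (h1 : K11_en 𝓜 o w o') (h2 : List.Forall₂ LeRow w w') (h3 : z0 ∈ Z o') :
    Nest (K11_src 𝓜) (K11_dst 𝓜) (K11_X 𝓜) (K11_Y 𝓜) (K11_Z 𝓜 Z) (o, false)
      (encL w ++ z0 ++ encR w') := by
  induction h2 generalizing o with
  | nil =>
    have h4 : o = o' := h1
    subst h4
    have h5 := Nest.base (src := K11_src 𝓜) (dst := K11_dst 𝓜) (X := K11_X 𝓜) (Y := K11_Y 𝓜)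
      (Z := K11_Z 𝓜 Z) (p := (o, false)) (z := z0) h3
    simpa [encL, encR] using h5
  | @cons r r' w w' hr h2 ih =>
    obtain ⟨hal, hen⟩ := h1
    obtain ⟨e1, e2⟩ := hr
    have h5 := ih (some r.1) hen
    have h6 := Nest.step (src := K11_src 𝓜) (dst := K11_dst 𝓜) (X := K11_X 𝓜) (Y := K11_Y 𝓜)
        (Z := K11_Z 𝓜 Z) (.inr (.inr r.1)) (x := []) (y := []) rfl h5 rfl
    rw [List.nil_append, List.append_nil] at h6
    have h7 := K11_loop 𝓜 Z r.1 _ h6 r.2 (r'.2 - r.2)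
    rw [Nat.add_sub_cancel' e2] at h7
    have h8 := Nest.step (src := K11_src 𝓜) (dst := K11_dst 𝓜) (X := K11_X 𝓜) (Y := K11_Y 𝓜)
        (Z := K11_Z 𝓜 Z) (.inl (o, r.1)) (x := [Lt.row r.1.1 r.1.2]) (y := [Lt.row' r.1.1 r.1.2])
        ⟨hal, rfl⟩ h7 rfl
    have e : [Lt.row r.1.1 r.1.2] ++ (List.replicate r.2 Lt.one ++ (encL w ++ z0 ++ encR w') ++
        List.replicate r'.2 Lt.one') ++ [Lt.row' r.1.1 r.1.2] =
        encL (r :: w) ++ z0 ++ encR (r' :: w') := by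
      simp [encL, encR, rl, rr, List.append_assoc, e1]
    rw [e] at h8
    exact h8

theorem K11_CF_R (Z : Option (Fin 𝓜.Q × Bool) → Language (Lt 𝓜.Q)) (hZ : ∀ o, CF (Z o))
    (o : Option (Fin 𝓜.Q × Bool)) : CF (K11_R 𝓜 Z o) := by
  have h := CF_nest (K11_src 𝓜) (K11_dst 𝓜) (K11_X 𝓜) (K11_Y 𝓜) (K11_Z 𝓜 Z) ?_ ?_ ?_ (o, false)
  · have e : K11_R 𝓜 Z o = ({z | Nest (K11_src 𝓜) (K11_dst 𝓜) (K11_X 𝓜) (K11_Y 𝓜) (K11_Z 𝓜 Z)
        (o, false) z} : Language (Lt 𝓜.Q)) := by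
      apply Set.ext
      intro z
      constructor
      · rintro ⟨w, w', o', z0, h1, h2, h3, rfl⟩
        exact K11_sup 𝓜 Z w w' o o' z0 h1 h2 h3
      · intro hz
        exact K11_sub 𝓜 Z hz
    rw [e]
    exact h
  · rintro (⟨o, c⟩ | ⟨c, b⟩ | c)
    · exact K11_CF_prop 𝓜 (K11_CF_eq 𝓜 _)
    · exact K11_CF_eq 𝓜 _
    · exact K11_CF_eq 𝓜 _
  · rintro (⟨o, c⟩ | ⟨c, b⟩ | c)
    · exact K11_CF_eq 𝓜 _
    · exact K11_CF_eq 𝓜 _
    · exact K11_CF_eq 𝓜 _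
  · rintro ⟨o, f⟩
    cases f with
    | false => exact hZ o
    | true => exact CF_empty

private theorem K11_en_append (w v : List (Row 𝓜.Q)) (o o'' : Option (Fin 𝓜.Q × Bool)) :
    K11_en 𝓜 o (w ++ v) o'' ↔ ∃ o', K11_en 𝓜 o w o' ∧ K11_en 𝓜 o' v o'' := by
  induction w generalizing o with
  | nil =>
    constructor
    · intro h
      exact ⟨o, rfl, h⟩
    · rintro ⟨o', rfl, h⟩
      exact h
  | cons r w ih =>
    constructor
    · rintro ⟨h1, h2⟩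
      obtain ⟨o', h3, h4⟩ := (ih _).1 h2
      exact ⟨o', ⟨h1, h3⟩, h4⟩
    · rintro ⟨o', ⟨h1, h3⟩, h4⟩
      exact ⟨h1, (ih _).2 ⟨o', h3, h4⟩⟩

private theorem K11_chain (r : Row 𝓜.Q) (w : List (Row 𝓜.Q)) (o' : Option (Fin 𝓜.Q × Bool)) :
    K11_en 𝓜 (some r.1) w o' ↔ (r :: w).IsChain (fun r s => s.1.2 = !r.1.2) ∧
      ∃ l, (r :: w).getLast? = some l ∧ o' = some l.1 := by
  induction w generalizing r with
  | nil =>
    constructor
    · intro h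
      have h1 : some r.1 = o' := h
      exact ⟨by simp, r, by simp, h1.symm⟩
    · rintro ⟨-, l, h1, h2⟩
      have h3 : r = l := by simpa using h1
      subst h3
      exact h2.symm
  | cons s w ih =>
    constructor
    · rintro ⟨h1, h2⟩
      obtain ⟨h3, l, h4, h5⟩ := (ih s).1 h2
      refine ⟨?_, l, ?_, h5⟩
      · rw [List.isChain_cons_cons]
        exact ⟨h1, h3⟩
      · rw [List.getLast?_cons_cons]
        exact h4
    · rintro ⟨h3, l, h4, h5⟩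
      rw [List.isChain_cons_cons] at h3
      rw [List.getLast?_cons_cons] at h4
      exact ⟨h3.1, (ih s).2 ⟨h3.2, l, h4, h5⟩⟩

private theorem K11_FFc (w : List (Row 𝓜.Q)) :
    FFc 𝓜 w ↔ ∃ c, K11_en 𝓜 none w (some c) ∧ c.1 = 𝓜.qh := by
  cases w with
  | nil =>
    constructor
    · rintro ⟨E, h1, -, -⟩
      simp at h1
    · rintro ⟨c, h, -⟩
      have h1 : (none : Option (Fin 𝓜.Q × Bool)) = some c := h
      simp at h1
  | cons r w =>
    constructor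
    · rintro ⟨E, h1, h2, l, h3, h4⟩
      have h5 : r = ((𝓜.q0, false), E) := by simpa using h1
      refine ⟨l.1, ⟨?_, (K11_chain 𝓜 r w _).2 ⟨h2, l, h3, rfl⟩⟩, h4⟩
      rw [h5]
      rfl
    · rintro ⟨c, ⟨h1, h2⟩, h3⟩
      obtain ⟨h4, l, h5, h6⟩ := (K11_chain 𝓜 r w _).1 h2
      have h7 : c = l.1 := by simpa using h6
      have h8 : r.1 = (𝓜.q0, false) := h1
      refine ⟨r.2, ?_, h4, l, h5, ?_⟩
      · rw [List.head?_cons, ← h8]
      · rw [← h7]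
        exact h3

private theorem K11_encL_append {Q : ℕ} (w v : List (Row Q)) :
    encL (w ++ v) = encL w ++ encL v := by
  induction w with
  | nil => rfl
  | cons r w ih => simp [encL, ih, List.append_assoc]

private theorem K11_encR_append {Q : ℕ} (w v : List (Row Q)) :
    encR (w ++ v) = encR v ++ encR w := by
  induction w with
  | nil => simp [encR]
  | cons r w ih => simp [encR, ih, List.append_assoc]

private theorem K11_pw {T : Type} (x : T) (n : ℕ) : pw [x] n = List.replicate n x := by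
  induction n with
  | zero => simp
  | succ n ih => rw [pw_succ, ih, List.replicate_succ]; rfl

/-- the innermost words -/
def K11_Z2 (j : Bool) (o : Option (Fin 𝓜.Q × Bool)) : Language (Lt 𝓜.Q) :=
  {z | (∃ c, o = some c ∧ c.1 = 𝓜.qh) ∧ z ∈ ({z | ∃ n m, Reg j n m ∧ z = midW n m} :
    Language (Lt 𝓜.Q))}

/-- two arbitrary rows on the right-hand side -/
def K11_Y2 : Language (Lt 𝓜.Q) := {z | ∃ s r : Row 𝓜.Q, z = rr s ++ rr r}

/-- the window, its mirror image, and everything inside -/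
def K11_Z1 (o : Option (Fin 𝓜.Q × Bool)) : Language (Lt 𝓜.Q) :=
  {z | ∃ i : (Fin 𝓜.Q × Bool) × (Fin 𝓜.Q × Bool), z ∈ ({z | (K11_al 𝓜 o i.1 ∧ i.2.2 = !i.1.2 ∧
    i.1.1 ≠ 𝓜.qh) ∧ z ∈ ({z | ∃ x ∈ ({z | ∃ x y : ℕ, z = rl (i.1, x) ++ rl (i.2, y) ∧
      ¬ Valid 𝓜 (i.1, x) (i.2, y)} : Language (Lt 𝓜.Q)),
      ∃ y ∈ ({z | ∃ x ∈ K11_R 𝓜 (K11_Z2 𝓜 i.1.2) (some i.2), ∃ y ∈ K11_Y2 𝓜, z = x ++ y} :
        Language (Lt 𝓜.Q)), z = x ++ y} : Language (Lt 𝓜.Q))} : Language (Lt 𝓜.Q))}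

private theorem K11_CF_rr : CF ({z | ∃ r : Row 𝓜.Q, z = rr r} : Language (Lt 𝓜.Q)) := by
  have h := CF_iUnion (fun c : Fin 𝓜.Q × Bool => ({z | ∃ x ∈ ({z | ∃ n : ℕ, z = pw [Lt.one'] n} :
    Language (Lt 𝓜.Q)), ∃ y ∈ ({[Lt.row' c.1 c.2]} : Language (Lt 𝓜.Q)), z = x ++ y} :
    Language (Lt 𝓜.Q))) (fun c => CF_mul _ _ (CF_star_word _) (CF_word _))
  refine K11_congr 𝓜 h fun z => ?_
  constructor
  · rintro ⟨r, rfl⟩
    exact ⟨r.1, _, ⟨r.2, rfl⟩, _, rfl, by rw [K11_pw]; rfl⟩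
  · rintro ⟨c, _, ⟨n, rfl⟩, _, rfl, rfl⟩
    exact ⟨(c, n), by rw [K11_pw]; rfl⟩

private theorem K11_CF_Y2 : CF (K11_Y2 𝓜) := by
  have h := CF_mul _ _ (K11_CF_rr 𝓜) (K11_CF_rr 𝓜)
  refine K11_congr 𝓜 h fun z => ?_
  constructor
  · rintro ⟨s, r, rfl⟩
    exact ⟨_, ⟨s, rfl⟩, _, ⟨r, rfl⟩, rfl⟩
  · rintro ⟨_, ⟨s, rfl⟩, _, ⟨r, rfl⟩, rfl⟩
    exact ⟨s, r, rfl⟩

private theorem K11_CF_Z1 (o : Option (Fin 𝓜.Q × Bool)) : CF (K11_Z1 𝓜 o) := by
  refine CF_iUnion _ fun i => K11_CF_prop 𝓜 (CF_mul _ _ (CF_invalid 𝓜 i.1 i.2) (CF_mul _ _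
    (K11_CF_R 𝓜 _ (fun o => K11_CF_prop 𝓜 (CF_mid_reg _)) _) (K11_CF_Y2 𝓜)))

end K11aux

theorem CF_C (𝓜 : Mach) : CF ({z | ∃ w n m w', z = enc w n m w' ∧ FFc 𝓜 w ∧ n ≤ m ∧
    KC 𝓜 w n m w'} : Language (Lt 𝓜.Q)) := by
  refine K11_congr 𝓜 (K11_CF_R 𝓜 (K11_Z1 𝓜) (K11_CF_Z1 𝓜) none) fun z => ?_
  constructor
  · rintro ⟨w, n, m, w', rfl, hF, hnm, w1, w2, w1', w2', r, s, r', s', rfl, rfl, h1, h2, hq, hv, hreg⟩
    obtain ⟨c, hen, hc⟩ := (K11_FFc 𝓜 _).1 hF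
    obtain ⟨o1, hen1, hal, hal2, hen2⟩ := (K11_en_append 𝓜 _ _ _ _).1 hen
    refine ⟨w1, w1', o1, (rl r ++ rl s) ++ ((encL w2 ++ midW n m ++ encR w2') ++ (rr s' ++ rr r')),
      hen1, h1, ?_, ?_⟩
    · refine ⟨(r.1, s.1), ⟨hal, hal2, hq⟩, _, ⟨r.2, s.2, rfl, hv⟩, _, ⟨_, ⟨w2, w2', some c,
        midW n m, hen2, h2, ⟨⟨c, rfl, hc⟩, n, m, hreg, rfl⟩, rfl⟩, _, ⟨s', r', rfl⟩, rfl⟩, rfl⟩
    · simp [enc, midW, K11_encL_append, K11_encR_append, encL, encR, List.append_assoc]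
  · rintro ⟨w1, w1', o1, z0, hen1, h1, ⟨⟨c1, c2⟩, ⟨hal, hal2, hq⟩, _, ⟨x, y, rfl, hv⟩, _, ⟨_,
      ⟨w2, w2', o2, _, hen2, h2, ⟨⟨c, rfl, hc⟩, n, m, hreg, rfl⟩, rfl⟩, _, ⟨s', r', rfl⟩, rfl⟩, rfl⟩,
      rfl⟩
    refine ⟨w1 ++ (c1, x) :: (c2, y) :: w2, n, m, w1' ++ r' :: s' :: w2', ?_, ?_, ?_, w1, w2, w1',
      w2', (c1, x), (c2, y), r', s', rfl, rfl, h1, h2, hq, hv, hreg⟩
    · simp [enc, midW, K11_encL_append, K11_encR_append, encL, encR, List.append_assoc]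
    · exact (K11_FFc 𝓜 _).2 ⟨c, (K11_en_append 𝓜 _ _ _ _).2 ⟨o1, hen1, hal, hal2, hen2⟩, hc⟩
    · have h3 : Reg c1.2 n m := hreg
      unfold Reg at h3
      split_ifs at h3 <;> omega

end NSI
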