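import Pool.Agent.Lib.NSI.K08
import Pool.Agent.Lib.NSI.K10

/-!
# K12 : the words with more rows on the right form a context-free language

Recipe.  `CF_nest`, vertices: start; `(last row letter of the left, flag = excess row)`.
Edges: `([row c], [row' c'])` for all `c'` and allowed `c`; `([one], [])`; `([], [one'])`;
`([], [row' c'])` with flag `:= true`.  The first edge at the start is `([row (q0, false)], [row' c'])`.
`Z = {midW n m : n ≤ m}` if the flag is `true` and the last letter is halting.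
-/

set_option autoImplicit false

namespace NSI

section
variable {Q : ℕ}

/-- vertices: last row letter of the left-hand side, excess flag -/
private abbrev K12_P (Q : ℕ) : Type := Option (Fin Q × Bool) × Bool

/-- edges: row edges, letters `1`, letters `1'`, excess right rows -/
private abbrev K12_E (Q : ℕ) : Type :=
  (K12_P Q × ((Fin Q × Bool) × (Fin Q × Bool))) ⊕ ((K12_P Q ⊕ K12_P Q) ⊕ (K12_P Q × (Fin Q × Bool)))

private def K12_src : K12_E Q → K12_P Q
  | .inl e => e.1
  | .inr (.inl (.inl p)) => p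
  | .inr (.inl (.inr p)) => p
  | .inr (.inr e) => e.1

private def K12_dst : K12_E Q → K12_P Q
  | .inl e => (some e.2.1, e.1.2)
  | .inr (.inl (.inl p)) => p
  | .inr (.inl (.inr p)) => p
  | .inr (.inr e) => (e.1.1, true)

private def K12_Y : K12_E Q → Language (Lt Q)
  | .inl e => ({[Lt.row' e.2.2.1 e.2.2.2]} : Set (List (Lt Q)))
  | .inr (.inl (.inl _)) => ({[]} : Set (List (Lt Q)))
  | .inr (.inl (.inr _)) => ({[Lt.one']} : Set (List (Lt Q)))
  | .inr (.inr e) => ({[Lt.row' e.2.1 e.2.2]} : Set (List (Lt Q)))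

end

private def K12_ok (𝓜 : Mach) : Option (Fin 𝓜.Q × Bool) → (Fin 𝓜.Q × Bool) → Prop
  | none, c => c = (𝓜.q0, false)
  | some d, c => c.2 = !d.2

private def K12_X (𝓜 : Mach) : K12_E 𝓜.Q → Language (Lt 𝓜.Q)
  | .inl e => {z | K12_ok 𝓜 e.1.1 e.2.1 ∧ z = [Lt.row e.2.1.1 e.2.1.2]}
  | .inr (.inl (.inl p)) => {z | p.1 ≠ none ∧ z = [Lt.one]}
  | .inr (.inl (.inr p)) => {z | p.1 ≠ none ∧ z = []}
  | .inr (.inr e) => {z | e.1.1 ≠ none ∧ z = []}

private def K12_Z (𝓜 : Mach) : K12_P 𝓜.Q → Language (Lt 𝓜.Q)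
  | (none, _) => {_z | False}
  | (some c, f) => {z | (c.1 = 𝓜.qh ∧ f = true) ∧ ∃ n m, n ≤ m ∧ z = midW n m}

private theorem K12_CF_if {Γ : Type} (P : Prop) (w : List Γ) : CF ({z | P ∧ z = w} : Language Γ) := by
  by_cases h : P
  · have : ({z | P ∧ z = w} : Set (List Γ)) = {w} := by ext z; simp [h]
    change CF ({z | P ∧ z = w} : Set (List Γ))
    rw [this]
    exact CF_word w
  · have : ({z | P ∧ z = w} : Set (List Γ)) = ∅ := by ext z; simp [h]
    change CF ({z | P ∧ z = w} : Set (List Γ))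
    rw [this]
    exact CF_empty

private theorem K12_CF_X (𝓜 : Mach) (e : K12_E 𝓜.Q) : CF (K12_X 𝓜 e) := by
  rcases e with e | (e | e) | e
  · exact K12_CF_if _ _
  · exact K12_CF_if _ _
  · exact K12_CF_if _ _
  · exact K12_CF_if _ _

private theorem K12_CF_Y {Q : ℕ} (e : K12_E Q) : CF (K12_Y e) := by
  rcases e with e | (e | e) | e <;> exact CF_word _

private theorem K12_CF_Z (𝓜 : Mach) (p : K12_P 𝓜.Q) : CF (K12_Z 𝓜 p) := by
  rcases p with ⟨c | c, f⟩
  · have : K12_Z 𝓜 (none, f) = (∅ : Set (List (Lt 𝓜.Q))) := by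
      ext z
      exact ⟨fun h => h.elim, fun h => h.elim⟩
    rw [this]
    exact CF_empty
  · by_cases hc : c.1 = 𝓜.qh ∧ f = true
    · have : K12_Z 𝓜 (some c, f) = {z | ∃ n m, n ≤ m ∧ z = midW n m} := by
        ext z
        exact ⟨fun h => h.2, fun h => ⟨hc, h⟩⟩
      rw [this]
      exact CF_mid_le
    · have : K12_Z 𝓜 (some c, f) = (∅ : Set (List (Lt 𝓜.Q))) := by
        ext z
        exact ⟨fun h => absurd h.1 hc, fun h => h.elim⟩
      rw [this]
      exact CF_empty

/-- the words at the vertex `(some c, f)` -/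
private def K12_Inv (𝓜 : Mach) (c : Fin 𝓜.Q × Bool) (f : Bool) (z : List (Lt 𝓜.Q)) : Prop :=
  ∃ (p p' n m : ℕ) (w w' : List (Row 𝓜.Q)),
    z = List.replicate p Lt.one ++ (enc w n m w' ++ List.replicate p' Lt.one') ∧
    w.length ≤ w'.length ∧
    (((c, 0) :: w : List (Row 𝓜.Q))).IsChain (fun r s => s.1.2 = !r.1.2) ∧
    (∃ r, ((c, 0) :: w : List (Row 𝓜.Q)).getLast? = some r ∧ r.1.1 = 𝓜.qh) ∧
    n ≤ m ∧ (f = true ∨ w.length < w'.length)

private theorem K12_rep_snoc {α : Type} (x : α) (n : ℕ) :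
    List.replicate n x ++ [x] = List.replicate (n + 1) x := by
  rw [List.replicate_succ']

private theorem K12_isChain_num {Q : ℕ} {c : Fin Q × Bool} {k l : ℕ} {w : List (Row Q)}
    (h : (((c, k) :: w : List (Row Q))).IsChain (fun r s => s.1.2 = !r.1.2)) :
    (((c, l) :: w : List (Row Q))).IsChain (fun r s => s.1.2 = !r.1.2) := by
  cases w with
  | nil => simp
  | cons r w =>
    rw [List.isChain_cons_cons] at h ⊢
    exact h

private theorem K12_last_num {Q : ℕ} {qh : Fin Q} {c : Fin Q × Bool} {k l : ℕ} {w : List (Row Q)}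
    (h : ∃ r, ((c, k) :: w : List (Row Q)).getLast? = some r ∧ r.1.1 = qh) :
    ∃ r, ((c, l) :: w : List (Row Q)).getLast? = some r ∧ r.1.1 = qh := by
  cases w with
  | nil =>
    obtain ⟨r, h1, h2⟩ := h
    simp only [List.getLast?_singleton, Option.some.injEq] at h1
    subst h1
    exact ⟨(c, l), by simp, h2⟩
  | cons r w =>
    obtain ⟨s, h1, h2⟩ := h
    rw [List.getLast?_cons_cons] at h1
    exact ⟨s, by rw [List.getLast?_cons_cons]; exact h1, h2⟩

private theorem K12_enc_cons {Q : ℕ} (r r' : Row Q) (w w' : List (Row Q)) (n m : ℕ) :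
    enc (r :: w) n m (r' :: w') = [Lt.row r.1.1 r.1.2] ++
      (List.replicate r.2 Lt.one ++ (enc w n m w' ++ List.replicate r'.2 Lt.one')) ++
      [Lt.row' r'.1.1 r'.1.2] := by
  simp [enc, encL, encR, rl, rr, List.append_assoc]

private theorem K12_enc_snoc {Q : ℕ} (r' : Row Q) (w w' : List (Row Q)) (n m : ℕ) :
    enc w n m (r' :: w') = enc w n m w' ++ List.replicate r'.2 Lt.one' ++
      [Lt.row' r'.1.1 r'.1.2] := by
  simp [enc, encR, rr, List.append_assoc]

/-- words of the nest: soundness -/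
private theorem K12_sound (𝓜 : Mach) {p : K12_P 𝓜.Q} {z : List (Lt 𝓜.Q)}
    (h : Nest K12_src K12_dst (K12_X 𝓜) K12_Y (K12_Z 𝓜) p z) :
    (∀ c, p.1 = some c → K12_Inv 𝓜 c p.2 z) ∧
    (p.1 = none → ∃ (z' : List (Lt 𝓜.Q)) (c' : Fin 𝓜.Q × Bool), K12_Inv 𝓜 (𝓜.q0, false) p.2 z' ∧
      z = [Lt.row 𝓜.q0 false] ++ z' ++ [Lt.row' c'.1 c'.2]) := by
  induction h with
  | @base p z hz =>
    rcases p with ⟨c | c, f⟩
    · exact (hz : False).elim
    · refine ⟨?_, fun h => by simp at h⟩
      intro c' hc'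
      simp only [Option.some.injEq] at hc'
      subst hc'
      obtain ⟨⟨h1, h3⟩, n, m, h2, rfl⟩ := hz
      refine ⟨0, 0, n, m, [], [], ?_, le_rfl, by simp, ⟨(c, 0), by simp, h1⟩, h2, Or.inl h3⟩
      simp [enc, encL, encR, midW]
  | @step e x z y hx hz hy ih =>
    rcases e with ⟨⟨d, f⟩, c, c'⟩ | (⟨d, f⟩ | ⟨d, f⟩) | ⟨⟨d, f⟩, c'⟩
    · -- row edge
      obtain ⟨hok, rfl⟩ := hx
      have hy' : y = [Lt.row' c'.1 c'.2] := hy
      subst hy'
      have hinv : K12_Inv 𝓜 c f z := ih.1 c rfl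
      obtain ⟨p, p', n, m, w, w', rfl, hw, hch, hl, hnm, hs⟩ := hinv
      constructor
      · intro d' hd'
        have hd : d = some d' := hd'
        subst hd
        refine ⟨0, 0, n, m, (c, p) :: w, (c', p') :: w', ?_, ?_, ?_, ?_, hnm, ?_⟩
        · rw [K12_enc_cons]
          simp
        · simpa using hw
        · rw [List.isChain_cons_cons]
          exact ⟨hok, K12_isChain_num hch⟩
        · obtain ⟨r, h1, h2⟩ := K12_last_num (l := p) hl
          exact ⟨r, by rw [List.getLast?_cons_cons]; exact h1, h2⟩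
        · rcases hs with hs | hs
          · exact Or.inl hs
          · exact Or.inr (by simpa using hs)
      · intro hd'
        have hd : d = none := hd'
        subst hd
        have hc : c = (𝓜.q0, false) := hok
        subst hc
        exact ⟨_, c', ⟨p, p', n, m, w, w', rfl, hw, hch, hl, hnm, hs⟩, rfl⟩
    · -- letter one
      obtain ⟨hok, rfl⟩ := hx
      have hy' : y = [] := hy
      subst hy'
      constructor
      · intro c hc
        have hd : d = some c := hc
        subst hd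
        have hinv : K12_Inv 𝓜 c f z := ih.1 c rfl
        obtain ⟨p, p', n, m, w, w', rfl, hw, hch, hl, hnm, hs⟩ := hinv
        refine ⟨p + 1, p', n, m, w, w', ?_, hw, hch, hl, hnm, hs⟩
        rw [List.replicate_succ]
        simp
      · intro hd
        exact absurd hd hok
    · -- letter one'
      obtain ⟨hok, rfl⟩ := hx
      have hy' : y = [Lt.one'] := hy
      subst hy'
      constructor
      · intro c hc
        have hd : d = some c := hc
        subst hd
        have hinv : K12_Inv 𝓜 c f z := ih.1 c rfl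
        obtain ⟨p, p', n, m, w, w', rfl, hw, hch, hl, hnm, hs⟩ := hinv
        refine ⟨p, p' + 1, n, m, w, w', ?_, hw, hch, hl, hnm, hs⟩
        rw [← K12_rep_snoc Lt.one' p']
        simp [List.append_assoc]
      · intro hd
        exact absurd hd hok
    · -- excess row
      obtain ⟨hok, rfl⟩ := hx
      have hy' : y = [Lt.row' c'.1 c'.2] := hy
      subst hy'
      constructor
      · intro c hc
        have hd : d = some c := hc
        subst hd
        have hinv : K12_Inv 𝓜 c true z := ih.1 c rfl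
        obtain ⟨p, p', n, m, w, w', rfl, hw, hch, hl, hnm, hs⟩ := hinv
        refine ⟨p, 0, n, m, w, (c', p') :: w', ?_, ?_, hch, hl, hnm, Or.inr ?_⟩
        · rw [K12_enc_snoc]
          simp [List.append_assoc]
        · simp only [List.length_cons]
          omega
        · simp only [List.length_cons]
          omega
      · intro hd
        exact absurd hd hok

private theorem K12_ones (𝓜 : Mach) (c : Fin 𝓜.Q × Bool) (f : Bool) (z : List (Lt 𝓜.Q)) (p : ℕ)
    (h : Nest K12_src K12_dst (K12_X 𝓜) K12_Y (K12_Z 𝓜) (some c, f) z) :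
    Nest K12_src K12_dst (K12_X 𝓜) K12_Y (K12_Z 𝓜) (some c, f)
      (List.replicate p Lt.one ++ z) := by
  induction p with
  | zero => simpa using h
  | succ p ih =>
    have h1 := Nest.step (src := K12_src) (dst := K12_dst) (X := K12_X 𝓜) (Y := K12_Y)
      (Z := K12_Z 𝓜) (.inr (.inl (.inl (some c, f))) : K12_E 𝓜.Q) (x := [Lt.one])
      (z := List.replicate p Lt.one ++ z) (y := [])
      ⟨by simp, rfl⟩ ih rfl
    have h2 : [Lt.one] ++ (List.replicate p Lt.one ++ z) ++ []
        = List.replicate (p + 1) Lt.one ++ z := by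
      rw [List.replicate_succ]
      simp
    rw [← h2]
    exact h1

private theorem K12_ones' (𝓜 : Mach) (c : Fin 𝓜.Q × Bool) (f : Bool) (z : List (Lt 𝓜.Q)) (p : ℕ)
    (h : Nest K12_src K12_dst (K12_X 𝓜) K12_Y (K12_Z 𝓜) (some c, f) z) :
    Nest K12_src K12_dst (K12_X 𝓜) K12_Y (K12_Z 𝓜) (some c, f)
      (z ++ List.replicate p Lt.one') := by
  induction p with
  | zero => simpa using h
  | succ p ih =>
    have h1 := Nest.step (src := K12_src) (dst := K12_dst) (X := K12_X 𝓜) (Y := K12_Y)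
      (Z := K12_Z 𝓜) (.inr (.inl (.inr (some c, f))) : K12_E 𝓜.Q) (x := [])
      (z := z ++ List.replicate p Lt.one') (y := [Lt.one'])
      ⟨by simp, rfl⟩ ih rfl
    rw [← K12_rep_snoc Lt.one' p, ← List.append_assoc]
    exact h1

/-- the excess rows -/
private theorem K12_tail (𝓜 : Mach) (c : Fin 𝓜.Q × Bool) (hc : c.1 = 𝓜.qh) (n m : ℕ)
    (hnm : n ≤ m) (w' : List (Row 𝓜.Q)) : ∀ (f : Bool), (f = true ∨ 0 < w'.length) →
    Nest K12_src K12_dst (K12_X 𝓜) K12_Y (K12_Z 𝓜) (some c, f) (enc [] n m w') := by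
  induction w' with
  | nil =>
    intro f hf
    have hf' : f = true := by simpa using hf
    subst hf'
    have he : enc ([] : List (Row 𝓜.Q)) n m [] = midW n m := by simp [enc, encL, encR, midW]
    rw [he]
    exact Nest.base ⟨⟨hc, rfl⟩, n, m, hnm, rfl⟩
  | cons r' w' ih =>
    intro f _
    have h0 := K12_ones' 𝓜 c true _ r'.2 (ih true (Or.inl rfl))
    have h1 := Nest.step (src := K12_src) (dst := K12_dst) (X := K12_X 𝓜) (Y := K12_Y)
      (Z := K12_Z 𝓜) (.inr (.inr ((some c, f), r'.1)) : K12_E 𝓜.Q) (x := [])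
      (y := [Lt.row' r'.1.1 r'.1.2]) ⟨by simp, rfl⟩ h0 rfl
    rw [K12_enc_snoc]
    exact h1

/-- words of the nest: completeness -/
private theorem K12_complete (𝓜 : Mach) (w : List (Row 𝓜.Q)) : ∀ (c : Fin 𝓜.Q × Bool) (f : Bool)
    (p p' n m : ℕ) (w' : List (Row 𝓜.Q)), w.length ≤ w'.length →
    (((c, 0) :: w : List (Row 𝓜.Q))).IsChain (fun r s => s.1.2 = !r.1.2) →
    (∃ r, ((c, 0) :: w : List (Row 𝓜.Q)).getLast? = some r ∧ r.1.1 = 𝓜.qh) →
    n ≤ m → (f = true ∨ w.length < w'.length) →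
    Nest K12_src K12_dst (K12_X 𝓜) K12_Y (K12_Z 𝓜) (some c, f)
      (List.replicate p Lt.one ++ (enc w n m w' ++ List.replicate p' Lt.one')) := by
  induction w with
  | nil =>
    intro c f p p' n m w' hw hch hl hnm hs
    have hc : c.1 = 𝓜.qh := by
      obtain ⟨r, h1, h2⟩ := hl
      simp only [List.getLast?_singleton, Option.some.injEq] at h1
      subst h1
      exact h2
    exact K12_ones 𝓜 c f _ p (K12_ones' 𝓜 c f _ p' (K12_tail 𝓜 c hc n m hnm w' f hs))
  | cons r w ih =>
    intro c f p p' n m w' hw hch hl hnm hs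
    cases w' with
    | nil => simp at hw
    | cons r' w1' =>
      rw [List.isChain_cons_cons] at hch
      obtain ⟨hpar, hch⟩ := hch
      have hl' : ∃ s, ((r.1, 0) :: w : List (Row 𝓜.Q)).getLast? = some s ∧ s.1.1 = 𝓜.qh := by
        obtain ⟨s, h1, h2⟩ := hl
        rw [List.getLast?_cons_cons] at h1
        exact K12_last_num (k := r.2) ⟨s, h1, h2⟩
      have hch' : (((r.1, 0) :: w : List (Row 𝓜.Q))).IsChain (fun r s => s.1.2 = !r.1.2) :=
        K12_isChain_num (k := r.2) hch
      simp only [List.length_cons, Nat.add_le_add_iff_right, Nat.add_lt_add_iff_right] at hw hs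
      have h0 := ih r.1 f r.2 r'.2 n m w1' hw hch' hl' hnm hs
      have h1 := Nest.step (src := K12_src) (dst := K12_dst) (X := K12_X 𝓜) (Y := K12_Y)
        (Z := K12_Z 𝓜) (.inl ((some c, f), r.1, r'.1) : K12_E 𝓜.Q) (x := [Lt.row r.1.1 r.1.2])
        (y := [Lt.row' r'.1.1 r'.1.2]) ⟨hpar, rfl⟩ h0 rfl
      refine K12_ones 𝓜 c f _ p (K12_ones' 𝓜 c f _ p' ?_)
      rw [K12_enc_cons]
      exact h1

theorem CF_M (𝓜 : Mach) : CF ({z | ∃ w n m w', z = enc w n m w' ∧ FFc 𝓜 w ∧ n ≤ m ∧
    w.length < w'.length} : Language (Lt 𝓜.Q)) := by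
  have h : ({z | ∃ w n m w', z = enc w n m w' ∧ FFc 𝓜 w ∧ n ≤ m ∧
      w.length < w'.length} : Language (Lt 𝓜.Q)) =
      ({z | Nest K12_src K12_dst (K12_X 𝓜) K12_Y (K12_Z 𝓜) (none, false) z} :
        Language (Lt 𝓜.Q)) := by
    ext z
    constructor
    · rintro ⟨w, n, m, w', rfl, ⟨E, hE, hch, hl⟩, hnm, hw⟩
      cases w with
      | nil => simp at hE
      | cons r w =>
        simp only [List.head?_cons, Option.some.injEq] at hE
        subst hE
        cases w' with
        | nil => simp at hw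
        | cons r' w1' =>
          simp only [List.length_cons, Nat.add_lt_add_iff_right] at hw
          have h0 := K12_complete 𝓜 w (𝓜.q0, false) false E r'.2 n m w1' hw.le
            (K12_isChain_num hch) (K12_last_num hl) hnm (Or.inr hw)
          have h1 := Nest.step (src := K12_src) (dst := K12_dst) (X := K12_X 𝓜) (Y := K12_Y)
            (Z := K12_Z 𝓜) (.inl ((none, false), (𝓜.q0, false), r'.1) : K12_E 𝓜.Q)
            (x := [Lt.row 𝓜.q0 false]) (y := [Lt.row' r'.1.1 r'.1.2]) ⟨rfl, rfl⟩ h0 rfl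
          rw [K12_enc_cons]
          exact h1
    · intro hz
      obtain ⟨z', c', ⟨p, p', n, m, w, w', rfl, hw, hch, hl, hnm, hs⟩, rfl⟩ :=
        (K12_sound 𝓜 hz).2 rfl
      refine ⟨((𝓜.q0, false), p) :: w, n, m, (c', p') :: w', ?_,
        ⟨p, by simp, K12_isChain_num hch, K12_last_num hl⟩, hnm, ?_⟩
      · rw [K12_enc_cons]
      · rcases hs with hs | hs
        · exact absurd hs (by simp)
        · simpa using hs
  rw [h]
  exact CF_nest K12_src K12_dst (K12_X 𝓜) K12_Y (K12_Z 𝓜) (K12_CF_X 𝓜) K12_CF_Y (K12_CF_Z 𝓜)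
    (none, false)

end NSI
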