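import Pool.Agent.Lib.NSI.K10
import Pool.Agent.Lib.NSI.K11
import Pool.Agent.Lib.NSI.K12
import Pool.Agent.Lib.NSI.C11
import Pool.Agent.Lib.NSI.C03

/-!
# K13 : `K 𝓜 E` is context-free, and uniformly coded

`Kall = ⋃_E K E`.  `first z` = number of letters `1` directly after the first letter of `z`.

Recipe.  `Kall` is the union of the three languages (CF_union twice).  `K E` is the intersection of
`Kall` with the regular language of the words `c 1^E y`, `y` not starting with `1` (DFA with
`E + 3` or so states), `CF_inter`.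
`K_first`: for `z ∈ Kall`: `z ∈ K E ↔ first z = E` (every word of `Kall` starts with the row letter
of the first row, followed by exactly `E` letters `1` and then by a row letter, since there are at
least two rows as `q0 ≠ qh`).
-/

set_option autoImplicit false

namespace NSI

/-- the union of all `K E` -/
def Kall (𝓜 : Mach) : Language (Lt 𝓜.Q) := {z | ∃ E, z ∈ K 𝓜 E}

/-- the number of letters `1` after the first letter -/
def first {Q : ℕ} (z : List (Lt Q)) : ℕ := (z.tail.takeWhile (fun x => decide (x = Lt.one))).length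

/-- a word with left-hand side in `FF 𝓜 E` has exactly `E` ones after the first letter -/
private theorem K13_first_enc (𝓜 : Mach) (E : ℕ) (w : List (Row 𝓜.Q)) (n m : ℕ)
    (w' : List (Row 𝓜.Q)) (h : FF 𝓜 E w) : first (enc w n m w') = E := by
  obtain ⟨h1, h2, r, h3, h4⟩ := h
  cases w with
  | nil => simp at h1
  | cons r0 w =>
    simp only [List.head?_cons, Option.some.injEq] at h1
    subst h1
    cases w with
    | nil =>
      simp only [List.getLast?_singleton, Option.some.injEq] at h3
      subst h3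
      exact absurd h4 𝓜.hq
    | cons s w2 =>
      have e : (enc (((𝓜.q0, false), E) :: s :: w2) n m w').tail =
          List.replicate E Lt.one ++ (Lt.row s.1.1 s.1.2 :: (List.replicate s.2 Lt.one ++
            (encL w2 ++ (List.replicate n Lt.a ++ ([Lt.mid] ++
              (List.replicate m Lt.b ++ encR w')))))) := by
        simp [enc, encL, rl, List.append_assoc]
      unfold first
      rw [e, List.takeWhile_append_of_pos (by
        intro x hx
        simpa using List.eq_of_mem_replicate hx)]
      simp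

theorem CF_Kall (𝓜 : Mach) : CF (Kall 𝓜) := by
  have h := CF_union _ _ (CF_M 𝓜) (CF_union _ _ (CF_A 𝓜) (CF_C 𝓜))
  refine Eq.mp (congrArg CF ?_) h
  ext z
  constructor
  · rintro (⟨w, n, m, w', rfl, ⟨E, hE⟩, hnm, h1⟩ | ⟨w, n, m, w', rfl, ⟨E, hE⟩, hnm, h1⟩ |
      ⟨w, n, m, w', rfl, ⟨E, hE⟩, hnm, h1⟩)
    · exact ⟨E, w, n, m, w', rfl, hE, hnm, Or.inl h1⟩
    · exact ⟨E, w, n, m, w', rfl, hE, hnm, Or.inr (Or.inl h1)⟩
    · exact ⟨E, w, n, m, w', rfl, hE, hnm, Or.inr (Or.inr h1)⟩
  · rintro ⟨E, w, n, m, w', rfl, hE, hnm, h1 | h1 | h1⟩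
    · exact Or.inl ⟨w, n, m, w', rfl, ⟨E, hE⟩, hnm, h1⟩
    · exact Or.inr (Or.inl ⟨w, n, m, w', rfl, ⟨E, hE⟩, hnm, h1⟩)
    · exact Or.inr (Or.inr ⟨w, n, m, w', rfl, ⟨E, hE⟩, hnm, h1⟩)

private theorem K13_K_first (𝓜 : Mach) (E : ℕ) (z : List (Lt 𝓜.Q)) :
    z ∈ K 𝓜 E ↔ z ∈ Kall 𝓜 ∧ first z = E := by
  constructor
  · rintro ⟨w, n, m, w', rfl, hK⟩
    exact ⟨⟨E, w, n, m, w', rfl, hK⟩, K13_first_enc 𝓜 E w n m w' hK.1⟩
  · rintro ⟨⟨E', w, n, m, w', rfl, hK⟩, h⟩
    rw [K13_first_enc 𝓜 E' w n m w' hK.1] at h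
    subst h
    exact ⟨w, n, m, w', rfl, hK⟩

/-- the automaton which counts the ones after the first letter -/
private def K13_D (Q E : ℕ) : DFA (Lt Q) (Option (Fin (E + 2) × Bool)) where
  step := fun s x => match s with
    | none => some (0, true)
    | some (k, true) => if x = Lt.one then some (⟨min (k.1 + 1) (E + 1), by omega⟩, true)
        else some (k, false)
    | some (k, false) => some (k, false)
  start := none
  accept := {s | match s with
    | none => E = 0
    | some (k, _) => k.1 = E}

private theorem K13_false {Q E : ℕ} (k : Fin (E + 2)) (z : List (Lt Q)) :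
    (K13_D Q E).evalFrom (some (k, false)) z = some (k, false) := by
  induction z with
  | nil => rfl
  | cons x z ih =>
    rw [DFA.evalFrom_cons]
    exact ih

private theorem K13_true {Q E : ℕ} (z : List (Lt Q)) : ∀ k : Fin (E + 2),
    ∃ b : Bool, ∃ k' : Fin (E + 2), (K13_D Q E).evalFrom (some (k, true)) z = some (k', b) ∧
      k'.1 = min (k.1 + (z.takeWhile (fun x => decide (x = Lt.one))).length) (E + 1) := by
  induction z with
  | nil =>
    intro k
    refine ⟨true, k, rfl, ?_⟩
    have := k.2
    simp only [List.takeWhile_nil, List.length_nil]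
    omega
  | cons x z ih =>
    intro k
    rw [DFA.evalFrom_cons]
    by_cases hx : x = Lt.one
    · subst hx
      have e : (K13_D Q E).step (some (k, true)) Lt.one =
          some (⟨min (k.1 + 1) (E + 1), by omega⟩, true) := by
        simp [K13_D]
      rw [e]
      obtain ⟨b, k', h1, h2⟩ := ih ⟨min (k.1 + 1) (E + 1), by omega⟩
      refine ⟨b, k', h1, ?_⟩
      rw [h2]
      simp only [decide_true, List.takeWhile_cons_of_pos, List.length_cons]
      omega
    · have e : (K13_D Q E).step (some (k, true)) x = some (k, false) := by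
        simp [K13_D, hx]
      rw [e, K13_false]
      refine ⟨false, k, rfl, ?_⟩
      have := k.2
      rw [List.takeWhile_cons_of_neg (by simpa using hx)]
      simp only [List.length_nil]
      omega

private theorem K13_accepts {Q : ℕ} (E : ℕ) (z : List (Lt Q)) :
    z ∈ (K13_D Q E).accepts ↔ first z = E := by
  rw [DFA.mem_accepts]
  cases z with
  | nil =>
    show E = 0 ↔ _
    simp [first, eq_comm]
  | cons x z =>
    have e : (K13_D Q E).eval (x :: z) = (K13_D Q E).evalFrom (some (0, true)) z := by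
      rw [DFA.eval, DFA.evalFrom_cons]
      rfl
    obtain ⟨b, k', h1, h2⟩ := K13_true (E := E) z (0 : Fin (E + 2))
    rw [e, h1]
    show k'.1 = E ↔ _
    rw [h2]
    simp only [Fin.val_zero, Nat.zero_add, first, List.tail_cons]
    omega

theorem CF_K (𝓜 : Mach) (E : ℕ) : CF (K 𝓜 E) := by
  have h := CF_inter (K13_D 𝓜.Q E) (Kall 𝓜) (CF_Kall 𝓜)
  refine Eq.mp (congrArg CF ?_) h
  ext z
  rw [K13_K_first]
  exact and_congr_right fun _ => K13_accepts E z

theorem K_first (𝓜 : Mach) (E : ℕ) (z : List (Lt 𝓜.Q)) : z ∈ K 𝓜 E ↔ z ∈ Kall 𝓜 ∧ first z = E :=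
  K13_K_first 𝓜 E z

end NSI
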