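import Pool.Agent.Lib.NSI.Basic

/-!
# The machine, the alphabet, and the languages `K 𝓜 E`
-/

set_option autoImplicit false

namespace NSI

/-- A one-register machine: in state `q` the number `n = M t + r` (`r < M`) becomes
`l q r * t + d q r` and the next state is `nx q r`. -/
structure Mach where
  Q : ℕ
  M : ℕ
  hM : 0 < M
  nx : Fin Q → ℕ → Fin Q
  l : Fin Q → ℕ → ℕ
  d : Fin Q → ℕ → ℕ
  hl : ∀ q r, 0 < l q r
  q0 : Fin Q
  qh : Fin Q
  hq : q0 ≠ qh

/-- one step -/
def Mach.step (𝓜 : Mach) (c : Fin 𝓜.Q × ℕ) : Fin 𝓜.Q × ℕ :=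
  (𝓜.nx c.1 (c.2 % 𝓜.M), 𝓜.l c.1 (c.2 % 𝓜.M) * (c.2 / 𝓜.M) + 𝓜.d c.1 (c.2 % 𝓜.M))

/-- the machine started with the number `n` reaches the halting state -/
def Mach.Halts (𝓜 : Mach) (n : ℕ) : Prop := ∃ k : ℕ, (𝓜.step^[k] (𝓜.q0, n)).1 = 𝓜.qh

/-- The alphabet: row letters (state, parity), `1`, `a`, the middle letter, `b`, and the copies
`1'` and row' of the right-hand side. -/
inductive Lt (Q : ℕ) : Type
  | row (q : Fin Q) (π : Bool) : Lt Q
  | one : Lt Q
  | a : Lt Q
  | mid : Lt Q
  | b : Lt Q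
  | one' : Lt Q
  | row' (q : Fin Q) (π : Bool) : Lt Q
  deriving DecidableEq

/-- a row: (state, parity) and a number -/
abbrev Row (Q : ℕ) : Type := (Fin Q × Bool) × ℕ

section
variable {Q : ℕ}

/-- left coding of one row -/
def rl (r : Row Q) : List (Lt Q) := Lt.row r.1.1 r.1.2 :: List.replicate r.2 Lt.one

/-- right coding of one row -/
def rr (r : Row Q) : List (Lt Q) := List.replicate r.2 Lt.one' ++ [Lt.row' r.1.1 r.1.2]

/-- left coding of a list of rows -/
def encL : List (Row Q) → List (Lt Q)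
  | [] => []
  | r :: w => rl r ++ encL w

/-- right coding (mirrored) of a list of rows -/
def encR : List (Row Q) → List (Lt Q)
  | [] => []
  | r :: w => encR w ++ rr r

/-- the word coded by the data `(w, n, m, w')` -/
def enc (w : List (Row Q)) (n m : ℕ) (w' : List (Row Q)) : List (Lt Q) :=
  encL w ++ (List.replicate n Lt.a ++ ([Lt.mid] ++ (List.replicate m Lt.b ++ encR w')))

/-- row-wise comparison: same letter, larger number -/
def LeRow (r r' : Row Q) : Prop := r.1 = r'.1 ∧ r.2 ≤ r'.2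

/-- the two regions -/
def Reg (j : Bool) (n m : ℕ) : Prop := if j then 2 * n < m else n < m ∧ m ≤ 2 * n

/-- case (A): the two sides agree up to additional letters `1'` -/
def KA (w : List (Row Q)) (n m : ℕ) (w' : List (Row Q)) : Prop :=
  List.Forall₂ LeRow w w' ∧ (n = m ∨ w ≠ w')

end

/-- The left-hand sides: first row `(q0, false)` with number `E`, alternating parity,
last row in the halting state. -/
def FF (𝓜 : Mach) (E : ℕ) (w : List (Row 𝓜.Q)) : Prop :=
  w.head? = some ((𝓜.q0, false), E) ∧ w.IsChain (fun r s => s.1.2 = !r.1.2) ∧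
    ∃ r, w.getLast? = some r ∧ r.1.1 = 𝓜.qh

/-- the transition between two consecutive rows is correct -/
def Valid (𝓜 : Mach) (r s : Row 𝓜.Q) : Prop := 𝓜.step (r.1.1, r.2) = (s.1.1, s.2)

/-- case (C): there is a window of two consecutive rows with an incorrect transition, whose
first row is not halting and has the parity of the region of `(n, m)`; nothing is required of
its mirror image (of two rows); all the other rows agree up to additional letters `1'`. -/
def KC (𝓜 : Mach) (w : List (Row 𝓜.Q)) (n m : ℕ) (w' : List (Row 𝓜.Q)) : Prop :=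
  ∃ (w1 w2 w1' w2' : List (Row 𝓜.Q)) (r s r' s' : Row 𝓜.Q),
    w = w1 ++ r :: s :: w2 ∧ w' = w1' ++ r' :: s' :: w2' ∧
    List.Forall₂ LeRow w1 w1' ∧ List.Forall₂ LeRow w2 w2' ∧
    r.1.1 ≠ 𝓜.qh ∧ ¬ Valid 𝓜 r s ∧ Reg r.1.2 n m

/-- the data of the words of `K` -/
def InK (𝓜 : Mach) (E : ℕ) (w : List (Row 𝓜.Q)) (n m : ℕ) (w' : List (Row 𝓜.Q)) : Prop :=
  FF 𝓜 E w ∧ n ≤ m ∧ (w.length < w'.length ∨ KA w n m w' ∨ KC 𝓜 w n m w')

/-- the language `K_E` -/
def K (𝓜 : Mach) (E : ℕ) : Language (Lt 𝓜.Q) := {z | ∃ w n m w', z = enc w n m w' ∧ InK 𝓜 E w n m w'}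

/-! ### weights -/

section
variable {Q : ℕ}

/-- balance: `+1` for a left row letter, `-1` for a right row letter -/
def β : Lt Q → ℤ
  | .row _ _ => 1
  | .row' _ _ => -1
  | _ => 0

/-- minus the balance: (number of right rows) - (number of left rows) -/
def ψμ : Lt Q → ℤ
  | .row _ _ => -1
  | .row' _ _ => 1
  | _ => 0

/-- the number of letters `mid` -/
def ψm : Lt Q → ℤ
  | .mid => 1
  | _ => 0

/-- (number of `b`) - (number of `a`) -/
def ψε : Lt Q → ℤ
  | .b => 1
  | .a => -1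
  | _ => 0

/-- (number of `1'`) - (number of `1`) -/
def ψl : Lt Q → ℤ
  | .one' => 1
  | .one => -1
  | _ => 0

/-- flat letters -/
def fl : Lt Q → Prop
  | .one => True
  | .a => True
  | .b => True
  | .one' => True
  | _ => False

/-- side of a letter: left `0`, middle `1`, right `2` -/
def sd : Lt Q → Fin 3
  | .row _ _ => 0
  | .one => 0
  | .a => 0
  | .mid => 1
  | .b => 2
  | .one' => 2
  | .row' _ _ => 2

end

/-- The situation of the main lemma: a grammar with at most `s` nonterminals whose language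
agrees with `K 𝓜 E` on all words of length at most `N`. -/
structure Sit (𝓜 : Mach) (s N : ℕ) where
  V : Type
  fin : Fintype V
  dec : DecidableEq V
  G : Gr V (Lt 𝓜.Q)
  E : ℕ
  hV : Fintype.card V ≤ s
  hE : E ≤ s
  agree : ∀ z : List (Lt 𝓜.Q), z.length ≤ N → (z ∈ G.lang ↔ z ∈ K 𝓜 E)

/-- Exactness data: a grammar all of whose trees have balance `ω` and number of `mid` equal to `κ`,
depending only on the root. -/
structure Exact {Q : ℕ} {V : Type} (G : Gr V (Lt Q)) (C : ℕ) where
  ω : V → ℤ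
  κ : V → ℤ
  hω : ∀ t : Tr V (Lt Q), t.ok G → wt β t.yd = ω t.root
  hκ : ∀ t : Tr V (Lt Q), t.ok G → wt ψm t.yd = κ t.root
  hC : ∀ t : Tr V (Lt Q), t.ok G → |ω t.root| ≤ C

end NSI
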