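import Pool.Agent.Lib.NSI.LDefs

/-!
# L01 : automata for the formats

Recipe.  `fmt_dfa`: states: `start`; `first i` (`i ≤ E` ones read in the first row);
`left q π` (inside a later row, last row letter `(q, π)`); `as` (in the block of `a`, only if the last
row was halting); `bs` (after `mid`, in the block of `b`); `ones` (in a right row, needs a row letter
before the end); `rgt` (just after a right row letter); `fail`.  Accepting: `bs` (this also
covers `m = 0`, `w' = []`), `rgt`.  `mid` can be read in `left qh π` or `as`.  (There are at least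
two rows because `q0 ≠ qh`, so `first E` cannot be followed by `a` or `mid`.)
Number of states `≤ E + c` with a constant `c` depending on `Q` (`b E = E + 2 Q + 10`, or any other
primitive recursive monotone bound; the type can be e.g. `Option`/`Sum`/`Fin` combination or a
custom inductive type with `Fintype` via an equivalence).
`fmt_dfaL`: the same for the left part `encL w ++ a^n` only.
-/

set_option autoImplicit false

namespace NSI

/-- the states; `first i`: `i` ones are still to be read in the first row -/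
inductive L01_S (Q E : ℕ) : Type
  | start : L01_S Q E
  | first (i : Fin (E + 1)) : L01_S Q E
  | left (q : Fin Q) (π : Bool) : L01_S Q E
  | as : L01_S Q E
  | bs : L01_S Q E
  | ones : L01_S Q E
  | rgt : L01_S Q E
  | fail : L01_S Q E

/-- coding of the states -/
def L01_code {Q E : ℕ} : L01_S Q E → Fin (E + 1) ⊕ ((Fin Q × Bool) ⊕ Fin 6)
  | .start => .inr (.inr 0)
  | .first i => .inl i
  | .left q π => .inr (.inl (q, π))
  | .as => .inr (.inr 1)
  | .bs => .inr (.inr 2)
  | .ones => .inr (.inr 3)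
  | .rgt => .inr (.inr 4)
  | .fail => .inr (.inr 5)

theorem L01_code_inj {Q E : ℕ} : Function.Injective (L01_code (Q := Q) (E := E)) := by
  intro a b h
  cases a <;> cases b <;> simp_all [L01_code]

noncomputable instance {Q E : ℕ} : Fintype (L01_S Q E) := Fintype.ofInjective _ L01_code_inj

theorem L01_card (Q E : ℕ) : Fintype.card (L01_S Q E) ≤ E + (2 * Q + 7) := by
  refine (Fintype.card_le_of_injective _ L01_code_inj).trans ?_
  simp only [Fintype.card_sum, Fintype.card_fin, Fintype.card_prod, Fintype.card_bool]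
  omega

open Classical in
/-- the transitions -/
noncomputable def L01_step (𝓜 : Mach) (E : ℕ) : L01_S 𝓜.Q E → Lt 𝓜.Q → L01_S 𝓜.Q E
  | .start, .row q π => if q = 𝓜.q0 ∧ π = false then .first (Fin.last E) else .fail
  | .first ⟨0, _⟩, .row q π => if π = true then .left q π else .fail
  | .first ⟨i + 1, h⟩, .one => .first ⟨i, by omega⟩
  | .left q π, .one => .left q π
  | .left _ π, .row q' π' => if π' = !π then .left q' π' else .fail
  | .left q _, .a => if q = 𝓜.qh then .as else .fail
  | .left q _, .mid => if q = 𝓜.qh then .bs else .fail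
  | .as, .a => .as
  | .as, .mid => .bs
  | .bs, .b => .bs
  | .bs, .one' => .ones
  | .bs, .row' _ _ => .rgt
  | .ones, .one' => .ones
  | .ones, .row' _ _ => .rgt
  | .rgt, .one' => .ones
  | .rgt, .row' _ _ => .rgt
  | _, _ => .fail

/-- the value of a word -/
noncomputable def L01_ev (𝓜 : Mach) (E : ℕ) (s : L01_S 𝓜.Q E) (z : List (Lt 𝓜.Q)) :
    L01_S 𝓜.Q E := z.foldl (L01_step 𝓜 E) s

variable {𝓜 : Mach} {E : ℕ}

theorem L01_ev_nil (s : L01_S 𝓜.Q E) : L01_ev 𝓜 E s [] = s := rfl

theorem L01_ev_cons (s : L01_S 𝓜.Q E) (x : Lt 𝓜.Q) (z : List (Lt 𝓜.Q)) :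
    L01_ev 𝓜 E s (x :: z) = L01_ev 𝓜 E (L01_step 𝓜 E s x) z := rfl

theorem L01_ev_append (s : L01_S 𝓜.Q E) (y z : List (Lt 𝓜.Q)) :
    L01_ev 𝓜 E s (y ++ z) = L01_ev 𝓜 E (L01_ev 𝓜 E s y) z := by
  unfold L01_ev
  exact List.foldl_append

theorem L01_step_fail (x : Lt 𝓜.Q) : L01_step 𝓜 E .fail x = .fail := by
  cases x <;> rfl

theorem L01_ev_fail (z : List (Lt 𝓜.Q)) : L01_ev 𝓜 E .fail z = .fail := by
  induction z with
  | nil => rfl
  | cons x z ih => rw [L01_ev_cons, L01_step_fail, ih]

theorem L01_ev_replicate {s : L01_S 𝓜.Q E} {x : Lt 𝓜.Q} (h : L01_step 𝓜 E s x = s) (n : ℕ) :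
    L01_ev 𝓜 E s (List.replicate n x) = s := by
  induction n with
  | zero => rfl
  | succ n ih => rw [List.replicate_succ, L01_ev_cons, h, ih]

/-- the rows alternate in parity -/
def L01_alt (𝓜 : Mach) (r s : Row 𝓜.Q) : Prop := s.1.2 = !r.1.2

/-- the meaning of the states of the left part; `T` is the tail after the block of `a` -/
def L01_R (𝓜 : Mach) (E : ℕ) (T : List (Lt 𝓜.Q) → Prop) : L01_S 𝓜.Q E → List (Lt 𝓜.Q) → Prop
  | .start, z => ∃ w n t, T t ∧ z = encL w ++ (List.replicate n Lt.a ++ t) ∧ FF 𝓜 E w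
  | .first i, z => ∃ w n t, T t ∧
      z = List.replicate i Lt.one ++ (encL w ++ (List.replicate n Lt.a ++ t)) ∧
      (((𝓜.q0, false), E) :: w).IsChain (L01_alt 𝓜) ∧
      ∃ r, (((𝓜.q0, false), E) :: w).getLast? = some r ∧ r.1.1 = 𝓜.qh
  | .left q π, z => ∃ k w n t, T t ∧
      z = List.replicate k Lt.one ++ (encL w ++ (List.replicate n Lt.a ++ t)) ∧
      (((q, π), k) :: w).IsChain (L01_alt 𝓜) ∧
      ∃ r, (((q, π), k) :: w).getLast? = some r ∧ r.1.1 = 𝓜.qh
  | .as, z => ∃ n t, T t ∧ z = List.replicate n Lt.a ++ t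
  | .fail, _ => False
  | _, _ => True

/-- the number of the first row is irrelevant -/
theorem L01_chain_num {p : Fin 𝓜.Q × Bool} {k k' : ℕ} {w : List (Row 𝓜.Q)}
    (h : ((p, k) :: w).IsChain (L01_alt 𝓜)) : ((p, k') :: w).IsChain (L01_alt 𝓜) := by
  cases w with
  | nil => exact List.isChain_singleton _
  | cons r w =>
    rw [List.isChain_cons_cons] at h ⊢
    exact h

theorem L01_last_num {p : Fin 𝓜.Q × Bool} {k k' : ℕ} {w : List (Row 𝓜.Q)}
    (h : ∃ r, ((p, k) :: w).getLast? = some r ∧ r.1.1 = 𝓜.qh) :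
    ∃ r, ((p, k') :: w).getLast? = some r ∧ r.1.1 = 𝓜.qh := by
  cases w with
  | nil =>
    obtain ⟨r, h1, h2⟩ := h
    simp only [List.getLast?_singleton, Option.some.injEq] at h1
    subst h1
    exact ⟨(p, k'), rfl, h2⟩
  | cons r w =>
    obtain ⟨r', h1, h2⟩ := h
    rw [List.getLast?_cons_cons] at h1
    exact ⟨r', by rw [List.getLast?_cons_cons]; exact h1, h2⟩

/-- soundness of the left part -/
theorem L01_sound (T : List (Lt 𝓜.Q) → Prop) (acc : Set (L01_S 𝓜.Q E))
    (h0 : L01_S.start ∉ acc) (h1 : ∀ i, L01_S.first i ∉ acc) (h2 : L01_S.fail ∉ acc)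
    (h3 : L01_S.as ∈ acc → T []) (h4 : ∀ q π, L01_S.left q π ∈ acc → q = 𝓜.qh ∧ T [])
    (h5 : ∀ z, L01_ev 𝓜 E .bs z ∈ acc → T (Lt.mid :: z)) (z : List (Lt 𝓜.Q)) :
    ∀ s, L01_ev 𝓜 E s z ∈ acc → L01_R 𝓜 E T s z := by
  have hf : ∀ z, L01_ev 𝓜 E .fail z ∉ acc := fun z => by rw [L01_ev_fail]; exact h2
  induction z with
  | nil =>
    intro s hs
    rw [L01_ev_nil] at hs
    cases s with
    | start => exact absurd hs h0
    | first i => exact absurd hs (h1 i)
    | left q π =>
      obtain ⟨e1, e2⟩ := h4 q π hs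
      exact ⟨0, [], 0, [], e2, rfl, List.isChain_singleton _, ((q, π), 0), rfl, e1⟩
    | as => exact ⟨0, [], h3 hs, rfl⟩
    | bs => trivial
    | ones => trivial
    | rgt => trivial
    | fail => exact absurd hs h2
  | cons x z ih =>
    intro s hs
    rw [L01_ev_cons] at hs
    cases s with
    | start =>
      cases x with
      | row q π =>
        by_cases hq : q = 𝓜.q0 ∧ π = false
        · obtain ⟨rfl, rfl⟩ := hq
          have e : L01_step 𝓜 E .start (.row 𝓜.q0 false) = .first (Fin.last E) := if_pos ⟨rfl, rfl⟩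
          rw [e] at hs
          obtain ⟨w, n, t, ht, hz, hc, hl⟩ := ih _ hs
          refine ⟨((𝓜.q0, false), E) :: w, n, t, ht, ?_, rfl, hc, hl⟩
          rw [hz]
          simp [encL, rl]
        · have e : L01_step 𝓜 E .start (.row q π) = .fail := if_neg hq
          rw [e] at hs
          exact absurd hs (hf z)
      | _ => exact absurd hs (hf z)
    | first i =>
      obtain ⟨i, hi⟩ := i
      cases i with
      | zero =>
        cases x with
        | row q π =>
          by_cases hq : π = true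
          · subst hq
            have e : L01_step 𝓜 E (.first ⟨0, hi⟩) (.row q true) = .left q true := by simp [L01_step]
            rw [e] at hs
            obtain ⟨k, w, n, t, ht, hz, hc, r, hl, hr⟩ := ih _ hs
            refine ⟨((q, true), k) :: w, n, t, ht, ?_, ?_, r, ?_, hr⟩
            · rw [hz]
              simp [encL, rl]
            · rw [List.isChain_cons_cons]
              exact ⟨rfl, hc⟩
            · rw [List.getLast?_cons_cons]
              exact hl
          · have e : L01_step 𝓜 E (.first ⟨0, hi⟩) (.row q π) = .fail := if_neg hq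
            rw [e] at hs
            exact absurd hs (hf z)
        | _ => exact absurd hs (hf z)
      | succ i =>
        cases x with
        | one =>
          obtain ⟨w, n, t, ht, hz, hc, hl⟩ := ih _ hs
          refine ⟨w, n, t, ht, ?_, hc, hl⟩
          rw [hz]
          simp [List.replicate_succ]
        | _ => exact absurd hs (hf z)
    | left q π =>
      cases x with
      | one =>
        obtain ⟨k, w, n, t, ht, hz, hc, hl⟩ := ih _ hs
        refine ⟨k + 1, w, n, t, ht, ?_, L01_chain_num hc, L01_last_num hl⟩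
        rw [hz]
        simp [List.replicate_succ]
      | row q' π' =>
        by_cases hq : π' = !π
        · have e : L01_step 𝓜 E (.left q π) (.row q' π') = .left q' π' := if_pos hq
          rw [e] at hs
          obtain ⟨k, w, n, t, ht, hz, hc, r, hl, hr⟩ := ih _ hs
          refine ⟨0, ((q', π'), k) :: w, n, t, ht, ?_, ?_, r, ?_, hr⟩
          · rw [hz]
            simp [encL, rl]
          · rw [List.isChain_cons_cons]
            exact ⟨hq, hc⟩
          · rw [List.getLast?_cons_cons]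
            exact hl
        · have e : L01_step 𝓜 E (.left q π) (.row q' π') = .fail := if_neg hq
          rw [e] at hs
          exact absurd hs (hf z)
      | a =>
        by_cases hq : q = 𝓜.qh
        · have e : L01_step 𝓜 E (.left q π) .a = .as := if_pos hq
          rw [e] at hs
          obtain ⟨n, t, ht, hz⟩ := ih _ hs
          refine ⟨0, [], n + 1, t, ht, ?_, List.isChain_singleton _, ((q, π), 0), rfl, hq⟩
          rw [hz]
          simp [encL, List.replicate_succ]
        · have e : L01_step 𝓜 E (.left q π) .a = .fail := if_neg hq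
          rw [e] at hs
          exact absurd hs (hf z)
      | mid =>
        by_cases hq : q = 𝓜.qh
        · have e : L01_step 𝓜 E (.left q π) .mid = .bs := if_pos hq
          rw [e] at hs
          exact ⟨0, [], 0, Lt.mid :: z, h5 z hs, rfl, List.isChain_singleton _, ((q, π), 0), rfl, hq⟩
        · have e : L01_step 𝓜 E (.left q π) .mid = .fail := if_neg hq
          rw [e] at hs
          exact absurd hs (hf z)
      | _ => exact absurd hs (hf z)
    | as =>
      cases x with
      | a =>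
        obtain ⟨n, t, ht, hz⟩ := ih _ hs
        exact ⟨n + 1, t, ht, by rw [hz, List.replicate_succ, List.cons_append]⟩
      | mid => exact ⟨0, Lt.mid :: z, h5 z hs, rfl⟩
      | _ => exact absurd hs (hf z)
    | bs => trivial
    | ones => trivial
    | rgt => trivial
    | fail =>
      rw [L01_step_fail] at hs
      exact absurd hs (hf z)

/-- reading the later rows -/
theorem L01_ev_rows (w : List (Row 𝓜.Q)) : ∀ (q : Fin 𝓜.Q) (π : Bool) (k : ℕ) (r : Row 𝓜.Q),
    (((q, π), k) :: w).IsChain (L01_alt 𝓜) → (((q, π), k) :: w).getLast? = some r →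
    L01_ev 𝓜 E (.left q π) (encL w) = .left r.1.1 r.1.2 := by
  induction w with
  | nil =>
    intro q π k r _ h
    simp only [List.getLast?_singleton, Option.some.injEq] at h
    subst h
    rfl
  | cons r' w ih =>
    intro q π k r hc hl
    rw [List.isChain_cons_cons] at hc
    rw [List.getLast?_cons_cons] at hl
    obtain ⟨⟨q', π'⟩, k'⟩ := r'
    have h1 : π' = !π := hc.1
    have e : L01_step 𝓜 E (.left q π) (.row q' π') = .left q' π' := if_pos h1
    show L01_ev 𝓜 E (.left q π) (rl ((q', π'), k') ++ encL w) = _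
    rw [L01_ev_append]
    show L01_ev 𝓜 E (L01_ev 𝓜 E (.left q π) (Lt.row q' π' :: List.replicate k' Lt.one)) (encL w) = _
    rw [L01_ev_cons, e, L01_ev_replicate rfl]
    exact ih q' π' k' r hc.2 hl

theorem L01_ev_first (i : ℕ) (hi : i < E + 1) :
    L01_ev 𝓜 E (.first ⟨i, hi⟩) (List.replicate i Lt.one) = .first ⟨0, by omega⟩ := by
  induction i with
  | zero => rfl
  | succ i ih =>
    rw [List.replicate_succ, L01_ev_cons]
    exact ih (by omega)

/-- completeness of the left part -/
theorem L01_complete {w : List (Row 𝓜.Q)} (hw : FF 𝓜 E w) :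
    ∃ π, L01_ev 𝓜 E .start (encL w) = .left 𝓜.qh π := by
  obtain ⟨h1, h2, r, h3, h4⟩ := hw
  cases w with
  | nil => simp at h1
  | cons r0 w =>
    simp only [List.head?_cons, Option.some.injEq] at h1
    subst h1
    cases w with
    | nil =>
      simp only [List.getLast?_singleton, Option.some.injEq] at h3
      subst h3
      exact absurd h4 𝓜.hq
    | cons r1 w =>
      rw [List.isChain_cons_cons] at h2
      rw [List.getLast?_cons_cons] at h3
      obtain ⟨⟨q', π'⟩, k'⟩ := r1
      have hπ : π' = true := h2.1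
      subst hπ
      refine ⟨r.1.2, ?_⟩
      have e : L01_step 𝓜 E .start (.row 𝓜.q0 false) = .first (Fin.last E) := if_pos ⟨rfl, rfl⟩
      have e2 : L01_step 𝓜 E (.first ⟨0, by omega⟩) (.row q' true) = .left q' true := by simp [L01_step]
      show L01_ev 𝓜 E .start ((Lt.row 𝓜.q0 false :: List.replicate E Lt.one) ++
        ((Lt.row q' true :: List.replicate k' Lt.one) ++ encL w)) = _
      rw [L01_ev_append, L01_ev_cons, e, L01_ev_append]
      have e3 : L01_ev 𝓜 E (.first (Fin.last E)) (List.replicate E Lt.one) =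
          .first ⟨0, by omega⟩ := L01_ev_first E (by omega)
      rw [e3, L01_ev_cons, e2, L01_ev_replicate rfl,
        L01_ev_rows w q' true k' r h2.2 h3, h4]

theorem L01_ev_as (n : ℕ) (π : Bool) :
    L01_ev 𝓜 E (.left 𝓜.qh π) (List.replicate n Lt.a) = .left 𝓜.qh π ∨
      L01_ev 𝓜 E (.left 𝓜.qh π) (List.replicate n Lt.a) = .as := by
  cases n with
  | zero => exact Or.inl rfl
  | succ n =>
    right
    have e : L01_step 𝓜 E (.left 𝓜.qh π) .a = .as := if_pos rfl
    rw [List.replicate_succ, L01_ev_cons, e, L01_ev_replicate rfl]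

/-! ### the right part -/

theorem L01_encR_concat (w : List (Row 𝓜.Q)) (r : Row 𝓜.Q) : encR (w ++ [r]) = rr r ++ encR w := by
  induction w with
  | nil => simp [encR]
  | cons s w ih => simp [encR, ih]

/-- the accepting states -/
def L01_acc (𝓜 : Mach) (E : ℕ) : Set (L01_S 𝓜.Q E) := {s | s = .bs ∨ s = .rgt}

theorem L01_right (z : List (Lt 𝓜.Q)) :
    (L01_ev 𝓜 E .bs z ∈ L01_acc 𝓜 E → ∃ m w', z = List.replicate m Lt.b ++ encR w') ∧
    (L01_ev 𝓜 E .ones z ∈ L01_acc 𝓜 E →
      ∃ k q π w', z = List.replicate k Lt.one' ++ (Lt.row' q π :: encR w')) ∧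
    (L01_ev 𝓜 E .rgt z ∈ L01_acc 𝓜 E → ∃ w', z = encR w') := by
  have hf : ∀ z, L01_ev 𝓜 E .fail z ∉ L01_acc 𝓜 E := fun z => by
    rw [L01_ev_fail]
    rintro (h | h) <;> cases h
  have key : ∀ (k : ℕ) (q : Fin 𝓜.Q) (π : Bool) (w' : List (Row 𝓜.Q)),
      List.replicate k Lt.one' ++ (Lt.row' q π :: encR w') = encR (w' ++ [((q, π), k)]) := by
    intro k q π w'
    rw [L01_encR_concat]
    simp [rr]
  induction z with
  | nil =>
    refine ⟨fun _ => ⟨0, [], rfl⟩, fun h => ?_, fun _ => ⟨[], rfl⟩⟩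
    rw [L01_ev_nil] at h
    rcases h with h | h <;> cases h
  | cons x z ih =>
    obtain ⟨i1, i2, i3⟩ := ih
    refine ⟨fun h => ?_, fun h => ?_, fun h => ?_⟩
    · rw [L01_ev_cons] at h
      cases x with
      | b =>
        obtain ⟨m, w', rfl⟩ := i1 h
        exact ⟨m + 1, w', by rw [List.replicate_succ, List.cons_append]⟩
      | one' =>
        obtain ⟨k, q, π, w', rfl⟩ := i2 h
        refine ⟨0, w' ++ [((q, π), k + 1)], ?_⟩
        rw [← key, List.replicate_succ]
        rfl
      | row' q π =>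
        obtain ⟨w', rfl⟩ := i3 h
        refine ⟨0, w' ++ [((q, π), 0)], ?_⟩
        rw [← key]
        rfl
      | _ => exact absurd h (hf z)
    · rw [L01_ev_cons] at h
      cases x with
      | one' =>
        obtain ⟨k, q, π, w', rfl⟩ := i2 h
        exact ⟨k + 1, q, π, w', by rw [List.replicate_succ, List.cons_append]⟩
      | row' q π =>
        obtain ⟨w', rfl⟩ := i3 h
        exact ⟨0, q, π, w', rfl⟩
      | _ => exact absurd h (hf z)
    · rw [L01_ev_cons] at h
      cases x with
      | one' =>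
        obtain ⟨k, q, π, w', rfl⟩ := i2 h
        refine ⟨w' ++ [((q, π), k + 1)], ?_⟩
        rw [← key, List.replicate_succ]
        rfl
      | row' q π =>
        obtain ⟨w', rfl⟩ := i3 h
        refine ⟨w' ++ [((q, π), 0)], ?_⟩
        rw [← key]
        rfl
      | _ => exact absurd h (hf z)

theorem L01_ev_ones (k : ℕ) (q : Fin 𝓜.Q) (π : Bool) {s : L01_S 𝓜.Q E} (hs : s = .bs ∨ s = .rgt) :
    L01_ev 𝓜 E s (rr ((q, π), k)) = .rgt := by
  unfold rr
  cases k with
  | zero => rcases hs with rfl | rfl <;> rfl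
  | succ k =>
    have e : L01_step 𝓜 E s .one' = .ones := by rcases hs with rfl | rfl <;> rfl
    show L01_ev 𝓜 E s (List.replicate (k + 1) Lt.one' ++ [Lt.row' q π]) = .rgt
    rw [List.replicate_succ, List.cons_append, L01_ev_cons, e, L01_ev_append,
      L01_ev_replicate rfl]
    rfl

theorem L01_ev_encR (w' : List (Row 𝓜.Q)) : ∀ s : L01_S 𝓜.Q E, (s = .bs ∨ s = .rgt) →
    L01_ev 𝓜 E s (encR w') = .bs ∨ L01_ev 𝓜 E s (encR w') = .rgt := by
  induction w' with
  | nil => exact fun s hs => hs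
  | cons r w' ih =>
    intro s hs
    obtain ⟨⟨q, π⟩, k⟩ := r
    right
    show L01_ev 𝓜 E s (encR w' ++ rr ((q, π), k)) = .rgt
    rw [L01_ev_append]
    exact L01_ev_ones k q π (ih s hs)

theorem L01_primrec (Q : ℕ) : Primrec (fun E : ℕ => E + (2 * Q + 7)) :=
  Primrec.nat_add.comp Primrec.id (Primrec.const _)

theorem fmt_dfa (𝓜 : Mach) : ∃ b : ℕ → ℕ, Primrec b ∧ Monotone b ∧ ∀ E : ℕ,
    ∃ (St : Type) (_ : Fintype St) (D : DFA (Lt 𝓜.Q) St), Fintype.card St ≤ b E ∧
      ∀ z, z ∈ D.accepts ↔ Fmt 𝓜 E z := by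
  refine ⟨fun E => E + (2 * 𝓜.Q + 7), L01_primrec 𝓜.Q, fun x y h => Nat.add_le_add_right h _,
    fun E => ⟨L01_S 𝓜.Q E, inferInstance, ⟨L01_step 𝓜 E, .start, L01_acc 𝓜 E⟩, L01_card _ _,
      fun z => ?_⟩⟩
  have hz : z ∈ (⟨L01_step 𝓜 E, .start, L01_acc 𝓜 E⟩ : DFA (Lt 𝓜.Q) (L01_S 𝓜.Q E)).accepts ↔
      L01_ev 𝓜 E .start z ∈ L01_acc 𝓜 E := Iff.rfl
  rw [hz]
  constructor
  · intro h
    obtain ⟨w, n, t, ⟨m, w', ht⟩, hz, hF⟩ := L01_sound
      (fun t => ∃ m w', t = Lt.mid :: (List.replicate m Lt.b ++ encR w')) (L01_acc 𝓜 E)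
      (by rintro (h | h) <;> cases h) (by rintro i (h | h) <;> cases h)
      (by rintro (h | h) <;> cases h) (by rintro (h | h) <;> cases h)
      (by rintro q π (h | h) <;> cases h)
      (fun z hz => by
        obtain ⟨m, w', e⟩ := (L01_right z).1 hz
        exact ⟨m, w', by rw [e]⟩) z .start h
    exact ⟨w, n, m, w', by rw [hz, ht]; rfl, hF⟩
  · rintro ⟨w, n, m, w', rfl, hF⟩
    obtain ⟨π, hπ⟩ := L01_complete hF
    unfold enc
    rw [L01_ev_append, hπ, L01_ev_append]
    have e1 : L01_ev 𝓜 E (L01_ev 𝓜 E (.left 𝓜.qh π) (List.replicate n Lt.a)) [Lt.mid] = .bs := by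
      rcases L01_ev_as (E := E) n π with h | h
      · rw [h]
        exact if_pos rfl
      · rw [h]
        rfl
    rw [L01_ev_append, e1, L01_ev_append, L01_ev_replicate rfl]
    exact L01_ev_encR w' .bs (Or.inl rfl)

theorem fmt_dfaL (𝓜 : Mach) : ∃ b : ℕ → ℕ, Primrec b ∧ Monotone b ∧ ∀ E : ℕ,
    ∃ (St : Type) (_ : Fintype St) (D : DFA (Lt 𝓜.Q) St), Fintype.card St ≤ b E ∧
      ∀ z, z ∈ D.accepts ↔ ∃ w n, FF 𝓜 E w ∧ z = encL w ++ List.replicate n Lt.a := by
  refine ⟨fun E => E + (2 * 𝓜.Q + 7), L01_primrec 𝓜.Q, fun x y h => Nat.add_le_add_right h _,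
    fun E => ⟨L01_S 𝓜.Q E, inferInstance,
      ⟨L01_step 𝓜 E, .start, {s | (∃ π, s = .left 𝓜.qh π) ∨ s = .as}⟩, L01_card _ _,
      fun z => ?_⟩⟩
  have hz : z ∈ (⟨L01_step 𝓜 E, .start, {s | (∃ π, s = .left 𝓜.qh π) ∨ s = .as}⟩ :
      DFA (Lt 𝓜.Q) (L01_S 𝓜.Q E)).accepts ↔
      ((∃ π, L01_ev 𝓜 E .start z = .left 𝓜.qh π) ∨ L01_ev 𝓜 E .start z = .as) := Iff.rfl
  rw [hz]
  constructor
  · intro h
    have hbs : ∀ (z : List (Lt 𝓜.Q)) (s : L01_S 𝓜.Q E), (s = .bs ∨ s = .ones ∨ s = .rgt ∨
        s = .fail) → L01_ev 𝓜 E s z = .bs ∨ L01_ev 𝓜 E s z = .ones ∨ L01_ev 𝓜 E s z = .rgt ∨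
        L01_ev 𝓜 E s z = .fail := by
      intro z
      induction z with
      | nil => exact fun s hs => hs
      | cons x z ih =>
        intro s hs
        rw [L01_ev_cons]
        refine ih _ ?_
        rcases hs with rfl | rfl | rfl | rfl <;> cases x <;> simp [L01_step]
    obtain ⟨w, n, t, ht, hz, hF⟩ := L01_sound (𝓜 := 𝓜) (E := E) (fun t => t = [])
      {s | (∃ π, s = .left 𝓜.qh π) ∨ s = .as}
      (by rintro (⟨_, h⟩ | h) <;> cases h) (by rintro i (⟨_, h⟩ | h) <;> cases h)
      (by rintro (⟨_, h⟩ | h) <;> cases h) (fun _ => rfl)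
      (by
        rintro q π (⟨π', h⟩ | h)
        · cases h
          exact ⟨rfl, rfl⟩
        · cases h)
      (fun z hz => by
        exfalso
        rcases hbs z .bs (Or.inl rfl) with e | e | e | e
        all_goals
          rw [e] at hz
          rcases hz with ⟨_, h⟩ | h <;> cases h) z .start h
    subst ht
    exact ⟨w, n, hF, by rw [hz, List.append_nil]⟩
  · rintro ⟨w, n, hF, rfl⟩
    obtain ⟨π, hπ⟩ := L01_complete hF
    rw [L01_ev_append, hπ]
    rcases L01_ev_as (E := E) n π with h | h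
    · exact Or.inl ⟨π, h⟩
    · exact Or.inr h

end NSI
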