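import Pool.Agent.Lib.NSI.T02

/-!
# T03 : nonnegativity of a weight is decided by short words
-/

set_option autoImplicit false

namespace NSI

private theorem T03_sub_ht {V T : Type} (t : Tr V T) (h : ℕ) (hh : h ≤ t.ht) :
    ∃ (c : Cx V T) (u : Tr V T), t = c.plug u ∧ u.ht = h := by
  induction t with
  | lf A x =>
    simp only [Tr.ht] at hh
    exact ⟨.hole, .lf A x, rfl, by simp only [Tr.ht]; omega⟩
  | nd A l r ihl ihr =>
    by_cases he : h = (Tr.nd A l r).ht
    · exact ⟨.hole, .nd A l r, rfl, he.symm⟩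
    · simp only [Tr.ht] at hh he
      rcases le_total r.ht l.ht with h1 | h1
      · obtain ⟨c, u, h2, h3⟩ := ihl (by omega)
        exact ⟨.lft A c r, u, by simp only [Cx.plug]; rw [← h2], h3⟩
      · obtain ⟨c, u, h2, h3⟩ := ihr (by omega)
        exact ⟨.rgt A l c, u, by simp only [Cx.plug]; rw [← h2], h3⟩

private theorem T03_rep {V T : Type} (t : Tr V T) (S : Finset V)
    (hS : ∀ (c : Cx V T) (s : Tr V T), t = c.plug s → s.root ∈ S) (h : S.card ≤ t.ht) :
    ∃ (c d : Cx V T) (s : Tr V T), t = c.plug (d.plug s) ∧ d ≠ .hole ∧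
      d.root s.root = s.root := by
  classical
  induction t generalizing S with
  | lf A x =>
    simp only [Tr.ht, Nat.le_zero, Finset.card_eq_zero] at h
    have := hS .hole (.lf A x) rfl
    rw [h] at this
    simp at this
  | nd A l r ihl ihr =>
    have hA : A ∈ S := hS .hole (.nd A l r) rfl
    have hc : 0 < S.card := Finset.card_pos.2 ⟨A, hA⟩
    have he : (S.erase A).card = S.card - 1 := Finset.card_erase_of_mem hA
    by_cases hr : ∃ (d : Cx V T) (s : Tr V T), Tr.nd A l r = d.plug s ∧ d ≠ .hole ∧ s.root = A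
    · obtain ⟨d, s, h1, h2, h3⟩ := hr
      refine ⟨.hole, d, s, h1, h2, ?_⟩
      have h4 := congrArg Tr.root h1
      rw [Cx.root_plug] at h4
      rw [← h4, h3]
      rfl
    · push Not at hr
      simp only [Tr.ht] at h
      rcases le_total r.ht l.ht with h1 | h1
      · obtain ⟨c, d, s, h2, h3, h4⟩ := ihl (S.erase A) (fun c s h5 => by
          rw [Finset.mem_erase]
          exact ⟨hr (.lft A c r) s (by simp only [Cx.plug]; rw [← h5]) (by simp),
            hS (.lft A c r) s (by simp only [Cx.plug]; rw [← h5])⟩) (by omega)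
        exact ⟨.lft A c r, d, s, by simp only [Cx.plug]; rw [← h2], h3, h4⟩
      · obtain ⟨c, d, s, h2, h3, h4⟩ := ihr (S.erase A) (fun c s h5 => by
          rw [Finset.mem_erase]
          exact ⟨hr (.rgt A l c) s (by simp only [Cx.plug]; rw [← h5]) (by simp),
            hS (.rgt A l c) s (by simp only [Cx.plug]; rw [← h5])⟩) (by omega)
        exact ⟨.rgt A l c, d, s, by simp only [Cx.plug]; rw [← h2], h3, h4⟩

/-- pumping a context -/
private def T03_it {V T : Type} (d : Cx V T) (s : Tr V T) : ℕ → Tr V T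
  | 0 => s
  | n + 1 => d.plug (T03_it d s n)

private theorem T03_it_ok {V T : Type} (G : Gr V T) (d : Cx V T) (s : Tr V T) (hs : s.ok G)
    (hd : d.ok G s.root) (hr : d.root s.root = s.root) (n : ℕ) :
    (T03_it d s n).ok G ∧ (T03_it d s n).root = s.root := by
  induction n with
  | zero => exact ⟨hs, rfl⟩
  | succ n ih =>
    simp only [T03_it]
    refine ⟨(Cx.ok_plug G _ _).2 ⟨?_, ih.1⟩, ?_⟩
    · rw [ih.2]
      exact hd
    · rw [Cx.root_plug, ih.2, hr]

private theorem T03_it_wt {V T : Type} (ψ : T → ℤ) (d : Cx V T) (s : Tr V T) (n : ℕ) :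
    wt ψ (T03_it d s n).yd = wt ψ s.yd + n * (wt ψ d.yl + wt ψ d.yr) := by
  induction n with
  | zero => simp [T03_it]
  | succ n ih =>
    simp only [T03_it]
    rw [Cx.yd_plug, wt_append, wt_append, ih]
    push_cast
    ring

private theorem T03_it_len {V T : Type} (d : Cx V T) (s : Tr V T) (n : ℕ) :
    (T03_it d s n).yd.length = s.yd.length + n * (d.yl.length + d.yr.length) := by
  induction n with
  | zero => simp [T03_it]
  | succ n ih =>
    simp only [T03_it]
    rw [Cx.yd_plug, List.length_append, List.length_append, ih]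
    ring

/-- size of a small context plus a small tree -/
private def T03_X (s : ℕ) : ℕ := s * (2 ^ s + 1) + 2 ^ s

private def T03_b (s : ℕ) : ℕ := T03_X s + (T03_X s + 2) * 2 ^ s

private theorem T03_X_mono : Monotone T03_X := by
  intro a b h
  have h1 : 2 ^ a ≤ 2 ^ b := Nat.pow_le_pow_right (by norm_num) h
  exact Nat.add_le_add (Nat.mul_le_mul h (Nat.add_le_add_right h1 1)) h1

private theorem T03_b_mono : Monotone T03_b := by
  intro a b h
  have h1 : 2 ^ a ≤ 2 ^ b := Nat.pow_le_pow_right (by norm_num) h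
  have h2 := T03_X_mono h
  exact Nat.add_le_add h2 (Nat.mul_le_mul (Nat.add_le_add_right h2 2) h1)

private theorem T03_b_primrec : Primrec T03_b := by
  have h1 : Primrec (fun s : ℕ => 2 ^ s) := primrec_pow.comp (Primrec.const 2) Primrec.id
  have h2 : Primrec T03_X := Primrec.nat_add.comp
    (Primrec.nat_mul.comp Primrec.id (Primrec.nat_add.comp h1 (Primrec.const 1))) h1
  exact Primrec.nat_add.comp h2 (Primrec.nat_mul.comp (Primrec.nat_add.comp h2 (Primrec.const 2)) h1)

theorem pos : Bnd (fun s N => ∀ (T V : Type) (_ : Fintype V) (G : Gr V T) (ψ : T → ℤ) (c : ℤ),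
    Fintype.card V ≤ s → (∀ x, |ψ x| ≤ 1) → |c| ≤ 1 →
    (∀ z ∈ G.lang, z.length ≤ N → c ≤ wt ψ z) → ∀ z ∈ G.lang, c ≤ wt ψ z) := by
  refine Bnd.of T03_b T03_b_primrec T03_b_mono ?_
  intro s T V _ G ψ c hs hψ hc hshort z hz
  classical
  by_contra hlt
  push Not at hlt
  obtain ⟨t0, h01, h02, h03⟩ := hz
  have hex : ∃ n : ℕ, ∃ t : Tr V T, t.ok G ∧ t.root = G.start ∧ wt ψ t.yd < c ∧ t.size = n :=
    ⟨t0.size, t0, h01, h02, by rw [h03]; exact hlt, rfl⟩
  obtain ⟨t, ht, hroot, hw, hsize⟩ := Nat.find_spec hex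
  have hmin : ∀ u : Tr V T, u.ok G → u.root = G.start → wt ψ u.yd < c → t.size ≤ u.size := by
    intro u h1 h2 h3
    rw [hsize]
    exact Nat.find_min' hex ⟨u, h1, h2, h3, rfl⟩
  have hXm := T03_X_mono hs
  have hbm := T03_b_mono hs
  by_cases hht : t.ht ≤ Fintype.card V
  · have h1 := hshort t.yd ⟨t, ht, hroot, rfl⟩ (by
      have h2 := t.length_yd_le
      have h3 : 2 ^ t.ht ≤ 2 ^ Fintype.card V := Nat.pow_le_pow_right (by norm_num) hht
      have h4 : 2 ^ Fintype.card V ≤ T03_b (Fintype.card V) := by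
        unfold T03_b T03_X
        rw [add_assoc, add_left_comm]
        exact Nat.le_add_right _ _
      omega)
    omega
  · push Not at hht
    obtain ⟨c1, u, h1, h2⟩ := T03_sub_ht t (Fintype.card V) hht.le
    obtain ⟨c2, d, s1, h3, h4, h5⟩ := T03_rep u Finset.univ (fun _ _ _ => Finset.mem_univ _)
      (by rw [Finset.card_univ, h2])
    have hlen : d.yl.length + d.yr.length ≤ 2 ^ Fintype.card V := by
      have h6 := u.length_yd_le
      rw [h2, h3, Cx.yd_plug, Cx.yd_plug] at h6
      simp only [List.length_append] at h6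
      omega
    have ht' : t = (c1.comp c2).plug (d.plug s1) := by
      rw [h1, h3, Cx.plug_comp]
    generalize c1.comp c2 = c0 at ht'
    have hok := ht
    rw [ht', Cx.ok_plug, Cx.ok_plug, Cx.root_plug, h5] at hok
    obtain ⟨ok0, okd, oks⟩ := hok
    have hroot' : c0.root s1.root = G.start := by
      rw [← hroot, ht', Cx.root_plug, Cx.root_plug, h5]
    have hwt : wt ψ t.yd = wt ψ (c0.plug s1).yd + (wt ψ d.yl + wt ψ d.yr) := by
      rw [ht', Cx.yd_plug, Cx.yd_plug, Cx.yd_plug]
      simp only [wt_append]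
      ring
    have hneg : wt ψ d.yl + wt ψ d.yr ≤ -1 := by
      by_contra hcon
      push Not at hcon
      have h6 := hmin (c0.plug s1) ((Cx.ok_plug G _ _).2 ⟨ok0, oks⟩)
        (by rw [Cx.root_plug, hroot']) (by omega)
      rw [ht', Cx.size_plug, Cx.size_plug, Cx.size_plug] at h6
      have h7 := Cx.size_pos h4
      omega
    obtain ⟨C', k1, k2, k3⟩ := small_ctx G s1.root c0 ok0
    obtain ⟨s2, k4, k5, -, k6⟩ := small_tree G s1 oks
    have k7 := T03_it_ok G d s2 k4 (by rw [k5]; exact okd) (by rw [k5]; exact h5)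
      (T03_X (Fintype.card V) + 2)
    have k8 : (C'.plug (T03_it d s2 (T03_X (Fintype.card V) + 2))).yd ∈ G.lang :=
      ⟨_, (Cx.ok_plug G _ _).2 ⟨by rw [k7.2, k5]; exact k1, k7.1⟩,
        by rw [Cx.root_plug, k7.2, k5, k2, hroot'], rfl⟩
    have hX : C'.yl.length + C'.yr.length + s2.yd.length ≤ T03_X (Fintype.card V) := by
      have h8 := C'.length_le_size
      have h9 := s2.length_yd_le_size
      unfold T03_X
      omega
    have hlen2 : (C'.plug (T03_it d s2 (T03_X (Fintype.card V) + 2))).yd.length ≤ T03_b s := by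
      refine le_trans ?_ hbm
      rw [Cx.yd_plug]
      simp only [List.length_append, T03_it_len]
      have h8 : (T03_X (Fintype.card V) + 2) * (d.yl.length + d.yr.length) ≤
          (T03_X (Fintype.card V) + 2) * 2 ^ Fintype.card V := Nat.mul_le_mul_left _ hlen
      unfold T03_b
      omega
    have h10 := hshort _ k8 hlen2
    rw [Cx.yd_plug, wt_append, wt_append, T03_it_wt] at h10
    have e1 := abs_le.1 (abs_wt_le hψ C'.yl)
    have e2 := abs_le.1 (abs_wt_le hψ C'.yr)
    have e3 := abs_le.1 (abs_wt_le hψ s2.yd)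
    have e4 := (abs_le.1 hc).1
    have e5 : ((T03_X (Fintype.card V) + 2 : ℕ) : ℤ) * (wt ψ d.yl + wt ψ d.yr) ≤
        ((T03_X (Fintype.card V) + 2 : ℕ) : ℤ) * (-1) :=
      mul_le_mul_of_nonneg_left hneg (Int.natCast_nonneg _)
    push_cast at e5 h10
    omega

end NSI
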