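import Pool.Agent.Lib.NSI.T01

/-!
# T17 : regular properties are decided by short words

Recipe.  `reduce` with `X = St → St`, `f x y = y ∘ x`, `g o = fun q => o.elim q (D.step q)`,
`S = Finset.univ` (classical), so the height is `< s * s ^ s` (card of `V × (St → St)`) and the
length `≤ 2 ^ (s * s ^ s)`; the value of a tree is `fun q => D.evalFrom q t.yd`.
Take `N = 2 ^ (s * s ^ s)` (use `primrec_pow`; monotone; careful with `0 ^ 0`, e.g. use
`(s + 1) * (s + 1) ^ (s + 1)`).
-/

set_option autoImplicit false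

namespace NSI

private theorem T17_val {T V St : Type} (D : DFA T St) (t : Tr V T) :
    t.val (fun x y : St → St => y ∘ x) (fun o q => o.elim q (D.step q)) =
      fun q => D.evalFrom q t.yd := by
  induction t with
  | lf A x =>
    funext q
    cases x with
    | none => rfl
    | some a => rfl
  | nd A l r ihl ihr =>
    funext q
    simp only [Tr.val, Tr.yd, ihl, ihr, Function.comp_apply, DFA.evalFrom_of_append]

theorem reg_short : Bnd (fun s N => ∀ (T V St : Type) (_ : Fintype V) (_ : Fintype St)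
    (G : Gr V T) (D : DFA T St), Fintype.card V ≤ s → Fintype.card St ≤ s →
    (∀ z ∈ G.lang, z.length ≤ N → z ∈ D.accepts) → ∀ z ∈ G.lang, z ∈ D.accepts) := by
  classical
  have hle : ∀ a b c : ℕ, a ≤ c → b ≤ c → a * b ^ b ≤ (c + 1) * (c + 1) ^ (c + 1) := by
    intro a b c ha hb
    have h1 : b ^ b ≤ (c + 1) ^ b := Nat.pow_le_pow_left (by omega) b
    have h2 : (c + 1) ^ b ≤ (c + 1) ^ (c + 1) := Nat.pow_le_pow_right (by omega) (by omega)
    exact Nat.mul_le_mul (by omega) (h1.trans h2)
  refine Bnd.of (fun s => 2 ^ ((s + 1) * (s + 1) ^ (s + 1))) ?_ ?_ ?_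
  · exact primrec_pow.comp (Primrec.const 2)
      (Primrec.nat_mul.comp Primrec.succ (primrec_pow.comp Primrec.succ Primrec.succ))
  · intro x y h
    refine Nat.pow_le_pow_right (by norm_num) (Nat.mul_le_mul (by omega) ?_)
    exact (Nat.pow_le_pow_left (by omega) _).trans (Nat.pow_le_pow_right (by omega) (by omega))
  · intro s T V St _ _ G D hV hSt hz z hzG
    obtain ⟨t, ht, hroot, rfl⟩ := hzG
    obtain ⟨t', h1, h2, h3, h4, -⟩ := reduce G (fun x y : St → St => y ∘ x)
      (fun o q => o.elim q (D.step q)) t ht Finset.univ (fun c s _ => Finset.mem_univ _)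
    rw [T17_val, T17_val] at h3
    have h5 : t'.yd.length ≤ 2 ^ ((s + 1) * (s + 1) ^ (s + 1)) := by
      refine t'.length_yd_le.trans (Nat.pow_le_pow_right (by norm_num) (h4.le.trans ?_))
      rw [Finset.card_univ, Fintype.card_prod, Fintype.card_fun]
      exact hle _ _ _ hV hSt
    have h6 := hz t'.yd ⟨t', h1, h2.trans hroot, rfl⟩ h5
    rw [DFA.mem_accepts] at h6 ⊢
    have h7 : D.eval t'.yd = D.eval t.yd := congrFun h3 D.start
    rw [← h7]
    exact h6

end NSI
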