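import Pool.Agent.Lib.NSI.L01
import Pool.Agent.Lib.NSI.T17
import Pool.Agent.Lib.NSI.T03

/-!
# L02 : all words of the grammar have the correct format; potentials

Recipe.  `fmt`: `reg_short` with the automaton of `fmt_dfa` (short words are in `K`, hence `Fmt`).
Bound: `reg_short` gives `b1`, `fmt_dfa` gives `b2`; use `b1 (s + b2 s)`.
`pots`: `wt ψm = 1` from `fmt` and `wt_enc`; the other two from `pos` with `c = 0` (short words are
in `K`: `InK` implies `n ≤ m` and `w.length ≤ w'.length`).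
-/

set_option autoImplicit false

namespace NSI

/-- restriction of the situation to a smaller bound -/
def L02_restr {𝓜 : Mach} {s N N' : ℕ} (h : N' ≤ N) (σ : Sit 𝓜 s N) : Sit 𝓜 s N' where
  V := σ.V
  fin := σ.fin
  dec := σ.dec
  G := σ.G
  E := σ.E
  hV := σ.hV
  hE := σ.hE
  agree := fun z hz => σ.agree z (hz.trans h)

theorem L02_length {𝓜 : Mach} {E : ℕ} {w w' : List (Row 𝓜.Q)} {n m : ℕ}
    (h : InK 𝓜 E w n m w') : w.length ≤ w'.length := by
  obtain ⟨_, _, h | h | h⟩ := h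
  · exact h.le
  · exact (List.Forall₂.length_eq h.1).le
  · obtain ⟨w1, w2, w1', w2', r, s, r', s', rfl, rfl, h1, h2, _⟩ := h
    have e1 := List.Forall₂.length_eq h1
    have e2 := List.Forall₂.length_eq h2
    simp only [List.length_append, List.length_cons]
    omega

theorem fmt (𝓜 : Mach) : Bnd (fun s N => ∀ σ : Sit 𝓜 s N, ∀ z ∈ σ.G.lang, Fmt 𝓜 σ.E z) := by
  obtain ⟨b1, p1, m1, h1⟩ := reg_short
  obtain ⟨b2, p2, m2, h2⟩ := fmt_dfa 𝓜
  refine ⟨fun s => b1 (s + b2 s), p1.comp (Primrec.nat_add.comp Primrec.id p2),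
    fun x y h => m1 (Nat.add_le_add h (m2 h)), ?_⟩
  intro s σ z hz
  obtain ⟨St, hSt, D, hc, hD⟩ := h2 σ.E
  have h3 := h1 (s + b2 s) (Lt 𝓜.Q) σ.V St σ.fin hSt σ.G D
    (σ.hV.trans (Nat.le_add_right _ _))
    (hc.trans ((m2 σ.hE).trans (Nat.le_add_left _ _))) (by
      intro y hy hl
      rw [hD]
      have h4 := (σ.agree y hl).mp hy
      obtain ⟨w, n, m, w', e, hK⟩ := h4
      exact ⟨w, n, m, w', e, hK.1⟩) z hz
  exact (hD z).mp h3

theorem pots (𝓜 : Mach) : Bnd (fun s N => ∀ σ : Sit 𝓜 s N, ∀ z ∈ σ.G.lang,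
    0 ≤ wt ψμ z ∧ 0 ≤ wt ψε z ∧ wt ψm z = 1) := by
  obtain ⟨b1, p1, m1, h1⟩ := fmt 𝓜
  obtain ⟨b2, p2, m2, h2⟩ := pos
  refine ⟨fun s => b1 s + b2 s, Primrec.nat_add.comp p1 p2,
    fun x y h => Nat.add_le_add (m1 h) (m2 h), ?_⟩
  intro s σ z hz
  have hf := h1 s (L02_restr (Nat.le_add_right _ _) σ) z hz
  obtain ⟨w, n, m, w', e, _⟩ := hf
  have hμ := h2 s (Lt 𝓜.Q) σ.V σ.fin σ.G ψμ 0 σ.hV (by
      intro x
      cases x <;> simp [ψμ]) (by simp) (by
      intro y hy hl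
      obtain ⟨w, n, m, w', e, hK⟩ := (σ.agree y (hl.trans (Nat.le_add_left _ _))).mp hy
      rw [e, (wt_enc w w' n m).1]
      have := L02_length hK
      omega) z hz
  have hε := h2 s (Lt 𝓜.Q) σ.V σ.fin σ.G ψε 0 σ.hV (by
      intro x
      cases x <;> simp [ψε]) (by simp) (by
      intro y hy hl
      obtain ⟨w, n, m, w', e, hK⟩ := (σ.agree y (hl.trans (Nat.le_add_left _ _))).mp hy
      rw [e, (wt_enc w w' n m).2.2.2.1]
      have := hK.2.1
      omega) z hz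
  refine ⟨hμ, hε, ?_⟩
  rw [e]
  exact (wt_enc w w' n m).2.2.1

end NSI
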