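import Pool.Agent.Lib.NSI.T02

/-!
# T04 : the face of a grammar on which a weight is minimal

Recipe.  For a nonterminal `A` call `A` bounded if there are `B0 : ℤ` with `B0 ≤ wt ψ t.yd` for all
ok trees `t` with root `A`.  `m A` := the minimum of `wt ψ t.yd` over the ok trees with root `A` if
`A` is bounded and has an ok tree (use `Int` well-foundedness / `Int.exists_least_of_bdd`), `0`
otherwise.  `G'`: `start` the same, `lf' A x := G.lf A x ∧ m A = wt ψ x.toList`,
`bin' A B C := G.bin A B C ∧ m A = m B + m C`.  By induction every `G'`-ok tree is `G`-ok and has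
weight `m root`.  If `t` is `G`-ok with root `G.start` and weight `c` then every subtree `s`,
`t = d.plug s`, has the minimal weight among the trees with root `s.root` (otherwise exchange it and
get weight `< c`; this also shows that `s.root` is bounded), so `t` is `G'`-ok.
`|m t.root| ≤ 2 ^ card V` for `G'`-ok `t`: apply `small_tree` to `G'` and `t` (the small tree has the
same root, hence the same weight `m`), `abs_wt_le`, `Tr.length_yd_le`.
-/

set_option autoImplicit false

namespace NSI

theorem face {T V : Type} [Fintype V] (G : Gr V T) (ψ : T → ℤ) (hψ : ∀ x, |ψ x| ≤ 1) (c : ℤ)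
    (hc : ∀ z ∈ G.lang, c ≤ wt ψ z) :
    ∃ (G' : Gr V T) (m : V → ℤ), G'.start = G.start ∧
      (∀ t : Tr V T, t.ok G' → t.ok G) ∧
      (∀ t : Tr V T, t.ok G → t.root = G.start → wt ψ t.yd = c → t.ok G') ∧
      (∀ t : Tr V T, t.ok G' → wt ψ t.yd = m t.root) ∧
      (∀ t : Tr V T, t.ok G' → |m t.root| ≤ 2 ^ Fintype.card V) := by
  classical
  let P : V → ℤ → Prop := fun A w => ∃ t : Tr V T, t.ok G ∧ t.root = A ∧ wt ψ t.yd = w
  let m : V → ℤ := fun A => if h : ∃ lb, P A lb ∧ ∀ z, P A z → lb ≤ z then h.choose else 0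
  have hm : ∀ A lb, P A lb → (∀ z, P A z → lb ≤ z) → m A = lb := by
    intro A lb h1 h2
    have h : ∃ lb, P A lb ∧ ∀ z, P A z → lb ≤ z := ⟨lb, h1, h2⟩
    change (if h : ∃ lb, P A lb ∧ ∀ z, P A z → lb ≤ z then h.choose else 0) = lb
    rw [dif_pos h]
    exact le_antisymm (h.choose_spec.2 _ h1) (h2 _ h.choose_spec.1)
  let G' : Gr V T :=
    { start := G.start
      bin := fun A B C => G.bin A B C ∧ m A = m B + m C
      lf := fun A x => G.lf A x ∧ m A = wt ψ x.toList }
  have h2 : ∀ t : Tr V T, t.ok G' → t.ok G := by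
    intro t
    induction t with
    | lf A x => exact fun h => h.1
    | nd A l r ihl ihr => exact fun h => ⟨h.1.1, ihl h.2.1, ihr h.2.2⟩
  have h4 : ∀ t : Tr V T, t.ok G' → wt ψ t.yd = m t.root := by
    intro t
    induction t with
    | lf A x => exact fun h => h.2.symm
    | nd A l r ihl ihr =>
      intro h
      change wt ψ (l.yd ++ r.yd) = m A
      rw [wt_append, ihl h.2.1, ihr h.2.2]
      exact h.1.2.symm
  refine ⟨G', m, rfl, h2, ?_, h4, ?_⟩
  · intro t ht hr hw
    have key : ∀ (d : Cx V T) (s : Tr V T), t = d.plug s → m s.root = wt ψ s.yd := by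
      intro d s hd
      have hok := ht
      rw [hd, Cx.ok_plug] at hok
      refine hm _ _ ⟨s, hok.2, rfl, rfl⟩ ?_
      rintro z ⟨s', hs', hroot, rfl⟩
      have h5 : (d.plug s').ok G := by
        rw [Cx.ok_plug, hroot]
        exact ⟨hok.1, hs'⟩
      have h6 : (d.plug s').root = G.start := by
        rw [Cx.root_plug, hroot, ← Cx.root_plug, ← hd, hr]
      have h7 := hc (d.plug s').yd ⟨d.plug s', h5, h6, rfl⟩
      rw [hd] at hw
      rw [Cx.yd_plug, wt_append, wt_append] at h7 hw
      linarith
    have key2 : ∀ (s : Tr V T) (d : Cx V T), t = d.plug s → s.ok G' := by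
      intro s
      induction s with
      | lf A x =>
        intro d hd
        have hok := ht
        rw [hd, Cx.ok_plug] at hok
        exact ⟨hok.2, key d _ hd⟩
      | nd A l r ihl ihr =>
        intro d hd
        have hok := ht
        rw [hd, Cx.ok_plug] at hok
        have hl : t = (d.comp (.lft A .hole r)).plug l := by
          rw [Cx.plug_comp]
          exact hd
        have hr' : t = (d.comp (.rgt A l .hole)).plug r := by
          rw [Cx.plug_comp]
          exact hd
        refine ⟨⟨hok.2.1, ?_⟩, ihl _ hl, ihr _ hr'⟩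
        have e1 := key _ _ hd
        have e2 := key _ _ hl
        have e3 := key _ _ hr'
        change m A = m l.root + m r.root
        change m A = wt ψ (l.yd ++ r.yd) at e1
        rw [e1, e2, e3, wt_append]
    exact key2 t .hole rfl
  · intro t ht
    obtain ⟨t', h5, h6, h7, -⟩ := small_tree G' t ht
    rw [← h6, ← h4 t' h5]
    have h8 := abs_wt_le hψ t'.yd
    have h9 : t'.yd.length ≤ 2 ^ Fintype.card V :=
      t'.length_yd_le.trans (Nat.pow_le_pow_right (by norm_num) h7.le)
    have h10 : (t'.yd.length : ℤ) ≤ 2 ^ Fintype.card V := by exact_mod_cast h9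
    exact h8.trans h10

end NSI
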