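import Pool.Agent.Lib.NSI.L02
import Pool.Agent.Lib.NSI.T04

/-!
# L03 : the face of the words with as many right rows as left rows

Recipe.  `face` for `ψm` with `c = 1` gives `G'` (all trees with root the start symbol survive, since
`wt ψm = 1` on the language), then `face` for `ψμ`, `c = 0` applied to `G'`.
`ω A := - m A` (balance `β = - ψμ`), `κ` from the first face.  `|ω| ≤ 2 ^ card V ≤ 2 ^ s`.
-/

set_option autoImplicit false

namespace NSI

private theorem L03_beta {Q : ℕ} (z : List (Lt Q)) : wt β z = - wt ψμ z := by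
  induction z with
  | nil => simp
  | cons x z ih => cases x <;> simp [wt_cons, ih, β, ψμ] <;> ring

theorem faces (𝓜 : Mach) : Bnd (fun s N => ∀ σ : Sit 𝓜 s N, Nonempty (Fc σ)) := by
  refine (pots 𝓜).mono ?_
  intro s N h σ
  let _ := σ.fin
  have hσ := h σ
  obtain ⟨G', m1, hs1, hsub1, hfull1, hm1, -⟩ := face σ.G ψm
    (by intro x; cases x <;> simp [ψm]) 1 (fun z hz => (hσ z hz).2.2.ge)
  have hlang : ∀ z ∈ G'.lang, z ∈ σ.G.lang := by
    rintro z ⟨t, ht, hr, hz⟩
    exact ⟨t, hsub1 t ht, by rw [hr, hs1], hz⟩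
  obtain ⟨G'', m2, hs2, hsub2, hfull2, hm2, hC2⟩ := face G' ψμ
    (by intro x; cases x <;> simp [ψμ]) 0 (fun z hz => (hσ z (hlang z hz)).1)
  refine ⟨⟨G'', by rw [hs2, hs1], fun t ht => hsub1 t (hsub2 t ht), ?_, ⟨fun A => - m2 A, m1, ?_, ?_, ?_⟩⟩⟩
  · intro t ht hr hw
    have h1 : t.ok G' := hfull1 t ht hr (hσ _ ⟨t, ht, hr, rfl⟩).2.2
    exact hfull2 t h1 (by rw [hr, hs1]) hw
  · intro t ht
    rw [L03_beta, hm2 t ht]
  · intro t ht
    exact hm1 t (hsub2 t ht)
  · intro t ht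
    rw [abs_neg]
    refine (hC2 t ht).trans ?_
    push_cast
    exact pow_le_pow_right₀ (by norm_num) σ.hV

end NSI
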