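import Pool.Agent.Lib.NSI.T15

/-!
# T16 : the mirror words of a grammar form a regular family

`Y` is a language of left words recognised by a DFA with at most `s` states.  If `G` generates only
mirror words, and generates `tw y` for all short `y ∈ Y`, then it generates `tw y` for all `y ∈ Y`.

Recipe.  For a left word `x` let `Qs x` be the set of pairs `(A, p)`, `κ A = 1`, `p` a word of
length `≤ 2 ^ n` (`n = card V`) such that there is a context `C`, `C.ok G A`, `C.root A = G.start`,
`C.yl = x ++ p`.  For all left words `x, y`: `tw (x ++ y) ∈ G.lang` iff there are `(A, p) ∈ Qs x` and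
an ok tree `t` at `A` with `t.yd = y' ++ mid :: v` (any `v`) and `y = p ++ y'`.
(If: the word of `C.plug t` has left part `x ++ y` and is a mirror word.  Only if: in a tree of
`tw (x ++ y)` go down from the root to `mid`; take the first node on this path with
`|C.yl| ≥ |x|`; the last step appended the yield of a left sibling, which has length `≤ 2 ^ n` by
`unique_side` (it equals the yield of a small tree).)
So `Qs x = Qs x'` implies `tw (x ++ y) ∈ G.lang ↔ tw (x' ++ y) ∈ G.lang`.  `Qs x` is a subset of a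
finite set with at most `s * (2 * Q + 5) ^ (2 ^ s + 1)` elements (words over `Lt Q` of length
`≤ 2 ^ s`; `Lt Q` has `4 Q + 5` elements, or use only the bound by an explicit injection), so there
are at most `2 ^ (...)` sets.  If `y ∈ Y` is of minimal length with `tw y ∉ G.lang` and
`|y| ≥ 2 ^ (...) * s`, two prefixes `x, x'` of `y` have the same `Qs` and the same DFA state: cut.
You may choose any explicit primitive recursive bound.
-/

set_option autoImplicit false

namespace NSI

variable {Q : ℕ} {V : Type}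

namespace T16

theorem wt_mid (z : List (Lt Q)) : wt ψm z = (z.count Lt.mid : ℤ) := by
  induction z with
  | nil => simp
  | cons x z ih =>
    rw [wt_cons, ih]
    cases x <;> simp [ψm, List.count_cons] <;> ring

theorem notMem_left {y : List (Lt Q)} (h : ∀ x ∈ y, sd x = 0) : Lt.mid ∉ y := by
  intro h1
  have h2 := h _ h1
  simp [sd] at h2

theorem count_left {y : List (Lt Q)} (h : ∀ x ∈ y, sd x = 0) : y.count Lt.mid = 0 :=
  List.count_eq_zero.2 (notMem_left h)

/-- the position of the only `mid` -/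
theorem uniq {P R P' R' : List (Lt Q)} (h : P ++ Lt.mid :: R = P' ++ Lt.mid :: R')
    (h1 : (P ++ Lt.mid :: R).count Lt.mid = 1) : P = P' ∧ R = R' := by
  rw [List.count_append, List.count_cons_self] at h1
  have h2 : Lt.mid ∉ P := List.count_eq_zero.1 (by omega)
  have h3 : Lt.mid ∉ R := List.count_eq_zero.1 (by omega)
  have h4 := (List.append_cons_inj_of_notMem h2 h3).1 h
  exact ⟨h4.1, h4.2.2⟩

theorem exists_mid {z : List (Lt Q)} (h : wt ψm z = 1) : ∃ u v, z = u ++ Lt.mid :: v := by
  rw [wt_mid] at h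
  have h1 : 0 < z.count Lt.mid := by omega
  exact List.append_of_mem (List.count_pos_iff.1 h1)

/-- The state of the left word `x`: the pairs of a nonterminal and a short word which can follow `x`
before the nonterminal. -/
def Qs (G : Gr V (Lt Q)) (M : ℕ) (x : List (Lt Q)) : Set (V × (Fin M → Option (Lt Q))) :=
  {q | ∃ (C : Cx V (Lt Q)) (p : List (Lt Q)), C.ok G q.1 ∧ C.root q.1 = G.start ∧
    C.yl = x ++ p ∧ p.length ≤ M ∧ q.2 = fun i : Fin M => p[(i : ℕ)]?}

theorem code_inj {M : ℕ} {p p' : List (Lt Q)} (h : p.length ≤ M) (h' : p'.length ≤ M)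
    (he : (fun i : Fin M => p[(i : ℕ)]?) = fun i : Fin M => p'[(i : ℕ)]?) : p = p' := by
  apply List.ext_getElem?
  intro i
  by_cases hi : i < M
  · exact congrFun he ⟨i, hi⟩
  · rw [List.getElem?_eq_none (by omega), List.getElem?_eq_none (by omega)]

/-- going down to `mid` until the left part is longer than `x` -/
theorem descend (G : Gr V (Lt Q)) (M : ℕ)
    (hM : ∀ (C : Cx V (Lt Q)) (t : Tr V (Lt Q)), C.ok G t.root → C.root t.root = G.start →
      t.ok G → wt ψm t.yd = 0 → t.yd.length ≤ M)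
    (x y v : List (Lt Q)) (t : Tr V (Lt Q)) :
    ∀ C : Cx V (Lt Q), C.ok G t.root → C.root t.root = G.start → t.ok G →
      (C.plug t).yd = (x ++ y) ++ Lt.mid :: v → wt ψm (C.plug t).yd = 1 → wt ψm t.yd = 1 →
      C.yl.length ≤ x.length →
      ∃ (C' : Cx V (Lt Q)) (t' : Tr V (Lt Q)) (p a b : List (Lt Q)), C'.ok G t'.root ∧
        C'.root t'.root = G.start ∧ t'.ok G ∧ C'.yl = x ++ p ∧ p.length ≤ M ∧
        t'.yd = a ++ Lt.mid :: b ∧ y = p ++ a := by
  -- the left part of a context above `mid`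
  have hpre : ∀ (C : Cx V (Lt Q)) (t : Tr V (Lt Q)), (C.plug t).yd = (x ++ y) ++ Lt.mid :: v →
      wt ψm (C.plug t).yd = 1 → wt ψm t.yd = 1 →
      ∃ a b, t.yd = a ++ Lt.mid :: b ∧ C.yl ++ a = x ++ y := by
    intro C t h1 h2 h3
    obtain ⟨a, b, hab⟩ := exists_mid h3
    refine ⟨a, b, hab, ?_⟩
    have h4 : (C.yl ++ a) ++ Lt.mid :: (b ++ C.yr) = (x ++ y) ++ Lt.mid :: v := by
      rw [← h1, Cx.yd_plug, hab]
      simp
    refine (uniq h4 ?_).1
    rw [h4, ← h1]
    rw [wt_mid] at h2
    exact_mod_cast h2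
  induction t with
  | lf A x0 =>
    intro C hC hr ht h1 h2 h3 h4
    obtain ⟨a, b, hab, hxy⟩ := hpre C _ h1 h2 h3
    have ha : a = [] := by
      have h5 := congrArg List.length hab
      rw [List.length_append, List.length_cons] at h5
      have h6 : (Tr.lf A x0 : Tr V (Lt Q)).yd.length ≤ 1 := by
        cases x0 <;> simp [Tr.yd]
      exact List.length_eq_zero_iff.1 (by omega)
    rw [ha, List.append_nil] at hxy
    have h5 : y = [] := by
      have h6 := congrArg List.length hxy
      rw [List.length_append] at h6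
      exact List.length_eq_zero_iff.1 (by omega)
    refine ⟨C, _, [], a, b, hC, hr, ht, ?_, by simp, hab, ?_⟩
    · rw [hxy, h5]
    · rw [h5, ha]
      rfl
  | nd A l r ihl ihr =>
    intro C hC hr ht h1 h2 h3 h4
    have h5 : wt ψm l.yd + wt ψm r.yd = 1 := by
      rw [← wt_append]
      exact h3
    have hl0 : 0 ≤ wt ψm l.yd := by
      rw [wt_mid]
      positivity
    have hr0 : 0 ≤ wt ψm r.yd := by
      rw [wt_mid]
      positivity
    rcases (show wt ψm l.yd = 1 ∨ wt ψm l.yd = 0 by omega) with hl | hl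
    · -- `mid` in the left child
      have e1 : (C.comp (.lft A .hole r)).plug l = C.plug (.nd A l r) := by
        rw [Cx.plug_comp]
        rfl
      refine ihl (C.comp (.lft A .hole r)) ?_ ?_ ht.2.1 (by rw [e1]; exact h1)
        (by rw [e1]; exact h2) hl ?_
      · rw [Cx.ok_comp]
        exact ⟨hC, ht.1, trivial, ht.2.2⟩
      · rw [Cx.root_comp]
        exact hr
      · rw [Cx.yl_comp]
        simpa [Cx.yl] using h4
    · -- `mid` in the right child
      have hr1 : wt ψm r.yd = 1 := by omega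
      have e1 : (C.comp (.rgt A l .hole)).plug r = C.plug (.nd A l r) := by
        rw [Cx.plug_comp]
        rfl
      have k1 : (C.comp (.rgt A l .hole)).ok G r.root := by
        rw [Cx.ok_comp]
        exact ⟨hC, ht.1, ht.2.1, trivial⟩
      have k2 : (C.comp (.rgt A l .hole)).root r.root = G.start := by
        rw [Cx.root_comp]
        exact hr
      have k3 : (C.comp (.rgt A l .hole)).yl = C.yl ++ l.yd := by
        rw [Cx.yl_comp]
        simp [Cx.yl]
      by_cases hlen : (C.comp (.rgt A l .hole)).yl.length ≤ x.length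
      · exact ihr (C.comp (.rgt A l .hole)) k1 k2 ht.2.2 (by rw [e1]; exact h1)
          (by rw [e1]; exact h2) hr1 hlen
      · obtain ⟨a, b, hab, hxy⟩ := hpre (C.comp (.rgt A l .hole)) r (by rw [e1]; exact h1)
          (by rw [e1]; exact h2) hr1
        -- the left part is longer than `x`
        have h6 : ∃ p, (C.comp (.rgt A l .hole)).yl = x ++ p := by
          rcases List.append_eq_append_iff.1 hxy with ⟨as, g1, g2⟩ | ⟨bs, g1, g2⟩
          · exfalso
            have := congrArg List.length g1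
            rw [List.length_append] at this
            omega
          · exact ⟨bs, g1⟩
        obtain ⟨p, hp⟩ := h6
        have hll : l.yd.length ≤ M := by
          refine hM (C.comp (.lft A .hole r)) l ?_ ?_ ht.2.1 hl
          · rw [Cx.ok_comp]
            exact ⟨hC, ht.1, trivial, ht.2.2⟩
          · rw [Cx.root_comp]
            exact hr
        refine ⟨C.comp (.rgt A l .hole), r, p, a, b, k1, k2, ht.2.2, hp, ?_, hab, ?_⟩
        · have g1 := congrArg List.length hp
          rw [k3, List.length_append, List.length_append] at g1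
          omega
        · rw [hp, List.append_assoc] at hxy
          exact (List.append_cancel_left hxy).symm

/-- the state of `x` decides which words can follow -/
theorem nerode (G : Gr V (Lt Q)) (M : ℕ)
    (hM : ∀ (C : Cx V (Lt Q)) (t : Tr V (Lt Q)), C.ok G t.root → C.root t.root = G.start →
      t.ok G → wt ψm t.yd = 0 → t.yd.length ≤ M)
    (hT : ∀ z ∈ G.lang, Tight z) (hm : ∀ z ∈ G.lang, wt ψm z = 1)
    {x x' y : List (Lt Q)} (hx : ∀ a ∈ x, sd a = 0) (hx' : ∀ a ∈ x', sd a = 0)
    (hy : ∀ a ∈ y, sd a = 0) (hQ : Qs G M x = Qs G M x') (h : tw (x ++ y) ∈ G.lang) :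
    tw (x' ++ y) ∈ G.lang := by
  obtain ⟨t, ht, hr, hyd⟩ := h
  have hmem : t.yd ∈ G.lang := ⟨t, ht, hr, rfl⟩
  have h1 : wt ψm t.yd = 1 := hm _ hmem
  obtain ⟨C, t', p, a, b, g1, g2, g3, g4, g5, g6, g7⟩ := descend G M hM x y
    (((x ++ y).map cp).reverse) t .hole trivial hr ht hyd h1 h1 (by simp [Cx.yl])
  have h2 : (t'.root, fun i : Fin M => p[(i : ℕ)]?) ∈ Qs G M x :=
    ⟨C, p, g1, g2, g4, g5, rfl⟩
  rw [hQ] at h2
  obtain ⟨C2, p2, k1, k2, k3, k4, k5⟩ := h2
  have h3 : p = p2 := code_inj g5 k4 k5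
  subst h3
  have h4 : (C2.plug t').yd ∈ G.lang :=
    ⟨C2.plug t', (Cx.ok_plug G C2 t').2 ⟨k1, g3⟩, by rw [Cx.root_plug]; exact k2, rfl⟩
  obtain ⟨w, hw, hw2⟩ := hT _ h4
  have h5 : (x' ++ y) ++ Lt.mid :: (b ++ C2.yr) = w ++ Lt.mid :: (w.map cp).reverse := by
    have h6 : (x' ++ y) ++ Lt.mid :: (b ++ C2.yr) = (C2.plug t').yd := by
      rw [Cx.yd_plug, k3, g6, g7]
      simp
    rw [h6, hw2]
    rfl
  have h6 := hm _ h4
  rw [hw2, wt_mid] at h6
  have h7 := uniq h5 (by
    rw [h5]
    exact_mod_cast h6)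
  have h8 : (C2.plug t').yd = tw (x' ++ y) := by
    rw [hw2, h7.1]
  rw [← h8]
  exact h4

instance : Finite (Lt Q) := by
  let f : Lt Q → (Fin Q × Bool) ⊕ (Fin Q × Bool) ⊕ Fin 5 := fun x => match x with
    | .row q π => .inl (q, π)
    | .row' q π => .inr (.inl (q, π))
    | .one => .inr (.inr 0)
    | .a => .inr (.inr 1)
    | .mid => .inr (.inr 2)
    | .b => .inr (.inr 3)
    | .one' => .inr (.inr 4)
  refine Finite.of_injective f ?_
  intro x y h
  cases x <;> cases y <;> simp_all [f]

/-- the bound for the number of states -/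
def bd (q s : ℕ) : ℕ := 2 ^ (s * (q + 1) ^ (2 ^ s)) * s

theorem primrec_bd (q : ℕ) : Primrec (bd q) := by
  have h1 : Primrec (fun s : ℕ => 2 ^ s) := primrec_pow.comp (Primrec.const 2) Primrec.id
  have h2 : Primrec (fun s : ℕ => (q + 1) ^ (2 ^ s)) := primrec_pow.comp (Primrec.const (q + 1)) h1
  have h3 : Primrec (fun s : ℕ => s * (q + 1) ^ (2 ^ s)) := Primrec.nat_mul.comp Primrec.id h2
  exact Primrec.nat_mul.comp (primrec_pow.comp (Primrec.const 2) h3) Primrec.id

theorem mono_bd (q : ℕ) : Monotone (bd q) := by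
  intro a b h
  have h1 : 2 ^ a ≤ 2 ^ b := Nat.pow_le_pow_right (by norm_num) h
  have h2 : (q + 1) ^ (2 ^ a) ≤ (q + 1) ^ (2 ^ b) := Nat.pow_le_pow_right (by omega) h1
  have h3 : a * (q + 1) ^ (2 ^ a) ≤ b * (q + 1) ^ (2 ^ b) := Nat.mul_le_mul h h2
  exact Nat.mul_le_mul (Nat.pow_le_pow_right (by norm_num) h3) h

theorem card_le (V : Type) [Fintype V] (St : Type) [Fintype St] (s : ℕ)
    (hV : Fintype.card V ≤ s) (hS : Fintype.card St ≤ s) :
    Nat.card (Set (V × (Fin (2 ^ Fintype.card V) → Option (Lt Q))) × St) ≤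
      bd (Nat.card (Lt Q)) s := by
  have : Fintype (Lt Q) := Fintype.ofFinite _
  classical
  rw [Nat.card_prod, Nat.card_eq_fintype_card, Nat.card_eq_fintype_card, Fintype.card_set,
    Fintype.card_prod, Fintype.card_pi_const, Fintype.card_option, Nat.card_eq_fintype_card]
  refine Nat.mul_le_mul (Nat.pow_le_pow_right (by norm_num) (Nat.mul_le_mul hV ?_)) hS
  exact Nat.pow_le_pow_right (by omega) (Nat.pow_le_pow_right (by norm_num) hV)

end T16

theorem tight_regular : Bnd (fun s N => ∀ (V : Type) (_ : Fintype V) (G : Gr V (Lt Q)) (Cc : ℕ)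
    (e : Exact G Cc), Fintype.card V ≤ s → (∀ z ∈ G.lang, z.length ≤ N → Tight z) →
    (∀ z ∈ G.lang, wt ψm z = 1) →
    ∀ (St : Type) (_ : Fintype St) (D : DFA (Lt Q) St), Fintype.card St ≤ s →
    (∀ y ∈ D.accepts, ∀ x ∈ y, sd x = 0) →
    (∀ y ∈ D.accepts, y.length ≤ N → tw y ∈ G.lang) → ∀ y ∈ D.accepts, tw y ∈ G.lang) := by
  obtain ⟨b₁, hb₁, mb₁, H₁⟩ := unique_side (Q := Q)
  obtain ⟨b₂, hb₂, mb₂, H₂⟩ := all_tight (Q := Q)
  refine ⟨fun s => T16.bd (Nat.card (Lt Q)) s + (b₁ s + b₂ s),
    Primrec.nat_add.comp (T16.primrec_bd _) (Primrec.nat_add.comp hb₁ hb₂), ?_, ?_⟩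
  · intro a b h
    exact Nat.add_le_add (T16.mono_bd _ h) (Nat.add_le_add (mb₁ h) (mb₂ h))
  intro s V iV G Cc e hV hshort hmid St iS D hS hleft hacc
  beta_reduce at hshort hacc
  have h1 := H₁ s V iV G Cc e hV (fun z hz hl => hshort z hz (by omega)) hmid
  have h2 := H₂ s V iV G Cc e hV (fun z hz hl => hshort z hz (by omega)) hmid
  -- the side trees are short
  have hM : ∀ (C : Cx V (Lt Q)) (t : Tr V (Lt Q)), C.ok G t.root → C.root t.root = G.start →
      t.ok G → wt ψm t.yd = 0 → t.yd.length ≤ 2 ^ Fintype.card V := by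
    intro C t hC hr ht h0
    obtain ⟨t', g1, g2, g3, g4⟩ := small_tree G t ht
    have hk : e.κ t.root = 0 := by
      rw [← e.hκ t ht]
      exact h0
    rw [h1 t.root C hC hr hk t t' ht g1 rfl g2]
    exact (Tr.length_yd_le_size t').trans g4
  -- minimal counterexample
  by_contra hcon
  push Not at hcon
  have hex : ∃ n : ℕ, ∃ y ∈ D.accepts, tw y ∉ G.lang ∧ y.length = n := by
    obtain ⟨y, hy, hy2⟩ := hcon
    exact ⟨y.length, y, hy, hy2, rfl⟩
  classical
  obtain ⟨y, hy, hy2, hyn⟩ := Nat.find_spec hex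
  have hmin : ∀ y' ∈ D.accepts, y'.length < y.length → tw y' ∈ G.lang := by
    intro y' hy' hlt
    by_contra h3
    rw [hyn] at hlt
    exact Nat.find_min hex hlt ⟨y', hy', h3, rfl⟩
  have hylong : T16.bd (Nat.card (Lt Q)) s < y.length := by
    by_contra h3
    exact hy2 (hacc y hy (by omega))
  have hyl := hleft y hy
  -- pigeonhole
  let f : Fin (y.length + 1) → Set (V × (Fin (2 ^ Fintype.card V) → Option (Lt Q))) × St :=
    fun i => (T16.Qs G (2 ^ Fintype.card V) (y.take i), D.eval (y.take i))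
  have hfin : Finite (Set (V × (Fin (2 ^ Fintype.card V) → Option (Lt Q))) × St) :=
    inferInstance
  have hnot : ¬ Function.Injective f := by
    intro hinj
    have h3 := Nat.card_le_card_of_injective f hinj
    rw [Nat.card_eq_fintype_card, Fintype.card_fin] at h3
    have h4 := T16.card_le (Q := Q) V St s hV hS
    omega
  have hpair : ∃ i j : ℕ, i < j ∧ j ≤ y.length ∧
      T16.Qs G (2 ^ Fintype.card V) (y.take i) = T16.Qs G (2 ^ Fintype.card V) (y.take j) ∧
      D.eval (y.take i) = D.eval (y.take j) := by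
    unfold Function.Injective at hnot
    push Not at hnot
    obtain ⟨i, j, hij, hne⟩ := hnot
    have h3 : (i : ℕ) ≠ j := fun h => hne (Fin.ext h)
    have hi := i.2
    have hj := j.2
    rcases Nat.lt_or_gt_of_ne h3 with h4 | h4
    · exact ⟨i, j, h4, by omega, (Prod.ext_iff.1 hij).1, (Prod.ext_iff.1 hij).2⟩
    · exact ⟨j, i, h4, by omega, (Prod.ext_iff.1 hij).1.symm, (Prod.ext_iff.1 hij).2.symm⟩
  obtain ⟨i, j, hij, hj, hQ, hD⟩ := hpair
  have hacc' : y.take i ++ y.drop j ∈ D.accepts := by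
    have h3 : D.eval (y.take i ++ y.drop j) = D.eval (y.take j ++ y.drop j) := by
      unfold DFA.eval at hD ⊢
      rw [DFA.evalFrom_of_append, DFA.evalFrom_of_append, hD]
    rw [List.take_append_drop] at h3
    rw [DFA.mem_accepts] at hy ⊢
    rw [h3]
    exact hy
  have hlen : (y.take i ++ y.drop j).length < y.length := by
    rw [List.length_append, List.length_take, List.length_drop]
    omega
  have h3 := hmin _ hacc' hlen
  have h4 := T16.nerode G (2 ^ Fintype.card V) hM h2 hmid
    (fun a ha => hyl a (List.mem_of_mem_take ha)) (fun a ha => hyl a (List.mem_of_mem_take ha))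
    (fun a ha => hyl a (List.mem_of_mem_drop ha)) hQ h3
  rw [List.take_append_drop] at h4
  exact hy2 h4

end NSI
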