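import Pool.Agent.Lib.NSI.L03
import Pool.Agent.Lib.NSI.T16

/-!
# L04 : the base: all tight words are generated

Recipe.  Start with the face `F` of L03; apply `face` with `ψε`, `c = 0` (`pots`), get `G2`; then
`ψl` with `c = 0`: `0 ≤ wt ψl z` on `G2.lang` by `pos` (a short word of `G2.lang` is in `K` with
`w.length = w'.length`, `n = m`, hence of type (A), so `wt ψl ≥ 0`), get `G3`.  Words of `G3.lang` =
words of `σ.G.lang` with `wt ψμ = wt ψε = wt ψl = 0`.  Short ones are in `K` of type (A) with equal sums,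
hence `w = w'`, `n = m`, and `enc w n n w = tw (encL w ++ a^n)`.  Exactness data for `G3`: inherited
from `F.e` (`G3`-trees are `G1`-trees).  Then `tight_regular` with the automaton of `fmt_dfaL`
(for short `y` the word `tw y = enc w n n w` is in `K`, hence in `σ.G.lang`, hence in `G3.lang`;
`|tw y| = 2 |y| + 1`, so ask agreement up to `2 N' + 1`).
-/

set_option autoImplicit false

namespace NSI

namespace L04

theorem cp_encL {Q : ℕ} (w : List (Row Q)) : ((encL w).map cp).reverse = encR w := by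
  induction w with
  | nil => rfl
  | cons r w ih =>
    rw [encL, encR, List.map_append, List.reverse_append, ih]
    congr 1
    simp [rl, rr, cp]

theorem tw_enc {Q : ℕ} (w : List (Row Q)) (n : ℕ) :
    tw (encL w ++ List.replicate n Lt.a) = enc w n n w := by
  unfold tw enc
  rw [List.map_append, List.reverse_append, cp_encL]
  simp [cp]

theorem sd_encL {Q : ℕ} (w : List (Row Q)) : ∀ x ∈ encL w, sd x = 0 := by
  intro x hx
  rcases mem_encL hx with rfl | ⟨q, π, rfl⟩ <;> rfl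

theorem sd_left {Q : ℕ} (w : List (Row Q)) (n : ℕ) :
    ∀ x ∈ encL w ++ List.replicate n Lt.a, sd x = 0 := by
  intro x hx
  rcases List.mem_append.1 hx with hx | hx
  · exact sd_encL w x hx
  · rw [List.eq_of_mem_replicate hx]
    rfl

theorem leRow_refl {Q : ℕ} (w : List (Row Q)) : List.Forall₂ LeRow w w := by
  induction w with
  | nil => exact .nil
  | cons r w ih => exact .cons ⟨rfl, le_rfl⟩ ih

theorem leRow_sum {Q : ℕ} {w w' : List (Row Q)} (h : List.Forall₂ LeRow w w') :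
    (w.map (fun r => (r.2 : ℤ))).sum ≤ (w'.map (fun r => (r.2 : ℤ))).sum ∧
      ((w.map (fun r => (r.2 : ℤ))).sum = (w'.map (fun r => (r.2 : ℤ))).sum → w = w') := by
  induction h with
  | nil => exact ⟨le_rfl, fun _ => rfl⟩
  | @cons r r' w w' h1 _ ih =>
    obtain ⟨h2, h3⟩ := h1
    simp only [List.map_cons, List.sum_cons]
    have h4 : (r.2 : ℤ) ≤ r'.2 := by exact_mod_cast h3
    refine ⟨add_le_add h4 ih.1, fun he => ?_⟩
    have h5 : (r.2 : ℤ) = r'.2 := le_antisymm h4 (by linarith [ih.1])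
    have h6 := ih.2 (by linarith)
    have h7 : r = r' := Prod.ext h2 (by exact_mod_cast h5)
    rw [h6, h7]

theorem mem_K_tight {𝓜 : Mach} {E : ℕ} {w : List (Row 𝓜.Q)} (h : FF 𝓜 E w) (n : ℕ) :
    enc w n n w ∈ K 𝓜 E :=
  ⟨w, n, n, w, rfl, h, le_rfl, Or.inr (Or.inl ⟨leRow_refl w, Or.inl rfl⟩)⟩

theorem of_mem_K {𝓜 : Mach} {E : ℕ} {z : List (Lt 𝓜.Q)} (h : z ∈ K 𝓜 E) (hμ : wt ψμ z = 0)
    (hε : wt ψε z = 0) :
    ∃ w n w', z = enc w n n w' ∧ FF 𝓜 E w ∧ List.Forall₂ LeRow w w' := by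
  obtain ⟨w, n, m, w', rfl, h1, h2, h3⟩ := h
  obtain ⟨e1, -, -, e2, -⟩ := wt_enc w w' n m
  rw [e1] at hμ
  rw [e2] at hε
  have hnm : n = m := by omega
  subst hnm
  refine ⟨w, n, w', rfl, h1, ?_⟩
  rcases h3 with h3 | h3 | h3
  · exfalso
    omega
  · exact h3.1
  · exfalso
    obtain ⟨w1, w2, w1', w2', r, s, r', s', -, -, -, -, -, -, h4⟩ := h3
    unfold Reg at h4
    split at h4
    · omega
    · omega

/-- a valid left-hand side with two rows -/
def w0 (𝓜 : Mach) (E : ℕ) : List (Row 𝓜.Q) := [((𝓜.q0, false), E), ((𝓜.qh, true), 0)]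

theorem FF_w0 (𝓜 : Mach) (E : ℕ) : FF 𝓜 E (w0 𝓜 E) := by
  refine ⟨rfl, ?_, ((𝓜.qh, true), 0), rfl, rfl⟩
  unfold w0
  simp

theorem length_w0 (𝓜 : Mach) (E : ℕ) : (enc (w0 𝓜 E) 0 0 (w0 𝓜 E)).length = 2 * E + 5 := by
  unfold enc w0
  simp [encL, encR, rl, rr]
  omega

/-- weaker agreement -/
def restr {𝓜 : Mach} {s N N' : ℕ} (σ : Sit 𝓜 s N) (h : N' ≤ N) : Sit 𝓜 s N' where
  V := σ.V
  fin := σ.fin
  dec := σ.dec
  G := σ.G
  E := σ.E
  hV := σ.hV
  hE := σ.hE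
  agree := fun z hz => σ.agree z (hz.trans h)

theorem length_tw {Q : ℕ} (y : List (Lt Q)) : (tw y).length = 2 * y.length + 1 := by
  unfold tw
  simp
  omega

end L04

open L04 in
theorem base (𝓜 : Mach) : Bnd (fun s N => ∀ σ : Sit 𝓜 s N, ∀ (w : List (Row 𝓜.Q)) (n : ℕ),
    FF 𝓜 σ.E w → enc w n n w ∈ σ.G.lang) := by
  obtain ⟨b1, p1, m1, h1⟩ := faces 𝓜
  obtain ⟨b2, p2, m2, h2⟩ := pots 𝓜
  obtain ⟨b3, p3, m3, h3⟩ := pos
  obtain ⟨b4, p4, m4, h4⟩ := tight_regular (Q := 𝓜.Q)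
  obtain ⟨bL, pL, mL, hL⟩ := fmt_dfaL 𝓜
  refine Bnd.of (fun s => b1 s + b2 s + b3 s + (2 * b4 (s + bL s) + 1) + (2 * s + 5)) ?_ ?_ ?_
  · have q1 : Primrec fun s : ℕ => b4 (s + bL s) := p4.comp (Primrec.nat_add.comp Primrec.id pL)
    have q2 : Primrec fun s : ℕ => 2 * b4 (s + bL s) + 1 :=
      Primrec.succ.comp (Primrec.nat_mul.comp (Primrec.const 2) q1)
    have q3 : Primrec fun s : ℕ => 2 * s + 5 :=
      Primrec.nat_add.comp (Primrec.nat_mul.comp (Primrec.const 2) Primrec.id) (Primrec.const 5)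
    exact Primrec.nat_add.comp (Primrec.nat_add.comp (Primrec.nat_add.comp
      (Primrec.nat_add.comp p1 p2) p3) q2) q3
  · intro s s' hs
    have e1 := m1 hs
    have e2 := m2 hs
    have e3 := m3 hs
    have e4 : b4 (s + bL s) ≤ b4 (s' + bL s') := m4 (add_le_add hs (mL hs))
    dsimp only
    omega
  · intro s
    obtain ⟨N, hN⟩ : ∃ N, N = b1 s + b2 s + b3 s + (2 * b4 (s + bL s) + 1) + (2 * s + 5) :=
      ⟨_, rfl⟩
    rw [← hN]
    intro σ w n hw
    have := σ.fin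
    obtain ⟨F⟩ := h1 s (restr σ (show b1 s ≤ N by omega))
    have hp := h2 s (restr σ (show b2 s ≤ N by omega))
    change ∀ z ∈ σ.G.lang, 0 ≤ wt ψμ z ∧ 0 ≤ wt ψε z ∧ wt ψm z = 1 at hp
    let G1 : Gr σ.V (Lt 𝓜.Q) := F.G1
    have hs1 : G1.start = σ.G.start := F.start
    have hsub1 : ∀ t : Tr σ.V (Lt 𝓜.Q), t.ok G1 → t.ok σ.G := F.sub
    have hfull1 : ∀ t : Tr σ.V (Lt 𝓜.Q), t.ok σ.G → t.root = σ.G.start → wt ψμ t.yd = 0 →
        t.ok G1 := F.full
    let e1 : Exact G1 (2 ^ s) := F.e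
    have hβμ : ∀ z : List (Lt 𝓜.Q), wt ψμ z = - wt β z := by
      intro z
      induction z with
      | nil => simp
      | cons x z ih =>
        rw [wt_cons, wt_cons, ih]
        cases x <;> simp [ψμ, β, add_comm]
    have hlang1 : ∀ z ∈ G1.lang, z ∈ σ.G.lang := by
      rintro z ⟨t, t1, t2, t3⟩
      exact ⟨t, hsub1 t t1, t2.trans hs1, t3⟩
    -- the witness
    have hE := σ.hE
    have hwit : enc (w0 𝓜 σ.E) 0 0 (w0 𝓜 σ.E) ∈ σ.G.lang := by
      refine (σ.agree _ ?_).2 (mem_K_tight (FF_w0 𝓜 σ.E) 0)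
      rw [length_w0]
      omega
    obtain ⟨t0, ht0, hr0, hy0⟩ := hwit
    obtain ⟨wμ, wβ, wm, wε, wl⟩ := wt_enc (w0 𝓜 σ.E) (w0 𝓜 σ.E) 0 0
    rw [← hy0] at wμ wε wl
    rw [sub_self] at wμ wε wl
    have ht1 : t0.ok G1 := hfull1 t0 ht0 hr0 wμ
    have hμ1 : ∀ z ∈ G1.lang, wt ψμ z = 0 := by
      rintro z ⟨t, t1, t2, rfl⟩
      have c1 := e1.hω t t1
      have c2 := e1.hω t0 ht1
      rw [hβμ] at wμ ⊢
      rw [c1, t2, hs1, ← hr0, ← c2]
      exact wμ
    -- second face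
    have hψε : ∀ x : Lt 𝓜.Q, |ψε x| ≤ 1 := by
      intro x
      cases x <;> simp [ψε]
    have hψl : ∀ x : Lt 𝓜.Q, |ψl x| ≤ 1 := by
      intro x
      cases x <;> simp [ψl]
    obtain ⟨G2, μ2, hs2, hsub2, hfull2, hwt2, -⟩ := face G1 ψε hψε 0
      (fun z hz => (hp z (hlang1 z hz)).2.1)
    have ht2 : t0.ok G2 := hfull2 t0 ht1 (hr0.trans hs1.symm) wε
    have hlang2 : ∀ z ∈ G2.lang, z ∈ G1.lang := by
      rintro z ⟨t, t1, t2, t3⟩
      exact ⟨t, hsub2 t t1, t2.trans hs2, t3⟩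
    have hε2 : ∀ z ∈ G2.lang, wt ψε z = 0 := by
      rintro z ⟨t, t1, t2, rfl⟩
      rw [hwt2 t t1, t2, hs2, hs1, ← hr0, ← hwt2 t0 ht2]
      exact wε
    -- third face
    have hV := σ.hV
    have hposl : ∀ z ∈ G2.lang, 0 ≤ wt ψl z := by
      refine h3 s (Lt 𝓜.Q) σ.V σ.fin G2 ψl 0 hV hψl (by simp) ?_
      intro z hz hlen
      have hzG := hlang1 z (hlang2 z hz)
      have hzK := (σ.agree z (by omega)).1 hzG
      obtain ⟨v, k, v', rfl, -, hv⟩ := of_mem_K hzK (hμ1 z (hlang2 z hz)) (hε2 z hz)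
      obtain ⟨-, -, -, -, e5⟩ := wt_enc v v' k k
      rw [e5]
      have := (leRow_sum hv).1
      linarith
    obtain ⟨G3, μ3, hs3, hsub3, hfull3, hwt3, -⟩ := face G2 ψl hψl 0 hposl
    have ht3 : t0.ok G3 := hfull3 t0 ht2 (hr0.trans (hs2.trans hs1).symm) wl
    have hlang3 : ∀ z ∈ G3.lang, z ∈ G2.lang := by
      rintro z ⟨t, t1, t2, t3⟩
      exact ⟨t, hsub3 t t1, t2.trans hs3, t3⟩
    have hl3 : ∀ z ∈ G3.lang, wt ψl z = 0 := by
      rintro z ⟨t, t1, t2, rfl⟩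
      rw [hwt3 t t1, t2, hs3, hs2, hs1, ← hr0, ← hwt3 t0 ht3]
      exact wl
    let e3 : Exact G3 (2 ^ s) :=
      { ω := e1.ω
        κ := e1.κ
        hω := fun t ht => e1.hω t (hsub2 t (hsub3 t ht))
        hκ := fun t ht => e1.hκ t (hsub2 t (hsub3 t ht))
        hC := fun t ht => e1.hC t (hsub2 t (hsub3 t ht)) }
    have hin3 : ∀ z ∈ σ.G.lang, wt ψμ z = 0 → wt ψε z = 0 → wt ψl z = 0 → z ∈ G3.lang := by
      rintro z ⟨t, t1, t2, rfl⟩ f1 f2 f3
      have g1 := hfull1 t t1 t2 f1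
      have g2 := hfull2 t g1 (t2.trans hs1.symm) f2
      have g3 := hfull3 t g2 (t2.trans (hs2.trans hs1).symm) f3
      exact ⟨t, g3, t2.trans (hs3.trans (hs2.trans hs1)).symm, rfl⟩
    obtain ⟨St, iSt, D, hcard, hD⟩ := hL σ.E
    have hb : bL σ.E ≤ bL s := mL hE
    have hfin := h4 (s + bL s) σ.V σ.fin G3 (2 ^ s) e3 (by omega) (by
        intro z hz hlen
        have hz2 := hlang3 z hz
        have hzG := hlang1 z (hlang2 z hz2)
        have hzK := (σ.agree z (by omega)).1 hzG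
        obtain ⟨v, k, v', rfl, -, hv⟩ := of_mem_K hzK (hμ1 z (hlang2 z hz2)) (hε2 z hz2)
        obtain ⟨-, -, -, -, e5⟩ := wt_enc v v' k k
        have e6 := hl3 _ hz
        rw [e5] at e6
        have e7 := (leRow_sum hv).2 (by linarith)
        subst e7
        exact ⟨_, sd_left v k, (tw_enc v k).symm⟩)
      (fun z hz => (hp z (hlang1 z (hlang2 z (hlang3 z hz)))).2.2) St iSt D (by omega) (by
        intro y hy
        obtain ⟨v, k, -, rfl⟩ := (hD y).1 hy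
        exact sd_left v k) (by
        intro y hy hlen
        obtain ⟨v, k, hv, rfl⟩ := (hD y).1 hy
        rw [tw_enc]
        have hlen' : (enc v k k v).length ≤ N := by
          rw [← tw_enc, length_tw]
          omega
        have hG := (σ.agree _ hlen').2 (mem_K_tight hv k)
        obtain ⟨f1, -, -, f2, f3⟩ := wt_enc v v k k
        rw [sub_self] at f1 f2 f3
        exact hin3 _ hG f1 f2 f3)
    have hres := hfin (encL w ++ List.replicate n Lt.a) ((hD _).2 ⟨w, n, hw, rfl⟩)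
    rw [tw_enc] at hres
    exact hlang1 _ (hlang2 _ (hlang3 _ hres))

end NSI
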