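import Pool.Agent.Lib.NSI.L04

/-!
# L05 : a large gap over every left-hand side

Recipe.  If `c = 0` use `n = m = 0` and `base`.  For `c > 0` the words
`encL w ++ a^(c k) mid b^(c k) encR w` are in the language (`base`), so
`(encL w, a^c, [mid], b^c, encR w)` is an iterative pair; it is not strict, so for some `k ≠ l` the
word `enc w (c k) (c l) w` is in the language; `pots` gives `c k ≤ c l`.
-/

set_option autoImplicit false

namespace NSI

private def L05_mono {𝓜 : Mach} {s N N' : ℕ} (h : N ≤ N') (σ : Sit 𝓜 s N') : Sit 𝓜 s N where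
  V := σ.V
  fin := σ.fin
  dec := σ.dec
  G := σ.G
  E := σ.E
  hV := σ.hV
  hE := σ.hE
  agree := fun z hz => σ.agree z (hz.trans h)

private theorem L05_pw {T : Type} (x : T) (c k : ℕ) :
    pw (List.replicate c x) k = List.replicate (k * c) x := by
  induction k with
  | zero => simp
  | succ k ih => rw [pw_succ, ih, List.replicate_append_replicate]; congr 1; ring

theorem big_gap (𝓜 : Mach) : Bnd (fun s N => ∀ σ : Sit 𝓜 s N, NoStrict σ.G.lang →
    ∀ w : List (Row 𝓜.Q), FF 𝓜 σ.E w → ∀ c : ℕ, ∃ n m : ℕ, n + c ≤ m ∧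
      enc w n m w ∈ σ.G.lang) := by
  obtain ⟨b1, p1, m1, h1⟩ := base 𝓜
  obtain ⟨b2, p2, m2, h2⟩ := pots 𝓜
  refine ⟨fun s => b1 s + b2 s, Primrec.nat_add.comp p1 p2,
    fun x y h => Nat.add_le_add (m1 h) (m2 h), ?_⟩
  intro s σ hns w hw c
  have hbase : ∀ n : ℕ, enc w n n w ∈ σ.G.lang := fun n =>
    h1 s (L05_mono (Nat.le_add_right _ _) σ) w n hw
  have hpots : ∀ z ∈ σ.G.lang, 0 ≤ wt ψμ z ∧ 0 ≤ wt ψε z ∧ wt ψm z = 1 := fun z hz =>
    h2 s (L05_mono (Nat.le_add_left _ _) σ) z hz
  rcases Nat.eq_zero_or_pos c with hc | hc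
  · exact ⟨0, 0, by omega, hbase 0⟩
  · have key : ∀ n m : ℕ, encL w ++ pw (List.replicate c Lt.a) n ++ [Lt.mid] ++
        pw (List.replicate c Lt.b) m ++ encR w = enc w (n * c) (m * c) w := by
      intro n m
      rw [L05_pw, L05_pw]
      unfold enc
      simp only [List.append_assoc]
    have hit : IterPair σ.G.lang (encL w) (List.replicate c Lt.a) [Lt.mid]
        (List.replicate c Lt.b) (encR w) := by
      intro n
      rw [key]
      exact hbase _
    have hst : ¬ StrictPair σ.G.lang (encL w) (List.replicate c Lt.a) [Lt.mid]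
        (List.replicate c Lt.b) (encR w) := fun hst => hns ⟨_, _, _, _, _, hit, hst⟩
    unfold StrictPair at hst
    push Not at hst
    obtain ⟨n, m, hnm⟩ := hst
    rw [key] at hnm
    rcases hnm with ⟨hin, hne⟩ | ⟨hnin, rfl⟩
    · have h3 := (hpots _ hin).2.1
      rw [(wt_enc w w (n * c) (m * c)).2.2.2.1] at h3
      have h4 : n * c ≤ m * c := by omega
      have h5 : n ≤ m := Nat.le_of_mul_le_mul_right h4 hc
      have h6 : n + 1 ≤ m := by omega
      refine ⟨n * c, m * c, ?_, hin⟩
      calc n * c + c = (n + 1) * c := by ring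
        _ ≤ m * c := Nat.mul_le_mul_right _ h6
    · exact absurd (hbase _) hnin

end NSI
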