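import Pool.Agent.Lib.NSI.LDefs

/-!
# L06 : content of coded words

For a coded word with as many right rows as left rows the content is explicit: the row letter
number `i` (from `0`) has index `i`, its ones have index `i + 1`, `a, mid, b` have index
`R = w.length`, the ones `1'` and the letter of the right row number `i` have index `i + 1`.
-/

set_option autoImplicit false

namespace NSI

variable {Q : ℕ}

theorem L06_zero {x : Lt Q} {z : List (Lt Q)} (h : x ∉ z) (k j : ℤ) :
    (cw β z k).count (x, j) = 0 := by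
  rw [Multiset.count_eq_zero]
  intro h1
  have h2 := Multiset.mem_map_of_mem Prod.fst h1
  rw [cw_map_fst] at h2
  exact h (by simpa using h2)

theorem L06_rep {x : Lt Q} (hx : β x = 0) (n : ℕ) (k j : ℤ) :
    (cw β (List.replicate n x) k).count (x, j) = if j = k then n else 0 := by
  rw [cw_flat β _ k (fun a ha => by rw [List.eq_of_mem_replicate ha]; exact hx)]
  simp only [Multiset.map_coe, List.map_replicate, Multiset.coe_count, List.count_replicate]
  by_cases h : j = k
  · subst h
    simp
  · rw [if_neg h, if_neg]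
    simp only [beq_iff_eq, Prod.mk.injEq, not_and]
    exact fun _ h1 => h h1.symm

theorem L06_num_cons (r : Row Q) (w : List (Row Q)) (j : ℤ) :
    num (r :: w) j = (if j = 1 then r.2 else 0) + num w (j - 1) := by
  unfold num
  by_cases h1 : j = 1
  · subst h1
    simp
  · rw [if_neg h1]
    by_cases h2 : 1 ≤ j
    · rw [if_pos h2, if_pos (by omega)]
      have h3 : (j - 1).toNat = (j - 1 - 1).toNat + 1 := by omega
      rw [h3, List.getElem?_cons_succ, zero_add]
    · rw [if_neg h2, if_neg (by omega)]

/-- the indicator of the row letters -/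
def L06_rc (w : List (Row Q)) (j : ℤ) (x : Fin Q × Bool) : ℕ :=
  if 0 ≤ j ∧ (w[j.toNat]?).map Prod.fst = some x then 1 else 0

theorem L06_rc_cons (r : Row Q) (w : List (Row Q)) (j : ℤ) (x : Fin Q × Bool) :
    L06_rc (r :: w) j x = (if j = 0 ∧ r.1 = x then 1 else 0) + L06_rc w (j - 1) x := by
  unfold L06_rc
  by_cases h1 : j = 0
  · subst h1
    simp
  · by_cases h2 : 0 ≤ j
    · have h3 : j.toNat = (j - 1).toNat + 1 := by omega
      have h4 : 0 ≤ j - 1 := by omega
      rw [h3, List.getElem?_cons_succ, if_neg (c := j = 0 ∧ r.1 = x) (fun h => h1 h.1), zero_add]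
      by_cases h5 : (w[(j - 1).toNat]?).map Prod.fst = some x
      · rw [if_pos ⟨h2, h5⟩, if_pos ⟨h4, h5⟩]
      · rw [if_neg (fun h => h5 h.2), if_neg (fun h => h5 h.2)]
    · have h4 : ¬ 0 ≤ j - 1 := by omega
      rw [if_neg (fun h => h2 h.1), if_neg (fun h => h1 h.1), if_neg (fun h => h4 h.1)]

theorem L06_wtL (w : List (Row Q)) : wt β (encL w) = w.length := by
  induction w with
  | nil => simp [encL]
  | cons r w ih =>
    simp only [encL, rl, List.cons_append, wt_cons, wt_append, wt_replicate, ih, β,
      List.length_cons]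
    push_cast
    ring

theorem L06_wtR (w : List (Row Q)) : wt β (encR w) = -(w.length : ℤ) := by
  induction w with
  | nil => simp [encR]
  | cons r w ih =>
    simp only [encR, rr, wt_cons, wt_append, wt_replicate, ih, β, List.length_cons, wt_nil]
    push_cast
    ring

theorem L06_rl (r : Row Q) (k : ℤ) :
    cw β (rl r) k = (Lt.row r.1.1 r.1.2, k) ::ₘ cw β (List.replicate r.2 Lt.one) (k + 1) := rfl

theorem L06_oneL (w : List (Row Q)) (k j : ℤ) :
    (cw β (encL w) k).count (Lt.one, j) = num w (j - k) := by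
  induction w generalizing k with
  | nil =>
    simp [encL, cw, num]
  | cons r w ih =>
    have hw : wt β (rl r) = 1 := by
      simp [rl, β]
    rw [encL, cw_append, Multiset.count_add, ih, hw, L06_rl, Multiset.count_cons_of_ne (by simp),
      L06_rep rfl, L06_num_cons]
    congr 1
    · by_cases h : j = k + 1
      · rw [if_pos h, if_pos (by omega)]
      · rw [if_neg h, if_neg (by omega)]
    · congr 1
      ring

theorem L06_rowL (w : List (Row Q)) (k j : ℤ) (q : Fin Q) (π : Bool) :
    (cw β (encL w) k).count (Lt.row q π, j) = L06_rc w (j - k) (q, π) := by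
  induction w generalizing k with
  | nil => simp [encL, cw, L06_rc]
  | cons r w ih =>
    have hw : wt β (rl r) = 1 := by
      simp [rl, β]
    rw [encL, cw_append, Multiset.count_add, ih, hw, L06_rl, L06_rc_cons, Multiset.count_cons,
      L06_zero (by simp), zero_add]
    congr 1
    · by_cases h : j = k ∧ (q, π) = r.1
      · obtain ⟨h1, h2⟩ := h
        subst h1
        rw [if_pos, if_pos]
        · exact ⟨by ring, h2.symm⟩
        · rw [← h2]
      · rw [if_neg, if_neg]
        · rintro ⟨h1, h2⟩
          exact h ⟨by omega, h2.symm⟩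
        · intro h1
          apply h
          simp only [Prod.mk.injEq, Lt.row.injEq] at h1
          exact ⟨h1.2, Prod.ext h1.1.1 h1.1.2⟩
    · congr 1
      ring

theorem L06_oneR (w : List (Row Q)) (k j : ℤ) :
    (cw β (encR w) k).count (Lt.one', j) = num w (j - k + w.length) := by
  induction w generalizing k with
  | nil => simp [encR, cw, num]
  | cons r w ih =>
    rw [encR, cw_append, Multiset.count_add, ih, L06_wtR, rr, cw_append, Multiset.count_add,
      L06_rep rfl, L06_zero (by simp), L06_num_cons, add_comm]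
    congr 1
    · rw [add_zero]
      by_cases h : j = k + -(w.length : ℤ)
      · rw [if_pos h, if_pos (by push_cast [List.length_cons]; omega)]
      · rw [if_neg h, if_neg (by push_cast [List.length_cons]; omega)]
    · congr 1
      push_cast [List.length_cons]
      ring

theorem L06_rowR (w : List (Row Q)) (k j : ℤ) (q : Fin Q) (π : Bool) :
    (cw β (encR w) k).count (Lt.row' q π, j) = L06_rc w (j - k + w.length - 1) (q, π) := by
  induction w generalizing k with
  | nil =>
    simp [encR, cw, L06_rc]
  | cons r w ih =>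
    have hw : wt β (List.replicate r.2 (Lt.one' : Lt Q)) = 0 := by
      simp [β]
    have h1 : cw β [Lt.row' r.1.1 r.1.2] (k + -(w.length : ℤ) + 0) =
        {(Lt.row' r.1.1 r.1.2, k + -(w.length : ℤ) + 0)} := rfl
    rw [encR, cw_append, Multiset.count_add, ih, L06_wtR, rr, cw_append, Multiset.count_add,
      L06_zero (by simp), hw, h1, L06_rc_cons, add_comm, zero_add, Multiset.count_singleton]
    congr 1
    · by_cases h : j = k + -(w.length : ℤ) ∧ (q, π) = r.1
      · obtain ⟨h1, h2⟩ := h
        rw [if_pos, if_pos]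
        · exact ⟨by push_cast [List.length_cons]; omega, h2.symm⟩
        · rw [← h2, h1, add_zero]
      · rw [if_neg, if_neg]
        · rintro ⟨h1, h2⟩
          push_cast [List.length_cons] at h1
          exact h ⟨by omega, h2.symm⟩
        · intro h1
          apply h
          simp only [Prod.mk.injEq, Lt.row'.injEq] at h1
          exact ⟨by omega, Prod.ext h1.1.1 h1.1.2⟩
    · congr 1
      push_cast [List.length_cons]
      ring

theorem L06_enc (w w' : List (Row Q)) (n m : ℕ) : cw β (enc w n m w') 0 =
    cw β (encL w) 0 + (cw β (List.replicate n Lt.a) w.length + ({(Lt.mid, (w.length : ℤ))} +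
      (cw β (List.replicate m Lt.b) w.length + cw β (encR w') w.length))) := by
  have h1 : wt β (List.replicate n (Lt.a : Lt Q)) = 0 := by simp [β]
  have h2 : wt β (List.replicate m (Lt.b : Lt Q)) = 0 := by simp [β]
  have h3 : wt β [(Lt.mid : Lt Q)] = 0 := by simp [β]
  have h4 : ∀ k : ℤ, cw β [(Lt.mid : Lt Q)] k = {(Lt.mid, k)} := fun k => rfl
  rw [enc, cw_append, cw_append, cw_append, cw_append, L06_wtL, h1, h2, h3, h4]
  simp only [add_zero, zero_add]

theorem count_one (w w' : List (Row Q)) (n m : ℕ) (h : w.length = w'.length) (j : ℤ) :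
    (cw β (enc w n m w') 0).count (Lt.one, j) = num w j := by
  rw [L06_enc]
  simp only [Multiset.count_add]
  rw [L06_oneL, L06_zero (by simp), L06_zero (by simp), L06_zero, Multiset.count_singleton,
    if_neg (by simp), sub_zero]
  · rfl
  · intro h1
    rcases mem_encR h1 with h2 | ⟨q, π, h2⟩ <;> simp at h2

theorem count_one' (w w' : List (Row Q)) (n m : ℕ) (h : w.length = w'.length) (j : ℤ) :
    (cw β (enc w n m w') 0).count (Lt.one', j) = num w' j := by
  rw [L06_enc]
  simp only [Multiset.count_add]
  rw [L06_oneR, L06_zero (z := List.replicate n Lt.a) (by simp),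
    L06_zero (z := List.replicate m Lt.b) (by simp), L06_zero (z := encL w),
    Multiset.count_singleton, if_neg (by simp), h]
  · simp
  · intro h1
    rcases mem_encL h1 with h2 | ⟨q, π, h2⟩ <;> simp at h2

theorem count_a (w w' : List (Row Q)) (n m : ℕ) (h : w.length = w'.length) (j : ℤ) :
    (cw β (enc w n m w') 0).count (Lt.a, j) = if j = w.length then n else 0 := by
  rw [L06_enc]
  simp only [Multiset.count_add]
  rw [L06_rep rfl, L06_zero (z := encR w'),
    L06_zero (z := List.replicate m Lt.b) (by simp), L06_zero (z := encL w),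
    Multiset.count_singleton, if_neg (c := (Lt.a, j) = _) (by simp)]
  · simp
  · intro h1
    rcases mem_encL h1 with h2 | ⟨q, π, h2⟩ <;> simp at h2
  · intro h1
    rcases mem_encR h1 with h2 | ⟨q, π, h2⟩ <;> simp at h2

theorem count_b (w w' : List (Row Q)) (n m : ℕ) (h : w.length = w'.length) (j : ℤ) :
    (cw β (enc w n m w') 0).count (Lt.b, j) = if j = w.length then m else 0 := by
  rw [L06_enc]
  simp only [Multiset.count_add]
  rw [L06_rep rfl, L06_zero (z := encR w'),
    L06_zero (z := List.replicate n Lt.a) (by simp), L06_zero (z := encL w),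
    Multiset.count_singleton, if_neg (c := (Lt.b, j) = _) (by simp)]
  · simp
  · intro h1
    rcases mem_encL h1 with h2 | ⟨q, π, h2⟩ <;> simp at h2
  · intro h1
    rcases mem_encR h1 with h2 | ⟨q, π, h2⟩ <;> simp at h2

theorem count_mid (w w' : List (Row Q)) (n m : ℕ) (h : w.length = w'.length) (j : ℤ) :
    (cw β (enc w n m w') 0).count (Lt.mid, j) = if j = w.length then 1 else 0 := by
  rw [L06_enc]
  simp only [Multiset.count_add]
  rw [L06_zero (z := encR w'), L06_zero (z := List.replicate n Lt.a) (by simp),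
    L06_zero (z := List.replicate m Lt.b) (by simp), L06_zero (z := encL w),
    Multiset.count_singleton]
  · simp only [Prod.mk.injEq, true_and]
    simp
  · intro h1
    rcases mem_encL h1 with h2 | ⟨q, π, h2⟩ <;> simp at h2
  · intro h1
    rcases mem_encR h1 with h2 | ⟨q, π, h2⟩ <;> simp at h2

theorem count_row (w w' : List (Row Q)) (n m : ℕ) (h : w.length = w'.length) (q : Fin Q) (π : Bool)
    (j : ℤ) : (cw β (enc w n m w') 0).count (Lt.row q π, j) =
      if 0 ≤ j ∧ (w[j.toNat]?).map Prod.fst = some (q, π) then 1 else 0 := by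
  rw [L06_enc]
  simp only [Multiset.count_add]
  rw [L06_rowL, L06_zero (z := List.replicate n Lt.a) (by simp),
    L06_zero (z := List.replicate m Lt.b) (by simp), L06_zero (z := encR w'),
    Multiset.count_singleton, if_neg (c := (Lt.row q π, j) = _) (by simp), sub_zero]
  · rfl
  · intro h1
    rcases mem_encR h1 with h2 | ⟨q, π, h2⟩ <;> simp at h2

theorem count_row' (w w' : List (Row Q)) (n m : ℕ) (h : w.length = w'.length) (q : Fin Q) (π : Bool)
    (j : ℤ) : (cw β (enc w n m w') 0).count (Lt.row' q π, j) =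
      if 1 ≤ j ∧ (w'[(j - 1).toNat]?).map Prod.fst = some (q, π) then 1 else 0 := by
  rw [L06_enc]
  simp only [Multiset.count_add]
  rw [L06_rowR, L06_zero (z := List.replicate n Lt.a) (by simp),
    L06_zero (z := List.replicate m Lt.b) (by simp), L06_zero (z := encL w),
    Multiset.count_singleton, if_neg (c := (Lt.row' q π, j) = _) (by simp), h]
  · have h1 : j - (w'.length : ℤ) + w'.length - 1 = j - 1 := by ring
    rw [h1]
    unfold L06_rc
    simp only [zero_add, add_zero]
    by_cases h5 : (w'[(j - 1).toNat]?).map Prod.fst = some (q, π)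
    · by_cases h6 : 1 ≤ j
      · rw [if_pos ⟨by omega, h5⟩, if_pos ⟨h6, h5⟩]
      · rw [if_neg (fun h => h6 (by have := h.1; omega)), if_neg (fun h => h6 h.1)]
    · rw [if_neg (fun h => h5 h.2), if_neg (fun h => h5 h.2)]
  · intro h1
    rcases mem_encL h1 with h2 | ⟨q, π, h2⟩ <;> simp at h2

private theorem L06_ext {w v : List (Row Q)}
    (h : ∀ (i : ℕ) (x : Fin Q × Bool), (w[i]?).map Prod.fst = some x ↔
      (v[i]?).map Prod.fst = some x) : w.map Prod.fst = v.map Prod.fst := by
  apply List.ext_getElem?
  intro i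
  rw [List.getElem?_map, List.getElem?_map]
  exact Option.ext (h i)

theorem L06_num_out {w : List (Row Q)} {j : ℤ} (h : j < 1 ∨ (w.length : ℤ) < j) :
    num w j = 0 := by
  unfold num
  rcases h with h | h
  · rw [if_neg (by omega)]
  · by_cases h1 : 1 ≤ j
    · rw [if_pos h1]
      have h2 : w.length ≤ (j - 1).toNat := by omega
      rw [List.getElem?_eq_none h2]
      rfl
    · rw [if_neg h1]

/-- adding flat letters -/
theorem content_diff (w1 w1' w2 w2' : List (Row Q)) (n1 m1 n2 m2 : ℕ)
    (h1 : w1.length = w1'.length) (h2 : w2.length = w2'.length) (D : Multiset (Lt Q × ℤ))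
    (hD : ∀ p ∈ D, fl p.1)
    (h : cw β (enc w2 n2 m2 w2') 0 = cw β (enc w1 n1 m1 w1') 0 + D) :
    w2.map Prod.fst = w1.map Prod.fst ∧ w2'.map Prod.fst = w1'.map Prod.fst ∧
    (∀ j, num w2 j = num w1 j + D.count (Lt.one, j)) ∧
    (∀ j, num w2' j = num w1' j + D.count (Lt.one', j)) ∧
    n2 = n1 + D.count (Lt.a, (w1.length : ℤ)) ∧ m2 = m1 + D.count (Lt.b, (w1.length : ℤ)) ∧
    (∀ j : ℤ, j ≠ w1.length → D.count (Lt.a, j) = 0 ∧ D.count (Lt.b, j) = 0) ∧
    (∀ j : ℤ, (j < 1 ∨ (w1.length : ℤ) < j) → D.count (Lt.one, j) = 0 ∧ D.count (Lt.one', j) = 0) := by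
  have hc : ∀ p : Lt Q × ℤ, (cw β (enc w2 n2 m2 w2') 0).count p =
      (cw β (enc w1 n1 m1 w1') 0).count p + D.count p := by
    intro p
    rw [h, Multiset.count_add]
  have hz : ∀ (x : Lt Q) (j : ℤ), ¬ fl x → D.count (x, j) = 0 := by
    intro x j hx
    rw [Multiset.count_eq_zero]
    intro h3
    exact hx (hD _ h3)
  have hR : (w2.length : ℤ) = w1.length := by
    have h3 := hc (Lt.mid, (w1.length : ℤ))
    rw [count_mid _ _ _ _ h2, count_mid _ _ _ _ h1, if_pos rfl, hz _ _ (by simp [fl])] at h3
    by_contra h4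
    rw [if_neg (fun h5 => h4 h5.symm)] at h3
    omega
  have hone : ∀ j, num w2 j = num w1 j + D.count (Lt.one, j) := by
    intro j
    have h3 := hc (Lt.one, j)
    rwa [count_one _ _ _ _ h2, count_one _ _ _ _ h1] at h3
  have hone' : ∀ j, num w2' j = num w1' j + D.count (Lt.one', j) := by
    intro j
    have h3 := hc (Lt.one', j)
    rwa [count_one' _ _ _ _ h2, count_one' _ _ _ _ h1] at h3
  have ha : ∀ j : ℤ, (if j = w1.length then n2 else 0) = (if j = w1.length then n1 else 0) +
      D.count (Lt.a, j) := by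
    intro j
    have h3 := hc (Lt.a, j)
    rwa [count_a _ _ _ _ h2, count_a _ _ _ _ h1, hR] at h3
  have hb : ∀ j : ℤ, (if j = w1.length then m2 else 0) = (if j = w1.length then m1 else 0) +
      D.count (Lt.b, j) := by
    intro j
    have h3 := hc (Lt.b, j)
    rwa [count_b _ _ _ _ h2, count_b _ _ _ _ h1, hR] at h3
  refine ⟨?_, ?_, hone, hone', ?_, ?_, ?_, ?_⟩
  · apply L06_ext
    rintro i ⟨q, π⟩
    have h3 := hc (Lt.row q π, (i : ℤ))
    rw [count_row _ _ _ _ h2, count_row _ _ _ _ h1, hz _ _ (by simp [fl]), add_zero] at h3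
    simp only [Int.toNat_natCast] at h3
    have h4 : (0 : ℤ) ≤ i := by omega
    constructor
    · intro h5
      rw [if_pos ⟨h4, h5⟩] at h3
      by_contra h6
      rw [if_neg (fun h7 => h6 h7.2)] at h3
      omega
    · intro h5
      rw [if_pos (c := 0 ≤ (i : ℤ) ∧ (w1[i]?).map Prod.fst = some (q, π)) ⟨h4, h5⟩] at h3
      by_contra h6
      rw [if_neg (fun h7 => h6 h7.2)] at h3
      omega
  · apply L06_ext
    rintro i ⟨q, π⟩
    have h3 := hc (Lt.row' q π, (i : ℤ) + 1)
    rw [count_row' _ _ _ _ h2, count_row' _ _ _ _ h1, hz _ _ (by simp [fl]), add_zero] at h3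
    have h8 : ((i : ℤ) + 1 - 1).toNat = i := by omega
    rw [h8] at h3
    have h4 : (1 : ℤ) ≤ i + 1 := by omega
    constructor
    · intro h5
      rw [if_pos ⟨h4, h5⟩] at h3
      by_contra h6
      rw [if_neg (fun h7 => h6 h7.2)] at h3
      omega
    · intro h5
      rw [if_pos (c := 1 ≤ (i : ℤ) + 1 ∧ (w1'[i]?).map Prod.fst = some (q, π)) ⟨h4, h5⟩] at h3
      by_contra h6
      rw [if_neg (fun h7 => h6 h7.2)] at h3
      omega
  · have h3 := ha (w1.length : ℤ)
    rwa [if_pos rfl, if_pos rfl] at h3
  · have h3 := hb (w1.length : ℤ)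
    rwa [if_pos rfl, if_pos rfl] at h3
  · intro j hj
    have h3 := ha j
    have h4 := hb j
    rw [if_neg hj, if_neg hj] at h3 h4
    omega
  · intro j hj
    have h3 := hone j
    have h4 := hone' j
    rw [L06_num_out (w := w2) (by rw [hR]; exact hj), L06_num_out (w := w1) hj] at h3
    have h5 : (w1'.length : ℤ) = w1.length := by exact_mod_cast h1.symm
    have h6 : (w2'.length : ℤ) = w1.length := by
      rw [← hR]
      exact_mod_cast h2.symm
    rw [L06_num_out (w := w2') (by rw [h6]; exact hj), L06_num_out (w := w1') (by rw [h5]; exact hj)]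
      at h4
    omega

end NSI
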