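import Pool.Agent.Lib.NSI.T01

/-!
# T02 : small trees and small contexts

Recipe.  `small_tree`: `reduce` with `X = Unit`, `S = Finset.univ`.  `Tr.size_le`: induction.
`small_ctx`: choose a context `C'` with `C'.ok G A`, `C'.root A = C.root A` of minimal size.
If `C' = c.comp (d.comp e)` with `d ≠ hole` and `(d.comp e).root A = e.root A` then `c.comp e` is
smaller: hence the labels on the path are distinct and `C'.depth ≤ card V` (the `depth` many path
nodes have distinct labels; do an induction as in T01).  Every side tree has height `< card V`,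
otherwise replace it by the small tree with the same root (from `small_tree`; use minimality in the
form: size of the side tree is `≤` the size of the small one, and `Tr.size_le`).
Then `size ≤ depth * (2 ^ card V + 1)`.
It may be convenient to prove `small_ctx` by strong induction on the size of `C` instead.
-/

set_option autoImplicit false

namespace NSI

variable {V T : Type}

theorem Tr.size_le (t : Tr V T) : t.size < 2 ^ (t.ht + 1) := by
  induction t with
  | lf A x => simp [Tr.size, Tr.ht]
  | nd A l r ihl ihr =>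
    simp only [Tr.size, Tr.ht]
    have h1 : 2 ^ (l.ht + 1) ≤ 2 ^ (max l.ht r.ht + 1) :=
      Nat.pow_le_pow_right (by norm_num) (Nat.succ_le_succ (le_max_left _ _))
    have h2 : 2 ^ (r.ht + 1) ≤ 2 ^ (max l.ht r.ht + 1) :=
      Nat.pow_le_pow_right (by norm_num) (Nat.succ_le_succ (le_max_right _ _))
    have h3 : 2 ^ (max l.ht r.ht + 1 + 1) = 2 * 2 ^ (max l.ht r.ht + 1) := by
      rw [pow_succ 2 (max l.ht r.ht + 1), mul_comm]
    omega

theorem small_tree [Fintype V] (G : Gr V T) (t : Tr V T) (ht : t.ok G) :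
    ∃ t' : Tr V T, t'.ok G ∧ t'.root = t.root ∧ t'.ht < Fintype.card V ∧
      t'.size ≤ 2 ^ Fintype.card V := by
  obtain ⟨t', h1, h2, -, h4, -⟩ := reduce (X := Unit) G (fun _ _ => ()) (fun _ => ()) t ht
    Finset.univ (fun c s _ => Finset.mem_univ _)
  have h5 : t'.ht < Fintype.card V := by
    rw [Finset.card_univ, Fintype.card_prod, Fintype.card_unit, mul_one] at h4
    exact h4
  refine ⟨t', h1, h2, h5, ?_⟩
  have h6 := Tr.size_le t'
  have h7 : 2 ^ (t'.ht + 1) ≤ 2 ^ Fintype.card V := Nat.pow_le_pow_right (by norm_num) h5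
  omega

private theorem T02_size {N : ℕ} (C : Cx V T)
    (h1 : ∀ (c : Cx V T) (B : V) (d : Cx V T) (r : Tr V T), C = c.comp (.lft B d r) → r.size ≤ N)
    (h2 : ∀ (c : Cx V T) (B : V) (l : Tr V T) (d : Cx V T), C = c.comp (.rgt B l d) → l.size ≤ N) :
    C.size ≤ C.depth * (N + 1) := by
  induction C with
  | hole => simp [Cx.size]
  | lft A c0 r0 ih =>
    have hr : r0.size ≤ N := h1 .hole A c0 r0 rfl
    have hc := ih (fun c B d r h => h1 (.lft A c r0) B d r (by rw [h]; rfl))
      (fun c B l d h => h2 (.lft A c r0) B l d (by rw [h]; rfl))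
    simp only [Cx.size, Cx.depth]
    rw [Nat.add_mul, one_mul]
    omega
  | rgt A l0 c0 ih =>
    have hr : l0.size ≤ N := h2 .hole A l0 c0 rfl
    have hc := ih (fun c B d r h => h1 (.rgt A l0 c) B d r (by rw [h]; rfl))
      (fun c B l d h => h2 (.rgt A l0 c) B l d (by rw [h]; rfl))
    simp only [Cx.size, Cx.depth]
    rw [Nat.add_mul, one_mul]
    omega

private theorem T02_depth (A : V) (C : Cx V T) :
    ∀ S : Finset V, (∀ c e : Cx V T, C = c.comp e → e ≠ .hole → e.root A ∈ S) →
      (∀ c d e : Cx V T, C = c.comp (d.comp e) → d ≠ .hole → e ≠ .hole →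
        (d.comp e).root A ≠ e.root A) → C.depth ≤ S.card := by
  classical
  induction C with
  | hole => intro S _ _; simp [Cx.depth]
  | lft B c0 r0 ih =>
    intro S hS hC
    have hB : B ∈ S := hS .hole (.lft B c0 r0) rfl (by simp)
    have h := ih (S.erase B) (fun c e h he => by
        rw [Finset.mem_erase]
        refine ⟨?_, hS (.lft B c r0) e (by rw [h]; rfl) he⟩
        have := hC .hole (.lft B c r0) e (by rw [h]; rfl) (by simp) he
        exact fun h' => this (by rw [h']; rfl))
      (fun c d e h hd he => hC (.lft B c r0) d e (by rw [h]; rfl) hd he)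
    rw [Finset.card_erase_of_mem hB] at h
    have h0 : 0 < S.card := Finset.card_pos.2 ⟨B, hB⟩
    simp only [Cx.depth]
    omega
  | rgt B l0 c0 ih =>
    intro S hS hC
    have hB : B ∈ S := hS .hole (.rgt B l0 c0) rfl (by simp)
    have h := ih (S.erase B) (fun c e h he => by
        rw [Finset.mem_erase]
        refine ⟨?_, hS (.rgt B l0 c) e (by rw [h]; rfl) he⟩
        have := hC .hole (.rgt B l0 c) e (by rw [h]; rfl) (by simp) he
        exact fun h' => this (by rw [h']; rfl))
      (fun c d e h hd he => hC (.rgt B l0 c) d e (by rw [h]; rfl) hd he)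
    rw [Finset.card_erase_of_mem hB] at h
    have h0 : 0 < S.card := Finset.card_pos.2 ⟨B, hB⟩
    simp only [Cx.depth]
    omega

theorem small_ctx [Fintype V] (G : Gr V T) (A : V) (C : Cx V T) (hC : C.ok G A) :
    ∃ C' : Cx V T, C'.ok G A ∧ C'.root A = C.root A ∧
      C'.size ≤ Fintype.card V * (2 ^ Fintype.card V + 1) := by
  classical
  have hex : ∃ n : ℕ, ∃ C' : Cx V T, C'.ok G A ∧ C'.root A = C.root A ∧ C'.size = n :=
    ⟨C.size, C, hC, rfl, rfl⟩
  obtain ⟨C', h1, h2, h3⟩ := Nat.find_spec hex
  have hmin : ∀ D : Cx V T, D.ok G A → D.root A = C.root A → C'.size ≤ D.size := by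
    intro D hD hD'
    rw [h3]
    exact Nat.find_min' hex ⟨D, hD, hD', rfl⟩
  refine ⟨C', h1, h2, ?_⟩
  have hs : C'.size ≤ C'.depth * (2 ^ Fintype.card V + 1) := by
    refine T02_size C' ?_ ?_
    · intro c B d r h
      rw [h, Cx.ok_comp] at h1
      obtain ⟨hc, hb, hd, hr⟩ := h1
      obtain ⟨r', k1, k2, -, k4⟩ := small_tree G r hr
      have h5 := hmin (c.comp (.lft B d r')) (by
        rw [Cx.ok_comp]
        refine ⟨hc, ?_, hd, k1⟩
        rw [k2]
        exact hb) (by rw [← h2, h, Cx.root_comp, Cx.root_comp]; rfl)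
      rw [h, Cx.size_comp, Cx.size_comp] at h5
      simp only [Cx.size] at h5
      omega
    · intro c B l d h
      rw [h, Cx.ok_comp] at h1
      obtain ⟨hc, hb, hl, hd⟩ := h1
      obtain ⟨l', k1, k2, -, k4⟩ := small_tree G l hl
      have h5 := hmin (c.comp (.rgt B l' d)) (by
        rw [Cx.ok_comp]
        refine ⟨hc, ?_, k1, hd⟩
        rw [k2]
        exact hb) (by rw [← h2, h, Cx.root_comp, Cx.root_comp]; rfl)
      rw [h, Cx.size_comp, Cx.size_comp] at h5
      simp only [Cx.size] at h5
      omega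
  have hd : C'.depth ≤ Fintype.card V := by
    rw [← Finset.card_univ]
    refine T02_depth A C' Finset.univ (fun _ _ _ _ => Finset.mem_univ _) ?_
    intro c d e h hd _ hroot
    have hpos := Cx.size_pos hd
    rw [h, Cx.ok_comp, Cx.ok_comp] at h1
    obtain ⟨hc, -, he⟩ := h1
    have h5 := hmin (c.comp e) (by
      rw [Cx.ok_comp]
      refine ⟨?_, he⟩
      rw [← hroot]
      exact hc) (by rw [← h2, h, Cx.root_comp, Cx.root_comp, hroot])
    rw [h, Cx.size_comp, Cx.size_comp, Cx.size_comp] at h5
    omega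
  exact hs.trans (Nat.mul_le_mul_right _ hd)

end NSI
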