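import Pool.Agent.Lib.NSI.L02
import Pool.Agent.Lib.NSI.T02

/-!
# L07 : types of the small flat cycles

Pumping a flat cycle inside a word of the grammar: all words are coded words, which are sorted with
respect to the classes `{1, row} < {a} < {mid} < {b} < {1', row'}`; so every side of the cycle is a power
of one letter; the potential `ψε` excludes the remaining cases.
-/

set_option autoImplicit false

namespace NSI

variable {Q : ℕ} {V T : Type}

/-- restriction of a situation to a smaller bound -/
private def L07_restrict {𝓜 : Mach} {s N N' : ℕ} (h : N ≤ N') (σ : Sit 𝓜 s N') : Sit 𝓜 s N where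
  V := σ.V
  fin := σ.fin
  dec := σ.dec
  G := σ.G
  E := σ.E
  hV := σ.hV
  hE := σ.hE
  agree := fun z hz => σ.agree z (le_trans hz h)

/-- class of a letter -/
private def L07_cl : Lt Q → ℕ
  | .row _ _ => 0
  | .one => 0
  | .a => 1
  | .mid => 2
  | .b => 3
  | .one' => 4
  | .row' _ _ => 4

private theorem L07_encL (w : List (Row Q)) : ∀ x ∈ encL w, L07_cl x = 0 := by
  induction w with
  | nil => simp [encL]
  | cons r w ih =>
    intro x hx
    simp only [encL, rl, List.cons_append, List.mem_cons, List.mem_append, List.mem_replicate] at hx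
    rcases hx with rfl | ⟨_, rfl⟩ | hx
    · rfl
    · rfl
    · exact ih x hx

private theorem L07_encR (w : List (Row Q)) : ∀ x ∈ encR w, L07_cl x = 4 := by
  induction w with
  | nil => simp [encR]
  | cons r w ih =>
    intro x hx
    simp only [encR, rr, List.mem_append, List.mem_replicate, List.mem_singleton] at hx
    rcases hx with hx | ⟨_, rfl⟩ | rfl
    · exact ih x hx
    · rfl
    · rfl

private theorem L07_pw_const (l : List (Lt Q)) (c : ℕ) (h : ∀ x ∈ l, L07_cl x = c) :
    l.Pairwise (fun x y => L07_cl x ≤ L07_cl y) := by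
  refine List.pairwise_of_forall_mem_list ?_
  intro x hx y hy
  rw [h x hx, h y hy]

private theorem L07_sorted (w w' : List (Row Q)) (n m : ℕ) :
    (enc w n m w').Pairwise (fun x y => L07_cl x ≤ L07_cl y) := by
  unfold enc
  rw [List.pairwise_append, List.pairwise_append, List.pairwise_append, List.pairwise_append]
  have hL := L07_encL w
  have hR := L07_encR w'
  refine ⟨L07_pw_const _ 0 hL, ⟨L07_pw_const _ 1 ?_, ⟨by simp, ⟨L07_pw_const _ 3 ?_,
    L07_pw_const _ 4 hR, ?_⟩, ?_⟩, ?_⟩, ?_⟩
  · intro x hx
    rw [List.mem_replicate] at hx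
    rw [hx.2]
    rfl
  · intro x hx
    rw [List.mem_replicate] at hx
    rw [hx.2]
    rfl
  · intro x hx y hy
    rw [List.mem_replicate] at hx
    rw [hx.2, hR y hy]
    simp [L07_cl]
  · intro x hx y hy
    rw [List.mem_singleton] at hx
    rw [hx]
    simp only [List.mem_append, List.mem_replicate] at hy
    rcases hy with ⟨_, rfl⟩ | hy
    · simp [L07_cl]
    · rw [hR y hy]
      simp [L07_cl]
  · intro x hx y hy
    rw [List.mem_replicate] at hx
    rw [hx.2]
    simp only [List.mem_append, List.mem_replicate, List.mem_singleton] at hy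
    rcases hy with rfl | ⟨_, rfl⟩ | hy
    · simp [L07_cl]
    · simp [L07_cl]
    · rw [hR y hy]
      simp [L07_cl]
  · intro x hx y hy
    rw [hL x hx]
    exact Nat.zero_le _

/-- powers of a context -/
private def L07_pc (d : Cx V T) : ℕ → Cx V T
  | 0 => .hole
  | n + 1 => d.comp (L07_pc d n)

private theorem L07_pc_yl (d : Cx V T) (n : ℕ) : (L07_pc d n).yl = pw d.yl n := by
  induction n with
  | zero => simp [L07_pc, Cx.yl]
  | succ n ih => simp [L07_pc, ih, pw_succ]

private theorem L07_pc_yr (d : Cx V T) (n : ℕ) : (L07_pc d n).yr = pw d.yr n := by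
  induction n with
  | zero => simp [L07_pc, Cx.yr]
  | succ n ih => simp [L07_pc, ih, pw_succ']

private theorem L07_pc_root (d : Cx V T) (A : V) (h : d.root A = A) (n : ℕ) :
    (L07_pc d n).root A = A := by
  induction n with
  | zero => simp [L07_pc, Cx.root]
  | succ n ih => simp [L07_pc, ih, h]

private theorem L07_pc_ok (G : Gr V T) (d : Cx V T) (A : V) (h : d.root A = A) (hok : d.ok G A)
    (n : ℕ) : (L07_pc d n).ok G A := by
  induction n with
  | zero => simp [L07_pc, Cx.ok]
  | succ n ih =>
    simp only [L07_pc, Cx.ok_comp, L07_pc_root d A h n]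
    exact ⟨hok, ih⟩

/-- flat letters of the same class are equal -/
private theorem L07_eq {x y : Lt Q} (hx : fl x) (hy : fl y) (h : L07_cl x = L07_cl y) : x = y := by
  cases x <;> cases y <;> simp_all [fl, L07_cl]

/-- a flat word whose square is sorted is a power of a letter -/
private theorem L07_power (u : List (Lt Q)) (hf : ∀ x ∈ u, fl x)
    (h : (u ++ u).Pairwise (fun x y => L07_cl x ≤ L07_cl y)) : ∀ x ∈ u, ∀ y ∈ u, x = y := by
  intro x hx y hy
  rw [List.pairwise_append] at h
  exact L07_eq (hf x hx) (hf y hy) (le_antisymm (h.2.2 x hx y hy) (h.2.2 y hy x hx))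

private theorem L07_wt (ψ : Lt Q → ℤ) (u : List (Lt Q)) (x : Lt Q) (h : ∀ y ∈ u, y = x) :
    wt ψ u = u.length * ψ x := by
  rw [List.eq_replicate_of_mem h, wt_replicate, List.length_replicate]

theorem cyc_type (𝓜 : Mach) (D : ℕ → ℕ) (hD : Primrec D) (mD : Monotone D) :
    Bnd (fun s N => ∀ (σ : Sit 𝓜 s N) (F : Fc σ) (t : Tr σ.V (Lt 𝓜.Q)), t.ok F.G1 →
      t.root = σ.G.start → ∀ (A : σ.V) (j : ℤ), (A, j) ∈ Labs β t 0 →
      ∀ d : Cx σ.V (Lt 𝓜.Q), Cyc F.G1 A d → d.size ≤ D s → CType d.yl d.yr) := by
  have h1 := Bnd.and (fmt 𝓜) (pots 𝓜)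
    (fun s N N' hN h σ z hz => h (L07_restrict hN σ) z hz)
    (fun s N N' hN h σ z hz => h (L07_restrict hN σ) z hz)
  refine h1.mono ?_
  intro s N ⟨hfmt, hpot⟩ σ F t htok htroot A j hA d hd _
  obtain ⟨c, u, htc, hp⟩ := exists_of_mem_Labs β hA
  have hAu : A = u.root := (Prod.mk.inj hp).1
  subst hAu
  -- the pumped words
  have hW : ∀ k : ℕ, c.yl ++ (pw d.yl k ++ u.yd ++ pw d.yr k) ++ c.yr ∈ σ.G.lang := by
    intro k
    refine ⟨c.plug ((L07_pc d k).plug u), F.sub _ ?_, ?_, ?_⟩
    · rw [Cx.ok_plug, Cx.ok_plug, Cx.root_plug, L07_pc_root d _ hd.root]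
      rw [htc, Cx.ok_plug] at htok
      exact ⟨htok.1, L07_pc_ok _ d _ hd.root hd.ok k, htok.2⟩
    · rw [Cx.root_plug, Cx.root_plug, L07_pc_root d _ hd.root, ← htroot, htc, Cx.root_plug]
    · rw [Cx.yd_plug, Cx.yd_plug, L07_pc_yl, L07_pc_yr]
  have hs : ∀ k : ℕ, (c.yl ++ (pw d.yl k ++ u.yd ++ pw d.yr k) ++ c.yr).Pairwise
      (fun x y => L07_cl x ≤ L07_cl y) := by
    intro k
    obtain ⟨w, n, m, w', hz, _⟩ := hfmt σ _ (hW k)
    rw [hz]
    exact L07_sorted w w' n m
  have hs2 := hs 2
  rw [List.pairwise_append, List.pairwise_append] at hs2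
  have hs3 := hs2.1.2.1
  rw [List.pairwise_append, List.pairwise_append] at hs3
  have e2 : ∀ v : List (Lt 𝓜.Q), pw v 2 = v ++ v := by
    intro v
    rw [show (2 : ℕ) = 1 + 1 from rfl, pw_succ, pw_one]
  rw [e2, e2] at hs3
  have hu := L07_power d.yl hd.flat.1 hs3.1.1
  have hv := L07_power d.yr hd.flat.2 hs3.2.1
  have huv : ∀ x ∈ d.yl, ∀ y ∈ d.yr, L07_cl x ≤ L07_cl y := by
    intro x hx y hy
    exact hs3.2.2 x (by simp [hx]) y (by simp [hy])
  -- the potential
  have hψ : 0 ≤ wt ψε d.yl + wt ψε d.yr := by
    by_contra hneg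
    push Not at hneg
    have hk := fun k => (hpot σ _ (hW k)).2.1
    simp only [wt_append, wt_pw] at hk
    have h3 := hk (((wt ψε c.yl + wt ψε u.yd + wt ψε c.yr).toNat) + 1)
    push_cast at h3
    have h4 : wt ψε c.yl + wt ψε u.yd + wt ψε c.yr ≤
        ((wt ψε c.yl + wt ψε u.yd + wt ψε c.yr).toNat : ℤ) := Int.self_le_toNat _
    have h5 : (0 : ℤ) ≤ ((wt ψε c.yl + wt ψε u.yd + wt ψε c.yr).toNat : ℤ) := Int.natCast_nonneg _
    nlinarith
  have key : ∀ l : List (Lt 𝓜.Q), (∀ x ∈ l, fl x) → (∀ x ∈ l, ∀ y ∈ l, x = y) →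
      l = [] ∨ ∃ x, x ∈ l ∧ fl x ∧ ∀ y ∈ l, y = x := by
    intro l h1 h2
    rcases l with _ | ⟨x, l⟩
    · exact Or.inl rfl
    · exact Or.inr ⟨x, by simp, h1 x (by simp), fun y hy => h2 y hy x (by simp)⟩
  have hnil : ∀ x : Lt 𝓜.Q, AllE x [] := fun x y hy => by simp at hy
  have hcase : ∀ u v : List (Lt 𝓜.Q), (u = [] ∨ ∃ x, x ∈ u ∧ fl x ∧ ∀ y ∈ u, y = x) →
      (v = [] ∨ ∃ x, x ∈ v ∧ fl x ∧ ∀ y ∈ v, y = x) → (∀ x ∈ u, ∀ y ∈ v, L07_cl x ≤ L07_cl y) →
      0 ≤ wt ψε u + wt ψε v → CType u v := by
    intro u v hu hv huv hψ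
    rcases hu with rfl | ⟨x, hxu, hx, hux⟩
    · rcases hv with rfl | ⟨y, hyv, hy, hvy⟩
      · exact Or.inl ⟨hnil _, hnil _⟩
      · rw [wt_nil, L07_wt ψε v y hvy] at hψ
        have hpos : 0 < v.length := List.length_pos_of_mem hyv
        cases y with
        | row q π => exact absurd hy (by simp [fl])
        | one => exact Or.inl ⟨hnil _, hvy⟩
        | a =>
          simp only [ψε] at hψ
          exfalso
          omega
        | mid => exact absurd hy (by simp [fl])
        | b => exact Or.inr (Or.inr (Or.inl ⟨hnil _, hvy⟩))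
        | one' => exact Or.inr (Or.inl ⟨hnil _, hvy⟩)
        | row' q π => exact absurd hy (by simp [fl])
    · have hposu : 0 < u.length := List.length_pos_of_mem hxu
      rcases hv with rfl | ⟨y, hyv, hy, hvy⟩
      · rw [wt_nil, L07_wt ψε u x hux] at hψ
        cases x with
        | row q π => exact absurd hx (by simp [fl])
        | one => exact Or.inl ⟨hux, hnil _⟩
        | a =>
          simp only [ψε] at hψ
          exfalso
          omega
        | mid => exact absurd hx (by simp [fl])
        | b => exact Or.inr (Or.inr (Or.inr (Or.inr (Or.inl ⟨hux, hnil _⟩))))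
        | one' => exact Or.inr (Or.inr (Or.inr (Or.inr (Or.inr (Or.inr ⟨hux, hnil _⟩)))))
        | row' q π => exact absurd hx (by simp [fl])
      · have hposv : 0 < v.length := List.length_pos_of_mem hyv
        have hxy := huv x hxu y hyv
        rw [L07_wt ψε u x hux, L07_wt ψε v y hvy] at hψ
        cases x with
        | row q π => exact absurd hx (by simp [fl])
        | mid => exact absurd hx (by simp [fl])
        | row' q π => exact absurd hx (by simp [fl])
        | one =>
          cases y with
          | row q π => exact absurd hy (by simp [fl])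
          | mid => exact absurd hy (by simp [fl])
          | row' q π => exact absurd hy (by simp [fl])
          | one => exact Or.inl ⟨hux, hvy⟩
          | a =>
            simp only [ψε] at hψ
            exfalso
            omega
          | b => exact Or.inr (Or.inr (Or.inl ⟨hux, hvy⟩))
          | one' => exact Or.inr (Or.inl ⟨hux, hvy⟩)
        | a =>
          cases y with
          | row q π => exact absurd hy (by simp [fl])
          | mid => exact absurd hy (by simp [fl])
          | row' q π => exact absurd hy (by simp [fl])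
          | one => exact absurd hxy (by simp [L07_cl])
          | a =>
            simp only [ψε] at hψ
            exfalso
            omega
          | b =>
            simp only [ψε] at hψ
            exact Or.inr (Or.inr (Or.inr (Or.inl ⟨hux, hvy, by omega⟩)))
          | one' =>
            simp only [ψε] at hψ
            exfalso
            omega
        | b =>
          cases y with
          | row q π => exact absurd hy (by simp [fl])
          | mid => exact absurd hy (by simp [fl])
          | row' q π => exact absurd hy (by simp [fl])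
          | one => exact absurd hxy (by simp [L07_cl])
          | a => exact absurd hxy (by simp [L07_cl])
          | b => exact Or.inr (Or.inr (Or.inr (Or.inr (Or.inl ⟨hux, hvy⟩))))
          | one' => exact Or.inr (Or.inr (Or.inr (Or.inr (Or.inr (Or.inl ⟨hux, hvy⟩)))))
        | one' =>
          cases y with
          | row q π => exact absurd hy (by simp [fl])
          | mid => exact absurd hy (by simp [fl])
          | row' q π => exact absurd hy (by simp [fl])
          | one => exact absurd hxy (by simp [L07_cl])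
          | a => exact absurd hxy (by simp [L07_cl])
          | b => exact absurd hxy (by simp [L07_cl])
          | one' => exact Or.inr (Or.inr (Or.inr (Or.inr (Or.inr (Or.inr ⟨hux, hvy⟩)))))
  exact hcase _ _ (key _ hd.flat.1 hu) (key _ hd.flat.2 hv) huv hψ

end NSI
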