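import Pool.Agent.Lib.NSI.T10

/-!
# T12 : the nodes above `mid` form a chain
-/

set_option autoImplicit false

namespace NSI

variable {Q : ℕ} {V : Type}

private theorem T12_wt_left (z : List (Lt Q)) (h : ∀ x ∈ z, sd x = 0) :
    0 ≤ wt β z ∧ wt ψm z = 0 := by
  induction z with
  | nil => simp
  | cons x z ih =>
    obtain ⟨h1, h2⟩ := ih (fun y hy => h y (List.mem_cons_of_mem _ hy))
    have h3 := h x (List.mem_cons_self ..)
    rw [wt_cons, wt_cons]
    cases x <;> simp_all [sd, β, ψm]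
    omega

private theorem T12_wt_right (z : List (Lt Q)) (h : ∀ x ∈ z, sd x = 2) :
    wt β z ≤ 0 ∧ wt ψm z = 0 := by
  induction z with
  | nil => simp
  | cons x z ih =>
    obtain ⟨h1, h2⟩ := ih (fun y hy => h y (List.mem_cons_of_mem _ hy))
    have h3 := h x (List.mem_cons_self ..)
    rw [wt_cons, wt_cons]
    cases x <;> simp_all [sd, β, ψm]
    omega

private theorem T12_split (x y : List (Lt Q)) (h : Shape (x ++ y)) :
    (Shape x ∧ ∀ a ∈ y, sd a = 2) ∨ ((∀ a ∈ x, sd a = 0) ∧ Shape y) := by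
  obtain ⟨u, v, h1, h2, h3⟩ := h
  rw [List.append_eq_append_iff] at h1
  rcases h1 with ⟨as, h4, h5⟩ | ⟨bs, h4, h5⟩
  · -- u = x ++ as, y = as ++ mid :: v
    right
    refine ⟨fun a ha => h2 a (by rw [h4]; exact List.mem_append_left _ ha), as, v, h5,
      fun a ha => h2 a (by rw [h4]; exact List.mem_append_right _ ha), h3⟩
  · -- x = u ++ bs, mid :: v = bs ++ y
    cases bs with
    | nil =>
      right
      simp only [List.append_nil] at h4
      simp only [List.nil_append] at h5
      subst h4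
      exact ⟨h2, [], v, by simpa using h5.symm, by simp, h3⟩
    | cons b bs =>
      left
      simp only [List.cons_append, List.cons.injEq] at h5
      obtain ⟨h6, h7⟩ := h5
      refine ⟨⟨u, bs, by rw [h4, h6], h2, fun a ha => h3 a (by rw [h7]; exact List.mem_append_left _ ha)⟩,
        fun a ha => h3 a (by rw [h7]; exact List.mem_append_right _ ha)⟩

private theorem T12_kappa (G : Gr V (Lt Q)) (C : ℕ) (e : Exact G C) (t : Tr V (Lt Q))
    (ht : t.ok G) (h : (∀ a ∈ t.yd, sd a = 2) ∨ (∀ a ∈ t.yd, sd a = 0)) (k : ℤ) (B : V) (i : ℤ)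
    (hB : (B, i) ∈ Labs β t k) : e.κ B = 0 := by
  obtain ⟨c, s, rfl, hp⟩ := exists_of_mem_Labs β hB
  have h1 : B = s.root := (Prod.mk.inj hp).1
  rw [Cx.ok_plug] at ht
  rw [h1, ← e.hκ s ht.2]
  have h2 : ∀ a ∈ s.yd, a ∈ (c.plug s).yd := fun a ha => by
    rw [Cx.yd_plug]
    simp [ha]
  rcases h with h | h
  · exact (T12_wt_right s.yd (fun a ha => h a (h2 a ha))).2
  · exact (T12_wt_left s.yd (fun a ha => h a (h2 a ha))).2

/-- a label with one `mid` is to the right of the root, on both ends -/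
private theorem T12_root (G : Gr V (Lt Q)) (C : ℕ) (e : Exact G C) (t : Tr V (Lt Q)) (ht : t.ok G)
    (hs : Shape t.yd) (k : ℤ) (B : V) (j : ℤ) (hB : (B, j) ∈ Labs β t k) (kB : e.κ B = 1) :
    k ≤ j ∧ k + wt β t.yd ≤ j + e.ω B := by
  induction t generalizing k with
  | lf A x =>
    simp only [Labs, Set.mem_singleton_iff, Prod.mk.injEq] at hB
    obtain ⟨rfl, rfl⟩ := hB
    have := e.hω _ ht
    simp only [Tr.root] at this
    omega
  | nd A l r ihl ihr =>
    have h0 := e.hω _ ht
    simp only [Tr.root] at h0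
    simp only [Tr.ok] at ht
    obtain ⟨-, h1, h2⟩ := ht
    simp only [Labs, Set.mem_union, Set.mem_singleton_iff, Prod.mk.injEq] at hB
    simp only [Tr.yd] at hs h0 ⊢
    rw [wt_append] at h0 ⊢
    rcases T12_split _ _ hs with ⟨h3, h4⟩ | ⟨h3, h4⟩
    · rcases hB with (⟨rfl, rfl⟩ | hB) | hB
      · omega
      · have := ihl h1 h3 k hB
        have := (T12_wt_right _ h4).1
        omega
      · have := T12_kappa G C e r h2 (Or.inl h4) _ _ _ hB
        omega
    · rcases hB with (⟨rfl, rfl⟩ | hB) | hB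
      · omega
      · have := T12_kappa G C e l h1 (Or.inr h3) _ _ _ hB
        omega
      · have := ihr h2 h4 _ hB
        have := (T12_wt_left _ h3).1
        omega

theorem chain_mid (G : Gr V (Lt Q)) (C : ℕ) (e : Exact G C) (t : Tr V (Lt Q)) (ht : t.ok G)
    (hs : Shape t.yd) (k : ℤ) (A B : V) (i j : ℤ) (hA : (A, i) ∈ Labs β t k)
    (hB : (B, j) ∈ Labs β t k) (kA : e.κ A = 1) (kB : e.κ B = 1) :
    (i ≤ j ∧ i + e.ω A ≤ j + e.ω B) ∨ (j ≤ i ∧ j + e.ω B ≤ i + e.ω A) := by
  induction t generalizing k with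
  | lf D x =>
    simp only [Labs, Set.mem_singleton_iff, Prod.mk.injEq] at hB hA
    obtain ⟨rfl, rfl⟩ := hB
    obtain ⟨rfl, rfl⟩ := hA
    left
    omega
  | nd D l r ihl ihr =>
    have h0 := e.hω _ ht
    simp only [Tr.root] at h0
    have hA' := T12_root G C e _ ht hs k A i hA kA
    have hB' := T12_root G C e _ ht hs k B j hB kB
    simp only [Tr.ok] at ht
    obtain ⟨-, h1, h2⟩ := ht
    simp only [Labs, Set.mem_union, Set.mem_singleton_iff, Prod.mk.injEq] at hB hA
    rcases hA with (⟨rfl, rfl⟩ | hA) | hA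
    · left
      omega
    · rcases hB with (⟨rfl, rfl⟩ | hB) | hB
      · right
        omega
      · rcases T12_split _ _ hs with ⟨h3, h4⟩ | ⟨h3, h4⟩
        · exact ihl h1 h3 k hA hB
        · have := T12_kappa G C e l h1 (Or.inr h3) _ _ _ hB
          omega
      · rcases T12_split _ _ hs with ⟨h3, h4⟩ | ⟨h3, h4⟩
        · have := T12_kappa G C e r h2 (Or.inl h4) _ _ _ hB
          omega
        · have := T12_kappa G C e l h1 (Or.inr h3) _ _ _ hA
          omega
    · rcases hB with (⟨rfl, rfl⟩ | hB) | hB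
      · right
        omega
      · rcases T12_split _ _ hs with ⟨h3, h4⟩ | ⟨h3, h4⟩
        · have := T12_kappa G C e r h2 (Or.inl h4) _ _ _ hA
          omega
        · have := T12_kappa G C e l h1 (Or.inr h3) _ _ _ hB
          omega
      · rcases T12_split _ _ hs with ⟨h3, h4⟩ | ⟨h3, h4⟩
        · have := T12_kappa G C e r h2 (Or.inl h4) _ _ _ hA
          omega
        · exact ihr h2 h4 _ hA hB

end NSI
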