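import Pool.Agent.Lib.NSI.L06
import Pool.Agent.Lib.NSI.L02
import Pool.Agent.Lib.NSI.T12

/-!
# L08 : words of the face grammar; irreducible trees have bounded rows

Recipe.  `face_word`: `fmt`, `F.sub`, `wt_enc` and `F.e.hω` (balance `0`: the balance of the root
`start` is the same for all `F.G1`-trees, and ... it is `0` because some short word of `K` with
balance `0` is generated; simpler: every `F.G1`-tree with root `start` has the same balance
`ω start`; take the tree of a short tight word `enc w 0 0 w` (with `w` = two rows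
`((q0, false), E), ((qh, true), 0)`), which is `F.G1`-ok by `F.full`).
`shape_enc`: definition.  `irr_bound`: `core_bound` with `C = 2 ^ s`, `H = Hb s`: `flat_path` (with
`Irr`) bounds the flat paths by `Hb (card V) ≤ Hb s`.
-/

set_option autoImplicit false

namespace NSI

theorem shape_enc {Q : ℕ} (w w' : List (Row Q)) (n m : ℕ) : Shape (enc w n m w') := by
  refine ⟨encL w ++ List.replicate n Lt.a, List.replicate m Lt.b ++ encR w', ?_, ?_, ?_⟩
  · simp [enc]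
  · intro x hx
    rcases List.mem_append.1 hx with h | h
    · rcases mem_encL h with rfl | ⟨q, π, rfl⟩ <;> rfl
    · rw [List.eq_of_mem_replicate h]
      rfl
  · intro x hx
    rcases List.mem_append.1 hx with h | h
    · rw [List.eq_of_mem_replicate h]
      rfl
    · rcases mem_encR h with rfl | ⟨q, π, rfl⟩ <;> rfl

/-- restriction of the bound of a situation -/
private def L08_res {𝓜 : Mach} {s N N' : ℕ} (h : N ≤ N') (σ : Sit 𝓜 s N') : Sit 𝓜 s N where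
  V := σ.V
  fin := σ.fin
  dec := σ.dec
  G := σ.G
  E := σ.E
  hV := σ.hV
  hE := σ.hE
  agree := fun z hz => σ.agree z (hz.trans h)

/-- the two rows of the short tight word -/
private def L08_w (𝓜 : Mach) (E : ℕ) : List (Row 𝓜.Q) := [((𝓜.q0, false), E), ((𝓜.qh, true), 0)]

private lemma L08_FF (𝓜 : Mach) (E : ℕ) : FF 𝓜 E (L08_w 𝓜 E) := by
  refine ⟨rfl, ?_, ⟨((𝓜.qh, true), 0), rfl, rfl⟩⟩
  simp [L08_w]

private lemma L08_K (𝓜 : Mach) (E : ℕ) : enc (L08_w 𝓜 E) 0 0 (L08_w 𝓜 E) ∈ K 𝓜 E := by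
  refine ⟨L08_w 𝓜 E, 0, 0, L08_w 𝓜 E, rfl, L08_FF 𝓜 E, le_refl _, Or.inr (Or.inl ⟨?_, Or.inl rfl⟩)⟩
  exact List.forall₂_same.2 (fun r _ => ⟨rfl, le_refl _⟩)

private lemma L08_len (𝓜 : Mach) (E : ℕ) :
    (enc (L08_w 𝓜 E) 0 0 (L08_w 𝓜 E)).length = 2 * E + 5 := by
  simp [enc, L08_w, encL, encR, rl, rr]
  ring

theorem face_word (𝓜 : Mach) : Bnd (fun s N => ∀ (σ : Sit 𝓜 s N) (F : Fc σ)
    (t : Tr σ.V (Lt 𝓜.Q)), t.ok F.G1 → t.root = σ.G.start →
    ∃ w n m w', t.yd = enc w n m w' ∧ w.length = w'.length ∧ FF 𝓜 σ.E w ∧ n ≤ m) := by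
  obtain ⟨b1, h1, m1, g1⟩ := fmt 𝓜
  obtain ⟨b2, h2, m2, g2⟩ := pots 𝓜
  have hp : Primrec (fun s : ℕ => 2 * s + 5) :=
    Primrec.nat_add.comp (Primrec.nat_mul.comp (Primrec.const 2) Primrec.id) (Primrec.const 5)
  refine ⟨fun s => b1 s + b2 s + (2 * s + 5), Primrec.nat_add.comp (Primrec.nat_add.comp h1 h2) hp,
    fun x y h => ?_, fun s σ F t ht hr => ?_⟩
  · have := m1 h
    have := m2 h
    show b1 x + b2 x + (2 * x + 5) ≤ b1 y + b2 y + (2 * y + 5)
    omega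
  · have hle1 : b1 s ≤ b1 s + b2 s + (2 * s + 5) := by omega
    have hle2 : b2 s ≤ b1 s + b2 s + (2 * s + 5) := by omega
    have hz : t.yd ∈ σ.G.lang := ⟨t, F.sub t ht, hr, rfl⟩
    obtain ⟨w, n, m, w', hw, hF⟩ := g1 s (L08_res hle1 σ) t.yd hz
    obtain ⟨-, hε, -⟩ := g2 s (L08_res hle2 σ) t.yd hz
    -- the balance of the start symbol
    have hE : σ.E ≤ s := σ.hE
    have hK : enc (L08_w 𝓜 σ.E) 0 0 (L08_w 𝓜 σ.E) ∈ σ.G.lang := by
      refine (σ.agree _ ?_).2 (L08_K 𝓜 σ.E)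
      rw [L08_len]
      show 2 * σ.E + 5 ≤ b1 s + b2 s + (2 * s + 5)
      omega
    obtain ⟨t0, ht0, hr0, hy0⟩ := hK
    have hμ : wt ψμ t0.yd = 0 := by
      rw [hy0, (wt_enc _ _ _ _).1]
      simp
    have ht0' := F.full t0 ht0 hr0 hμ
    have e1 := F.e.hω t0 ht0'
    have e2 := F.e.hω t ht
    rw [hr0, hy0, (wt_enc _ _ _ _).2.1] at e1
    rw [hr, hw, (wt_enc _ _ _ _).2.1] at e2
    rw [hw, (wt_enc _ _ _ _).2.2.2.1] at hε
    refine ⟨w, n, m, w', hw, ?_, hF, ?_⟩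
    · have : ((w.length : ℤ)) - w'.length = 0 := by
        rw [e2, ← e1]
        simp
      omega
    · omega

theorem irr_bound (𝓜 : Mach) : Bnd (fun s N => ∀ (σ : Sit 𝓜 s N) (F : Fc σ)
    (t : Tr σ.V (Lt 𝓜.Q)), t.ok F.G1 → t.root = σ.G.start → Irr t 0 →
    ∀ (x : Lt 𝓜.Q) (j : ℤ), (cw β t.yd 0).count (x, j) ≤ Cb (2 ^ s) (Hb s)) := by
  refine (face_word 𝓜).mono fun s N h σ F t ht hr hI x j => ?_
  obtain ⟨w, n, m, w', hw, -, -, -⟩ := h σ F t ht hr
  have hs : Shape t.yd := by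
    rw [hw]
    exact shape_enc _ _ _ _
  refine core_bound F.G1 (2 ^ s) F.e t ht hs (Hb s) (fun c d u htu hd => ?_) 0 x j
  by_contra hcon
  push Not at hcon
  haveI := σ.fin
  have hV : Fintype.card σ.V ≤ s := by
    have := σ.hV
    convert this
  have hH : Hb (Fintype.card σ.V) ≤ Hb s := by
    unfold Hb
    gcongr
  obtain ⟨c', d', s', hR, -⟩ := flat_path t 0 c d u htu hd (lt_of_le_of_lt hH hcon)
  exact hI ⟨c', d', s', hR⟩

end NSI
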