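import Pool.Agent.Lib.NSI.KDefs

/-!
# T11 : marked trees

`mk G A1 A2 s1 s2`: the grammar in which a node labelled `A1` may get the marker letter
`Sum.inr false`, on the left (`s1 = false`) or on the right (`s1 = true`) of its yield, and a node
labelled `A2` the marker `Sum.inr true`.  Markers have balance `0`.

Recipe.  Structural inductions.  For `mk_exists`: first prove the analogous statement for one
marker and one label (induction on `t`: root label, or in the left subtree, or in the right
subtree), in the form: for `(A, j) ∈ Labs β t k` there is a marked tree with content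
`map + {(marker, j or j + wt of the subtree)}`; then for two labels: for a node `nd A l r` distinguish
where the two labels are (root, left, right); it is convenient to prove the general statement for
the multiset of markers by a simultaneous induction: `P t k S` for `S ⊆ {1, 2}` : the labels of the
markers in `S` are in `Labs β t k` implies a marked tree with exactly these markers.
At the root: put the marker nodes `nd (inl A1) (lf (inr false) _) t` on top of the marked tree for
the other marker.
`mk_erase`: erase: `er (lf (inl A) x) = lf A ..`, `er (nd (inl A) l r) =` `er r` if `l` is a marker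
leaf, `er l` if `r` is a marker leaf, `nd A (er l) (er r)` otherwise.
-/

set_option autoImplicit false

namespace NSI

variable {Q : ℕ} {V : Type}

/-- the marked grammar -/
def mk (G : Gr V (Lt Q)) (A1 A2 : V) (s1 s2 : Bool) : Gr (V ⊕ Bool) (Lt Q ⊕ Bool) where
  start := Sum.inl G.start
  bin := fun X Y Z => match X, Y, Z with
    | .inl A, .inl B, .inl C => G.bin A B C
    | .inl A, .inr i, .inl B => A = B ∧ (if i then A = A2 ∧ s2 = false else A = A1 ∧ s1 = false)
    | .inl A, .inl B, .inr i => A = B ∧ (if i then A = A2 ∧ s2 = true else A = A1 ∧ s1 = true)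
    | _, _, _ => False
  lf := fun X x => match X, x with
    | .inl A, none => G.lf A none
    | .inl A, some (.inl y) => G.lf A (some y)
    | .inr i, some (.inr i') => i = i'
    | _, _ => False

/-- balance with markers -/
def βm : Lt Q ⊕ Bool → ℤ
  | .inl x => β x
  | .inr _ => 0

/-- erase the markers of a word -/
def erw (z : List (Lt Q ⊕ Bool)) : List (Lt Q) := z.filterMap (fun x => x.getLeft?)

private theorem T11_wt (z : List (Lt Q ⊕ Bool)) : wt βm z = wt β (erw z) := by
  induction z with
  | nil => rfl
  | cons x z ih =>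
    rw [wt_cons, ih]
    rcases x with x | i
    · have h : erw (Sum.inl x :: z) = x :: erw z := rfl
      rw [h, wt_cons]
      rfl
    · have h : erw (Sum.inr i :: z) = erw z := rfl
      rw [h]
      exact zero_add _

private theorem T11_erw_append (y z : List (Lt Q ⊕ Bool)) : erw (y ++ z) = erw y ++ erw z :=
  List.filterMap_append

/-- marked trees exist, general form -/
private def T11_Q (G : Gr V (Lt Q)) (A1 A2 : V) (s1 s2 : Bool) (pos : Bool → ℤ)
    (t : Tr V (Lt Q)) (k : ℤ) (S : Multiset Bool) : Prop :=
  ∃ t' : Tr (V ⊕ Bool) (Lt Q ⊕ Bool), t'.ok (mk G A1 A2 s1 s2) ∧ t'.root = Sum.inl t.root ∧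
    erw t'.yd = t.yd ∧
    cw βm t'.yd k = (cw β t.yd k).map (fun p => ((Sum.inl p.1 : Lt Q ⊕ Bool), p.2)) +
      S.map (fun i => ((Sum.inr i : Lt Q ⊕ Bool), pos i))

private theorem T11_add (G : Gr V (Lt Q)) (C : ℕ) (e : Exact G C) (A1 A2 : V) (s1 s2 : Bool)
    (k1 k2 : ℤ) (t : Tr V (Lt Q)) (ht : t.ok G) (k : ℤ) (S : Multiset Bool)
    (hS : T11_Q G A1 A2 s1 s2 (fun i => bif i then (if s2 then k2 + e.ω A2 else k2)
      else (if s1 then k1 + e.ω A1 else k1)) t k S) (i : Bool)
    (hi : (bif i then (A2, k2) else (A1, k1)) = (t.root, k)) :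
    T11_Q G A1 A2 s1 s2 (fun i => bif i then (if s2 then k2 + e.ω A2 else k2)
      else (if s1 then k1 + e.ω A1 else k1)) t k (i ::ₘ S) := by
  obtain ⟨t', h1, h2, h3, h4⟩ := hS
  have hw : wt βm t'.yd = e.ω t.root := by
    rw [T11_wt, h3]
    exact e.hω t ht
  -- the two ways to put the marker
  have hL : (bif i then s2 else s1) = false →
      ∃ t'' : Tr (V ⊕ Bool) (Lt Q ⊕ Bool), t''.ok (mk G A1 A2 s1 s2) ∧
        t''.root = Sum.inl t.root ∧ erw t''.yd = t.yd ∧
        cw βm t''.yd k = (Sum.inr i, k) ::ₘ cw βm t'.yd k := by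
    intro hs
    refine ⟨.nd (Sum.inl t.root) (.lf (Sum.inr i) (some (Sum.inr i))) t', ⟨?_, ?_, h1⟩, rfl, ?_, ?_⟩
    · rw [h2]
      cases i with
      | false =>
        simp only [cond_false] at hs hi
        exact ⟨rfl, by simpa using ⟨(Prod.ext_iff.1 hi).1.symm, hs⟩⟩
      | true =>
        simp only [cond_true] at hs hi
        exact ⟨rfl, by simpa using ⟨(Prod.ext_iff.1 hi).1.symm, hs⟩⟩
    · exact rfl
    · change erw ([Sum.inr i] ++ t'.yd) = _
      rw [T11_erw_append, h3]
      rfl
    · change cw βm (Sum.inr i :: t'.yd) k = _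
      rw [cw]
      change (Sum.inr i, k) ::ₘ cw βm t'.yd (k + 0) = _
      rw [add_zero]
  have hR : (bif i then s2 else s1) = true →
      ∃ t'' : Tr (V ⊕ Bool) (Lt Q ⊕ Bool), t''.ok (mk G A1 A2 s1 s2) ∧
        t''.root = Sum.inl t.root ∧ erw t''.yd = t.yd ∧
        cw βm t''.yd k = (Sum.inr i, k + e.ω t.root) ::ₘ cw βm t'.yd k := by
    intro hs
    refine ⟨.nd (Sum.inl t.root) t' (.lf (Sum.inr i) (some (Sum.inr i))), ⟨?_, h1, ?_⟩, rfl, ?_, ?_⟩
    · rw [h2]
      cases i with
      | false =>
        simp only [cond_false] at hs hi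
        exact ⟨rfl, by simpa using ⟨(Prod.ext_iff.1 hi).1.symm, hs⟩⟩
      | true =>
        simp only [cond_true] at hs hi
        exact ⟨rfl, by simpa using ⟨(Prod.ext_iff.1 hi).1.symm, hs⟩⟩
    · exact rfl
    · change erw (t'.yd ++ [Sum.inr i]) = _
      rw [T11_erw_append, h3]
      exact List.append_nil _
    · change cw βm (t'.yd ++ [Sum.inr i]) k = _
      rw [cw_append, hw, add_comm]
      rfl
  cases i with
  | false =>
    simp only [cond_false] at hi hL hR
    obtain ⟨e1, e2⟩ := Prod.ext_iff.1 hi
    simp only at e1 e2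
    cases hs : s1 with
    | false =>
      obtain ⟨t'', g1, g2, g3, g4⟩ := hL hs
      rw [hs] at g1 h4
      refine ⟨t'', g1, g2, g3, ?_⟩
      rw [g4, h4, Multiset.map_cons, Multiset.add_cons, e2]
      rfl
    | true =>
      obtain ⟨t'', g1, g2, g3, g4⟩ := hR hs
      rw [hs] at g1 h4
      refine ⟨t'', g1, g2, g3, ?_⟩
      rw [g4, h4, Multiset.map_cons, Multiset.add_cons, e1, e2]
      rfl
  | true =>
    simp only [cond_true] at hi hL hR
    obtain ⟨e1, e2⟩ := Prod.ext_iff.1 hi
    simp only at e1 e2
    cases hs : s2 with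
    | false =>
      obtain ⟨t'', g1, g2, g3, g4⟩ := hL hs
      rw [hs] at g1 h4
      refine ⟨t'', g1, g2, g3, ?_⟩
      rw [g4, h4, Multiset.map_cons, Multiset.add_cons, e2]
      rfl
    | true =>
      obtain ⟨t'', g1, g2, g3, g4⟩ := hR hs
      rw [hs] at g1 h4
      refine ⟨t'', g1, g2, g3, ?_⟩
      rw [g4, h4, Multiset.map_cons, Multiset.add_cons, e1, e2]
      rfl

private theorem T11_gen (G : Gr V (Lt Q)) (C : ℕ) (e : Exact G C) (A1 A2 : V) (s1 s2 : Bool)
    (k1 k2 : ℤ) (t : Tr V (Lt Q)) (ht : t.ok G) : ∀ (k : ℤ) (S : Multiset Bool)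
    (_ : ∀ i ∈ S, (bif i then (A2, k2) else (A1, k1)) ∈ Labs β t k),
    T11_Q G A1 A2 s1 s2 (fun i => bif i then (if s2 then k2 + e.ω A2 else k2)
      else (if s1 then k1 + e.ω A1 else k1)) t k S := by
  classical
  induction t with
  | lf A x =>
    intro k S
    induction S using Multiset.induction with
    | empty =>
      intro _
      refine ⟨.lf (Sum.inl A) (x.map Sum.inl), ?_, rfl, ?_, ?_⟩
      · cases x with
        | none => exact ht
        | some y => exact ht
      · cases x with
        | none => rfl
        | some y => rfl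
      · cases x with
        | none => rfl
        | some y => rfl
    | cons i S ih =>
      intro h
      refine T11_add G C e A1 A2 s1 s2 k1 k2 _ ht k S
        (ih fun j hj => h j (Multiset.mem_cons_of_mem hj)) i ?_
      exact h i (Multiset.mem_cons_self i S)
  | nd A l r ihl ihr =>
    intro k S h
    have hS : S = S.filter (fun i => (bif i then (A2, k2) else (A1, k1)) = (A, k)) +
        (((S.filter (fun i => ¬ (bif i then (A2, k2) else (A1, k1)) = (A, k))).filter
          (fun i => (bif i then (A2, k2) else (A1, k1)) ∈ Labs β l k)) +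
        ((S.filter (fun i => ¬ (bif i then (A2, k2) else (A1, k1)) = (A, k))).filter
          (fun i => ¬ (bif i then (A2, k2) else (A1, k1)) ∈ Labs β l k))) := by
      rw [Multiset.filter_add_not, Multiset.filter_add_not]
    rw [hS]
    set S1 := (S.filter (fun i => ¬ (bif i then (A2, k2) else (A1, k1)) = (A, k))).filter
          (fun i => (bif i then (A2, k2) else (A1, k1)) ∈ Labs β l k) with hS1
    set S2 := (S.filter (fun i => ¬ (bif i then (A2, k2) else (A1, k1)) = (A, k))).filter
          (fun i => ¬ (bif i then (A2, k2) else (A1, k1)) ∈ Labs β l k) with hS2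
    have g1 := ihl ht.2.1 k S1 (fun i hi => by
      rw [hS1, Multiset.mem_filter] at hi
      exact hi.2)
    have g2 := ihr ht.2.2 (k + wt β l.yd) S2 (fun i hi => by
      rw [hS2, Multiset.mem_filter, Multiset.mem_filter] at hi
      obtain ⟨⟨h5, h6⟩, h7⟩ := hi
      have h8 := h i h5
      simp only [Labs, Set.mem_union, Set.mem_singleton_iff] at h8
      tauto)
    have g3 : T11_Q G A1 A2 s1 s2 (fun i => bif i then (if s2 then k2 + e.ω A2 else k2)
      else (if s1 then k1 + e.ω A1 else k1)) (.nd A l r) k (S1 + S2) := by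
      obtain ⟨l', a1, a2, a3, a4⟩ := g1
      obtain ⟨r', b1, b2, b3, b4⟩ := g2
      refine ⟨.nd (Sum.inl A) l' r', ⟨?_, a1, b1⟩, rfl, ?_, ?_⟩
      · rw [a2, b2]
        exact ht.1
      · change erw (l'.yd ++ r'.yd) = l.yd ++ r.yd
        rw [T11_erw_append, a3, b3]
      · change cw βm (l'.yd ++ r'.yd) k = (cw β (l.yd ++ r.yd) k).map _ + _
        rw [cw_append, cw_append, T11_wt, a3, a4, b4, Multiset.map_add, Multiset.map_add]
        abel
    have h0 : ∀ i ∈ S.filter (fun i => (bif i then (A2, k2) else (A1, k1)) = (A, k)),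
        (bif i then (A2, k2) else (A1, k1)) = (A, k) := fun i hi => (Multiset.mem_filter.1 hi).2
    generalize S.filter (fun i => (bif i then (A2, k2) else (A1, k1)) = (A, k)) = S0 at h0
    induction S0 using Multiset.induction with
    | empty =>
      rw [zero_add]
      exact g3
    | cons i S0 ih =>
      rw [Multiset.cons_add]
      exact T11_add G C e A1 A2 s1 s2 k1 k2 _ ht k _
        (ih fun j hj => h0 j (Multiset.mem_cons_of_mem hj)) i (h0 i (Multiset.mem_cons_self i S0))

theorem mk_exists (G : Gr V (Lt Q)) (C : ℕ) (e : Exact G C) (A1 A2 : V) (s1 s2 : Bool)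
    (t : Tr V (Lt Q)) (ht : t.ok G) (k k1 k2 : ℤ) (h1 : (A1, k1) ∈ Labs β t k)
    (h2 : (A2, k2) ∈ Labs β t k) :
    ∃ t' : Tr (V ⊕ Bool) (Lt Q ⊕ Bool), t'.ok (mk G A1 A2 s1 s2) ∧ t'.root = Sum.inl t.root ∧
      erw t'.yd = t.yd ∧
      cw βm t'.yd k = (cw β t.yd k).map (fun p => (Sum.inl p.1, p.2)) +
        {(Sum.inr false, if s1 then k1 + e.ω A1 else k1)} +
        {(Sum.inr true, if s2 then k2 + e.ω A2 else k2)} := by
  obtain ⟨t', g1, g2, g3, g4⟩ := T11_gen G C e A1 A2 s1 s2 k1 k2 t ht k (false ::ₘ true ::ₘ 0)
    (by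
      intro i hi
      cases i with
      | false => exact h1
      | true => exact h2)
  refine ⟨t', g1, g2, g3, ?_⟩
  rw [g4, add_assoc]
  rfl

theorem mk_erase (G : Gr V (Lt Q)) (C : ℕ) (e : Exact G C) (A1 A2 : V) (s1 s2 : Bool)
    (t' : Tr (V ⊕ Bool) (Lt Q ⊕ Bool)) (ht : t'.ok (mk G A1 A2 s1 s2))
    (A : V) (hA : t'.root = Sum.inl A) (k : ℤ) :
    ∃ t : Tr V (Lt Q), t.ok G ∧ t.root = A ∧ erw t'.yd = t.yd ∧
      (∀ j : ℤ, (Sum.inr false, j) ∈ cw βm t'.yd k →
        (A1, if s1 then j - e.ω A1 else j) ∈ Labs β t k) ∧
      (∀ j : ℤ, (Sum.inr true, j) ∈ cw βm t'.yd k →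
        (A2, if s2 then j - e.ω A2 else j) ∈ Labs β t k) := by
  induction t' generalizing A k with
  | lf X x =>
    obtain rfl : X = Sum.inl A := hA
    rcases x with _ | x | i
    · refine ⟨.lf A none, ht, rfl, rfl, ?_, ?_⟩
      · intro j hj
        exact absurd hj (by simp [Tr.yd, cw])
      · intro j hj
        exact absurd hj (by simp [Tr.yd, cw])
    · refine ⟨.lf A (some x), ht, rfl, rfl, ?_, ?_⟩
      · intro j hj
        exact absurd hj (by simp [Tr.yd, cw])
      · intro j hj
        exact absurd hj (by simp [Tr.yd, cw])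
    · exact absurd ht (fun h => h)
  | nd X l r ihl ihr =>
    obtain rfl : X = Sum.inl A := hA
    obtain ⟨hb, hl, hr⟩ := ht
    rcases hlr : l.root with B | i <;> rcases hrr : r.root with B' | i'
    · rw [hlr, hrr] at hb
      obtain ⟨tl, a1, a2, a3, a4, a5⟩ := ihl hl B hlr k
      have hwl : wt βm l.yd = wt β tl.yd := by rw [T11_wt, a3]
      obtain ⟨tr, b1, b2, b3, b4, b5⟩ := ihr hr B' hrr (k + wt βm l.yd)
      refine ⟨.nd A tl tr, ⟨?_, a1, b1⟩, rfl, ?_, ?_, ?_⟩
      · rw [a2, b2]
        exact hb
      · change erw (l.yd ++ r.yd) = tl.yd ++ tr.yd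
        rw [T11_erw_append, a3, b3]
      · intro j hj
        change _ ∈ cw βm (l.yd ++ r.yd) k at hj
        rw [cw_append, Multiset.mem_add] at hj
        simp only [Labs, Set.mem_union]
        rcases hj with hj | hj
        · exact Or.inl (Or.inr (a4 j hj))
        · right
          rw [← hwl]
          exact b4 j hj
      · intro j hj
        change _ ∈ cw βm (l.yd ++ r.yd) k at hj
        rw [cw_append, Multiset.mem_add] at hj
        simp only [Labs, Set.mem_union]
        rcases hj with hj | hj
        · exact Or.inl (Or.inr (a5 j hj))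
        · right
          rw [← hwl]
          exact b5 j hj
    · rw [hlr, hrr] at hb
      obtain ⟨rfl, hc⟩ := hb
      obtain ⟨tl, a1, a2, a3, a4, a5⟩ := ihl hl A hlr k
      have hwl : wt βm l.yd = e.ω A := by rw [T11_wt, a3, e.hω tl a1, a2]
      -- the right child is a marker leaf
      cases r with
      | nd Y r1 r2 =>
        obtain rfl : Y = Sum.inr i' := hrr
        exact absurd hr.1 (fun h => h)
      | lf Y y =>
        obtain rfl : Y = Sum.inr i' := hrr
        rcases y with _ | y | y
        · exact absurd hr (fun h => h)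
        · exact absurd hr (fun h => h)
        · obtain rfl : i' = y := hr
          have hyd : (Tr.nd (Sum.inl A) l (Tr.lf (Sum.inr i') (some (Sum.inr i')))).yd =
            l.yd ++ [Sum.inr i'] := rfl
          have hmem : ∀ (i : Bool) (j : ℤ), (Sum.inr i, j) ∈ cw βm (l.yd ++ [Sum.inr i']) k →
              (Sum.inr i, j) ∈ cw βm l.yd k ∨ (i = i' ∧ j = k + e.ω A) := by
            intro i j hj
            rw [cw_append, Multiset.mem_add, hwl] at hj
            rcases hj with hj | hj
            · exact Or.inl hj
            · right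
              simpa [cw] using hj
          refine ⟨tl, a1, a2, ?_, ?_, ?_⟩
          · rw [hyd, T11_erw_append, a3]
            exact List.append_nil _
          · intro j hj
            rw [hyd] at hj
            rcases hmem false j hj with hj | ⟨rfl, rfl⟩
            · exact a4 j hj
            · simp only [Bool.false_eq_true, if_false] at hc
              obtain ⟨rfl, rfl⟩ := hc
              have := mem_Labs_root β tl k
              rw [a2] at this
              simpa using this
          · intro j hj
            rw [hyd] at hj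
            rcases hmem true j hj with hj | ⟨rfl, rfl⟩
            · exact a5 j hj
            · simp only [if_true] at hc
              obtain ⟨rfl, rfl⟩ := hc
              have := mem_Labs_root β tl k
              rw [a2] at this
              simpa using this
    · rw [hlr, hrr] at hb
      obtain ⟨rfl, hc⟩ := hb
      cases l with
      | nd Y l1 l2 =>
        obtain rfl : Y = Sum.inr i := hlr
        exact absurd hl.1 (fun h => h)
      | lf Y y =>
        obtain rfl : Y = Sum.inr i := hlr
        rcases y with _ | y | y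
        · exact absurd hl (fun h => h)
        · exact absurd hl (fun h => h)
        · obtain rfl : i = y := hl
          obtain ⟨tr, b1, b2, b3, b4, b5⟩ := ihr hr A hrr k
          have hyd : (Tr.nd (Sum.inl A) (Tr.lf (Sum.inr i) (some (Sum.inr i))) r).yd =
            Sum.inr i :: r.yd := rfl
          have hmem : ∀ (i' : Bool) (j : ℤ), (Sum.inr i', j) ∈ cw βm (Sum.inr i :: r.yd) k →
              (Sum.inr i', j) ∈ cw βm r.yd k ∨ (i' = i ∧ j = k) := by
            intro i' j hj
            rw [cw] at hj
            change _ ∈ (Sum.inr i, k) ::ₘ cw βm r.yd (k + 0) at hj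
            rw [add_zero, Multiset.mem_cons] at hj
            rcases hj with hj | hj
            · right
              simpa using hj
            · exact Or.inl hj
          refine ⟨tr, b1, b2, ?_, ?_, ?_⟩
          · rw [hyd]
            exact b3
          · intro j hj
            rw [hyd] at hj
            rcases hmem false j hj with hj | ⟨rfl, rfl⟩
            · exact b4 j hj
            · simp only [Bool.false_eq_true, if_false] at hc
              obtain ⟨rfl, rfl⟩ := hc
              have := mem_Labs_root β tr j
              rw [b2] at this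
              simpa using this
          · intro j hj
            rw [hyd] at hj
            rcases hmem true j hj with hj | ⟨rfl, rfl⟩
            · exact b5 j hj
            · simp only [if_true] at hc
              obtain ⟨rfl, rfl⟩ := hc
              have := mem_Labs_root β tr j
              rw [b2] at this
              simpa using this
    · rw [hlr, hrr] at hb
      exact absurd hb (fun h => h)

end NSI
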