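import Pool.Agent.Lib.NSI.LDefs
import Pool.Agent.Lib.NSI.T11

/-!
# L09 : an automaton for `Cover` on marked words

A marked word: letters, and the markers `inr false` (index `s1`) and `inr true` (index `s2`), both
once, both before `mid`.

Recipe.  `Cover w j s1 s2` holds iff the last row letter of parity `j` before the first marker
exists and is not halting and there is no row letter of parity `j` between the two markers (the
parity alternates; a non-halting row is never the last one).  States: last row letter of parity `j`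
seen so far: none / not halting / halting; set of the markers seen; verdict; after the second marker
the verdict is frozen.  Accept: both markers seen (each exactly once, before `mid`) and `mid` seen
and verdict `false`, i.e. the automaton accepts the words with both markers before `mid` for which
`Cover` is FALSE.  The statement gives exactly the equivalence that is needed.
(The index of a marker is the number of row letters before it: before `mid` only left letters occur.)
-/

set_option autoImplicit false

namespace NSI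


private abbrev L09_A : Type := Option (Bool × Bool)
private abbrev L09_S : Type := L09_A × L09_A × Bool × Bool × Bool
private abbrev L09_St : Type := L09_S ⊕ Bool

private def L09_upd (i : Bool) (m : L09_A) : L09_A := m.map (fun t => (t.1 || !i, t.2 || i))

/-- state before `mid`: window starting at the last row letter, window starting at the row letter
before it (markers seen inside), a window with both markers has been seen, markers seen -/
private def L09_step (𝓜 : Mach) (j : Bool) : L09_St → (Lt 𝓜.Q ⊕ Bool) → L09_St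
  | .inr q, _ => .inr q
  | .inl s, .inl (.row q π) =>
      .inl (if π = j ∧ q ≠ 𝓜.qh then some (false, false) else none, s.1, s.2.2)
  | .inl s, .inl .mid => .inr (s.2.2.2.1 && s.2.2.2.2 && !s.2.2.1)
  | .inl s, .inl _ => .inl s
  | .inl s, .inr i => .inl (L09_upd i s.1, L09_upd i s.2.1,
      s.2.2.1 || decide (L09_upd i s.1 = some (true, true)) ||
        decide (L09_upd i s.2.1 = some (true, true)), s.2.2.2.1 || !i, s.2.2.2.2 || i)

section
variable {Q : ℕ}

private def L09_rl : Lt Q ⊕ Bool → Option (Fin Q × Bool)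
  | .inl (.row q π) => some (q, π)
  | _ => none

/-- the row letters -/
private def L09_rws (x : List (Lt Q ⊕ Bool)) : List (Fin Q × Bool) := x.filterMap L09_rl

private def L09_P (i : Bool) (x : List (Lt Q ⊕ Bool)) (k : ℕ) : Prop :=
  ∃ u v, x = u ++ Sum.inr i :: v ∧ (L09_rws u).length = k

private theorem L09_P_snoc (i : Bool) (x : List (Lt Q ⊕ Bool)) (l : Lt Q ⊕ Bool) (k : ℕ) :
    L09_P i (x ++ [l]) k ↔ L09_P i x k ∨ (l = Sum.inr i ∧ (L09_rws x).length = k) := by
  constructor
  · rintro ⟨u, v, h, hk⟩
    rcases List.eq_nil_or_concat v with rfl | ⟨v', a, rfl⟩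
    · obtain ⟨h1, h2⟩ := List.append_inj' h rfl
      right
      simp only [List.cons.injEq, and_true] at h2
      subst h1
      exact ⟨h2, hk⟩
    · left
      rw [List.concat_eq_append, ← List.cons_append, ← List.append_assoc] at h
      obtain ⟨h1, h2⟩ := List.append_inj' h rfl
      exact ⟨u, v', h1, hk⟩
  · rintro (⟨u, v, rfl, hk⟩ | ⟨rfl, hk⟩)
    · exact ⟨u, v ++ [l], by simp, hk⟩
    · exact ⟨x, [], rfl, hk⟩

private theorem L09_P_le {i : Bool} {x : List (Lt Q ⊕ Bool)} {k : ℕ} (h : L09_P i x k) :
    k ≤ (L09_rws x).length := by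
  obtain ⟨u, v, rfl, rfl⟩ := h
  simp [L09_rws, List.filterMap_append]

private theorem L09_rws_append (x y : List (Lt Q ⊕ Bool)) :
    L09_rws (x ++ y) = L09_rws x ++ L09_rws y := by
  simp [L09_rws, List.filterMap_append]

/-- row `p` exists, has parity `j` and is not halting -/
private def L09_G (qh : Fin Q) (j : Bool) (x : List (Lt Q ⊕ Bool)) (p : ℕ) : Prop :=
  ∃ c, (L09_rws x)[p]? = some c ∧ c.2 = j ∧ c.1 ≠ qh

private def L09_C (qh : Fin Q) (j : Bool) (x : List (Lt Q ⊕ Bool)) : Prop :=
  ∃ p, L09_G qh j x p ∧ (L09_P false x (p + 1) ∨ L09_P false x (p + 2)) ∧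
    (L09_P true x (p + 1) ∨ L09_P true x (p + 2))

open Classical in
private noncomputable def L09_a (qh : Fin Q) (j : Bool) (x : List (Lt Q ⊕ Bool)) : L09_A :=
  if 1 ≤ (L09_rws x).length ∧ L09_G qh j x ((L09_rws x).length - 1) then
    some (decide (L09_P false x (L09_rws x).length), decide (L09_P true x (L09_rws x).length))
  else none

open Classical in
private noncomputable def L09_b (qh : Fin Q) (j : Bool) (x : List (Lt Q ⊕ Bool)) : L09_A :=
  if 2 ≤ (L09_rws x).length ∧ L09_G qh j x ((L09_rws x).length - 2) then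
    some (decide (L09_P false x ((L09_rws x).length - 1) ∨ L09_P false x (L09_rws x).length),
      decide (L09_P true x ((L09_rws x).length - 1) ∨ L09_P true x (L09_rws x).length))
  else none

open Classical in
private noncomputable def L09_Phi (qh : Fin Q) (j : Bool) (x : List (Lt Q ⊕ Bool)) : L09_S :=
  (L09_a qh j x, L09_b qh j x, decide (L09_C qh j x), decide (∃ k, L09_P false x k),
    decide (∃ k, L09_P true x k))

/-- a letter which is neither a row letter nor a marker changes nothing -/
private theorem L09_Phi_other (qh : Fin Q) (j : Bool) (x : List (Lt Q ⊕ Bool)) (l : Lt Q ⊕ Bool)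
    (h1 : L09_rl l = none) (h2 : ∀ i, l ≠ Sum.inr i) :
    L09_Phi qh j (x ++ [l]) = L09_Phi qh j x := by
  classical
  have hr : L09_rws (x ++ [l]) = L09_rws x := by
    rw [L09_rws_append]
    simp [L09_rws, h1]
  have hP : ∀ i k, L09_P i (x ++ [l]) k ↔ L09_P i x k := by
    intro i k
    rw [L09_P_snoc]
    simp [h2 i]
  have hG : ∀ p, L09_G qh j (x ++ [l]) p ↔ L09_G qh j x p := by
    intro p
    simp [L09_G, hr]
  have ha : L09_a qh j (x ++ [l]) = L09_a qh j x := by
    unfold L09_a
    rw [hr]
    simp only [hP, hG]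
  have hb : L09_b qh j (x ++ [l]) = L09_b qh j x := by
    unfold L09_b
    rw [hr]
    simp only [hP, hG]
  have hC : L09_C qh j (x ++ [l]) ↔ L09_C qh j x := by
    unfold L09_C
    simp only [hP, hG]
  simp only [L09_Phi, ha, hb, hC, hP]

private theorem L09_Phi_row (qh : Fin Q) (j : Bool) (x : List (Lt Q ⊕ Bool)) (q : Fin Q) (π : Bool) :
    L09_Phi qh j (x ++ [Sum.inl (Lt.row q π)]) =
      (if π = j ∧ q ≠ qh then some (false, false) else none, (L09_Phi qh j x).1,
        (L09_Phi qh j x).2.2) := by
  classical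
  have hr : L09_rws (x ++ [Sum.inl (Lt.row q π)]) = L09_rws x ++ [(q, π)] := by
    rw [L09_rws_append]
    simp [L09_rws, L09_rl]
  have hP : ∀ i k, L09_P i (x ++ [Sum.inl (Lt.row q π)]) k ↔ L09_P i x k := by
    intro i k
    rw [L09_P_snoc]
    simp
  have hG1 : ∀ p, p < (L09_rws x).length →
      (L09_G qh j (x ++ [Sum.inl (Lt.row q π)]) p ↔ L09_G qh j x p) := by
    intro p hp
    simp only [L09_G, hr]
    rw [List.getElem?_append_left hp]
  have hG2 : L09_G qh j (x ++ [Sum.inl (Lt.row q π)]) (L09_rws x).length ↔ (π = j ∧ q ≠ qh) := by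
    simp only [L09_G, hr]
    rw [List.getElem?_append_right (le_refl _)]
    simp
  have hG3 : ∀ p, (L09_rws x).length < p → ¬ L09_G qh j (x ++ [Sum.inl (Lt.row q π)]) p := by
    rintro p hp ⟨c, hc, -⟩
    rw [hr, List.getElem?_eq_none (by simp; omega)] at hc
    simp at hc
  have hPf : ∀ i k, (L09_rws x).length < k → ¬ L09_P i x k := by
    intro i k hk h
    exact absurd (L09_P_le h) (by omega)
  have hlen : (L09_rws (x ++ [Sum.inl (Lt.row q π)])).length = (L09_rws x).length + 1 := by
    rw [hr]; simp
  have ha : L09_a qh j (x ++ [Sum.inl (Lt.row q π)]) =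
      if π = j ∧ q ≠ qh then some (false, false) else none := by
    unfold L09_a
    rw [hlen]
    simp only [Nat.add_sub_cancel, hG2, hP, hPf _ _ (Nat.lt_succ_self _), decide_false]
    simp
  have hb : L09_b qh j (x ++ [Sum.inl (Lt.row q π)]) = L09_a qh j x := by
    unfold L09_b L09_a
    rw [hlen]
    simp only [hP, hPf _ _ (Nat.lt_succ_self _), or_false, Nat.add_sub_cancel]
    rcases Nat.eq_zero_or_pos (L09_rws x).length with h0 | h0
    · rw [if_neg (by omega), if_neg (by omega)]
    · have h1 : (L09_rws x).length + 1 - 2 = (L09_rws x).length - 1 := by omega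
      have e1 : 2 ≤ (L09_rws x).length + 1 := by omega
      have e2 : 1 ≤ (L09_rws x).length := by omega
      simp only [h1, hG1 _ (show (L09_rws x).length - 1 < (L09_rws x).length by omega), e1, e2,
        true_and]
  have hC : L09_C qh j (x ++ [Sum.inl (Lt.row q π)]) ↔ L09_C qh j x := by
    simp only [L09_C, hP]
    constructor
    · rintro ⟨p, h1, h2, h3⟩
      rcases Nat.lt_or_ge p (L09_rws x).length with hp | hp
      · exact ⟨p, (hG1 p hp).1 h1, h2, h3⟩
      · exfalso
        rcases h2 with h2 | h2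
        · exact hPf _ _ (by omega) h2
        · exact hPf _ _ (by omega) h2
    · rintro ⟨p, h1, h2, h3⟩
      refine ⟨p, (hG1 p ?_).2 h1, h2, h3⟩
      obtain ⟨c, hc, -⟩ := h1
      by_contra hp
      rw [List.getElem?_eq_none (by omega)] at hc
      simp at hc
  simp only [L09_Phi, ha, hb, hC, hP]

private theorem L09_Phi_mark (qh : Fin Q) (j : Bool) (x : List (Lt Q ⊕ Bool)) (i : Bool) :
    L09_Phi qh j (x ++ [Sum.inr i]) =
      (L09_upd i (L09_Phi qh j x).1, L09_upd i (L09_Phi qh j x).2.1,
        (L09_Phi qh j x).2.2.1 || decide (L09_upd i (L09_Phi qh j x).1 = some (true, true)) ||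
        decide (L09_upd i (L09_Phi qh j x).2.1 = some (true, true)),
        (L09_Phi qh j x).2.2.2.1 || !i, (L09_Phi qh j x).2.2.2.2 || i) := by
  classical
  have hr : L09_rws (x ++ [Sum.inr i]) = L09_rws x := by
    rw [L09_rws_append]
    simp [L09_rws, L09_rl]
  have hP : ∀ i' k, L09_P i' (x ++ [Sum.inr i]) k ↔
      L09_P i' x k ∨ (i = i' ∧ (L09_rws x).length = k) := by
    intro i' k
    rw [L09_P_snoc]
    simp
  have hG : ∀ p, L09_G qh j (x ++ [Sum.inr i]) p ↔ L09_G qh j x p := by
    intro p
    simp [L09_G, hr]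
  have hPf : ∀ i k, (L09_rws x).length < k → ¬ L09_P i x k := by
    intro i k hk h
    exact absurd (L09_P_le h) (by omega)
  have ha : L09_a qh j (x ++ [Sum.inr i]) = L09_upd i (L09_a qh j x) := by
    unfold L09_a L09_upd
    rw [hr]
    simp only [hG, hP]
    split_ifs with h
    · cases i <;> simp
    · rfl
  have hb : L09_b qh j (x ++ [Sum.inr i]) = L09_upd i (L09_b qh j x) := by
    unfold L09_b L09_upd
    rw [hr]
    simp only [hG, hP]
    split_ifs with h
    · cases i <;> simp
    · rfl
  have hC : L09_C qh j (x ++ [Sum.inr i]) ↔ (L09_C qh j x ∨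
      L09_a qh j (x ++ [Sum.inr i]) = some (true, true) ∨
      L09_b qh j (x ++ [Sum.inr i]) = some (true, true)) := by
    constructor
    · rintro ⟨p, h1, h2, h3⟩
      by_cases hp1 : p + 1 = (L09_rws x).length
      · right; left
        unfold L09_a
        rw [hr, ← hp1, if_pos ⟨by omega, by simpa using h1⟩]
        have e2 : ∀ i', ¬ L09_P i' (x ++ [Sum.inr i]) (p + 2) := by
          intro i' h
          have := L09_P_le h
          rw [hr] at this
          omega
        rcases h2 with h2 | h2
        · rcases h3 with h3 | h3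
          · simp [h2, h3]
          · exact absurd h3 (e2 _)
        · exact absurd h2 (e2 _)
      · by_cases hp2 : p + 2 = (L09_rws x).length
        · right; right
          unfold L09_b
          rw [hr, ← hp2, if_pos ⟨by omega, by simpa using h1⟩]
          have e : p + 2 - 1 = p + 1 := by omega
          rw [e]
          simp [h2, h3]
        · left
          refine ⟨p, (hG p).1 h1, ?_, ?_⟩
          · rcases h2 with h2 | h2
            · rcases (hP _ _).1 h2 with h2 | h2
              · exact Or.inl h2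
              · exact absurd h2.2.symm hp1
            · rcases (hP _ _).1 h2 with h2 | h2
              · exact Or.inr h2
              · exact absurd h2.2.symm hp2
          · rcases h3 with h2 | h2
            · rcases (hP _ _).1 h2 with h2 | h2
              · exact Or.inl h2
              · exact absurd h2.2.symm hp1
            · rcases (hP _ _).1 h2 with h2 | h2
              · exact Or.inr h2
              · exact absurd h2.2.symm hp2
    · rintro (⟨p, h1, h2, h3⟩ | h | h)
      · exact ⟨p, (hG p).2 h1, h2.imp (fun h => (hP _ _).2 (Or.inl h)) (fun h => (hP _ _).2 (Or.inl h)),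
          h3.imp (fun h => (hP _ _).2 (Or.inl h)) (fun h => (hP _ _).2 (Or.inl h))⟩
      · unfold L09_a at h
        rw [hr] at h
        split_ifs at h with hc
        simp only [Option.some.injEq, Prod.mk.injEq, decide_eq_true_eq] at h
        have e : (L09_rws x).length - 1 + 1 = (L09_rws x).length := by omega
        refine ⟨(L09_rws x).length - 1, hc.2, Or.inl ?_, Or.inl ?_⟩
        · rw [e]; exact h.1
        · rw [e]; exact h.2
      · unfold L09_b at h
        rw [hr] at h
        split_ifs at h with hc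
        simp only [Option.some.injEq, Prod.mk.injEq, decide_eq_true_eq] at h
        have e : (L09_rws x).length - 2 + 1 = (L09_rws x).length - 1 := by omega
        have e' : (L09_rws x).length - 2 + 2 = (L09_rws x).length := by omega
        refine ⟨(L09_rws x).length - 2, hc.2, ?_, ?_⟩
        · rw [e, e']; exact h.1
        · rw [e, e']; exact h.2
  simp only [L09_Phi]
  refine Prod.ext ha (Prod.ext hb (Prod.ext ?_ (Prod.ext ?_ ?_)))
  · show decide (L09_C qh j (x ++ [Sum.inr i])) = (decide (L09_C qh j x) ||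
      decide (L09_upd i (L09_a qh j x) = some (true, true)) ||
      decide (L09_upd i (L09_b qh j x) = some (true, true)))
    rw [Bool.eq_iff_iff]
    simp only [decide_eq_true_eq, Bool.or_eq_true, hC, ha, hb]
    tauto
  · show decide (∃ k, L09_P false (x ++ [Sum.inr i]) k) = (decide (∃ k, L09_P false x k) || !i)
    rw [Bool.eq_iff_iff]
    simp only [decide_eq_true_eq, Bool.or_eq_true, hP]
    cases i
    · simp only [true_and, Bool.not_false, or_true, iff_true]
      exact ⟨_, Or.inr rfl⟩
    · simp
  · show decide (∃ k, L09_P true (x ++ [Sum.inr i]) k) = (decide (∃ k, L09_P true x k) || i)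
    rw [Bool.eq_iff_iff]
    simp only [decide_eq_true_eq, Bool.or_eq_true, hP]
    cases i
    · simp
    · simp only [true_and, or_true, iff_true]
      exact ⟨_, Or.inr rfl⟩

end

private theorem L09_foldl (𝓜 : Mach) (j : Bool) (x : List (Lt 𝓜.Q ⊕ Bool))
    (hx : ∀ l ∈ x, l ≠ Sum.inl Lt.mid) :
    x.foldl (L09_step 𝓜 j) (Sum.inl (none, none, false, false, false)) =
      Sum.inl (L09_Phi 𝓜.qh j x) := by
  induction x using List.reverseRecOn with
  | nil =>
    have h1 : ∀ i k, ¬ L09_P i ([] : List (Lt 𝓜.Q ⊕ Bool)) k := by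
      rintro i k ⟨u, v, h, -⟩
      simp at h
    simp [L09_Phi, L09_a, L09_b, L09_C, h1, L09_rws]
  | append_singleton x l ih =>
    have hx' : ∀ l ∈ x, l ≠ Sum.inl Lt.mid := fun l hl => hx l (by simp [hl])
    have hl : l ≠ Sum.inl Lt.mid := hx l (by simp)
    rw [List.foldl_append, ih hx', List.foldl_cons, List.foldl_nil]
    rcases l with l | i
    · cases l with
      | row q π => rw [L09_Phi_row]; rfl
      | mid => exact absurd rfl hl
      | one => rw [L09_Phi_other _ _ _ _ rfl (by simp)]; rfl
      | a => rw [L09_Phi_other _ _ _ _ rfl (by simp)]; rfl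
      | b => rw [L09_Phi_other _ _ _ _ rfl (by simp)]; rfl
      | one' => rw [L09_Phi_other _ _ _ _ rfl (by simp)]; rfl
      | row' q π => rw [L09_Phi_other _ _ _ _ rfl (by simp)]; rfl
    · rw [L09_Phi_mark]; rfl

private theorem L09_foldl_inr (𝓜 : Mach) (j : Bool) (x : List (Lt 𝓜.Q ⊕ Bool)) (q : Bool) :
    x.foldl (L09_step 𝓜 j) (Sum.inr q) = Sum.inr q := by
  induction x with
  | nil => rfl
  | cons l x ih => rw [List.foldl_cons]; exact ih

private theorem L09_erw_append {Q : ℕ} (x y : List (Lt Q ⊕ Bool)) : erw (x ++ y) = erw x ++ erw y := by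
  simp [erw, List.filterMap_append]

private theorem L09_split {Q : ℕ} {A B : List (Lt Q)} {w w' : List (Row Q)} {n m : ℕ}
    (h : A ++ Lt.mid :: B = enc w n m w') : A = encL w ++ List.replicate n Lt.a ∧
      B = List.replicate m Lt.b ++ encR w' := by
  have h1 : (encL w ++ List.replicate n Lt.a) ++ Lt.mid :: (List.replicate m Lt.b ++ encR w') =
      A ++ Lt.mid :: B := by
    rw [h]; simp [enc]
  have hA : Lt.mid ∉ encL w ++ List.replicate n Lt.a := by
    intro hm
    rcases List.mem_append.1 hm with hm | hm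
    · rcases mem_encL hm with hm | ⟨q, π, hm⟩ <;> simp at hm
    · have := List.eq_of_mem_replicate hm
      simp at this
  have hB : Lt.mid ∉ List.replicate m Lt.b ++ encR w' := by
    intro hm
    rcases List.mem_append.1 hm with hm | hm
    · have := List.eq_of_mem_replicate hm
      simp at this
    · rcases mem_encR hm with hm | ⟨q, π, hm⟩ <;> simp at hm
  obtain ⟨h2, -, h3⟩ := (List.append_cons_inj_of_notMem hA hB).1 h1
  exact ⟨h2.symm, h3.symm⟩

private theorem L09_rws_erw {Q : ℕ} (x : List (Lt Q ⊕ Bool)) :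
    L09_rws x = (erw x).filterMap (fun l => L09_rl (Sum.inl l)) := by
  rw [L09_rws, erw, List.filterMap_filterMap]
  congr 1
  funext l
  rcases l with l | i <;> rfl

private theorem L09_rws_encL {Q : ℕ} (w : List (Row Q)) :
    (encL w).filterMap (fun l => L09_rl (Sum.inl l)) = w.map Prod.fst := by
  induction w with
  | nil => rfl
  | cons r w ih =>
    have h1 : (List.replicate r.2 (Lt.one : Lt Q)).filterMap
        (fun l => L09_rl (Sum.inl l)) = [] := by
      rw [List.filterMap_eq_nil_iff]
      intro l hl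
      rw [List.eq_of_mem_replicate hl]
      rfl
    have h2 : L09_rl (Sum.inl (Lt.row r.1.1 r.1.2)) = some r.1 := rfl
    rw [encL, rl, List.cons_append, List.filterMap_cons_some (f := fun l => L09_rl (Sum.inl l)) h2, List.filterMap_append, h1, ih]
    rfl

/-- indices before `mid` -/
private theorem L09_wt {Q : ℕ} (u : List (Lt Q ⊕ Bool))
    (hu : ∀ l ∈ erw u, l = Lt.one ∨ l = Lt.a ∨ ∃ q π, l = Lt.row q π) :
    wt βm u = (L09_rws u).length := by
  induction u with
  | nil => simp [L09_rws]
  | cons l u ih =>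
    have h1 : wt βm u = (L09_rws u).length := ih (fun a ha => hu a (by
      rcases l with l | i
      · simp only [erw, List.filterMap_cons, Sum.getLeft?_inl] at ha ⊢
        exact List.mem_cons_of_mem _ ha
      · simpa only [erw, List.filterMap_cons, Sum.getLeft?_inr] using ha))
    rw [wt_cons, h1]
    rcases l with l | i
    · have h2 := hu l (by simp [erw])
      rcases h2 with rfl | rfl | ⟨q, π, rfl⟩
      · simp [βm, β, L09_rws, L09_rl]
      · simp [βm, β, L09_rws, L09_rl]
      · simp [βm, β, L09_rws, L09_rl]; ring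
    · simp [βm, L09_rws, L09_rl]

private theorem L09_mem_cw {Q : ℕ} (x : List (Lt Q ⊕ Bool)) (l : Lt Q ⊕ Bool) (s k : ℤ) :
    (l, s) ∈ cw βm x k ↔ ∃ u v, x = u ++ l :: v ∧ s = k + wt βm u := by
  induction x generalizing k with
  | nil => simp [cw]
  | cons a x ih =>
    simp only [cw, Multiset.mem_cons, Prod.mk.injEq, ih]
    constructor
    · rintro (⟨rfl, rfl⟩ | ⟨u, v, rfl, rfl⟩)
      · exact ⟨[], x, rfl, by simp⟩
      · exact ⟨a :: u, v, rfl, by rw [wt_cons]; ring⟩
    · rintro ⟨u, v, h, rfl⟩
      cases u with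
      | nil =>
        simp only [List.nil_append, List.cons.injEq] at h
        exact Or.inl ⟨h.1.symm, by simp⟩
      | cons b u =>
        simp only [List.cons_append, List.cons.injEq] at h
        obtain ⟨rfl, rfl⟩ := h
        exact Or.inr ⟨u, v, rfl, by rw [wt_cons]; ring⟩

private theorem L09_lawful (Q : ℕ) : LawfulBEq (Lt Q ⊕ Bool) where
  eq_of_beq := by
    intro a b h
    rcases a with a | a <;> rcases b with b | b
    · have h' : (a == b) = true := h
      rw [eq_of_beq h']
    · exact (Bool.false_ne_true h).elim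
    · exact (Bool.false_ne_true h).elim
    · have h' : (a == b) = true := h
      rw [eq_of_beq h']
  rfl := by
    intro a
    rcases a with a | a
    · exact (beq_self_eq_true a : _)
    · exact (beq_self_eq_true a : _)

/-- markers with multiplicity one -/
private theorem L09_unique {Q : ℕ} {x u v u' v' : List (Lt Q ⊕ Bool)} {l : Lt Q ⊕ Bool}
    (h : x.count l = 1) (h1 : x = u ++ l :: v) (h2 : x = u' ++ l :: v') : u = u' ∧ v = v' := by
  have := L09_lawful Q
  subst h1
  rw [List.count_append, List.count_cons_self] at h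
  have hu : l ∉ u := List.count_eq_zero.1 (by omega)
  have hv : l ∉ v := List.count_eq_zero.1 (by omega)
  obtain ⟨h3, -, h4⟩ := (List.append_cons_inj_of_notMem hu hv).1 h2
  exact ⟨h3, h4⟩

theorem cover_dfa (𝓜 : Mach) (j : Bool) : ∃ (St : Type) (_ : Fintype St)
    (D : DFA (Lt 𝓜.Q ⊕ Bool) St), ∀ (z : List (Lt 𝓜.Q ⊕ Bool)) (E : ℕ) (w w' : List (Row 𝓜.Q))
    (n m : ℕ), erw z = enc w n m w' → w.length = w'.length → FF 𝓜 E w →
    z.count (Sum.inr false) = 1 → z.count (Sum.inr true) = 1 →
    (z ∈ D.accepts ↔ ∃ (x y : List (Lt 𝓜.Q ⊕ Bool)) (s1 s2 : ℤ), z = x ++ Sum.inl Lt.mid :: y ∧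
      Sum.inr false ∈ x ∧ Sum.inr true ∈ x ∧
      (Sum.inr false, s1) ∈ cw βm z 0 ∧ (Sum.inr true, s2) ∈ cw βm z 0 ∧
      ¬ Cover 𝓜 w j s1 s2) := by
  classical
  refine ⟨L09_St, inferInstance, ⟨L09_step 𝓜 j, Sum.inl (none, none, false, false, false),
    {Sum.inr true}⟩, ?_⟩
  intro z E w w' n m hz hlen hF hc1 hc2
  -- facts for a decomposition at mid
  have key : ∀ x y, z = x ++ Sum.inl Lt.mid :: y →
      (z ∈ (⟨L09_step 𝓜 j, Sum.inl (none, none, false, false, false),
        {Sum.inr true}⟩ : DFA (Lt 𝓜.Q ⊕ Bool) L09_St).accepts ↔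
        (∃ k, L09_P false x k) ∧ (∃ k, L09_P true x k) ∧ ¬ L09_C 𝓜.qh j x) ∧
      (L09_rws x = w.map Prod.fst) ∧
      (∀ u v, x = u ++ v → wt βm u = (L09_rws u).length) := by
    intro x y hxy
    have h1 : erw x ++ Lt.mid :: erw y = enc w n m w' := by
      rw [← hz, hxy, L09_erw_append]
      simp [erw]
    obtain ⟨hx, hy⟩ := L09_split h1
    have hlet : ∀ l ∈ erw x, l = Lt.one ∨ l = Lt.a ∨ ∃ q π, l = Lt.row q π := by
      intro l hl
      rw [hx] at hl
      rcases List.mem_append.1 hl with hl | hl
      · rcases mem_encL hl with hl | hl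
        · exact Or.inl hl
        · exact Or.inr (Or.inr hl)
      · exact Or.inr (Or.inl (List.eq_of_mem_replicate hl))
    have hmid : ∀ l ∈ x, l ≠ Sum.inl Lt.mid := by
      rintro l hl rfl
      have : Lt.mid ∈ erw x := by
        simp only [erw, List.mem_filterMap]
        exact ⟨_, hl, rfl⟩
      rcases hlet _ this with h | h | ⟨q, π, h⟩ <;> simp at h
    refine ⟨?_, ?_, ?_⟩
    · rw [DFA.mem_accepts, DFA.eval, DFA.evalFrom]
      show List.foldl (L09_step 𝓜 j) (Sum.inl (none, none, false, false, false)) z ∈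
        ({Sum.inr true} : Set L09_St) ↔ _
      rw [hxy, List.foldl_append, L09_foldl 𝓜 j x hmid, List.foldl_cons]
      have h2 : L09_step 𝓜 j (Sum.inl (L09_Phi 𝓜.qh j x)) (Sum.inl Lt.mid) =
          Sum.inr ((L09_Phi 𝓜.qh j x).2.2.2.1 && (L09_Phi 𝓜.qh j x).2.2.2.2 &&
            !(L09_Phi 𝓜.qh j x).2.2.1) := rfl
      rw [h2, L09_foldl_inr]
      simp only [Set.mem_singleton_iff, Sum.inr.injEq, L09_Phi, Bool.and_eq_true,
        decide_eq_true_eq, Bool.not_eq_true', decide_eq_false_iff_not, and_assoc]
    · rw [L09_rws_erw, hx, List.filterMap_append, L09_rws_encL]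
      have : (List.replicate n (Lt.a : Lt 𝓜.Q)).filterMap (fun l => L09_rl (Sum.inl l)) = [] := by
        rw [List.filterMap_eq_nil_iff]
        intro a ha
        rw [List.eq_of_mem_replicate ha]
        rfl
      rw [this, List.append_nil]
    · intro u v huv
      apply L09_wt
      intro l hl
      apply hlet
      rw [huv, L09_erw_append]
      exact List.mem_append_left _ hl
  -- Cover in terms of the marked word
  have cov : ∀ x, (L09_rws x = w.map Prod.fst) → ∀ k1 k2 : ℕ,
      (∀ k, L09_P false x k ↔ k = k1) → (∀ k, L09_P true x k ↔ k = k2) →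
      (L09_C 𝓜.qh j x ↔ Cover 𝓜 w j k1 k2) := by
    intro x hx k1 k2 h1 h2
    constructor
    · rintro ⟨p, ⟨c, hc, hj, hq⟩, h3, h4⟩
      rw [hx, List.getElem?_map, Option.map_eq_some_iff] at hc
      obtain ⟨r, hr, rfl⟩ := hc
      refine ⟨p, r, hr, hj, hq, ?_, ?_⟩
      · rw [h1, h1] at h3
        rcases h3 with h3 | h3
        · left; rw [← h3]; push_cast; ring
        · right; rw [← h3]; push_cast; ring
      · rw [h2, h2] at h4
        rcases h4 with h3 | h3
        · left; rw [← h3]; push_cast; ring
        · right; rw [← h3]; push_cast; ring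
    · rintro ⟨p, r, hr, hj, hq, h3, h4⟩
      refine ⟨p, ⟨r.1, ?_, hj, hq⟩, ?_, ?_⟩
      · rw [hx, List.getElem?_map, hr]
        rfl
      · rw [h1, h1]
        omega
      · rw [h2, h2]
        omega
  -- markers
  have mark : ∀ (i : Bool) x y, z = x ++ Sum.inl Lt.mid :: y → z.count (Sum.inr i) = 1 →
      (∀ u v, x = u ++ v → wt βm u = (L09_rws u).length) → ∀ u v, x = u ++ Sum.inr i :: v →
      (∀ k, L09_P i x k ↔ k = (L09_rws u).length) ∧
      (∀ s : ℤ, (Sum.inr i, s) ∈ cw βm z 0 ↔ s = ((L09_rws u).length : ℤ)) := by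
    intro i x y hxy hc hwt u v huv
    have hzz : z = u ++ Sum.inr i :: (v ++ Sum.inl Lt.mid :: y) := by
      rw [hxy, huv]; simp
    constructor
    · intro k
      constructor
      · rintro ⟨u', v', hu', rfl⟩
        have hz' : z = u' ++ Sum.inr i :: (v' ++ Sum.inl Lt.mid :: y) := by
          rw [hxy, hu']; simp
        rw [(L09_unique hc hzz hz').1]
      · rintro rfl
        exact ⟨u, v, huv, rfl⟩
    · intro s
      rw [L09_mem_cw]
      constructor
      · rintro ⟨u', v', hu', rfl⟩
        rw [← (L09_unique hc hzz hu').1, hwt u (Sum.inr i :: v) huv]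
        ring
      · rintro rfl
        exact ⟨u, _, hzz, by rw [hwt u (Sum.inr i :: v) huv]; ring⟩
  constructor
  · intro hacc
    have hm : Lt.mid ∈ erw z := by
      rw [hz]; simp [enc]
    simp only [erw, List.mem_filterMap] at hm
    obtain ⟨l, hl, hl2⟩ := hm
    have hl3 : l = Sum.inl Lt.mid := by
      rcases l with l | i
      · simpa using hl2
      · simp at hl2
    subst hl3
    obtain ⟨x, y, hxy⟩ := List.append_of_mem hl
    obtain ⟨h1, h2, h3⟩ := key x y hxy
    obtain ⟨⟨k1, u1, v1, hu1, rfl⟩, ⟨k2, u2, v2, hu2, rfl⟩, hC⟩ := h1.1 hacc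
    obtain ⟨a1, a2⟩ := mark false x y hxy hc1 h3 u1 v1 hu1
    obtain ⟨b1, b2⟩ := mark true x y hxy hc2 h3 u2 v2 hu2
    refine ⟨x, y, ((L09_rws u1).length : ℤ), ((L09_rws u2).length : ℤ), hxy, ?_, ?_, (a2 _).2 rfl,
      (b2 _).2 rfl, ?_⟩
    · rw [hu1]; simp
    · rw [hu2]; simp
    · rw [← cov x h2 _ _ a1 b1]
      exact hC
  · rintro ⟨x, y, s1, s2, hxy, hm1, hm2, hs1, hs2, hC⟩
    obtain ⟨h1, h2, h3⟩ := key x y hxy
    obtain ⟨u1, v1, hu1⟩ := List.append_of_mem hm1
    obtain ⟨u2, v2, hu2⟩ := List.append_of_mem hm2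
    obtain ⟨a1, a2⟩ := mark false x y hxy hc1 h3 u1 v1 hu1
    obtain ⟨b1, b2⟩ := mark true x y hxy hc2 h3 u2 v2 hu2
    rw [h1]
    refine ⟨⟨_, u1, v1, hu1, rfl⟩, ⟨_, u2, v2, hu2, rfl⟩, ?_⟩
    rw [cov x h2 _ _ a1 b1, ← (a2 s1).1 hs1, ← (b2 s2).1 hs2]
    exact hC

end NSI
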