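import Pool.Agent.Lib.NSI.L09
import Pool.Agent.Lib.NSI.L08
import Pool.Agent.Lib.NSI.L07

/-!
# L10 : a short tree with two heavy cycles outside a common window

`R` is a set of parities; the property `Cover` fails for the parities in `R` before and after.

Recipe.  Let `(A1, k1), d1, s1` be heavy: `hv` gives a letter `1` at index `s1` in `eff`, so either
`Lt.one ∈ d1.yl` and `s1 = k1` (put `b1 = false`) or `Lt.one ∈ d1.yr` and `s1 = k1 + ω A1`
(`b1 = true`); same for the second.  Marked tree `t'` (T11, `mk_exists`) with markers on these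
sides: the marker `inr false` has index `s1`, `inr true` index `s2`.  The markers are before `mid`:
at the level of contexts: `t = c.plug s` with `s.root = A1`; inserting `d1` gives a coded word
(`face_word`) that contains a letter `1` at the place of the marker, and in a coded word all letters
`1` are before `mid`; so `mid ∈ s.yd` or `mid ∈ c.yr` if `b1 = false`, and `mid ∈ c.yr` if
`b1 = true`.  (It may be easier to extend the statement of `mk_exists` by the position of the
marker; if so, tell helper91.)  The word of `t'` satisfies the right-hand side of `cover_dfa` for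
all `j` in `R`; for `j` not in `R` forget the automaton.  If `R` is empty one still has to remember
that the markers are before `mid`: add a 3-state automaton for this, or note that `hv` of the
reduced tree does not need it: the labels and `hv` only depend on the indices.
Apply `reduce` (T01) to `t'` and the marked grammar with
`X = (St → St) × (St' → St') × ℕ × ℕ × ℕ × ℕ` (transformations of the automata of L09 for
`j = false, true`, numbers of `a`, `b`, of the two markers); the numbers are bounded by `D s` resp.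
`1` for all subtrees.  The reduced tree has the same root value: same `n, m`, one marker each, and
it is accepted by the same automata.  `mk_erase` gives the tree `t1` without markers, with the
labels `(A1, k1')`, `(A2, k2')`, where `s1' = k1'` or `k1' + ω A1` is the index of the marker; `hv` is
invariant under the shift of `k` and `s`.
-/

set_option autoImplicit false

namespace NSI

section L10aux
variable {Q : ℕ} {V : Type}

theorem L10_erw_append (x y : List (Lt Q ⊕ Bool)) : erw (x ++ y) = erw x ++ erw y := by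
  simp [erw]

theorem L10_lawful : LawfulBEq (Lt Q ⊕ Bool) where
  eq_of_beq := by
    rintro (y | y) (z | z) h
    · have h' : (y == z) = true := h
      rw [beq_iff_eq] at h'
      rw [h']
    · exact absurd h (by simp [BEq.beq, Sum.instBEq.beq])
    · exact absurd h (by simp [BEq.beq, Sum.instBEq.beq])
    · have h' : (y == z) = true := h
      rw [beq_iff_eq] at h'
      rw [h']
  rfl := by
    rintro (y | y)
    · change (y == y) = true
      simp
    · change (y == y) = true
      simp

attribute [local instance] L10_lawful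

theorem L10_erw_inr (i : Bool) (x : List (Lt Q ⊕ Bool)) : erw (Sum.inr i :: x) = erw x := by
  simp [erw, List.filterMap_cons]

theorem L10_cnt (x : Lt Q ⊕ Bool) (z : List (Lt Q ⊕ Bool)) :
    z.count x = Multiset.count x (z : Multiset (Lt Q ⊕ Bool)) := by
  induction z with
  | nil => simp
  | cons y z ih =>
    rw [← Multiset.cons_coe, Multiset.count_cons, List.count_cons, ih]
    by_cases h : y = x
    · subst h; simp
    · have h2 : ¬ x = y := fun h' => h h'.symm
      simp [h, h2]

theorem L10_erw_nil : erw ([] : List (Lt Q ⊕ Bool)) = [] := by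
  simp [erw]

theorem L10_mem_erw {x : List (Lt Q ⊕ Bool)} {l : Lt Q} (h : l ∈ erw x) : Sum.inl l ∈ x := by
  simp only [erw, List.mem_filterMap] at h
  obtain ⟨a, ha, hb⟩ := h
  cases a with
  | inl a =>
    simp only [Sum.getLeft?_inl, Option.some.injEq] at hb
    subst hb
    exact ha
  | inr a => simp at hb

theorem L10_count_erw (x : List (Lt Q ⊕ Bool)) (l : Lt Q) :
    x.count (Sum.inl l) = (erw x).count l := by
  induction x with
  | nil => simp [erw]
  | cons y x ih =>
    cases y with
    | inl y =>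
      have h1 : erw (Sum.inl y :: x) = y :: erw x := by simp [erw]
      rw [h1, List.count_cons, List.count_cons, ih]
      by_cases h : y = l
      · subst h; simp
      · have h2 : ¬ ((Sum.inl y : Lt Q ⊕ Bool) = Sum.inl l) := fun h' => h (Sum.inl.inj h')
        simp only [beq_iff_eq, h, h2, if_false]
    | inr y =>
      rw [L10_erw_inr, List.count_cons, ih]
      have h2 : ¬ ((Sum.inr y : Lt Q ⊕ Bool) = Sum.inl l) := by simp
      simp only [beq_iff_eq, h2, if_false, add_zero]

theorem L10_length_erw (x : List (Lt Q ⊕ Bool)) : (erw x).length ≤ x.length :=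
  List.length_filterMap_le _ _

/-- the decomposition of a marked tree at a marker -/
theorem L10_pos (G : Gr V (Lt Q)) (C : ℕ) (e : Exact G C) (A1 A2 : V) (b1 b2 : Bool) (i : Bool)
    (t' : Tr (V ⊕ Bool) (Lt Q ⊕ Bool)) (ht : t'.ok (mk G A1 A2 b1 b2)) (A : V)
    (hA : t'.root = Sum.inl A) (hi : Sum.inr i ∈ t'.yd) :
    ∃ (c : Cx V (Lt Q)) (s : Tr V (Lt Q)) (x y : List (Lt Q ⊕ Bool)),
      t'.yd = x ++ Sum.inr i :: y ∧ c.ok G s.root ∧ s.ok G ∧
      s.root = (if i then A2 else A1) ∧ c.root s.root = A ∧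
      (if (if i then b2 else b1) then erw x = c.yl ++ s.yd ∧ erw y = c.yr
        else erw x = c.yl ∧ erw y = s.yd ++ c.yr) := by
  have key : ∀ (u : Tr (V ⊕ Bool) (Lt Q ⊕ Bool)), u.ok (mk G A1 A2 b1 b2) → ∀ i' : Bool,
      u.root = Sum.inr i' → u.yd = [Sum.inr i'] := by
    intro u hu i' hr
    cases u with
    | lf X x =>
      simp only [Tr.root] at hr
      subst hr
      simp only [Tr.ok, mk] at hu
      cases x with
      | none => simp at hu
      | some y =>
        cases y with
        | inl y => simp at hu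
        | inr y =>
          simp only at hu
          subst hu
          simp [Tr.yd]
    | nd X l r =>
      simp only [Tr.root] at hr
      subst hr
      simp only [Tr.ok, mk] at hu
      exact absurd hu.1 (by simp)
  induction t' generalizing A with
  | lf X x =>
    simp only [Tr.root] at hA
    subst hA
    simp only [Tr.ok, mk] at ht
    cases x with
    | none => simp [Tr.yd] at hi
    | some y =>
      cases y with
      | inl y => simp [Tr.yd] at hi
      | inr y => simp at ht
  | nd X l r ihl ihr =>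
    simp only [Tr.root] at hA
    subst hA
    obtain ⟨hb, hl, hr⟩ := ht
    simp only [Tr.yd, List.mem_append] at hi
    rcases hL : l.root with B | i1
    · rcases hR : r.root with B' | i2
      · rw [hL, hR] at hb
        simp only [mk] at hb
        obtain ⟨l0, hl0, hl1, hl2, -⟩ := mk_erase G C e A1 A2 b1 b2 l hl B hL 0
        obtain ⟨r0, hr0, hr1, hr2, -⟩ := mk_erase G C e A1 A2 b1 b2 r hr B' hR 0
        rcases hi with hi | hi
        · obtain ⟨c, s, x, y, h1, h2, h3, h4, h5, h6⟩ := ihl hl B hL hi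
          refine ⟨.lft A c r0, s, x, y ++ r.yd, ?_, ?_, h3, h4, rfl, ?_⟩
          · simp [Tr.yd, h1]
          · refine ⟨?_, h2, hr0⟩
            rw [h5, hr1]
            exact hb
          · rw [L10_erw_append]
            simp only [Cx.yl, Cx.yr]
            split_ifs at h6 ⊢ <;> simp [h6.1, h6.2, hr2]
        · obtain ⟨c, s, x, y, h1, h2, h3, h4, h5, h6⟩ := ihr hr B' hR hi
          refine ⟨.rgt A l0 c, s, l.yd ++ x, y, ?_, ?_, h3, h4, rfl, ?_⟩
          · simp [Tr.yd, h1]
          · refine ⟨?_, hl0, h2⟩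
            rw [h5, hl1]
            exact hb
          · rw [L10_erw_append]
            simp only [Cx.yl, Cx.yr]
            split_ifs at h6 ⊢ <;> simp [h6.1, h6.2, hl2]
      · rw [hL, hR] at hb
        simp only [mk] at hb
        obtain ⟨rfl, hb⟩ := hb
        have hr3 := key r hr i2 hR
        obtain ⟨l0, hl0, hl1, hl2, -⟩ := mk_erase G C e A1 A2 b1 b2 l hl A hL 0
        rcases eq_or_ne i i2 with rfl | hne
        · refine ⟨.hole, l0, l.yd, [], ?_, trivial, hl0, ?_, ?_, ?_⟩
          · simp [Tr.yd, hr3]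
          · rw [hl1]
            split_ifs at hb ⊢ with hh
            · exact hb.1
            · exact hb.1
          · rw [hl1]; rfl
          · cases i <;> simp_all [Cx.yl, Cx.yr, L10_erw_nil]
        · have hi' : Sum.inr i ∈ l.yd := by
            rcases hi with hi | hi
            · exact hi
            · rw [hr3] at hi
              simp at hi
              exact absurd hi hne
          obtain ⟨c, s, x, y, h1, h2, h3, h4, h5, h6⟩ := ihl hl A hL hi'
          refine ⟨c, s, x, y ++ r.yd, ?_, h2, h3, h4, h5, ?_⟩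
          · simp [Tr.yd, h1]
          · rw [L10_erw_append, hr3, L10_erw_inr, L10_erw_nil, List.append_nil]
            exact h6
    · rcases hR : r.root with B' | i2
      · rw [hL, hR] at hb
        simp only [mk] at hb
        obtain ⟨rfl, hb⟩ := hb
        have hl3 := key l hl i1 hL
        obtain ⟨r0, hr0, hr1, hr2, -⟩ := mk_erase G C e A1 A2 b1 b2 r hr A hR 0
        rcases eq_or_ne i i1 with rfl | hne
        · refine ⟨.hole, r0, [], r.yd, ?_, trivial, hr0, ?_, ?_, ?_⟩
          · simp [Tr.yd, hl3]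
          · rw [hr1]
            split_ifs at hb ⊢ with hh
            · exact hb.1
            · exact hb.1
          · rw [hr1]; rfl
          · cases i <;> simp_all [Cx.yl, Cx.yr, L10_erw_nil]
        · have hi' : Sum.inr i ∈ r.yd := by
            rcases hi with hi | hi
            · rw [hl3] at hi
              simp at hi
              exact absurd hi hne
            · exact hi
          obtain ⟨c, s, x, y, h1, h2, h3, h4, h5, h6⟩ := ihr hr A hR hi'
          refine ⟨c, s, l.yd ++ x, y, ?_, h2, h3, h4, h5, ?_⟩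
          · simp [Tr.yd, h1]
          · rw [L10_erw_append, hl3, L10_erw_inr, L10_erw_nil, List.nil_append]
            exact h6
      · rw [hL, hR] at hb
        simp only [mk] at hb

theorem L10_notMem_left (w : List (Row Q)) (n : ℕ) : Lt.mid ∉ encL w ++ List.replicate n Lt.a := by
  intro h
  rcases List.mem_append.1 h with h | h
  · rcases mem_encL h with h | ⟨q, π, h⟩ <;> cases h
  · have := List.eq_of_mem_replicate h
    cases this

theorem L10_notMem_right (w : List (Row Q)) (n : ℕ) :
    Lt.mid ∉ List.replicate n Lt.b ++ encR w := by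
  intro h
  rcases List.mem_append.1 h with h | h
  · have := List.eq_of_mem_replicate h
    cases this
  · rcases mem_encR h with h | ⟨q, π, h⟩ <;> cases h

theorem L10_one_right (w : List (Row Q)) (n : ℕ) :
    Lt.one ∉ List.replicate n Lt.b ++ encR w := by
  intro h
  rcases List.mem_append.1 h with h | h
  · have := List.eq_of_mem_replicate h
    cases this
  · rcases mem_encR h with h | ⟨q, π, h⟩ <;> cases h

theorem L10_enc_eq (w w' : List (Row Q)) (n m : ℕ) : enc w n m w' =
    (encL w ++ List.replicate n Lt.a) ++ Lt.mid :: (List.replicate m Lt.b ++ encR w') := by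
  simp [enc]

/-- the letter one is before the middle letter -/
theorem L10_before {w w' : List (Row Q)} {n m : ℕ} {x y : List (Lt Q)}
    (h : enc w n m w' = x ++ Lt.one :: y) : Lt.mid ∉ x := by
  intro hx
  obtain ⟨x1, x2, rfl⟩ := List.append_of_mem hx
  rw [L10_enc_eq, List.append_assoc x1, List.cons_append] at h
  obtain ⟨-, -, h3⟩ := (List.append_cons_inj_of_notMem (L10_notMem_left w n)
    (L10_notMem_right w' m)).1 h
  exact L10_one_right w' m (by rw [h3]; simp)

/-- counts in coded words -/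
theorem L10_count_a (w w' : List (Row Q)) (n m : ℕ) : (enc w n m w').count Lt.a = n := by
  have h1 : (encL w).count Lt.a = 0 := by
    rw [List.count_eq_zero]
    intro h
    rcases mem_encL h with h | ⟨q, π, h⟩ <;> cases h
  have h2 : (encR w').count Lt.a = 0 := by
    rw [List.count_eq_zero]
    intro h
    rcases mem_encR h with h | ⟨q, π, h⟩ <;> cases h
  simp [enc, h1, h2, List.count_replicate]

theorem L10_count_b (w w' : List (Row Q)) (n m : ℕ) : (enc w n m w').count Lt.b = m := by
  have h1 : (encL w).count Lt.b = 0 := by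
    rw [List.count_eq_zero]
    intro h
    rcases mem_encL h with h | ⟨q, π, h⟩ <;> cases h
  have h2 : (encR w').count Lt.b = 0 := by
    rw [List.count_eq_zero]
    intro h
    rcases mem_encR h with h | ⟨q, π, h⟩ <;> cases h
  simp [enc, h1, h2, List.count_replicate]

/-- shift invariance of `hv` -/
theorem L10_hv_shift (d : Cx V (Lt Q)) (k h s x : ℤ) (hh : hv d k h s) : hv d (k + x) h (s + x) := by
  have e1 : eff d (k + x) h = (eff d k h).map (fun p => (p.1, p.2 + x)) := by
    simp only [eff, Multiset.map_add, Multiset.map_map, Function.comp_def]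
    congr 1
    congr 1
    funext y
    rw [Prod.mk.injEq]
    exact ⟨rfl, by ring⟩
  have hinj : Function.Injective (fun p : Lt Q × ℤ => (p.1, p.2 + x)) := by
    rintro ⟨a, b⟩ ⟨c, d⟩ h
    simp only [Prod.mk.injEq, add_left_inj] at h
    exact Prod.ext h.1 h.2
  have c1 := fun (l : Lt Q) => Multiset.count_map_eq_count' (fun p : Lt Q × ℤ => (p.1, p.2 + x))
    (eff d k h) hinj (l, s)
  unfold hv at hh ⊢
  rw [e1]
  have := c1 Lt.one
  have h2 := c1 Lt.one'
  simp only at this h2
  rw [this, h2]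
  exact hh

/-- uniqueness of the index of a letter occurring once -/
theorem L10_uniq {α : Type} [DecidableEq α] (M : Multiset (α × ℤ)) (a : α) (x y : ℤ)
    (hc : (M.map Prod.fst).count a = 1) (hx : (a, x) ∈ M) (hy : (a, y) ∈ M) : x = y := by
  by_contra hne
  obtain ⟨M', rfl⟩ := Multiset.exists_cons_of_mem hx
  have hy' : (a, y) ∈ M' := by
    rcases Multiset.mem_cons.1 hy with h | h
    · rw [Prod.mk.injEq] at h
      exact absurd h.2.symm hne
    · exact h
  obtain ⟨M'', rfl⟩ := Multiset.exists_cons_of_mem hy'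
  simp at hc

/-- heavy cycles have a letter one -/
theorem L10_hv_mem (d : Cx V (Lt Q)) (k h s : ℤ) (hh : hv d k h s) :
    ∃ b : Bool, s = (if b then k + h else k) ∧ (if b then Lt.one ∈ d.yr else Lt.one ∈ d.yl) := by
  have h1 : 0 < (eff d k h).count (Lt.one, s) := lt_of_le_of_lt (Nat.zero_le _) hh
  rw [Multiset.count_pos] at h1
  simp only [eff, Multiset.mem_add, Multiset.mem_map, Multiset.mem_coe, Prod.mk.injEq] at h1
  rcases h1 with ⟨y, hy, rfl, rfl⟩ | ⟨y, hy, rfl, rfl⟩
  · exact ⟨false, by simp, by simpa using hy⟩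
  · exact ⟨true, by simp, by simpa using hy⟩

/-- the valuation of the marked trees -/
abbrev L10X (St0 St1 : Type) : Type := (St0 → St0) × (St1 → St1) × ℕ × ℕ × ℕ × ℕ

def L10f {St0 St1 : Type} (u v : L10X St0 St1) : L10X St0 St1 :=
  (v.1 ∘ u.1, v.2.1 ∘ u.2.1, u.2.2.1 + v.2.2.1, u.2.2.2.1 + v.2.2.2.1,
    u.2.2.2.2.1 + v.2.2.2.2.1, u.2.2.2.2.2 + v.2.2.2.2.2)

def L10g {St0 St1 : Type} (D0 : DFA (Lt Q ⊕ Bool) St0) (D1 : DFA (Lt Q ⊕ Bool) St1)
    (z : List (Lt Q ⊕ Bool)) : L10X St0 St1 :=
  (fun p => D0.evalFrom p z, fun p => D1.evalFrom p z, z.count (Sum.inl Lt.a),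
    z.count (Sum.inl Lt.b), z.count (Sum.inr false), z.count (Sum.inr true))

theorem L10_val {W St0 St1 : Type} (D0 : DFA (Lt Q ⊕ Bool) St0) (D1 : DFA (Lt Q ⊕ Bool) St1)
    (t : Tr W (Lt Q ⊕ Bool)) :
    t.val L10f (fun x => L10g D0 D1 x.toList) = L10g D0 D1 t.yd := by
  induction t with
  | lf A x => rfl
  | nd A l r ihl ihr =>
    simp only [Tr.val, ihl, ihr, Tr.yd]
    simp only [L10f, L10g, List.count_append, DFA.evalFrom_of_append, Prod.mk.injEq, and_true]
    exact ⟨rfl, rfl⟩

end L10aux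

attribute [local instance] L10_lawful

/-- the marker is before the middle letter -/
theorem L10_marker {𝓜 : Mach} {s N : ℕ} (σ : Sit 𝓜 s N) (F : Fc σ)
    (hF : ∀ t : Tr σ.V (Lt 𝓜.Q), t.ok F.G1 → t.root = σ.G.start →
      ∃ w n m w', t.yd = enc w n m w' ∧ w.length = w'.length ∧ FF 𝓜 σ.E w ∧ n ≤ m)
    (A1 A2 : σ.V) (b1 b2 i : Bool) (t' : Tr (σ.V ⊕ Bool) (Lt 𝓜.Q ⊕ Bool))
    (ht : t'.ok (mk F.G1 A1 A2 b1 b2)) (hA : t'.root = Sum.inl σ.G.start)
    (hi : Sum.inr i ∈ t'.yd) (d : Cx σ.V (Lt 𝓜.Q)) (hd : Cyc F.G1 (if i then A2 else A1) d)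
    (ho : if (if i then b2 else b1) then Lt.one ∈ d.yr else Lt.one ∈ d.yl)
    (hm : Lt.mid ∈ erw t'.yd) :
    ∃ x y : List (Lt 𝓜.Q ⊕ Bool), t'.yd = x ++ Sum.inl Lt.mid :: y ∧ Sum.inr i ∈ x := by
  obtain ⟨c, u, x, y, h1, h2, h3, h4, h5, h6⟩ := L10_pos F.G1 (2 ^ s) F.e A1 A2 b1 b2 i t' ht _ hA hi
  rw [← h4] at hd
  have hok : (c.plug (d.plug u)).ok F.G1 := by
    rw [Cx.ok_plug, Cx.ok_plug, Cx.root_plug, hd.root]
    exact ⟨h2, hd.ok, h3⟩
  have hroot : (c.plug (d.plug u)).root = σ.G.start := by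
    rw [Cx.root_plug, Cx.root_plug, hd.root, h5]
  obtain ⟨w, n, m, w', hw, -⟩ := hF _ hok hroot
  have hmy : Lt.mid ∈ erw y := by
    rw [h1, L10_erw_append, L10_erw_inr, List.mem_append] at hm
    rcases hm with hm | hm
    · exfalso
      rw [Cx.yd_plug, Cx.yd_plug] at hw
      by_cases hb : (if i then b2 else b1) = true
      · rw [if_pos hb] at ho h6
        obtain ⟨p, q, hpq⟩ := List.append_of_mem ho
        have := L10_before (w := w) (w' := w') (n := n) (m := m)
          (x := c.yl ++ d.yl ++ u.yd ++ p) (y := q ++ c.yr) (by rw [← hw, hpq]; simp)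
        apply this
        rw [h6.1] at hm
        simp only [List.mem_append] at hm ⊢
        tauto
      · rw [if_neg hb] at ho h6
        obtain ⟨p, q, hpq⟩ := List.append_of_mem ho
        have := L10_before (w := w) (w' := w') (n := n) (m := m)
          (x := c.yl ++ p) (y := q ++ u.yd ++ d.yr ++ c.yr) (by rw [← hw, hpq]; simp)
        apply this
        rw [h6.1] at hm
        simp only [List.mem_append] at hm ⊢
        tauto
    · exact hm
  obtain ⟨y1, y2, rfl⟩ := List.append_of_mem (L10_mem_erw hmy)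
  exact ⟨x ++ Sum.inr i :: y1, y2, by rw [h1]; simp, by simp⟩

theorem short_two (𝓜 : Mach) (D : ℕ → ℕ) (hD : Primrec D) (mD : Monotone D) :
    ∃ D' : ℕ → ℕ, Primrec D' ∧ Monotone D' ∧ Bnd (fun s N => ∀ (σ : Sit 𝓜 s N) (F : Fc σ)
      (t : Tr σ.V (Lt 𝓜.Q)), t.ok F.G1 → t.root = σ.G.start →
      ∀ (w w' : List (Row 𝓜.Q)) (n m : ℕ), t.yd = enc w n m w' → n ≤ D s → m ≤ D s →
      ∀ (A1 A2 : σ.V) (k1 k2 : ℤ) (d1 d2 : Cx σ.V (Lt 𝓜.Q)),
      (A1, k1) ∈ Labs β t 0 → (A2, k2) ∈ Labs β t 0 → Cyc F.G1 A1 d1 → Cyc F.G1 A2 d2 →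
      d1.size ≤ D s → d2.size ≤ D s →
      ∀ s1 s2 : ℤ, hv d1 k1 (F.e.ω A1) s1 → hv d2 k2 (F.e.ω A2) s2 →
      ∀ R : Set Bool, (∀ j ∈ R, ¬ Cover 𝓜 w j s1 s2) →
      ∃ (t1 : Tr σ.V (Lt 𝓜.Q)) (v v' : List (Row 𝓜.Q)) (k1' k2' s1' s2' : ℤ),
        t1.ok F.G1 ∧ t1.root = σ.G.start ∧ t1.yd = enc v n m v' ∧ t1.yd.length ≤ D' s ∧
        (A1, k1') ∈ Labs β t1 0 ∧ (A2, k2') ∈ Labs β t1 0 ∧
        hv d1 k1' (F.e.ω A1) s1' ∧ hv d2 k2' (F.e.ω A2) s2' ∧
        (∀ j ∈ R, ¬ Cover 𝓜 v j s1' s2')) := by
  classical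
  obtain ⟨St0, _, D0, hD0⟩ := cover_dfa 𝓜 false
  obtain ⟨St1, _, D1, hD1⟩ := cover_dfa 𝓜 true
  set C0 : ℕ := Fintype.card (St0 → St0) * Fintype.card (St1 → St1) with hC0
  refine ⟨fun s => 2 ^ ((s + 2) * (C0 * ((D s + 1) * ((D s + 1) * 4)))), ?_, ?_, ?_⟩
  · have h1 : Primrec (fun s => D s + 1) := Primrec.succ.comp hD
    have h2 : Primrec (fun s : ℕ => s + 2) := Primrec.succ.comp Primrec.succ
    exact primrec_pow.comp (Primrec.const 2) (Primrec.nat_mul.comp h2
      (Primrec.nat_mul.comp (Primrec.const C0) (Primrec.nat_mul.comp h1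
        (Primrec.nat_mul.comp h1 (Primrec.const 4)))))
  · intro x y hxy
    apply Nat.pow_le_pow_right (by norm_num)
    have := mD hxy
    gcongr
  refine (face_word 𝓜).mono ?_
  intro s N hN σ F t ht hroot w w' n m hw hn hm A1 A2 k1 k2 d1 d2 hA1 hA2 hd1 hd2 _ _ s1 s2
    hv1 hv2 R hR
  have hF := hN σ F
  letI := σ.fin
  obtain ⟨b1, hs1, ho1⟩ := L10_hv_mem d1 k1 _ s1 hv1
  obtain ⟨b2, hs2, ho2⟩ := L10_hv_mem d2 k2 _ s2 hv2
  obtain ⟨t', ht', hroot', her, hcw⟩ := mk_exists F.G1 (2 ^ s) F.e A1 A2 b1 b2 t ht 0 k1 k2 hA1 hA2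
  rw [← hs1, ← hs2] at hcw
  rw [hroot] at hroot'
  -- the format of the word
  obtain ⟨w0, n0, m0, w0', hw0, hlen, hFF, -⟩ := hF t ht hroot
  rw [hw] at hw0
  obtain ⟨rfl, rfl, rfl, rfl⟩ := enc_inj hw0
  -- the letters of the marked word
  have hlet : (t'.yd : Multiset (Lt 𝓜.Q ⊕ Bool)) = (t.yd : Multiset (Lt 𝓜.Q)).map Sum.inl +
      {Sum.inr false} + {Sum.inr true} := by
    rw [← cw_map_fst βm t'.yd 0, hcw, ← cw_map_fst β t.yd 0]
    simp [Multiset.map_map, Function.comp_def]
  have hc0 : t'.yd.count (Sum.inr false) = 1 := by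
    rw [L10_cnt, hlet, Multiset.count_add, Multiset.count_add,
      Multiset.count_eq_zero_of_notMem (by simp)]
    simp
  have hc1 : t'.yd.count (Sum.inr true) = 1 := by
    rw [L10_cnt, hlet, Multiset.count_add, Multiset.count_add,
      Multiset.count_eq_zero_of_notMem (by simp)]
    simp
  have hca : t'.yd.count (Sum.inl Lt.a) = n := by
    rw [L10_count_erw, her, hw, L10_count_a]
  have hcb : t'.yd.count (Sum.inl Lt.b) = m := by
    rw [L10_count_erw, her, hw, L10_count_b]
  -- reduction
  let S : Finset ((σ.V ⊕ Bool) × L10X St0 St1) := Finset.univ ×ˢ (Finset.univ ×ˢ (Finset.univ ×ˢ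
    (Finset.range (n + 1) ×ˢ (Finset.range (m + 1) ×ˢ (Finset.range 2 ×ˢ Finset.range 2)))))
  have hS : ∀ (c : Cx (σ.V ⊕ Bool) (Lt 𝓜.Q ⊕ Bool)) (u : Tr (σ.V ⊕ Bool) (Lt 𝓜.Q ⊕ Bool)),
      t' = c.plug u → (u.root, u.val L10f (fun x => L10g D0 D1 x.toList)) ∈ S := by
    intro c u hcu
    have hle : ∀ x : Lt 𝓜.Q ⊕ Bool, u.yd.count x ≤ t'.yd.count x := by
      intro x
      rw [hcu, Cx.yd_plug, List.count_append, List.count_append]
      omega
    have h0 := hle (Sum.inl Lt.a)
    have h1 := hle (Sum.inl Lt.b)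
    have h2 := hle (Sum.inr false)
    have h3 := hle (Sum.inr true)
    rw [hca] at h0
    rw [hcb] at h1
    rw [hc0] at h2
    rw [hc1] at h3
    rw [L10_val]
    simp only [S, Finset.mem_product, Finset.mem_univ, Finset.mem_range, true_and, L10g]
    omega
  obtain ⟨t'', ok'', root'', val'', ht'', -⟩ := reduce (mk F.G1 A1 A2 b1 b2) L10f
    (fun x => L10g D0 D1 x.toList) t' ht' S hS
  rw [L10_val, L10_val] at val''
  simp only [L10g, Prod.mk.injEq] at val''
  obtain ⟨v0, v1, va, vb, vc0, vc1⟩ := val''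
  rw [hca] at va
  rw [hcb] at vb
  rw [hc0] at vc0
  rw [hc1] at vc1
  rw [hroot'] at root''
  obtain ⟨t1, ok1, root1, er1, lab1, lab2⟩ := mk_erase F.G1 (2 ^ s) F.e A1 A2 b1 b2 t'' ok''
    σ.G.start root'' 0
  obtain ⟨v, n1, m1, v', hv', hlen', hFF', -⟩ := hF t1 ok1 root1
  have hn1 : n1 = n := by
    rw [L10_count_erw, er1, hv', L10_count_a] at va
    exact va
  have hm1 : m1 = m := by
    rw [L10_count_erw, er1, hv', L10_count_b] at vb
    exact vb
  subst hn1 hm1
  -- the markers of the reduced word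
  have mem0 : ∃ j0 : ℤ, (Sum.inr false, j0) ∈ cw βm t''.yd 0 := by
    have h : (Sum.inr false : Lt 𝓜.Q ⊕ Bool) ∈ (cw βm t''.yd 0).map Prod.fst := by
      rw [cw_map_fst, Multiset.mem_coe, ← List.count_pos_iff, vc0]
      norm_num
    obtain ⟨⟨p, j⟩, hp, hpe⟩ := Multiset.mem_map.1 h
    simp only at hpe
    subst hpe
    exact ⟨j, hp⟩
  have mem1 : ∃ j1 : ℤ, (Sum.inr true, j1) ∈ cw βm t''.yd 0 := by
    have h : (Sum.inr true : Lt 𝓜.Q ⊕ Bool) ∈ (cw βm t''.yd 0).map Prod.fst := by
      rw [cw_map_fst, Multiset.mem_coe, ← List.count_pos_iff, vc1]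
      norm_num
    obtain ⟨⟨p, j⟩, hp, hpe⟩ := Multiset.mem_map.1 h
    simp only at hpe
    subst hpe
    exact ⟨j, hp⟩
  obtain ⟨j0, hj0⟩ := mem0
  obtain ⟨j1, hj1⟩ := mem1
  refine ⟨t1, v, v', (if b1 then j0 - F.e.ω A1 else j0), (if b2 then j1 - F.e.ω A2 else j1), j0, j1,
    ok1, root1, hv', ?_, lab1 j0 hj0, lab2 j1 hj1, ?_, ?_, ?_⟩
  · -- the length
    rw [← er1]
    refine (L10_length_erw _).trans ((Tr.length_yd_le t'').trans ?_)
    apply Nat.pow_le_pow_right (by norm_num)
    refine ht''.le.trans ?_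
    simp only [S, Finset.card_product, Finset.card_univ, Finset.card_range, Fintype.card_sum,
      Fintype.card_bool]
    have h1 := σ.hV
    calc (Fintype.card σ.V + 2) * (Fintype.card (St0 → St0) * (Fintype.card (St1 → St1) *
          ((n1 + 1) * ((m1 + 1) * (2 * 2)))))
        = (Fintype.card σ.V + 2) * (C0 * ((n1 + 1) * ((m1 + 1) * 4))) := by
          rw [hC0]; ring
      _ ≤ (s + 2) * (C0 * ((D s + 1) * ((D s + 1) * 4))) := by gcongr
  · have := L10_hv_shift d1 k1 _ s1 (j0 - s1) hv1
    rw [show s1 + (j0 - s1) = j0 by ring] at this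
    convert this using 1
    rw [hs1]
    split_ifs <;> ring
  · have := L10_hv_shift d2 k2 _ s2 (j1 - s2) hv2
    rw [show s2 + (j1 - s2) = j1 by ring] at this
    convert this using 1
    rw [hs2]
    split_ifs <;> ring
  · intro j hj
    have hmid : Lt.mid ∈ erw t'.yd := by
      rw [her, hw]
      simp [enc]
    obtain ⟨x0, y0, hxy0, hx0⟩ := L10_marker σ F hF A1 A2 b1 b2 false t' ht' hroot'
      (by rw [← List.count_pos_iff, hc0]; norm_num) d1 (by simpa using hd1) (by simpa using ho1) hmid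
    obtain ⟨x1, y1, hxy1, hx1⟩ := L10_marker σ F hF A1 A2 b1 b2 true t' ht' hroot'
      (by rw [← List.count_pos_iff, hc1]; norm_num) d2 (by simpa using hd2) (by simpa using ho2) hmid
    have hcm : t'.yd.count (Sum.inl Lt.mid) = 1 := by
      rw [L10_count_erw, her, hw, L10_enc_eq, List.count_append, List.count_cons,
        List.count_eq_zero_of_not_mem (L10_notMem_left w n1),
        List.count_eq_zero_of_not_mem (L10_notMem_right w' m1)]
      simp
    have hx01 : x0 = x1 := by
      have h1 := hcm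
      rw [hxy0, List.count_append, List.count_cons] at h1
      simp only [beq_self_eq_true, if_true] at h1
      have hz1 : x0.count (Sum.inl Lt.mid) = 0 := by omega
      have hz2 : y0.count (Sum.inl Lt.mid) = 0 := by omega
      exact ((List.append_cons_inj_of_notMem (List.count_eq_zero.1 hz1)
        (List.count_eq_zero.1 hz2)).1 (hxy0.symm.trans hxy1)).1
    have main : ∀ (St : Type) (Dj : DFA (Lt 𝓜.Q ⊕ Bool) St),
        (∀ (z : List (Lt 𝓜.Q ⊕ Bool)) (E : ℕ) (w w' : List (Row 𝓜.Q))
          (n m : ℕ), erw z = enc w n m w' → w.length = w'.length → FF 𝓜 E w →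
          z.count (Sum.inr false) = 1 → z.count (Sum.inr true) = 1 →
          (z ∈ Dj.accepts ↔ ∃ (x y : List (Lt 𝓜.Q ⊕ Bool)) (s1 s2 : ℤ),
            z = x ++ Sum.inl Lt.mid :: y ∧ Sum.inr false ∈ x ∧ Sum.inr true ∈ x ∧
            (Sum.inr false, s1) ∈ cw βm z 0 ∧ (Sum.inr true, s2) ∈ cw βm z 0 ∧
            ¬ Cover 𝓜 w j s1 s2)) →
        (fun p => Dj.evalFrom p t''.yd) = (fun p => Dj.evalFrom p t'.yd) →
        ¬ Cover 𝓜 v j j0 j1 := by
      intro St Dj hDj hev
      have acc1 : t'.yd ∈ Dj.accepts := by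
        rw [hDj t'.yd σ.E w w' n1 m1 (her.trans hw) hlen hFF hc0 hc1]
        refine ⟨x0, y0, s1, s2, hxy0, hx0, hx01 ▸ hx1, ?_, ?_, hR j hj⟩
        · rw [hcw]; simp
        · rw [hcw]; simp
      have acc2 : t''.yd ∈ Dj.accepts := by
        rw [DFA.mem_accepts] at acc1 ⊢
        have := congrFun hev Dj.start
        unfold DFA.eval at acc1 ⊢
        rw [this]
        exact acc1
      rw [hDj t''.yd σ.E v v' n1 m1 (er1.trans hv') hlen' hFF' vc0 vc1] at acc2
      obtain ⟨x, y, u1, u2, -, -, -, hu1, hu2, hnc⟩ := acc2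
      have e1 : u1 = j0 := L10_uniq (cw βm t''.yd 0) (Sum.inr false) u1 j0
        (by rw [cw_map_fst, ← vc0, L10_cnt]) hu1 hj0
      have e2 : u2 = j1 := L10_uniq (cw βm t''.yd 0) (Sum.inr true) u2 j1
        (by rw [cw_map_fst, ← vc1, L10_cnt]) hu2 hj1
      rw [e1, e2] at hnc
      exact hnc
    cases j with
    | false => exact main St0 D0 hD0 v0
    | true => exact main St1 D1 hD1 v1

end NSI
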