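import Pool.Agent.Lib.NSI.L10

/-!
# L11 : heavy cycles are in a common window of the parity of the region

Recipe for `two_heavy`.  Suppose not; take `t1` of `short_two` with `R = {j | Reg j n m}`.  Insert
`K1` copies of `d1` and `K2` copies of `d2` (`insert_many`; labels persist).  The word is
`enc u n m u'` (`face_word`), `content_diff` with `t1.yd = enc v n m v'`: same letters (so the same
`Cover`: prove that `Cover` only depends on `w.map Prod.fst`), same `n, m` since the cycles are heavy,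
so of type (1,1) or (1,1') or (1,b), and contain no `b`; rows `s = s1', s2'`:
`num u s - num u' s = num v s - num v' s + K1 δ1 s + K2 δ2 s`, where
`δi s = count (1, s) - count (1', s)` in `eff`.  `δ1 s1' ≥ 1`, `δ2 s2' ≥ 1`.
Cross terms: `δ1 s2' < 0` implies (types, L07) that `d1` is of type `(1, 1')` with
`s1' = k1'`, `s2' = k1' + ω A1`, `s1' ≠ s2'` and that `κ A1 = 1` (the left part of the cycle is left
of `mid`, the right part right of it, and the tree below contains `mid`); similarly `δ2 s1' < 0`.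
Both together contradict `chain_mid`.  So choose `(K1, K2)`: if `δ2 s1' ≥ 0`: `K1 = X + 1`,
`K2 = X + 1 + K1 * D s` with `X ≥ |t1.yd|`; otherwise symmetric.  Then `num u s > num u' s` for
`s = s1', s2'`.  The word is short (length `≤ D' s + (K1 + K2) * D s`), so it is in `K`: equal numbers
of rows, not (A) since `LeRow` fails, so (C): the window contains the rows `s1'` and `s2'` (all
other rows satisfy `LeRow`), its first row is not halting and has parity `j` with `Reg j n m`: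
contradiction to the choice of `t1`.
`one_heavy`: the same with `d1 = d2`, `R = univ`, one kind of cycles, `K1 = X + 1`; now the cycle may
contain letters `b`, so the word is `enc u n m2 u'` with another `m2`, which does not matter.
-/

set_option autoImplicit false

namespace NSI

variable {Q : ℕ} {V : Type}

/-- restriction of the agreement bound -/
private def L11_dn {𝓜 : Mach} {s N N' : ℕ} (σ : Sit 𝓜 s N') (h : N ≤ N') : Sit 𝓜 s N where
  V := σ.V
  fin := σ.fin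
  dec := σ.dec
  G := σ.G
  E := σ.E
  hV := σ.hV
  hE := σ.hE
  agree := fun z hz => σ.agree z (hz.trans h)

private def L11_fdn {𝓜 : Mach} {s N N' : ℕ} {σ : Sit 𝓜 s N'} (h : N ≤ N') (F : Fc σ) :
    Fc (L11_dn σ h) where
  G1 := F.G1
  start := F.start
  sub := F.sub
  full := F.full
  e := F.e

private theorem L11_mem_eff (d : Cx V (Lt Q)) (k h : ℤ) (x : Lt Q) (i : ℤ) :
    (x, i) ∈ eff d k h ↔ (x ∈ d.yl ∧ i = k) ∨ (x ∈ d.yr ∧ i = k + h) := by
  unfold eff
  rw [Multiset.mem_add, Multiset.mem_map, Multiset.mem_map]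
  constructor
  · rintro (⟨y, hy, hxy⟩ | ⟨y, hy, hxy⟩)
    · rw [Prod.mk.injEq] at hxy
      obtain ⟨rfl, rfl⟩ := hxy
      exact Or.inl ⟨by simpa using hy, rfl⟩
    · rw [Prod.mk.injEq] at hxy
      obtain ⟨rfl, rfl⟩ := hxy
      exact Or.inr ⟨by simpa using hy, rfl⟩
  · rintro (⟨hy, rfl⟩ | ⟨hy, rfl⟩)
    · exact Or.inl ⟨x, by simpa using hy, rfl⟩
    · exact Or.inr ⟨x, by simpa using hy, rfl⟩

private theorem L11_card_eff (d : Cx V (Lt Q)) (k h : ℤ) : (eff d k h).card ≤ d.size := by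
  have h1 := d.length_le_size
  unfold eff
  simpa using h1

private theorem L11_card_cw (z : List (Lt Q)) (k : ℤ) : (cw β z k).card = z.length := by
  have h := congrArg Multiset.card (cw_map_fst β z k)
  simpa using h

/-- the type of a heavy cycle -/
private theorem L11_type {u v : List (Lt Q)} (h : CType u v) (h1 : Lt.one ∈ u ∨ Lt.one ∈ v) :
    AllE Lt.one u ∧ (AllE Lt.one v ∨ AllE Lt.one' v ∨ AllE Lt.b v) := by
  have key : ∀ {x : Lt Q} {u : List (Lt Q)}, AllE x u → x ≠ Lt.one → Lt.one ∉ u := by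
    intro x u hu hx hm
    exact hx (hu _ hm).symm
  rcases h with ⟨a, b⟩ | ⟨a, b⟩ | ⟨a, b⟩ | ⟨a, b, _⟩ | ⟨a, b⟩ | ⟨a, b⟩ | ⟨a, b⟩
  · exact ⟨a, Or.inl b⟩
  · exact ⟨a, Or.inr (Or.inl b)⟩
  · exact ⟨a, Or.inr (Or.inr b)⟩
  all_goals
    exfalso
    rcases h1 with h1 | h1
    · exact key a (by simp) h1
    · exact key b (by simp) h1

private theorem L11_forall2 {u u' : List (Row Q)} (h : List.Forall₂ LeRow u u') (q : ℕ) :
    ((u[q]?).map Prod.snd).getD 0 ≤ ((u'[q]?).map Prod.snd).getD 0 := by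
  induction h generalizing q with
  | nil => simp
  | cons h1 _ ih =>
    cases q with
    | zero => simpa using h1.2
    | succ q => simpa using ih q

private theorem L11_num_KA {u u' : List (Row Q)} (h : List.Forall₂ LeRow u u') (i : ℤ) :
    num u i ≤ num u' i := by
  unfold num
  split_ifs
  · exact L11_forall2 h _
  · exact le_rfl

private theorem L11_num_KC {w1 w2 w1' w2' : List (Row Q)} {r s r' s' : Row Q}
    (h1 : List.Forall₂ LeRow w1 w1') (h2 : List.Forall₂ LeRow w2 w2') (i : ℤ)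
    (hi : num (w1' ++ r' :: s' :: w2') i < num (w1 ++ r :: s :: w2) i) :
    i = (w1.length : ℤ) + 1 ∨ i = (w1.length : ℤ) + 2 := by
  by_contra hcon
  push Not at hcon
  obtain ⟨hc1, hc2⟩ := hcon
  have hl := h1.length_eq
  unfold num at hi
  split_ifs at hi with hi1
  · obtain ⟨q, hq⟩ : ∃ q : ℕ, i = q + 1 := ⟨(i - 1).toNat, by omega⟩
    have hq' : (i - 1).toNat = q := by omega
    rw [hq'] at hi
    rcases lt_trichotomy q w1.length with h | h | h
    · rw [List.getElem?_append_left (by omega), List.getElem?_append_left (by omega)] at hi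
      exact absurd hi (not_lt.mpr (L11_forall2 h1 q))
    · omega
    · rw [List.getElem?_append_right (by omega), List.getElem?_append_right (by omega)] at hi
      obtain ⟨p, hp⟩ : ∃ p : ℕ, q = w1.length + (p + 2) := ⟨q - w1.length - 2, by omega⟩
      rw [show q - w1'.length = p + 2 by omega, show q - w1.length = p + 2 by omega] at hi
      simp only [List.getElem?_cons_succ] at hi
      exact absurd hi (not_lt.mpr (L11_forall2 h2 p))
  · omega

private theorem L11_cover {𝓜 : Mach} {u v : List (Row 𝓜.Q)} (h : u.map Prod.fst = v.map Prod.fst)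
    {j : Bool} {s1 s2 : ℤ} (hc : Cover 𝓜 u j s1 s2) : Cover 𝓜 v j s1 s2 := by
  obtain ⟨p, r, hr, hj, hq, h1, h2⟩ := hc
  have hp : (v[p]?).map Prod.fst = some r.1 := by
    rw [← List.getElem?_map, ← h, List.getElem?_map, hr]
    rfl
  obtain ⟨r2, hr2, hr3⟩ := Option.map_eq_some_iff.mp hp
  exact ⟨p, r2, hr2, by rw [hr3]; exact hj, by rw [hr3]; exact hq, h1, h2⟩

/-- in a word of this shape the letter `mid` splits the sides -/
private theorem L11_split {z X Y : List (Lt Q)} (hz : Shape z) (h : z = X ++ Lt.mid :: Y) :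
    (∀ x ∈ X, sd x = 0) ∧ (∀ x ∈ Y, sd x = 2) := by
  obtain ⟨u, v, huv, hu, hv⟩ := hz
  have hm : sd (Lt.mid : Lt Q) = 1 := rfl
  rw [h] at huv
  rcases List.append_eq_append_iff.mp huv with ⟨as, h1, h2⟩ | ⟨bs, h1, h2⟩
  · cases as with
    | nil =>
      simp only [List.nil_append, List.cons.injEq, true_and] at h2
      simp only [List.append_nil] at h1
      subst h1
      subst h2
      exact ⟨hu, hv⟩
    | cons y as =>
      exfalso
      simp only [List.cons_append, List.cons.injEq] at h2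
      have := hu Lt.mid (by rw [h1, ← h2.1]; simp)
      rw [hm] at this
      exact absurd this (by decide)
  · cases bs with
    | nil =>
      simp only [List.nil_append, List.cons.injEq, true_and] at h2
      simp only [List.append_nil] at h1
      subst h1
      subst h2
      exact ⟨hu, hv⟩
    | cons y bs =>
      exfalso
      simp only [List.cons_append, List.cons.injEq] at h2
      have := hv Lt.mid (by rw [h2.2]; simp)
      rw [hm] at this
      exact absurd this (by decide)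

private theorem L11_wtm {z : List (Lt Q)} (h : ∀ x ∈ z, x ≠ Lt.mid) : wt ψm z = 0 :=
  wt_flat ψm z (fun x hx => by
    have := h x hx
    cases x <;> simp_all [ψm])

/-- a cycle with `1` on the left and `1'` on the right is above `mid` -/
private theorem L11_kappa {G : Gr V (Lt Q)} {C : ℕ} (e : Exact G C) (c d : Cx V (Lt Q))
    (s : Tr V (Lt Q)) (hs : s.ok G) (hd : FlatC d)
    (hsh : Shape (c.plug (d.plug s)).yd)
    (h1 : Lt.one ∈ d.yl) (h2 : Lt.one' ∈ d.yr) : e.κ s.root = 1 := by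
  rw [← e.hκ s hs]
  have hz : (c.plug (d.plug s)).yd = c.yl ++ (d.yl ++ s.yd ++ d.yr) ++ c.yr := by simp
  rw [hz] at hsh
  have e1 : sd (Lt.one : Lt Q) = 0 := rfl
  have e2 : sd (Lt.one' : Lt Q) = 2 := rfl
  have e3 : sd (Lt.mid : Lt Q) = 1 := rfl
  have hmem : Lt.mid ∈ c.yl ++ (d.yl ++ s.yd ++ d.yr) ++ c.yr := by
    obtain ⟨u, v, huv, -, -⟩ := hsh
    rw [huv]; simp
  have hc1 : Lt.mid ∉ c.yl := by
    intro hm
    obtain ⟨p, q, hpq⟩ := List.append_of_mem hm
    have := (L11_split (X := p) (Y := q ++ (d.yl ++ s.yd ++ d.yr) ++ c.yr) hsh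
      (by rw [hpq]; simp)).2 Lt.one (by simp [h1])
    rw [e1] at this
    exact absurd this (by decide)
  have hc2 : Lt.mid ∉ c.yr := by
    intro hm
    obtain ⟨p, q, hpq⟩ := List.append_of_mem hm
    have := (L11_split (X := c.yl ++ (d.yl ++ s.yd ++ d.yr) ++ p) (Y := q) hsh
      (by rw [hpq]; simp)).1 Lt.one' (by simp [h2])
    rw [e2] at this
    exact absurd this (by decide)
  have hd1 : Lt.mid ∉ d.yl := fun hm => hd.1 _ hm
  have hd2 : Lt.mid ∉ d.yr := fun hm => hd.2 _ hm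
  have hsm : Lt.mid ∈ s.yd := by
    simp only [List.mem_append] at hmem
    tauto
  obtain ⟨p, q, hpq⟩ := List.append_of_mem hsm
  have hsp := L11_split (X := c.yl ++ d.yl ++ p) (Y := q ++ d.yr ++ c.yr) hsh
      (by rw [hpq]; simp)
  have hp0 : wt ψm p = 0 := L11_wtm (fun x hx hxm => by
    have := hsp.1 x (by simp [hx])
    rw [hxm, e3] at this
    exact absurd this (by decide))
  have hq0 : wt ψm q = 0 := L11_wtm (fun x hx hxm => by
    have := hsp.2 x (by simp [hx])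
    rw [hxm, e3] at this
    exact absurd this (by decide))
  rw [hpq, wt_append, wt_cons, hp0, hq0]
  rfl

private theorem L11_choose (X B : ℕ) (a b c d : ℤ) (ha : 1 ≤ a) (hd : 1 ≤ d)
    (hb : -(B : ℤ) ≤ b) (hc : -(B : ℤ) ≤ c) (h : 0 ≤ b ∨ 0 ≤ c) :
    ∃ K1 K2 : ℕ, K1 ≤ (X + 1) * (B + 1) ∧ K2 ≤ (X + 1) * (B + 1) ∧
      (X : ℤ) < K1 * a + K2 * b ∧ (X : ℤ) < K1 * c + K2 * d := by
  have hX : (0 : ℤ) ≤ (X : ℤ) + 1 := by positivity
  have hB : (0 : ℤ) ≤ (B : ℤ) := by positivity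
  have hXB : (0 : ℤ) ≤ ((X : ℤ) + 1) * ((B : ℤ) + 1) := by positivity
  have hle : X + 1 ≤ (X + 1) * (B + 1) := Nat.le_mul_of_pos_right _ (Nat.succ_pos _)
  rcases h with h | h
  · refine ⟨X + 1, (X + 1) * (B + 1), hle, le_rfl, ?_, ?_⟩
    · push_cast
      nlinarith [mul_le_mul_of_nonneg_left ha hX, mul_nonneg hXB h]
    · push_cast
      nlinarith [mul_le_mul_of_nonneg_left hc hX, mul_le_mul_of_nonneg_left hd hXB]
  · refine ⟨(X + 1) * (B + 1), X + 1, le_rfl, hle, ?_, ?_⟩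
    · push_cast
      nlinarith [mul_le_mul_of_nonneg_left hb hX, mul_le_mul_of_nonneg_left ha hXB]
    · push_cast
      nlinarith [mul_le_mul_of_nonneg_left hd hX, mul_nonneg hXB h]

/-- the cycle `(A, k, d)` has more `1'` than `1` at the index `s2` and more `1` than `1'` at `s1` -/
private theorem L11_cross {𝓜 : Mach} {s N : ℕ} {σ : Sit 𝓜 s N} (F : Fc σ)
    (hface : ∀ t : Tr σ.V (Lt 𝓜.Q), t.ok F.G1 → t.root = σ.G.start → Shape t.yd)
    (t : Tr σ.V (Lt 𝓜.Q)) (ht : t.ok F.G1) (htr : t.root = σ.G.start)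
    (A : σ.V) (k : ℤ) (hA : (A, k) ∈ Labs β t 0) (d : Cx σ.V (Lt 𝓜.Q)) (hd : Cyc F.G1 A d)
    (hty : AllE Lt.one d.yl ∧ (AllE Lt.one d.yr ∨ AllE Lt.one' d.yr ∨ AllE Lt.b d.yr))
    (s1 s2 : ℤ) (h1 : hv d k (F.e.ω A) s1)
    (h2 : (eff d k (F.e.ω A)).count (Lt.one, s2) < (eff d k (F.e.ω A)).count (Lt.one', s2)) :
    s1 = k ∧ s2 = k + F.e.ω A ∧ F.e.κ A = 1 := by
  have m1 : (Lt.one, s1) ∈ eff d k (F.e.ω A) := by
    rw [← Multiset.count_pos]
    exact lt_of_le_of_lt (Nat.zero_le _) h1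
  have m2 : (Lt.one', s2) ∈ eff d k (F.e.ω A) := by
    rw [← Multiset.count_pos]
    exact lt_of_le_of_lt (Nat.zero_le _) h2
  rw [L11_mem_eff] at m1 m2
  have n2 : Lt.one' ∉ d.yl := by
    intro hm
    have := hty.1 _ hm
    simp at this
  obtain ⟨m2a, m2b⟩ : Lt.one' ∈ d.yr ∧ s2 = k + F.e.ω A := by tauto
  have n1 : Lt.one ∉ d.yr := by
    intro hm
    rcases hty.2 with h | h | h
    · have := h _ m2a
      simp at this
    · have := h _ hm
      simp at this
    · have := h _ hm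
      simp at this
  obtain ⟨m1a, m1b⟩ : Lt.one ∈ d.yl ∧ s1 = k := by tauto
  refine ⟨m1b, m2b, ?_⟩
  obtain ⟨c, u, htcu, hAu⟩ := exists_of_mem_Labs β hA
  rw [Prod.mk.injEq] at hAu
  have hok := ht
  rw [htcu, Cx.ok_plug] at hok
  have hok' : (c.plug (d.plug u)).ok F.G1 := by
    rw [Cx.ok_plug, Cx.ok_plug, Cx.root_plug]
    rw [← hAu.1, hd.root]
    refine ⟨?_, hd.ok, hok.2⟩
    rw [hAu.1]
    exact hok.1
  have hroot' : (c.plug (d.plug u)).root = σ.G.start := by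
    rw [← htr, htcu, Cx.root_plug, Cx.root_plug, Cx.root_plug, ← hAu.1, hd.root]
  have := L11_kappa F.e c d u hok.2 hd.flat (hface _ hok' hroot') m1a m2a
  rw [hAu.1]
  exact this

private theorem L11_core (𝓜 : Mach) (D D' : ℕ → ℕ) (hD : Primrec D) (mD : Monotone D)
    (hD' : Primrec D') (mD' : Monotone D') :
    Bnd (fun s N => ∀ (σ : Sit 𝓜 s N) (F : Fc σ) (t : Tr σ.V (Lt 𝓜.Q)), t.ok F.G1 →
      t.root = σ.G.start → ∀ (v v' : List (Row 𝓜.Q)) (n m : ℕ), t.yd = enc v n m v' →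
      t.yd.length ≤ D' s →
      ∀ (A1 A2 : σ.V) (k1 k2 : ℤ) (d1 d2 : Cx σ.V (Lt 𝓜.Q)),
      (A1, k1) ∈ Labs β t 0 → (A2, k2) ∈ Labs β t 0 → Cyc F.G1 A1 d1 → Cyc F.G1 A2 d2 →
      d1.size ≤ D s → d2.size ≤ D s →
      ∀ s1 s2 : ℤ, hv d1 k1 (F.e.ω A1) s1 → hv d2 k2 (F.e.ω A2) s2 →
      ∃ (j : Bool) (n2 m2 : ℕ), Reg j n2 m2 ∧ Cover 𝓜 v j s1 s2 ∧
        ((∀ x ∈ d1.yr, x ≠ Lt.b) → (∀ x ∈ d2.yr, x ≠ Lt.b) → n2 = n ∧ m2 = m)) := by
  obtain ⟨b1, pb1, mb1, hb1⟩ := face_word 𝓜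
  obtain ⟨b2, pb2, mb2, hb2⟩ := cyc_type 𝓜 D hD mD
  -- the bound
  let K : ℕ → ℕ := fun s => (D' s + 1) * (D s + 1)
  let L : ℕ → ℕ := fun s => D' s + 2 * (K s * D s)
  have pK : Primrec K := Primrec.nat_mul.comp (Primrec.succ.comp hD') (Primrec.succ.comp hD)
  have pL : Primrec L := Primrec.nat_add.comp hD'
    (Primrec.nat_mul.comp (Primrec.const 2) (Primrec.nat_mul.comp pK hD))
  have mK : Monotone K := fun x y h =>
    Nat.mul_le_mul (Nat.succ_le_succ (mD' h)) (Nat.succ_le_succ (mD h))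
  have mL : Monotone L := fun x y h =>
    Nat.add_le_add (mD' h) (Nat.mul_le_mul_left 2 (Nat.mul_le_mul (mK h) (mD h)))
  refine ⟨fun s => b1 s + b2 s + L s, Primrec.nat_add.comp (Primrec.nat_add.comp pb1 pb2) pL,
    fun x y h => Nat.add_le_add (Nat.add_le_add (mb1 h) (mb2 h)) (mL h), ?_⟩
  intro s σ F t ht htr v v' n m hyd hlen A1 A2 k1 k2 d1 d2 hA1 hA2 hd1 hd2 hz1 hz2 s1 s2 hh1 hh2
  have le1 : b1 s ≤ b1 s + b2 s + L s := by omega
  have le2 : b2 s ≤ b1 s + b2 s + L s := by omega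
  have le3 : L s ≤ b1 s + b2 s + L s := by omega
  have hface := hb1 s (L11_dn σ le1) (L11_fdn le1 F)
  have htype := hb2 s (L11_dn σ le2) (L11_fdn le2 F)
  have hshape : ∀ t : Tr σ.V (Lt 𝓜.Q), t.ok F.G1 → t.root = σ.G.start → Shape t.yd := by
    intro t' ht' htr'
    obtain ⟨w, n0, m0, w', h0, -⟩ := hface t' ht' htr'
    have h0' : t'.yd = enc w n0 m0 w' := h0
    rw [h0']
    exact shape_enc w w' n0 m0
  have hmem : ∀ {d : Cx σ.V (Lt 𝓜.Q)} {k h s0 : ℤ}, hv d k h s0 → Lt.one ∈ d.yl ∨ Lt.one ∈ d.yr := by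
    intro d k h s0 hh
    have m1 : (Lt.one, s0) ∈ eff d k h := by
      rw [← Multiset.count_pos]
      exact lt_of_le_of_lt (Nat.zero_le _) hh
    rw [L11_mem_eff] at m1
    tauto
  have ty1 := L11_type (htype t ht htr A1 k1 hA1 d1 hd1 hz1) (hmem hh1)
  have ty2 := L11_type (htype t ht htr A2 k2 hA2 d2 hd2 hz2) (hmem hh2)
  -- choice of the exponents
  set e1 := eff d1 k1 (F.e.ω A1) with he1
  set e2 := eff d2 k2 (F.e.ω A2) with he2
  have ce1 : ∀ p, e1.count p ≤ D s := fun p =>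
    (Multiset.count_le_card _ _).trans ((L11_card_eff _ _ _).trans hz1)
  have ce2 : ∀ p, e2.count p ≤ D s := fun p =>
    (Multiset.count_le_card _ _).trans ((L11_card_eff _ _ _).trans hz2)
  have hcross : e2.count (Lt.one', s1) ≤ e2.count (Lt.one, s1) ∨
      e1.count (Lt.one', s2) ≤ e1.count (Lt.one, s2) := by
    by_contra hcon
    push Not at hcon
    obtain ⟨g1, g2, g3⟩ := L11_cross F hshape t ht htr A1 k1 hA1 d1 hd1 ty1 s1 s2 hh1 hcon.2
    obtain ⟨g4, g5, g6⟩ := L11_cross F hshape t ht htr A2 k2 hA2 d2 hd2 ty2 s2 s1 hh2 hcon.1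
    have hch := chain_mid F.G1 _ F.e t ht (hshape t ht htr) 0 A1 A2 k1 k2 hA1 hA2 g3 g6
    have hs : s1 = s2 := by omega
    have hh := hcon.2
    rw [← hs] at hh
    exact absurd hh1 (not_lt.mpr hh.le)
  have hh1' : e1.count (Lt.one', s1) < e1.count (Lt.one, s1) := hh1
  have hh2' : e2.count (Lt.one', s2) < e2.count (Lt.one, s2) := hh2
  obtain ⟨K1, K2, hK1, hK2, hch1, hch2⟩ := L11_choose (D' s) (D s)
    ((e1.count (Lt.one, s1) : ℤ) - e1.count (Lt.one', s1))
    ((e2.count (Lt.one, s1) : ℤ) - e2.count (Lt.one', s1))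
    ((e1.count (Lt.one, s2) : ℤ) - e1.count (Lt.one', s2))
    ((e2.count (Lt.one, s2) : ℤ) - e2.count (Lt.one', s2))
    (by omega) (by omega) (by have := ce2 (Lt.one', s1); omega)
    (by have := ce1 (Lt.one', s2); omega) (by omega)
  -- insertion
  obtain ⟨t', ht', hroot', -, hcw⟩ := insert_many F.G1 _ F.e t ht 0
    (List.replicate K1 (A1, k1, d1) ++ List.replicate K2 (A2, k2, d2)) (by
      intro p hp
      rw [List.mem_append, List.mem_replicate, List.mem_replicate] at hp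
      rcases hp with ⟨-, rfl⟩ | ⟨-, rfl⟩
      · exact ⟨hA1, hd1⟩
      · exact ⟨hA2, hd2⟩)
  have hsum : ((List.replicate K1 (A1, k1, d1) ++ List.replicate K2 (A2, k2, d2)).map
      (fun p => eff p.2.2 p.2.1 (F.e.ω p.1))).sum = K1 • e1 + K2 • e2 := by
    rw [List.map_append, List.sum_append, List.map_replicate, List.map_replicate,
      List.sum_replicate, List.sum_replicate]
  rw [hsum] at hcw
  have hroot'' : t'.root = σ.G.start := by rw [hroot', htr]
  obtain ⟨u, n2, m2, u', hu, hul, huF, hunm⟩ := hface t' ht' hroot''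
  obtain ⟨v0, n0, m0, v0', hv0, hvl, hvF, hvnm⟩ := hface t ht htr
  have hvv : v.length = v'.length := by
    have h0 : enc v n m v' = enc v0 n0 m0 v0' := by rw [← hyd]; exact hv0
    obtain ⟨e1, -, -, e2⟩ := enc_inj h0
    rw [e1, e2]
    exact hvl
  have hfl : ∀ p ∈ K1 • e1 + K2 • e2, fl p.1 := by
    intro p hp
    have hp' : p ∈ e1 ∨ p ∈ e2 := by
      rcases Multiset.mem_add.mp hp with h | h
      · exact Or.inl (Multiset.mem_of_mem_nsmul h)
      · exact Or.inr (Multiset.mem_of_mem_nsmul h)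
    obtain ⟨x, i⟩ := p
    rcases hp' with h | h
    · rw [he1, L11_mem_eff] at h
      rcases h with ⟨h, -⟩ | ⟨h, -⟩
      · exact hd1.flat.1 _ h
      · exact hd1.flat.2 _ h
    · rw [he2, L11_mem_eff] at h
      rcases h with ⟨h, -⟩ | ⟨h, -⟩
      · exact hd2.flat.1 _ h
      · exact hd2.flat.2 _ h
  have hcw' : cw β (enc u n2 m2 u') 0 = cw β (enc v n m v') 0 + (K1 • e1 + K2 • e2) := by
    rw [← hyd, ← hcw]
    exact congrArg (fun z => cw β z 0) hu.symm
  obtain ⟨c1, c2, c3, c4, c5, c6, -, -⟩ :=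
    content_diff v v' u u' n m n2 m2 hvv hul (K1 • e1 + K2 • e2) hfl hcw'
  -- length
  have hlen' : t'.yd.length ≤ L s := by
    rw [← L11_card_cw t'.yd 0, hcw, Multiset.card_add, L11_card_cw, Multiset.card_add,
      Multiset.card_nsmul, Multiset.card_nsmul]
    have q1 : K1 * e1.card ≤ K s * D s :=
      Nat.mul_le_mul hK1 ((L11_card_eff _ _ _).trans hz1)
    have q2 : K2 * e2.card ≤ K s * D s :=
      Nat.mul_le_mul hK2 ((L11_card_eff _ _ _).trans hz2)
    show _ ≤ D' s + 2 * (K s * D s)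
    omega
  have hin : t'.yd ∈ σ.G.lang := ⟨t', F.sub t' ht', hroot'', rfl⟩
  have hK : t'.yd ∈ NSI.K 𝓜 σ.E := (σ.agree _ (hlen'.trans le3)).mp hin
  obtain ⟨u1, n3, m3, u1', hu1, hInK⟩ := hK
  have hu2 : enc u n2 m2 u' = enc u1 n3 m3 u1' := by rw [← hu1]; exact hu.symm
  obtain ⟨r1, r2, r3, r4⟩ := enc_inj hu2
  subst r1; subst r2; subst r3; subst r4
  -- the numbers of the rows
  have hnum' : ∀ i, num v' i ≤ D' s := by
    intro i
    rw [← count_one' v v' n m hvv i, ← hyd]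
    exact (Multiset.count_le_card _ _).trans ((L11_card_cw _ _).le.trans hlen)
  have hlt : ∀ i, (D' s : ℤ) < K1 * ((e1.count (Lt.one, i) : ℤ) - e1.count (Lt.one', i)) +
      K2 * ((e2.count (Lt.one, i) : ℤ) - e2.count (Lt.one', i)) → num u' i < num u i := by
    intro i hi
    have f1 := c3 i
    have f2 := c4 i
    have f3 := hnum' i
    rw [Multiset.count_add, Multiset.count_nsmul, Multiset.count_nsmul] at f1 f2
    have f1' : (num u i : ℤ) = num v i + (K1 * e1.count (Lt.one, i) + K2 * e2.count (Lt.one, i)) := by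
      exact_mod_cast f1
    have f2' : (num u' i : ℤ) =
        num v' i + (K1 * e1.count (Lt.one', i) + K2 * e2.count (Lt.one', i)) := by
      exact_mod_cast f2
    have f3' : (num v' i : ℤ) ≤ D' s := by exact_mod_cast f3
    have f4' : (0 : ℤ) ≤ num v i := by positivity
    have : (num u' i : ℤ) < num u i := by
      rw [f1', f2']
      linarith
    exact_mod_cast this
  have hn1 := hlt s1 hch1
  have hn2 := hlt s2 hch2
  obtain ⟨-, -, hcase⟩ := hInK
  rcases hcase with hc | hc | hc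
  · omega
  · exact absurd hn1 (not_lt.mpr (L11_num_KA hc.1 s1))
  · obtain ⟨w1, w2, w1', w2', r, r0, r', r0', rfl, rfl, hf1, hf2, hq, -, hreg⟩ := hc
    have g1 := L11_num_KC hf1 hf2 s1 hn1
    have g2 := L11_num_KC hf1 hf2 s2 hn2
    refine ⟨r.1.2, n2, m2, hreg, ?_, ?_⟩
    · apply L11_cover c1
      refine ⟨w1.length, r, ?_, rfl, hq, g1, g2⟩
      rw [List.getElem?_append_right le_rfl]
      simp
    · intro nb1 nb2
      have key : ∀ (d : Cx σ.V (Lt 𝓜.Q)) (k h i : ℤ), AllE Lt.one d.yl →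
          (AllE Lt.one d.yr ∨ AllE Lt.one' d.yr ∨ AllE Lt.b d.yr) → (∀ x ∈ d.yr, x ≠ Lt.b) →
          (eff d k h).count (Lt.a, i) = 0 ∧ (eff d k h).count (Lt.b, i) = 0 := by
        intro d k h i t1 t2 t3
        rw [Multiset.count_eq_zero, Multiset.count_eq_zero, L11_mem_eff, L11_mem_eff]
        constructor
        · rintro (⟨hx, -⟩ | ⟨hx, -⟩)
          · have := t1 _ hx
            simp at this
          · rcases t2 with t2 | t2 | t2
            all_goals
              have := t2 _ hx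
              simp at this
        · rintro (⟨hx, -⟩ | ⟨hx, -⟩)
          · have := t1 _ hx
            simp at this
          · exact t3 _ hx rfl
      obtain ⟨a1, a2⟩ := key d1 k1 (F.e.ω A1) v.length ty1.1 ty1.2 nb1
      obtain ⟨a3, a4⟩ := key d2 k2 (F.e.ω A2) v.length ty2.1 ty2.2 nb2
      rw [Multiset.count_add, Multiset.count_nsmul, Multiset.count_nsmul, he1, he2, a1, a3] at c5
      rw [Multiset.count_add, Multiset.count_nsmul, Multiset.count_nsmul, he1, he2, a2, a4] at c6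
      constructor
      · simpa using c5
      · simpa using c6

theorem two_heavy (𝓜 : Mach) (D : ℕ → ℕ) (hD : Primrec D) (mD : Monotone D) :
    Bnd (fun s N => ∀ (σ : Sit 𝓜 s N) (F : Fc σ) (t : Tr σ.V (Lt 𝓜.Q)), t.ok F.G1 →
      t.root = σ.G.start →
      ∀ (w w' : List (Row 𝓜.Q)) (n m : ℕ), t.yd = enc w n m w' → n ≤ D s → m ≤ D s →
      ∀ (A1 A2 : σ.V) (k1 k2 : ℤ) (d1 d2 : Cx σ.V (Lt 𝓜.Q)),
      (A1, k1) ∈ Labs β t 0 → (A2, k2) ∈ Labs β t 0 → Cyc F.G1 A1 d1 → Cyc F.G1 A2 d2 →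
      d1.size ≤ D s → d2.size ≤ D s →
      (∀ x ∈ d1.yr, x ≠ Lt.b) → (∀ x ∈ d2.yr, x ≠ Lt.b) →
      ∀ s1 s2 : ℤ, hv d1 k1 (F.e.ω A1) s1 → hv d2 k2 (F.e.ω A2) s2 →
      ∃ j, Reg j n m ∧ Cover 𝓜 w j s1 s2) := by
  obtain ⟨D', pD', mD', b1, pb1, mb1, hb1⟩ := short_two 𝓜 D hD mD
  obtain ⟨b2, pb2, mb2, hb2⟩ := L11_core 𝓜 D D' hD mD pD' mD'
  refine ⟨fun s => b1 s + b2 s, Primrec.nat_add.comp pb1 pb2,
    fun x y h => Nat.add_le_add (mb1 h) (mb2 h), ?_⟩
  intro s σ F t ht htr w w' n m hyd hn hm A1 A2 k1 k2 d1 d2 hA1 hA2 hd1 hd2 hz1 hz2 nb1 nb2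
    s1 s2 hh1 hh2
  have le1 : b1 s ≤ b1 s + b2 s := by omega
  have le2 : b2 s ≤ b1 s + b2 s := by omega
  by_contra hcon
  push Not at hcon
  obtain ⟨t1, v, v', k1', k2', s1', s2', g1, g2, g3, g4, g5, g6, g7, g8, g9⟩ :=
    hb1 s (L11_dn σ le1) (L11_fdn le1 F) t ht htr w w' n m hyd hn hm A1 A2 k1 k2 d1 d2 hA1 hA2
      hd1 hd2 hz1 hz2 s1 s2 hh1 hh2 {j | Reg j n m} (fun j hj => hcon j hj)
  obtain ⟨j, n2, m2, hreg, hcov, hnm⟩ :=
    hb2 s (L11_dn σ le2) (L11_fdn le2 F) t1 g1 g2 v v' n m g3 g4 A1 A2 k1' k2' d1 d2 g5 g6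
      hd1 hd2 hz1 hz2 s1' s2' g7 g8
  obtain ⟨rfl, rfl⟩ := hnm nb1 nb2
  exact g9 j hreg hcov

theorem one_heavy (𝓜 : Mach) (D : ℕ → ℕ) (hD : Primrec D) (mD : Monotone D) :
    Bnd (fun s N => ∀ (σ : Sit 𝓜 s N) (F : Fc σ) (t : Tr σ.V (Lt 𝓜.Q)), t.ok F.G1 →
      t.root = σ.G.start →
      ∀ (w w' : List (Row 𝓜.Q)) (n m : ℕ), t.yd = enc w n m w' → n ≤ D s → m ≤ D s →
      ∀ (A : σ.V) (k : ℤ) (d : Cx σ.V (Lt 𝓜.Q)),
      (A, k) ∈ Labs β t 0 → Cyc F.G1 A d → d.size ≤ D s →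
      ∀ s1 : ℤ, hv d k (F.e.ω A) s1 → ∃ j, Cover 𝓜 w j s1 s1) := by
  obtain ⟨D', pD', mD', b1, pb1, mb1, hb1⟩ := short_two 𝓜 D hD mD
  obtain ⟨b2, pb2, mb2, hb2⟩ := L11_core 𝓜 D D' hD mD pD' mD'
  refine ⟨fun s => b1 s + b2 s, Primrec.nat_add.comp pb1 pb2,
    fun x y h => Nat.add_le_add (mb1 h) (mb2 h), ?_⟩
  intro s σ F t ht htr w w' n m hyd hn hm A k d hA hd hz s1 hh
  have le1 : b1 s ≤ b1 s + b2 s := by omega
  have le2 : b2 s ≤ b1 s + b2 s := by omega
  by_contra hcon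
  push Not at hcon
  obtain ⟨t1, v, v', k1', k2', s1', s2', g1, g2, g3, g4, g5, g6, g7, g8, g9⟩ :=
    hb1 s (L11_dn σ le1) (L11_fdn le1 F) t ht htr w w' n m hyd hn hm A A k k d d hA hA
      hd hd hz hz s1 s1 hh hh Set.univ (fun j _ => hcon j)
  obtain ⟨j, n2, m2, hreg, hcov, -⟩ :=
    hb2 s (L11_dn σ le2) (L11_fdn le2 F) t1 g1 g2 v v' n m g3 g4 A A k1' k2' d d g5 g6
      hd hd hz hz s1' s2' g7 g8
  exact g9 j (Set.mem_univ j) hcov

end NSI
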