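import Pool.Agent.Lib.NSI.Basic

/-!
# L12 : zero-sum blocks (pure combinatorics)

Recipe for `zero_block`: number of classes of `(a i, x i mod M)`: at most `(2 C + 1) C`.  If a class
with `a = 0` has at least `M` members take `M` of them.  Otherwise at most `C * C` members have
`a = 0`.  Positive and negative parts of the sum differ by at most `C` and their total is at least
`card - C^2`; so both are large; some class `(α1, r1)`, `α1 > 0`, has at least `M C` members, and some
class `(-α2, r2)`, `α2 > 0`, has at least `M C` members; take `M α2` members of the first and `M α1`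
members of the second.  The block has at most `2 C * C` members.  An explicit (generous) bound:
`N = 20 (C + 1)^8` or so; any primitive recursive monotone bound is fine.
`pair_block`: some value `ε` is taken by `e` at least `M C` times on `S`, some value `φ` by `f` at
least `l C` times on `T`; take `M φ` members of `S` with value `ε` and `l ε` members of `T` with
value `φ`: `M * (l ε φ) = l * (M φ ε)`.
-/

set_option autoImplicit false

namespace NSI

private theorem L12_dvd {ι : Type} (S : Finset ι) (x : ι → ℕ) (M r : ℕ)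
    (h : ∀ i ∈ S, x i % M = r) (hS : M ∣ S.card) : M ∣ ∑ i ∈ S, x i := by
  have h1 : ∑ i ∈ S, x i = M * ∑ i ∈ S, x i / M + S.card * r := by
    rw [Finset.mul_sum, ← smul_eq_mul, ← Finset.sum_const, ← Finset.sum_add_distrib]
    refine Finset.sum_congr rfl fun i hi => ?_
    rw [← h i hi]
    exact (Nat.div_add_mod (x i) M).symm
  rw [h1]
  exact dvd_add (dvd_mul_right _ _) (dvd_mul_of_dvd_left hS r)

/-- the pigeonhole principle with classes (value, residue) -/
private theorem L12_class {ι : Type} (P : Finset ι) (v : ι → ℕ) (x : ι → ℕ) (M C k : ℕ)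
    (hM : 0 < M) (hMC : M ≤ C) (hv : ∀ i ∈ P, 0 < v i ∧ v i ≤ C) (hP : C * C * k ≤ P.card) :
    ∃ α r : ℕ, 0 < α ∧ α ≤ C ∧ ∃ Q ⊆ P, Q.card = k ∧ ∀ i ∈ Q, v i = α ∧ x i % M = r := by
  classical
  rcases Nat.eq_zero_or_pos k with hk | hk
  · exact ⟨1, 0, one_pos, by omega, ∅, Finset.empty_subset _, by simp [hk], by simp⟩
  have hmaps : ∀ i ∈ P, (v i, x i % M) ∈ Finset.Icc 1 C ×ˢ Finset.range M := by
    intro i hi
    rw [Finset.mem_product, Finset.mem_Icc, Finset.mem_range]
    exact ⟨hv i hi, Nat.mod_lt _ hM⟩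
  have hne : (Finset.Icc 1 C ×ˢ Finset.range M).Nonempty :=
    ⟨(1, 0), Finset.mem_product.mpr ⟨Finset.mem_Icc.mpr ⟨le_refl 1, by omega⟩,
      Finset.mem_range.mpr hM⟩⟩
  have hcard : (Finset.Icc 1 C ×ˢ Finset.range M).card * k ≤ P.card := by
    rw [Finset.card_product, Nat.card_Icc, Finset.card_range, Nat.add_sub_cancel]
    exact (Nat.mul_le_mul_right _ (Nat.mul_le_mul_left _ hMC)).trans hP
  obtain ⟨⟨α, r⟩, hy, hc⟩ := Finset.exists_le_card_fiber_of_mul_le_card_of_maps_to hmaps hne hcard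
  obtain ⟨Q, hQ, hQc⟩ := Finset.exists_subset_card_eq hc
  rw [Finset.mem_product, Finset.mem_Icc] at hy
  refine ⟨α, r, hy.1.1, hy.1.2, Q, hQ.trans (Finset.filter_subset _ _), hQc, fun i hi => ?_⟩
  have h1 := (Finset.mem_filter.mp (hQ hi)).2
  rw [Prod.mk.injEq] at h1
  exact h1

private theorem L12_primrec :
    Primrec (fun C : ℕ => C * C * C + C + (C + 1) * (C * C * (C * C))) := by
  have h1 : Primrec (fun C : ℕ => C * C) := Primrec.nat_mul.comp Primrec.id Primrec.id
  have h2 : Primrec (fun C : ℕ => C * C * (C * C)) := Primrec.nat_mul.comp h1 h1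
  have h3 : Primrec (fun C : ℕ => C * C * C) := Primrec.nat_mul.comp h1 Primrec.id
  exact Primrec.nat_add.comp (Primrec.nat_add.comp h3 Primrec.id)
    (Primrec.nat_mul.comp Primrec.succ h2)

theorem zero_block : Bnd (fun C N => ∀ (ι : Type) (_ : DecidableEq ι) (T : Finset ι) (a : ι → ℤ)
    (x : ι → ℕ) (M : ℕ), 0 < M → M ≤ C → (∀ i ∈ T, |a i| ≤ C) → |∑ i ∈ T, a i| ≤ C →
    N ≤ T.card → ∃ B ⊆ T, B.Nonempty ∧ B.card ≤ N ∧ ∑ i ∈ B, a i = 0 ∧ M ∣ ∑ i ∈ B, x i) := by
  refine Bnd.of (fun C => C * C * C + C + (C + 1) * (C * C * (C * C))) L12_primrec ?_ ?_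
  · intro c d h
    have h1 : c * c ≤ d * d := Nat.mul_le_mul h h
    exact Nat.add_le_add (Nat.add_le_add (Nat.mul_le_mul h1 h) h)
      (Nat.mul_le_mul (Nat.add_le_add_right h 1) (Nat.mul_le_mul h1 h1))
  intro C ι _ T a x M hM hMC ha hsum hT
  have hC : 0 < C := by omega
  -- the three parts
  set Z := T.filter (fun i => a i = 0) with hZ
  set P := T.filter (fun i => 0 < a i) with hP
  set R := T.filter (fun i => a i < 0) with hR
  have hZmem : ∀ i, i ∈ Z ↔ i ∈ T ∧ a i = 0 := fun i => by rw [hZ, Finset.mem_filter]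
  have hPmem : ∀ i, i ∈ P ↔ i ∈ T ∧ 0 < a i := fun i => by rw [hP, Finset.mem_filter]
  have hRmem : ∀ i, i ∈ R ↔ i ∈ T ∧ a i < 0 := fun i => by rw [hR, Finset.mem_filter]
  have hPR : Disjoint P R := by
    rw [Finset.disjoint_left]
    intro i h1 h2
    have := ((hPmem i).mp h1).2
    have := ((hRmem i).mp h2).2
    omega
  have hZPR : Disjoint Z (P ∪ R) := by
    rw [Finset.disjoint_left]
    intro i h1 h2
    have h3 := ((hZmem i).mp h1).2
    rw [Finset.mem_union, hPmem, hRmem] at h2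
    omega
  have hTeq : T = Z ∪ (P ∪ R) := by
    ext i
    rw [Finset.mem_union, Finset.mem_union, hZmem, hPmem, hRmem]
    constructor
    · intro h
      rcases lt_trichotomy (a i) 0 with h1 | h1 | h1
      · exact Or.inr (Or.inr ⟨h, h1⟩)
      · exact Or.inl ⟨h, h1⟩
      · exact Or.inr (Or.inl ⟨h, h1⟩)
    · rintro (h | h | h) <;> exact h.1
  by_cases hcase : C * C * M ≤ Z.card
  · -- a block of elements with `a = 0`
    obtain ⟨α, r, _, _, Q, hQ, hQc, hQr⟩ := L12_class Z (fun _ => 1) x M C M hM hMC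
      (fun i _ => ⟨one_pos, hC⟩) hcase
    refine ⟨Q, fun i hi => ((hZmem i).mp (hQ hi)).1, ?_, ?_, ?_, ?_⟩
    · rw [← Finset.card_pos, hQc]
      exact hM
    · rw [hQc]
      have : C ≤ C * C * C + C := Nat.le_add_left _ _
      exact hMC.trans (this.trans (Nat.le_add_right _ _))
    · exact Finset.sum_eq_zero fun i hi => ((hZmem i).mp (hQ hi)).2
    · exact L12_dvd Q x M r (fun i hi => (hQr i hi).2) (by rw [hQc])
  · push Not at hcase
    have hcT : T.card = Z.card + (P.card + R.card) := by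
      rw [hTeq, Finset.card_union_of_disjoint hZPR, Finset.card_union_of_disjoint hPR]
    have hsT : ∑ i ∈ T, a i = ∑ i ∈ P, a i + ∑ i ∈ R, a i := by
      rw [hTeq, Finset.sum_union hZPR, Finset.sum_union hPR,
        Finset.sum_eq_zero (s := Z) fun i hi => ((hZmem i).mp hi).2, zero_add]
    have hPa : ∀ i ∈ P, 1 ≤ a i ∧ a i ≤ C := by
      intro i hi
      obtain ⟨h1, h2⟩ := (hPmem i).mp hi
      exact ⟨h2, (abs_le.mp (ha i h1)).2⟩
    have hRa : ∀ i ∈ R, a i ≤ -1 ∧ -(C : ℤ) ≤ a i := by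
      intro i hi
      obtain ⟨h1, h2⟩ := (hRmem i).mp hi
      exact ⟨by omega, (abs_le.mp (ha i h1)).1⟩
    have p1 : (P.card : ℤ) ≤ ∑ i ∈ P, a i := by
      have := Finset.card_nsmul_le_sum P a 1 fun i hi => (hPa i hi).1
      simpa using this
    have p2 : ∑ i ∈ P, a i ≤ P.card * C := by
      have := Finset.sum_le_card_nsmul P a C fun i hi => (hPa i hi).2
      simpa using this
    have r1 : ∑ i ∈ R, a i ≤ -(R.card : ℤ) := by
      have := Finset.sum_le_card_nsmul R a (-1) fun i hi => (hRa i hi).1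
      simpa using this
    have r2 : -((R.card : ℤ) * C) ≤ ∑ i ∈ R, a i := by
      have := Finset.card_nsmul_le_sum R a (-(C : ℤ)) fun i hi => (hRa i hi).2
      simpa using this
    rw [hsT] at hsum
    obtain ⟨s1, s2⟩ := abs_le.mp hsum
    set K : ℕ := C * C * (C * C) with hK
    have hbig : C + (C + 1) * K ≤ P.card + R.card := by
      have h1 : C * C * M ≤ C * C * C := Nat.mul_le_mul_left _ hMC
      omega
    have hRK : K ≤ R.card := by
      by_contra hlt
      push Not at hlt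
      have h1 : (P.card : ℤ) ≤ C + R.card * C := by linarith
      have h2 : ((C : ℤ) + (C + 1) * K) ≤ P.card + R.card := by exact_mod_cast hbig
      have h3 : (R.card : ℤ) + 1 ≤ K := by exact_mod_cast hlt
      nlinarith
    have hPK : K ≤ P.card := by
      by_contra hlt
      push Not at hlt
      have h1 : (R.card : ℤ) ≤ C + P.card * C := by linarith
      have h2 : ((C : ℤ) + (C + 1) * K) ≤ P.card + R.card := by exact_mod_cast hbig
      have h3 : (P.card : ℤ) + 1 ≤ K := by exact_mod_cast hlt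
      nlinarith
    obtain ⟨α1, t1, hα1, hα1C, Q1, hQ1, hQ1c, hQ1r⟩ := L12_class P (fun i => (a i).natAbs) x M C
      (C * C) hM hMC (fun i hi => by have := hPa i hi; omega) hPK
    obtain ⟨α2, t2, hα2, hα2C, Q2, hQ2, hQ2c, hQ2r⟩ := L12_class R (fun i => (a i).natAbs) x M C
      (C * C) hM hMC (fun i hi => by have := hRa i hi; omega) hRK
    have b1 : M * α2 ≤ Q1.card := by
      rw [hQ1c]
      exact Nat.mul_le_mul hMC hα2C
    have b2 : M * α1 ≤ Q2.card := by
      rw [hQ2c]
      exact Nat.mul_le_mul hMC hα1C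
    obtain ⟨S1, hS1, hS1c⟩ := Finset.exists_subset_card_eq b1
    obtain ⟨S2, hS2, hS2c⟩ := Finset.exists_subset_card_eq b2
    have hS1P : S1 ⊆ P := hS1.trans hQ1
    have hS2R : S2 ⊆ R := hS2.trans hQ2
    have hdis : Disjoint S1 S2 := Finset.disjoint_of_subset_left hS1P
      (Finset.disjoint_of_subset_right hS2R hPR)
    have hv1 : ∑ i ∈ S1, a i = (M * α2 : ℕ) * (α1 : ℤ) := by
      rw [Finset.sum_congr rfl (g := fun _ => (α1 : ℤ)), Finset.sum_const, hS1c, nsmul_eq_mul]
      intro i hi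
      have h1 := (hQ1r i (hS1 hi)).1
      have h2 := (hPa i (hS1P hi)).1
      omega
    have hv2 : ∑ i ∈ S2, a i = (M * α1 : ℕ) * (-(α2 : ℤ)) := by
      rw [Finset.sum_congr rfl (g := fun _ => (-(α2 : ℤ))), Finset.sum_const, hS2c, nsmul_eq_mul]
      intro i hi
      have h1 := (hQ2r i (hS2 hi)).1
      have h2 := (hRa i (hS2R hi)).1
      omega
    refine ⟨S1 ∪ S2, ?_, ?_, ?_, ?_, ?_⟩
    · apply Finset.union_subset
      · exact fun i hi => ((hPmem i).mp (hS1P hi)).1
      · exact fun i hi => ((hRmem i).mp (hS2R hi)).1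
    · have : 0 < S1.card := by
        rw [hS1c]
        exact Nat.mul_pos hM hα2
      obtain ⟨i, hi⟩ := Finset.card_pos.mp this
      exact ⟨i, Finset.mem_union_left _ hi⟩
    · rw [Finset.card_union_of_disjoint hdis, hS1c, hS2c]
      have h1 : M * α2 ≤ C * C := Nat.mul_le_mul hMC hα2C
      have h2 : M * α1 ≤ C * C := Nat.mul_le_mul hMC hα1C
      have h3 : C * C * 1 ≤ C * C * C := Nat.mul_le_mul_left _ hC
      have h4 : C * C * 1 ≤ K := Nat.mul_le_mul_left _ (Nat.mul_pos hC hC)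
      have h5 : 1 * K ≤ (C + 1) * K := Nat.mul_le_mul_right _ (by omega)
      show M * α2 + M * α1 ≤ C * C * C + C + (C + 1) * K
      omega
    · rw [Finset.sum_union hdis, hv1, hv2]
      push_cast
      ring
    · rw [Finset.sum_union hdis]
      apply dvd_add
      · exact L12_dvd S1 x M t1 (fun i hi => (hQ1r i (hS1 hi)).2) (by
          rw [hS1c]
          exact dvd_mul_right _ _)
      · exact L12_dvd S2 x M t2 (fun i hi => (hQ2r i (hS2 hi)).2) (by
          rw [hS2c]
          exact dvd_mul_right _ _)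

theorem pair_block : Bnd (fun C N => ∀ (ι : Type) (_ : DecidableEq ι) (S T : Finset ι)
    (e f : ι → ℕ) (M l : ℕ), 0 < M → M ≤ C → 0 < l → l ≤ C →
    (∀ i ∈ S, 0 < e i ∧ e i ≤ C) → (∀ i ∈ T, 0 < f i ∧ f i ≤ C) → N ≤ S.card → N ≤ T.card →
    ∃ S' ⊆ S, ∃ T' ⊆ T, S'.Nonempty ∧ M * ∑ i ∈ T', f i = l * ∑ i ∈ S', e i ∧
      M ∣ ∑ i ∈ S', e i) := by
  have hprim : Primrec (fun C : ℕ => C * C * (C * C)) :=
    Primrec.nat_mul.comp (Primrec.nat_mul.comp Primrec.id Primrec.id)
      (Primrec.nat_mul.comp Primrec.id Primrec.id)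
  refine Bnd.of (fun C => C * C * (C * C)) hprim (fun c d h =>
    Nat.mul_le_mul (Nat.mul_le_mul h h) (Nat.mul_le_mul h h)) ?_
  intro C ι _ S T e f M l hM hMC hl hlC he hf hS hT
  obtain ⟨α, _, hα, hαC, Q, hQ, hQc, hQr⟩ := L12_class S e (fun _ => 0) M C
    (C * C) hM hMC he hS
  obtain ⟨φ, _, hφ, hφC, R, hR, hRc, hRr⟩ := L12_class T f (fun _ => 0) M C
    (C * C) hM hMC hf hT
  have b1 : M * φ ≤ Q.card := by
    rw [hQc]
    exact Nat.mul_le_mul hMC hφC
  have b2 : l * α ≤ R.card := by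
    rw [hRc]
    exact Nat.mul_le_mul hlC hαC
  obtain ⟨S1, hS1, hS1c⟩ := Finset.exists_subset_card_eq b1
  obtain ⟨T1, hT1, hT1c⟩ := Finset.exists_subset_card_eq b2
  have hv1 : ∑ i ∈ S1, e i = M * φ * α := by
    rw [Finset.sum_congr rfl (g := fun _ => α), Finset.sum_const, hS1c, smul_eq_mul]
    exact fun i hi => (hQr i (hS1 hi)).1
  have hv2 : ∑ i ∈ T1, f i = l * α * φ := by
    rw [Finset.sum_congr rfl (g := fun _ => φ), Finset.sum_const, hT1c, smul_eq_mul]
    exact fun i hi => (hRr i (hT1 hi)).1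
  refine ⟨S1, hS1.trans hQ, T1, hT1.trans hR, ?_, ?_, ?_⟩
  · rw [← Finset.card_pos, hS1c]
    exact Nat.mul_pos hM hφ
  · rw [hv1, hv2]
    ring
  · rw [hv1, mul_assoc]
    exact dvd_mul_right _ _

end NSI
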