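import Pool.Agent.Lib.NSI.L12

/-!
# Data of the combinatorial lemma
-/

set_option autoImplicit false

namespace NSI

/-- `ι` = cycles; cycle `i` adds `e i j` letters `1` and `e' i j` letters `1'` to row `j`; it touches
at most the rows `x i, y i`.  `Win` = first rows of the windows; `W` = the special window or
empty. -/
structure CD (C : ℕ) where
  ι : Type
  fin : Fintype ι
  dec : DecidableEq ι
  e : ι → ℤ → ℕ
  e' : ι → ℤ → ℕ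
  x : ι → ℤ
  y : ι → ℤ
  p0 : ℤ → ℕ
  p0' : ℤ → ℕ
  M : ℕ
  Win : Set ℤ
  l : ℤ → ℕ
  γ : ℤ → ℤ
  W : Set ℤ
  hM : 0 < M
  hMC : M ≤ C
  hp : ∀ j, p0 j ≤ C ∧ p0' j ≤ C
  hxy : ∀ i, |x i - y i| ≤ C
  he : ∀ i j, e i j ≤ C ∧ e' i j ≤ C
  ht : ∀ i j, (e i j ≠ 0 ∨ e' i j ≠ 0) → j = x i ∨ j = y i
  hn : ∀ i j, 0 < e i j → 0 < e' i j → ∀ j', j' ≠ j → e i j' = 0 ∧ e' i j' = 0
  hl : ∀ j ∈ Win, 0 < l j ∧ l j ≤ C ∧ |γ j| ≤ C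
  hW : ∀ j ∈ Win, j + 1 ∉ Win
  hW' : W = ∅ ∨ ∃ σ ∈ Win, W = {σ, σ + 1}
  hle : ∀ j, j ∉ W → ∀ i, e i j ≤ e' i j

/-- number of letters `1` in row `j` after the insertion of the cycles of `J` -/
def CD.q {C : ℕ} (c : CD C) (J : Finset c.ι) (j : ℤ) : ℕ := c.p0 j + ∑ i ∈ J, c.e i j

def CD.q' {C : ℕ} (c : CD C) (J : Finset c.ι) (j : ℤ) : ℕ := c.p0' j + ∑ i ∈ J, c.e' i j

/-- the properties to be preserved -/
structure CD.Good {C : ℕ} (c : CD C) (J : Finset c.ι) : Prop where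
  tight : ∀ j, j ∉ c.W → c.q J j = c.q' J j
  lin : ∀ j ∈ c.Win, (c.M : ℤ) * (c.q J (j + 1) : ℤ) = c.l j * (c.q J j : ℤ) + c.γ j
  le : ∀ σ ∈ c.Win, c.W = {σ, σ + 1} → c.q' J σ + c.q' J (σ + 1) ≤ c.q J σ + c.q J (σ + 1)

/-- `J'` is smaller than `J` and equivalent to it for our purposes -/
def CD.Sm {C : ℕ} (c : CD C) (J J' : Finset c.ι) : Prop :=
  J' ⊂ J ∧ c.Good J' ∧ ∀ j ∈ c.Win, c.q J' j % c.M = c.q J j % c.M

end NSI
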