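import Pool.Agent.Lib.NSI.L12
import Pool.Agent.Lib.NSI.L13Defs

/-!
# L13b : removal of cycles in the special window

Recipe.  `W = {σ, σ + 1}`.  Let `J1` be the elements of `J` that touch `W` and touch no row outside
`W`.  The other elements of `J` touching `W` have `e' i j > e i j` at a row `j ∉ W` with
`|j - σ| ≤ C + 1` (if `e i j > 0` then `e' i j > 0` by `hle` and `i` would touch only row `j` by `hn`);
for every such `j` there are at most `C` of them (`∑_J (e' - e) = p0 j - p0' j ≤ C`, all terms `≥ 0`):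
at most `(2 C + 4) * C` in total.
For `i ∈ J1` put `a i = M * e i (σ+1) - l * e i σ`, `x i = e i σ`,
`λ i = e' i σ + e' i (σ+1) - e i σ - e i (σ+1)`.  Extract greedily disjoint zero blocks (`zero_block`
with a large enough constant bounding `|a i|` and `|∑_{J1} a|`; the total sum over `J` is
`γ - (M p0 (σ+1) - l p0 σ)` by `lin`) until fewer than `N2` elements of `J1` are left (prove the
existence of a list of disjoint blocks by strong induction on the cardinality).
A block `B` can be removed if `Λ - ∑_B λ ≤ 0`, where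
`Λ = q' σ + q' (σ+1) - q σ - q (σ+1) ≤ 0`.  If no block can be removed then every block has
`∑_B λ < 0` and `Λ > ∑_B λ ≥ - 2 C * N2`; but
`Λ ≤ 2 C + 2 C * N2 + 2 C * (2 C + 4) * C - (number of blocks)`.  So the number of blocks is bounded,
and if `J1` is larger than a suitable bound some block is removable.
`win_bound` is then a count: `q J σ ≤ C + (card J1 + (2 C + 4) * C) * C` etc.; state: if `q J j` or
`q' J j` is `> N` for some `j ∈ W` then a smaller good `J'` exists.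
-/

set_option autoImplicit false

namespace NSI

open Classical in
/-- few cycles add more letters `1'` than letters `1` to a row outside the special window -/
theorem L13b_few {C : ℕ} (c : CD C) (J : Finset c.ι) (hJ : c.Good J) (j : ℤ) (hj : j ∉ c.W) :
    (J.filter (fun i => c.e i j < c.e' i j)).card ≤ C := by
  have h1 := hJ.tight j hj
  unfold CD.q CD.q' at h1
  have h2 := c.hp j
  have h3 : ∑ i ∈ J, c.e i j + (J.filter (fun i => c.e i j < c.e' i j)).card ≤ ∑ i ∈ J, c.e' i j := by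
    rw [Finset.card_filter, ← Finset.sum_add_distrib]
    refine Finset.sum_le_sum fun i _ => ?_
    have := c.hle j hj i
    split_ifs with h
    · omega
    · omega
  omega

/-- greedy extraction of blocks with negative weight -/
theorem L13b_extract {ι : Type} [DecidableEq ι] (N2 C2 : ℕ) (a lam : ι → ℤ) (D : ℤ)
    (P : Finset ι → Prop) (T0 : Finset ι)
    (hblock : ∀ T ⊆ T0, |∑ i ∈ T, a i| ≤ D → N2 ≤ T.card →
      ∃ B ⊆ T, B.Nonempty ∧ B.card ≤ N2 ∧ ∑ i ∈ B, a i = 0 ∧ P B)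
    (hlam : ∀ i ∈ T0, lam i ≤ C2)
    (hneg : ∀ B ⊆ T0, B.Nonempty → B.card ≤ N2 → ∑ i ∈ B, a i = 0 → P B → ∑ i ∈ B, lam i ≤ -1) :
    ∀ (n : ℕ) (T : Finset ι), T.card = n → T ⊆ T0 → |∑ i ∈ T, a i| ≤ D →
      ∃ k : ℕ, T.card ≤ k * N2 + N2 ∧ ∑ i ∈ T, lam i ≤ -(k : ℤ) + C2 * N2 := by
  intro n
  induction n using Nat.strong_induction_on with
  | _ n ih =>
    intro T hT hT0 hD
    by_cases hc : N2 ≤ T.card
    · obtain ⟨B, hB, hne, hcard, hsum, hP⟩ := hblock T hT0 hD hc
      have hpos := Finset.card_pos.2 hne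
      have hcd : (T \ B).card = T.card - B.card := by
        rw [Finset.card_sdiff_of_subset hB]
      have hle := Finset.card_le_card hB
      have hs : ∀ f : ι → ℤ, ∑ i ∈ T \ B, f i + ∑ i ∈ B, f i = ∑ i ∈ T, f i :=
        fun f => Finset.sum_sdiff hB
      obtain ⟨k, hk1, hk2⟩ := ih (T \ B).card (by omega) (T \ B) rfl
        (Finset.sdiff_subset.trans hT0) (by
          have := hs a
          rw [hsum, add_zero] at this
          rw [this]
          exact hD)
      refine ⟨k + 1, ?_, ?_⟩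
      · have : (k + 1) * N2 = k * N2 + N2 := by ring
        omega
      · have h1 := hneg B (hB.trans hT0) hne hcard hsum hP
        have h2 := hs lam
        push_cast
        linarith
    · refine ⟨0, by omega, ?_⟩
      have h1 : ∑ i ∈ T, lam i ≤ ∑ _i ∈ T, (C2 : ℤ) := Finset.sum_le_sum fun i hi => hlam i (hT0 hi)
      have h2 : ∑ _i ∈ T, (C2 : ℤ) = T.card * C2 := by simp
      have h3 : ((T.card : ℤ)) ≤ N2 := by
        have : T.card < N2 := not_le.1 hc
        exact_mod_cast this.le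
      have h4 : (T.card : ℤ) * C2 ≤ N2 * C2 := by
        exact mul_le_mul_of_nonneg_right h3 (by positivity)
      simp only [Nat.cast_zero, neg_zero, zero_add]
      linarith

/-- the constant for `zero_block` -/
def L13b_D (C : ℕ) : ℕ := C + 2 * (C * C) + (2 * C + 3) * C * (C * C)

/-- the number of blocks -/
def L13b_K (C N2 : ℕ) : ℕ := 2 * C + 4 * (C * N2) + 2 * C * ((2 * C + 3) * C)

/-- the bound -/
def L13b_N (C N2 : ℕ) : ℕ := C + ((L13b_K C N2 + 1) * N2) * C + (2 * C + 3) * C * C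

theorem L13b_sum_le {ι : Type} (S : Finset ι) (f : ι → ℕ) (C : ℕ) (h : ∀ i, f i ≤ C) :
    ∑ i ∈ S, f i ≤ S.card * C := by
  calc ∑ i ∈ S, f i ≤ ∑ _i ∈ S, C := Finset.sum_le_sum fun i _ => h i
    _ = S.card * C := by simp

theorem L13b_abs_sum_le {ι : Type} (S : Finset ι) (f : ι → ℤ) (C : ℕ) (h : ∀ i, |f i| ≤ C) :
    |∑ i ∈ S, f i| ≤ S.card * C := by
  calc |∑ i ∈ S, f i| ≤ ∑ i ∈ S, |f i| := Finset.abs_sum_le_sum_abs _ _
    _ ≤ ∑ _i ∈ S, (C : ℤ) := Finset.sum_le_sum fun i _ => h i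
    _ = S.card * C := by simp

open Classical in
theorem L13b_main (C N2 : ℕ)
    (hzb : ∀ (ι : Type) (_ : DecidableEq ι) (T : Finset ι) (a : ι → ℤ)
    (x : ι → ℕ) (M : ℕ), 0 < M → M ≤ L13b_D C → (∀ i ∈ T, |a i| ≤ L13b_D C) →
    |∑ i ∈ T, a i| ≤ L13b_D C →
    N2 ≤ T.card → ∃ B ⊆ T, B.Nonempty ∧ B.card ≤ N2 ∧ ∑ i ∈ B, a i = 0 ∧ M ∣ ∑ i ∈ B, x i)
    (c : CD C) (J : Finset c.ι) (hJ : c.Good J) (σ : ℤ) (hσ : σ ∈ c.Win) (hW : c.W = {σ, σ + 1})
    (j : ℤ) (hj : j ∈ c.W) (hN : L13b_N C N2 < c.q J j ∨ L13b_N C N2 < c.q' J j) :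
    ∃ J', c.Sm J J' := by
  by_contra hno
  -- the sets
  set touch : c.ι → Prop := fun i => c.e i σ ≠ 0 ∨ c.e' i σ ≠ 0 ∨ c.e i (σ + 1) ≠ 0 ∨
    c.e' i (σ + 1) ≠ 0 with htouch
  set p : c.ι → Prop := fun i => ∀ j, j ∉ c.W → c.e i j = 0 ∧ c.e' i j = 0 with hp
  set J1 := J.filter p with hJ1
  set T2 := (J.filter (fun i => ¬ p i)).filter touch with hT2
  have hdecN : ∀ f : c.ι → ℕ, (∀ i, ¬ touch i → f i = 0) →
      ∑ i ∈ J, f i = ∑ i ∈ J1, f i + ∑ i ∈ T2, f i := by
    intro f hf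
    rw [← Finset.sum_filter_add_sum_filter_not J p f, hJ1, hT2]
    congr 1
    symm
    refine Finset.sum_filter_of_ne fun i _ hi => ?_
    by_contra h
    exact hi (hf i h)
  have hdecZ : ∀ f : c.ι → ℤ, (∀ i, ¬ touch i → f i = 0) →
      ∑ i ∈ J, f i = ∑ i ∈ J1, f i + ∑ i ∈ T2, f i := by
    intro f hf
    rw [← Finset.sum_filter_add_sum_filter_not J p f, hJ1, hT2]
    congr 1
    symm
    refine Finset.sum_filter_of_ne fun i _ hi => ?_
    by_contra h
    exact hi (hf i h)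
  have hσW : σ ∈ c.W := by rw [hW]; simp
  have hσW1 : σ + 1 ∈ c.W := by rw [hW]; simp
  -- few elements outside
  have hT2card : T2.card ≤ (2 * C + 3) * C := by
    have hsub : T2 ⊆ (Finset.Icc (σ - (C + 1)) (σ + (C + 1))).biUnion
        (fun j => if j ∈ c.W then ∅ else J.filter (fun i => c.e i j < c.e' i j)) := by
      intro i hi
      rw [hT2, Finset.mem_filter, Finset.mem_filter] at hi
      obtain ⟨⟨hiJ, hnp⟩, hti⟩ := hi
      rw [hp] at hnp
      push Not at hnp
      obtain ⟨j', hj'W, hj'⟩ := hnp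
      have hne : c.e i j' ≠ 0 ∨ c.e' i j' ≠ 0 := by
        by_cases h : c.e i j' = 0
        · exact Or.inr (hj' h)
        · exact Or.inl h
      -- a touched row of W
      obtain ⟨w, hw1, hw2⟩ : ∃ w, (w = σ ∨ w = σ + 1) ∧ (c.e i w ≠ 0 ∨ c.e' i w ≠ 0) := by
        rcases hti with h | h | h | h
        · exact ⟨σ, Or.inl rfl, Or.inl h⟩
        · exact ⟨σ, Or.inl rfl, Or.inr h⟩
        · exact ⟨σ + 1, Or.inr rfl, Or.inl h⟩
        · exact ⟨σ + 1, Or.inr rfl, Or.inr h⟩
      have hwW : w ∈ c.W := by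
        rcases hw1 with rfl | rfl
        · exact hσW
        · exact hσW1
      have hwj : w ≠ j' := fun h => hj'W (h ▸ hwW)
      have hlt : c.e i j' < c.e' i j' := by
        refine lt_of_le_of_ne (c.hle j' hj'W i) fun h => ?_
        have h1 : 0 < c.e i j' := by
          rcases hne with h2 | h2
          · exact Nat.pos_of_ne_zero h2
          · rw [h]; exact Nat.pos_of_ne_zero h2
        have h2 := c.hn i j' h1 (h ▸ h1) w hwj
        rcases hw2 with h3 | h3
        · exact h3 h2.1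
        · exact h3 h2.2
      have hx1 := c.ht i j' hne
      have hx2 := c.ht i w hw2
      have hx3 := abs_le.1 (c.hxy i)
      refine Finset.mem_biUnion.2 ⟨j', ?_, ?_⟩
      · rw [Finset.mem_Icc]
        rcases hx1 with h | h <;> rcases hx2 with h' | h' <;> rcases hw1 with h'' | h'' <;>
          constructor <;> omega
      · rw [if_neg hj'W, Finset.mem_filter]
        exact ⟨hiJ, hlt⟩
    calc T2.card ≤ _ := Finset.card_le_card hsub
      _ ≤ ∑ j ∈ Finset.Icc (σ - ((C : ℤ) + 1)) (σ + (C + 1)),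
          (if j ∈ c.W then (∅ : Finset c.ι) else J.filter (fun i => c.e i j < c.e' i j)).card :=
        Finset.card_biUnion_le
      _ ≤ ∑ _j ∈ Finset.Icc (σ - ((C : ℤ) + 1)) (σ + (C + 1)), C := by
        refine Finset.sum_le_sum fun j' _ => ?_
        split_ifs with h
        · simp
        · exact L13b_few c J hJ j' h
      _ = (2 * C + 3) * C := by
        rw [Finset.sum_const, Int.card_Icc, smul_eq_mul]
        congr 1
        omega
  -- data
  set l := c.l σ with hl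
  obtain ⟨hl0, hlC, hγ⟩ := c.hl σ hσ
  set a : c.ι → ℤ := fun i => (c.M : ℤ) * c.e i (σ + 1) - l * c.e i σ with ha
  set lam : c.ι → ℤ := fun i => (c.e' i σ : ℤ) + c.e' i (σ + 1) - c.e i σ - c.e i (σ + 1) with hlamd
  have hMC := c.hMC
  have hM := c.hM
  have haC : ∀ i, |a i| ≤ (C * C : ℕ) := by
    intro i
    have h1 : c.M * c.e i (σ + 1) ≤ C * C := Nat.mul_le_mul hMC (c.he i _).1
    have h2 : l * c.e i σ ≤ C * C := Nat.mul_le_mul hlC (c.he i _).1
    have h1' : ((c.M : ℤ) * c.e i (σ + 1)) ≤ ((C * C : ℕ) : ℤ) := by exact_mod_cast h1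
    have h2' : ((l : ℤ) * c.e i σ) ≤ ((C * C : ℕ) : ℤ) := by exact_mod_cast h2
    have h3 : (0 : ℤ) ≤ (c.M : ℤ) * c.e i (σ + 1) := by positivity
    have h4 : (0 : ℤ) ≤ (l : ℤ) * c.e i σ := by positivity
    rw [ha, abs_le]
    constructor <;> simp only <;> linarith
  have hntouch : ∀ i, ¬ touch i → c.e i σ = 0 ∧ c.e' i σ = 0 ∧ c.e i (σ + 1) = 0 ∧
      c.e' i (σ + 1) = 0 := by
    intro i hi
    rw [htouch] at hi
    push Not at hi
    exact hi
  have hsumJ : ∑ i ∈ J, a i = c.γ σ + l * (c.p0 σ : ℤ) - c.M * (c.p0 (σ + 1) : ℤ) := by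
    have h1 := hJ.lin σ hσ
    unfold CD.q at h1
    push_cast at h1
    have h2 : ∑ i ∈ J, a i = c.M * ∑ i ∈ J, (c.e i (σ + 1) : ℤ) - l * ∑ i ∈ J, (c.e i σ : ℤ) := by
      rw [ha, Finset.sum_sub_distrib, Finset.mul_sum, Finset.mul_sum]
    rw [h2]
    linarith
  have hsumJ1 : |∑ i ∈ J1, a i| ≤ (L13b_D C : ℕ) := by
    have h1 := hdecZ a (fun i hi => by
      obtain ⟨h1, h2, h3, h4⟩ := hntouch i hi
      simp [ha, h1, h3])
    have h2 := L13b_abs_sum_le T2 a (C * C) haC
    have h3 : ((T2.card : ℤ)) * ((C * C : ℕ) : ℤ) ≤ (((2 * C + 3) * C * (C * C) : ℕ) : ℤ) := by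
      have := Nat.mul_le_mul_right (C * C) hT2card
      exact_mod_cast this
    have h4 := abs_le.1 hγ
    have h5 := (c.hp σ).1
    have h6 := (c.hp (σ + 1)).1
    have h7 : (l : ℤ) * c.p0 σ ≤ ((C * C : ℕ) : ℤ) := by exact_mod_cast Nat.mul_le_mul hlC h5
    have h8 : (c.M : ℤ) * c.p0 (σ + 1) ≤ ((C * C : ℕ) : ℤ) := by exact_mod_cast Nat.mul_le_mul hMC h6
    have h9 : (0 : ℤ) ≤ (l : ℤ) * c.p0 σ := by positivity
    have h10 : (0 : ℤ) ≤ (c.M : ℤ) * c.p0 (σ + 1) := by positivity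
    have h11 := abs_le.1 h2
    have h12 : ((L13b_D C : ℕ) : ℤ) = C + 2 * ((C * C : ℕ) : ℤ) +
        (((2 * C + 3) * C * (C * C) : ℕ) : ℤ) := by
      unfold L13b_D
      push_cast
      ring
    rw [abs_le, h12]
    have h13 : ∑ i ∈ J1, a i = ∑ i ∈ J, a i - ∑ i ∈ T2, a i := by rw [h1]; ring
    rw [h13, hsumJ]
    constructor <;> linarith [h11.1, h11.2, h4.1, h4.2]
  have hCD : C * C ≤ L13b_D C := by
    unfold L13b_D
    nlinarith [Nat.zero_le ((2 * C + 3) * C * (C * C)), Nat.zero_le (C * C)]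
  have hCD' : C ≤ L13b_D C := by
    unfold L13b_D
    nlinarith [Nat.zero_le ((2 * C + 3) * C * (C * C)), Nat.zero_le (C * C)]
  set Lam : ℤ := (c.q' J σ : ℤ) + c.q' J (σ + 1) - c.q J σ - c.q J (σ + 1) with hLam
  have hLam0 : Lam ≤ 0 := by
    have := hJ.le σ hσ hW
    have h' : ((c.q' J σ : ℤ) + c.q' J (σ + 1)) ≤ c.q J σ + c.q J (σ + 1) := by exact_mod_cast this
    rw [hLam]
    linarith
  -- removable blocks
  have hrem : ∀ B ⊆ J1, B.Nonempty → ∑ i ∈ B, a i = 0 → c.M ∣ ∑ i ∈ B, c.e i σ →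
      ∑ i ∈ B, lam i < Lam := by
    intro B hB hne hsum hdvd
    by_contra hlt
    rw [not_lt] at hlt
    apply hno
    have hBJ : B ⊆ J := hB.trans (Finset.filter_subset _ _)
    have hpB : ∀ i ∈ B, p i := fun i hi => (Finset.mem_filter.1 (hB hi)).2
    have hq : ∀ j, c.q J j = c.q (J \ B) j + ∑ i ∈ B, c.e i j := by
      intro j
      unfold CD.q
      rw [← Finset.sum_sdiff hBJ]
      ring
    have hq' : ∀ j, c.q' J j = c.q' (J \ B) j + ∑ i ∈ B, c.e' i j := by
      intro j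
      unfold CD.q'
      rw [← Finset.sum_sdiff hBJ]
      ring
    have hz : ∀ j, j ∉ c.W → ∑ i ∈ B, c.e i j = 0 ∧ ∑ i ∈ B, c.e' i j = 0 := fun j hj =>
      ⟨Finset.sum_eq_zero fun i hi => (hpB i hi j hj).1,
        Finset.sum_eq_zero fun i hi => (hpB i hi j hj).2⟩
    have hWin : ∀ j ∈ c.Win, j ≠ σ → j ∉ c.W ∧ j + 1 ∉ c.W := by
      intro j hj hjσ
      rw [hW]
      simp only [Set.mem_insert_iff, Set.mem_singleton_iff, not_or]
      refine ⟨⟨hjσ, ?_⟩, ?_, by omega⟩
      · rintro rfl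
        exact c.hW σ hσ hj
      · intro h
        exact c.hW j hj (h ▸ hσ)
    refine ⟨J \ B, ?_, ⟨?_, ?_, ?_⟩, ?_⟩
    · refine Finset.ssubset_iff_subset_ne.2 ⟨Finset.sdiff_subset, fun h => ?_⟩
      obtain ⟨i, hi⟩ := hne
      have : i ∈ J \ B := by rw [h]; exact hBJ hi
      exact (Finset.mem_sdiff.1 this).2 hi
    · intro j hj
      have h1 := hJ.tight j hj
      have h2 := hq j
      have h3 := hq' j
      obtain ⟨h4, h5⟩ := hz j hj
      omega
    · intro j hj
      by_cases hjσ : j = σ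
      · subst hjσ
        have h1 := hJ.lin j hj
        rw [hq j, hq (j + 1)] at h1
        push_cast at h1
        have h2 : ∑ i ∈ B, a i = c.M * ∑ i ∈ B, (c.e i (j + 1) : ℤ) - l * ∑ i ∈ B, (c.e i j : ℤ) := by
          rw [ha, Finset.sum_sub_distrib, Finset.mul_sum, Finset.mul_sum]
        rw [hsum] at h2
        have h3 : (c.l j : ℤ) = l := rfl
        rw [h3] at h1 ⊢
        linarith
      · obtain ⟨h1, h2⟩ := hWin j hj hjσ
        have h3 := hJ.lin j hj
        rw [hq j, hq (j + 1), (hz j h1).1, (hz _ h2).1] at h3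
        simpa using h3
    · intro σ' hσ' hW'
      have hσσ : σ' = σ := by
        have h1 : σ ∈ ({σ', σ' + 1} : Set ℤ) := hW' ▸ hσW
        have h2 : σ + 1 ∈ ({σ', σ' + 1} : Set ℤ) := hW' ▸ hσW1
        simp only [Set.mem_insert_iff, Set.mem_singleton_iff] at h1 h2
        omega
      rw [hσσ]
      have h1 : ∑ i ∈ B, lam i = (∑ i ∈ B, c.e' i σ : ℕ) + (∑ i ∈ B, c.e' i (σ + 1) : ℕ) -
          (∑ i ∈ B, c.e i σ : ℕ) - (∑ i ∈ B, c.e i (σ + 1) : ℕ) := by
        rw [hlamd, Finset.sum_sub_distrib, Finset.sum_sub_distrib, Finset.sum_add_distrib]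
        push_cast
        ring
      have h2 := hq σ
      have h3 := hq (σ + 1)
      have h4 := hq' σ
      have h5 := hq' (σ + 1)
      rw [h1, hLam, h2, h3, h4, h5] at hlt
      push_cast at hlt
      have h6 : ((c.q' (J \ B) σ : ℤ) + c.q' (J \ B) (σ + 1)) ≤
          c.q (J \ B) σ + c.q (J \ B) (σ + 1) := by linarith
      exact_mod_cast h6
    · intro j hj
      by_cases hjσ : j = σ
      · subst hjσ
        rw [hq j]
        obtain ⟨k, hk⟩ := hdvd
        rw [hk, Nat.add_mul_mod_self_left]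
      · obtain ⟨h1, h2⟩ := hWin j hj hjσ
        rw [hq j, (hz j h1).1, add_zero]
  -- bounds on lam
  have hlamU : ∀ i, lam i ≤ (2 * C : ℕ) := by
    intro i
    have h1 := (c.he i σ).2
    have h2 := (c.he i (σ + 1)).2
    have h1' : (c.e' i σ : ℤ) ≤ C := by exact_mod_cast h1
    have h2' : (c.e' i (σ + 1) : ℤ) ≤ C := by exact_mod_cast h2
    rw [hlamd]
    push_cast
    have h3 : (0 : ℤ) ≤ c.e i σ := by positivity
    have h4 : (0 : ℤ) ≤ c.e i (σ + 1) := by positivity
    linarith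
  have hlamA : ∀ i, |lam i| ≤ (2 * C : ℕ) := by
    intro i
    rw [abs_le]
    refine ⟨?_, hlamU i⟩
    have h1 := (c.he i σ).1
    have h2 := (c.he i (σ + 1)).1
    have h1' : (c.e i σ : ℤ) ≤ C := by exact_mod_cast h1
    have h2' : (c.e i (σ + 1) : ℤ) ≤ C := by exact_mod_cast h2
    rw [hlamd]
    push_cast
    have h3 : (0 : ℤ) ≤ c.e' i σ := by positivity
    have h4 : (0 : ℤ) ≤ c.e' i (σ + 1) := by positivity
    linarith
  -- extraction
  have hblock : ∀ T ⊆ J1, |∑ i ∈ T, a i| ≤ ((L13b_D C : ℕ) : ℤ) → N2 ≤ T.card →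
      ∃ B ⊆ T, B.Nonempty ∧ B.card ≤ N2 ∧ ∑ i ∈ B, a i = 0 ∧ c.M ∣ ∑ i ∈ B, c.e i σ := by
    intro T _ hTD hTc
    exact hzb c.ι (Classical.decEq _) T a (fun i => c.e i σ) c.M hM (hMC.trans hCD')
      (fun i _ => (haC i).trans (by exact_mod_cast hCD)) hTD hTc
  obtain ⟨k, hk1, hk2⟩ := L13b_extract N2 (2 * C) a lam ((L13b_D C : ℕ) : ℤ)
    (fun B => c.M ∣ ∑ i ∈ B, c.e i σ) J1 hblock (fun i _ => hlamU i)
    (fun B hB hne _ hs hd => by
      have := hrem B hB hne hs hd
      omega) J1.card J1 rfl (Finset.Subset.refl _) hsumJ1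
  have hJ1card : J1.card ≤ (L13b_K C N2 + 1) * N2 := by
    by_cases hc : N2 ≤ J1.card
    · obtain ⟨B, hB, hne, hcard, hs, hd⟩ := hblock J1 (Finset.Subset.refl _) hsumJ1 hc
      have h1 := hrem B hB hne hs hd
      have h2 := abs_le.1 (L13b_abs_sum_le B lam (2 * C) hlamA)
      have h3 : ((B.card : ℤ)) * ((2 * C : ℕ) : ℤ) ≤ ((N2 * (2 * C) : ℕ) : ℤ) := by
        exact_mod_cast Nat.mul_le_mul_right (2 * C) hcard
      have h4 : Lam = (c.p0' σ : ℤ) + c.p0' (σ + 1) - c.p0 σ - c.p0 (σ + 1) + ∑ i ∈ J, lam i := by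
        rw [hLam, hlamd, Finset.sum_sub_distrib, Finset.sum_sub_distrib, Finset.sum_add_distrib]
        unfold CD.q CD.q'
        push_cast
        ring
      have h5 := hdecZ lam (fun i hi => by
        obtain ⟨h1, h2, h3, h4⟩ := hntouch i hi
        simp [hlamd, h1, h2, h3, h4])
      have h6 := abs_le.1 (L13b_abs_sum_le T2 lam (2 * C) hlamA)
      have h7 : ((T2.card : ℤ)) * ((2 * C : ℕ) : ℤ) ≤ (((2 * C + 3) * C * (2 * C) : ℕ) : ℤ) := by
        exact_mod_cast Nat.mul_le_mul_right (2 * C) hT2card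
      have h8 := (c.hp σ).2
      have h9 := (c.hp (σ + 1)).2
      have h8' : (c.p0' σ : ℤ) ≤ C := by exact_mod_cast h8
      have h9' : (c.p0' (σ + 1) : ℤ) ≤ C := by exact_mod_cast h9
      have h10 : (0 : ℤ) ≤ c.p0 σ := by positivity
      have h11 : (0 : ℤ) ≤ c.p0 (σ + 1) := by positivity
      have hkK : (k : ℤ) ≤ ((L13b_K C N2 : ℕ) : ℤ) := by
        unfold L13b_K
        push_cast at h2 h3 h6 h7 hk2 ⊢
        nlinarith [h2.1, h2.2, h6.1, h6.2]
      have hkK' : k ≤ L13b_K C N2 := by exact_mod_cast hkK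
      calc J1.card ≤ k * N2 + N2 := hk1
        _ = (k + 1) * N2 := by ring
        _ ≤ (L13b_K C N2 + 1) * N2 := Nat.mul_le_mul_right _ (by omega)
    · calc J1.card ≤ 1 * N2 := by omega
        _ ≤ (L13b_K C N2 + 1) * N2 := Nat.mul_le_mul_right _ (by omega)
  -- conclusion
  have hjj : j = σ ∨ j = σ + 1 := by
    rw [hW] at hj
    simpa using hj
  have hbq : c.q J j ≤ L13b_N C N2 := by
    unfold CD.q L13b_N
    rw [hdecN (fun i => c.e i j) (fun i hi => by
      obtain ⟨h1, h2, h3, h4⟩ := hntouch i hi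
      rcases hjj with rfl | rfl
      · exact h1
      · exact h3)]
    have h1 := L13b_sum_le J1 (fun i => c.e i j) C (fun i => (c.he i j).1)
    have h2 := L13b_sum_le T2 (fun i => c.e i j) C (fun i => (c.he i j).1)
    have h3 := Nat.mul_le_mul_right C hJ1card
    have h4 := Nat.mul_le_mul_right C hT2card
    have h5 := (c.hp j).1
    omega
  have hbq' : c.q' J j ≤ L13b_N C N2 := by
    unfold CD.q' L13b_N
    rw [hdecN (fun i => c.e' i j) (fun i hi => by
      obtain ⟨h1, h2, h3, h4⟩ := hntouch i hi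
      rcases hjj with rfl | rfl
      · exact h2
      · exact h4)]
    have h1 := L13b_sum_le J1 (fun i => c.e' i j) C (fun i => (c.he i j).2)
    have h2 := L13b_sum_le T2 (fun i => c.e' i j) C (fun i => (c.he i j).2)
    have h3 := Nat.mul_le_mul_right C hJ1card
    have h4 := Nat.mul_le_mul_right C hT2card
    have h5 := (c.hp j).2
    omega
  rcases hN with h | h
  · exact absurd h (not_lt.2 hbq)
  · exact absurd h (not_lt.2 hbq')

theorem L13b_primD : Primrec L13b_D := by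
  unfold L13b_D
  have hCC : Primrec (fun C : ℕ => C * C) := Primrec.nat_mul.comp Primrec.id Primrec.id
  have h2 : Primrec (fun C : ℕ => 2 * (C * C)) := Primrec.nat_mul.comp (Primrec.const 2) hCC
  have h3 : Primrec (fun C : ℕ => 2 * C + 3) :=
    Primrec.nat_add.comp (Primrec.nat_mul.comp (Primrec.const 2) Primrec.id) (Primrec.const 3)
  exact Primrec.nat_add.comp (Primrec.nat_add.comp Primrec.id h2)
    (Primrec.nat_mul.comp (Primrec.nat_mul.comp h3 Primrec.id) hCC)

theorem L13b_monoD : Monotone L13b_D := by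
  intro x y h
  unfold L13b_D
  gcongr

theorem win_step : Bnd (fun C N => ∀ (c : CD C) (J : Finset c.ι), c.Good J → ∀ j ∈ c.W,
    (N < c.q J j ∨ N < c.q' J j) → ∃ J', c.Sm J J') := by
  obtain ⟨b, hb1, hb2, hb3⟩ := zero_block.comp L13b_primD L13b_monoD
  refine ⟨fun C => L13b_N C (b C), ?_, ?_, ?_⟩
  · unfold L13b_N L13b_K
    have h3 : Primrec (fun C : ℕ => 2 * C + 3) :=
      Primrec.nat_add.comp (Primrec.nat_mul.comp (Primrec.const 2) Primrec.id) (Primrec.const 3)
    have h4 : Primrec (fun C : ℕ => (2 * C + 3) * C) := Primrec.nat_mul.comp h3 Primrec.id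
    have h5 : Primrec (fun C : ℕ => 2 * C) := Primrec.nat_mul.comp (Primrec.const 2) Primrec.id
    have h6 : Primrec (fun C : ℕ => 4 * (C * b C)) :=
      Primrec.nat_mul.comp (Primrec.const 4) (Primrec.nat_mul.comp Primrec.id hb1)
    have hK : Primrec (fun C : ℕ => 2 * C + 4 * (C * b C) + 2 * C * ((2 * C + 3) * C)) :=
      Primrec.nat_add.comp (Primrec.nat_add.comp h5 h6) (Primrec.nat_mul.comp h5 h4)
    exact Primrec.nat_add.comp (Primrec.nat_add.comp Primrec.id
      (Primrec.nat_mul.comp (Primrec.nat_mul.comp (Primrec.nat_add.comp hK (Primrec.const 1)) hb1)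
        Primrec.id)) (Primrec.nat_mul.comp h4 Primrec.id)
  · intro x y h
    have h1 := hb2 h
    show L13b_N x (b x) ≤ L13b_N y (b y)
    unfold L13b_N L13b_K
    gcongr
  · intro C c J hJ j hj hN
    obtain ⟨σ, hσ, hW⟩ : ∃ σ ∈ c.Win, c.W = {σ, σ + 1} := by
      rcases c.hW' with h | h
      · rw [h] at hj
        exact absurd hj (Set.notMem_empty _)
      · exact h
    exact L13b_main C (b C) (hb3 C) c J hJ σ hσ hW j hj hN

end NSI
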