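import Pool.Agent.Lib.NSI.L13a
import Pool.Agent.Lib.NSI.L13b

/-!
# L13 : the combinatorial lemma

Recipe.  Strong induction on the cardinality of `J` (or take `J` good of minimal cardinality among
those reachable by `Sm`): if `q J j > N` or `q' J j > N` for some `j` there is a smaller one:
`j ∈ W`: `win_step`.  `j ∉ W`: `q' J j = q J j`.  `j` in no window: `neu_free` and `row_bound`.
`j ∈ Win` (or `j - 1 ∈ Win`): if both `Neu` sets of the window have at least `N1` elements `neu_win`;
otherwise `row_bound` bounds one of the two numbers of the window, and the other one by the linear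
equation (`M, l ≥ 1`, `|γ| ≤ C`, `M, l ≤ C`).
-/

set_option autoImplicit false

namespace NSI

/-- the bound for one number of a window, from the bound for the other one -/
private theorem L13_lin {C : ℕ} (c : CD C) (J : Finset c.ι) (hJ : c.Good J) (j : ℤ)
    (hj : j ∈ c.Win) (R : ℕ) : (c.q J j ≤ R → c.q J (j + 1) ≤ C * R + C) ∧
      (c.q J (j + 1) ≤ R → c.q J j ≤ C * R + C) := by
  have h1 := hJ.lin j hj
  obtain ⟨h2, h3, h4⟩ := c.hl j hj
  obtain ⟨h5, h6⟩ := abs_le.mp h4
  have h7 := c.hM
  have h8 := c.hMC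
  constructor
  · intro h
    have h9 : (c.q J (j + 1) : ℤ) ≤ c.M * c.q J (j + 1) := by
      have : (1 : ℤ) ≤ c.M := by exact_mod_cast h7
      nlinarith [Int.natCast_nonneg (c.q J (j + 1))]
    have h10 : (c.l j : ℤ) * c.q J j ≤ C * R := by
      exact_mod_cast Nat.mul_le_mul h3 h
    have h11 : (c.q J (j + 1) : ℤ) ≤ C * R + C := by linarith
    exact_mod_cast h11
  · intro h
    have h9 : (c.q J j : ℤ) ≤ c.l j * c.q J j := by
      have : (1 : ℤ) ≤ c.l j := by exact_mod_cast h2
      nlinarith [Int.natCast_nonneg (c.q J j)]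
    have h10 : (c.M : ℤ) * c.q J (j + 1) ≤ C * R := by
      exact_mod_cast Nat.mul_le_mul h8 h
    have h11 : (c.q J j : ℤ) ≤ C * R + C := by linarith
    exact_mod_cast h11

/-- windows are disjoint from the special window or equal to it -/
private theorem L13_win {C : ℕ} (c : CD C) (j : ℤ) (hj : j ∈ c.Win) (h : j ∉ c.W ∨ j + 1 ∉ c.W) :
    j ∉ c.W ∧ j + 1 ∉ c.W := by
  rcases c.hW' with h0 | ⟨σ, hσ, h0⟩
  · rw [h0]
    exact ⟨fun h => h, fun h => h⟩
  · have a1 : j ≠ σ := by
      rintro rfl
      rw [h0] at h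
      simp at h
    have a2 : j ≠ σ + 1 := by
      rintro rfl
      exact c.hW σ hσ hj
    have a3 : j + 1 ≠ σ := by
      rintro rfl
      exact c.hW j hj hσ
    have a4 : j + 1 ≠ σ + 1 := fun h => a1 (by omega)
    rw [h0]
    simp only [Set.mem_insert_iff, Set.mem_singleton_iff]
    exact ⟨fun h => h.elim a1 a2, fun h => h.elim a3 a4⟩

theorem comb : Bnd (fun C N => ∀ (c : CD C) (J0 : Finset c.ι), c.Good J0 →
    ∃ J : Finset c.ι, J ⊆ J0 ∧ c.Good J ∧ (∀ j ∈ c.Win, c.q J j % c.M = c.q J0 j % c.M) ∧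
      ∀ j, c.q J j ≤ N ∧ c.q' J j ≤ N) := by
  obtain ⟨b1, p1, m1, h1⟩ := neu_win
  obtain ⟨b2, p2, m2, h2⟩ := win_step
  have pR : Primrec (fun C : ℕ => C + C * C + b1 C * C) :=
    Primrec.nat_add.comp (Primrec.nat_add.comp Primrec.id (Primrec.nat_mul.comp Primrec.id
      Primrec.id)) (Primrec.nat_mul.comp p1 Primrec.id)
  have mR : Monotone (fun C : ℕ => C + C * C + b1 C * C) := fun x y h =>
    Nat.add_le_add (Nat.add_le_add h (Nat.mul_le_mul h h)) (Nat.mul_le_mul (m1 h) h)
  refine Bnd.of (fun C => b2 C + ((C + C * C + b1 C * C) + (C * (C + C * C + b1 C * C) + C)))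
    (Primrec.nat_add.comp p2 (Primrec.nat_add.comp pR (Primrec.nat_add.comp
      (Primrec.nat_mul.comp Primrec.id pR) Primrec.id)))
    (fun x y h => Nat.add_le_add (m2 h) (Nat.add_le_add (mR h) (Nat.add_le_add
      (Nat.mul_le_mul h (mR h)) h))) ?_
  intro C c J0
  set R := C + C * C + b1 C * C with hR
  set N := b2 C + (R + (C * R + C)) with hN
  -- the step
  have step : ∀ J : Finset c.ι, c.Good J → ¬ (∀ j, c.q J j ≤ N ∧ c.q' J j ≤ N) →
      ∃ J', c.Sm J J' := by
    intro J hJ hbad
    push Not at hbad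
    obtain ⟨j, hj⟩ := hbad
    have hj' : N < c.q J j ∨ N < c.q' J j := by
      rcases Nat.lt_or_ge N (c.q J j) with h | h
      · exact Or.inl h
      · exact Or.inr (hj h)
    by_cases hjW : j ∈ c.W
    · exact h2 C c J hJ j hjW (by
        rcases hj' with h | h
        · exact Or.inl (by omega)
        · exact Or.inr (by omega))
    have hq : N < c.q J j := by
      have := hJ.tight j hjW
      omega
    have hrow : ∀ j', j' ∉ c.W → (c.Neu J j').card < b1 C → c.q J j' ≤ R := by
      intro j' h3 h4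
      have h5 := row_bound c J hJ j' h3
      have h6 := Nat.mul_le_mul_right C h4.le
      omega
    by_cases hw : j ∈ c.Win
    · obtain ⟨_, hjW'⟩ := L13_win c j hw (Or.inl hjW)
      by_cases h3 : b1 C ≤ (c.Neu J j).card
      · by_cases h4 : b1 C ≤ (c.Neu J (j + 1)).card
        · exact h1 C c J hJ j hw hjW h3 h4
        · have h5 := hrow (j + 1) hjW' (by omega)
          have h6 := (L13_lin c J hJ j hw R).2 h5
          omega
      · have h5 := hrow j hjW (by omega)
        omega
    · by_cases hw' : j - 1 ∈ c.Win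
      · have e1 : j - 1 + 1 = j := by omega
        obtain ⟨hjW', _⟩ := L13_win c (j - 1) hw' (Or.inr (by rw [e1]; exact hjW))
        by_cases h3 : b1 C ≤ (c.Neu J (j - 1)).card
        · by_cases h4 : b1 C ≤ (c.Neu J (j - 1 + 1)).card
          · exact h1 C c J hJ (j - 1) hw' hjW' h3 h4
          · rw [e1] at h4
            have h5 := hrow j hjW (by omega)
            omega
        · have h5 := hrow (j - 1) hjW' (by omega)
          have h6 := (L13_lin c J hJ (j - 1) hw' R).1 h5
          rw [e1] at h6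
          omega
      · by_cases h3 : (c.Neu J j).Nonempty
        · exact neu_free c J hJ j hjW hw hw' h3
        · rw [Finset.not_nonempty_iff_eq_empty] at h3
          have h5 := row_bound c J hJ j hjW
          rw [h3, Finset.card_empty, zero_mul] at h5
          omega
  induction J0 using Finset.strongInduction with
  | H J0 ih =>
    intro hJ0
    by_cases hb : ∀ j, c.q J0 j ≤ N ∧ c.q' J0 j ≤ N
    · exact ⟨J0, Finset.Subset.refl _, hJ0, fun _ _ => rfl, hb⟩
    · obtain ⟨J', hs, hg, hm⟩ := step J0 hJ0 hb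
      obtain ⟨J, k1, k2, k3, k4⟩ := ih J' hs hg
      exact ⟨J, k1.trans hs.subset, k2, fun j hj => (k3 j hj).trans (hm j hj), k4⟩

end NSI
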