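import Pool.Agent.Lib.NSI.L13Defs

/-!
# L13a : removal of neutral cycles outside the special window

`Neu J j` = the cycles of `J` that add the same positive number of letters `1` and `1'` to row `j`
(they touch only row `j` by `hn`).

Recipe.  `few_pos`: `∑_J (e' - e) = p0 j - p0' j ≤ C` and all terms are `≥ 0` (`hle`).
`neu_free`: remove one element of `Neu J j`.  `neu_win`: `pair_block` with `S = Neu J j`,
`T = Neu J (j+1)`; remove `S' ∪ T'` (disjoint, because the elements touch only one row).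
Note `j + 1 ∉ W` as well: `W` is a window `{σ, σ + 1}` and windows are disjoint.
`row_bound`: `q j ≤ p0 j + (cycles with e < e') * C + |Neu| * C` (cycles with `e = e' = 0` add
nothing).
-/

set_option autoImplicit false

namespace NSI

open Classical in
/-- neutral cycles at row `j` -/
noncomputable def CD.Neu {C : ℕ} (c : CD C) (J : Finset c.ι) (j : ℤ) : Finset c.ι :=
  J.filter (fun i => c.e i j = c.e' i j ∧ 0 < c.e i j)

private theorem L13a_mem {C : ℕ} (c : CD C) (J : Finset c.ι) (j : ℤ) (i : c.ι) :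
    i ∈ c.Neu J j ↔ i ∈ J ∧ c.e i j = c.e' i j ∧ 0 < c.e i j := by
  unfold CD.Neu
  rw [Finset.mem_filter]

/-- neutral cycles touch only one row -/
private theorem L13a_zero {C : ℕ} (c : CD C) (J : Finset c.ι) (j : ℤ) {i : c.ι}
    (hi : i ∈ c.Neu J j) {j' : ℤ} (hj' : j' ≠ j) : c.e i j' = 0 ∧ c.e' i j' = 0 := by
  obtain ⟨_, h1, h2⟩ := (L13a_mem c J j i).mp hi
  exact c.hn i j h2 (h1 ▸ h2) j' hj'

/-- removal of a set of cycles -/
private theorem L13a_sdiff {C : ℕ} (c : CD C) (J B : Finset c.ι) (hB : B ⊆ J)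
    (J' : Finset c.ι) (hJ' : ∀ i, i ∈ J' ↔ i ∈ J ∧ i ∉ B) (j : ℤ) :
    c.q J' j + ∑ i ∈ B, c.e i j = c.q J j ∧ c.q' J' j + ∑ i ∈ B, c.e' i j = c.q' J j := by
  classical
  have h : J' = J \ B := by
    ext i
    rw [hJ', Finset.mem_sdiff]
  subst h
  unfold CD.q CD.q'
  rw [add_assoc, add_assoc, Finset.sum_sdiff hB, Finset.sum_sdiff hB]
  exact ⟨rfl, rfl⟩

/-- a sufficient condition for the removal of a set of cycles -/
private theorem L13a_sm {C : ℕ} (c : CD C) (J : Finset c.ι) (hJ : c.Good J) (B : Finset c.ι)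
    (hB : B ⊆ J) (hne : B.Nonempty) (h1 : ∀ j, j ∉ c.W → ∑ i ∈ B, c.e i j = ∑ i ∈ B, c.e' i j)
    (h2 : ∀ j ∈ c.Win, c.M * ∑ i ∈ B, c.e i (j + 1) = c.l j * ∑ i ∈ B, c.e i j)
    (h3 : ∀ j ∈ c.W, ∑ i ∈ B, c.e i j = 0 ∧ ∑ i ∈ B, c.e' i j = 0)
    (h4 : ∀ j ∈ c.Win, c.M ∣ ∑ i ∈ B, c.e i j) : ∃ J', c.Sm J J' := by
  classical
  have key := L13a_sdiff c J B hB (J \ B) (fun i => Finset.mem_sdiff)
  refine ⟨J \ B, ?_, ⟨?_, ?_, ?_⟩, ?_⟩
  · refine Finset.ssubset_iff_subset_ne.mpr ⟨Finset.sdiff_subset, fun h => ?_⟩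
    obtain ⟨i, hi⟩ := hne
    have h5 : i ∈ J \ B := by
      rw [h]
      exact hB hi
    exact (Finset.mem_sdiff.mp h5).2 hi
  · intro j hj
    have e1 := (key j).1
    have e2 := (key j).2
    have e3 := hJ.tight j hj
    have e4 := h1 j hj
    omega
  · intro j hj
    have e1 := (key j).1
    have e2 := (key (j + 1)).1
    have e3 := hJ.lin j hj
    have e4 := h2 j hj
    have f1 : (c.q J j : ℤ) = c.q (J \ B) j + (∑ i ∈ B, c.e i j : ℕ) := by exact_mod_cast e1.symm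
    have f2 : (c.q J (j + 1) : ℤ) = c.q (J \ B) (j + 1) + (∑ i ∈ B, c.e i (j + 1) : ℕ) := by
      exact_mod_cast e2.symm
    have f4 : (c.M : ℤ) * (∑ i ∈ B, c.e i (j + 1) : ℕ) = c.l j * (∑ i ∈ B, c.e i j : ℕ) := by
      exact_mod_cast e4
    rw [f1, f2] at e3
    linarith
  · intro σ hσ hW
    have e1 := key σ
    have e2 := key (σ + 1)
    have e3 := h3 σ (by rw [hW]; simp)
    have e4 := h3 (σ + 1) (by rw [hW]; simp)
    have e5 := hJ.le σ hσ hW
    omega
  · intro j hj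
    have e1 := (key j).1
    obtain ⟨k, hk⟩ := h4 j hj
    rw [← e1, hk, Nat.add_mul_mod_self_left]

open Classical in
theorem few_pos {C : ℕ} (c : CD C) (J : Finset c.ι) (hJ : c.Good J) (j : ℤ) (hj : j ∉ c.W) :
    (J.filter (fun i => c.e i j < c.e' i j)).card ≤ C := by
  have h1 : ∑ i ∈ J, c.e i j + (J.filter (fun i => c.e i j < c.e' i j)).card ≤
      ∑ i ∈ J, c.e' i j := by
    rw [Finset.card_filter, ← Finset.sum_add_distrib]
    refine Finset.sum_le_sum fun i _ => ?_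
    have := c.hle j hj i
    split_ifs with h <;> omega
  have h2 := hJ.tight j hj
  unfold CD.q CD.q' at h2
  have h3 := c.hp j
  omega

theorem row_bound {C : ℕ} (c : CD C) (J : Finset c.ι) (hJ : c.Good J) (j : ℤ) (hj : j ∉ c.W) :
    c.q J j ≤ C + C * C + (c.Neu J j).card * C := by
  classical
  have h1 : ∑ i ∈ J, c.e i j ≤ (J.filter (fun i => c.e i j < c.e' i j)).card * C +
      (c.Neu J j).card * C := by
    unfold CD.Neu
    rw [Finset.card_filter, Finset.card_filter, Finset.sum_mul, Finset.sum_mul,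
      ← Finset.sum_add_distrib]
    refine Finset.sum_le_sum fun i _ => ?_
    have h2 := c.hle j hj i
    have h3 := (c.he i j).1
    by_cases h4 : c.e i j < c.e' i j
    · rw [if_pos h4, one_mul]
      omega
    · by_cases h5 : c.e i j = c.e' i j ∧ 0 < c.e i j
      · rw [if_neg h4, if_pos h5, one_mul]
        omega
      · have : c.e i j = 0 := by omega
        rw [this]
        exact Nat.zero_le _
  have h2 := Nat.mul_le_mul_right C (few_pos c J hJ j hj)
  have h3 := (c.hp j).1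
  unfold CD.q
  omega

theorem neu_free {C : ℕ} (c : CD C) (J : Finset c.ι) (hJ : c.Good J) (j : ℤ) (hj : j ∉ c.W)
    (h1 : j ∉ c.Win) (h2 : j - 1 ∉ c.Win) (hne : (c.Neu J j).Nonempty) :
    ∃ J', c.Sm J J' := by
  obtain ⟨i, hi⟩ := hne
  obtain ⟨hiJ, hi1, hi2⟩ := (L13a_mem c J j i).mp hi
  have hz : ∀ j', j' ≠ j → c.e i j' = 0 ∧ c.e' i j' = 0 := fun j' hj' => L13a_zero c J j hi hj'
  refine L13a_sm c J hJ {i} (Finset.singleton_subset_iff.mpr hiJ) ⟨i, Finset.mem_singleton_self i⟩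
    ?_ ?_ ?_ ?_
  · intro j' _
    rw [Finset.sum_singleton, Finset.sum_singleton]
    by_cases h : j' = j
    · rw [h, hi1]
    · rw [(hz j' h).1, (hz j' h).2]
  · intro j' hj'
    rw [Finset.sum_singleton, Finset.sum_singleton]
    have a1 : j' ≠ j := fun h => h1 (h ▸ hj')
    have a2 : j' + 1 ≠ j := fun h => h2 (by rw [← h, add_sub_cancel_right]; exact hj')
    rw [(hz _ a1).1, (hz _ a2).1, mul_zero, mul_zero]
  · intro j' hj'
    rw [Finset.sum_singleton, Finset.sum_singleton]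
    exact hz j' (fun h => hj (h ▸ hj'))
  · intro j' hj'
    rw [Finset.sum_singleton, (hz j' (fun h => h1 (h ▸ hj'))).1]
    exact dvd_zero _

theorem neu_win : Bnd (fun C N => ∀ (c : CD C) (J : Finset c.ι), c.Good J → ∀ j ∈ c.Win, j ∉ c.W →
    N ≤ (c.Neu J j).card → N ≤ (c.Neu J (j + 1)).card → ∃ J', c.Sm J J') := by
  refine pair_block.mono fun C N hblock c J hJ j hj hjW hN1 hN2 => ?_
  letI := c.dec
  obtain ⟨hl1, hl2, _⟩ := c.hl j hj
  obtain ⟨S, hS, T, hT, hSne, hST, hMS⟩ := hblock c.ι c.dec (c.Neu J j) (c.Neu J (j + 1))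
    (fun i => c.e i j) (fun i => c.e i (j + 1)) c.M (c.l j) c.hM c.hMC hl1 hl2
    (fun i hi => ⟨((L13a_mem c J j i).mp hi).2.2, (c.he i j).1⟩)
    (fun i hi => ⟨((L13a_mem c J (j + 1) i).mp hi).2.2, (c.he i (j + 1)).1⟩) hN1 hN2
  have hjj : j + 1 ≠ j := by omega
  -- `j + 1` is not in the special window
  have hjW' : j + 1 ∉ c.W := by
    intro h
    rcases c.hW' with h0 | ⟨σ, hσ, h0⟩
    · rw [h0] at h
      exact h
    · rw [h0] at h
      rcases h with h | h
      · exact c.hW j hj (h ▸ hσ)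
      · have h5 : j + 1 = σ + 1 := h
        have h6 : j = σ := by omega
        apply hjW
        rw [h0, h6]
        simp
  have hdis : Disjoint S T := by
    rw [Finset.disjoint_left]
    intro i hi hi'
    have h5 := (L13a_zero c J j (hS hi) hjj).1
    have h6 := ((L13a_mem c J (j + 1) i).mp (hT hi')).2.2
    omega
  -- the sums over the block
  have hs1 : ∀ j', j' ≠ j → ∑ i ∈ S, c.e i j' = 0 ∧ ∑ i ∈ S, c.e' i j' = 0 := fun j' h =>
    ⟨Finset.sum_eq_zero fun i hi => (L13a_zero c J j (hS hi) h).1,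
      Finset.sum_eq_zero fun i hi => (L13a_zero c J j (hS hi) h).2⟩
  have ht1 : ∀ j', j' ≠ j + 1 → ∑ i ∈ T, c.e i j' = 0 ∧ ∑ i ∈ T, c.e' i j' = 0 := fun j' h =>
    ⟨Finset.sum_eq_zero fun i hi => (L13a_zero c J (j + 1) (hT hi) h).1,
      Finset.sum_eq_zero fun i hi => (L13a_zero c J (j + 1) (hT hi) h).2⟩
  have hs2 : ∑ i ∈ S, c.e i j = ∑ i ∈ S, c.e' i j :=
    Finset.sum_congr rfl fun i hi => ((L13a_mem c J j i).mp (hS hi)).2.1
  have ht2 : ∑ i ∈ T, c.e i (j + 1) = ∑ i ∈ T, c.e' i (j + 1) :=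
    Finset.sum_congr rfl fun i hi => ((L13a_mem c J (j + 1) i).mp (hT hi)).2.1
  have hother : ∀ j', j' ≠ j → j' ≠ j + 1 → ∑ i ∈ S ∪ T, c.e i j' = 0 ∧
      ∑ i ∈ S ∪ T, c.e' i j' = 0 := by
    intro j' h5 h6
    rw [Finset.sum_union hdis, Finset.sum_union hdis, (hs1 j' h5).1, (hs1 j' h5).2,
      (ht1 j' h6).1, (ht1 j' h6).2]
    exact ⟨rfl, rfl⟩
  have hj0 : ∑ i ∈ S ∪ T, c.e i j = ∑ i ∈ S, c.e i j := by
    rw [Finset.sum_union hdis, (ht1 j hjj.symm).1, add_zero]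
  have hj1 : ∑ i ∈ S ∪ T, c.e i (j + 1) = ∑ i ∈ T, c.e i (j + 1) := by
    rw [Finset.sum_union hdis, (hs1 (j + 1) hjj).1, zero_add]
  refine L13a_sm c J hJ (S ∪ T) ?_ ?_ ?_ ?_ ?_ ?_
  · apply Finset.union_subset
    · exact fun i hi => ((L13a_mem c J j i).mp (hS hi)).1
    · exact fun i hi => ((L13a_mem c J (j + 1) i).mp (hT hi)).1
  · obtain ⟨i, hi⟩ := hSne
    exact ⟨i, Finset.mem_union_left _ hi⟩
  · intro j' _
    by_cases h5 : j' = j
    · subst h5
      rw [hj0, Finset.sum_union hdis, (ht1 j' hjj.symm).2, add_zero, hs2]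
    · by_cases h6 : j' = j + 1
      · subst h6
        rw [hj1, Finset.sum_union hdis, (hs1 (j + 1) hjj).2, zero_add, ht2]
      · rw [(hother j' h5 h6).1, (hother j' h5 h6).2]
  · intro j' hj'
    by_cases h5 : j' = j
    · subst h5
      rw [hj0, hj1]
      exact hST
    · have a1 : j' ≠ j + 1 := fun h => c.hW j hj (h ▸ hj')
      have a2 : j' + 1 ≠ j := fun h => c.hW j' hj' (h ▸ hj)
      have a3 : j' + 1 ≠ j + 1 := fun h => h5 (by omega)
      rw [(hother j' h5 a1).1, (hother (j' + 1) a2 a3).1, mul_zero, mul_zero]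
  · intro j' hj'
    exact hother j' (fun h => hjW (h ▸ hj')) (fun h => hjW' (h ▸ hj'))
  · intro j' hj'
    by_cases h5 : j' = j
    · subst h5
      rw [hj0]
      exact hMS
    · have a1 : j' ≠ j + 1 := fun h => c.hW j hj (h ▸ hj')
      rw [(hother j' h5 a1).1]
      exact dvd_zero _

end NSI
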