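import Pool.Agent.Lib.NSI.L11

/-!
# L14b : core and cycles over a tight word

Recipe.  (`C1 = 2 ^ s`, `B = Bb s`, `C2 = Cb (2 ^ s) (Hb s)`.)  The tree of `enc x0 n m x0` is `F.G1`-ok
(`F.full`, `wt_enc`).  `core_cycles` (T07), `k = 0`: core `t0`, cycles `cs` (sizes
`≤ Bb (card V) ≤ Bb s`, `Bb` monotone).  `irr_bound`: all counts of `t0` are `≤ C2`; `face_word`:
`t0.yd = enc v n0 m0 v'`, `content_diff` (`eff` consists of flat letters; the sum over the list):
letters and sums.  `cyc_type` for all cycles (`Labs t0 = Labs tz`).  `one_heavy` for `t0`: a heavy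
row `i` of a cycle satisfies `Cover v j i i` for some `j`: there is `p` with `x0[p]` not halting and
`i ∈ {p + 1, p + 2}`, so `p + 2 ^ s + 4 < R = x0.length`, so `i ≤ R - 2 ^ s - 3`.
A cycle of type (1, b) with both parts nonempty: the `b` has index `R` (`content_diff`), the `1` has
index `R - ω ≥ R - C1` and is heavy there: impossible.
Mixed cycles: type (b, 1') with both parts nonempty: the `1'` are in a row with index
`i ∈ [R - C1, R]`; at such a row no cycle is heavy, and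
`∑ (count 1' - count 1) = num v i - num v' i ≤ C2` (both totals are `num x0 i`); so there are at most
`(C1 + 1) * C2` mixed cycles (count them by their row).
-/

set_option autoImplicit false

namespace NSI

/-- mixed cycles: `b` on the left and `1'` on the right -/
def Mixed {Q : ℕ} {V : Type} (d : Cx V (Lt Q)) : Prop :=
  d.yl ≠ [] ∧ d.yr ≠ [] ∧ AllE Lt.b d.yl ∧ AllE Lt.one' d.yr

/-- restriction of the bound -/
private def L14b_restr {𝓜 : Mach} {s N N' : ℕ} (h : N ≤ N') (σ : Sit 𝓜 s N') : Sit 𝓜 s N where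
  V := σ.V
  fin := σ.fin
  dec := σ.dec
  G := σ.G
  E := σ.E
  hV := σ.hV
  hE := σ.hE
  agree := fun z hz => σ.agree z (hz.trans h)

private def L14b_restrF {𝓜 : Mach} {s N N' : ℕ} (h : N ≤ N') (σ : Sit 𝓜 s N') (F : Fc σ) :
    Fc (L14b_restr h σ) where
  G1 := F.G1
  start := F.start
  sub := F.sub
  full := F.full
  e := F.e

private theorem L14b_count_sum {α β' : Type} [DecidableEq β'] (l : List α) (f : α → Multiset β')
    (x : β') : ((l.map f).sum).count x = (l.map (fun p => (f p).count x)).sum := by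
  induction l with
  | nil => simp
  | cons a l ih => simp [ih]

private theorem L14b_eff_count {Q : ℕ} {V : Type} (d : Cx V (Lt Q)) (k h : ℤ) (x : Lt Q) (j : ℤ) :
    (eff d k h).count (x, j) =
      (if j = k then d.yl.count x else 0) + (if j = k + h then d.yr.count x else 0) := by
  have key : ∀ (l : List (Lt Q)) (i : ℤ),
      ((l : Multiset (Lt Q)).map (fun y => (y, i))).count (x, j) = if j = i then l.count x else 0 := by
    intro l i
    induction l with
    | nil => simp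
    | cons y l ih =>
      rw [← Multiset.cons_coe, Multiset.map_cons, Multiset.count_cons, ih, List.count_cons]
      by_cases h1 : j = i
      · subst h1
        by_cases h2 : x = y
        · subst h2; simp
        · have h3 : ¬ y = x := fun h => h2 h.symm
          simp [h2, h3]
      · simp [h1]
  unfold eff
  rw [Multiset.count_add, key, key]

private theorem L14b_swap {α : Type} (l : List α) (S : Finset ℤ) (g : α → ℤ → ℤ) :
    (l.map (fun p => ∑ i ∈ S, g p i)).sum = ∑ i ∈ S, (l.map (fun p => g p i)).sum := by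
  induction l with
  | nil => simp
  | cons a l ih => simp [ih, Finset.sum_add_distrib]

private theorem L14b_len {α : Type} (l : List α) (P : α → Prop) [DecidablePred P] (f : α → ℤ)
    (h0 : ∀ p ∈ l, 0 ≤ f p) (h1 : ∀ p ∈ l, P p → 1 ≤ f p) :
    (((l.filter (fun p => decide (P p))).length : ℕ) : ℤ) ≤ (l.map f).sum := by
  induction l with
  | nil => simp
  | cons a l ih =>
    have ih' := ih (fun p hp => h0 p (by simp [hp])) (fun p hp => h1 p (by simp [hp]))
    have a0 := h0 a (by simp)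
    by_cases hP : P a
    · have a1 := h1 a (by simp) hP
      simp only [List.filter_cons, hP, decide_true, if_true, List.length_cons, List.map_cons,
        List.sum_cons]
      push_cast
      linarith
    · simp only [List.filter_cons, hP, decide_false, List.map_cons, List.sum_cons]
      simp only [Bool.false_eq_true, if_false]
      linarith

private theorem L14b_castsum {α : Type} (l : List α) (f : α → ℕ) :
    (((l.map f).sum : ℕ) : ℤ) = (l.map (fun p => (f p : ℤ))).sum := by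
  induction l with
  | nil => simp
  | cons a l ih => simp [ih]

private theorem L14b_subsum {α : Type} (l : List α) (f g : α → ℤ) :
    (l.map (fun p => f p - g p)).sum = (l.map f).sum - (l.map g).sum := by
  induction l with
  | nil => simp
  | cons a l ih => simp only [List.map_cons, List.sum_cons, ih]; ring

private theorem L14b_le_sum {α : Type} (l : List α) (f : α → ℕ) (p : α) (hp : p ∈ l) :
    f p ≤ (l.map f).sum := by
  induction l with
  | nil => simp at hp
  | cons a l ih =>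
    simp only [List.map_cons, List.sum_cons]
    rcases List.mem_cons.1 hp with rfl | h
    · omega
    · have := ih h; omega

private theorem L14b_count_pos {Q : ℕ} {x : Lt Q} {u : List (Lt Q)} (h : AllE x u) (hu : u ≠ []) :
    0 < u.count x := by
  cases u with
  | nil => exact absurd rfl hu
  | cons y u =>
    have : y = x := h y (by simp)
    subst this
    simp

private theorem L14b_count_zero {Q : ℕ} {x y : Lt Q} {u : List (Lt Q)} (h : AllE x u)
    (hxy : y ≠ x) : u.count y = 0 := by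
  rw [List.count_eq_zero]
  intro hy
  exact hxy (h y hy)

private theorem L14b_Hb_primrec : Primrec Hb := by
  unfold Hb
  exact Primrec.nat_mul.comp
    (Primrec.nat_add.comp (Primrec.nat_mul.comp (Primrec.const 2) Primrec.id) (Primrec.const 1))
    Primrec.id

private theorem L14b_Hb_mono : Monotone Hb := by
  intro a b h
  unfold Hb
  gcongr

private theorem L14b_Bb_primrec : Primrec Bb := by
  unfold Bb
  exact Primrec.nat_mul.comp L14b_Hb_primrec
    (Primrec.nat_add.comp (primrec_pow.comp (Primrec.const 2)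
      (Primrec.nat_add.comp L14b_Hb_primrec (Primrec.const 1))) (Primrec.const 1))

private theorem L14b_Bb_mono : Monotone Bb := by
  intro a b h
  unfold Bb
  have h1 := L14b_Hb_mono h
  have h2 : 2 ^ (Hb a + 1) ≤ 2 ^ (Hb b + 1) := Nat.pow_le_pow_right (by norm_num) (by omega)
  exact Nat.mul_le_mul h1 (by omega)

/-- the bound for the rows of cores -/
private def L14b_Cs (s : ℕ) : ℕ := Cb (2 ^ s) (Hb s)

private theorem L14b_Cs_primrec : Primrec L14b_Cs := by
  unfold L14b_Cs Cb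
  have h2 : Primrec (fun s : ℕ => 2 ^ s) := primrec_pow.comp (Primrec.const 2) Primrec.id
  have hH : Primrec (fun s : ℕ => Hb s + 1) := Primrec.nat_add.comp L14b_Hb_primrec (Primrec.const 1)
  exact Primrec.nat_mul.comp
    (primrec_pow.comp (Primrec.const 2)
      (Primrec.nat_mul.comp (Primrec.nat_add.comp h2 (Primrec.const 1)) hH))
    (Primrec.nat_mul.comp
      (Primrec.nat_add.comp (Primrec.nat_mul.comp (Primrec.const 4) h2) (Primrec.const 1)) hH)

private theorem L14b_Cs_mono : Monotone L14b_Cs := by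
  intro a b h
  unfold L14b_Cs Cb
  have h1 := L14b_Hb_mono h
  have h2 : 2 ^ a ≤ 2 ^ b := Nat.pow_le_pow_right (by norm_num) h
  have h3 : 2 ^ ((2 ^ a + 1) * (Hb a + 1)) ≤ 2 ^ ((2 ^ b + 1) * (Hb b + 1)) :=
    Nat.pow_le_pow_right (by norm_num) (Nat.mul_le_mul (by omega) (by omega))
  exact Nat.mul_le_mul h3 (Nat.mul_le_mul (by omega) (by omega))

/-- the total bound -/
private def L14b_D (s : ℕ) : ℕ := Bb s + (2 ^ s + 2) * L14b_Cs s

private theorem L14b_D_primrec : Primrec L14b_D := by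
  unfold L14b_D
  have h2 : Primrec (fun s : ℕ => 2 ^ s) := primrec_pow.comp (Primrec.const 2) Primrec.id
  exact Primrec.nat_add.comp L14b_Bb_primrec
    (Primrec.nat_mul.comp (Primrec.nat_add.comp h2 (Primrec.const 2)) L14b_Cs_primrec)

private theorem L14b_D_mono : Monotone L14b_D := by
  intro a b h
  unfold L14b_D
  have h2 : 2 ^ a ≤ 2 ^ b := Nat.pow_le_pow_right (by norm_num) h
  have := L14b_Bb_mono h
  have := Nat.mul_le_mul (show 2 ^ a + 2 ≤ 2 ^ b + 2 by omega) (L14b_Cs_mono h)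
  omega

open Classical in
theorem core_data (𝓜 : Mach) : ∃ D : ℕ → ℕ, Primrec D ∧ Monotone D ∧
    Bnd (fun s N => ∀ (σ : Sit 𝓜 s N) (F : Fc σ) (x0 : List (Row 𝓜.Q)) (n m : ℕ),
      FF 𝓜 σ.E x0 → enc x0 n m x0 ∈ σ.G.lang →
      (∀ (p : ℕ) (r : Row 𝓜.Q), x0[p]? = some r → x0.length ≤ p + (2 ^ s + 4) →
        r.1.1 = 𝓜.qh) →
      ∃ (t0 : Tr σ.V (Lt 𝓜.Q)) (v v' : List (Row 𝓜.Q)) (n0 m0 : ℕ)
        (cs : List (σ.V × ℤ × Cx σ.V (Lt 𝓜.Q))),
        t0.ok F.G1 ∧ t0.root = σ.G.start ∧ t0.yd = enc v n0 m0 v' ∧ n0 ≤ D s ∧ m0 ≤ D s ∧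
        n0 ≤ m0 ∧ (∀ i, num v i ≤ D s ∧ num v' i ≤ D s) ∧
        (∀ p ∈ cs, (p.1, p.2.1) ∈ Labs β t0 0 ∧ Cyc F.G1 p.1 p.2.2 ∧ p.2.2.size ≤ D s ∧
          CType p.2.2.yl p.2.2.yr ∧
          ¬ (p.2.2.yl ≠ [] ∧ p.2.2.yr ≠ [] ∧ AllE Lt.one p.2.2.yl ∧ AllE Lt.b p.2.2.yr)) ∧
        (cs.filter (fun p => decide (Mixed p.2.2))).length ≤ D s ∧
        v.map Prod.fst = x0.map Prod.fst ∧ v'.map Prod.fst = x0.map Prod.fst ∧
        (∀ i, num v i + (cs.map (fun p => (eff p.2.2 p.2.1 (F.e.ω p.1)).count (Lt.one, i))).sum =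
          num x0 i) ∧
        (∀ i, num v' i + (cs.map (fun p => (eff p.2.2 p.2.1 (F.e.ω p.1)).count (Lt.one', i))).sum =
          num x0 i) ∧
        n0 + (cs.map (fun p => p.2.2.yl.count Lt.a + p.2.2.yr.count Lt.a)).sum = n ∧
        m0 + (cs.map (fun p => p.2.2.yl.count Lt.b + p.2.2.yr.count Lt.b)).sum = m) := by
  refine ⟨L14b_D, L14b_D_primrec, L14b_D_mono, ?_⟩
  obtain ⟨b1, p1, m1, f1⟩ := face_word 𝓜
  obtain ⟨b2, p2, m2, f2⟩ := irr_bound 𝓜
  obtain ⟨b3, p3, m3, f3⟩ := cyc_type 𝓜 L14b_D L14b_D_primrec L14b_D_mono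
  obtain ⟨b4, p4, m4, f4⟩ := one_heavy 𝓜 L14b_D L14b_D_primrec L14b_D_mono
  refine ⟨fun s => (b1 s + b2 s) + (b3 s + b4 s),
    Primrec.nat_add.comp (Primrec.nat_add.comp p1 p2) (Primrec.nat_add.comp p3 p4),
    fun a b h => Nat.add_le_add (Nat.add_le_add (m1 h) (m2 h)) (Nat.add_le_add (m3 h) (m4 h)), ?_⟩
  intro s σ F x0 n m hFF hz hhalt
  -- the four tools for our situation
  have T1 : ∀ t : Tr σ.V (Lt 𝓜.Q), t.ok F.G1 → t.root = σ.G.start →
      ∃ w n m w', t.yd = enc w n m w' ∧ w.length = w'.length ∧ FF 𝓜 σ.E w ∧ n ≤ m := by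
    have h : b1 s ≤ (b1 s + b2 s) + (b3 s + b4 s) := by omega
    exact f1 s (L14b_restr h σ) (L14b_restrF h σ F)
  have T2 : ∀ t : Tr σ.V (Lt 𝓜.Q), t.ok F.G1 → t.root = σ.G.start → Irr t 0 →
      ∀ (x : Lt 𝓜.Q) (j : ℤ), (cw β t.yd 0).count (x, j) ≤ L14b_Cs s := by
    have h : b2 s ≤ (b1 s + b2 s) + (b3 s + b4 s) := by omega
    exact f2 s (L14b_restr h σ) (L14b_restrF h σ F)
  have T3 : ∀ t : Tr σ.V (Lt 𝓜.Q), t.ok F.G1 →
      t.root = σ.G.start → ∀ (A : σ.V) (j : ℤ), (A, j) ∈ Labs β t 0 →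
      ∀ d : Cx σ.V (Lt 𝓜.Q), Cyc F.G1 A d → d.size ≤ L14b_D s → CType d.yl d.yr := by
    have h : b3 s ≤ (b1 s + b2 s) + (b3 s + b4 s) := by omega
    exact f3 s (L14b_restr h σ) (L14b_restrF h σ F)
  have T4 : ∀ t : Tr σ.V (Lt 𝓜.Q), t.ok F.G1 → t.root = σ.G.start →
      ∀ (w w' : List (Row 𝓜.Q)) (n m : ℕ), t.yd = enc w n m w' → n ≤ L14b_D s → m ≤ L14b_D s →
      ∀ (A : σ.V) (k : ℤ) (d : Cx σ.V (Lt 𝓜.Q)),
      (A, k) ∈ Labs β t 0 → Cyc F.G1 A d → d.size ≤ L14b_D s →
      ∀ s1 : ℤ, hv d k (F.e.ω A) s1 → ∃ j, Cover 𝓜 w j s1 s1 := by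
    have h : b4 s ≤ (b1 s + b2 s) + (b3 s + b4 s) := by omega
    exact f4 s (L14b_restr h σ) (L14b_restrF h σ F)
  -- the tree of the word
  obtain ⟨tz, hzok, hzroot, hzyd⟩ := hz
  have hzok1 : tz.ok F.G1 := by
    refine F.full tz hzok hzroot ?_
    rw [hzyd, (wt_enc x0 x0 n m).1]
    ring
  let _ : Fintype σ.V := σ.fin
  obtain ⟨t0, cs, h0ok, h0root, h0labs, h0irr, hcs, hcw⟩ :=
    core_cycles F.G1 (2 ^ s) F.e tz hzok1 0
  have h0root' : t0.root = σ.G.start := by rw [h0root, hzroot]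
  obtain ⟨v, n0, m0, v', h0yd, hlen, hFFv, hnm0⟩ := T1 t0 h0ok h0root'
  have hC := T2 t0 h0ok h0root' h0irr
  have hCsD : L14b_Cs s ≤ L14b_D s := by
    unfold L14b_D
    have : 1 * L14b_Cs s ≤ (2 ^ s + 2) * L14b_Cs s :=
      Nat.mul_le_mul (Nat.le_add_left 1 (2 ^ s + 1)) le_rfl
    omega
  have hnumv : ∀ i, num v i ≤ L14b_Cs s := by
    intro i
    have := hC Lt.one i
    rwa [h0yd, count_one v v' n0 m0 hlen] at this
  have hnumv' : ∀ i, num v' i ≤ L14b_Cs s := by
    intro i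
    have := hC Lt.one' i
    rwa [h0yd, count_one' v v' n0 m0 hlen] at this
  have hn0 : n0 ≤ L14b_Cs s := by
    have := hC Lt.a v.length
    rwa [h0yd, count_a v v' n0 m0 hlen, if_pos rfl] at this
  have hm0 : m0 ≤ L14b_Cs s := by
    have := hC Lt.b v.length
    rwa [h0yd, count_b v v' n0 m0 hlen, if_pos rfl] at this
  have hBs : ∀ p ∈ cs, p.2.2.size ≤ L14b_D s := by
    intro p hp
    have h1 := (hcs p hp).2.2
    have h2 := L14b_Bb_mono σ.hV
    unfold L14b_D
    omega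
  have hlab : ∀ p ∈ cs, (p.1, p.2.1) ∈ Labs β t0 0 := by
    intro p hp
    rw [h0labs]
    exact (hcs p hp).1
  have hcyc : ∀ p ∈ cs, Cyc F.G1 p.1 p.2.2 := fun p hp => (hcs p hp).2.1
  -- content
  have hDfl : ∀ p ∈ (cs.map (fun p => eff p.2.2 p.2.1 (F.e.ω p.1))).sum, fl p.1 := by
    intro x hx
    have : ∀ l : List (σ.V × ℤ × Cx σ.V (Lt 𝓜.Q)), (∀ p ∈ l, Cyc F.G1 p.1 p.2.2) →
        x ∈ (l.map (fun p => eff p.2.2 p.2.1 (F.e.ω p.1))).sum → fl x.1 := by
      intro l
      induction l with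
      | nil => intro _ h; simp at h
      | cons a l ih =>
        intro hl h
        rw [List.map_cons, List.sum_cons, Multiset.mem_add] at h
        rcases h with h | h
        · have hfl := (hl a (by simp)).flat
          unfold eff at h
          rw [Multiset.mem_add, Multiset.mem_map, Multiset.mem_map] at h
          rcases h with ⟨y, hy, rfl⟩ | ⟨y, hy, rfl⟩
          · exact hfl.1 y (by simpa using hy)
          · exact hfl.2 y (by simpa using hy)
        · exact ih (fun p hp => hl p (by simp [hp])) h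
    exact this cs hcyc hx
  rw [hzyd, h0yd] at hcw
  obtain ⟨c1, c2, c3, c4, c5, c6, c7, c8⟩ :=
    content_diff v v' x0 x0 n0 m0 n m hlen rfl _ hDfl hcw
  have hvl : v.length = x0.length := by
    have := congrArg List.length c1
    simpa using this.symm
  -- bounds for the balance
  have hω : ∀ p ∈ cs, |F.e.ω p.1| ≤ ((2 ^ s : ℕ) : ℤ) := by
    intro p hp
    obtain ⟨c, t, ht, hpt⟩ := exists_of_mem_Labs β (hlab p hp)
    have hok : t.ok F.G1 := by
      rw [ht, Cx.ok_plug] at h0ok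
      exact h0ok.2
    have := F.e.hC t hok
    have hr : p.1 = t.root := (Prod.ext_iff.1 hpt).1
    rw [hr]
    exact this
  -- heavy rows are far from the centre
  have hheavy : ∀ p ∈ cs, ∀ i : ℤ, hv p.2.2 p.2.1 (F.e.ω p.1) i →
      i + (2 ^ s : ℕ) + 2 < (x0.length : ℤ) := by
    intro p hp i hi
    obtain ⟨j, q, r, hq1, hq2, hq3, hq4, hq5⟩ := T4 t0 h0ok h0root' v v' n0 m0 h0yd
      (hn0.trans hCsD) (hm0.trans hCsD) p.1 p.2.1 p.2.2 (hlab p hp) (hcyc p hp) (hBs p hp) i hi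
    have hx : ∃ r' : Row 𝓜.Q, x0[q]? = some r' ∧ r'.1 = r.1 := by
      have h1 : (x0.map Prod.fst)[q]? = (v.map Prod.fst)[q]? := by rw [c1]
      rw [List.getElem?_map, List.getElem?_map, hq1] at h1
      simp only [Option.map_some, Option.map_eq_some_iff] at h1
      exact h1
    obtain ⟨r', hr1, hr2⟩ := hx
    have hne : r'.1.1 ≠ 𝓜.qh := by rw [hr2]; exact hq3
    have : ¬ x0.length ≤ q + (2 ^ s + 4) := fun hle => hne (hhalt q r' hr1 hle)
    push_cast
    have h3 : q + (2 ^ s + 4) < x0.length := by omega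
    have h4 : ((q + (2 ^ s + 4) : ℕ) : ℤ) < (x0.length : ℤ) := by exact_mod_cast h3
    push_cast at h4
    rcases hq4 with h | h <;> linarith
  -- counts of letters in `eff` of one cycle
  have hDc : ∀ (x : Lt 𝓜.Q) (j : ℤ),
      ((cs.map (fun p => eff p.2.2 p.2.1 (F.e.ω p.1))).sum).count (x, j) =
      (cs.map (fun p => (eff p.2.2 p.2.1 (F.e.ω p.1)).count (x, j))).sum :=
    fun x j => L14b_count_sum cs _ (x, j)
  have hone_le : ∀ (x : Lt 𝓜.Q) (j : ℤ), ∀ p ∈ cs, (eff p.2.2 p.2.1 (F.e.ω p.1)).count (x, j) ≤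
      ((cs.map (fun p => eff p.2.2 p.2.1 (F.e.ω p.1))).sum).count (x, j) := by
    intro x j p hp
    rw [hDc]
    exact L14b_le_sum cs (fun p => (eff p.2.2 p.2.1 (F.e.ω p.1)).count (x, j)) p hp
  have hab : ∀ x : Lt 𝓜.Q, (x = Lt.a ∨ x = Lt.b) → ∀ p ∈ cs,
      (0 < p.2.2.yl.count x → p.2.1 = (v.length : ℤ)) ∧
      (0 < p.2.2.yr.count x → p.2.1 + F.e.ω p.1 = (v.length : ℤ)) := by
    intro x hx p hp
    have key : ∀ j : ℤ, j ≠ v.length → (eff p.2.2 p.2.1 (F.e.ω p.1)).count (x, j) = 0 := by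
      intro j hj
      have h1 := hone_le x j p hp
      have h2 := c7 j hj
      rcases hx with rfl | rfl
      · omega
      · omega
    constructor
    · intro hpos
      by_contra hne
      have := key p.2.1 hne
      rw [L14b_eff_count, if_pos rfl] at this
      omega
    · intro hpos
      by_contra hne
      have := key (p.2.1 + F.e.ω p.1) hne
      rw [L14b_eff_count] at this
      rw [if_pos (rfl : p.2.1 + F.e.ω p.1 = p.2.1 + F.e.ω p.1)] at this
      omega
  have habs : ∀ x : Lt 𝓜.Q, (x = Lt.a ∨ x = Lt.b) →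
      ((cs.map (fun p => eff p.2.2 p.2.1 (F.e.ω p.1))).sum).count (x, (v.length : ℤ)) =
      (cs.map (fun p => p.2.2.yl.count x + p.2.2.yr.count x)).sum := by
    intro x hx
    rw [hDc]
    congr 1
    apply List.map_congr_left
    intro p hp
    rw [L14b_eff_count]
    obtain ⟨h1, h2⟩ := hab x hx p hp
    congr 1
    · by_cases h : (v.length : ℤ) = p.2.1
      · rw [if_pos h]
      · rw [if_neg h]
        by_contra hne
        exact h (h1 (Nat.pos_of_ne_zero (fun h0 => hne h0.symm))).symm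
    · by_cases h : (v.length : ℤ) = p.2.1 + F.e.ω p.1
      · rw [if_pos h]
      · rw [if_neg h]
        by_contra hne
        exact h (h2 (Nat.pos_of_ne_zero (fun h0 => hne h0.symm))).symm
  -- no cycle of type (1, b)
  have hno1b : ∀ p ∈ cs, ¬ (p.2.2.yl ≠ [] ∧ p.2.2.yr ≠ [] ∧ AllE Lt.one p.2.2.yl ∧
      AllE Lt.b p.2.2.yr) := by
    rintro p hp ⟨hl, hr, hl1, hrb⟩
    have hkh := (hab Lt.b (Or.inr rfl) p hp).2 (L14b_count_pos hrb hr)
    have hhv : hv p.2.2 p.2.1 (F.e.ω p.1) p.2.1 := by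
      unfold hv
      rw [L14b_eff_count, L14b_eff_count, if_pos rfl, if_pos rfl,
        L14b_count_zero hl1 (by simp), L14b_count_zero hrb (by simp),
        L14b_count_zero hrb (by simp)]
      have := L14b_count_pos hl1 hl
      simpa using this
    have h1 := hheavy p hp _ hhv
    have h2 := hω p hp
    rw [abs_le] at h2
    rw [hvl] at hkh
    linarith [h2.1, h2.2]
  -- mixed cycles
  have hmixrow : ∀ p ∈ cs, Mixed p.2.2 → p.2.1 = (v.length : ℤ) ∧
      p.2.1 + F.e.ω p.1 ∈ Finset.Icc ((v.length : ℤ) - (2 ^ s : ℕ)) (v.length : ℤ) := by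
    rintro p hp ⟨hl, hr, hlb, hr1⟩
    have hk := (hab Lt.b (Or.inr rfl) p hp).1 (L14b_count_pos hlb hl)
    refine ⟨hk, ?_⟩
    have h2 := hω p hp
    rw [abs_le] at h2
    rw [Finset.mem_Icc]
    refine ⟨by linarith [h2.1], ?_⟩
    by_contra hgt
    push Not at hgt
    have h3 := (c8 (p.2.1 + F.e.ω p.1) (Or.inr hgt)).2
    have h4 := hone_le Lt.one' (p.2.1 + F.e.ω p.1) p hp
    rw [h3, L14b_eff_count] at h4
    rw [if_pos (rfl : p.2.1 + F.e.ω p.1 = p.2.1 + F.e.ω p.1)] at h4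
    have := L14b_count_pos hr1 hr
    omega
  have hg0 : ∀ p ∈ cs, ∀ i ∈ Finset.Icc ((v.length : ℤ) - (2 ^ s : ℕ)) (v.length : ℤ),
      (0 : ℤ) ≤ ((eff p.2.2 p.2.1 (F.e.ω p.1)).count (Lt.one', i) : ℤ) -
        ((eff p.2.2 p.2.1 (F.e.ω p.1)).count (Lt.one, i) : ℤ) := by
    intro p hp i hi
    rw [Finset.mem_Icc] at hi
    by_contra hlt
    have hhv : hv p.2.2 p.2.1 (F.e.ω p.1) i := by
      unfold hv
      omega
    have := hheavy p hp i hhv
    rw [← hvl] at this
    linarith [hi.1]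
  have hmix : (((cs.filter (fun p => decide (Mixed p.2.2))).length : ℕ) : ℤ) ≤
      ((2 ^ s + 1) * L14b_Cs s : ℕ) := by
    refine (L14b_len cs (fun p => Mixed p.2.2)
      (fun p => ∑ i ∈ Finset.Icc ((v.length : ℤ) - (2 ^ s : ℕ)) (v.length : ℤ),
        (((eff p.2.2 p.2.1 (F.e.ω p.1)).count (Lt.one', i) : ℤ) -
        ((eff p.2.2 p.2.1 (F.e.ω p.1)).count (Lt.one, i) : ℤ))) ?_ ?_).trans ?_
    · intro p hp
      exact Finset.sum_nonneg (fun i hi => hg0 p hp i hi)
    · intro p hp hM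
      obtain ⟨hk, hmem⟩ := hmixrow p hp hM
      refine le_trans ?_ (Finset.single_le_sum (fun i hi => hg0 p hp i hi) hmem)
      obtain ⟨hl, hr, hlb, hr1⟩ := hM
      have h1 : (eff p.2.2 p.2.1 (F.e.ω p.1)).count (Lt.one, p.2.1 + F.e.ω p.1) = 0 := by
        rw [L14b_eff_count, L14b_count_zero hlb (by simp), L14b_count_zero hr1 (by simp)]
        simp
      have h2 : 0 < (eff p.2.2 p.2.1 (F.e.ω p.1)).count (Lt.one', p.2.1 + F.e.ω p.1) := by
        rw [L14b_eff_count]
        rw [if_pos (rfl : p.2.1 + F.e.ω p.1 = p.2.1 + F.e.ω p.1)]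
        have := L14b_count_pos hr1 hr
        omega
      omega
    · rw [L14b_swap]
      have hterm : ∀ i ∈ Finset.Icc ((v.length : ℤ) - (2 ^ s : ℕ)) (v.length : ℤ),
          (cs.map (fun p => ((eff p.2.2 p.2.1 (F.e.ω p.1)).count (Lt.one', i) : ℤ) -
            ((eff p.2.2 p.2.1 (F.e.ω p.1)).count (Lt.one, i) : ℤ))).sum ≤ (L14b_Cs s : ℤ) := by
        intro i hi
        rw [L14b_subsum, ← L14b_castsum, ← L14b_castsum, ← hDc, ← hDc]
        have h3 := c3 i
        have h4 := c4 i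
        have h5 := hnumv i
        omega
      refine (Finset.sum_le_card_nsmul _ _ _ hterm).trans ?_
      rw [Int.card_Icc]
      have : ((v.length : ℤ) + 1 - ((v.length : ℤ) - (2 ^ s : ℕ))).toNat = 2 ^ s + 1 := by
        have : (v.length : ℤ) + 1 - ((v.length : ℤ) - (2 ^ s : ℕ)) = ((2 ^ s + 1 : ℕ) : ℤ) := by
          push_cast; ring
        rw [this, Int.toNat_natCast]
      rw [this]
      simp
  refine ⟨t0, v, v', n0, m0, cs, h0ok, h0root', h0yd, hn0.trans hCsD, hm0.trans hCsD, hnm0,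
    fun i => ⟨(hnumv i).trans hCsD, (hnumv' i).trans hCsD⟩, ?_, ?_, c1.symm, c2.symm, ?_, ?_, ?_, ?_⟩
  · intro p hp
    exact ⟨hlab p hp, hcyc p hp, hBs p hp,
      T3 t0 h0ok h0root' p.1 p.2.1 (hlab p hp) p.2.2 (hcyc p hp) (hBs p hp), hno1b p hp⟩
  · have h1 : (cs.filter (fun p => decide (Mixed p.2.2))).length ≤ (2 ^ s + 1) * L14b_Cs s := by
      exact_mod_cast hmix
    have h2 : (2 ^ s + 1) * L14b_Cs s ≤ (2 ^ s + 2) * L14b_Cs s :=
      Nat.mul_le_mul (by omega) le_rfl
    unfold L14b_D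
    omega
  · intro i
    rw [← hDc]
    exact (c3 i).symm
  · intro i
    rw [← hDc]
    exact (c4 i).symm
  · rw [← habs Lt.a (Or.inl rfl)]
    exact c5.symm
  · rw [← habs Lt.b (Or.inr rfl)]
    exact c6.symm

end NSI
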