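import Pool.Agent.Lib.NSI.L14a
import Pool.Agent.Lib.NSI.L14b
import Pool.Agent.Lib.NSI.L05

/-!
# L14 : the centre analysis

Recipe.  `D0` = the function of `core_data`.  `exists_history` with `P = 2 ^ s + 4`; `big_gap` with
`c = D0 s + D0 s * D0 s + 1`; `core_data`.
`m - n = (m0 - n0) + ∑ (#b - #a)` over the cycles; `m0 - n0 ≤ D0 s`.  By the types (`CType`), a cycle
is mixed, or has letters `a, b` only, or has letters `1, 1'` only.  At most `D0 s` cycles
are mixed, so some cycle `p*` consists of letters `a, b` only and has `#b > #a`.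
`t` = `t0` with all mixed cycles and `p*` inserted (`insert_many`), `yd = enc v1 n m v1'` (`face_word`);
`cs'` = the cycles of `cs` with letters `1, 1'` only.
-/

set_option autoImplicit false

namespace NSI

private def L14_AB {Q : ℕ} (u : List (Lt Q)) : Prop := ∀ x ∈ u, x = Lt.a ∨ x = Lt.b

private def L14_OO {Q : ℕ} (u : List (Lt Q)) : Prop := ∀ x ∈ u, x = Lt.one ∨ x = Lt.one'

private theorem L14_trich {Q : ℕ} {V : Type} (d : Cx V (Lt Q)) (hT : CType d.yl d.yr)
    (hN : ¬ (d.yl ≠ [] ∧ d.yr ≠ [] ∧ AllE Lt.one d.yl ∧ AllE Lt.b d.yr)) :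
    Mixed d ∨ L14_AB (d.yl ++ d.yr) ∨ L14_OO (d.yl ++ d.yr) := by
  rcases hT with ⟨h1, h2⟩ | ⟨h1, h2⟩ | ⟨h1, h2⟩ | ⟨h1, h2, -⟩ | ⟨h1, h2⟩ | ⟨h1, h2⟩ | ⟨h1, h2⟩
  · right; right
    intro x hx
    rcases List.mem_append.1 hx with hx | hx
    · exact Or.inl (h1 x hx)
    · exact Or.inl (h2 x hx)
  · right; right
    intro x hx
    rcases List.mem_append.1 hx with hx | hx
    · exact Or.inl (h1 x hx)
    · exact Or.inr (h2 x hx)
  · by_cases hu : d.yl = []
    · right; left
      intro x hx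
      rw [hu, List.nil_append] at hx
      exact Or.inr (h2 x hx)
    · by_cases hv : d.yr = []
      · right; right
        intro x hx
        rw [hv, List.append_nil] at hx
        exact Or.inl (h1 x hx)
      · exact absurd ⟨hu, hv, h1, h2⟩ hN
  · right; left
    intro x hx
    rcases List.mem_append.1 hx with hx | hx
    · exact Or.inl (h1 x hx)
    · exact Or.inr (h2 x hx)
  · right; left
    intro x hx
    rcases List.mem_append.1 hx with hx | hx
    · exact Or.inr (h1 x hx)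
    · exact Or.inr (h2 x hx)
  · by_cases hu : d.yl = []
    · right; right
      intro x hx
      rw [hu, List.nil_append] at hx
      exact Or.inr (h2 x hx)
    · by_cases hv : d.yr = []
      · right; left
        intro x hx
        rw [hv, List.append_nil] at hx
        exact Or.inr (h1 x hx)
      · exact Or.inl ⟨hu, hv, h1, h2⟩
  · right; right
    intro x hx
    rcases List.mem_append.1 hx with hx | hx
    · exact Or.inr (h1 x hx)
    · exact Or.inr (h2 x hx)

private theorem L14_count_map {Q : ℕ} (l : List (Lt Q)) (x : Lt Q) (i k : ℤ) :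
    ((l : Multiset (Lt Q)).map (fun y => (y, k))).count (x, i) = if i = k then l.count x else 0 := by
  split_ifs with h
  · subst h
    have hinj : Function.Injective (fun y : Lt Q => (y, i)) := fun y z hyz => by simpa using hyz
    have := Multiset.count_map_eq_count' (fun y : Lt Q => (y, i)) (l : Multiset (Lt Q)) hinj x
    rw [this, Multiset.coe_count]
  · rw [Multiset.count_eq_zero]
    intro hm
    obtain ⟨y, -, hy⟩ := Multiset.mem_map.1 hm
    have h2 : k = i := (Prod.mk.inj hy).2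
    exact h h2.symm

private theorem L14_eff_count {Q : ℕ} {V : Type} (d : Cx V (Lt Q)) (k h : ℤ) (x : Lt Q) (i : ℤ) :
    (eff d k h).count (x, i) =
      (if i = k then d.yl.count x else 0) + (if i = k + h then d.yr.count x else 0) := by
  unfold eff
  rw [Multiset.count_add, L14_count_map, L14_count_map]

private theorem L14_eff_le {Q : ℕ} {V : Type} (d : Cx V (Lt Q)) (k h : ℤ) (x : Lt Q) (i : ℤ) :
    (eff d k h).count (x, i) ≤ d.yl.count x + d.yr.count x := by
  rw [L14_eff_count]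
  split_ifs <;> omega

private theorem L14_count_le_size {Q : ℕ} {V : Type} (d : Cx V (Lt Q)) (x : Lt Q) :
    d.yl.count x + d.yr.count x ≤ d.size := by
  have h1 := d.length_le_size
  have h2 : d.yl.count x ≤ d.yl.length := List.count_le_length
  have h3 : d.yr.count x ≤ d.yr.length := List.count_le_length
  omega

private theorem L14_count_zero {Q : ℕ} {V : Type} {d : Cx V (Lt Q)} {x : Lt Q}
    (h : x ∉ d.yl ++ d.yr) : d.yl.count x + d.yr.count x = 0 := by
  rw [List.mem_append, not_or] at h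
  rw [List.count_eq_zero_of_not_mem h.1, List.count_eq_zero_of_not_mem h.2]

private theorem L14_sum_le {ι : Type*} (l : List ι) (f g : ι → ℕ) (h : ∀ p ∈ l, f p ≤ g p) :
    (l.map f).sum ≤ (l.map g).sum := by
  induction l with
  | nil => simp
  | cons a l ih =>
    simp only [List.map_cons, List.sum_cons]
    exact Nat.add_le_add (h a (by simp)) (ih (fun p hp => h p (by simp [hp])))

private theorem L14_sum_congr {ι : Type*} (l : List ι) (f g : ι → ℕ) (h : ∀ p ∈ l, f p = g p) :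
    (l.map f).sum = (l.map g).sum := by
  induction l with
  | nil => simp
  | cons a l ih =>
    simp only [List.map_cons, List.sum_cons]
    rw [h a (by simp), ih (fun p hp => h p (by simp [hp]))]

private theorem L14_sum_add {ι : Type*} (l : List ι) (f g : ι → ℕ) :
    (l.map (fun p => f p + g p)).sum = (l.map f).sum + (l.map g).sum := by
  induction l with
  | nil => simp
  | cons a l ih =>
    simp only [List.map_cons, List.sum_cons]
    rw [ih]; omega

open Classical in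
private theorem L14_sum_filter {ι : Type*} (l : List ι) (P : ι → Prop) (f : ι → ℕ) :
    ((l.filter (fun p => decide (P p))).map f).sum = (l.map (fun p => if P p then f p else 0)).sum := by
  induction l with
  | nil => simp
  | cons a l ih =>
    by_cases h : P a
    · simp [h, ih]
    · simp [h, ih]

private theorem L14_sum_const_le {ι : Type*} (l : List ι) (f : ι → ℕ) (C : ℕ)
    (h : ∀ p ∈ l, f p ≤ C) : (l.map f).sum ≤ l.length * C := by
  induction l with
  | nil => simp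
  | cons a l ih =>
    simp only [List.map_cons, List.sum_cons, List.length_cons]
    have h1 := h a (by simp)
    have h2 := ih (fun p hp => h p (by simp [hp]))
    rw [Nat.add_mul]
    omega

private theorem L14_count_sum {ι α : Type*} [DecidableEq α] (l : List ι) (f : ι → Multiset α) (x : α) :
    (l.map f).sum.count x = (l.map (fun p => (f p).count x)).sum := by
  induction l with
  | nil => simp
  | cons a l ih =>
    simp only [List.map_cons, List.sum_cons, Multiset.count_add, ih]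

private theorem L14_mem_sum {ι α : Type*} (l : List ι) (f : ι → Multiset α) (x : α)
    (h : x ∈ (l.map f).sum) : ∃ p ∈ l, x ∈ f p := by
  induction l with
  | nil => simp at h
  | cons a l ih =>
    simp only [List.map_cons, List.sum_cons, Multiset.mem_add] at h
    rcases h with h | h
    · exact ⟨a, by simp, h⟩
    · obtain ⟨p, hp, hx⟩ := ih h
      exact ⟨p, by simp [hp], hx⟩

private def L14_rs {𝓜 : Mach} {s N N' : ℕ} (h : N ≤ N') (σ : Sit 𝓜 s N') : Sit 𝓜 s N where
  V := σ.V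
  fin := σ.fin
  dec := σ.dec
  G := σ.G
  E := σ.E
  hV := σ.hV
  hE := σ.hE
  agree := fun z hz => σ.agree z (hz.trans h)

private def L14_rF {𝓜 : Mach} {s N N' : ℕ} (h : N ≤ N') (σ : Sit 𝓜 s N') (F : Fc σ) :
    Fc (L14_rs h σ) where
  G1 := F.G1
  start := F.start
  sub := F.sub
  full := F.full
  e := F.e

/-- the combinatorial core: existence of the special cycle -/
private theorem L14_special {ι : Type*} (cs : List ι) (na nb : ι → ℕ) (Mx AB : ι → Prop)
    (C n0 m0 n m : ℕ) (h1 : ∀ p ∈ cs, nb p ≤ C) (h2 : ∀ p ∈ cs, ¬ Mx p → ¬ AB p → nb p = 0)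
    (h3 : open Classical in (cs.filter (fun p => decide (Mx p))).length ≤ C)
    (hn : n0 + (cs.map na).sum = n) (hm : m0 + (cs.map nb).sum = m) (hm0 : m0 ≤ C)
    (hnm : n + (C + C * C + 1) ≤ m) : ∃ p ∈ cs, ¬ Mx p ∧ AB p ∧ na p < nb p := by
  classical
  by_contra hcon
  push Not at hcon
  have h4 : (cs.map nb).sum ≤ (cs.map (fun p => na p + (if Mx p then C else 0))).sum := by
    apply L14_sum_le
    intro p hp
    by_cases hM : Mx p
    · have := h1 p hp
      simp only [hM, if_true]; omega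
    · by_cases hA : AB p
      · have := hcon p hp hM hA
        omega
      · have := h2 p hp hM hA
        omega
  rw [L14_sum_add] at h4
  have h5 : (cs.map (fun p => if Mx p then C else 0)).sum ≤ C * C := by
    rw [← L14_sum_filter cs Mx (fun _ => C)]
    refine (L14_sum_const_le _ (fun _ => C) C (fun p hp => le_rfl)).trans ?_
    apply Nat.mul_le_mul_right
    convert h3
  omega

open Classical in
private theorem L14_aux (𝓜 : Mach) (D0 : ℕ → ℕ) (s N : ℕ) (σ : Sit 𝓜 s N) (F : Fc σ)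
    (hH : 𝓜.Halts σ.E)
    (core : ∀ (x0 : List (Row 𝓜.Q)) (n m : ℕ),
      FF 𝓜 σ.E x0 → enc x0 n m x0 ∈ σ.G.lang →
      (∀ (p : ℕ) (r : Row 𝓜.Q), x0[p]? = some r → x0.length ≤ p + (2 ^ s + 4) →
        r.1.1 = 𝓜.qh) →
      ∃ (t0 : Tr σ.V (Lt 𝓜.Q)) (v v' : List (Row 𝓜.Q)) (n0 m0 : ℕ)
        (cs : List (σ.V × ℤ × Cx σ.V (Lt 𝓜.Q))),
        t0.ok F.G1 ∧ t0.root = σ.G.start ∧ t0.yd = enc v n0 m0 v' ∧ n0 ≤ D0 s ∧ m0 ≤ D0 s ∧
        n0 ≤ m0 ∧ (∀ i, num v i ≤ D0 s ∧ num v' i ≤ D0 s) ∧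
        (∀ p ∈ cs, (p.1, p.2.1) ∈ Labs β t0 0 ∧ Cyc F.G1 p.1 p.2.2 ∧ p.2.2.size ≤ D0 s ∧
          CType p.2.2.yl p.2.2.yr ∧
          ¬ (p.2.2.yl ≠ [] ∧ p.2.2.yr ≠ [] ∧ AllE Lt.one p.2.2.yl ∧ AllE Lt.b p.2.2.yr)) ∧
        (cs.filter (fun p => decide (Mixed p.2.2))).length ≤ D0 s ∧
        v.map Prod.fst = x0.map Prod.fst ∧ v'.map Prod.fst = x0.map Prod.fst ∧
        (∀ i, num v i + (cs.map (fun p => (eff p.2.2 p.2.1 (F.e.ω p.1)).count (Lt.one, i))).sum =
          num x0 i) ∧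
        (∀ i, num v' i + (cs.map (fun p => (eff p.2.2 p.2.1 (F.e.ω p.1)).count (Lt.one', i))).sum =
          num x0 i) ∧
        n0 + (cs.map (fun p => p.2.2.yl.count Lt.a + p.2.2.yr.count Lt.a)).sum = n ∧
        m0 + (cs.map (fun p => p.2.2.yl.count Lt.b + p.2.2.yr.count Lt.b)).sum = m)
    (gap : ∀ w : List (Row 𝓜.Q), FF 𝓜 σ.E w → ∀ c : ℕ, ∃ n m : ℕ, n + c ≤ m ∧
      enc w n m w ∈ σ.G.lang)
    (face : ∀ t : Tr σ.V (Lt 𝓜.Q), t.ok F.G1 → t.root = σ.G.start →
      ∃ w n m w', t.yd = enc w n m w' ∧ w.length = w'.length ∧ FF 𝓜 σ.E w ∧ n ≤ m) :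
      ∃ (t : Tr σ.V (Lt 𝓜.Q)) (v v' x0 : List (Row 𝓜.Q)) (n m : ℕ) (j : Bool)
        (cs : List (σ.V × ℤ × Cx σ.V (Lt 𝓜.Q))),
        t.ok F.G1 ∧ t.root = σ.G.start ∧ t.yd = enc v n m v' ∧ n ≤ D0 s * D0 s + 2 * D0 s ∧
        m ≤ D0 s * D0 s + 2 * D0 s ∧ Reg j n m ∧
        (∀ i, num v i ≤ D0 s * D0 s + 2 * D0 s ∧ num v' i ≤ D0 s * D0 s + 2 * D0 s) ∧
        (∀ p ∈ cs, (p.1, p.2.1) ∈ Labs β t 0 ∧ Cyc F.G1 p.1 p.2.2 ∧
          p.2.2.size ≤ D0 s * D0 s + 2 * D0 s ∧
          CType p.2.2.yl p.2.2.yr ∧ (∀ x ∈ p.2.2.yl ++ p.2.2.yr, x = Lt.one ∨ x = Lt.one')) ∧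
        FF 𝓜 σ.E x0 ∧ v.map Prod.fst = x0.map Prod.fst ∧ v'.map Prod.fst = x0.map Prod.fst ∧
        (∀ i, num v i + (cs.map (fun p => (eff p.2.2 p.2.1 (F.e.ω p.1)).count (Lt.one, i))).sum =
          num x0 i) ∧
        (∀ i, num v' i + (cs.map (fun p => (eff p.2.2 p.2.1 (F.e.ω p.1)).count (Lt.one', i))).sum =
          num x0 i) ∧
        (∀ (p : ℕ) (r r' : Row 𝓜.Q), x0[p]? = some r → x0[p + 1]? = some r' → r.1.1 ≠ 𝓜.qh →
          Valid 𝓜 r r') := by
  obtain ⟨x0, hFF, hval, htail⟩ := exists_history 𝓜 σ.E hH (2 ^ s + 4)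
  obtain ⟨n, m, hnm, hz⟩ := gap x0 hFF (D0 s + D0 s * D0 s + 1)
  obtain ⟨t0, v, v', n0, m0, cs, ht0, hr0, hy0, hn0, hm0, hnm0, hnum, hcs, hmix, hv, hv', hsum,
    hsum', hsn, hsm⟩ := core x0 n m hFF hz htail
  have htri : ∀ p ∈ cs, Mixed p.2.2 ∨ L14_AB (p.2.2.yl ++ p.2.2.yr) ∨
      L14_OO (p.2.2.yl ++ p.2.2.yr) := fun p hp =>
    L14_trich p.2.2 (hcs p hp).2.2.2.1 (hcs p hp).2.2.2.2
  -- the special cycle
  obtain ⟨ps, hps, hpsM, hpsAB, hpslt⟩ := L14_special cs
    (fun p => p.2.2.yl.count Lt.a + p.2.2.yr.count Lt.a)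
    (fun p => p.2.2.yl.count Lt.b + p.2.2.yr.count Lt.b)
    (fun p => Mixed p.2.2) (fun p => L14_AB (p.2.2.yl ++ p.2.2.yr)) (D0 s) n0 m0 n m
    (fun p hp => (L14_count_le_size _ _).trans (hcs p hp).2.2.1)
    (fun p hp hM hA => by
      rcases htri p hp with h | h | h
      · exact absurd h hM
      · exact absurd h hA
      · apply L14_count_zero
        intro hb
        rcases h _ hb with h | h <;> cases h) hmix hsn hsm hm0 hnm
  -- insertion
  obtain ⟨t, ht, hr, hL, hc⟩ := insert_many F.G1 (2 ^ s) F.e t0 ht0 0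
    (cs.filter (fun p => decide (Mixed p.2.2)) ++ [ps]) (fun p hp => by
      have hp' : p ∈ cs := by
        rcases List.mem_append.1 hp with h | h
        · exact (List.mem_filter.1 h).1
        · rw [List.mem_singleton.1 h]; exact hps
      exact ⟨(hcs p hp').1, (hcs p hp').2.1⟩)
  have hmem : ∀ p ∈ cs.filter (fun p => decide (Mixed p.2.2)) ++ [ps], p ∈ cs := by
    intro p hp
    rcases List.mem_append.1 hp with h | h
    · exact (List.mem_filter.1 h).1
    · rw [List.mem_singleton.1 h]; exact hps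
  have hrt : t.root = σ.G.start := hr.trans hr0
  obtain ⟨v1, n1, m1, v1', hy1, hlen1, hFF1, hle1⟩ := face t ht hrt
  have hlv : v.length = v'.length := by
    have h1 := congrArg List.length hv
    have h2 := congrArg List.length hv'
    simp only [List.length_map] at h1 h2
    omega
  rw [hy1, hy0] at hc
  obtain ⟨c1, c2, c3, c4, c5, c6, c7, c8⟩ := content_diff v v' v1 v1' n0 m0 n1 m1 hlv hlen1
    ((cs.filter (fun p => decide (Mixed p.2.2)) ++ [ps]).map
      (fun p => eff p.2.2 p.2.1 (F.e.ω p.1))).sum (by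
      intro x hx
      obtain ⟨p, hp, hx⟩ := L14_mem_sum _ _ _ hx
      have hfl := (hcs p (hmem p hp)).2.1.flat
      unfold eff at hx
      rcases Multiset.mem_add.1 hx with hx | hx
      · obtain ⟨y, hy, rfl⟩ := Multiset.mem_map.1 hx
        exact hfl.1 y (by simpa using hy)
      · obtain ⟨y, hy, rfl⟩ := Multiset.mem_map.1 hx
        exact hfl.2 y (by simpa using hy)) hc
  simp only [L14_count_sum, Multiset.count_add, List.map_append, List.sum_append, List.map_cons, List.map_nil,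
    List.sum_cons, List.sum_nil, add_zero] at c3 c4 c5 c6 c7
  -- facts on the mixed cycles and the special one
  have hMone : ∀ p : σ.V × ℤ × Cx σ.V (Lt 𝓜.Q), Mixed p.2.2 →
      Lt.one ∉ p.2.2.yl ++ p.2.2.yr ∧ Lt.a ∉ p.2.2.yl ++ p.2.2.yr := by
    intro p hM
    obtain ⟨-, -, g1, g2⟩ := hM
    constructor
    · intro h
      rcases List.mem_append.1 h with h | h
      · exact absurd (g1 _ h) (by simp)
      · exact absurd (g2 _ h) (by simp)
    · intro h
      rcases List.mem_append.1 h with h | h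
      · exact absurd (g1 _ h) (by simp)
      · exact absurd (g2 _ h) (by simp)
  have hps1 : Lt.one ∉ ps.2.2.yl ++ ps.2.2.yr := by
    intro h
    rcases hpsAB _ h with h | h <;> cases h
  have hps1' : Lt.one' ∉ ps.2.2.yl ++ ps.2.2.yr := by
    intro h
    rcases hpsAB _ h with h | h <;> cases h
  have hmixz : ∀ (x : Lt 𝓜.Q) (i : ℤ), (x = Lt.one ∨ x = Lt.a) →
      ((cs.filter (fun p => decide (Mixed p.2.2))).map
        (fun p => (eff p.2.2 p.2.1 (F.e.ω p.1)).count (x, i))).sum = 0 := by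
    intro x i hx
    have h1 := L14_sum_const_le (cs.filter (fun p => decide (Mixed p.2.2)))
      (fun p => (eff p.2.2 p.2.1 (F.e.ω p.1)).count (x, i)) 0 (fun p hp => by
        have hM : Mixed p.2.2 := by simpa using (List.mem_filter.1 hp).2
        have h2 : p.2.2.yl.count x + p.2.2.yr.count x = 0 := by
          apply L14_count_zero
          rcases hx with rfl | rfl
          · exact (hMone p hM).1
          · exact (hMone p hM).2
        have h3 := L14_eff_le p.2.2 p.2.1 (F.e.ω p.1) x i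
        omega)
    simpa using h1
  have hpsz : ∀ (x : Lt 𝓜.Q) (i : ℤ), x ∉ ps.2.2.yl ++ ps.2.2.yr →
      (eff ps.2.2 ps.2.1 (F.e.ω ps.1)).count (x, i) = 0 := by
    intro x i hx
    have h2 := L14_count_zero hx
    have h3 := L14_eff_le ps.2.2 ps.2.1 (F.e.ω ps.1) x i
    omega
  have hmixle : ∀ (x : Lt 𝓜.Q) (i : ℤ),
      ((cs.filter (fun p => decide (Mixed p.2.2))).map
        (fun p => (eff p.2.2 p.2.1 (F.e.ω p.1)).count (x, i))).sum ≤ D0 s * D0 s := by
    intro x i
    refine (L14_sum_const_le (cs.filter (fun p => decide (Mixed p.2.2)))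
      (fun p => (eff p.2.2 p.2.1 (F.e.ω p.1)).count (x, i)) (D0 s) (fun p hp => ?_)).trans
      (Nat.mul_le_mul_right _ hmix)
    exact ((L14_eff_le _ _ _ _ _).trans (L14_count_le_size _ _)).trans
      (hcs p (List.mem_filter.1 hp).1).2.2.1
  have hpsle : ∀ (x : Lt 𝓜.Q) (i : ℤ), (eff ps.2.2 ps.2.1 (F.e.ω ps.1)).count (x, i) ≤ D0 s :=
    fun x i => ((L14_eff_le _ _ _ _ _).trans (L14_count_le_size _ _)).trans (hcs ps hps).2.2.1
  -- the number of `b` of the special cycle at the index of the centre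
  have hpsb : (eff ps.2.2 ps.2.1 (F.e.ω ps.1)).count (Lt.b, (v.length : ℤ)) =
      ps.2.2.yl.count Lt.b + ps.2.2.yr.count Lt.b := by
    have hz1 : ps.2.1 ≠ v.length → ps.2.2.yl.count Lt.b = 0 := by
      intro hne
      have h1 := (c7 ps.2.1 hne).2
      have h2 := L14_eff_count ps.2.2 ps.2.1 (F.e.ω ps.1) Lt.b ps.2.1
      rw [if_pos rfl] at h2
      omega
    have hz2 : ps.2.1 + F.e.ω ps.1 ≠ v.length → ps.2.2.yr.count Lt.b = 0 := by
      intro hne
      have h1 := (c7 (ps.2.1 + F.e.ω ps.1) hne).2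
      have h2 := L14_eff_count ps.2.2 ps.2.1 (F.e.ω ps.1) Lt.b (ps.2.1 + F.e.ω ps.1)
      rw [if_pos rfl] at h2
      omega
    rw [L14_eff_count]
    by_cases g1 : (v.length : ℤ) = ps.2.1
    · by_cases g2 : (v.length : ℤ) = ps.2.1 + F.e.ω ps.1
      · rw [if_pos g1, if_pos g2]
      · rw [if_pos g1, if_neg g2, hz2 (fun h => g2 h.symm)]
    · by_cases g2 : (v.length : ℤ) = ps.2.1 + F.e.ω ps.1
      · rw [if_neg g1, if_pos g2, hz1 (fun h => g1 h.symm)]
      · rw [if_neg g1, if_neg g2, hz1 (fun h => g1 h.symm), hz2 (fun h => g2 h.symm)]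
  have hpsa := L14_eff_le ps.2.2 ps.2.1 (F.e.ω ps.1) Lt.a (v.length : ℤ)
  rw [hmixz Lt.a _ (Or.inr rfl), zero_add] at c5
  have hlt : n1 < m1 := by
    omega
  have hn1 : n1 ≤ D0 s * D0 s + 2 * D0 s := by
    have := hpsle Lt.a (v.length : ℤ)
    omega
  have hm1 : m1 ≤ D0 s * D0 s + 2 * D0 s := by
    have h1 := hpsle Lt.b (v.length : ℤ)
    have h2 := hmixle Lt.b (v.length : ℤ)
    omega
  refine ⟨t, v1, v1', x0, n1, m1, decide (2 * n1 < m1),
    cs.filter (fun p => decide (L14_OO (p.2.2.yl ++ p.2.2.yr))), ht, hrt, hy1, hn1, hm1, ?_, ?_, ?_,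
    hFF, c1.trans hv, c2.trans hv', ?_, ?_, hval⟩
  · unfold Reg
    by_cases h : 2 * n1 < m1
    · simp [h]
    · simp only [h, decide_false, Bool.false_eq_true, if_false]
      omega
  · intro i
    have h1 := hnum i
    have h2 := c3 i
    have h3 := c4 i
    rw [hmixz Lt.one _ (Or.inl rfl), hpsz Lt.one i hps1] at h2
    rw [hpsz Lt.one' i hps1'] at h3
    have h4 := hmixle Lt.one' i
    constructor <;> omega
  · intro p hp
    have hp1 := (List.mem_filter.1 hp).1
    have hp2 : L14_OO (p.2.2.yl ++ p.2.2.yr) := by simpa using (List.mem_filter.1 hp).2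
    have h1 := hcs p hp1
    refine ⟨hL h1.1, h1.2.1, h1.2.2.1.trans ?_, h1.2.2.2.1, hp2⟩
    show D0 s ≤ D0 s * D0 s + 2 * D0 s
    omega
  · intro i
    have h2 := c3 i
    rw [hmixz Lt.one _ (Or.inl rfl), hpsz Lt.one i hps1] at h2
    rw [L14_sum_filter, h2, ← hsum i, add_zero, add_zero]
    congr 1
    apply L14_sum_congr
    intro p hp
    split_ifs with h
    · rfl
    · symm
      have hz : Lt.one ∉ p.2.2.yl ++ p.2.2.yr := by
        rcases htri p hp with g | g | g
        · exact (hMone p g).1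
        · intro h
          rcases g _ h with h | h <;> cases h
        · exact absurd g h
      have h3 := L14_eff_le p.2.2 p.2.1 (F.e.ω p.1) Lt.one i
      have h4 := L14_count_zero hz
      omega
  · intro i
    have h3 := c4 i
    rw [hpsz Lt.one' i hps1', add_zero] at h3
    rw [h3, ← hsum' i, add_assoc]
    congr 1
    rw [L14_sum_filter cs (fun p => Mixed p.2.2), L14_sum_filter, ← L14_sum_add]
    apply L14_sum_congr
    intro p hp
    rcases htri p hp with g | g | g
    · have h5 : ¬ L14_OO (p.2.2.yl ++ p.2.2.yr) := by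
        intro h
        obtain ⟨g1, -, g2, -⟩ := g
        obtain ⟨y, hy⟩ := List.exists_mem_of_ne_nil _ g1
        have h6 := g2 y hy
        rcases h y (List.mem_append.2 (Or.inl hy)) with h | h
        · rw [h6] at h; cases h
        · rw [h6] at h; cases h
      rw [if_pos g, if_neg h5, add_zero]
    · have hz : Lt.one' ∉ p.2.2.yl ++ p.2.2.yr := by
        intro h
        rcases g _ h with h | h <;> cases h
      have h3 := L14_eff_le p.2.2 p.2.1 (F.e.ω p.1) Lt.one' i
      have h4 := L14_count_zero hz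
      split_ifs <;> omega
    · have h5 : ¬ Mixed p.2.2 := by
        rintro ⟨g1, -, g2, -⟩
        obtain ⟨y, hy⟩ := List.exists_mem_of_ne_nil _ g1
        have h6 := g2 y hy
        rcases g y (List.mem_append.2 (Or.inl hy)) with h | h
        · rw [h6] at h; cases h
        · rw [h6] at h; cases h
      rw [if_neg h5, if_pos g, zero_add]

theorem centre (𝓜 : Mach) : ∃ D : ℕ → ℕ, Primrec D ∧ Monotone D ∧
    Bnd (fun s N => ∀ (σ : Sit 𝓜 s N) (F : Fc σ), NoStrict σ.G.lang → 𝓜.Halts σ.E →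
      ∃ (t : Tr σ.V (Lt 𝓜.Q)) (v v' x0 : List (Row 𝓜.Q)) (n m : ℕ) (j : Bool)
        (cs : List (σ.V × ℤ × Cx σ.V (Lt 𝓜.Q))),
        t.ok F.G1 ∧ t.root = σ.G.start ∧ t.yd = enc v n m v' ∧ n ≤ D s ∧ m ≤ D s ∧ Reg j n m ∧
        (∀ i, num v i ≤ D s ∧ num v' i ≤ D s) ∧
        (∀ p ∈ cs, (p.1, p.2.1) ∈ Labs β t 0 ∧ Cyc F.G1 p.1 p.2.2 ∧ p.2.2.size ≤ D s ∧
          CType p.2.2.yl p.2.2.yr ∧ (∀ x ∈ p.2.2.yl ++ p.2.2.yr, x = Lt.one ∨ x = Lt.one')) ∧
        FF 𝓜 σ.E x0 ∧ v.map Prod.fst = x0.map Prod.fst ∧ v'.map Prod.fst = x0.map Prod.fst ∧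
        (∀ i, num v i + (cs.map (fun p => (eff p.2.2 p.2.1 (F.e.ω p.1)).count (Lt.one, i))).sum =
          num x0 i) ∧
        (∀ i, num v' i + (cs.map (fun p => (eff p.2.2 p.2.1 (F.e.ω p.1)).count (Lt.one', i))).sum =
          num x0 i) ∧
        (∀ (p : ℕ) (r r' : Row 𝓜.Q), x0[p]? = some r → x0[p + 1]? = some r' → r.1.1 ≠ 𝓜.qh →
          Valid 𝓜 r r')) := by
  obtain ⟨D0, pD0, mD0, b1, pb1, mb1, core⟩ := core_data 𝓜
  obtain ⟨b2, pb2, mb2, gap⟩ := big_gap 𝓜
  obtain ⟨b3, pb3, mb3, face⟩ := face_word 𝓜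
  refine ⟨fun s => D0 s * D0 s + 2 * D0 s,
    Primrec.nat_add.comp (Primrec.nat_mul.comp pD0 pD0)
      (Primrec.nat_mul.comp (Primrec.const 2) pD0),
    fun x y h => Nat.add_le_add (Nat.mul_le_mul (mD0 h) (mD0 h)) (Nat.mul_le_mul_left 2 (mD0 h)),
    fun s => b1 s + b2 s + b3 s,
    Primrec.nat_add.comp (Primrec.nat_add.comp pb1 pb2) pb3,
    fun x y h => Nat.add_le_add (Nat.add_le_add (mb1 h) (mb2 h)) (mb3 h), ?_⟩
  intro s σ F hNS hH
  have e1 : b1 s ≤ b1 s + b2 s + b3 s := by omega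
  have e2 : b2 s ≤ b1 s + b2 s + b3 s := by omega
  have e3 : b3 s ≤ b1 s + b2 s + b3 s := by omega
  exact L14_aux 𝓜 D0 s _ σ F hH
    (fun x0 n m h1 h2 h3 => core s (L14_rs e1 σ) (L14_rF e1 σ F) x0 n m h1 h2 h3)
    (fun w hw c => gap s (L14_rs e2 σ) hNS w hw c)
    (fun t h1 h2 => face s (L14_rs e3 σ) (L14_rF e3 σ F) t h1 h2)

end NSI
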