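import Pool.Agent.Lib.NSI.LDefs

/-!
# L14a : histories of halting computations

Recipe.  Let `k0` be the first time with `(step^[k0] (q0, E)).1 = qh` (`k0 > 0` because `q0 ≠ qh`).
`x0` = the rows `((step^[i] (q0, E)).1, i odd), (step^[i] (q0, E)).2)` for `i ≤ k0`, followed by `P` rows
`((qh, alternating parity), 0)`, parities continued.  (`List.ofFn` or `List.range.map`.)
-/

set_option autoImplicit false

namespace NSI

/-- the `i`-th row -/
def L14a_row (𝓜 : Mach) (E k0 i : ℕ) : Row 𝓜.Q :=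
  if i ≤ k0 then (((𝓜.step^[i] (𝓜.q0, E)).1, decide (i % 2 = 1)), (𝓜.step^[i] (𝓜.q0, E)).2)
  else ((𝓜.qh, decide (i % 2 = 1)), 0)

theorem L14a_par (𝓜 : Mach) (E k0 i : ℕ) : (L14a_row 𝓜 E k0 i).1.2 = decide (i % 2 = 1) := by
  unfold L14a_row
  split_ifs <;> rfl

theorem exists_history (𝓜 : Mach) (E : ℕ) (h : 𝓜.Halts E) (P : ℕ) :
    ∃ x0 : List (Row 𝓜.Q), FF 𝓜 E x0 ∧
      (∀ (p : ℕ) (r r' : Row 𝓜.Q), x0[p]? = some r → x0[p + 1]? = some r' → r.1.1 ≠ 𝓜.qh →
        Valid 𝓜 r r') ∧
      (∀ (p : ℕ) (r : Row 𝓜.Q), x0[p]? = some r → x0.length ≤ p + P → r.1.1 = 𝓜.qh) := by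
  classical
  obtain ⟨k0, hk0⟩ := h
  have hget : ∀ (p : ℕ) (r : Row 𝓜.Q),
      ((List.range (k0 + 1 + P)).map (L14a_row 𝓜 E k0))[p]? = some r →
        p < k0 + 1 + P ∧ r = L14a_row 𝓜 E k0 p := by
    intro p r hp
    rw [List.getElem?_map] at hp
    obtain ⟨a, ha, rfl⟩ := Option.map_eq_some_iff.1 hp
    obtain ⟨h1, h2⟩ := List.getElem?_eq_some_iff.1 ha
    rw [List.length_range] at h1
    rw [List.getElem_range] at h2
    exact ⟨h1, by rw [h2]⟩
  refine ⟨(List.range (k0 + 1 + P)).map (L14a_row 𝓜 E k0), ⟨?_, ?_, ?_⟩, ?_, ?_⟩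
  · rw [List.head?_map, List.head?_range]
    simp [L14a_row]
  · rw [List.isChain_iff_getElem]
    intro i hi
    rw [List.getElem_map, List.getElem_map, List.getElem_range, List.getElem_range, L14a_par,
      L14a_par]
    rcases Nat.mod_two_eq_zero_or_one i with h | h
    · have : (i + 1) % 2 = 1 := by omega
      simp [h, this]
    · have : (i + 1) % 2 = 0 := by omega
      simp [h, this]
  · refine ⟨L14a_row 𝓜 E k0 (k0 + P), ?_, ?_⟩
    · rw [List.getLast?_map, List.getLast?_range]
      have : k0 + 1 + P ≠ 0 := by omega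
      simp [this]
    · unfold L14a_row
      split_ifs with h
      · have hP : P = 0 := by omega
        subst hP
        simpa using hk0
      · rfl
  · intro p r r' hp hp' hne
    obtain ⟨h1, rfl⟩ := hget p r hp
    obtain ⟨h2, rfl⟩ := hget (p + 1) r' hp'
    have hlt : p < k0 := by
      by_contra hge
      apply hne
      unfold L14a_row
      split_ifs with h
      · have : p = k0 := by omega
        subst this
        exact hk0
      · rfl
    unfold Valid L14a_row
    rw [if_pos (by omega : p ≤ k0), if_pos (by omega : p + 1 ≤ k0), Function.iterate_succ_apply']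
  · intro p r hp hlen
    obtain ⟨h1, rfl⟩ := hget p r hp
    rw [List.length_map, List.length_range] at hlen
    unfold L14a_row
    rw [if_neg (by omega)]

end NSI
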