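import Pool.Agent.Lib.NSI.LDefs

/-!
# L15 : an automaton for the windows of one parity, with bounded rows

Recipe.  States: `out` (no open window), `one q x` (in the first row of a window, state `q`, `x ≤ C` ones
so far), `two q x q' y` (in the second row), `fail`, `done` (after `mid`), for rows outside windows
also count up to `C` (`row x`).  Number of states: `≤ c * (C + 2) ^ 2` with a constant depending on
`Q`.  A window is closed (tested) when the next row letter, `a` or `mid` is read.  Since the numbers are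
`≤ C`, the validity is a finite test.
The type of states can be any finite type whose cardinality is bounded by a primitive recursive
monotone function of `C`, for example `Option (Fin _ × ...)`.

Here the states are `fail`, `done`, `start` and `run p c`, where `c` is the current row
(as read so far) and `p` the previous row, if there is one.
-/

set_option autoImplicit false

namespace NSI

/-- bounded rows -/
abbrev L15_B (Q C : ℕ) : Type := (Fin Q × Bool) × Fin (C + 1)

/-- states: `none` = fail, `some none` = done, `some (some none)` = start,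
`some (some (some (p, c)))` = run -/
abbrev L15_St (Q C : ℕ) : Type := Option (Option (Option (Option (L15_B Q C) × L15_B Q C)))

/-- the row of a bounded row -/
def L15_r {Q C : ℕ} (x : L15_B Q C) : Row Q := (x.1, x.2)

/-- the test of one window -/
def L15_ok (𝓜 : Mach) (j : Bool) {C : ℕ} (p : Option (L15_B 𝓜.Q C)) (c : L15_B 𝓜.Q C) : Prop :=
  ∀ x, p = some x → x.1.2 = j → x.1.1 ≠ 𝓜.qh → Valid 𝓜 (L15_r x) (L15_r c)

open Classical in
/-- the transition from a running state -/
noncomputable def L15_next (𝓜 : Mach) (j : Bool) {C : ℕ} (p : Option (L15_B 𝓜.Q C))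
    (c : L15_B 𝓜.Q C) : Lt 𝓜.Q → L15_St 𝓜.Q C
  | .one => if h : c.2.1 + 1 < C + 1 then some (some (some (p, (c.1, ⟨c.2.1 + 1, h⟩)))) else none
  | .row q π => if L15_ok 𝓜 j p c then some (some (some (some c, ((q, π), 0)))) else none
  | .a => if L15_ok 𝓜 j p c then some none else none
  | .mid => if L15_ok 𝓜 j p c then some none else none
  | _ => none

/-- the step function -/
noncomputable def L15_step (𝓜 : Mach) (j : Bool) {C : ℕ} :
    L15_St 𝓜.Q C → Lt 𝓜.Q → L15_St 𝓜.Q C
  | none, _ => none
  | some none, _ => some none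
  | some (some none), .row q π => some (some (some (none, ((q, π), 0))))
  | some (some none), _ => none
  | some (some (some pc)), x => L15_next 𝓜 j pc.1 pc.2 x

/-- the automaton -/
noncomputable def L15_D (𝓜 : Mach) (j : Bool) (C : ℕ) : DFA (Lt 𝓜.Q) (L15_St 𝓜.Q C) where
  step := L15_step 𝓜 j
  start := some (some none)
  accept := {some none}

section
variable {𝓜 : Mach} {j : Bool} {C : ℕ}

theorem L15_fail (u : List (Lt 𝓜.Q)) : (L15_D 𝓜 j C).evalFrom none u = none := by
  induction u with
  | nil => rfl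
  | cons x u ih => exact ih

theorem L15_done (u : List (Lt 𝓜.Q)) : (L15_D 𝓜 j C).evalFrom (some none) u = some none := by
  induction u with
  | nil => rfl
  | cons x u ih => exact ih

theorem L15_ones (p : Option (L15_B 𝓜.Q C)) (c : L15_B 𝓜.Q C) (k : ℕ) :
    (L15_D 𝓜 j C).evalFrom (some (some (some (p, c)))) (List.replicate k Lt.one) =
      if h : c.2.1 + k < C + 1 then some (some (some (p, (c.1, ⟨c.2.1 + k, h⟩)))) else none := by
  induction k generalizing c with
  | zero =>
    rw [dif_pos (by have := c.2.2; omega)]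
    rfl
  | succ k ih =>
    rw [List.replicate_succ, DFA.evalFrom_cons]
    show (L15_D 𝓜 j C).evalFrom (L15_next 𝓜 j p c Lt.one) _ = _
    unfold L15_next
    by_cases h : c.2.1 + 1 < C + 1
    · rw [dif_pos h, ih]
      show (if h' : c.2.1 + 1 + k < C + 1 then
        some (some (some (p, (c.1, (⟨c.2.1 + 1 + k, h'⟩ : Fin (C + 1)))))) else none) = _
      by_cases h' : c.2.1 + 1 + k < C + 1
      · rw [dif_pos h', dif_pos (by omega)]
        have e : (⟨c.2.1 + 1 + k, h'⟩ : Fin (C + 1)) = ⟨c.2.1 + (k + 1), by omega⟩ := by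
          apply Fin.ext
          show c.2.1 + 1 + k = c.2.1 + (k + 1)
          omega
        rw [e]
      · rw [dif_neg h', dif_neg (by omega)]
    · rw [dif_neg h, dif_neg (by omega), L15_fail]

/-- the semantics of the automaton -/
def L15_all (𝓜 : Mach) (j : Bool) (C : ℕ) : Option (L15_B 𝓜.Q C) → L15_B 𝓜.Q C →
    List (Row 𝓜.Q) → Prop
  | p, c, [] => L15_ok 𝓜 j p c
  | p, c, r :: w => L15_ok 𝓜 j p c ∧ ∃ h : r.2 < C + 1, L15_all 𝓜 j C (some c) (r.1, ⟨r.2, h⟩) w

theorem L15_run (p : Option (L15_B 𝓜.Q C)) (c : L15_B 𝓜.Q C) (w : List (Row 𝓜.Q)) (n : ℕ)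
    (u : List (Lt 𝓜.Q)) :
    (L15_D 𝓜 j C).evalFrom (some (some (some (p, c))))
      (encL w ++ (List.replicate n Lt.a ++ ([Lt.mid] ++ u))) = some none ↔
        L15_all 𝓜 j C p c w := by
  induction w generalizing p c with
  | nil =>
    have key : ∀ x : Lt 𝓜.Q, (x = Lt.a ∨ x = Lt.mid) → ∀ v,
        ((L15_D 𝓜 j C).evalFrom (some (some (some (p, c)))) (x :: v) = some none ↔
          L15_ok 𝓜 j p c) := by
      intro x hx v
      rw [DFA.evalFrom_cons]
      have e : (L15_D 𝓜 j C).step (some (some (some (p, c)))) x = L15_next 𝓜 j p c x := rfl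
      rw [e]
      by_cases h : L15_ok 𝓜 j p c
      · rcases hx with rfl | rfl <;> simp [L15_next, L15_done, h]
      · rcases hx with rfl | rfl <;> simp [L15_next, L15_fail, h]
    cases n with
    | zero => exact key _ (Or.inr rfl) _
    | succ n => exact key _ (Or.inl rfl) _
  | cons r w ih =>
    show (L15_D 𝓜 j C).evalFrom _ ((Lt.row r.1.1 r.1.2 :: List.replicate r.2 Lt.one) ++ encL w ++ _)
      = _ ↔ _
    rw [List.append_assoc, List.cons_append, DFA.evalFrom_cons]
    have e : (L15_D 𝓜 j C).step (some (some (some (p, c)))) (Lt.row r.1.1 r.1.2) =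
      L15_next 𝓜 j p c (Lt.row r.1.1 r.1.2) := rfl
    rw [e]
    by_cases h : L15_ok 𝓜 j p c
    · simp only [L15_next, if_pos h]
      rw [DFA.evalFrom_of_append, L15_ones]
      by_cases h' : r.2 < C + 1
      · rw [dif_pos (by simpa using h')]
        have e2 : (((r.1.1, r.1.2), ⟨((0 : Fin (C + 1)) : ℕ) + r.2, by simpa using h'⟩) :
          L15_B 𝓜.Q C) = (r.1, ⟨r.2, h'⟩) := by
          ext <;> simp
        show (L15_D 𝓜 j C).evalFrom (some (some (some (some c,
          ((r.1.1, r.1.2), ⟨((0 : Fin (C + 1)) : ℕ) + r.2, by simpa using h'⟩))))) _ = _ ↔ _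
        rw [e2, ih]
        constructor
        · intro h2
          exact ⟨h, h', h2⟩
        · rintro ⟨-, _, h2⟩
          exact h2
      · rw [dif_neg (by simpa using h'), L15_fail]
        constructor
        · intro h2
          exact absurd h2 (by simp)
        · rintro ⟨-, h2, -⟩
          exact absurd h2 h'
    · simp only [L15_next, if_neg h, L15_fail]
      constructor
      · intro h2
        exact absurd h2 (by simp)
      · rintro ⟨h2, -⟩
        exact absurd h2 h

theorem L15_all_iff (p : Option (L15_B 𝓜.Q C)) (c : L15_B 𝓜.Q C) (w : List (Row 𝓜.Q)) :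
    L15_all 𝓜 j C p c w ↔ L15_ok 𝓜 j p c ∧ (∀ r ∈ w, r.2 ≤ C) ∧
      ∀ (k : ℕ) (r r' : Row 𝓜.Q), (L15_r c :: w)[k]? = some r → (L15_r c :: w)[k + 1]? = some r' →
        r.1.2 = j → r.1.1 ≠ 𝓜.qh → Valid 𝓜 r r' := by
  induction w generalizing p c with
  | nil =>
    constructor
    · intro h
      refine ⟨h, by simp, ?_⟩
      intro k r r' _ h2
      simp at h2
    · exact fun h => h.1
  | cons s w ih =>
    constructor
    · rintro ⟨h1, h2, h3⟩
      rw [ih] at h3
      obtain ⟨h4, h5, h6⟩ := h3
      refine ⟨h1, ?_, ?_⟩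
      · intro r hr
        rcases List.mem_cons.1 hr with rfl | hr
        · omega
        · exact h5 r hr
      · intro k r r' hr hr' hj hq
        cases k with
        | zero =>
          simp only [List.getElem?_cons_zero, zero_add, List.getElem?_cons_succ,
            Option.some.injEq] at hr hr'
          subst hr hr'
          exact h4 c rfl hj hq
        | succ k => exact h6 k r r' (by simpa [L15_r] using hr) (by simpa [L15_r] using hr') hj hq
    · rintro ⟨h1, h2, h3⟩
      have hs : s.2 < C + 1 := Nat.lt_succ_of_le (h2 s (by simp))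
      refine ⟨h1, hs, (ih _ _).2 ⟨?_, fun r hr => h2 r (by simp [hr]), ?_⟩⟩
      · intro x hx hj hq
        obtain rfl := Option.some.inj hx
        exact h3 0 _ _ rfl rfl hj hq
      · intro k r r' hr hr' hj hq
        exact h3 (k + 1) r r' (by simpa [L15_r] using hr) (by simpa [L15_r] using hr') hj hq

theorem L15_acc (w w' : List (Row 𝓜.Q)) (n m : ℕ) (hw : w ≠ []) :
    (enc w n m w' ∈ (L15_D 𝓜 j C).accepts ↔ (∀ r ∈ w, r.2 ≤ C) ∧
      ∀ (p : ℕ) (r r' : Row 𝓜.Q), w[p]? = some r → w[p + 1]? = some r' → r.1.2 = j →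
        r.1.1 ≠ 𝓜.qh → Valid 𝓜 r r') := by
  obtain ⟨s, w, rfl⟩ := List.exists_cons_of_ne_nil hw
  have e : (enc (s :: w) n m w' ∈ (L15_D 𝓜 j C).accepts) ↔ ∃ h : s.2 < C + 1,
      L15_all 𝓜 j C none (s.1, ⟨s.2, h⟩) w := by
    rw [DFA.mem_accepts]
    show (L15_D 𝓜 j C).evalFrom (some (some none)) (enc (s :: w) n m w') = some none ↔ _
    show (L15_D 𝓜 j C).evalFrom _ ((Lt.row s.1.1 s.1.2 :: List.replicate s.2 Lt.one) ++ encL w ++ _)
      = _ ↔ _
    rw [List.append_assoc, List.cons_append, DFA.evalFrom_cons]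
    have e : (L15_D 𝓜 j C).step (some (some none)) (Lt.row s.1.1 s.1.2) =
      some (some (some (none, ((s.1.1, s.1.2), 0)))) := rfl
    rw [e, DFA.evalFrom_of_append, L15_ones]
    by_cases h' : s.2 < C + 1
    · rw [dif_pos (by simpa using h')]
      have e2 : (((s.1.1, s.1.2), ⟨((0 : Fin (C + 1)) : ℕ) + s.2, by simpa using h'⟩) :
        L15_B 𝓜.Q C) = (s.1, ⟨s.2, h'⟩) := by
        ext <;> simp
      show (L15_D 𝓜 j C).evalFrom (some (some (some (none,
        ((s.1.1, s.1.2), ⟨((0 : Fin (C + 1)) : ℕ) + s.2, by simpa using h'⟩))))) _ = _ ↔ _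
      rw [e2, L15_run]
      constructor
      · intro h2
        exact ⟨h', h2⟩
      · rintro ⟨_, h2⟩
        exact h2
    · rw [dif_neg (by simpa using h'), L15_fail]
      constructor
      · intro h2
        exact absurd h2 (by simp)
      · rintro ⟨h2, -⟩
        exact absurd h2 h'
  rw [e]
  constructor
  · rintro ⟨h, h2⟩
    rw [L15_all_iff] at h2
    refine ⟨?_, ?_⟩
    · intro r hr
      rcases List.mem_cons.1 hr with rfl | hr
      · omega
      · exact h2.2.1 r hr
    · intro p r r' hr hr'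
      exact h2.2.2 p r r' (by simpa [L15_r] using hr) (by simpa [L15_r] using hr')
  · rintro ⟨h1, h2⟩
    have hs : s.2 < C + 1 := Nat.lt_succ_of_le (h1 s (by simp))
    refine ⟨hs, (L15_all_iff _ _ _).2 ⟨?_, fun r hr => h1 r (by simp [hr]), ?_⟩⟩
    · intro x hx
      exact absurd hx (by simp)
    · intro p r r' hr hr'
      exact h2 p r r' (by simpa [L15_r] using hr) (by simpa [L15_r] using hr')

end

/-- the bound -/
def L15_b (Q C : ℕ) : ℕ := (Q * 2 * (C + 1) + 1) * (Q * 2 * (C + 1)) + 3

theorem L15_primrec (Q : ℕ) : Primrec (L15_b Q) := by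
  have h1 : Primrec fun C : ℕ => Q * 2 * (C + 1) :=
    Primrec.nat_mul.comp (Primrec.const _) Primrec.succ
  exact Primrec.nat_add.comp (Primrec.nat_mul.comp (Primrec.succ.comp h1) h1) (Primrec.const _)

theorem L15_mono (Q : ℕ) : Monotone (L15_b Q) := by
  intro C C' h
  unfold L15_b
  gcongr

theorem win_dfa (𝓜 : Mach) : ∃ b : ℕ → ℕ, Primrec b ∧ Monotone b ∧ ∀ (C : ℕ) (j : Bool),
    ∃ (St : Type) (_ : Fintype St) (D : DFA (Lt 𝓜.Q) St), Fintype.card St ≤ b C ∧
      ∀ (E : ℕ) (w w' : List (Row 𝓜.Q)) (n m : ℕ), FF 𝓜 E w →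
        (enc w n m w' ∈ D.accepts ↔ (∀ r ∈ w, r.2 ≤ C) ∧
          ∀ (p : ℕ) (r r' : Row 𝓜.Q), w[p]? = some r → w[p + 1]? = some r' → r.1.2 = j →
            r.1.1 ≠ 𝓜.qh → Valid 𝓜 r r') := by
  refine ⟨L15_b 𝓜.Q, L15_primrec _, L15_mono _, fun C j => ?_⟩
  refine ⟨L15_St 𝓜.Q C, inferInstance, L15_D 𝓜 j C, ?_, ?_⟩
  · simp only [L15_St, L15_B, Fintype.card_option, Fintype.card_prod, Fintype.card_fin,
      Fintype.card_bool, L15_b]
    omega
  · intro E w w' n m hF
    refine L15_acc w w' n m ?_
    rintro rfl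
    have := hF.1
    simp at this

end NSI
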