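import Pool.Agent.Lib.NSI.L08

/-!
# L16 : the weight `#1' - #1` of all subtrees is bounded

Recipe.  Put `C = 2 ^ s`, `S = D s`; `k = wt β c.yl` is the index of the left end of `u`, `k' = k + ω`
that of the right end, `|ω| ≤ C`.  `cw β u.yd k ≤ cw β t.yd 0`.  `c.yl u.yd c.yr = enc w n m w'`.
If `u.yd` contains no `mid` all its letters are on one side and have index in `[k, k + C]` or
`[k - C, k]`: at most `(C + 1) S` letters `1` or `1'`.  If `u.yd` contains `mid`: `c.yl` contains only
left letters: all letters `1` with index `< k` and some of those with index `k`; `c.yr` contains only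
right letters: all letters `1'` of index `< k'` and some with index `k'`.  So
`wt ψl c.yl + wt ψl c.yr` differs from `∑_{i < k'} num w' i - ∑_{i < k} num w i` by at most `2 S`,
hence from `∑_{i < min k k'} (num w' i - num w i)` by at most `2 S + C S`; the last sum is
at most `2 S` in absolute value because only the rows `σ0, σ0 + 1` contribute.  Same for the total
weight `wt ψl t.yd` (`wt_enc`).  Bound: `(C + 8) * S`.
-/

set_option autoImplicit false

namespace NSI

/-- number of ones in the first `p` rows -/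
private def A {Q : ℕ} (w : List (Row Q)) (p : ℕ) : ℤ :=
  ∑ i ∈ Finset.range p, (num w ((i : ℤ) + 1) : ℤ)

private theorem num_cons_one {Q : ℕ} (r : Row Q) (v : List (Row Q)) : num (r :: v) 1 = r.2 := by
  simp [num]

private theorem num_cons_succ {Q : ℕ} (r : Row Q) (v : List (Row Q)) (i : ℕ) :
    num (r :: v) ((i : ℤ) + 1 + 1) = num v ((i : ℤ) + 1) := by
  have h1 : (1 : ℤ) ≤ (i : ℤ) + 1 + 1 := by omega
  have h2 : (1 : ℤ) ≤ (i : ℤ) + 1 := by omega
  have h3 : ((i : ℤ) + 1 + 1 - 1).toNat = i + 1 := by omega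
  have h4 : ((i : ℤ) + 1 - 1).toNat = i := by omega
  simp only [num, h1, h2, if_true, h3, h4, List.getElem?_cons_succ]

private theorem num_nonpos {Q : ℕ} (w : List (Row Q)) {i : ℤ} (h : ¬ 1 ≤ i) : num w i = 0 := by
  simp [num, h]

private theorem num_tail {Q S : ℕ} {r : Row Q} {v : List (Row Q)}
    (hS : ∀ i, num (r :: v) i ≤ S) (i : ℤ) : num v i ≤ S := by
  by_cases h : 1 ≤ i
  · have h1 := hS (i + 1)
    have h2 : (((i - 1).toNat : ℕ) : ℤ) = i - 1 := Int.toNat_of_nonneg (by omega)
    have h3 := num_cons_succ r v (i - 1).toNat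
    rw [h2, show i - 1 + 1 = i by ring] at h3
    omega
  · rw [num_nonpos v h]
    exact Nat.zero_le _

private theorem A_zero {Q : ℕ} (w : List (Row Q)) : A w 0 = 0 := by simp [A]

private theorem A_cons {Q : ℕ} (r : Row Q) (v : List (Row Q)) (p : ℕ) :
    A (r :: v) (p + 1) = r.2 + A v p := by
  simp only [A]
  rw [Finset.sum_range_succ']
  have h0 : (num (r :: v) (((0 : ℕ) : ℤ) + 1) : ℤ) = r.2 := by
    rw [Nat.cast_zero, zero_add, num_cons_one]
  rw [h0, add_comm]
  congr 1
  refine Finset.sum_congr rfl fun i _ => ?_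
  push_cast
  rw [num_cons_succ]

private theorem A_total {Q : ℕ} (w : List (Row Q)) :
    (w.map (fun r => (r.2 : ℤ))).sum = A w w.length := by
  induction w with
  | nil => simp [A]
  | cons r v ih => rw [List.length_cons, A_cons, List.map_cons, List.sum_cons, ih]

private theorem A_mono {Q S : ℕ} (w : List (Row Q)) (hS : ∀ i, num w i ≤ S) {p q : ℕ}
    (h : p ≤ q) : A w p ≤ A w q ∧ A w q ≤ A w p + ((q : ℤ) - p) * S := by
  obtain ⟨k, rfl⟩ := Nat.exists_eq_add_of_le h
  clear h
  induction k with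
  | zero => simp
  | succ k ih =>
    have h1 : A w (p + (k + 1)) = A w (p + k) + num w (((p + k : ℕ) : ℤ) + 1) := by
      simp only [A]
      rw [← add_assoc, Finset.sum_range_succ]
    have h2 := hS (((p + k : ℕ) : ℤ) + 1)
    have h3 : (num w (((p + k : ℕ) : ℤ) + 1) : ℤ) ≤ S := by exact_mod_cast h2
    have h4 : (0 : ℤ) ≤ (num w (((p + k : ℕ) : ℤ) + 1) : ℤ) := Int.natCast_nonneg _
    rw [h1]
    refine ⟨by linarith [ih.1], ?_⟩
    have h5 : (((p + (k + 1) : ℕ) : ℤ) - p) * S = (((p + k : ℕ) : ℤ) - p) * S + S := by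
      push_cast
      ring
    rw [h5]
    linarith [ih.2]

/-- prefixes of the left part -/
private theorem pref {Q S : ℕ} (w : List (Row Q)) (hS : ∀ i, num w i ≤ S) (X Y : List (Lt Q))
    (n : ℕ) (h : encL w ++ List.replicate n Lt.a = X ++ Y) :
    ∃ p : ℕ, wt β X = p ∧ -wt ψl X ≤ A w p ∧ A w p - S ≤ -wt ψl X := by
  induction w generalizing X with
  | nil =>
    have h1 : ∀ x ∈ X, x = Lt.a := fun x hx => List.eq_of_mem_replicate (n := n) (by
      have h2 : x ∈ X ++ Y := List.mem_append_left Y hx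
      rw [← h] at h2
      simpa [encL] using h2)
    have h2 : wt β X = 0 := wt_flat β X fun y hy => by rw [h1 y hy]; rfl
    have h3 : wt ψl X = 0 := wt_flat ψl X fun y hy => by rw [h1 y hy]; rfl
    refine ⟨0, by rw [h2]; rfl, ?_, ?_⟩
    · rw [h3, A_zero]; simp
    · rw [h3, A_zero]; simp
  | cons r v ih =>
    have hv := num_tail hS
    have hr : r.2 ≤ S := by
      have := hS 1
      rwa [num_cons_one] at this
    have h1 : rl r ++ (encL v ++ List.replicate n Lt.a) = X ++ Y := by
      rw [← h]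
      simp [encL]
    have b1 : wt β (rl r) = 1 := by simp [rl, β]
    have b2 : wt ψl (rl r) = -(r.2 : ℤ) := by simp [rl, ψl]
    rcases List.append_eq_append_iff.1 h1 with ⟨as, h2, h3⟩ | ⟨cs, h2, h3⟩
    · obtain ⟨p, p1, p2, p3⟩ := ih hv as h3
      refine ⟨p + 1, ?_, ?_, ?_⟩
      · rw [h2, wt_append, b1, p1]
        push_cast
        ring
      · rw [h2, wt_append, b2, A_cons]
        linarith
      · rw [h2, wt_append, b2, A_cons]
        linarith
    · cases X with
      | nil =>
        refine ⟨0, by simp, ?_, ?_⟩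
        · rw [A_zero]; simp
        · rw [A_zero]; simp
      | cons x X' =>
        simp only [rl, List.cons_append, List.cons.injEq] at h2
        obtain ⟨h4, h5⟩ := h2
        have h6 : ∀ y ∈ X', y = Lt.one := fun y hy => List.eq_of_mem_replicate (n := r.2) (by
          rw [h5]
          exact List.mem_append_left cs hy)
        have h7 : X' = List.replicate X'.length Lt.one := List.eq_replicate_iff.2 ⟨rfl, h6⟩
        have h8 : X'.length ≤ r.2 := by
          have := congrArg List.length h5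
          simp only [List.length_replicate, List.length_append] at this
          omega
        have h9 : wt β X' = 0 := wt_flat β X' fun y hy => by rw [h6 y hy]; rfl
        have h10 : wt ψl X' = -(X'.length : ℤ) := by
          rw [h7]
          simp [ψl]
        have h11 : (X'.length : ℤ) ≤ r.2 := by exact_mod_cast h8
        have h12 : (r.2 : ℤ) ≤ S := by exact_mod_cast hr
        have h13 : (0 : ℤ) ≤ X'.length := Int.natCast_nonneg _
        refine ⟨1, ?_, ?_, ?_⟩
        · rw [wt_cons, h9, ← h4]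
          simp [β]
        · rw [wt_cons, h10, ← h4, show (1 : ℕ) = 0 + 1 from rfl, A_cons, A_zero]
          simp only [ψl]
          linarith
        · rw [wt_cons, h10, ← h4, show (1 : ℕ) = 0 + 1 from rfl, A_cons, A_zero]
          simp only [ψl]
          linarith

/-- suffixes of the right part -/
private theorem suf {Q S : ℕ} (w : List (Row Q)) (hS : ∀ i, num w i ≤ S) (Y Z : List (Lt Q))
    (m : ℕ) (h : List.replicate m Lt.b ++ encR w = Y ++ Z) :
    ∃ p : ℕ, wt β Z = -(p : ℤ) ∧ wt ψl Z ≤ A w p ∧ A w p - S ≤ wt ψl Z := by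
  induction w generalizing Z with
  | nil =>
    have h1 : ∀ x ∈ Z, x = Lt.b := fun x hx => List.eq_of_mem_replicate (n := m) (by
      have h2 : x ∈ Y ++ Z := List.mem_append_right Y hx
      rw [← h] at h2
      simpa [encR] using h2)
    have h2 : wt β Z = 0 := wt_flat β Z fun y hy => by rw [h1 y hy]; rfl
    have h3 : wt ψl Z = 0 := wt_flat ψl Z fun y hy => by rw [h1 y hy]; rfl
    refine ⟨0, by rw [h2]; rfl, ?_, ?_⟩
    · rw [h3, A_zero]
    · rw [h3, A_zero]; simp
  | cons r v ih =>
    have hv := num_tail hS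
    have hr : r.2 ≤ S := by
      have := hS 1
      rwa [num_cons_one] at this
    have h1 : (List.replicate m Lt.b ++ encR v) ++ rr r = Y ++ Z := by
      rw [← h]
      simp [encR]
    have b1 : wt β (rr r) = -1 := by simp [rr, β]
    have b2 : wt ψl (rr r) = (r.2 : ℤ) := by simp [rr, ψl]
    rcases List.append_eq_append_iff.1 h1 with ⟨as, h2, h3⟩ | ⟨cs, h2, h3⟩
    · rcases List.eq_nil_or_concat' Z with hZ | ⟨Z', x, hZ⟩
      · subst hZ
        refine ⟨0, by simp, ?_, ?_⟩
        · rw [A_zero]; simp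
        · rw [A_zero]; simp
      · subst hZ
        have h4 : List.replicate r.2 Lt.one' ++ [Lt.row' r.1.1 r.1.2] = (as ++ Z') ++ [x] := by
          rw [List.append_assoc, ← h3]
          rfl
        obtain ⟨h5, h6⟩ := List.append_inj' h4 rfl
        have h7 : x = Lt.row' r.1.1 r.1.2 := by
          have := List.cons.inj h6
          exact this.1.symm
        have h8 : ∀ y ∈ Z', y = Lt.one' := fun y hy => List.eq_of_mem_replicate (n := r.2) (by
          rw [h5]
          exact List.mem_append_right as hy)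
        have h9 : Z' = List.replicate Z'.length Lt.one' := List.eq_replicate_iff.2 ⟨rfl, h8⟩
        have h10 : Z'.length ≤ r.2 := by
          have := congrArg List.length h5
          simp only [List.length_replicate, List.length_append] at this
          omega
        have h11 : wt β Z' = 0 := wt_flat β Z' fun y hy => by rw [h8 y hy]; rfl
        have h12 : wt ψl Z' = (Z'.length : ℤ) := by
          rw [h9]
          simp [ψl]
        have h13 : (Z'.length : ℤ) ≤ r.2 := by exact_mod_cast h10
        have h14 : (r.2 : ℤ) ≤ S := by exact_mod_cast hr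
        have h15 : (0 : ℤ) ≤ Z'.length := Int.natCast_nonneg _
        refine ⟨1, ?_, ?_, ?_⟩
        · rw [wt_append, h11, h7]
          simp [β]
        · rw [wt_append, h12, h7, show (1 : ℕ) = 0 + 1 from rfl, A_cons, A_zero]
          simp only [wt_cons, wt_nil, ψl]
          linarith
        · rw [wt_append, h12, h7, show (1 : ℕ) = 0 + 1 from rfl, A_cons, A_zero]
          simp only [wt_cons, wt_nil, ψl]
          linarith
    · obtain ⟨p, p1, p2, p3⟩ := ih hv cs h2
      refine ⟨p + 1, ?_, ?_, ?_⟩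
      · rw [h3, wt_append, b1, p1]
        push_cast
        ring
      · rw [h3, wt_append, b2, A_cons]
        linarith
      · rw [h3, wt_append, b2, A_cons]
        linarith

private theorem A_diff {Q S : ℕ} (w w' : List (Row Q)) (h1 : ∀ i, num w i ≤ S)
    (h2 : ∀ i, num w' i ≤ S) (σ0 : ℤ) (h3 : ∀ i, i ≠ σ0 → i ≠ σ0 + 1 → num w i = num w' i)
    (p : ℕ) : |A w p - A w' p| ≤ 2 * S := by
  have h4 : ∀ p : ℕ, |A w p - A w' p| ≤
      (if σ0 ≤ p then (S : ℤ) else 0) + (if σ0 + 1 ≤ p then (S : ℤ) else 0) := by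
    intro p
    induction p with
    | zero =>
      rw [A_zero, A_zero, sub_zero, abs_zero]
      positivity
    | succ p ih =>
      have e1 : A w (p + 1) = A w p + num w ((p : ℤ) + 1) := by
        simp only [A]
        rw [Finset.sum_range_succ]
      have e2 : A w' (p + 1) = A w' p + num w' ((p : ℤ) + 1) := by
        simp only [A]
        rw [Finset.sum_range_succ]
      have e3 : A w (p + 1) - A w' (p + 1) =
          (A w p - A w' p) + ((num w ((p : ℤ) + 1) : ℤ) - num w' ((p : ℤ) + 1)) := by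
        rw [e1, e2]; ring
      have e4 := abs_add_le (A w p - A w' p)
        ((num w ((p : ℤ) + 1) : ℤ) - num w' ((p : ℤ) + 1))
      rw [← e3] at e4
      have g1 : (num w ((p : ℤ) + 1) : ℤ) ≤ S := by exact_mod_cast h1 _
      have g2 : (num w' ((p : ℤ) + 1) : ℤ) ≤ S := by exact_mod_cast h2 _
      have g3 : (0 : ℤ) ≤ (num w ((p : ℤ) + 1) : ℤ) := Int.natCast_nonneg _
      have g4 : (0 : ℤ) ≤ (num w' ((p : ℤ) + 1) : ℤ) := Int.natCast_nonneg _
      have g5 : |(num w ((p : ℤ) + 1) : ℤ) - num w' ((p : ℤ) + 1)| ≤ S := by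
        rw [abs_le]
        constructor <;> linarith
      have gS : (0 : ℤ) ≤ S := Int.natCast_nonneg _
      push_cast
      by_cases c1 : (p : ℤ) + 1 = σ0
      · have c2 : ¬ σ0 ≤ (p : ℤ) := by omega
        have c3 : σ0 ≤ (p : ℤ) + 1 := by omega
        have c4 : ¬ σ0 + 1 ≤ (p : ℤ) := by omega
        have c5 : ¬ σ0 + 1 ≤ (p : ℤ) + 1 := by omega
        rw [if_neg c2, if_neg c4] at ih
        rw [if_pos c3, if_neg c5]
        linarith
      · by_cases c6 : (p : ℤ) + 1 = σ0 + 1
        · have c2 : σ0 ≤ (p : ℤ) := by omega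
          have c3 : σ0 ≤ (p : ℤ) + 1 := by omega
          have c4 : ¬ σ0 + 1 ≤ (p : ℤ) := by omega
          have c5 : σ0 + 1 ≤ (p : ℤ) + 1 := by omega
          rw [if_pos c2, if_neg c4] at ih
          rw [if_pos c3, if_pos c5]
          linarith
        · have c7 : num w ((p : ℤ) + 1) = num w' ((p : ℤ) + 1) := h3 _ c1 c6
          rw [c7, sub_self, abs_zero, add_zero] at e4
          have c8 : (if σ0 ≤ (p : ℤ) then (S : ℤ) else 0) ≤
              (if σ0 ≤ (p : ℤ) + 1 then (S : ℤ) else 0) := by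
            split_ifs <;> omega
          have c9 : (if σ0 + 1 ≤ (p : ℤ) then (S : ℤ) else 0) ≤
              (if σ0 + 1 ≤ (p : ℤ) + 1 then (S : ℤ) else 0) := by
            split_ifs <;> omega
          linarith
  have h5 := h4 p
  have gS : (0 : ℤ) ≤ S := Int.natCast_nonneg _
  have c8 : (if σ0 ≤ (p : ℤ) then (S : ℤ) else 0) ≤ S := by
    split_ifs <;> linarith
  have c9 : (if σ0 + 1 ≤ (p : ℤ) then (S : ℤ) else 0) ≤ S := by
    split_ifs <;> linarith
  linarith

/-- the combinatorial statement -/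
private theorem core {Q S C : ℕ} (w w' : List (Row Q)) (n m : ℕ) (hl : w.length = w'.length)
    (h1 : ∀ i, num w i ≤ S) (h2 : ∀ i, num w' i ≤ S) (σ0 : ℤ)
    (h3 : ∀ i, i ≠ σ0 → i ≠ σ0 + 1 → num w i = num w' i) (X Y Z : List (Lt Q))
    (h : enc w n m w' = X ++ Y ++ Z) (hC : |wt β Y| ≤ C) :
    |wt ψl Y| ≤ ((C : ℤ) + 8) * S := by
  have gS : (0 : ℤ) ≤ S := Int.natCast_nonneg _
  have gC : (0 : ℤ) ≤ C := Int.natCast_nonneg _
  have gCS : (0 : ℤ) ≤ (C : ℤ) * S := mul_nonneg gC gS
  have hC1 := (abs_le.1 hC).1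
  have hC2 := (abs_le.1 hC).2
  -- products with the difference of two indices
  have key : ∀ a b : ℤ, a - b ≤ C → (a - b) * S ≤ C * S := fun a b hab =>
    mul_le_mul_of_nonneg_right hab gS
  have e1 : (encL w ++ List.replicate n Lt.a) ++ (Lt.mid :: (List.replicate m Lt.b ++ encR w')) =
      X ++ (Y ++ Z) := by
    rw [← List.append_assoc X, ← h]
    simp [enc]
  have caseLL : ∀ T, encL w ++ List.replicate n Lt.a = (X ++ Y) ++ T →
      |wt ψl Y| ≤ ((C : ℤ) + 8) * S := by
    intro T hT
    obtain ⟨p, p1, p2, p3⟩ := pref w h1 X (Y ++ T) n (by rw [hT, List.append_assoc])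
    obtain ⟨q, q1, q2, q3⟩ := pref w h1 (X ++ Y) T n hT
    rw [wt_append] at q1 q2 q3
    have b1 : wt β Y = (q : ℤ) - p := by linarith
    rw [b1] at hC1 hC2
    have k1 := key q p hC2
    have k2 := key p q (by linarith)
    rw [abs_le]
    rcases le_total p q with hpq | hpq
    · have m1 := A_mono w h1 hpq
      constructor <;> linarith [m1.1, m1.2]
    · have m1 := A_mono w h1 hpq
      constructor <;> linarith [m1.1, m1.2]
  have caseRR : ∀ T, List.replicate m Lt.b ++ encR w' = T ++ (Y ++ Z) →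
      |wt ψl Y| ≤ ((C : ℤ) + 8) * S := by
    intro T hT
    obtain ⟨p, p1, p2, p3⟩ := suf w' h2 (T ++ Y) Z m (by rw [hT, List.append_assoc])
    obtain ⟨q, q1, q2, q3⟩ := suf w' h2 T (Y ++ Z) m hT
    rw [wt_append] at q1 q2 q3
    have b1 : wt β Y = (p : ℤ) - q := by linarith
    rw [b1] at hC1 hC2
    have k1 := key p q hC2
    have k2 := key q p (by linarith)
    rw [abs_le]
    rcases le_total p q with hpq | hpq
    · have m1 := A_mono w' h2 hpq
      constructor <;> linarith [m1.1, m1.2]
    · have m1 := A_mono w' h2 hpq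
      constructor <;> linarith [m1.1, m1.2]
  have caseLR : ∀ T T', encL w ++ List.replicate n Lt.a = X ++ T →
      List.replicate m Lt.b ++ encR w' = T' ++ Z → |wt ψl Y| ≤ ((C : ℤ) + 8) * S := by
    intro T T' hT hT'
    obtain ⟨p, p1, p2, p3⟩ := pref w h1 X T n hT
    obtain ⟨q, q1, q2, q3⟩ := suf w' h2 T' Z m hT'
    obtain ⟨-, t1, -, -, t2⟩ := wt_enc w w' n m
    rw [h, wt_append, wt_append, p1, q1, hl, sub_self] at t1
    rw [h, wt_append, wt_append, A_total, A_total, hl] at t2
    have b1 : wt β Y = (q : ℤ) - p := by linarith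
    rw [b1] at hC1 hC2
    have d1 := abs_le.1 (A_diff w w' h1 h2 σ0 h3 w'.length)
    rw [abs_le]
    rcases le_total p q with hpq | hpq
    · have m1 := A_mono w' h2 hpq
      have d2 := abs_le.1 (A_diff w w' h1 h2 σ0 h3 p)
      have k1 := key q p hC2
      constructor <;> linarith [m1.1, m1.2, d1.1, d1.2, d2.1, d2.2]
    · have m1 := A_mono w h1 hpq
      have d2 := abs_le.1 (A_diff w w' h1 h2 σ0 h3 q)
      have k1 := key p q (by linarith)
      constructor <;> linarith [m1.1, m1.2, d1.1, d1.2, d2.1, d2.2]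
  rcases List.append_eq_append_iff.1 e1 with ⟨as, f1, f2⟩ | ⟨cs, f1, f2⟩
  · -- `X = L ++ as`, `mid :: R = as ++ (Y ++ Z)`
    cases as with
    | nil =>
      rw [List.append_nil] at f1
      rw [List.nil_append] at f2
      cases Y with
      | nil => simpa using mul_nonneg (by linarith : (0 : ℤ) ≤ (C : ℤ) + 8) gS
      | cons y Y' =>
        rw [List.cons_append, List.cons.injEq] at f2
        exact caseLR [] Y' (by rw [f1, List.append_nil]) f2.2
    | cons x as' =>
      rw [List.cons_append, List.cons.injEq] at f2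
      exact caseRR as' f2.2
  · -- `L = X ++ cs`, `Y ++ Z = cs ++ mid :: R`
    rcases List.append_eq_append_iff.1 f2 with ⟨ds, g1, g2⟩ | ⟨ds, g1, g2⟩
    · -- `cs = Y ++ ds`
      refine caseLL ds ?_
      rw [f1, g1, List.append_assoc]
    · -- `Y = cs ++ ds`, `mid :: R = ds ++ Z`
      cases ds with
      | nil =>
        rw [List.append_nil] at g1
        refine caseLL [] ?_
        rw [f1, g1, List.append_nil]
      | cons x ds' =>
        rw [List.cons_append, List.cons.injEq] at g2
        exact caseLR cs ds' f1 g2.2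

theorem sub_weight (𝓜 : Mach) (D : ℕ → ℕ) (hD : Primrec D) (mD : Monotone D) :
    Bnd (fun s N => ∀ (σ : Sit 𝓜 s N) (F : Fc σ) (t : Tr σ.V (Lt 𝓜.Q)), t.ok F.G1 →
      t.root = σ.G.start → ∀ (w w' : List (Row 𝓜.Q)) (n m : ℕ), t.yd = enc w n m w' →
      (∀ i, num w i ≤ D s ∧ num w' i ≤ D s) →
      (∃ σ0 : ℤ, ∀ i, i ≠ σ0 → i ≠ σ0 + 1 → num w i = num w' i) →
      ∀ (c : Cx σ.V (Lt 𝓜.Q)) (u : Tr σ.V (Lt 𝓜.Q)), t = c.plug u →
      |wt ψl u.yd| ≤ (2 ^ s + 8) * D s) := by
  refine (face_word 𝓜).mono ?_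
  intro s N hf σ F t ht hroot w w' n m hyd hnum hσ c u htu
  obtain ⟨σ0, hσ0⟩ := hσ
  obtain ⟨w1, n1, m1, w1', e1, e2, -, -⟩ := hf σ F t ht hroot
  obtain ⟨f1, -, -, f4⟩ := enc_inj (hyd.symm.trans e1)
  have hl : w.length = w'.length := by rw [f1, f4]; exact e2
  have hu : u.ok F.G1 := by
    rw [htu, Cx.ok_plug] at ht
    exact ht.2
  have hC : |wt β u.yd| ≤ ((2 ^ s : ℕ) : ℤ) := by
    rw [F.e.hω u hu]
    have := F.e.hC u hu
    exact_mod_cast this
  have h := core w w' n m hl (fun i => (hnum i).1) (fun i => (hnum i).2) σ0 hσ0 c.yl u.yd c.yr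
    (by rw [← hyd, htu, Cx.yd_plug]) hC
  push_cast at h
  exact h

end NSI
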