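import Pool.Agent.Lib.NSI.L15
import Pool.Agent.Lib.NSI.L16

/-!
# L17 : the final contradiction

Recipe.  Apply `reduce` (T01) to `t`, grammar `F.G1`, with `X = (St → St) × ℤ × ℕ × ℕ`: transformation
of the automaton `win_dfa` for `C = D s` and `j`, weight `ψl`, numbers of `a` and of `b`.  The
values of the subtrees lie in a finite set of primitive recursive size (`sub_weight`; the numbers
of `a, b` are `≤ D s`; `St → St` has `card ^ card` elements).  The reduced tree has a short yield
`enc v n m v'` (`face_word`; same numbers `n, m` of `a, b`), accepted by the automaton, with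
`wt ψl = wt ψl t.yd ≤ 0`: all windows of `v` of parity `j` are valid.  It is in the language and
short, so in `K`: the numbers of rows agree; (A) is impossible: `LeRow` everywhere and `wt ψl ≤ 0` give
`v = v'`, so `n = m`, but `Reg j n m` gives `n < m`; (C) is impossible because its window has parity
`j` (`Reg` determines the parity) and is not valid.
`wt ψl t.yd ≤ 0`: `wt_enc`, tight outside `σ0, σ0 + 1` and the inequality for these two rows.
(`num` sums: `(w.map (·.2)).sum = ∑ num`.)
-/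

set_option autoImplicit false

namespace NSI

/-- the same situation with a smaller bound -/
def L17_low {𝓜 : Mach} {s N N' : ℕ} (h : N' ≤ N) (σ : Sit 𝓜 s N) : Sit 𝓜 s N' where
  V := σ.V
  fin := σ.fin
  dec := σ.dec
  G := σ.G
  E := σ.E
  hV := σ.hV
  hE := σ.hE
  agree := fun z hz => σ.agree z (hz.trans h)

/-- the same face data with a smaller bound -/
def L17_lowF {𝓜 : Mach} {s N N' : ℕ} (h : N' ≤ N) {σ : Sit 𝓜 s N} (F : Fc σ) :
    Fc (L17_low h σ) where
  G1 := F.G1
  start := F.start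
  sub := F.sub
  full := F.full
  e := F.e

section
variable {Q : ℕ}

private theorem count_a_enc (w w' : List (Row Q)) (n m : ℕ) :
    (enc w n m w').count Lt.a = n := by
  have h1 : (encL w).count Lt.a = 0 := by
    rw [List.count_eq_zero]
    intro h
    rcases mem_encL h with h | ⟨q, π, h⟩ <;> cases h
  have h2 : (encR w').count Lt.a = 0 := by
    rw [List.count_eq_zero]
    intro h
    rcases mem_encR h with h | ⟨q, π, h⟩ <;> cases h
  simp [enc, h1, h2, List.count_replicate]

private theorem count_b_enc (w w' : List (Row Q)) (n m : ℕ) :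
    (enc w n m w').count Lt.b = m := by
  have h1 : (encL w).count Lt.b = 0 := by
    rw [List.count_eq_zero]
    intro h
    rcases mem_encL h with h | ⟨q, π, h⟩ <;> cases h
  have h2 : (encR w').count Lt.b = 0 := by
    rw [List.count_eq_zero]
    intro h
    rcases mem_encR h with h | ⟨q, π, h⟩ <;> cases h
  simp [enc, h1, h2, List.count_replicate]

private theorem reg_lt {j : Bool} {n m : ℕ} (h : Reg j n m) : n < m := by
  cases j with
  | true => simp only [Reg, if_true] at h; omega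
  | false => simp only [Reg] at h; exact h.1

private theorem reg_unique {j j' : Bool} {n m : ℕ} (h : Reg j n m) (h' : Reg j' n m) : j = j' := by
  cases j <;> cases j' <;> simp_all [Reg] <;> omega

private theorem leRow_eq {v v' : List (Row Q)} (h : List.Forall₂ LeRow v v')
    (hs : (v'.map (fun r => (r.2 : ℤ))).sum ≤ (v.map (fun r => (r.2 : ℤ))).sum) : v = v' := by
  have key : ∀ {v v' : List (Row Q)}, List.Forall₂ LeRow v v' →
      (v.map (fun r => (r.2 : ℤ))).sum ≤ (v'.map (fun r => (r.2 : ℤ))).sum := by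
    intro v v' h
    induction h with
    | nil => simp
    | cons h1 _ ih =>
      simp only [List.map_cons, List.sum_cons]
      have : ((_ : ℕ) : ℤ) ≤ _ := Nat.cast_le.mpr h1.2
      linarith
  induction h with
  | nil => rfl
  | @cons r r' v v' h1 h2 ih =>
    simp only [List.map_cons, List.sum_cons] at hs
    have h3 := key h2
    have h4 : (r.2 : ℤ) ≤ r'.2 := Nat.cast_le.mpr h1.2
    have h5 : r'.2 = r.2 := by
      have : (r'.2 : ℤ) ≤ r.2 := by linarith
      have := Nat.cast_le.mp this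
      exact le_antisymm this h1.2
    rw [ih (by linarith)]
    congr 1
    exact Prod.ext h1.1 h5.symm

private theorem num_eq (w : List (Row Q)) (i : ℕ) :
    num w ((i : ℤ) + 1) = ((w[i]?).map Prod.snd).getD 0 := by
  have h1 : (1 : ℤ) ≤ (i : ℤ) + 1 := by omega
  have h2 : ((i : ℤ) + 1 - 1).toNat = i := by omega
  rw [num, if_pos h1, h2]

private theorem num_out (w : List (Row Q)) (z : ℤ) (h : ¬ ∃ i : ℕ, i < w.length ∧ (i : ℤ) + 1 = z) :
    num w z = 0 := by
  unfold num
  split_ifs with h1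
  · have h2 : w.length ≤ (z - 1).toNat := by
      by_contra hc
      push Not at hc
      exact h ⟨(z - 1).toNat, hc, by omega⟩
    rw [List.getElem?_eq_none h2]
    rfl
  · rfl

private theorem sum_num (w : List (Row Q)) :
    (w.map (fun r => (r.2 : ℤ))).sum = ∑ i ∈ Finset.range w.length, (num w ((i : ℤ) + 1) : ℤ) := by
  simp only [num_eq]
  induction w with
  | nil => simp
  | cons r w ih =>
    rw [List.map_cons, List.sum_cons, List.length_cons, Finset.sum_range_succ']
    simp only [List.getElem?_cons_succ, List.getElem?_cons_zero, Option.map_some, Option.getD_some]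
    rw [← ih]
    ring

private theorem num_le_of_mem {w : List (Row Q)} {C : ℕ} (h : ∀ i, num w i ≤ C) :
    ∀ r ∈ w, r.2 ≤ C := by
  intro r hr
  obtain ⟨i, hi⟩ := List.mem_iff_getElem?.mp hr
  have := h ((i : ℤ) + 1)
  rw [num_eq, hi] at this
  exact this

private theorem sum_le_zero (w w' : List (Row Q)) (hl : w.length = w'.length) (σ0 : ℤ)
    (h1 : ∀ i, i ≠ σ0 → i ≠ σ0 + 1 → num w i = num w' i)
    (h2 : num w' σ0 + num w' (σ0 + 1) ≤ num w σ0 + num w (σ0 + 1)) :
    (w'.map (fun r => (r.2 : ℤ))).sum - (w.map (fun r => (r.2 : ℤ))).sum ≤ 0 := by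
  rw [sum_num, sum_num, ← hl, ← Finset.sum_sub_distrib]
  set d : ℤ → ℤ := fun z => (num w' z : ℤ) - num w z with hd
  have e1 : ∑ i ∈ Finset.range w.length, ((num w' ((i : ℤ) + 1) : ℤ) - num w ((i : ℤ) + 1)) =
      ∑ z ∈ (Finset.range w.length).image (fun i : ℕ => (i : ℤ) + 1), d z := by
    rw [Finset.sum_image]
    intro x _ y _ h
    have : (x : ℤ) + 1 = (y : ℤ) + 1 := h
    omega
  rw [e1]
  have e2 : ∑ z ∈ (Finset.range w.length).image (fun i : ℕ => (i : ℤ) + 1), d z =
      ∑ z ∈ (Finset.range w.length).image (fun i : ℕ => (i : ℤ) + 1) ∪ {σ0, σ0 + 1}, d z := by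
    apply Finset.sum_subset Finset.subset_union_left
    intro z _ hz
    have hz' : ¬ ∃ i : ℕ, i < w.length ∧ (i : ℤ) + 1 = z := by
      rintro ⟨i, hi, rfl⟩
      exact hz (Finset.mem_image.mpr ⟨i, Finset.mem_range.mpr hi, rfl⟩)
    simp only [hd]
    rw [num_out w z hz', num_out w' z (by rwa [← hl])]
    simp
  have e3 : ∑ z ∈ ({σ0, σ0 + 1} : Finset ℤ), d z =
      ∑ z ∈ (Finset.range w.length).image (fun i : ℕ => (i : ℤ) + 1) ∪ {σ0, σ0 + 1}, d z := by
    apply Finset.sum_subset Finset.subset_union_right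
    intro z _ hz
    simp only [Finset.mem_insert, Finset.mem_singleton, not_or] at hz
    simp only [hd]
    rw [h1 z hz.1 hz.2]
    simp
  rw [e2, ← e3, Finset.sum_pair (by omega)]
  simp only [hd]
  have : ((num w' σ0 + num w' (σ0 + 1) : ℕ) : ℤ) ≤ ((num w σ0 + num w (σ0 + 1) : ℕ) : ℤ) :=
    Nat.cast_le.mpr h2
  push_cast at this
  linarith

/-- the values -/
private abbrev Vl (St : Type) : Type := (St → St) × ℤ × ℕ × ℕ

private def vf {St : Type} (x y : Vl St) : Vl St :=
  (y.1 ∘ x.1, x.2.1 + y.2.1, x.2.2.1 + y.2.2.1, x.2.2.2 + y.2.2.2)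

private def vg {St : Type} (D : DFA (Lt Q) St) : Option (Lt Q) → Vl St
  | none => (id, 0, 0, 0)
  | some x => (fun q => D.step q x, ψl x, if x = Lt.a then 1 else 0, if x = Lt.b then 1 else 0)

private theorem val_eq {V St : Type} (D : DFA (Lt Q) St) (t : Tr V (Lt Q)) :
    t.val vf (vg D) = (fun q => D.evalFrom q t.yd, wt ψl t.yd, t.yd.count Lt.a, t.yd.count Lt.b) := by
  induction t with
  | lf A x =>
    cases x with
    | none =>
      simp only [Tr.val, vg, Tr.yd, Option.toList]
      rfl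
    | some x =>
      simp only [Tr.val, vg, Tr.yd, Option.toList]
      refine Prod.ext ?_ (Prod.ext ?_ (Prod.ext ?_ ?_))
      · funext q
        rfl
      · simp
      · simp [List.count_cons]
      · simp [List.count_cons]
  | nd A l r ihl ihr =>
    simp only [Tr.val, ihl, ihr, vf, Tr.yd]
    refine Prod.ext ?_ (Prod.ext ?_ (Prod.ext ?_ ?_))
    · funext q
      simp [DFA.evalFrom_of_append]
    · simp
    · simp
    · simp

end

private def hB (D b : ℕ → ℕ) (s : ℕ) : ℕ :=
  s * ((b (D s) + 1) ^ b (D s) *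
    ((2 * ((2 ^ s + 8) * D s) + 1) * ((D s + 1) * (D s + 1))))

private theorem hB_primrec (D b : ℕ → ℕ) (hD : Primrec D) (hb : Primrec b) : Primrec (hB D b) := by
  have h1 : Primrec (fun s => b (D s)) := hb.comp hD
  have h2 : Primrec (fun s => (b (D s) + 1) ^ b (D s)) :=
    primrec_pow.comp (Primrec.succ.comp h1) h1
  have h3 : Primrec (fun s : ℕ => 2 ^ s) := primrec_pow.comp (Primrec.const 2) Primrec.id
  have h4 : Primrec (fun s : ℕ => 2 ^ s + 8) := Primrec.nat_add.comp h3 (Primrec.const 8)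
  have h5 : Primrec (fun s => (2 ^ s + 8) * D s) := Primrec.nat_mul.comp h4 hD
  have h6 : Primrec (fun s => 2 * ((2 ^ s + 8) * D s)) :=
    Primrec.nat_mul.comp (Primrec.const 2) h5
  have h7 : Primrec (fun s => 2 * ((2 ^ s + 8) * D s) + 1) := Primrec.succ.comp h6
  have h8 : Primrec (fun s => D s + 1) := Primrec.succ.comp hD
  have h9 : Primrec (fun s => (D s + 1) * (D s + 1)) := Primrec.nat_mul.comp h8 h8
  exact Primrec.nat_mul.comp Primrec.id (Primrec.nat_mul.comp h2 (Primrec.nat_mul.comp h7 h9))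

private theorem card_bound (D b : ℕ → ℕ) (s cV cS : ℕ) (h1 : cV ≤ s) (h2 : cS ≤ b (D s)) :
    cV * (cS ^ cS * ((2 * ((2 ^ s + 8) * D s) + 1) * ((D s + 1) * (D s + 1)))) ≤ hB D b s := by
  have e2 : cS ^ cS ≤ (b (D s) + 1) ^ b (D s) :=
    (Nat.pow_le_pow_left (by omega) _).trans (Nat.pow_le_pow_right (by omega) h2)
  unfold hB
  gcongr

private theorem hB_mono (D b : ℕ → ℕ) (mD : Monotone D) (mb : Monotone b) :
    Monotone (hB D b) := by
  intro x y h
  have h1 : D x ≤ D y := mD h
  have h2 : b (D x) ≤ b (D y) := mb h1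
  have h3 : (b (D x) + 1) ^ b (D x) ≤ (b (D y) + 1) ^ b (D y) :=
    (Nat.pow_le_pow_left (by omega) _).trans (Nat.pow_le_pow_right (by omega) h2)
  have h4 : 2 ^ x ≤ 2 ^ y := Nat.pow_le_pow_right (by norm_num) h
  unfold hB
  gcongr

theorem stage2 (𝓜 : Mach) (D : ℕ → ℕ) (hD : Primrec D) (mD : Monotone D) :
    Bnd (fun s N => ∀ (σ : Sit 𝓜 s N) (F : Fc σ) (t : Tr σ.V (Lt 𝓜.Q)), t.ok F.G1 →
      t.root = σ.G.start → ∀ (w w' : List (Row 𝓜.Q)) (n m : ℕ) (j : Bool),
      t.yd = enc w n m w' → Reg j n m → n ≤ D s → m ≤ D s →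
      (∀ i, num w i ≤ D s ∧ num w' i ≤ D s) →
      (∃ σ0 : ℤ, (∀ i, i ≠ σ0 → i ≠ σ0 + 1 → num w i = num w' i) ∧
        num w' σ0 + num w' (σ0 + 1) ≤ num w σ0 + num w (σ0 + 1)) →
      (∀ (p : ℕ) (r r' : Row 𝓜.Q), w[p]? = some r → w[p + 1]? = some r' → r.1.2 = j →
        r.1.1 ≠ 𝓜.qh → Valid 𝓜 r r') → False) := by
  obtain ⟨b, hb, mb, hdfa⟩ := win_dfa 𝓜
  obtain ⟨bf, hbf, mbf, hface⟩ := face_word 𝓜
  obtain ⟨bs, hbs, mbs, hsub⟩ := sub_weight 𝓜 D hD mD
  refine ⟨fun s => bf s + bs s + 2 ^ hB D b s, ?_, ?_, ?_⟩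
  · exact Primrec.nat_add.comp (Primrec.nat_add.comp hbf hbs)
      (primrec_pow.comp (Primrec.const 2) (hB_primrec D b hD hb))
  · intro x y h
    have h1 := mbf h
    have h2 := mbs h
    have h3 : 2 ^ hB D b x ≤ 2 ^ hB D b y :=
      Nat.pow_le_pow_right (by norm_num) (hB_mono D b mD mb h)
    simp only
    omega
  intro s σ F t htok htroot w w' n m j hyd hreg hn hm hnum hW hwin
  obtain ⟨σ0, htight, hineq⟩ := hW
  classical
  let _ := σ.fin
  have hle1 : bf s ≤ bf s + bs s + 2 ^ hB D b s :=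
    (Nat.le_add_right _ _).trans (Nat.le_add_right _ _)
  have hle2 : bs s ≤ bf s + bs s + 2 ^ hB D b s :=
    (Nat.le_add_left _ _).trans (Nat.le_add_right _ _)
  have face : ∀ t : Tr σ.V (Lt 𝓜.Q), t.ok F.G1 → t.root = σ.G.start →
      ∃ w n m w', t.yd = enc w n m w' ∧ w.length = w'.length ∧ FF 𝓜 σ.E w ∧ n ≤ m :=
    hface s (L17_low hle1 σ) (L17_lowF hle1 F)
  have subw : ∀ (c : Cx σ.V (Lt 𝓜.Q)) (u : Tr σ.V (Lt 𝓜.Q)), t = c.plug u →
      |wt ψl u.yd| ≤ (2 ^ s + 8) * D s :=
    hsub s (L17_low hle2 σ) (L17_lowF hle2 F) t htok htroot w w' n m hyd hnum ⟨σ0, htight⟩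
  obtain ⟨St, hSt, A, hcard, hA⟩ := hdfa (D s) j
  -- the original word
  obtain ⟨w0, n0, m0, w0', hy0, hl0, hF0, hnm0⟩ := face t htok htroot
  obtain ⟨rfl, rfl, rfl, rfl⟩ := enc_inj (hyd.symm.trans hy0)
  have hacc : t.yd ∈ A.accepts := by
    rw [hyd, hA σ.E w w' n m hF0]
    exact ⟨num_le_of_mem (fun i => (hnum i).1), hwin⟩
  -- the finite set of values
  set W : ℕ := (2 ^ s + 8) * D s with hWdef
  set S : Finset (σ.V × Vl St) := (Finset.univ : Finset σ.V) ×ˢ
    ((Finset.univ : Finset (St → St)) ×ˢ (Finset.Icc (-(W : ℤ)) W ×ˢ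
      (Finset.range (D s + 1) ×ˢ Finset.range (D s + 1)))) with hS
  have hScard : S.card ≤ hB D b s := by
    rw [hS]
    simp only [Finset.card_product, Finset.card_univ, Finset.card_range, Int.card_Icc,
      Fintype.card_fun]
    have e1 : ((W : ℤ) + 1 - -(W : ℤ)).toNat = 2 * W + 1 := by omega
    rw [e1]
    exact card_bound D b s _ _ σ.hV hcard
  obtain ⟨t', ht'ok, ht'root, ht'val, ht'ht, -⟩ := reduce F.G1 vf (vg A) t htok S (by
    intro c u hcu
    have hval := val_eq A u
    rw [hS]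
    simp only [Finset.mem_product, Finset.mem_univ, Finset.mem_Icc, Finset.mem_range, true_and,
      hval]
    have e1 := abs_le.mp (subw c u hcu)
    have e2 : u.yd.count Lt.a ≤ n := by
      have h1 := count_a_enc w w' n m
      rw [← hyd, hcu, Cx.yd_plug] at h1
      simp only [List.count_append] at h1
      omega
    have e3 : u.yd.count Lt.b ≤ m := by
      have h1 := count_b_enc w w' n m
      rw [← hyd, hcu, Cx.yd_plug] at h1
      simp only [List.count_append] at h1
      omega
    refine ⟨⟨?_, ?_⟩, by omega, by omega⟩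
    · have := e1.1
      push_cast [hWdef] at this ⊢
      linarith
    · have := e1.2
      push_cast [hWdef] at this ⊢
      linarith)
  rw [val_eq, val_eq] at ht'val
  simp only [Prod.mk.injEq] at ht'val
  obtain ⟨v1, v2, v3, v4⟩ := ht'val
  obtain ⟨v, n1, m1, v', hy1, hl1, hF1, hnm1⟩ := face t' ht'ok (ht'root.trans htroot)
  have hn1 : n1 = n := by
    have h1 := count_a_enc v v' n1 m1
    have h2 := count_a_enc w w' n m
    rw [← hy1, v3, hyd, h2] at h1
    exact h1.symm
  have hm1 : m1 = m := by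
    have h1 := count_b_enc v v' n1 m1
    have h2 := count_b_enc w w' n m
    rw [← hy1, v4, hyd, h2] at h1
    exact h1.symm
  subst hn1 hm1
  have hacc' : t'.yd ∈ A.accepts := by
    have h1 : A.evalFrom A.start t'.yd = A.evalFrom A.start t.yd := congrFun v1 A.start
    have h2 : A.evalFrom A.start t.yd ∈ A.accept := hacc
    show A.evalFrom A.start t'.yd ∈ A.accept
    rw [h1]
    exact h2
  rw [hy1, hA σ.E v v' n1 m1 hF1] at hacc'
  have hwt : (v'.map (fun r => (r.2 : ℤ))).sum ≤ (v.map (fun r => (r.2 : ℤ))).sum := by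
    have h1 := (wt_enc v v' n1 m1).2.2.2.2
    have h2 := (wt_enc w w' n1 m1).2.2.2.2
    rw [← hy1, v2, hyd, h2] at h1
    have h3 := sum_le_zero w w' hl0 σ0 htight hineq
    linarith
  -- the short word is in the language, hence in `K`
  have hlang : t'.yd ∈ σ.G.lang := ⟨t', F.sub t' ht'ok, ht'root.trans htroot, rfl⟩
  have hlen : t'.yd.length ≤ bf s + bs s + 2 ^ hB D b s := by
    have h1 := t'.length_yd_le
    have h2 : 2 ^ t'.ht ≤ 2 ^ hB D b s := Nat.pow_le_pow_right (by norm_num) (by omega)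
    omega
  obtain ⟨u, k1, k2, u', hu, hInK⟩ := (σ.agree t'.yd hlen).mp hlang
  rw [hy1] at hu
  obtain ⟨rfl, rfl, rfl, rfl⟩ := enc_inj hu
  obtain ⟨-, -, hcase⟩ := hInK
  rcases hcase with hcase | hcase | hcase
  · omega
  · have hvv := leRow_eq hcase.1 hwt
    rcases hcase.2 with h | h
    · have := reg_lt hreg
      omega
    · exact h hvv
  · obtain ⟨w1, w2, w1', w2', r, r1, r', r1', e1, -, -, -, hqh, hval, hreg'⟩ := hcase
    have hj := reg_unique hreg' hreg
    refine hval (hacc'.2 w1.length r r1 ?_ ?_ hj hqh)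
    · rw [e1]
      simp
    · rw [e1]
      simp

end NSI
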