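import Pool.Agent.Lib.NSI.L13
import Pool.Agent.Lib.NSI.L14
import Pool.Agent.Lib.NSI.L17

/-!
# L18 : the Main Lemma

Recipe.  `faces`, `centre` (bound function `D0`), then `two_heavy` with `D0` for `t` and pairs of
cycles of `cs` (they contain no `b`).  `Reg` determines `j` (both regions are disjoint).
`W`: if no cycle of `cs` is heavy `W = ∅`; otherwise fix a heavy `(p0, s0)`: `Cover v j s0 s0` gives a
row `r0` (position) of parity `j`; `W = {r0 + 1, r0 + 2}`; every other heavy `(p1, s1)`: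
`Cover v j s0 s1` with a position `r1` of parity `j`; `r0, r1 ∈ {s0 - 1, s0 - 2}` have the same parity, so
`r1 = r0` (alternating parity of `FF`, `v.map Prod.fst = x0.map Prod.fst`).
`comb` (L13) with `ι = Fin cs.length`, `e i j = count (one, j)`, `e' i j = count (one', j)` of `eff`,
`x i = k_i`, `y i = k_i + ω`, `p0 = num v`, `p0' = num v'`, `M = 𝓜.M`,
`Win = {p + 1 : x0[p] not halting, of parity j}`, `l`, `γ = M d - l r` from the machine
(`r = number of x0[p] % M`), constant `C` = `D0 s + 2 ^ s +` a constant of the machine.  Types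
(`CType`): `e i j > 0` and `e' i j > 0` imply that the cycle is of type (1, 1') with `k = k + ω = j`.
`Good J0` for `J0 = univ`: row sums equal `num x0`, windows of `x0` are valid.
Output `J`; insert these cycles (`insert_many`), word `enc w n m w'` (`face_word`, `content_diff`),
apply `stage2` with `D s = ` the bound of `comb` at `C s` plus `D0 s`.  Validity of the windows: linear
equation and residue give `step (q, x) = (q', y)` since `x0` has the valid transition with the same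
residue.  If `W = ∅` take any `σ0` (all rows tight).
-/

set_option autoImplicit false

namespace NSI

private theorem L18_pow : Primrec (fun n : ℕ => 2 ^ n) := by
  have h : Primrec (fun n : ℕ => Nat.rec (motive := fun _ => ℕ) 1 (fun _ IH => 2 * IH) n) :=
    Primrec.nat_rec₁ 1 (Primrec.nat_mul.comp (Primrec.const 2) Primrec.snd)
  refine h.of_eq ?_
  intro n
  induction n with
  | zero => rfl
  | succ n ih => simp only [] at ih ⊢; rw [ih, pow_succ]; ring

/-- restriction of a situation to a smaller agreement bound -/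
private def L18_rs {𝓜 : Mach} {s N N' : ℕ} (h : N' ≤ N) (σ : Sit 𝓜 s N) : Sit 𝓜 s N' where
  V := σ.V
  fin := σ.fin
  dec := σ.dec
  G := σ.G
  E := σ.E
  hV := σ.hV
  hE := σ.hE
  agree := fun z hz => σ.agree z (hz.trans h)

private def L18_rf {𝓜 : Mach} {s N N' : ℕ} (h : N' ≤ N) (σ : Sit 𝓜 s N) (F : Fc σ) :
    Fc (L18_rs h σ) where
  G1 := F.G1
  start := F.start
  sub := F.sub
  full := F.full
  e := F.e

private def L18_fr {𝓜 : Mach} {s N N' : ℕ} (h : N' ≤ N) (σ : Sit 𝓜 s N) (F : Fc (L18_rs h σ)) :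
    Fc σ where
  G1 := F.G1
  start := F.start
  sub := F.sub
  full := F.full
  e := F.e

private theorem L18_const (𝓜 : Mach) : ∃ c : ℕ, 𝓜.M ≤ c ∧ ∀ (q : Fin 𝓜.Q) (r : ℕ), r < 𝓜.M →
    𝓜.l q r ≤ c ∧ |(𝓜.M : ℤ) * 𝓜.d q r - 𝓜.l q r * r| ≤ c := by
  classical
  let f : Fin 𝓜.Q → ℕ → ℕ := fun q r => 𝓜.l q r + ((𝓜.M : ℤ) * 𝓜.d q r - 𝓜.l q r * r).natAbs
  refine ⟨𝓜.M + ∑ q : Fin 𝓜.Q, ∑ r ∈ Finset.range 𝓜.M, f q r, Nat.le_add_right _ _, ?_⟩
  intro q r hr
  have h1 : f q r ≤ ∑ r ∈ Finset.range 𝓜.M, f q r :=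
    Finset.single_le_sum (f := fun r => f q r) (fun _ _ => Nat.zero_le _) (Finset.mem_range.2 hr)
  have h2 : ∑ r ∈ Finset.range 𝓜.M, f q r ≤ ∑ q : Fin 𝓜.Q, ∑ r ∈ Finset.range 𝓜.M, f q r :=
    Finset.single_le_sum (f := fun q => ∑ r ∈ Finset.range 𝓜.M, f q r) (fun _ _ => Nat.zero_le _)
      (Finset.mem_univ q)
  have h3 : 𝓜.l q r + ((𝓜.M : ℤ) * 𝓜.d q r - 𝓜.l q r * r).natAbs ≤
      𝓜.M + ∑ q : Fin 𝓜.Q, ∑ r ∈ Finset.range 𝓜.M, f q r := by
    have : f q r = 𝓜.l q r + ((𝓜.M : ℤ) * 𝓜.d q r - 𝓜.l q r * r).natAbs := rfl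
    omega
  constructor
  · omega
  · rw [Int.abs_eq_natAbs]
    exact_mod_cast (by omega : ((𝓜.M : ℤ) * 𝓜.d q r - 𝓜.l q r * r).natAbs ≤
      𝓜.M + ∑ q : Fin 𝓜.Q, ∑ r ∈ Finset.range 𝓜.M, f q r)

private theorem L18_num {Q : ℕ} (w : List (Row Q)) (p : ℕ) (r : Row Q) (h : w[p]? = some r) :
    num w ((p : ℤ) + 1) = r.2 := by
  have h1 : (1 : ℤ) ≤ (p : ℤ) + 1 := by omega
  have h2 : ((p : ℤ) + 1 - 1).toNat = p := by simp
  simp only [num, if_pos h1, h2, h, Option.map_some, Option.getD_some]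

private theorem L18_fst {Q : ℕ} {w v : List (Row Q)} (h : w.map Prod.fst = v.map Prod.fst) (p : ℕ)
    (r : Row Q) (hr : w[p]? = some r) : ∃ y : ℕ, v[p]? = some (r.1, y) := by
  have h1 : (w.map Prod.fst)[p]? = some r.1 := by simp [hr]
  rw [h] at h1
  simp only [List.getElem?_map, Option.map_eq_some_iff] at h1
  obtain ⟨a, ha, hb⟩ := h1
  exact ⟨a.2, by rw [ha, ← hb]⟩

private theorem L18_reg {j j' : Bool} {n m : ℕ} (h : Reg j n m) (h' : Reg j' n m) : j = j' := by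
  cases j <;> cases j' <;> simp [Reg] at h h' ⊢ <;> omega

private theorem L18_par {𝓜 : Mach} {E : ℕ} {x : List (Row 𝓜.Q)} (hx : FF 𝓜 E x) (p : ℕ)
    (r r' : Row 𝓜.Q) (h : x[p]? = some r) (h' : x[p + 1]? = some r') : r'.1.2 = !r.1.2 := by
  have hc := hx.2.1
  rw [List.isChain_iff_getElem] at hc
  obtain ⟨h1, h2⟩ := List.getElem?_eq_some_iff.1 h
  obtain ⟨h3, h4⟩ := List.getElem?_eq_some_iff.1 h'
  have := hc p (by omega)
  rw [h2, h4] at this
  exact this

private theorem L18_next {𝓜 : Mach} {E : ℕ} {x : List (Row 𝓜.Q)} (hx : FF 𝓜 E x) (p : ℕ)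
    (r : Row 𝓜.Q) (h : x[p]? = some r) (hr : r.1.1 ≠ 𝓜.qh) : ∃ r', x[p + 1]? = some r' := by
  obtain ⟨s, hs, hq⟩ := hx.2.2
  obtain ⟨h1, h2⟩ := List.getElem?_eq_some_iff.1 h
  by_cases h3 : p + 1 < x.length
  · exact ⟨x[p + 1], List.getElem?_eq_getElem h3⟩
  · exfalso
    have h4 : p = x.length - 1 := by omega
    rw [List.getLast?_eq_getElem?] at hs
    rw [← h4, h] at hs
    simp only [Option.some.injEq] at hs
    rw [hs] at hr
    exact hr hq

private theorem L18_sum {α : Type} (cs : List α) (f : α → ℕ) :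
    ∑ i : Fin cs.length, f (cs.get i) = (cs.map f).sum := by
  rw [← Fin.sum_univ_fun_getElem]
  rfl

private theorem L18_count {α β : Type} [DecidableEq α] (l : List β) (g : β → Multiset α) (a : α) :
    ((l.map g).sum).count a = (l.map (fun b => (g b).count a)).sum := by
  induction l with
  | nil => simp
  | cons b l ih => simp [ih]

/-- counts in the content of a cycle -/
private theorem L18_count_eff {Q : ℕ} {V : Type} (d : Cx V (Lt Q)) (k h : ℤ) (x : Lt Q) (j : ℤ) :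
    (eff d k h).count (x, j) = (if j = k then d.yl.count x else 0) +
      (if j = k + h then d.yr.count x else 0) := by
  have key : ∀ (u : List (Lt Q)) (i : ℤ),
      ((u : Multiset (Lt Q)).map (fun y => (y, i))).count (x, j) = if j = i then u.count x else 0 := by
    intro u i
    induction u with
    | nil => simp
    | cons y u ih =>
      rw [← Multiset.cons_coe, Multiset.map_cons, Multiset.count_cons, ih, List.count_cons]
      by_cases h1 : j = i
      · subst h1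
        by_cases h2 : x = y
        · subst h2; simp
        · have h3 : ¬ y = x := fun e => h2 e.symm
          simp [h2, h3]
      · have h3 : ¬ (x, j) = (y, i) := by
          intro e; exact h1 (Prod.ext_iff.1 e).2
        simp [h1]
  simp only [eff, Multiset.count_add, key]

/-- the row with index `i` -/
private def L18_row {𝓜 : Mach} (x0 : List (Row 𝓜.Q)) (i : ℤ) : Row 𝓜.Q :=
  (x0[(i - 1).toNat]?).getD ((𝓜.q0, false), 0)

private theorem L18_row_eq {𝓜 : Mach} (x0 : List (Row 𝓜.Q)) (p : ℕ) (r : Row 𝓜.Q)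
    (h : x0[p]? = some r) : L18_row x0 ((p : ℤ) + 1) = r := by
  have h2 : ((p : ℤ) + 1 - 1).toNat = p := by simp
  simp only [L18_row, h2, h, Option.getD_some]

private theorem L18_count_le {Q : ℕ} {V : Type} (d : Cx V (Lt Q)) (k h : ℤ) (x : Lt Q) (j : ℤ) :
    (eff d k h).count (x, j) ≤ d.size := by
  rw [L18_count_eff]
  have h1 : d.yl.count x ≤ d.yl.length := List.count_le_length
  have h2 : d.yr.count x ≤ d.yr.length := List.count_le_length
  have h3 := d.length_le_size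
  split_ifs <;> omega

private theorem L18_allE {Q : ℕ} {x y : Lt Q} {u : List (Lt Q)} (h : AllE x u) (hxy : y ≠ x) :
    u.count y = 0 := by
  rw [List.count_eq_zero]
  intro hy
  exact hxy (h y hy)

/-- selection of cycles -/
private theorem L18_sel {𝓜 : Mach} {V : Type} (C N : ℕ)
    (h4 : ∀ (c : CD C) (J0 : Finset c.ι), c.Good J0 →
      ∃ J : Finset c.ι, J ⊆ J0 ∧ c.Good J ∧ (∀ j ∈ c.Win, c.q J j % c.M = c.q J0 j % c.M) ∧
      ∀ j, c.q J j ≤ N ∧ c.q' J j ≤ N)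
    (ω : V → ℤ) (cs : List (V × ℤ × Cx V (Lt 𝓜.Q))) (v v' x0 : List (Row 𝓜.Q)) (j : Bool) (E : ℕ)
    (hMC : 𝓜.M ≤ C)
    (hmc : ∀ (q : Fin 𝓜.Q) (r : ℕ), r < 𝓜.M →
      𝓜.l q r ≤ C ∧ |(𝓜.M : ℤ) * 𝓜.d q r - 𝓜.l q r * r| ≤ C)
    (hω : ∀ p ∈ cs, |ω p.1| ≤ C)
    (hnum : ∀ i, num v i ≤ C ∧ num v' i ≤ C)
    (hsz : ∀ p ∈ cs, p.2.2.size ≤ C)
    (hty : ∀ p ∈ cs, CType p.2.2.yl p.2.2.yr)
    (hx0 : FF 𝓜 E x0)
    (hs1 : ∀ i, num v i + (cs.map (fun p => (eff p.2.2 p.2.1 (ω p.1)).count (Lt.one, i))).sum =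
      num x0 i)
    (hs2 : ∀ i, num v' i + (cs.map (fun p => (eff p.2.2 p.2.1 (ω p.1)).count (Lt.one', i))).sum =
      num x0 i)
    (hval : ∀ (p : ℕ) (r r' : Row 𝓜.Q), x0[p]? = some r → x0[p + 1]? = some r' → r.1.1 ≠ 𝓜.qh →
      Valid 𝓜 r r')
    (W : Set ℤ)
    (hW : W = ∅ ∨ ∃ (p : ℕ) (r : Row 𝓜.Q), x0[p]? = some r ∧ r.1.2 = j ∧ r.1.1 ≠ 𝓜.qh ∧
      W = {(p : ℤ) + 1, (p : ℤ) + 1 + 1})
    (hWh : ∀ i, i ∉ W → ∀ p ∈ cs, ¬ hv p.2.2 p.2.1 (ω p.1) i) :
    ∃ cs' : List (V × ℤ × Cx V (Lt 𝓜.Q)), (∀ p ∈ cs', p ∈ cs) ∧ ∃ u u' : ℤ → ℕ,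
      (∀ i, u i = num v i +
        (cs'.map (fun p => (eff p.2.2 p.2.1 (ω p.1)).count (Lt.one, i))).sum) ∧
      (∀ i, u' i = num v' i +
        (cs'.map (fun p => (eff p.2.2 p.2.1 (ω p.1)).count (Lt.one', i))).sum) ∧
      (∀ i, u i ≤ N ∧ u' i ≤ N) ∧ (∀ i, i ∉ W → u i = u' i) ∧
      (∀ (p : ℕ) (r : Row 𝓜.Q), x0[p]? = some r → r.1.2 = j → r.1.1 ≠ 𝓜.qh →
        W = {(p : ℤ) + 1, (p : ℤ) + 1 + 1} →
        u' ((p : ℤ) + 1) + u' ((p : ℤ) + 1 + 1) ≤ u ((p : ℤ) + 1) + u ((p : ℤ) + 1 + 1)) ∧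
      (∀ (p : ℕ) (r : Row 𝓜.Q), x0[p]? = some r → r.1.2 = j → r.1.1 ≠ 𝓜.qh →
        (𝓜.M : ℤ) * (u ((p : ℤ) + 1 + 1) : ℤ) = 𝓜.l r.1.1 (r.2 % 𝓜.M) * (u ((p : ℤ) + 1) : ℤ) +
          ((𝓜.M : ℤ) * 𝓜.d r.1.1 (r.2 % 𝓜.M) - 𝓜.l r.1.1 (r.2 % 𝓜.M) * ((r.2 % 𝓜.M : ℕ) : ℤ)) ∧
        u ((p : ℤ) + 1) % 𝓜.M = r.2 % 𝓜.M) := by
  classical
  set L : ℤ → ℕ := fun i => 𝓜.l (L18_row x0 i).1.1 ((L18_row x0 i).2 % 𝓜.M) with hL
  set Γ : ℤ → ℤ := fun i => (𝓜.M : ℤ) * 𝓜.d (L18_row x0 i).1.1 ((L18_row x0 i).2 % 𝓜.M) -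
    𝓜.l (L18_row x0 i).1.1 ((L18_row x0 i).2 % 𝓜.M) * (((L18_row x0 i).2 % 𝓜.M : ℕ) : ℤ) with hΓ
  set WW : Set ℤ := {i | ∃ (p : ℕ) (r : Row 𝓜.Q), i = (p : ℤ) + 1 ∧ x0[p]? = some r ∧ r.1.2 = j ∧
    r.1.1 ≠ 𝓜.qh} with hWW
  have hmod : ∀ x : ℕ, x % 𝓜.M < 𝓜.M := fun x => Nat.mod_lt _ 𝓜.hM
  let c : CD C :=
    { ι := Fin cs.length
      fin := inferInstance
      dec := inferInstance
      e := fun i j => (eff (cs.get i).2.2 (cs.get i).2.1 (ω (cs.get i).1)).count (Lt.one, j)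
      e' := fun i j => (eff (cs.get i).2.2 (cs.get i).2.1 (ω (cs.get i).1)).count (Lt.one', j)
      x := fun i => (cs.get i).2.1
      y := fun i => (cs.get i).2.1 + ω (cs.get i).1
      p0 := num v
      p0' := num v'
      M := 𝓜.M
      Win := WW
      l := L
      γ := Γ
      W := W
      hM := 𝓜.hM
      hMC := hMC
      hp := hnum
      hxy := fun i => by
        have := hω (cs.get i) (List.get_mem _ _)
        have h1 : (cs.get i).2.1 - ((cs.get i).2.1 + ω (cs.get i).1) = - ω (cs.get i).1 := by ring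
        rw [h1, abs_neg]
        exact this
      he := fun i j => ⟨(L18_count_le _ _ _ _ _).trans (hsz _ (List.get_mem _ _)),
        (L18_count_le _ _ _ _ _).trans (hsz _ (List.get_mem _ _))⟩
      ht := fun i j hij => by
        simp only [L18_count_eff] at hij
        by_contra hcon
        rw [not_or] at hcon
        simp only [hcon.1, hcon.2, if_false, add_zero, ne_eq, not_true_eq_false, or_self] at hij
      hn := fun i j h1 h2 j' hj' => by
        have ht := hty (cs.get i) (List.get_mem _ _)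
        simp only [L18_count_eff] at h1 h2 ⊢
        generalize (cs.get i).2.2.yl = yl at *
        generalize (cs.get i).2.2.yr = yr at *
        generalize (cs.get i).2.1 = k at *
        generalize ω (cs.get i).1 = h at *
        have h1' : yl.count Lt.one ≠ 0 ∨ yr.count Lt.one ≠ 0 := by
          by_contra hcon
          rw [not_or, not_not, not_not] at hcon
          simp [hcon.1, hcon.2] at h1
        have h2' : yl.count Lt.one' ≠ 0 ∨ yr.count Lt.one' ≠ 0 := by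
          by_contra hcon
          rw [not_or, not_not, not_not] at hcon
          simp [hcon.1, hcon.2] at h2
        have n1 : (Lt.one : Lt 𝓜.Q) ≠ Lt.one' := by simp
        have n2 : (Lt.one' : Lt 𝓜.Q) ≠ Lt.one := by simp
        have n3 : (Lt.one : Lt 𝓜.Q) ≠ Lt.b := by simp
        have n4 : (Lt.one' : Lt 𝓜.Q) ≠ Lt.b := by simp
        have n5 : (Lt.one : Lt 𝓜.Q) ≠ Lt.a := by simp
        have n6 : (Lt.one' : Lt 𝓜.Q) ≠ Lt.a := by simp
        rcases ht with ht | ht | ht | ht | ht | ht | ht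
        · have := L18_allE ht.1 n2; have := L18_allE ht.2 n2; omega
        · have e1 := L18_allE ht.1 n2
          have e2 := L18_allE ht.2 n1
          rw [e2] at h1
          rw [e1] at h2
          have a1 : j = k := by
            by_contra hcon
            simp [hcon] at h1
          have a2 : j = k + h := by
            by_contra hcon
            simp [hcon] at h2
          have b1 : ¬ j' = k := fun e => hj' (e.trans a1.symm)
          have b2 : ¬ j' = k + h := fun e => hj' (e.trans a2.symm)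
          simp [b1, b2]
        · have := L18_allE ht.1 n2; have := L18_allE ht.2 n4; omega
        · have := L18_allE ht.1 n5; have := L18_allE ht.2.1 n3; omega
        · have := L18_allE ht.1 n3; have := L18_allE ht.2 n3; omega
        · have := L18_allE ht.1 n3; have := L18_allE ht.2 n1; omega
        · have := L18_allE ht.1 n1; have := L18_allE ht.2 n1; omega
      hl := fun i _ => ⟨𝓜.hl _ _, (hmc _ _ (hmod _)).1, (hmc _ _ (hmod _)).2⟩
      hW := fun i hi hi' => by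
        obtain ⟨p, r, rfl, h1, h2, h3⟩ := hi
        obtain ⟨p', r', h4, h5, h6, h7⟩ := hi'
        have : p' = p + 1 := by omega
        subst this
        have := L18_par hx0 p r r' h1 h5
        rw [h2, h6] at this
        cases j <;> simp at this
      hW' := by
        rcases hW with h | ⟨p, r, h1, h2, h3, h4⟩
        · exact Or.inl h
        · exact Or.inr ⟨(p : ℤ) + 1, ⟨p, r, rfl, h1, h2, h3⟩, h4⟩
      hle := fun i hi k => by
        have := hWh i hi (cs.get k) (List.get_mem _ _)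
        unfold hv at this
        omega }
  have q0 : ∀ i, c.q Finset.univ i = num x0 i := by
    intro i
    rw [← hs1 i, ← L18_sum cs (fun p => (eff p.2.2 p.2.1 (ω p.1)).count (Lt.one, i))]
    rfl
  have q0' : ∀ i, c.q' Finset.univ i = num x0 i := by
    intro i
    rw [← hs2 i, ← L18_sum cs (fun p => (eff p.2.2 p.2.1 (ω p.1)).count (Lt.one', i))]
    rfl
  have good : c.Good Finset.univ := by
    refine ⟨fun i _ => by rw [q0, q0'], ?_, fun σ _ _ => by rw [q0, q0, q0', q0']⟩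
    rintro i ⟨p, r, rfl, h1, h2, h3⟩
    obtain ⟨r', hr'⟩ := L18_next hx0 p r h1 h3
    have hv := hval p r r' h1 hr' h3
    have e1 : num x0 ((p : ℤ) + 1) = r.2 := L18_num x0 p r h1
    have e2 : num x0 ((p : ℤ) + 1 + 1) = r'.2 := by
      have := L18_num x0 (p + 1) r' hr'
      push_cast at this
      exact this
    rw [q0, q0, e1, e2]
    have e3 : c.l ((p : ℤ) + 1) = 𝓜.l r.1.1 (r.2 % 𝓜.M) := by
      show L ((p : ℤ) + 1) = _
      simp only [hL, L18_row_eq x0 p r h1]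
    have e4 : c.γ ((p : ℤ) + 1) = (𝓜.M : ℤ) * 𝓜.d r.1.1 (r.2 % 𝓜.M) -
        𝓜.l r.1.1 (r.2 % 𝓜.M) * ((r.2 % 𝓜.M : ℕ) : ℤ) := by
      show Γ ((p : ℤ) + 1) = _
      simp only [hΓ, L18_row_eq x0 p r h1]
    rw [e3, e4]
    have e5 : r'.2 = 𝓜.l r.1.1 (r.2 % 𝓜.M) * (r.2 / 𝓜.M) + 𝓜.d r.1.1 (r.2 % 𝓜.M) := by
      have := congrArg Prod.snd hv
      simp only [Mach.step] at this
      exact this.symm
    have e6 : (r.2 : ℤ) = (𝓜.M : ℤ) * ((r.2 / 𝓜.M : ℕ) : ℤ) + ((r.2 % 𝓜.M : ℕ) : ℤ) := by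
      exact_mod_cast (Nat.div_add_mod r.2 𝓜.M).symm
    show (𝓜.M : ℤ) * (r'.2 : ℤ) = _
    rw [e5]
    push_cast
    push_cast at e6
    rw [show ((r.2 : ℕ) : ℤ) = (𝓜.M : ℤ) * ((r.2 : ℤ) / (𝓜.M : ℤ)) + (r.2 : ℤ) % (𝓜.M : ℤ) from e6]
    have z1 : ((𝓜.M : ℤ) * ((r.2 : ℤ) / (𝓜.M : ℤ)) + (r.2 : ℤ) % (𝓜.M : ℤ)) = (r.2 : ℤ) := e6.symm
    rw [z1]
    linear_combination (-(𝓜.l r.1.1 (r.2 % 𝓜.M) : ℤ)) * e6
  obtain ⟨J, -, hJ, hmodJ, hbd⟩ := h4 c Finset.univ good
  refine ⟨J.toList.map (fun i => cs.get i), ?_, c.q J, c.q' J, ?_, ?_, hbd, hJ.tight, ?_, ?_⟩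
  · intro p hp
    rw [List.mem_map] at hp
    obtain ⟨i, -, rfl⟩ := hp
    exact List.get_mem _ _
  · intro i
    rw [List.map_map]
    have := Finset.sum_map_toList J (fun k => c.e k i)
    show num v i + ∑ k ∈ J, c.e k i = _
    rw [← this]
    rfl
  · intro i
    rw [List.map_map]
    have := Finset.sum_map_toList J (fun k => c.e' k i)
    show num v' i + ∑ k ∈ J, c.e' k i = _
    rw [← this]
    rfl
  · intro p r h1 h2 h3 h5
    exact hJ.le ((p : ℤ) + 1) ⟨p, r, rfl, h1, h2, h3⟩ h5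
  · intro p r h1 h2 h3
    have hm : (p : ℤ) + 1 ∈ c.Win := ⟨p, r, rfl, h1, h2, h3⟩
    have e3 : c.l ((p : ℤ) + 1) = 𝓜.l r.1.1 (r.2 % 𝓜.M) := by
      show L ((p : ℤ) + 1) = _
      simp only [hL, L18_row_eq x0 p r h1]
    have e4 : c.γ ((p : ℤ) + 1) = (𝓜.M : ℤ) * 𝓜.d r.1.1 (r.2 % 𝓜.M) -
        𝓜.l r.1.1 (r.2 % 𝓜.M) * ((r.2 % 𝓜.M : ℕ) : ℤ) := by
      show Γ ((p : ℤ) + 1) = _
      simp only [hΓ, L18_row_eq x0 p r h1]
    constructor
    · have := hJ.lin _ hm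
      rw [e3, e4] at this
      exact this
    · have := hmodJ _ hm
      rw [q0, L18_num x0 p r h1] at this
      exact this

theorem main (𝓜 : Mach) : Bnd (fun s N => ∀ σ : Sit 𝓜 s N, 𝓜.Halts σ.E → ¬ NoStrict σ.G.lang) := by
  classical
  obtain ⟨b1, pb1, mb1, h1⟩ := faces 𝓜
  obtain ⟨D0, pD0, mD0, b2, pb2, mb2, h2⟩ := centre 𝓜
  obtain ⟨b3, pb3, mb3, h3⟩ := two_heavy 𝓜 D0 pD0 mD0
  obtain ⟨b4, pb4, mb4, h4⟩ := comb
  obtain ⟨b5, pb5, mb5, h5⟩ := face_word 𝓜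
  obtain ⟨cM, hcM1, hcM2⟩ := L18_const 𝓜
  have pC : Primrec (fun s => D0 s + 2 ^ s + cM) :=
    Primrec.nat_add.comp (Primrec.nat_add.comp pD0 L18_pow) (Primrec.const cM)
  have mC : Monotone (fun s => D0 s + 2 ^ s + cM) := by
    intro a b hab
    have e1 := mD0 hab
    have e2 : 2 ^ a ≤ 2 ^ b := Nat.pow_le_pow_right (by norm_num) hab
    show D0 a + 2 ^ a + cM ≤ D0 b + 2 ^ b + cM
    omega
  have pD2 : Primrec (fun s => b4 (D0 s + 2 ^ s + cM) + D0 s) :=
    Primrec.nat_add.comp (pb4.comp pC) pD0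
  have mD2 : Monotone (fun s => b4 (D0 s + 2 ^ s + cM) + D0 s) := by
    intro a b hab
    have e1 := mD0 hab
    have e2 := mb4 (mC hab)
    show b4 (D0 a + 2 ^ a + cM) + D0 a ≤ b4 (D0 b + 2 ^ b + cM) + D0 b
    exact Nat.add_le_add e2 e1
  obtain ⟨b6, pb6, mb6, h6⟩ := stage2 𝓜 _ pD2 mD2
  refine ⟨fun s => b1 s + b2 s + b3 s + b5 s + b6 s, ?_, ?_, ?_⟩
  · exact Primrec.nat_add.comp (Primrec.nat_add.comp (Primrec.nat_add.comp
      (Primrec.nat_add.comp pb1 pb2) pb3) pb5) pb6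
  · intro a b hab
    exact Nat.add_le_add (Nat.add_le_add (Nat.add_le_add (Nat.add_le_add (mb1 hab) (mb2 hab))
      (mb3 hab)) (mb5 hab)) (mb6 hab)
  intro s σ hH hns
  have P2 : 0 < 2 ^ s := by positivity
  have l1 : b1 s ≤ b1 s + b2 s + b3 s + b5 s + b6 s := by omega
  have l2 : b2 s ≤ b1 s + b2 s + b3 s + b5 s + b6 s := by omega
  have l3 : b3 s ≤ b1 s + b2 s + b3 s + b5 s + b6 s := by omega
  have l5 : b5 s ≤ b1 s + b2 s + b3 s + b5 s + b6 s := by omega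
  have l6 : b6 s ≤ b1 s + b2 s + b3 s + b5 s + b6 s := by omega
  obtain ⟨F1⟩ := h1 s (L18_rs l1 σ)
  let F : Fc σ := L18_fr l1 σ F1
  obtain ⟨t, v, v', x0, n, m, j, cs, tok, troot, tyd, hn, hm, hreg, hnum, hcs, hx0, hvx, hvx',
    hs1, hs2, hval⟩ := h2 s (L18_rs l2 σ) (L18_rf l2 σ F) hns hH
  have H3 := h3 s (L18_rs l3 σ) (L18_rf l3 σ F) t tok troot v v' n m tyd hn hm
  -- the special window
  obtain ⟨W, hW, hWh⟩ : ∃ W : Set ℤ, (W = ∅ ∨ ∃ (p : ℕ) (r : Row 𝓜.Q), x0[p]? = some r ∧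
      r.1.2 = j ∧ r.1.1 ≠ 𝓜.qh ∧ W = {(p : ℤ) + 1, (p : ℤ) + 1 + 1}) ∧
      (∀ i, i ∉ W → ∀ p ∈ cs, ¬ hv p.2.2 p.2.1 (F.e.ω p.1) i) := by
    by_cases hex : ∃ p ∈ cs, ∃ i, hv p.2.2 p.2.1 (F.e.ω p.1) i
    · obtain ⟨p0, hp0, s0, hs0⟩ := hex
      have nb : ∀ p ∈ cs, ∀ x ∈ p.2.2.yr, x ≠ Lt.b := by
        intro p hp x hx hxb
        have := (hcs p hp).2.2.2.2 x (List.mem_append_right _ hx)
        rw [hxb] at this
        simp at this
      have two : ∀ p ∈ cs, ∀ i, hv p.2.2 p.2.1 (F.e.ω p.1) i → Cover 𝓜 v j s0 i := by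
        intro p hp i hi
        obtain ⟨j', hj', hc⟩ := H3 p0.1 p.1 p0.2.1 p.2.1 p0.2.2 p.2.2 (hcs p0 hp0).1 (hcs p hp).1
          (hcs p0 hp0).2.1 (hcs p hp).2.1 (hcs p0 hp0).2.2.1 (hcs p hp).2.2.1 (nb p0 hp0) (nb p hp)
          s0 i hs0 hi
        rw [L18_reg hreg hj']
        exact hc
      obtain ⟨p, r, hr, hrj, hrq, hc1, hc2⟩ := two p0 hp0 s0 hs0
      obtain ⟨y, hy⟩ := L18_fst hvx p r hr
      refine ⟨{(p : ℤ) + 1, (p : ℤ) + 1 + 1}, Or.inr ⟨p, (r.1, y), hy, hrj, hrq, rfl⟩, ?_⟩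
      intro i hi q hq hh
      apply hi
      obtain ⟨p', r', hr', hrj', hrq', hd1, hd2⟩ := two q hq i hh
      obtain ⟨y', hy'⟩ := L18_fst hvx p' r' hr'
      have hpp : p' = p := by
        by_contra hne
        have hcase : p' = p + 1 ∨ p = p' + 1 := by omega
        rcases hcase with e | e
        · subst e
          have := L18_par hx0 p _ _ hy hy'
          simp only at this
          rw [hrj, hrj'] at this
          cases j <;> simp at this
        · subst e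
          have := L18_par hx0 p' _ _ hy' hy
          simp only at this
          rw [hrj, hrj'] at this
          cases j <;> simp at this
      subst hpp
      simp only [Set.mem_insert_iff, Set.mem_singleton_iff]
      omega
    · refine ⟨∅, Or.inl rfl, ?_⟩
      intro i _ p hp hh
      exact hex ⟨p, hp, i, hh⟩
  -- the roots of the cycles
  have hωC : ∀ p ∈ cs, |F.e.ω p.1| ≤ ((D0 s + 2 ^ s + cM : ℕ) : ℤ) := by
    intro p hp
    have hl := (hcs p hp).1
    have key : ∀ (u : Tr σ.V (Lt 𝓜.Q)) (k : ℤ), u.ok F.G1 → ∀ q ∈ Labs β u k,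
        |F.e.ω q.1| ≤ ((2 ^ s : ℕ) : ℤ) := by
      intro u
      induction u with
      | lf A x =>
        intro k hu q hq
        simp only [Labs, Set.mem_singleton_iff] at hq
        subst hq
        exact F.e.hC (.lf A x) hu
      | nd A l r ihl ihr =>
        intro k hu q hq
        simp only [Labs, Set.mem_union, Set.mem_singleton_iff] at hq
        rcases hq with (hq | hq) | hq
        · subst hq
          exact F.e.hC (.nd A l r) hu
        · exact ihl k hu.2.1 q hq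
        · exact ihr _ hu.2.2 q hq
    have := key t 0 tok _ hl
    refine this.trans ?_
    exact_mod_cast (by omega : 2 ^ s ≤ D0 s + 2 ^ s + cM)
  obtain ⟨cs', hsub, u, u', hu, hu', hbd, htight, hle, hlin⟩ :=
    L18_sel (D0 s + 2 ^ s + cM) (b4 (D0 s + 2 ^ s + cM)) (h4 (D0 s + 2 ^ s + cM)) F.e.ω cs v v' x0 j
      σ.E (by omega) (fun q r hr => ⟨by have := (hcM2 q r hr).1; omega, by
        refine (hcM2 q r hr).2.trans ?_
        exact_mod_cast (by omega : cM ≤ D0 s + 2 ^ s + cM)⟩) hωC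
      (fun i => ⟨by have := (hnum i).1; omega, by have := (hnum i).2; omega⟩)
      (fun p hp => (hcs p hp).2.2.1.trans (by omega : D0 s ≤ D0 s + 2 ^ s + cM)) (fun p hp => (hcs p hp).2.2.2.1) hx0 hs1 hs2
      hval W hW hWh
  -- insertion
  obtain ⟨t', tok', troot', -, tcw⟩ := insert_many F.G1 (2 ^ s) F.e t tok 0 cs'
    (fun p hp => ⟨(hcs p (hsub p hp)).1, (hcs p (hsub p hp)).2.1⟩)
  have troot'' : t'.root = σ.G.start := troot'.trans troot
  obtain ⟨w, n', m', w', tyd', hlen, hFw, hnm'⟩ := h5 s (L18_rs l5 σ) (L18_rf l5 σ F) t' tok' troot''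
  have lenv : v.length = v'.length := by
    have e1 := congrArg List.length hvx
    have e2 := congrArg List.length hvx'
    simp only [List.length_map] at e1 e2
    omega
  have tcw' : cw β (enc w n' m' w') 0 = cw β (enc v n m v') 0 +
      (cs'.map (fun p => eff p.2.2 p.2.1 (F.e.ω p.1))).sum := by
    rw [← tyd', ← tyd]
    exact tcw
  have hlet : ∀ p ∈ cs', ∀ x ∈ p.2.2.yl ++ p.2.2.yr, x = Lt.one ∨ x = Lt.one' :=
    fun p hp => (hcs p (hsub p hp)).2.2.2.2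
  have hflat : ∀ q ∈ (cs'.map (fun p => eff p.2.2 p.2.1 (F.e.ω p.1))).sum,
      q.1 = Lt.one ∨ q.1 = Lt.one' := by
    clear tcw tcw' hu hu' hsub
    induction cs' with
    | nil => intro q hq; simp at hq
    | cons p l ih =>
      intro q hq
      simp only [List.map_cons, List.sum_cons, Multiset.mem_add] at hq
      rcases hq with hq | hq
      · simp only [eff, Multiset.mem_add, Multiset.mem_map, Multiset.mem_coe] at hq
        rcases hq with ⟨x, hx, rfl⟩ | ⟨x, hx, rfl⟩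
        · exact hlet p (by simp) x (List.mem_append_left _ hx)
        · exact hlet p (by simp) x (List.mem_append_right _ hx)
      · exact ih (fun p' hp' => hlet p' (by simp [hp'])) q hq
  obtain ⟨c1, c2, c3, c4, c5, c6, -, -⟩ := content_diff v v' w w' n m n' m' lenv hlen
    (cs'.map (fun p => eff p.2.2 p.2.1 (F.e.ω p.1))).sum (fun q hq => by
      rcases hflat q hq with e | e <;> rw [e] <;> trivial) tcw'
  have c0 : ∀ (x : Lt 𝓜.Q) (i : ℤ), x ≠ Lt.one → x ≠ Lt.one' →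
      ((cs'.map (fun p => eff p.2.2 p.2.1 (F.e.ω p.1))).sum).count (x, i) = 0 := by
    intro x i hx1 hx2
    rw [Multiset.count_eq_zero]
    intro hmem
    rcases hflat _ hmem with e | e
    · exact hx1 e
    · exact hx2 e
  rw [c0 _ _ (by simp) (by simp), add_zero] at c5 c6
  subst c5 c6
  have d1 : ∀ i, num w i = u i := by
    intro i
    rw [c3 i, hu i, L18_count]
  have d2 : ∀ i, num w' i = u' i := by
    intro i
    rw [c4 i, hu' i, L18_count]
  refine h6 s (L18_rs l6 σ) (L18_rf l6 σ F) t' tok' troot'' w w' n' m' j tyd' hreg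
    (by show _ ≤ b4 _ + D0 s; omega) (by show _ ≤ b4 _ + D0 s; omega) ?_ ?_ ?_
  · intro i
    rw [d1, d2]
    have := hbd i
    constructor
    · show _ ≤ b4 _ + D0 s; omega
    · show _ ≤ b4 _ + D0 s; omega
  · rcases hW with hW | ⟨p, r, e1, e2, e3, e4⟩
    · refine ⟨0, fun i _ _ => ?_, ?_⟩
      · rw [d1, d2]
        exact htight i (by rw [hW]; simp)
      · rw [d1, d1, d2, d2, htight 0 (by rw [hW]; simp), htight (0 + 1) (by rw [hW]; simp)]
    · refine ⟨(p : ℤ) + 1, fun i hi1 hi2 => ?_, ?_⟩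
      · rw [d1, d2]
        exact htight i (by rw [e4]; simp [hi1, hi2])
      · rw [d1, d1, d2, d2]
        exact hle p r e1 e2 e3 e4
  · intro p r r' hr hr' hrj hrq
    have cx : w.map Prod.fst = x0.map Prod.fst := c1.trans hvx
    obtain ⟨y, hy⟩ := L18_fst cx p r hr
    obtain ⟨y', hy'⟩ := L18_fst cx (p + 1) r' hr'
    have hv0 := hval p _ _ hy hy' hrq
    obtain ⟨g1, g2⟩ := hlin p _ hy hrj hrq
    have g3 : u ((p : ℤ) + 1) = r.2 := by rw [← d1]; exact L18_num w p r hr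
    have g4 : u ((p : ℤ) + 1 + 1) = r'.2 := by
      rw [← d1]
      have := L18_num w (p + 1) r' hr'
      push_cast at this
      exact this
    rw [g3] at g2
    rw [g3, g4] at g1
    simp only at g1 g2
    rw [← g2] at g1
    have hv1 := congrArg Prod.fst hv0
    simp only [Mach.step] at hv1
    rw [← g2] at hv1
    have e6 : (r.2 : ℤ) = (𝓜.M : ℤ) * ((r.2 / 𝓜.M : ℕ) : ℤ) + ((r.2 % 𝓜.M : ℕ) : ℤ) := by
      exact_mod_cast (Nat.div_add_mod r.2 𝓜.M).symm
    have e7 : (𝓜.M : ℤ) * (r'.2 : ℤ) = (𝓜.M : ℤ) * ((𝓜.l r.1.1 (r.2 % 𝓜.M) * (r.2 / 𝓜.M) +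
        𝓜.d r.1.1 (r.2 % 𝓜.M) : ℕ) : ℤ) := by
      rw [g1]
      generalize ((r.2 % 𝓜.M : ℕ) : ℤ) = ρ at e6 ⊢
      generalize 𝓜.l r.1.1 (r.2 % 𝓜.M) = ll
      generalize 𝓜.d r.1.1 (r.2 % 𝓜.M) = dd
      generalize r.2 / 𝓜.M = qq at e6 ⊢
      rw [e6]
      push_cast
      ring
    have e8 : r'.2 = 𝓜.l r.1.1 (r.2 % 𝓜.M) * (r.2 / 𝓜.M) + 𝓜.d r.1.1 (r.2 % 𝓜.M) := by
      have hMpos : (𝓜.M : ℤ) ≠ 0 := by
        have := 𝓜.hM
        omega
      exact_mod_cast mul_left_cancel₀ hMpos e7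
    show 𝓜.step (r.1.1, r.2) = (r'.1.1, r'.2)
    simp only [Mach.step]
    rw [hv1, ← e8]

end NSI
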