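import Pool.Agent.Lib.NSI.T02
import Pool.Agent.Lib.NSI.KDefs

/-!
# T14 : in a grammar whose short words are mirror words, a nonterminal beside `mid` generates
exactly one word

`tw y = y mid (copy of y reversed)`.

Recipe.  Bound `N = n * (2 ^ n + 1) + 2 ^ (n + 2) + 5` (`n` replaced by `s`).
Strong induction on `t.size` for all `A`, `C`.  For trees of height `≤ n` at `A`: with a small
context `C'` (T02; it has the same hole `A` and root `G.start`, hence also its yield contains a
`mid`: `κ A = 0` and every word of the language has exactly one `mid`, from `hκ` and `hmid`) both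
words `C'.plug t`, `C'.plug t'` are short, so both are mirror words `tw y`, `tw y'`; if the `mid` is
in `C'.yr` (hole on the left) then the right-hand sides agree, so `y = y'` and the yields agree;
similarly for `mid ∈ C'.yl`.  General tree `t = nd A l r`: let `l0, r0` be small trees (T02) with
the roots of `l, r`; by induction `l.yd = l0.yd`, `r.yd = r0.yd` (contexts `C.comp (.lft A .hole r)`,
`C.comp (.rgt A l .hole)`), and `nd A l0 r0` has height `≤ n`.
It is convenient to prove: every ok tree `t` at `A` has the yield of every ok tree `t0` at `A` of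
height `≤ n`.
-/

set_option autoImplicit false

namespace NSI

variable {Q : ℕ} {V : Type}

/-- copy letters -/
def cp : Lt Q → Lt Q
  | .row q π => .row' q π
  | .one => .one'
  | .a => .b
  | x => x

/-- mirror words -/
def tw (y : List (Lt Q)) : List (Lt Q) := y ++ Lt.mid :: (y.map cp).reverse

/-- `z = tw y` with `y` a word of left letters -/
def Tight (z : List (Lt Q)) : Prop := ∃ y : List (Lt Q), (∀ x ∈ y, sd x = 0) ∧ z = tw y

private theorem T14_wt_nonneg (z : List (Lt Q)) : 0 ≤ wt ψm z := by
  induction z with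
  | nil => simp
  | cons x z ih =>
    rw [wt_cons]
    have : 0 ≤ ψm x := by cases x <;> simp [ψm]
    omega

private theorem T14_wt_pos {z : List (Lt Q)} (h : Lt.mid ∈ z) : 1 ≤ wt ψm z := by
  induction z with
  | nil => simp at h
  | cons x z ih =>
    rw [wt_cons]
    have h0 : 0 ≤ ψm x := by cases x <;> simp [ψm]
    have h1 := T14_wt_nonneg z
    rw [List.mem_cons] at h
    rcases h with h | h
    · subst h
      simp only [ψm]
      omega
    · have := ih h
      omega

private theorem T14_mem_of_wt {z : List (Lt Q)} (h : 0 < wt ψm z) : Lt.mid ∈ z := by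
  by_contra hcon
  have : wt ψm z = 0 := by
    induction z with
    | nil => simp
    | cons x z ih =>
      rw [List.mem_cons, not_or] at hcon
      rw [wt_cons] at h ⊢
      have h0 : ψm x = 0 := by
        cases x <;> simp_all [ψm]
      rw [h0, zero_add] at h ⊢
      exact ih h hcon.2
  omega

/-- two factorisations around the only letter `mid` -/
private theorem T14_split {p q p' q' : List (Lt Q)} (h : p ++ Lt.mid :: q = p' ++ Lt.mid :: q')
    (hp : Lt.mid ∉ p) (hp' : Lt.mid ∉ p') : p = p' ∧ q = q' := by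
  induction p generalizing p' with
  | nil =>
    cases p' with
    | nil => simpa using h
    | cons x p' =>
      simp only [List.nil_append, List.cons_append, List.cons.injEq] at h
      exact absurd (by rw [← h.1]; simp) hp'
  | cons y p ih =>
    cases p' with
    | nil =>
      simp only [List.nil_append, List.cons_append, List.cons.injEq] at h
      exact absurd (by rw [h.1]; simp) hp
    | cons x p' =>
      simp only [List.cons_append, List.cons.injEq] at h
      have hp1 : Lt.mid ∉ p := fun hm => hp (List.mem_cons_of_mem _ hm)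
      have hp1' : Lt.mid ∉ p' := fun hm => hp' (List.mem_cons_of_mem _ hm)
      obtain ⟨h1, h2⟩ := ih h.2 hp1 hp1'
      exact ⟨by rw [h.1, h1], h2⟩

private theorem T14_cp_inj1 {x x' : Lt Q} (h1 : sd x = 0) (h2 : sd x' = 0) (h : cp x = cp x') :
    x = x' := by
  cases x <;> cases x' <;> simp only [cp, sd, reduceCtorEq, Lt.row'.injEq, Lt.row.injEq] at h h1 h2 ⊢
  all_goals first
    | exact h
    | exact absurd h1 (by decide)
    | exact absurd h2 (by decide)

private theorem T14_cp_inj {y y' : List (Lt Q)} (hy : ∀ x ∈ y, sd x = 0) (hy' : ∀ x ∈ y', sd x = 0)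
    (h : y.map cp = y'.map cp) : y = y' := by
  induction y generalizing y' with
  | nil =>
    cases y' with
    | nil => rfl
    | cons x y' => simp at h
  | cons x y ih =>
    cases y' with
    | nil => simp at h
    | cons x' y' =>
      simp only [List.map_cons, List.cons.injEq] at h
      have h1 := hy x (by simp)
      have h2 := hy' x' (by simp)
      have h3 := ih (fun z hz => hy z (List.mem_cons_of_mem _ hz))
        (fun z hz => hy' z (List.mem_cons_of_mem _ hz)) h.2
      rw [h3, T14_cp_inj1 h1 h2 h.1]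

private theorem T14_mid_not {y : List (Lt Q)} (hy : ∀ x ∈ y, sd x = 0) : Lt.mid ∉ y := by
  intro h
  have := hy _ h
  simp [sd] at this

/-- two mirror words that differ in one factor beside `mid` are equal -/
private theorem T14_eq {u v z z' : List (Lt Q)} (h : Tight (u ++ z ++ v)) (h' : Tight (u ++ z' ++ v))
    (hz : Lt.mid ∉ z) (hz' : Lt.mid ∉ z') : z = z' := by
  obtain ⟨y, hy, e⟩ := h
  obtain ⟨y', hy', e'⟩ := h'
  unfold tw at e e'
  have hm := T14_mid_not hy
  have hm' := T14_mid_not hy'
  by_cases hu : Lt.mid ∈ u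
  · obtain ⟨p, q, hu', hpm⟩ := List.eq_append_cons_of_mem hu
    rw [hu'] at e e'
    have e1 : p ++ Lt.mid :: (q ++ z ++ v) = y ++ Lt.mid :: (y.map cp).reverse := by
      rw [← e]; simp
    have e1' : p ++ Lt.mid :: (q ++ z' ++ v) = y' ++ Lt.mid :: (y'.map cp).reverse := by
      rw [← e']; simp
    obtain ⟨a1, a2⟩ := T14_split e1 hpm hm
    obtain ⟨b1, b2⟩ := T14_split e1' hpm hm'
    rw [← a1] at a2
    rw [← b1] at b2
    rw [← a2] at b2
    have b3 := List.append_cancel_right b2
    exact (List.append_cancel_left b3).symm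
  · have hv : Lt.mid ∈ v := by
      have : Lt.mid ∈ u ++ z ++ v := by rw [e]; simp
      simpa [hu, hz] using this
    obtain ⟨p, q, hv', hpm⟩ := List.eq_append_cons_of_mem hv
    rw [hv'] at e e'
    have e1 : (u ++ z ++ p) ++ Lt.mid :: q = y ++ Lt.mid :: (y.map cp).reverse := by
      rw [← e]; simp
    have e1' : (u ++ z' ++ p) ++ Lt.mid :: q = y' ++ Lt.mid :: (y'.map cp).reverse := by
      rw [← e']; simp
    obtain ⟨a1, a2⟩ := T14_split e1 (by simp [hu, hz, hpm]) hm
    obtain ⟨b1, b2⟩ := T14_split e1' (by simp [hu, hz', hpm]) hm'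
    have h1 : y.map cp = y'.map cp := by
      rw [← List.reverse_inj, ← a2, ← b2]
    have h2 := T14_cp_inj hy hy' h1
    rw [h2, ← b1] at a1
    have b3 := List.append_cancel_right a1
    exact List.append_cancel_left b3

private def T14_bd (s : ℕ) : ℕ := s * (2 ^ s + 1) + 2 ^ s

private theorem T14_small [Fintype V] {s : ℕ} (G : Gr V (Lt Q)) (Cc : ℕ) (e : Exact G Cc)
    (hV : Fintype.card V ≤ s) (hN : ∀ z ∈ G.lang, z.length ≤ T14_bd s → Tight z)
    (A : V) (C : Cx V (Lt Q)) (hC : C.ok G A) (hCr : C.root A = G.start)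
    (hA : e.κ A = 0) (t t' : Tr V (Lt Q)) (ht : t.ok G) (ht' : t'.ok G) (hr : t.root = A)
    (hr' : t'.root = A) (hh : t.ht ≤ Fintype.card V) (hh' : t'.ht ≤ Fintype.card V) :
    t.yd = t'.yd := by
  obtain ⟨C', hC', hCr', hCs⟩ := small_ctx G A C hC
  rw [hCr] at hCr'
  have key : ∀ u : Tr V (Lt Q), u.ok G → u.root = A → u.ht ≤ Fintype.card V →
      Tight (C'.yl ++ u.yd ++ C'.yr) ∧ Lt.mid ∉ u.yd := by
    intro u hu hur huh
    constructor
    · apply hN
      · refine ⟨C'.plug u, ?_, ?_, ?_⟩
        · rw [Cx.ok_plug, hur]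
          exact ⟨hC', hu⟩
        · rw [Cx.root_plug, hur, hCr']
        · rw [Cx.yd_plug]
      · have h1 := C'.length_le_size
        have h2 := u.length_yd_le
        have h3 : 2 ^ u.ht ≤ 2 ^ s := Nat.pow_le_pow_right (by norm_num) (huh.trans hV)
        have h4 : Fintype.card V * (2 ^ Fintype.card V + 1) ≤ s * (2 ^ s + 1) := by
          apply Nat.mul_le_mul hV
          have := Nat.pow_le_pow_right (n := 2) (by norm_num) hV
          omega
        unfold T14_bd
        simp only [List.length_append]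
        omega
    · intro hm
      have h1 := T14_wt_pos hm
      have h2 := e.hκ u hu
      rw [hur, hA] at h2
      omega
  obtain ⟨h1, h2⟩ := key t ht hr hh
  obtain ⟨h1', h2'⟩ := key t' ht' hr' hh'
  exact T14_eq h1 h1' h2 h2'

private theorem T14_main [Fintype V] {s : ℕ} (G : Gr V (Lt Q)) (Cc : ℕ) (e : Exact G Cc)
    (hV : Fintype.card V ≤ s) (hN : ∀ z ∈ G.lang, z.length ≤ T14_bd s → Tight z)
    (t : Tr V (Lt Q)) : ∀ (A : V) (C : Cx V (Lt Q)), C.ok G A → C.root A = G.start →
    e.κ A = 0 → ∀ t' : Tr V (Lt Q), t.ok G → t'.ok G → t.root = A →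
    t'.root = A → t'.ht ≤ Fintype.card V → t.yd = t'.yd := by
  induction t with
  | lf B x =>
    intro A C hC hCr hA t' ht ht' hr hr' hh'
    exact T14_small G Cc e hV hN A C hC hCr hA _ t' ht ht' hr hr' (Nat.zero_le _) hh'
  | nd B l r ihl ihr =>
    intro A C hC hCr hA t' ht ht' hr hr' hh'
    have hB : B = A := hr
    subst hB
    have hok : G.bin B l.root r.root ∧ l.ok G ∧ r.ok G := ht
    obtain ⟨hbin, hl, hr1⟩ := hok
    have hk := e.hκ _ ht
    have hkl := e.hκ _ hl
    have hkr := e.hκ _ hr1
    have hlp := T14_wt_nonneg l.yd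
    have hrp := T14_wt_nonneg r.yd
    have hsum : wt ψm (Tr.nd B l r).yd = wt ψm l.yd + wt ψm r.yd := by
      show wt ψm (l.yd ++ r.yd) = _
      rw [wt_append]
    have hroot : (Tr.nd B l r).root = B := rfl
    rw [hsum, hroot, hA] at hk
    obtain ⟨l0, hl0, hlr, hlh, _⟩ := small_tree G l hl
    obtain ⟨r0, hr0, hrr, hrh, _⟩ := small_tree G r hr1
    have e1 : l.yd = l0.yd := by
      refine ihl l.root (C.comp (.lft B .hole r)) ?_ ?_ (by omega) l0 hl hl0 rfl hlr hlh.le
      · rw [Cx.ok_comp]
        exact ⟨hC, hbin, trivial, hr1⟩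
      · rw [Cx.root_comp]
        exact hCr
    have e2 : r.yd = r0.yd := by
      refine ihr r.root (C.comp (.rgt B l .hole)) ?_ ?_ (by omega) r0 hr1 hr0 rfl hrr hrh.le
      · rw [Cx.ok_comp]
        exact ⟨hC, hbin, hl, trivial⟩
      · rw [Cx.root_comp]
        exact hCr
    have e3 : (Tr.nd B l r).yd = (Tr.nd B l0 r0).yd := by
      show l.yd ++ r.yd = l0.yd ++ r0.yd
      rw [e1, e2]
    rw [e3]
    refine T14_small G Cc e hV hN B C hC hCr hA _ t' ?_ ht' rfl hr' ?_ hh'
    · exact ⟨by rw [hlr, hrr]; exact hbin, hl0, hr0⟩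
    · show max l0.ht r0.ht + 1 ≤ _
      omega

theorem unique_side : Bnd (fun s N => ∀ (V : Type) (_ : Fintype V) (G : Gr V (Lt Q)) (Cc : ℕ)
    (e : Exact G Cc), Fintype.card V ≤ s → (∀ z ∈ G.lang, z.length ≤ N → Tight z) →
    (∀ z ∈ G.lang, wt ψm z = 1) →
    ∀ (A : V) (C : Cx V (Lt Q)), C.ok G A → C.root A = G.start → e.κ A = 0 →
    ∀ t t' : Tr V (Lt Q), t.ok G → t'.ok G → t.root = A → t'.root = A → t.yd = t'.yd) := by
  refine ⟨T14_bd, ?_, ?_, ?_⟩
  · have h1 : Primrec (fun s : ℕ => 2 ^ s) := primrec_pow.comp (Primrec.const 2) Primrec.id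
    exact Primrec.nat_add.comp
      (Primrec.nat_mul.comp Primrec.id (Primrec.succ.comp h1)) h1
  · intro x y hxy
    unfold T14_bd
    have h1 : 2 ^ x ≤ 2 ^ y := Nat.pow_le_pow_right (by norm_num) hxy
    have h2 : x * (2 ^ x + 1) ≤ y * (2 ^ y + 1) := Nat.mul_le_mul hxy (by omega)
    omega
  · intro s V _ G Cc e hV hN _ A C hC hCr hA t t' ht ht' hr hr'
    obtain ⟨t0, ht0, hr0, hh0, _⟩ := small_tree G t ht
    rw [hr] at hr0
    rw [T14_main G Cc e hV hN t A C hC hCr hA t0 ht ht0 hr hr0 hh0.le,
      T14_main G Cc e hV hN t' A C hC hCr hA t0 ht' ht0 hr' hr0 hh0.le]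

end NSI
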