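import Pool.Agent.Lib.NSI.T08
import Pool.Agent.Lib.NSI.T14
import Pool.Agent.Lib.NSI.K01

/-!
# Definitions for the main lemma
-/

set_option autoImplicit false

namespace NSI

/-- coded words with the correct left-hand side -/
def Fmt (𝓜 : Mach) (E : ℕ) (z : List (Lt 𝓜.Q)) : Prop :=
  ∃ w n m w', z = enc w n m w' ∧ FF 𝓜 E w

/-- Face data: the trees with as many right rows as left rows, with exactness. -/
structure Fc {𝓜 : Mach} {s N : ℕ} (σ : Sit 𝓜 s N) where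
  G1 : Gr σ.V (Lt 𝓜.Q)
  start : G1.start = σ.G.start
  sub : ∀ t : Tr σ.V (Lt 𝓜.Q), t.ok G1 → t.ok σ.G
  full : ∀ t : Tr σ.V (Lt 𝓜.Q), t.ok σ.G → t.root = σ.G.start → wt ψμ t.yd = 0 → t.ok G1
  e : Exact G1 (2 ^ s)

/-- the number of the row with index `j` (rows are numbered from `1`), `0` if there is none -/
def num {Q : ℕ} (w : List (Row Q)) (j : ℤ) : ℕ :=
  if 1 ≤ j then ((w[(j - 1).toNat]?).map Prod.snd).getD 0 else 0

/-- the cycle adds more letters `1` than letters `1'` to the row `s` -/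
def hv {Q : ℕ} {V : Type} (d : Cx V (Lt Q)) (k h s : ℤ) : Prop :=
  (eff d k h).count (Lt.one', s) < (eff d k h).count (Lt.one, s)

/-- the rows with indices `s1`, `s2` are in a common window whose first row has parity `j` and is
not halting -/
def Cover (𝓜 : Mach) (w : List (Row 𝓜.Q)) (j : Bool) (s1 s2 : ℤ) : Prop :=
  ∃ (p : ℕ) (r : Row 𝓜.Q), w[p]? = some r ∧ r.1.2 = j ∧ r.1.1 ≠ 𝓜.qh ∧
    (s1 = p + 1 ∨ s1 = p + 2) ∧ (s2 = p + 1 ∨ s2 = p + 2)

/-- all letters equal to `x` -/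
def AllE {Q : ℕ} (x : Lt Q) (u : List (Lt Q)) : Prop := ∀ y ∈ u, y = x

/-- the types of flat cycles -/
def CType {Q : ℕ} (u v : List (Lt Q)) : Prop :=
  (AllE Lt.one u ∧ AllE Lt.one v) ∨ (AllE Lt.one u ∧ AllE Lt.one' v) ∨
  (AllE Lt.one u ∧ AllE Lt.b v) ∨ (AllE Lt.a u ∧ AllE Lt.b v ∧ u.length ≤ v.length) ∨
  (AllE Lt.b u ∧ AllE Lt.b v) ∨ (AllE Lt.b u ∧ AllE Lt.one' v) ∨
  (AllE Lt.one' u ∧ AllE Lt.one' v)

/-- no strict iterative pair -/
def NoStrict {α : Type} (L : Language α) : Prop :=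
  ¬ ∃ x u y v z : List α, IterPair L x u y v z ∧ StrictPair L x u y v z

end NSI
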