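import Pool.Agent.Lib.NSI.KDefs
import Pool.Agent.Lib.MP_79b5eb_lc.Machine2

/-!
# M01 : a four-register machine whose non-halting set is not recursively enumerable

Recipe.  Adapt `exists_code_halting`, `QS_closed`, `transport`, `machine` of
`Pool.Agent.Lib.MP_79b5eb_lc.Machine2`: replace `ComputablePred.halting_problem` by
`ComputablePred.halting_problem_not_re` (an `REPred` composed with a computable function is an
`REPred`), and carry the extra property `0 < g.l` (in `micro` always `g.l = 1` or `5`).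
-/

set_option autoImplicit false

namespace NSI

section M01
open Pool.Agent.Lib.MP_79b5eb_lc
open Turing Turing.PartrecToTM2
open Turing.ToPartrec (Code)

private theorem M01_code : ∃ c : Code, ¬ REPred fun x : ℕ => ¬ (c.eval [x]).Dom := by
  have h1 : Partrec fun x : ℕ => Nat.Partrec.Code.eval (Denumerable.ofNat Nat.Partrec.Code x) 0 :=
    Nat.Partrec.Code.eval_part.comp (Computable.ofNat Nat.Partrec.Code) (Computable.const 0)
  obtain ⟨c, hc⟩ := Turing.ToPartrec.Code.exists_code (Nat.Partrec'.part_iff₁.2 h1)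
  refine ⟨c, fun h => ?_⟩
  apply ComputablePred.halting_problem_not_re 0
  have h0 : REPred fun c' : Nat.Partrec.Code => ¬ (c.eval [Encodable.encode c']).Dom :=
    Partrec.comp h Computable.encode
  refine h0.of_eq fun c' => ?_
  have h3 := hc (Encodable.encode c' ::ᵥ List.Vector.nil)
  simp only [List.Vector.head_cons, Denumerable.ofNat_encode] at h3
  have h4 : (Encodable.encode c' ::ᵥ List.Vector.nil : List.Vector ℕ 1).1 =
    [Encodable.encode c'] := rfl
  rw [h4] at h3
  rw [h3]
  rfl

private theorem M01_l {p : SS × Option Γ'} {g : GI (SS × Option Γ')} (h : micro p = some g) :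
    0 < g.l := by
  obtain ⟨s, v⟩ := p
  cases s <;> simp only [micro, Option.some.injEq, reduceCtorEq] at h <;> subst h <;> norm_num

private theorem M01_transport {Q : Type} (M : Q → Option (GI Q)) (S : Set Q) (hfin : S.Finite)
    (q0 : Q) (h0 : q0 ∈ S)
    (hcl : ∀ p ∈ S, ∀ g, M p = some g → ∀ r, g.nx r ∈ S ∧ 0 < g.m ∧ 0 < g.l) :
    ∃ (M' : ℕ → Option (GI ℕ)) (N i0 : ℕ), i0 < N ∧
      (∀ i g, M' i = some g → 0 < g.m ∧ 0 < g.l ∧ ∀ r, g.nx r < N) ∧
      ∀ R, Halts M' i0 R ↔ Halts M q0 R := by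
  classical
  have : Finite S := hfin
  obtain ⟨N, ⟨e⟩⟩ := Finite.exists_equiv_fin S
  let idx : Q → ℕ := fun p => if h : p ∈ S then (e ⟨p, h⟩ : ℕ) else 0
  let M' : ℕ → Option (GI ℕ) := fun i =>
    if h : i < N then (M (e.symm ⟨i, h⟩).1).map fun g => ⟨g.k, g.m, g.l, g.d, fun r => idx (g.nx r)⟩
    else none
  have hidx : ∀ p (h : p ∈ S), idx p < N := by
    intro p h
    simp only [idx, dif_pos h]
    exact (e ⟨p, h⟩).2
  have hM' : ∀ p (h : p ∈ S), M' (idx p) =
      (M p).map fun g => ⟨g.k, g.m, g.l, g.d, fun r => idx (g.nx r)⟩ := by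
    intro p h
    have h1 := hidx p h
    simp only [M', dif_pos h1]
    have h2 : (⟨idx p, h1⟩ : Fin N) = e ⟨p, h⟩ := by
      apply Fin.ext
      simp only [idx, dif_pos h]
    rw [h2, Equiv.symm_apply_apply]
  refine ⟨M', N, idx q0, hidx q0 h0, ?_, ?_⟩
  · intro i g hg
    by_cases hi : i < N
    · simp only [M', dif_pos hi, Option.map_eq_some_iff] at hg
      obtain ⟨g', hg', rfl⟩ := hg
      have h1 := hcl _ (e.symm ⟨i, hi⟩).2 g' hg'
      exact ⟨(h1 0).2.1, (h1 0).2.2, fun r => hidx _ (h1 r).1⟩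
    · simp only [M', dif_neg hi] at hg
      exact absurd hg (by simp)
  · have back : ∀ (p : Q) (R : Fin 4 → ℕ), Halts M p R → p ∈ S → Halts M' (idx p) R := by
      intro p R h
      induction h with
      | @halt p R hp =>
        intro hS
        apply Halts.halt
        rw [hM' p hS, hp]
        rfl
      | @step p R g hp h ih =>
        intro hS
        refine Halts.step (g := ⟨g.k, g.m, g.l, g.d, fun r => idx (g.nx r)⟩) ?_ ?_
        · rw [hM' p hS, hp]
          rfl
        · exact ih (hcl p hS g hp _).1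
    have forth : ∀ (i : ℕ) (R : Fin 4 → ℕ), Halts M' i R → ∀ p ∈ S, idx p = i → Halts M p R := by
      intro i R h
      induction h with
      | @halt i R hp =>
        intro p hS hi
        subst hi
        apply Halts.halt
        rw [hM' p hS] at hp
        simpa using hp
      | @step i R g hp h ih =>
        intro p hS hi
        subst hi
        rw [hM' p hS, Option.map_eq_some_iff] at hp
        obtain ⟨g', hg', rfl⟩ := hp
        exact Halts.step hg' (ih _ (hcl p hS g' hg' _).1 rfl)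
    intro R
    exact ⟨fun h => forth _ R h q0 h0 rfl, fun h => back q0 R h h0⟩

private theorem M01_machine : ∃ (M : ℕ → Option (GI ℕ)) (N i0 : ℕ) (E : ℕ → ℕ), i0 < N ∧
    (∀ i g, M i = some g → 0 < g.m ∧ 0 < g.l ∧ ∀ r, g.nx r < N) ∧ Computable E ∧
    ¬ REPred (fun x => ¬ Halts M i0 (fun i => if i = 0 then E x else 0)) := by
  obtain ⟨c, hc⟩ := M01_code
  obtain ⟨M, N, i0, h0, hcl, hM⟩ := M01_transport micro (QS c) (QS_finite c)
    (trS (trNormal c Cont'.halt), none) (QS_init c)
    (fun p hp g hg r => ⟨(QS_closed c hp hg r).1, (QS_closed c hp hg r).2, M01_l hg⟩)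
  refine ⟨M, N, i0, E0, h0, hcl, computable_E0, fun h => hc (h.of_eq fun x => ?_)⟩
  rw [hM, ← halts_init_iff]
  have : (fun i : Fin 4 => if i = 0 then E0 x else 0) =
      encS (K'.elim (trList [x]) [] [] []) := by
    funext i
    fin_cases i
    · rfl
    · simp [encS, kinv, Pool.Agent.Lib.MP_79b5eb_lc.enc, K'.elim]
    · simp [encS, kinv, Pool.Agent.Lib.MP_79b5eb_lc.enc, K'.elim]
    · simp [encS, kinv, Pool.Agent.Lib.MP_79b5eb_lc.enc, K'.elim]
  rw [this]

end M01

open Pool.Agent.Lib.MP_79b5eb_lc in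
theorem machine4 : ∃ (M : ℕ → Option (GI ℕ)) (N i0 : ℕ) (E : ℕ → ℕ), i0 < N ∧
    (∀ i g, M i = some g → 0 < g.m ∧ 0 < g.l ∧ ∀ r, g.nx r < N) ∧ Computable E ∧
    ¬ REPred (fun x => ¬ Pool.Agent.Lib.MP_79b5eb_lc.Halts M i0
      (fun i => if i = 0 then E x else 0)) := M01_machine

end NSI
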