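import Pool.Agent.Lib.NSI.KDefs

/-!
# M02 : fraction machines

A fraction machine replaces `n` in state `q` by `n / e * c`, where `(c, e, q')` depends on the state
and on the residue of `n` modulo `M`, with `e ∣ M` and `e ∣ residue`.  It is a machine `Mach`.

Recipe.  `l q r = M / e * c`, `d q r = r / e * c` (residues `r < M`; the value of `Mach.l` for
residues `≥ M` is irrelevant, but must be positive: use the residue `r % M`).
For `n = M t + r`: `n / e * c = (M / e * t + r / e) * c`.
-/

set_option autoImplicit false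

namespace NSI

structure FMach where
  N : ℕ
  M : ℕ
  hM : 0 < M
  num : Fin N → ℕ → ℕ
  den : Fin N → ℕ → ℕ
  nx : Fin N → ℕ → Fin N
  hnum : ∀ q r, 0 < num q r
  hden : ∀ q r, 0 < den q r
  hdM : ∀ q r, r < M → den q r ∣ M
  hdr : ∀ q r, r < M → den q r ∣ r
  q0 : Fin N
  qh : Fin N
  hq : q0 ≠ qh

def FMach.step (F : FMach) (c : Fin F.N × ℕ) : Fin F.N × ℕ :=
  (F.nx c.1 (c.2 % F.M), c.2 / F.den c.1 (c.2 % F.M) * F.num c.1 (c.2 % F.M))

def FMach.Halts (F : FMach) (n : ℕ) : Prop := ∃ k : ℕ, (F.step^[k] (F.q0, n)).1 = F.qh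

/-- the machine of a fraction machine -/
private def M02_mach (F : FMach) : Mach where
  Q := F.N
  M := F.M
  hM := F.hM
  nx := F.nx
  l := fun q r => F.M / F.den q (r % F.M) * F.num q (r % F.M)
  d := fun q r => (r % F.M) / F.den q (r % F.M) * F.num q (r % F.M)
  hl := fun q r => Nat.mul_pos (Nat.div_pos (Nat.le_of_dvd F.hM
    (F.hdM q (r % F.M) (Nat.mod_lt _ F.hM))) (F.hden q (r % F.M))) (F.hnum q (r % F.M))
  q0 := F.q0
  qh := F.qh
  hq := F.hq

private theorem M02_step (F : FMach) (c : Fin F.N × ℕ) : (M02_mach F).step c = F.step c := by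
  obtain ⟨q, n⟩ := c
  have hlt : n % F.M < F.M := Nat.mod_lt _ F.hM
  have h1 := F.hdM q (n % F.M) hlt
  have h2 := F.hdr q (n % F.M) hlt
  have h3 := F.hden q (n % F.M)
  have key : n / F.den q (n % F.M) =
      F.M / F.den q (n % F.M) * (n / F.M) + (n % F.M) / F.den q (n % F.M) := by
    obtain ⟨x, hx⟩ := h1
    obtain ⟨y, hy⟩ := h2
    set e := F.den q (n % F.M) with he
    have hn : n = e * (x * (n / F.M) + y) := by
      have h := Nat.div_add_mod n F.M
      calc n = F.M * (n / F.M) + n % F.M := h.symm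
        _ = (e * x) * (n / F.M) + e * y := by rw [← hx, ← hy]
        _ = e * (x * (n / F.M) + y) := by ring
    have e1 : F.M / e = x := by
      conv_lhs => rw [hx]
      exact Nat.mul_div_cancel_left x h3
    have e2 : (n % F.M) / e = y := by
      conv_lhs => rw [hy]
      exact Nat.mul_div_cancel_left y h3
    have e3 : n / e = x * (n / F.M) + y := by
      conv_lhs => rw [hn]
      exact Nat.mul_div_cancel_left _ h3
    rw [e1, e2, e3]
  have hmm : n % F.M % F.M = n % F.M := Nat.mod_mod _ _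
  show (F.nx q (n % F.M), F.M / F.den q (n % F.M % F.M) * F.num q (n % F.M % F.M) * (n / F.M) +
    (n % F.M % F.M) / F.den q (n % F.M % F.M) * F.num q (n % F.M % F.M)) =
    (F.nx q (n % F.M), n / F.den q (n % F.M) * F.num q (n % F.M))
  rw [hmm, key]
  congr 1
  ring

theorem fmach (F : FMach) : ∃ 𝓜 : Mach, ∀ n, 𝓜.Halts n ↔ F.Halts n := by
  refine ⟨M02_mach F, fun n => ?_⟩
  have h : ∀ k : ℕ, ((M02_mach F).step^[k] ((M02_mach F).q0, n)) = (F.step^[k] (F.q0, n)) := by
    intro k
    induction k with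
    | zero => rfl
    | succ k ih =>
      rw [Function.iterate_succ_apply', Function.iterate_succ_apply', ih]
      exact M02_step F _
  constructor
  · rintro ⟨k, hk⟩
    refine ⟨k, ?_⟩
    rw [← h k]
    exact hk
  · rintro ⟨k, hk⟩
    refine ⟨k, ?_⟩
    rw [h k]
    exact hk

end NSI
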