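import Pool.Agent.Lib.NSI.M03a
import Pool.Agent.Lib.MP_79b5eb_lc.Machine2

/-!
# M03 : a fraction machine simulating a four-register machine

`code R a = 2^(R 0) 3^(R 1) 5^(R 2) 7^(R 3) 11^a`.

Recipe.  States: `none` (halting), `some (i, none)` (phase 1 of instruction `i < N`),
`some (i, some r)` (phase 2, `r < max of the g.m`), transported to `Fin _` by an equivalence
(`Fintype.equivFin`); the initial state is `some (i0, none)`.
`M = 11 *` (product over `i < N` of `p_k ^ m` for the instruction `g` at `i`, `k = g.k`, `m = g.m`).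
* `M i = none`: phase 1 goes to the halting state with the fraction `1/1`.
* phase 1 of `g`, residue `ρ`: if `p_k ^ m ∣ ρ` then fraction `11 ^ l / p_k ^ m`, stay in phase 1;
  otherwise let `r < m` be the largest exponent with `p_k ^ r ∣ ρ`: fraction `11 ^ (d r) / p_k ^ r`,
  go to phase 2 of `(i, r)`.  (`p_k ^ m ∣ M`, so divisibility of `n` by `p_k ^ r`, `r ≤ m`, is
  divisibility of `ρ = n % M`.)
* phase 2 of `(i, r)`: if `11 ∣ ρ` fraction `p_k / 11`, stay; otherwise fraction `1/1`, go to phase 1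
  of `g.nx r`.
-/

set_option autoImplicit false

namespace NSI

open Pool.Agent.Lib.MP_79b5eb_lc

section
variable (M : ℕ → Option (GI ℕ)) (N : ℕ)

/-- the factor of the modulus -/
def M03_f (i : ℕ) : ℕ := match M i with
  | none => 1
  | some g => pk g.k ^ g.m

/-- the modulus -/
def M03_M : ℕ := 11 * ∏ i ∈ Finset.range N, M03_f M i

/-- bound of the moduli of the instructions -/
def M03_B : ℕ := (Finset.range N).sup (fun i => match M i with
  | none => 0
  | some g => g.m)

/-- states -/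
abbrev M03_St : Type := Option (Fin N × Option (Fin (M03_B M N + 1)))

/-- the largest exponent -/
def M03_e (g : GI ℕ) (ρ : ℕ) : ℕ := Nat.findGreatest (fun e => pk g.k ^ e ∣ ρ) g.m

theorem M03_M_pos : 0 < M03_M M N := by
  unfold M03_M
  refine Nat.mul_pos (by norm_num) (Finset.prod_pos fun i _ => ?_)
  unfold M03_f
  cases M i with
  | none => exact Nat.one_pos
  | some g => exact pow_pos (M03a_pk_pos g.k) g.m

theorem M03_dvd_M {i : ℕ} (hi : i < N) {g : GI ℕ} (hg : M i = some g) :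
    pk g.k ^ g.m ∣ M03_M M N := by
  unfold M03_M
  refine Dvd.dvd.mul_left ?_ 11
  have h : M03_f M i = pk g.k ^ g.m := by
    unfold M03_f
    rw [hg]
  rw [← h]
  exact Finset.dvd_prod_of_mem (M03_f M) (Finset.mem_range.2 hi)

theorem M03_le_B {i : ℕ} (hi : i < N) {g : GI ℕ} (hg : M i = some g) : g.m ≤ M03_B M N := by
  unfold M03_B
  have h := Finset.le_sup (f := fun i => match M i with
    | none => 0
    | some g => g.m) (Finset.mem_range.2 hi)
  simp only [hg] at h
  exact h

theorem M03_e_le (g : GI ℕ) (ρ : ℕ) : M03_e g ρ ≤ g.m := Nat.findGreatest_le _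

theorem M03_e_dvd (g : GI ℕ) (ρ : ℕ) : pk g.k ^ M03_e g ρ ∣ ρ := by
  unfold M03_e
  exact Nat.findGreatest_spec (P := fun e => pk g.k ^ e ∣ ρ) (Nat.zero_le g.m) (by simp)

/-- next action: numerator, denominator, new state -/
noncomputable def M03_act : M03_St M N → ℕ → ℕ × ℕ × M03_St M N
  | none, _ => (1, 1, none)
  | some (i, none), ρ => (match M i.1 with
      | none => (1, 1, none)
      | some g => if M03_e g ρ = g.m then (11 ^ g.l, pk g.k ^ g.m, some (i, none))
        else (11 ^ g.d (M03_e g ρ), pk g.k ^ M03_e g ρ,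
          some (i, some (Fin.ofNat (M03_B M N + 1) (M03_e g ρ)))))
  | some (i, some r), ρ => (match M i.1 with
      | none => (1, 1, none)
      | some g => if 11 ∣ ρ then (pk g.k, 11, some (i, some r))
        else (1, 1, if h : g.nx r.1 < N then some (⟨g.nx r.1, h⟩, none) else none))

theorem M03_num_pos (s : M03_St M N) (ρ : ℕ) : 0 < (M03_act M N s ρ).1 := by
  rcases s with _ | ⟨i, _ | r⟩
  · exact Nat.one_pos
  · cases hM : M i.1 with
    | none =>
      simp only [M03_act, hM]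
      exact Nat.one_pos
    | some g =>
      simp only [M03_act, hM]
      split_ifs
      · exact pow_pos (by norm_num) _
      · exact pow_pos (by norm_num) _
  · cases hM : M i.1 with
    | none =>
      simp only [M03_act, hM]
      exact Nat.one_pos
    | some g =>
      simp only [M03_act, hM]
      split_ifs
      · exact M03a_pk_pos _
      all_goals exact Nat.one_pos

theorem M03_11 : 11 ∣ M03_M M N := Dvd.intro _ rfl

theorem M03_den (s : M03_St M N) (ρ : ℕ) : 0 < (M03_act M N s ρ).2.1 ∧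
    (M03_act M N s ρ).2.1 ∣ M03_M M N ∧ (M03_act M N s ρ).2.1 ∣ ρ := by
  rcases s with _ | ⟨i, _ | r⟩
  · exact ⟨Nat.one_pos, one_dvd _, one_dvd _⟩
  · cases hM : M i.1 with
    | none =>
      simp only [M03_act, hM]
      exact ⟨Nat.one_pos, one_dvd _, one_dvd _⟩
    | some g =>
      simp only [M03_act, hM]
      have h1 := M03_dvd_M M N i.2 hM
      have h2 := M03_e_dvd g ρ
      split_ifs with h
      · rw [h] at h2
        exact ⟨pow_pos (M03a_pk_pos _) _, h1, h2⟩
      · exact ⟨pow_pos (M03a_pk_pos _) _, (pow_dvd_pow _ (M03_e_le g ρ)).trans h1, h2⟩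
  · cases hM : M i.1 with
    | none =>
      simp only [M03_act, hM]
      exact ⟨Nat.one_pos, one_dvd _, one_dvd _⟩
    | some g =>
      simp only [M03_act, hM]
      split_ifs with h
      · exact ⟨by norm_num, M03_11 M N, h⟩
      all_goals exact ⟨Nat.one_pos, one_dvd _, one_dvd _⟩

/-- the fraction machine -/
noncomputable def M03_F (i0 : ℕ) (h0 : i0 < N) : FMach where
  N := Fintype.card (M03_St M N)
  M := M03_M M N
  hM := M03_M_pos M N
  num q r := (M03_act M N ((Fintype.equivFin _).symm q) r).1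
  den q r := (M03_act M N ((Fintype.equivFin _).symm q) r).2.1
  nx q r := Fintype.equivFin _ (M03_act M N ((Fintype.equivFin _).symm q) r).2.2
  hnum q r := M03_num_pos M N _ r
  hden q r := (M03_den M N _ r).1
  hdM q r _ := (M03_den M N _ r).2.1
  hdr q r _ := (M03_den M N _ r).2.2
  q0 := Fintype.equivFin _ (some (⟨i0, h0⟩, none))
  qh := Fintype.equivFin _ none
  hq h := by
    have := (Fintype.equivFin _).injective h
    exact absurd this (by simp)

end

/-- `c'` is reached from `c` in `j` steps, without meeting the halting state before -/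
def M03_R (F : FMach) (j : ℕ) (c c' : Fin F.N × ℕ) : Prop :=
  F.step^[j] c = c' ∧ ∀ i < j, (F.step^[i] c).1 ≠ F.qh

theorem M03_R_zero (F : FMach) (c : Fin F.N × ℕ) : M03_R F 0 c c :=
  ⟨rfl, fun i hi => absurd hi (Nat.not_lt_zero i)⟩

theorem M03_R_cons {F : FMach} {j : ℕ} {c c' : Fin F.N × ℕ} (h : c.1 ≠ F.qh)
    (h1 : M03_R F j (F.step c) c') : M03_R F (j + 1) c c' := by
  refine ⟨by rw [Function.iterate_succ_apply]; exact h1.1, fun i hi => ?_⟩
  rcases i with _ | i
  · exact h
  · rw [Function.iterate_succ_apply]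
    exact h1.2 i (by omega)

theorem M03_R_trans {F : FMach} {j j' : ℕ} {c c' c'' : Fin F.N × ℕ} (h : M03_R F j c c')
    (h1 : M03_R F j' c' c'') : M03_R F (j' + j) c c'' := by
  refine ⟨by rw [Function.iterate_add_apply, h.1, h1.1], fun i hi => ?_⟩
  by_cases hij : i < j
  · exact h.2 i hij
  · obtain ⟨i', rfl⟩ : ∃ i', i = i' + j := ⟨i - j, by omega⟩
    rw [Function.iterate_add_apply, h.1]
    exact h1.2 i' (by omega)

section
variable (M : ℕ → Option (GI ℕ)) (N i0 : ℕ) (h0 : i0 < N)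

/-- configurations -/
noncomputable def M03_c (s : M03_St M N) (n : ℕ) : Fin (M03_F M N i0 h0).N × ℕ :=
  (Fintype.equivFin _ s, n)

theorem M03_step (s : M03_St M N) (n : ℕ) : (M03_F M N i0 h0).step (M03_c M N i0 h0 s n) =
    M03_c M N i0 h0 (M03_act M N s (n % M03_M M N)).2.2
      (n / (M03_act M N s (n % M03_M M N)).2.1 * (M03_act M N s (n % M03_M M N)).1) := by
  have h : (Fintype.equivFin (M03_St M N)).symm (Fintype.equivFin (M03_St M N) s) = s :=
    Equiv.symm_apply_apply _ _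
  unfold FMach.step M03_c M03_F
  dsimp only
  rw [h]

theorem M03_ne (s : Fin N × Option (Fin (M03_B M N + 1))) (n : ℕ) :
    (M03_c M N i0 h0 (some s) n).1 ≠ (M03_F M N i0 h0).qh := by
  intro h
  have := (Fintype.equivFin (M03_St M N)).injective h
  exact absurd this (by simp)

theorem M03_e_code {i : ℕ} (hi : i < N) {g : GI ℕ} (hg : M i = some g) (R : Fin 4 → ℕ) (a : ℕ) :
    M03_e g (code R a % M03_M M N) = min g.m (R g.k) := by
  have h1 : ∀ e ≤ g.m, (pk g.k ^ e ∣ code R a % M03_M M N ↔ e ≤ R g.k) := by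
    intro e he
    rw [Nat.dvd_mod_iff ((pow_dvd_pow _ he).trans (M03_dvd_M M N hi hg))]
    exact pk_dvd R a g.k e
  unfold M03_e
  rw [Nat.findGreatest_eq_iff]
  refine ⟨min_le_left _ _, fun _ => (h1 _ (min_le_left _ _)).2 (min_le_right _ _), ?_⟩
  intro n hn hn2 h2
  rw [h1 n hn2] at h2
  omega

theorem M03_s1A {i : ℕ} (hi : i < N) {g : GI ℕ} (hg : M i = some g) (R : Fin 4 → ℕ) (a : ℕ)
    (h : g.m ≤ R g.k) :
    (M03_F M N i0 h0).step (M03_c M N i0 h0 (some (⟨i, hi⟩, none)) (code R a)) =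
      M03_c M N i0 h0 (some (⟨i, hi⟩, none))
        (code (Function.update R g.k (R g.k - g.m)) (a + g.l)) := by
  rw [M03_step]
  have h1 := M03_e_code M N hi hg R a
  rw [min_eq_left h] at h1
  have h2 : M03_act M N (some (⟨i, hi⟩, none)) (code R a % M03_M M N) =
      (11 ^ g.l, pk g.k ^ g.m, some (⟨i, hi⟩, none)) := by
    unfold M03_act
    simp only [hg, h1, if_true]
  rw [h2]
  dsimp only
  rw [code_move R a g.k g.m g.l h]

theorem M03_s1B {i : ℕ} (hi : i < N) {g : GI ℕ} (hg : M i = some g) (R : Fin 4 → ℕ) (a : ℕ)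
    (h : R g.k < g.m) :
    (M03_F M N i0 h0).step (M03_c M N i0 h0 (some (⟨i, hi⟩, none)) (code R a)) =
      M03_c M N i0 h0 (some (⟨i, hi⟩, some (Fin.ofNat (M03_B M N + 1) (R g.k))))
        (code (Function.update R g.k 0) (a + g.d (R g.k))) := by
  rw [M03_step]
  have h1 := M03_e_code M N hi hg R a
  rw [min_eq_right h.le] at h1
  have h2 : M03_act M N (some (⟨i, hi⟩, none)) (code R a % M03_M M N) =
      (11 ^ g.d (R g.k), pk g.k ^ R g.k,
        some (⟨i, hi⟩, some (Fin.ofNat (M03_B M N + 1) (R g.k)))) := by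
    unfold M03_act
    simp only [hg, h1]
    rw [if_neg h.ne]
  rw [h2]
  dsimp only
  rw [code_move R a g.k (R g.k) _ le_rfl, Nat.sub_self]

theorem M03_s2A {i : ℕ} (hi : i < N) {g : GI ℕ} (hg : M i = some g) (R : Fin 4 → ℕ) (a : ℕ)
    (r : Fin (M03_B M N + 1)) :
    (M03_F M N i0 h0).step (M03_c M N i0 h0 (some (⟨i, hi⟩, some r)) (code R (a + 1))) =
      M03_c M N i0 h0 (some (⟨i, hi⟩, some r))
        (code (Function.update R g.k (R g.k + 1)) a) := by
  rw [M03_step]
  have h1 : 11 ∣ code R (a + 1) % M03_M M N := by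
    rw [Nat.dvd_mod_iff (M03_11 M N)]
    have := (eleven_dvd R (a + 1) 1).2 (by omega)
    rwa [pow_one] at this
  have h2 : M03_act M N (some (⟨i, hi⟩, some r)) (code R (a + 1) % M03_M M N) =
      (pk g.k, 11, some (⟨i, hi⟩, some r)) := by
    unfold M03_act
    simp only [hg, h1, if_true]
  rw [h2]
  dsimp only
  rw [code_back R a g.k]

theorem M03_s2B {i : ℕ} (hi : i < N) {g : GI ℕ} (hg : M i = some g) (R : Fin 4 → ℕ)
    (r : Fin (M03_B M N + 1)) (hn : g.nx r.1 < N) :
    (M03_F M N i0 h0).step (M03_c M N i0 h0 (some (⟨i, hi⟩, some r)) (code R 0)) =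
      M03_c M N i0 h0 (some (⟨g.nx r.1, hn⟩, none)) (code R 0) := by
  rw [M03_step]
  have h1 : ¬ 11 ∣ code R 0 % M03_M M N := by
    rw [Nat.dvd_mod_iff (M03_11 M N)]
    intro h
    have := (eleven_dvd R 0 1).1 (by rwa [pow_one])
    omega
  have h2 : M03_act M N (some (⟨i, hi⟩, some r)) (code R 0 % M03_M M N) =
      (1, 1, some (⟨g.nx r.1, hn⟩, none)) := by
    unfold M03_act
    simp only [hg, h1, if_false, hn, dif_pos]
  rw [h2]
  dsimp only
  rw [Nat.div_one, Nat.mul_one]

theorem M03_s0 {i : ℕ} (hi : i < N) (hg : M i = none) (n : ℕ) :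
    ((M03_F M N i0 h0).step (M03_c M N i0 h0 (some (⟨i, hi⟩, none)) n)).1 =
      (M03_F M N i0 h0).qh := by
  rw [M03_step]
  have h2 : M03_act M N (some (⟨i, hi⟩, none)) (n % M03_M M N) = (1, 1, none) := by
    unfold M03_act
    simp only [hg]
  rw [h2]
  rfl

theorem M03_ph1 {i : ℕ} (hi : i < N) {g : GI ℕ} (hg : M i = some g) (t r : ℕ) (hr : r < g.m) :
    ∀ (R : Fin 4 → ℕ) (a : ℕ), R g.k = g.m * t + r →
    ∃ j, M03_R (M03_F M N i0 h0) (j + 1) (M03_c M N i0 h0 (some (⟨i, hi⟩, none)) (code R a))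
      (M03_c M N i0 h0 (some (⟨i, hi⟩, some (Fin.ofNat (M03_B M N + 1) r)))
        (code (Function.update R g.k 0) (a + (g.l * t + g.d r)))) := by
  induction t with
  | zero =>
    intro R a h
    have h1 : R g.k = r := by rw [h]; simp
    refine ⟨0, M03_R_cons (M03_ne M N i0 h0 _ _) ?_⟩
    rw [M03_s1B M N i0 h0 hi hg R a (by omega), h1]
    rw [Nat.mul_zero, Nat.zero_add]
    exact M03_R_zero _ _
  | succ t ih =>
    intro R a h
    have h1 : g.m ≤ R g.k := by rw [h]; nlinarith
    have h2 : Function.update R g.k (R g.k - g.m) g.k = g.m * t + r := by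
      rw [Function.update_self, h, Nat.mul_succ]
      omega
    obtain ⟨j, hj⟩ := ih (Function.update R g.k (R g.k - g.m)) (a + g.l) h2
    refine ⟨j + 1, M03_R_cons (M03_ne M N i0 h0 _ _) ?_⟩
    rw [M03_s1A M N i0 h0 hi hg R a h1]
    rw [Function.update_idem] at hj
    have h3 : a + g.l + (g.l * t + g.d r) = a + (g.l * (t + 1) + g.d r) := by ring
    rw [h3] at hj
    exact hj

theorem M03_ph2 {i : ℕ} (hi : i < N) {g : GI ℕ} (hg : M i = some g)
    (r : Fin (M03_B M N + 1)) (hn : g.nx r.1 < N) (a : ℕ) :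
    ∀ R : Fin 4 → ℕ,
    ∃ j, M03_R (M03_F M N i0 h0) j (M03_c M N i0 h0 (some (⟨i, hi⟩, some r)) (code R a))
      (M03_c M N i0 h0 (some (⟨g.nx r.1, hn⟩, none))
        (code (Function.update R g.k (R g.k + a)) 0)) := by
  induction a with
  | zero =>
    intro R
    refine ⟨1, M03_R_cons (M03_ne M N i0 h0 _ _) ?_⟩
    rw [M03_s2B M N i0 h0 hi hg R r hn]
    have h3 : Function.update R g.k (R g.k + 0) = R := Function.update_eq_self _ _
    rw [h3]
    exact M03_R_zero _ _
  | succ a ih =>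
    intro R
    obtain ⟨j, hj⟩ := ih (Function.update R g.k (R g.k + 1))
    refine ⟨j + 1, M03_R_cons (M03_ne M N i0 h0 _ _) ?_⟩
    rw [M03_s2A M N i0 h0 hi hg R a r]
    rw [Function.update_idem, Function.update_self] at hj
    have h3 : R g.k + 1 + a = R g.k + (a + 1) := by ring
    rw [h3] at hj
    exact hj

theorem M03_instr {i : ℕ} (hi : i < N) {g : GI ℕ} (hg : M i = some g) (hm : 0 < g.m)
    (hn : ∀ r, g.nx r < N) (R : Fin 4 → ℕ) :
    ∃ j, M03_R (M03_F M N i0 h0) (j + 1) (M03_c M N i0 h0 (some (⟨i, hi⟩, none)) (code R 0))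
      (M03_c M N i0 h0 (some (⟨g.nx (R g.k % g.m), hn _⟩, none)) (code (g.upd R) 0)) := by
  have hr : R g.k % g.m < g.m := Nat.mod_lt _ hm
  obtain ⟨j, hj⟩ := M03_ph1 M N i0 h0 hi hg (R g.k / g.m) (R g.k % g.m) hr R 0
    (Nat.div_add_mod _ _).symm
  have hB : R g.k % g.m < M03_B M N + 1 := by
    have := M03_le_B M N hi hg
    omega
  have hv : (Fin.ofNat (M03_B M N + 1) (R g.k % g.m)).1 = R g.k % g.m :=
    Nat.mod_eq_of_lt hB
  obtain ⟨j', hj'⟩ := M03_ph2 M N i0 h0 hi hg (Fin.ofNat (M03_B M N + 1) (R g.k % g.m)) (hn _)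
    (0 + (g.l * (R g.k / g.m) + g.d (R g.k % g.m))) (Function.update R g.k 0)
  have h1 := M03_R_trans hj hj'
  refine ⟨j' + j, ?_⟩
  have h2 : (Function.update (Function.update R g.k 0) g.k
      ((Function.update R g.k 0) g.k + (0 + (g.l * (R g.k / g.m) + g.d (R g.k % g.m))))) =
      g.upd R := by
    rw [Function.update_idem, Function.update_self]
    unfold GI.upd
    congr 1
    omega
  rw [h2] at h1
  have h3 : (⟨g.nx (Fin.ofNat (M03_B M N + 1) (R g.k % g.m)).1, hn _⟩ : Fin N) =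
      ⟨g.nx (R g.k % g.m), hn _⟩ := by
    apply Fin.ext
    dsimp only
    rw [hv]
  rw [h3] at h1
  have h4 : j' + (j + 1) = j' + j + 1 := by omega
  rw [h4] at h1
  exact h1

end

theorem sim (M : ℕ → Option (GI ℕ)) (N i0 : ℕ) (h0 : i0 < N)
    (hM : ∀ i g, M i = some g → 0 < g.m ∧ 0 < g.l ∧ ∀ r, g.nx r < N) :
    ∃ F : FMach, ∀ R : Fin 4 → ℕ, F.Halts (code R 0) ↔ Pool.Agent.Lib.MP_79b5eb_lc.Halts M i0 R := by
  refine ⟨M03_F M N i0 h0, fun R => ?_⟩
  have key1 : ∀ (i : ℕ) (R : Fin 4 → ℕ), Pool.Agent.Lib.MP_79b5eb_lc.Halts M i R →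
      ∀ hi : i < N, ∃ k, ((M03_F M N i0 h0).step^[k]
        (M03_c M N i0 h0 (some (⟨i, hi⟩, none)) (code R 0))).1 = (M03_F M N i0 h0).qh := by
    intro i R h
    induction h with
    | @halt q R hq =>
      intro hi
      exact ⟨1, M03_s0 M N i0 h0 hi hq _⟩
    | @step q R g hg _ ih =>
      intro hi
      obtain ⟨hm, -, hn⟩ := hM q g hg
      obtain ⟨j, hj⟩ := M03_instr M N i0 h0 hi hg hm hn R
      obtain ⟨k, hk⟩ := ih (hn _)
      refine ⟨k + (j + 1), ?_⟩
      rw [Function.iterate_add_apply, hj.1]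
      exact hk
  have key2 : ∀ (k i : ℕ) (hi : i < N) (R : Fin 4 → ℕ), ((M03_F M N i0 h0).step^[k]
        (M03_c M N i0 h0 (some (⟨i, hi⟩, none)) (code R 0))).1 = (M03_F M N i0 h0).qh →
      Pool.Agent.Lib.MP_79b5eb_lc.Halts M i R := by
    intro k
    induction k using Nat.strong_induction_on with
    | _ k ih =>
      intro i hi R h
      cases hg : M i with
      | none => exact Halts.halt hg
      | some g =>
        obtain ⟨hm, -, hn⟩ := hM i g hg
        obtain ⟨j, hj⟩ := M03_instr M N i0 h0 hi hg hm hn R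
        have hk : j + 1 ≤ k := by
          by_contra hlt
          exact hj.2 k (by omega) h
        obtain ⟨k', rfl⟩ : ∃ k', k = k' + (j + 1) := ⟨k - (j + 1), by omega⟩
        rw [Function.iterate_add_apply, hj.1] at h
        exact Halts.step hg (ih k' (by omega) _ (hn _) _ h)
  constructor
  · rintro ⟨k, hk⟩
    exact key2 k i0 h0 R hk
  · intro h
    obtain ⟨k, hk⟩ := key1 i0 R h h0
    exact ⟨k, hk⟩

end NSI
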