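import Pool.Agent.Lib.NSI.M02

/-!
# M03a : arithmetic of the prime coding of four registers

`code R a = 2^(R 0) 3^(R 1) 5^(R 2) 7^(R 3) 11^a`, `pk k` = the prime of register `k`.

Recipe.  `fin_cases k`; coprimality of the primes; `Nat.Coprime.dvd_mul_left` etc., or
`Nat.factorization`.
-/

set_option autoImplicit false

namespace NSI

/-- prime coding of the registers -/
def code (R : Fin 4 → ℕ) (a : ℕ) : ℕ := 2 ^ R 0 * 3 ^ R 1 * 5 ^ R 2 * 7 ^ R 3 * 11 ^ a

/-- the prime of a register -/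
def pk (k : Fin 4) : ℕ := ![2, 3, 5, 7] k

theorem code_pos (R : Fin 4 → ℕ) (a : ℕ) : 0 < code R a := by
  unfold code
  positivity

theorem M03a_pk_prime (k : Fin 4) : (pk k).Prime := by
  fin_cases k <;> simp [pk] <;> norm_num

theorem M03a_pk_pos (k : Fin 4) : 0 < pk k := (M03a_pk_prime k).pos

theorem M03a_code_eq (R : Fin 4 → ℕ) (a : ℕ) (k : Fin 4) :
    code R a = pk k ^ R k * ((∏ j ∈ Finset.univ.erase k, pk j ^ R j) * 11 ^ a) := by
  have h : code R a = (∏ j, pk j ^ R j) * 11 ^ a := by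
    rw [Fin.prod_univ_four]
    rfl
  rw [h, ← Finset.mul_prod_erase _ _ (Finset.mem_univ k), mul_assoc]

theorem M03a_pk_ne {j k : Fin 4} (h : j ≠ k) : pk k ≠ pk j := by
  revert j k
  decide

theorem M03a_cop (R : Fin 4 → ℕ) (a : ℕ) (k : Fin 4) :
    Nat.Coprime (pk k) ((∏ j ∈ Finset.univ.erase k, pk j ^ R j) * 11 ^ a) := by
  refine Nat.Coprime.mul_right (Nat.Coprime.prod_right fun j hj => ?_) ?_
  · exact Nat.Coprime.pow_right _ ((Nat.coprime_primes (M03a_pk_prime k) (M03a_pk_prime j)).2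
      (M03a_pk_ne (Finset.ne_of_mem_erase hj)))
  · refine Nat.Coprime.pow_right _ ((Nat.coprime_primes (M03a_pk_prime k) (by norm_num)).2 ?_)
    revert k
    decide

theorem pk_dvd (R : Fin 4 → ℕ) (a : ℕ) (k : Fin 4) (e : ℕ) : pk k ^ e ∣ code R a ↔ e ≤ R k := by
  rw [M03a_code_eq R a k]
  have h := Nat.Coprime.pow_left e (M03a_cop R a k)
  rw [h.dvd_mul_right]
  exact Nat.pow_dvd_pow_iff_le_right (M03a_pk_prime k).one_lt

theorem eleven_dvd (R : Fin 4 → ℕ) (a : ℕ) (e : ℕ) : 11 ^ e ∣ code R a ↔ e ≤ a := by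
  have h : Nat.Coprime 11 (2 ^ R 0 * 3 ^ R 1 * 5 ^ R 2 * 7 ^ R 3) := by
    refine Nat.Coprime.mul_right (Nat.Coprime.mul_right (Nat.Coprime.mul_right ?_ ?_) ?_) ?_ <;>
      exact Nat.Coprime.pow_right _ (by norm_num)
  unfold code
  rw [(Nat.Coprime.pow_left e h).dvd_mul_left]
  exact Nat.pow_dvd_pow_iff_le_right (by norm_num)

theorem M03a_rest (R : Fin 4 → ℕ) (k : Fin 4) (v : ℕ) :
    (∏ j ∈ Finset.univ.erase k, pk j ^ Function.update R k v j) =
      ∏ j ∈ Finset.univ.erase k, pk j ^ R j := by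
  refine Finset.prod_congr rfl fun j hj => ?_
  rw [Function.update_of_ne (Finset.ne_of_mem_erase hj)]

theorem code_move (R : Fin 4 → ℕ) (a : ℕ) (k : Fin 4) (e f : ℕ) (h : e ≤ R k) :
    code R a / pk k ^ e * 11 ^ f = code (Function.update R k (R k - e)) (a + f) := by
  rw [M03a_code_eq R a k, M03a_code_eq (Function.update R k (R k - e)) (a + f) k, M03a_rest,
    Function.update_self]
  have h1 : pk k ^ R k = pk k ^ e * pk k ^ (R k - e) := by
    rw [← pow_add]
    congr 1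
    omega
  rw [h1, mul_assoc, Nat.mul_div_cancel_left _ (pow_pos (M03a_pk_pos k) e), pow_add]
  ring

theorem code_back (R : Fin 4 → ℕ) (a : ℕ) (k : Fin 4) :
    code R (a + 1) / 11 * pk k = code (Function.update R k (R k + 1)) a := by
  rw [M03a_code_eq R (a + 1) k, M03a_code_eq (Function.update R k (R k + 1)) a k, M03a_rest,
    Function.update_self]
  have h1 : pk k ^ R k * ((∏ j ∈ Finset.univ.erase k, pk j ^ R j) * 11 ^ (a + 1)) =
      11 * (pk k ^ R k * ((∏ j ∈ Finset.univ.erase k, pk j ^ R j) * 11 ^ a)) := by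
    ring
  rw [h1, Nat.mul_div_cancel_left _ (by norm_num)]
  ring

end NSI
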