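import Pool.Agent.Lib.NSI.M01
import Pool.Agent.Lib.NSI.M03

/-!
# M04 : the machine

`machine4`, `sim`, `fmach`; the new function `E` is `2 ^ E x` (`primrec_pow`).
-/

set_option autoImplicit false

namespace NSI

theorem machine1 : ∃ (𝓜 : Mach) (E : ℕ → ℕ), Computable E ∧
    ¬ REPred (fun x => ¬ 𝓜.Halts (E x)) := by
  obtain ⟨M, N, i0, E, h0, hM, hE, hre⟩ := machine4
  obtain ⟨F, hF⟩ := sim M N i0 h0 hM
  obtain ⟨𝓜, h𝓜⟩ := fmach F
  refine ⟨𝓜, fun x => 2 ^ E x, ?_, ?_⟩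
  · exact ((primrec_pow.to_comp : Computable₂ (fun a b : ℕ => a ^ b))).comp
      (Computable.const 2) hE
  · intro h
    apply hre
    have : (fun x => ¬ 𝓜.Halts (2 ^ E x)) = (fun x => ¬ Pool.Agent.Lib.MP_79b5eb_lc.Halts M i0
      (fun i => if i = 0 then E x else 0)) := by
      funext x
      rw [h𝓜, ← hF]
      congr 2
      simp [code]
    rw [← this]
    exact h
end NSI
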