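import Mathlib

/-!
# MP_13a829_lc : the cone Nsi of context-free languages without strict iterative pairs

The definitions used in the statement: iterative pairs, strict pairs, the family `Nsi`, finite
transducers, rational cones, principal rational cones.  Alphabets are arbitrary finite types.
-/

set_option autoImplicit false

namespace NSI

/-- the `n`-th power of a word -/
def pw {α : Type} (u : List α) (n : ℕ) : List α := (List.replicate n u).flatten

/-- `(a, u, b, v, c)` is an iterative pair of `L` : all words `a u^n b v^n c` are in `L`
(for `n = 1` this is the factorised word itself). -/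
def IterPair {α : Type} (L : Language α) (a u b v c : List α) : Prop :=
  ∀ n : ℕ, a ++ pw u n ++ b ++ pw v n ++ c ∈ L

/-- The pair is strict: `a u^n b v^m c` is in `L` only for `n = m`. -/
def StrictPair {α : Type} (L : Language α) (a u b v c : List α) : Prop :=
  ∀ n m : ℕ, a ++ pw u n ++ b ++ pw v m ++ c ∈ L ↔ n = m

/-- `Nsi`: the context-free languages without strict iterative pairs. -/
def Nsi {α : Type} (L : Language α) : Prop :=
  L.IsContextFree ∧ ¬ ∃ a u b v c : List α, IterPair L a u b v c ∧ StrictPair L a u b v c

/-- Finite transducers.  The transitions `(p, u, v, q)` read the word `u` and write the word `v`. -/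
structure Transducer (α β : Type) where
  /-- number of states -/
  n : ℕ
  /-- the finite set of transitions -/
  trans : Set (Fin n × List α × List β × Fin n)
  fin : trans.Finite
  /-- initial states -/
  init : Set (Fin n)
  /-- final states -/
  acc : Set (Fin n)

/-- `τ.Run p x y q` : there is a path of `τ` from `p` to `q` with input `x` and output `y`. -/
inductive Transducer.Run {α β : Type} (τ : Transducer α β) :
    Fin τ.n → List α → List β → Fin τ.n → Prop
  | nil (p : Fin τ.n) : Transducer.Run τ p [] [] p
  | step {p q r : Fin τ.n} {u x : List α} {v y : List β} :
      (p, u, v, q) ∈ τ.trans → Transducer.Run τ q x y r →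
      Transducer.Run τ p (u ++ x) (v ++ y) r

/-- The relation realised by a transducer. -/
def Transducer.Rel {α β : Type} (τ : Transducer α β) (x : List α) (y : List β) : Prop :=
  ∃ p ∈ τ.init, ∃ q ∈ τ.acc, τ.Run p x y q

/-- The image `τ(L)`. -/
def Transducer.image {α β : Type} (τ : Transducer α β) (L : Language α) : Language β :=
  {y | ∃ x ∈ L, τ.Rel x y}

/-- A family of languages over finite alphabets. -/
abbrev Family : Type 1 := ∀ (α : Type) [Fintype α], Language α → Prop

/-- A family of languages is a principal rational cone if it is the family of the images `τ(U)`
of one of its members `U` under all rational transductions. -/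
def Principal (F : Family) : Prop :=
  ∃ (α : Type) (_ : Fintype α) (U : Language α), F α U ∧
    ∀ (β : Type) (_ : Fintype β) (K : Language β), F β K ↔ ∃ τ : Transducer α β, K = τ.image U

/-- A family of languages is a rational cone if it is closed under rational transductions. -/
def IsCone (F : Family) : Prop :=
  ∀ (α β : Type) (_ : Fintype α) (_ : Fintype β) (L : Language α) (τ : Transducer α β),
    F α L → F β (τ.image L)

/-- the family `Nsi` -/
def NsiFamily : Family := fun _ _ L => Nsi L

end NSI
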