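import Pool.Agent.Lib.NSI.KDefs

/-!
# T05 : long flat paths contain removable cycles

`FlatC d`: all letters of the yield of the context `d` are flat (`1, a, b, 1'`): then the index is
constant on the left side of the path and on the right side (`β = 0` on flat letters).
`Rem t k c d s`: the nonempty flat cycle `d` can be removed from `t = c.plug (d.plug s)` without
losing a label.

Recipe for `flat_path`: let `n = card V`, `m = 2 * n + 1`; `d.depth > m * n` means that the path of
`d` has at least `m * n + 1` nodes (the hole not counted), so some nonterminal `A` occurs at least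
`m + 1` times, and `d = e0.comp (c1.comp (c2.comp ... (cm.comp e1)))` with nonempty `ci`,
`ci.root A = A`, `e1.root s.root = A` (prove a splitting lemma: induction on `d`, output a list of
contexts `[c1, ..., cm]`).  All pieces are flat.  With `k' = k + wt β c.yl` (the index at the path,
all pieces of `d` being flat) and `h = wt β s.yd` the balance of everything below:
`Labs t k = (outer part) ∪ ⋃ LabsC ci k' h ∪ (inner part)` (Labs_plug, LabsC_comp), and the removal
of `ci` only deletes the set `LabsC ci k' h` from this union (the indices of all other nodes do not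
change because `ci` is flat).  `LabsC ci k' h ⊆ {p | p.2 = k' ∨ p.2 = k' + h}` for flat `ci`
(induction, with `Labs` of a tree with flat yield `⊆ {p | p.2 = index}`).  If no `ci` is removable
then for every `i` there is a label `z i ∈ LabsC ci k' h` that is in no other part; the `z i` are
distinct elements of `V × {k', k' + h}`, so `m ≤ 2 * n`, contradiction.  For the removable `ci` take
the context `c.comp (e0.comp (c1. ... c(i-1)))`, and `ci.size < d.size` since there are `m ≥ 2`
nonempty pieces (if `n ≥ 1`; `n = 0` is impossible because `s.root : V`).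
-/

set_option autoImplicit false

namespace NSI

variable {Q : ℕ} {V : Type}

/-- flat contexts -/
def FlatC (d : Cx V (Lt Q)) : Prop := (∀ x ∈ d.yl, fl x) ∧ (∀ x ∈ d.yr, fl x)

theorem β_of_fl {x : Lt Q} (h : fl x) : β x = 0 := by
  cases x <;> simp_all [fl, β]

/-- the flat cycle `d` is removable -/
def Rem (t : Tr V (Lt Q)) (k : ℤ) (c d : Cx V (Lt Q)) (s : Tr V (Lt Q)) : Prop :=
  t = c.plug (d.plug s) ∧ d ≠ .hole ∧ d.root s.root = s.root ∧ FlatC d ∧
    Labs β t k ⊆ Labs β (c.plug s) k

/-! ### cutting a context -/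

section T05aux

variable {T : Type}

/-- the first `n` nodes of the path -/
def T05_tk : ℕ → Cx V T → Cx V T
  | 0, _ => .hole
  | _ + 1, .hole => .hole
  | n + 1, .lft A c r => .lft A (T05_tk n c) r
  | n + 1, .rgt A l c => .rgt A l (T05_tk n c)

/-- the rest -/
def T05_dr : ℕ → Cx V T → Cx V T
  | 0, c => c
  | _ + 1, .hole => .hole
  | n + 1, .lft _ c _ => T05_dr n c
  | n + 1, .rgt _ _ c => T05_dr n c

private theorem T05_tk_dr (n : ℕ) (c : Cx V T) : (T05_tk n c).comp (T05_dr n c) = c := by
  induction n generalizing c with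
  | zero => rfl
  | succ n ih =>
    cases c with
    | hole => rfl
    | lft A c r => simp [T05_tk, T05_dr, Cx.comp, ih]
    | rgt A l c => simp [T05_tk, T05_dr, Cx.comp, ih]

private theorem T05_depth_tk (n : ℕ) (c : Cx V T) (h : n ≤ c.depth) : (T05_tk n c).depth = n := by
  induction n generalizing c with
  | zero => rfl
  | succ n ih =>
    cases c with
    | hole => simp [Cx.depth] at h
    | lft A c r =>
      simp only [Cx.depth, T05_tk] at h ⊢
      rw [ih c (by omega)]
    | rgt A l c =>
      simp only [Cx.depth, T05_tk] at h ⊢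
      rw [ih c (by omega)]

private theorem T05_depth_dr (n : ℕ) (c : Cx V T) (h : n ≤ c.depth) :
    (T05_dr n c).depth = c.depth - n := by
  have h1 := congrArg Cx.depth (T05_tk_dr n c)
  rw [Cx.depth_comp, T05_depth_tk n c h] at h1
  omega

private theorem T05_dr_dr (n m : ℕ) (c : Cx V T) : T05_dr m (T05_dr n c) = T05_dr (n + m) c := by
  induction n generalizing c with
  | zero => rw [Nat.zero_add]; rfl
  | succ n ih =>
    cases c with
    | hole =>
      rw [Nat.add_right_comm]
      cases m <;> rfl
    | lft A c r =>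
      rw [Nat.add_right_comm]
      exact ih c
    | rgt A l c =>
      rw [Nat.add_right_comm]
      exact ih c

/-- the piece between the positions `i` and `j` -/
private theorem T05_piece (i j : ℕ) (hij : i ≤ j) (c : Cx V T) :
    T05_dr i c = (T05_tk (j - i) (T05_dr i c)).comp (T05_dr j c) := by
  conv_lhs => rw [← T05_tk_dr (j - i) (T05_dr i c)]
  rw [T05_dr_dr, Nat.add_sub_cancel' hij]

end T05aux

private theorem T05_flat_comp {a b : Cx V (Lt Q)} (h : FlatC (a.comp b)) : FlatC a ∧ FlatC b := by
  obtain ⟨h1, h2⟩ := h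
  rw [Cx.yl_comp] at h1
  rw [Cx.yr_comp] at h2
  exact ⟨⟨fun x hx => h1 x (List.mem_append_left _ hx), fun x hx => h2 x (List.mem_append_right _ hx)⟩,
    ⟨fun x hx => h1 x (List.mem_append_right _ hx), fun x hx => h2 x (List.mem_append_left _ hx)⟩⟩

private theorem T05_wt_yl {a : Cx V (Lt Q)} (h : FlatC a) : wt β a.yl = 0 :=
  wt_flat β _ fun x hx => β_of_fl (h.1 x hx)

private theorem T05_wt_yr {a : Cx V (Lt Q)} (h : FlatC a) : wt β a.yr = 0 :=
  wt_flat β _ fun x hx => β_of_fl (h.2 x hx)

/-- the labels of a flat tree have the same index -/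
private theorem T05_Labs_flat (t : Tr V (Lt Q)) (h : ∀ x ∈ t.yd, fl x) (k : ℤ) :
    ∀ p ∈ Labs β t k, p.2 = k := by
  induction t generalizing k with
  | lf A x =>
    intro p hp
    simp only [Labs, Set.mem_singleton_iff] at hp
    rw [hp]
  | nd A l r ihl ihr =>
    simp only [Tr.yd, List.mem_append] at h
    have hl : wt β l.yd = 0 := wt_flat β _ fun x hx => β_of_fl (h x (Or.inl hx))
    intro p hp
    simp only [Labs, Set.mem_union, Set.mem_singleton_iff, hl, add_zero] at hp
    rcases hp with (hp | hp) | hp
    · rw [hp]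
    · exact ihl (fun x hx => h x (Or.inl hx)) k p hp
    · exact ihr (fun x hx => h x (Or.inr hx)) k p hp

/-- the labels of a flat context have one of two indices -/
private theorem T05_LabsC_flat (e : Cx V (Lt Q)) (he : FlatC e) (k h : ℤ) :
    ∀ p ∈ LabsC β e k h, p.2 = k ∨ p.2 = k + h := by
  induction e generalizing k with
  | hole =>
    intro p hp
    simp [LabsC] at hp
  | lft A c r ih =>
    have hc : FlatC c := ⟨he.1, fun x hx => he.2 x (by simp [Cx.yr, hx])⟩
    have hr : ∀ x ∈ r.yd, fl x := fun x hx => he.2 x (by simp [Cx.yr, hx])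
    intro p hp
    simp only [LabsC, Set.mem_union, Set.mem_singleton_iff, T05_wt_yl hc, T05_wt_yr hc,
      add_zero] at hp
    rcases hp with (hp | hp) | hp
    · left; rw [hp]
    · exact ih hc k p hp
    · right; exact T05_Labs_flat r hr _ p hp
  | rgt A l c ih =>
    have hc : FlatC c := ⟨fun x hx => he.1 x (by simp [Cx.yl, hx]), he.2⟩
    have hl : ∀ x ∈ l.yd, fl x := fun x hx => he.1 x (by simp [Cx.yl, hx])
    have hl0 : wt β l.yd = 0 := wt_flat β _ fun x hx => β_of_fl (hl x hx)
    intro p hp
    simp only [LabsC, Set.mem_union, Set.mem_singleton_iff, hl0, add_zero] at hp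
    rcases hp with (hp | hp) | hp
    · left; rw [hp]
    · left; exact T05_Labs_flat l hl _ p hp
    · exact ih hc k p hp

/-- bound for the length of flat paths -/
def Hb (n : ℕ) : ℕ := (2 * n + 1) * n

theorem flat_path [Fintype V] (t : Tr V (Lt Q)) (k : ℤ) (c d : Cx V (Lt Q)) (s : Tr V (Lt Q))
    (ht : t = c.plug (d.plug s)) (hd : FlatC d) (hdep : Hb (Fintype.card V) < d.depth) :
    ∃ (c' d' : Cx V (Lt Q)) (s' : Tr V (Lt Q)), Rem t k c' d' s' ∧ d'.size < d.size := by
  classical
  set n := Fintype.card V with hn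
  have hpig : ∃ A ∈ (Finset.univ : Finset V), 2 * n + 1 <
      ((Finset.range (Hb n + 1)).filter fun i => (T05_dr i d).root s.root = A).card := by
    apply Finset.exists_lt_card_fiber_of_mul_lt_card_of_maps_to
    · intro i _
      exact Finset.mem_univ _
    · rw [Finset.card_univ, Finset.card_range, ← hn, Hb, mul_comm]
      exact Nat.lt_succ_self _
  obtain ⟨A, -, hA⟩ := hpig
  let a : Fin (2 * n + 1 + 1) ↪o ℕ := Finset.orderEmbOfCardLe
    ((Finset.range (Hb n + 1)).filter fun i => (T05_dr i d).root s.root = A) hA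
  have ha : ∀ i, a i < d.depth ∧ (T05_dr (a i) d).root s.root = A := by
    intro i
    have h1 : a i ∈ (Finset.range (Hb n + 1)).filter fun i => (T05_dr i d).root s.root = A :=
      Finset.orderEmbOfCardLe_mem _ _ i
    rw [Finset.mem_filter, Finset.mem_range] at h1
    exact ⟨by omega, h1.2⟩
  set k' : ℤ := k + wt β c.yl with hk'
  set h : ℤ := wt β s.yd with hh
  -- pieces
  let e : Fin (2 * n + 1) → Cx V (Lt Q) := fun i =>
    T05_tk (a i.succ - a i.castSucc) (T05_dr (a i.castSucc) d)
  have hlt : ∀ i : Fin (2 * n + 1), a i.castSucc < a i.succ := fun i =>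
    a.strictMono (Fin.castSucc_lt_succ)
  have hpiece : ∀ i : Fin (2 * n + 1), T05_dr (a i.castSucc) d = (e i).comp (T05_dr (a i.succ) d) :=
    fun i => T05_piece _ _ (hlt i).le d
  have hfd : ∀ m, FlatC (T05_tk m d) ∧ FlatC (T05_dr m d) := fun m =>
    T05_flat_comp (by rw [T05_tk_dr]; exact hd)
  have hfe : ∀ i, FlatC (e i) := fun i =>
    (T05_flat_comp (a := e i) (b := T05_dr (a i.succ) d) (by rw [← hpiece]; exact (hfd _).2)).1
  have hwt : ∀ m, wt β ((T05_dr m d).plug s).yd = h := by
    intro m
    rw [Cx.yd_plug, wt_append, wt_append, T05_wt_yl (hfd m).2, T05_wt_yr (hfd m).2, hh]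
    ring
  have hkc : ∀ m, k + wt β (c.comp (T05_tk m d)).yl = k' := by
    intro m
    rw [Cx.yl_comp, wt_append, T05_wt_yl (hfd m).1, add_zero]
  have hte : ∀ i : Fin (2 * n + 1), t = (c.comp (T05_tk (a i.castSucc) d)).plug
      ((e i).plug ((T05_dr (a i.succ) d).plug s)) := by
    intro i
    rw [← Cx.plug_comp (e i), ← hpiece, ← Cx.plug_comp, Cx.comp_assoc, T05_tk_dr, Cx.plug_comp]
    exact ht
  have hLt : ∀ i : Fin (2 * n + 1), Labs β t k = LabsC β (c.comp (T05_tk (a i.castSucc) d)) k h ∪
      Labs β ((T05_dr (a i.castSucc) d).plug s) k' := by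
    intro i
    have h1 := Labs_plug β (c.comp (T05_tk (a i.castSucc) d))
      ((T05_dr (a i.castSucc) d).plug s) k
    rw [hwt, hkc] at h1
    rw [← h1]
    congr 1
    rw [← Cx.plug_comp, Cx.comp_assoc, T05_tk_dr, Cx.plug_comp]
    exact ht
  have hLs : ∀ i : Fin (2 * n + 1), Labs β ((T05_dr (a i.castSucc) d).plug s) k' =
      LabsC β (e i) k' h ∪ Labs β ((T05_dr (a i.succ) d).plug s) k' := by
    intro i
    have h1 := Labs_plug β (e i) ((T05_dr (a i.succ) d).plug s) k'
    rw [hwt, T05_wt_yl (hfe i), add_zero] at h1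
    rw [← h1, ← Cx.plug_comp, ← hpiece]
  have hmono : ∀ i j : ℕ, i ≤ j → Labs β ((T05_dr j d).plug s) k' ⊆
      Labs β ((T05_dr i d).plug s) k' := by
    intro i j hij
    have hf := (T05_flat_comp (a := T05_tk (j - i) (T05_dr i d)) (b := T05_dr j d)
      (by rw [← T05_piece i j hij]; exact (hfd _).2)).1
    have h1 := Labs_plug_sub β (T05_tk (j - i) (T05_dr i d)) ((T05_dr j d).plug s) k'
    rw [T05_wt_yl hf, add_zero, ← Cx.plug_comp, ← T05_piece i j hij] at h1
    exact h1
  by_contra hcon
  have hz : ∀ i : Fin (2 * n + 1), ∃ z : V × ℤ, z ∈ LabsC β (e i) k' h ∧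
      z ∉ Labs β ((T05_dr (a i.succ) d).plug s) k' := by
    intro i
    by_contra hcon2
    push Not at hcon2
    apply hcon
    refine ⟨c.comp (T05_tk (a i.castSucc) d), e i, (T05_dr (a i.succ) d).plug s,
      ⟨hte i, ?_, ?_, hfe i, ?_⟩, ?_⟩
    · intro h0
      have h1 : (e i).depth = a i.succ - a i.castSucc := by
        apply T05_depth_tk
        rw [T05_depth_dr _ _ (ha _).1.le]
        have := (ha i.succ).1
        omega
      rw [h0] at h1
      have := hlt i
      simp only [Cx.depth] at h1
      omega
    · have h1 : (e i).root ((T05_dr (a i.succ) d).plug s).root =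
          (T05_dr (a i.castSucc) d).root s.root := by
        rw [hpiece i, Cx.root_comp, Cx.root_plug]
      rw [h1, Cx.root_plug, (ha _).2, (ha _).2]
    · have h1 := Labs_plug β (c.comp (T05_tk (a i.castSucc) d)) ((T05_dr (a i.succ) d).plug s) k
      rw [hwt, hkc] at h1
      rw [h1, hLt i, hLs i]
      intro p hp
      rcases hp with hp | hp | hp
      · exact Or.inl hp
      · exact Or.inr (hcon2 p hp)
      · exact Or.inr hp
    · have h1 := congrArg Cx.size (T05_tk_dr (a i.castSucc) d)
      rw [hpiece i, Cx.size_comp, Cx.size_comp] at h1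
      have h2 : 0 < (T05_dr (a i.succ) d).size := by
        apply Cx.size_pos
        intro h0
        have h3 := T05_depth_dr (a i.succ) d (ha _).1.le
        rw [h0] at h3
        have := (ha i.succ).1
        simp only [Cx.depth] at h3
        omega
      omega
  choose z hz1 hz2 using hz
  have hinj : Function.Injective z := by
    have key : ∀ i j : Fin (2 * n + 1), i < j → z i ≠ z j := by
      intro i j hij hzij
      apply hz2 i
      have h1 : z j ∈ Labs β ((T05_dr (a j.castSucc) d).plug s) k' := by
        rw [hLs j]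
        exact Or.inl (hz1 j)
      rw [hzij]
      refine hmono _ _ (a.monotone ?_) h1
      rw [Fin.le_def]
      simp only [Fin.val_succ, Fin.val_castSucc]
      exact hij
    intro i j hij
    rcases lt_trichotomy i j with h1 | h1 | h1
    · exact absurd hij (key i j h1)
    · exact h1
    · exact absurd hij.symm (key j i h1)
  have hcard : (Finset.univ : Finset (Fin (2 * n + 1))).card ≤
      ((Finset.univ : Finset V) ×ˢ ({k', k' + h} : Finset ℤ)).card := by
    apply Finset.card_le_card_of_injOn z
    · intro i _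
      rw [Finset.mem_coe, Finset.mem_product]
      refine ⟨Finset.mem_univ _, ?_⟩
      have := T05_LabsC_flat (e i) (hfe i) k' h _ (hz1 i)
      simpa using this
    · exact hinj.injOn
  rw [Finset.card_univ, Fintype.card_fin, Finset.card_product, Finset.card_univ, ← hn] at hcard
  have h2 : ({k', k' + h} : Finset ℤ).card ≤ 2 := Finset.card_le_two
  have h3 := Nat.mul_le_mul_left n h2
  omega

end NSI
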