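import Pool.Agent.Lib.NSI.T05

/-!
# T06 : small removable cycles

Recipe.  Take a removable cycle `Rem t k c d s` with minimal `d.size`.  By `flat_path` (applied to
the path of `d` itself) `d.depth ≤ Hb n`.  For a side tree `r` of `d` and any `r = e.plug u`: `e` is
flat (its yield is part of the yield of `d`) and `t = c'.plug (e.plug u)` for a suitable `c'`, and
`e.size < d.size`; so by `flat_path` and minimality `e.depth ≤ Hb n`: hence `r.ht ≤ Hb n` (a tree of
height `h` has a context of depth `h` leading to a leaf), and `r.size ≤ 2 ^ (Hb n + 1)`.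
Sum up: `d.size ≤ d.depth * (2 ^ (Hb n + 1) + 1)`.
-/

set_option autoImplicit false

namespace NSI

variable {Q : ℕ} {V : Type}

/-- bound for the size of small cycles -/
def Bb (n : ℕ) : ℕ := Hb n * (2 ^ (Hb n + 1) + 1)

/-- all side trees of the path satisfy `P` -/
def T06_Sides {T : Type} (P : Tr V T → Prop) : Cx V T → Prop
  | .hole => True
  | .lft _ c r => P r ∧ T06_Sides P c
  | .rgt _ l c => P l ∧ T06_Sides P c

theorem T06_size {T : Type} (P : Tr V T → Prop) (B : ℕ) (hP : ∀ r, P r → r.size ≤ B)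
    (d : Cx V T) (h : T06_Sides P d) : d.size ≤ d.depth * (B + 1) := by
  induction d with
  | hole => simp [Cx.size]
  | lft A c r ih =>
    obtain ⟨h1, h2⟩ := h
    have h3 := hP r h1
    have h4 := ih h2
    simp only [Cx.size, Cx.depth]
    rw [Nat.add_mul]
    omega
  | rgt A l c ih =>
    obtain ⟨h1, h2⟩ := h
    have h3 := hP l h1
    have h4 := ih h2
    simp only [Cx.size, Cx.depth]
    rw [Nat.add_mul]
    omega

theorem T06_sides {T : Type} (d : Cx V T) (s : Tr V T) (P : Tr V T → Prop)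
    (h : ∀ (c1 : Cx V T) (r : Tr V T), d.plug s = c1.plug r → r.size < d.size →
      (∀ x ∈ r.yd, x ∈ d.yl ∨ x ∈ d.yr) → P r) : T06_Sides P d := by
  induction d with
  | hole => trivial
  | lft A c r ih =>
    refine ⟨h (.rgt A (c.plug s) .hole) r rfl (by simp only [Cx.size]; omega) ?_, ih ?_⟩
    · intro x hx
      right
      simp only [Cx.yr, List.mem_append]
      exact Or.inr hx
    · intro c1 r' h1 h2 h3
      refine h (.lft A c1 r) r' ?_ (by simp only [Cx.size]; omega) ?_
      · simp only [Cx.plug]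
        rw [h1]
      · intro x hx
        simp only [Cx.yl, Cx.yr, List.mem_append]
        rcases h3 x hx with h4 | h4
        · exact Or.inl h4
        · exact Or.inr (Or.inl h4)
  | rgt A l c ih =>
    refine ⟨h (.lft A .hole (c.plug s)) l rfl (by simp only [Cx.size]; omega) ?_, ih ?_⟩
    · intro x hx
      left
      simp only [Cx.yl, List.mem_append]
      exact Or.inl hx
    · intro c1 r' h1 h2 h3
      refine h (.rgt A l c1) r' ?_ (by simp only [Cx.size]; omega) ?_
      · simp only [Cx.plug]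
        rw [h1]
      · intro x hx
        simp only [Cx.yl, Cx.yr, List.mem_append]
        rcases h3 x hx with h4 | h4
        · exact Or.inl (Or.inr h4)
        · exact Or.inr h4

theorem T06_path {T : Type} (r : Tr V T) :
    ∃ (e : Cx V T) (u : Tr V T), r = e.plug u ∧ e.depth = r.ht := by
  induction r with
  | lf A x => exact ⟨.hole, .lf A x, rfl, rfl⟩
  | nd A l r ihl ihr =>
    rcases le_total r.ht l.ht with h | h
    · obtain ⟨e, u, h1, h2⟩ := ihl
      refine ⟨.lft A e r, u, ?_, ?_⟩
      · simp only [Cx.plug]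
        rw [← h1]
      · simp only [Cx.depth, Tr.ht]
        omega
    · obtain ⟨e, u, h1, h2⟩ := ihr
      refine ⟨.rgt A l e, u, ?_, ?_⟩
      · simp only [Cx.plug]
        rw [← h1]
      · simp only [Cx.depth, Tr.ht]
        omega

theorem T06_size_ht {T : Type} (r : Tr V T) : r.size + 1 ≤ 2 ^ (r.ht + 1) := by
  induction r with
  | lf A x => simp [Tr.size, Tr.ht]
  | nd A l r ihl ihr =>
    simp only [Tr.size, Tr.ht]
    have h1 : 2 ^ (l.ht + 1) ≤ 2 ^ (max l.ht r.ht + 1) :=
      Nat.pow_le_pow_right (by norm_num) (by omega)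
    have h2 : 2 ^ (r.ht + 1) ≤ 2 ^ (max l.ht r.ht + 1) :=
      Nat.pow_le_pow_right (by norm_num) (by omega)
    have h3 : 2 ^ (max l.ht r.ht + 1 + 1) = 2 ^ (max l.ht r.ht + 1) * 2 := pow_succ _ _
    omega

theorem small_rem [Fintype V] (t : Tr V (Lt Q)) (k : ℤ)
    (h : ∃ (c d : Cx V (Lt Q)) (s : Tr V (Lt Q)), Rem t k c d s) :
    ∃ (c d : Cx V (Lt Q)) (s : Tr V (Lt Q)), Rem t k c d s ∧ d.size ≤ Bb (Fintype.card V) := by
  classical
  obtain ⟨N, hN⟩ : ∃ N, ∃ (c d : Cx V (Lt Q)) (s : Tr V (Lt Q)), Rem t k c d s ∧ d.size = N := by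
    obtain ⟨c, d, s, h1⟩ := h
    exact ⟨d.size, c, d, s, h1, rfl⟩
  obtain ⟨c, d, s, hR, hd⟩ := Nat.find_spec (⟨N, hN⟩ : ∃ N, ∃ (c d : Cx V (Lt Q))
    (s : Tr V (Lt Q)), Rem t k c d s ∧ d.size = N)
  have hmin : ∀ (c' d' : Cx V (Lt Q)) (s' : Tr V (Lt Q)), Rem t k c' d' s' →
      d.size ≤ d'.size := by
    intro c' d' s' h1
    rw [hd]
    exact Nat.find_min' _ ⟨c', d', s', h1, rfl⟩
  refine ⟨c, d, s, hR, ?_⟩
  obtain ⟨ht, hne, hroot, hflat, hlab⟩ := hR
  have hdep : d.depth ≤ Hb (Fintype.card V) := by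
    by_contra hc
    obtain ⟨c', d', s', h1, h2⟩ := flat_path t k c d s ht hflat (by omega)
    have h3 := hmin c' d' s' h1
    omega
  have hS : T06_Sides (fun r => r.size ≤ 2 ^ (Hb (Fintype.card V) + 1)) d := by
    refine T06_sides d s _ ?_
    intro c1 r h1 h2 h3
    obtain ⟨e, u, he, hht⟩ := T06_path r
    have hfl : ∀ x ∈ r.yd, fl x := by
      intro x hx
      rcases h3 x hx with h4 | h4
      · exact hflat.1 x h4
      · exact hflat.2 x h4
    have hef : FlatC e := by
      rw [he] at hfl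
      refine ⟨fun x hx => hfl x ?_, fun x hx => hfl x ?_⟩
      · rw [Cx.yd_plug]
        simp [hx]
      · rw [Cx.yd_plug]
        simp [hx]
    have hesz : e.size ≤ r.size := by
      rw [he, Cx.size_plug]
      omega
    have hle : e.depth ≤ Hb (Fintype.card V) := by
      by_contra hc
      have h5 : t = (c.comp c1).plug (e.plug u) := by
        rw [Cx.plug_comp, ← he, ← h1]
        exact ht
      obtain ⟨c', d', s', h6, h7⟩ := flat_path t k (c.comp c1) e u h5 hef (by omega)
      have h8 := hmin c' d' s' h6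
      omega
    have h9 := T06_size_ht r
    have h10 : 2 ^ (r.ht + 1) ≤ 2 ^ (Hb (Fintype.card V) + 1) :=
      Nat.pow_le_pow_right (by norm_num) (by omega)
    show r.size ≤ 2 ^ (Hb (Fintype.card V) + 1)
    omega
  have h11 := T06_size _ (2 ^ (Hb (Fintype.card V) + 1)) (fun r hr => hr) d hS
  exact h11.trans (Nat.mul_le_mul_right _ hdep)

end NSI
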