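import Pool.Agent.Lib.NSI.T06

/-!
# T07 : decomposition of a tree into a core and small flat cycles

Recipe.  Strong induction on `t.size`.  If no cycle is removable take `t0 = t`, `cs = []`.
Otherwise `small_rem` gives `Rem t k c d s` with small `d`; apply the induction hypothesis to
`c.plug s` (smaller because `d ≠ hole`) and add the cycle `(s.root, k + wt β c.yl, d)` to the list.
Labels: `Labs (c.plug s) k = Labs t k` (`⊆` by Labs_plug, because `d` is flat: the balance of
`d.plug s` is that of `s`; `⊇` from `Rem`).  Content: `cw_append`, `cw_flat`, commutativity of `+`.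
`Irr` of the core is immediate.
-/

set_option autoImplicit false

namespace NSI

variable {Q : ℕ} {V : Type}

/-- A cycle `(A, k, d)`: a nonempty flat context from `A` to `A`, attached at the label `(A, k)`. -/
structure Cyc (G : Gr V (Lt Q)) (A : V) (d : Cx V (Lt Q)) : Prop where
  ok : d.ok G A
  root : d.root A = A
  ne : d ≠ .hole
  flat : FlatC d

/-- content added by the insertion of a flat cycle at index `k`, the tree below having balance `h` -/
def eff (d : Cx V (Lt Q)) (k h : ℤ) : Multiset (Lt Q × ℤ) :=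
  (d.yl : Multiset (Lt Q)).map (fun x => (x, k)) + (d.yr : Multiset (Lt Q)).map (fun x => (x, k + h))

/-- no cycle is removable -/
def Irr (t : Tr V (Lt Q)) (k : ℤ) : Prop :=
  ¬ ∃ (c d : Cx V (Lt Q)) (s : Tr V (Lt Q)), Rem t k c d s

theorem core_cycles [Fintype V] (G : Gr V (Lt Q)) (C : ℕ) (e : Exact G C) (t : Tr V (Lt Q))
    (ht : t.ok G) (k : ℤ) :
    ∃ (t0 : Tr V (Lt Q)) (cs : List (V × ℤ × Cx V (Lt Q))),
      t0.ok G ∧ t0.root = t.root ∧ Labs β t0 k = Labs β t k ∧ Irr t0 k ∧
      (∀ p ∈ cs, (p.1, p.2.1) ∈ Labs β t k ∧ Cyc G p.1 p.2.2 ∧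
        p.2.2.size ≤ Bb (Fintype.card V)) ∧
      cw β t.yd k = cw β t0.yd k + (cs.map (fun p => eff p.2.2 p.2.1 (e.ω p.1))).sum := by
  induction hn : t.size using Nat.strong_induction_on generalizing t with
  | _ n ih =>
    by_cases hirr : Irr t k
    · exact ⟨t, [], ht, rfl, rfl, hirr, by simp, by simp⟩
    · have hex : ∃ (c d : Cx V (Lt Q)) (s : Tr V (Lt Q)), Rem t k c d s := by
        by_contra hcon
        exact hirr hcon
      obtain ⟨c, d, s, ⟨htc, hdne, hdroot, hdflat, hlabs⟩, hsize⟩ := small_rem t k hex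
      have hfl1 : ∀ a ∈ d.yl, (β a : ℤ) = 0 := fun a ha => β_of_fl (hdflat.1 a ha)
      have hfl2 : ∀ a ∈ d.yr, (β a : ℤ) = 0 := fun a ha => β_of_fl (hdflat.2 a ha)
      have hw1 : wt β d.yl = 0 := wt_flat β d.yl hfl1
      have hw2 : wt β d.yr = 0 := wt_flat β d.yr hfl2
      have hok := ht
      rw [htc, Cx.ok_plug, Cx.root_plug, hdroot, Cx.ok_plug] at hok
      obtain ⟨hcok, hdok, hsok⟩ := hok
      have hok' : (c.plug s).ok G := by
        rw [Cx.ok_plug]
        exact ⟨hcok, hsok⟩
      have hlt : (c.plug s).size < n := by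
        rw [← hn, htc, Cx.size_plug, Cx.size_plug, Cx.size_plug]
        have := Cx.size_pos hdne
        omega
      obtain ⟨t0, cs, h1, h2, h3, h4, h5, h6⟩ := ih _ hlt (c.plug s) hok' rfl
      have hlabs' : Labs β (c.plug s) k = Labs β t k := by
        apply Set.Subset.antisymm _ hlabs
        rw [htc, Labs_plug β c s k, Labs_plug β c (d.plug s) k]
        have e1 : wt β (d.plug s).yd = wt β s.yd := by
          rw [Cx.yd_plug, wt_append, wt_append, hw1, hw2]
          ring
        rw [e1]
        apply Set.union_subset_union_right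
        have h7 := Labs_plug_sub β d s (k + wt β c.yl)
        rw [hw1, add_zero] at h7
        exact h7
      have hmem : (s.root, k + wt β c.yl) ∈ Labs β t k := by
        rw [← hlabs', mem_Labs_iff]
        exact ⟨c, s, rfl, rfl⟩
      refine ⟨t0, (s.root, k + wt β c.yl, d) :: cs, h1, ?_, ?_, h4, ?_, ?_⟩
      · rw [h2, htc, Cx.root_plug, Cx.root_plug, Cx.root_plug, hdroot]
      · rw [h3, hlabs']
      · intro p hp
        rw [List.mem_cons] at hp
        rcases hp with rfl | hp
        · exact ⟨hmem, ⟨hdok, hdroot, hdne, hdflat⟩, hsize⟩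
        · have h8 := h5 p hp
          rw [hlabs'] at h8
          exact h8
      · rw [List.map_cons, List.sum_cons]
        have e2 : cw β t.yd k = cw β (c.plug s).yd k + eff d (k + wt β c.yl) (e.ω s.root) := by
          rw [htc, Cx.yd_plug, Cx.yd_plug, Cx.yd_plug]
          simp only [cw_append, wt_append, hw1, hw2, add_zero]
          rw [cw_flat β d.yl _ hfl1, cw_flat β d.yr _ hfl2, ← e.hω s hsok]
          unfold eff
          simp only [← add_assoc, zero_add]
          abel
        rw [e2, h6]
        abel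

end NSI
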