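import Pool.Agent.Lib.NSI.T07

/-!
# T08 : insertion of cycles

Recipe.  `insert_one`: by `mem_Labs_iff` write `t = c.plug s` with `A = s.root`,
`j = k + wt β c.yl`; take `t' = c.plug (d.plug s)`.  Content: `cw_append`, `cw_flat`, `wt_flat`.
Labels: Labs_plug, LabsC_comp (`d` is flat so nothing else moves; `wt β (d.plug s).yd = wt β s.yd`).
`insert_many`: induction on the list, using that the labels only grow.
-/

set_option autoImplicit false

namespace NSI

variable {Q : ℕ} {V : Type}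

theorem insert_one (G : Gr V (Lt Q)) (C : ℕ) (e : Exact G C) (t : Tr V (Lt Q)) (ht : t.ok G)
    (k : ℤ) (A : V) (j : ℤ) (hA : (A, j) ∈ Labs β t k) (d : Cx V (Lt Q)) (hd : Cyc G A d) :
    ∃ t' : Tr V (Lt Q), t'.ok G ∧ t'.root = t.root ∧ Labs β t k ⊆ Labs β t' k ∧
      cw β t'.yd k = cw β t.yd k + eff d j (e.ω A) := by
  obtain ⟨c, s, rfl, hp⟩ := exists_of_mem_Labs β hA
  obtain ⟨hA1, hj⟩ := Prod.mk.inj hp
  subst hA1
  subst hj
  obtain ⟨hc, hs⟩ := (Cx.ok_plug G c s).1 ht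
  have hroot : (d.plug s).root = s.root := by rw [Cx.root_plug, hd.root]
  have hl0 : ∀ x ∈ d.yl, β x = 0 := fun x hx => β_of_fl (hd.flat.1 x hx)
  have hr0 : ∀ x ∈ d.yr, β x = 0 := fun x hx => β_of_fl (hd.flat.2 x hx)
  have hwl : wt β d.yl = 0 := wt_flat β _ hl0
  have hwr : wt β d.yr = 0 := wt_flat β _ hr0
  have hw : wt β (d.plug s).yd = wt β s.yd := by
    rw [Cx.yd_plug, wt_append, wt_append, hwl, hwr]
    ring
  refine ⟨c.plug (d.plug s), ?_, ?_, ?_, ?_⟩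
  · rw [Cx.ok_plug, Cx.ok_plug, hroot]
    exact ⟨hc, hd.ok, hs⟩
  · rw [Cx.root_plug c (d.plug s), hroot, Cx.root_plug c s]
  · rw [Labs_plug, Labs_plug β c (d.plug s), hw]
    refine Set.union_subset_union_right _ ?_
    have h := Labs_plug_sub β d s (k + wt β c.yl)
    rwa [hwl, add_zero] at h
  · have hω : e.ω s.root = wt β s.yd := (e.hω s hs).symm
    have h1 : cw β (d.plug s).yd (k + wt β c.yl) =
        cw β s.yd (k + wt β c.yl) + eff d (k + wt β c.yl) (wt β s.yd) := by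
      rw [Cx.yd_plug, cw_append, cw_append, cw_flat β d.yl _ hl0, cw_flat β d.yr _ hr0,
        wt_append, hwl]
      unfold eff
      simp only [add_zero, zero_add]
      abel
    rw [Cx.yd_plug c (d.plug s), Cx.yd_plug c s, cw_append, cw_append, cw_append, cw_append,
      wt_append, wt_append, h1, hw, hω]
    abel

theorem insert_many (G : Gr V (Lt Q)) (C : ℕ) (e : Exact G C) (t : Tr V (Lt Q)) (ht : t.ok G)
    (k : ℤ) (cs : List (V × ℤ × Cx V (Lt Q)))
    (hcs : ∀ p ∈ cs, (p.1, p.2.1) ∈ Labs β t k ∧ Cyc G p.1 p.2.2) :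
    ∃ t' : Tr V (Lt Q), t'.ok G ∧ t'.root = t.root ∧ Labs β t k ⊆ Labs β t' k ∧
      cw β t'.yd k = cw β t.yd k + (cs.map (fun p => eff p.2.2 p.2.1 (e.ω p.1))).sum := by
  induction cs generalizing t with
  | nil => exact ⟨t, ht, rfl, le_rfl, by simp⟩
  | cons p cs ih =>
    obtain ⟨h1, h2⟩ := hcs p (by simp)
    obtain ⟨t1, ht1, hr1, hl1, hc1⟩ := insert_one G C e t ht k p.1 p.2.1 h1 p.2.2 h2
    obtain ⟨t2, ht2, hr2, hl2, hc2⟩ := ih t1 ht1
      (fun q hq => ⟨hl1 (hcs q (by simp [hq])).1, (hcs q (by simp [hq])).2⟩)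
    refine ⟨t2, ht2, hr2.trans hr1, hl1.trans hl2, ?_⟩
    rw [hc2, hc1, List.map_cons, List.sum_cons, add_assoc]

end NSI
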