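import Pool.Agent.Lib.NSI.T05

/-!
# T09 : height of one-sided trees with short flat paths

A tree whose yield contains at most `n` letters that are not flat (row letters), and all of whose
flat paths have length `≤ H`, has height `≤ (n + 1) * (H + 1)`.

Recipe.  Prove by structural induction on `t`, for all `a`: if
(1) for all `d, s` with `t = d.plug s` and `FlatC d`: `a + d.depth ≤ H`, and
(2) for all `c, d, s` with `t = c.plug (d.plug s)`, `FlatC d`: `d.depth ≤ H`,
then `t.ht + a ≤ H + (number of non-flat letters of t.yd) * (H + 1)`.
Leaf: (1) with `d = hole`.  Node `A l r`, say `ht l ≥ ht r`: if all letters of `r` are flat, apply the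
induction hypothesis to `l` with `a + 1` (a flat context `d` of `l` gives the flat context
`.lft A d r`); otherwise `l` has at least one non-flat letter less, apply the induction hypothesis
to `l` with `a = 0`, and use `a ≤ H`.
-/

set_option autoImplicit false

namespace NSI

variable {Q : ℕ} {V : Type}

open Classical in
/-- number of letters that are not flat -/
noncomputable def nfl (z : List (Lt Q)) : ℕ := (z.filter (fun x => ¬ fl x)).length

private theorem T09_nfl_append (x y : List (Lt Q)) : nfl (x ++ y) = nfl x + nfl y := by
  unfold nfl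
  rw [List.filter_append, List.length_append]

open Classical in
private theorem T09_pos {x : List (Lt Q)} (h : ¬ ∀ y ∈ x, fl y) : 1 ≤ nfl x := by
  unfold nfl
  by_contra hcon
  apply h
  intro y hy
  by_contra hfl
  have h0 : 0 < (x.filter (fun x => decide (¬ fl x))).length :=
    List.length_pos_of_mem (List.mem_filter.mpr ⟨hy, by simpa using hfl⟩)
  omega

private theorem T09_aux (H : ℕ) (t : Tr V (Lt Q)) : ∀ a : ℕ,
    (∀ (d : Cx V (Lt Q)) (s : Tr V (Lt Q)), t = d.plug s → FlatC d → a + d.depth ≤ H) →
    (∀ (c d : Cx V (Lt Q)) (s : Tr V (Lt Q)), t = c.plug (d.plug s) → FlatC d → d.depth ≤ H) →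
    t.ht + a ≤ H + nfl t.yd * (H + 1) := by
  induction t with
  | lf A x =>
    intro a h1 _
    have h := h1 .hole (.lf A x) rfl ⟨by simp [Cx.yl], by simp [Cx.yr]⟩
    simp only [Cx.depth, Tr.ht] at h ⊢
    have : 0 ≤ nfl (Tr.lf A x).yd * (H + 1) := Nat.zero_le _
    omega
  | nd A l r ihl ihr =>
    intro a h1 h2
    have ha : a ≤ H := by
      have := h1 .hole (.nd A l r) rfl ⟨by simp [Cx.yl], by simp [Cx.yr]⟩
      simpa [Cx.depth] using this
    have hl : l.ht + 1 + a ≤ H + nfl (Tr.nd A l r).yd * (H + 1) := by
      have e : (Tr.nd A l r).yd = l.yd ++ r.yd := rfl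
      rw [e, T09_nfl_append]
      by_cases hr : ∀ x ∈ r.yd, fl x
      · have h := ihl (a + 1) (fun d s hd hf => by
          have := h1 (.lft A d r) s (by rw [hd]; rfl) ⟨hf.1, by
            intro x hx
            simp only [Cx.yr, List.mem_append] at hx
            rcases hx with hx | hx
            · exact hf.2 x hx
            · exact hr x hx⟩
          simp only [Cx.depth] at this
          omega) (fun c d s hd hf => h2 (.lft A c r) d s (by rw [hd]; rfl) hf)
        nlinarith
      · have h := ihl 0 (fun d s hd hf => by
          have := h2 (.lft A .hole r) d s (by rw [hd]; rfl) hf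
          omega) (fun c d s hd hf => h2 (.lft A c r) d s (by rw [hd]; rfl) hf)
        have hp := T09_pos hr
        nlinarith
    have hr : r.ht + 1 + a ≤ H + nfl (Tr.nd A l r).yd * (H + 1) := by
      have e : (Tr.nd A l r).yd = l.yd ++ r.yd := rfl
      rw [e, T09_nfl_append]
      by_cases hr : ∀ x ∈ l.yd, fl x
      · have h := ihr (a + 1) (fun d s hd hf => by
          have := h1 (.rgt A l d) s (by rw [hd]; rfl) ⟨by
            intro x hx
            simp only [Cx.yl, List.mem_append] at hx
            rcases hx with hx | hx
            · exact hr x hx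
            · exact hf.1 x hx, hf.2⟩
          simp only [Cx.depth] at this
          omega) (fun c d s hd hf => h2 (.rgt A l c) d s (by rw [hd]; rfl) hf)
        nlinarith
      · have h := ihr 0 (fun d s hd hf => by
          have := h2 (.rgt A l .hole) d s (by rw [hd]; rfl) hf
          omega) (fun c d s hd hf => h2 (.rgt A l c) d s (by rw [hd]; rfl) hf)
        have hp := T09_pos hr
        nlinarith
    have e : (Tr.nd A l r).ht = max l.ht r.ht + 1 := rfl
    rw [e]
    omega

theorem one_sided_ht (t : Tr V (Lt Q)) (H : ℕ)
    (hH : ∀ (c d : Cx V (Lt Q)) (s : Tr V (Lt Q)), t = c.plug (d.plug s) → FlatC d → d.depth ≤ H) :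
    t.ht ≤ (nfl t.yd + 1) * (H + 1) := by
  have h := T09_aux H t 0 (fun d s hd hf => by
    have := hH .hole d s hd hf
    omega) hH
  nlinarith

end NSI
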