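import Pool.Agent.Lib.NSI.T09

/-!
# T10 : the rows of a tree with short flat paths are bounded

`Shape z`: `z` = left letters, `mid`, right letters.  `t` is ok for `G` with exactness data `e`
(balance `ω`, `|ω| ≤ C`), its yield has this shape, all flat paths have length `≤ H`.  Then every
(letter, index) occurs at most `Cb C H` times in the content.

Recipe.  Put `M = 2 ^ ((C + 1) * (H + 1))`.  A subtree whose yield has only left letters (or only
right letters) has at most `C` letters that are not flat (for left letters `nfl = wt β`, for right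
letters `nfl = - wt β`, and `|wt β| ≤ C`), so its yield has length `≤ M` by T09 and Tr.length_yd_le.
For a tree `t` of this shape at index `k` put `rank = 2 * k + wt β t.yd` (index of the left end plus
index of the right end).  `t = nd A l r`: one child contains `mid` and has again the shape, the
other one is one-sided; the rank of the child with `mid` is `≥ rank t`, and `≥ rank t + 1` if the
one-sided sibling is not flat.  (Left sibling `l`: child index `k + wt β l`, rank
`2 (k + wt l) + wt r = rank + wt l`.  Right sibling `r`: `2 k + wt l = rank - wt r`, `wt r ≤ 0`.)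
Letters of the left sibling have index in `[k, k + C]`, letters of the right sibling have index in
`[k + wt t, k + wt t + C]`, and `|wt t| ≤ C`: if a sibling contains a letter with index `j` then
`a ≤ rank ≤ b` with `a = 2 j - 3 C`, `b = 2 j + C`.
Prove by structural induction on `t` for all `k`, `a0`: if flat contexts `d` at the root of `t`
satisfy `a0 + d.depth ≤ H` then `count (x, j)` is `≤ M * ((b - rank) * (H + 1) + (H + 1 - a0))` if
`a ≤ rank ≤ b`, is `≤ M * ((b - a + 1) * (H + 1))` if `rank < a`, and is `0` if `rank > b`.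
(Flat sibling: induction hypothesis with `a0 + 1` and the same rank; otherwise `a0 = 0` and the rank
increases.)  Leaf `mid`: rank `= 2 k`, content `{(mid, k)}`.
-/

set_option autoImplicit false

namespace NSI

variable {Q : ℕ} {V : Type}

/-- left letters, then `mid`, then right letters -/
def Shape (z : List (Lt Q)) : Prop :=
  ∃ u v : List (Lt Q), z = u ++ Lt.mid :: v ∧ (∀ x ∈ u, sd x = 0) ∧ (∀ x ∈ v, sd x = 2)

/-- bound for the number of letters with given index in a core -/
def Cb (C H : ℕ) : ℕ := 2 ^ ((C + 1) * (H + 1)) * ((4 * C + 1) * (H + 1))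

/-! ### one-sided words -/

private theorem T10_nfl_cons (x : Lt Q) (z : List (Lt Q)) :
    ((fl x → nfl (x :: z) = nfl z)) ∧ ((¬ fl x) → nfl (x :: z) = nfl z + 1) := by
  classical
  unfold nfl
  constructor
  · intro h
    rw [List.filter_cons_of_neg (by simpa using h)]
  · intro h
    rw [List.filter_cons_of_pos (by simpa using h), List.length_cons]

private theorem T10_nfl_left (z : List (Lt Q)) (h : ∀ x ∈ z, sd x = 0) :
    (nfl z : ℤ) = wt β z := by
  induction z with
  | nil => simp [nfl]
  | cons x z ih =>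
    have h1 := ih (fun y hy => h y (List.mem_cons_of_mem _ hy))
    have h2 := h x (List.mem_cons_self)
    obtain ⟨h3, h4⟩ := T10_nfl_cons x z
    rw [wt_cons, ← h1]
    cases x with
    | row q π => rw [h4 (by simp [fl])]; simp [β]; ring
    | one => rw [h3 (by simp [fl])]; simp [β]
    | a => rw [h3 (by simp [fl])]; simp [β]
    | mid => simp [sd] at h2
    | b => simp [sd] at h2
    | one' => simp [sd] at h2
    | row' q π => simp [sd] at h2

private theorem T10_nfl_right (z : List (Lt Q)) (h : ∀ x ∈ z, sd x = 2) :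
    (nfl z : ℤ) = - wt β z := by
  induction z with
  | nil => simp [nfl]
  | cons x z ih =>
    have h1 := ih (fun y hy => h y (List.mem_cons_of_mem _ hy))
    have h2 := h x (List.mem_cons_self)
    obtain ⟨h3, h4⟩ := T10_nfl_cons x z
    rw [wt_cons, neg_add, ← h1]
    cases x with
    | row q π => simp [sd] at h2
    | one => simp [sd] at h2
    | a => simp [sd] at h2
    | mid => simp [sd] at h2
    | b => rw [h3 (by simp [fl])]; simp [β]
    | one' => rw [h3 (by simp [fl])]; simp [β]
    | row' q π => rw [h4 (by simp [fl])]; simp [β]; ring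

private theorem T10_flat_of_nfl (z : List (Lt Q)) (h : nfl z = 0) : ∀ x ∈ z, fl x := by
  induction z with
  | nil => simp
  | cons x z ih =>
    obtain ⟨h3, h4⟩ := T10_nfl_cons x z
    by_cases hx : fl x
    · rw [h3 hx] at h
      intro y hy
      rcases List.mem_cons.1 hy with rfl | hy
      · exact hx
      · exact ih h y hy
    · rw [h4 hx] at h
      omega

private theorem T10_idx_left (z : List (Lt Q)) (h : ∀ x ∈ z, sd x = 0) (k : ℤ) (x : Lt Q) (j : ℤ)
    (hx : (x, j) ∈ cw β z k) : k ≤ j ∧ j ≤ k + wt β z := by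
  induction z generalizing k with
  | nil => simp [cw] at hx
  | cons y z ih =>
    have hz : ∀ x ∈ z, sd x = 0 := fun y hy => h y (List.mem_cons_of_mem _ hy)
    have h2 := h y (List.mem_cons_self)
    have hβ : 0 ≤ β y := by cases y <;> simp_all [sd, β]
    have hw : 0 ≤ wt β z := by
      rw [← T10_nfl_left z hz]
      exact Int.natCast_nonneg _
    rw [cw, Multiset.mem_cons] at hx
    rw [wt_cons]
    rcases hx with hx | hx
    · have : j = k := congrArg Prod.snd hx
      omega
    · obtain ⟨h5, h6⟩ := ih hz _ hx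
      omega

private theorem T10_idx_right (z : List (Lt Q)) (h : ∀ x ∈ z, sd x = 2) (k : ℤ) (x : Lt Q) (j : ℤ)
    (hx : (x, j) ∈ cw β z k) : k + wt β z ≤ j ∧ j ≤ k := by
  induction z generalizing k with
  | nil => simp [cw] at hx
  | cons y z ih =>
    have hz : ∀ x ∈ z, sd x = 2 := fun y hy => h y (List.mem_cons_of_mem _ hy)
    have h2 := h y (List.mem_cons_self)
    have hβ : β y ≤ 0 := by cases y <;> simp_all [sd, β]
    have hw : wt β z ≤ 0 := by
      have := T10_nfl_right z hz
      have : (0 : ℤ) ≤ nfl z := Int.natCast_nonneg _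
      omega
    rw [cw, Multiset.mem_cons] at hx
    rw [wt_cons]
    rcases hx with hx | hx
    · have : j = k := congrArg Prod.snd hx
      omega
    · obtain ⟨h5, h6⟩ := ih hz _ hx
      omega

private theorem T10_count_le (z : List (Lt Q)) (k : ℤ) (x : Lt Q) (j : ℤ) :
    (cw β z k).count (x, j) ≤ z.length := by
  have h1 : (cw β z k).card = z.length := by
    rw [← Multiset.card_map Prod.fst, cw_map_fst]
    rfl
  rw [← h1]
  exact Multiset.count_le_card _ _

/-! ### numbers -/

private def T10_B (C H : ℕ) (j ρ : ℤ) (a0 : ℕ) : ℕ :=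
  (2 * j + C - max ρ (2 * j - 3 * C - 1)).toNat * (H + 1) +
    (if 2 * j - 3 * C ≤ ρ ∧ ρ ≤ 2 * j + C then H + 1 - a0 else 0)

private theorem T10_step0 (C H : ℕ) (j ρ : ℤ) (a0 : ℕ) (ha : a0 ≤ H) :
    T10_B C H j ρ (a0 + 1) + (if 2 * j - 3 * C ≤ ρ ∧ ρ ≤ 2 * j + C then 1 else 0) ≤
      T10_B C H j ρ a0 := by
  unfold T10_B
  split_ifs <;> omega

private theorem T10_step1 (C H : ℕ) (j ρ ρ' : ℤ) (a0 : ℕ) (ha : a0 ≤ H) (h : ρ < ρ') :
    T10_B C H j ρ' 0 + (if 2 * j - 3 * C ≤ ρ ∧ ρ ≤ 2 * j + C then 1 else 0) ≤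
      T10_B C H j ρ a0 := by
  unfold T10_B
  set x' := (2 * j + C - max ρ' (2 * j - 3 * C - 1)).toNat with hx'
  set x := (2 * j + C - max ρ (2 * j - 3 * C - 1)).toNat with hx
  have h2 : (if 2 * j - 3 * C ≤ ρ ∧ ρ ≤ 2 * j + C then 1 else 0) ≤
      (if 2 * j - 3 * C ≤ ρ ∧ ρ ≤ 2 * j + C then H + 1 - a0 else 0) := by
    split_ifs <;> omega
  by_cases hc : 2 * j - 3 * C ≤ ρ' ∧ ρ' ≤ 2 * j + C
  · have h1 : x' + 1 ≤ x := by omega
    have h3 := Nat.mul_le_mul_right (H + 1) h1
    rw [Nat.add_mul, one_mul] at h3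
    rw [if_pos hc]
    omega
  · have h1 : x' ≤ x := by omega
    have h3 := Nat.mul_le_mul_right (H + 1) h1
    rw [if_neg hc]
    omega

private theorem T10_fin (C H : ℕ) (j ρ : ℤ) (a0 : ℕ) :
    T10_B C H j ρ a0 ≤ (4 * C + 1) * (H + 1) := by
  unfold T10_B
  set x := (2 * j + C - max ρ (2 * j - 3 * C - 1)).toNat with hx
  by_cases hc : 2 * j - 3 * C ≤ ρ ∧ ρ ≤ 2 * j + C
  · have h1 : x + 1 ≤ 4 * C + 1 := by omega
    have h3 := Nat.mul_le_mul_right (H + 1) h1
    rw [Nat.add_mul, one_mul] at h3
    rw [if_pos hc]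
    omega
  · have h1 : x ≤ 4 * C + 1 := by omega
    have h3 := Nat.mul_le_mul_right (H + 1) h1
    rw [if_neg hc]
    omega

/-- one step, abstract -/
private theorem T10_comb {C H M : ℕ} {j ρ ρ' : ℤ} {a0 a1 n c1 c2 : ℕ} (ha : a0 ≤ H)
    (hρ : ρ' = ρ + n) (h0 : n = 0 → a1 = a0 + 1) (h1 : n ≠ 0 → a1 = 0)
    (hc1 : c1 ≤ M * T10_B C H j ρ' a1)
    (hc2 : c2 ≤ M) (hc3 : c2 ≠ 0 → 2 * j - 3 * C ≤ ρ ∧ ρ ≤ 2 * j + C) :
    c1 + c2 ≤ M * T10_B C H j ρ a0 := by
  have h2 : c2 ≤ M * (if 2 * j - 3 * C ≤ ρ ∧ ρ ≤ 2 * j + C then 1 else 0) := by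
    by_cases hc : 2 * j - 3 * C ≤ ρ ∧ ρ ≤ 2 * j + C
    · rw [if_pos hc]; omega
    · have : c2 = 0 := by
        by_contra h
        exact hc (hc3 h)
      rw [this]
      exact Nat.zero_le _
  have h3 : T10_B C H j ρ' a1 + (if 2 * j - 3 * C ≤ ρ ∧ ρ ≤ 2 * j + C then 1 else 0) ≤
      T10_B C H j ρ a0 := by
    by_cases hn : n = 0
    · rw [h0 hn, hρ, hn, Nat.cast_zero, add_zero]
      exact T10_step0 C H j ρ a0 ha
    · rw [h1 hn]
      exact T10_step1 C H j ρ ρ' a0 ha (by omega)
  calc c1 + c2 ≤ M * T10_B C H j ρ' a1 +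
      M * (if 2 * j - 3 * C ≤ ρ ∧ ρ ≤ 2 * j + C then 1 else 0) := Nat.add_le_add hc1 h2
    _ = M * (T10_B C H j ρ' a1 + (if 2 * j - 3 * C ≤ ρ ∧ ρ ≤ 2 * j + C then 1 else 0)) := by ring
    _ ≤ M * T10_B C H j ρ a0 := Nat.mul_le_mul_left _ h3

private theorem T10_short (t : Tr V (Lt Q)) (C H : ℕ)
    (hH : ∀ (c d : Cx V (Lt Q)) (s : Tr V (Lt Q)), t = c.plug (d.plug s) → FlatC d → d.depth ≤ H)
    (hn : nfl t.yd ≤ C) : t.yd.length ≤ 2 ^ ((C + 1) * (H + 1)) := by
  have h1 := one_sided_ht t H hH
  have h2 := t.length_yd_le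
  have h3 : (nfl t.yd + 1) * (H + 1) ≤ (C + 1) * (H + 1) :=
    Nat.mul_le_mul_right _ (Nat.succ_le_succ hn)
  exact h2.trans (Nat.pow_le_pow_right (by norm_num) (h1.trans h3))

private theorem T10_main (G : Gr V (Lt Q)) (C : ℕ) (e : Exact G C) (H : ℕ) (x : Lt Q) (j : ℤ)
    (t : Tr V (Lt Q)) : ∀ (k : ℤ) (a0 : ℕ), t.ok G → Shape t.yd →
    (∀ (d : Cx V (Lt Q)) (s : Tr V (Lt Q)), t = d.plug s → FlatC d → a0 + d.depth ≤ H) →
    (∀ (c d : Cx V (Lt Q)) (s : Tr V (Lt Q)), t = c.plug (d.plug s) → FlatC d → d.depth ≤ H) →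
    (cw β t.yd k).count (x, j) ≤
      2 ^ ((C + 1) * (H + 1)) * T10_B C H j (2 * k + wt β t.yd) a0 := by
  classical
  have hM : 1 ≤ 2 ^ ((C + 1) * (H + 1)) := Nat.one_le_two_pow
  induction t with
  | lf A y =>
    intro k a0 hok hs h1 h2
    have ha0 : a0 ≤ H := by
      have := h1 .hole (.lf A y) rfl ⟨by simp [Cx.yl], by simp [Cx.yr]⟩
      simpa [Cx.depth] using this
    obtain ⟨u, v, huv, -, -⟩ := hs
    have hy : y = some Lt.mid := by
      cases y with
      | none => simp [Tr.yd] at huv
      | some y =>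
        simp only [Tr.yd, Option.toList_some] at huv
        have hu : u = [] := by
          cases u with
          | nil => rfl
          | cons z u =>
            simp at huv
        rw [hu] at huv
        simp at huv
        rw [huv.1]
    subst hy
    have hcw : cw β (Tr.yd (Tr.lf A (some Lt.mid) : Tr V (Lt Q))) k = {(Lt.mid, k)} := by
      simp [Tr.yd, cw]
    have hwt : wt β (Tr.yd (Tr.lf A (some Lt.mid) : Tr V (Lt Q))) = 0 := by
      simp [Tr.yd, wt, β]
    rw [hcw, hwt, add_zero]
    by_cases hj : j = k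
    · have h3 : Multiset.count (x, j) {((Lt.mid : Lt Q), k)} ≤ 1 := by
        have := Multiset.count_le_card (x, j) {((Lt.mid : Lt Q), k)}
        simpa using this
      have h4 : 1 ≤ T10_B C H j (2 * k) a0 := by
        unfold T10_B
        rw [if_pos (by omega)]
        omega
      calc Multiset.count (x, j) {((Lt.mid : Lt Q), k)} ≤ 1 * 1 := h3
        _ ≤ _ := Nat.mul_le_mul hM h4
    · have h3 : Multiset.count (x, j) {((Lt.mid : Lt Q), k)} = 0 := by
        rw [Multiset.count_eq_zero, Multiset.mem_singleton]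
        intro h
        exact hj (congrArg Prod.snd h)
      rw [h3]
      exact Nat.zero_le _
  | nd A l r ihl ihr =>
    intro k a0 hok hs h1 h2
    have ha0 : a0 ≤ H := by
      have := h1 .hole (.nd A l r) rfl ⟨by simp [Cx.yl], by simp [Cx.yr]⟩
      simpa [Cx.depth] using this
    have hwt := e.hω _ hok
    have hCt := e.hC _ hok
    obtain ⟨-, hl, hr⟩ := hok
    obtain ⟨u, v, huv, hu, hv⟩ := hs
    have h2l : ∀ (c d : Cx V (Lt Q)) (s : Tr V (Lt Q)), l = c.plug (d.plug s) → FlatC d →
        d.depth ≤ H := fun c d s h hd => h2 (.lft A c r) d s (by rw [h]; rfl) hd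
    have h2r : ∀ (c d : Cx V (Lt Q)) (s : Tr V (Lt Q)), r = c.plug (d.plug s) → FlatC d →
        d.depth ≤ H := fun c d s h hd => h2 (.rgt A l c) d s (by rw [h]; rfl) hd
    rw [← hwt] at hCt
    simp only [Tr.yd] at huv hCt ⊢
    rw [cw_append, Multiset.count_add]
    rw [wt_append] at hCt ⊢
    rw [abs_le] at hCt
    have hcase : (Shape l.yd ∧ ∀ y ∈ r.yd, sd y = 2) ∨ (Shape r.yd ∧ ∀ y ∈ l.yd, sd y = 0) := by
      rcases List.append_eq_append_iff.1 huv with ⟨a', h3, h4⟩ | ⟨c', h3, h4⟩
      · right
        refine ⟨⟨a', v, h4, ?_, hv⟩, ?_⟩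
        · intro y hy
          exact hu y (by rw [h3]; exact List.mem_append_right _ hy)
        · intro y hy
          exact hu y (by rw [h3]; exact List.mem_append_left _ hy)
      · cases c' with
        | nil =>
          right
          rw [List.append_nil] at h3
          rw [List.nil_append] at h4
          refine ⟨⟨[], v, h4.symm, by simp, hv⟩, ?_⟩
          rw [h3]
          exact hu
        | cons y c' =>
          left
          rw [List.cons_append, List.cons.injEq] at h4
          obtain ⟨h5, h6⟩ := h4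
          refine ⟨⟨u, c', by rw [h3, ← h5], hu, ?_⟩, ?_⟩
          · intro z hz
            exact hv z (by rw [h6]; exact List.mem_append_left _ hz)
          · intro z hz
            exact hv z (by rw [h6]; exact List.mem_append_right _ hz)
    rcases hcase with ⟨hsl, hr2⟩ | ⟨hsr, hl0⟩
    · -- `mid` on the left
      have hn := T10_nfl_right r.yd hr2
      have hCr := e.hC _ hr
      rw [← e.hω _ hr, abs_le] at hCr
      have hnC : nfl r.yd ≤ C := by omega
      have hshort := T10_short r C H h2r hnC
      have hcr := (T10_count_le r.yd (k + wt β l.yd) x j).trans hshort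
      refine T10_comb (n := nfl r.yd) (a1 := if nfl r.yd = 0 then a0 + 1 else 0)
        (ρ' := 2 * k + wt β l.yd) ha0 (by omega) (fun h => by rw [if_pos h])
        (fun h => by rw [if_neg h]) ?_ hcr ?_
      · apply ihl k _ hl hsl _ h2l
        intro d s hd hfl
        split_ifs with hz
        · have hfr := T10_flat_of_nfl r.yd hz
          have := h1 (.lft A d r) s (by rw [hd]; rfl) ⟨by simpa [Cx.yl] using hfl.1, by
            intro y hy
            simp only [Cx.yr, List.mem_append] at hy
            rcases hy with hy | hy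
            · exact hfl.2 y hy
            · exact hfr y hy⟩
          simp only [Cx.depth] at this
          omega
        · have := h2l .hole d s hd hfl
          omega
      · intro hne
        have hmem : (x, j) ∈ cw β r.yd (k + wt β l.yd) := by
          rw [← Multiset.count_pos]
          omega
        obtain ⟨h5, h6⟩ := T10_idx_right r.yd hr2 _ x j hmem
        omega
    · -- `mid` on the right
      have hn := T10_nfl_left l.yd hl0
      have hCl := e.hC _ hl
      rw [← e.hω _ hl, abs_le] at hCl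
      have hnC : nfl l.yd ≤ C := by omega
      have hshort := T10_short l C H h2l hnC
      have hcl := (T10_count_le l.yd k x j).trans hshort
      rw [add_comm (Multiset.count (x, j) (cw β l.yd k))]
      refine T10_comb (n := nfl l.yd) (a1 := if nfl l.yd = 0 then a0 + 1 else 0)
        (ρ' := 2 * (k + wt β l.yd) + wt β r.yd) ha0 (by omega) (fun h => by rw [if_pos h])
        (fun h => by rw [if_neg h]) ?_ hcl ?_
      · apply ihr (k + wt β l.yd) _ hr hsr _ h2r
        intro d s hd hfl
        split_ifs with hz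
        · have hfr := T10_flat_of_nfl l.yd hz
          have := h1 (.rgt A l d) s (by rw [hd]; rfl) ⟨by
            intro y hy
            simp only [Cx.yl, List.mem_append] at hy
            rcases hy with hy | hy
            · exact hfr y hy
            · exact hfl.1 y hy, by simpa [Cx.yr] using hfl.2⟩
          simp only [Cx.depth] at this
          omega
        · have := h2r .hole d s hd hfl
          omega
      · intro hne
        have hmem : (x, j) ∈ cw β l.yd k := by
          rw [← Multiset.count_pos]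
          omega
        obtain ⟨h5, h6⟩ := T10_idx_left l.yd hl0 _ x j hmem
        omega

theorem core_bound (G : Gr V (Lt Q)) (C : ℕ) (e : Exact G C) (t : Tr V (Lt Q)) (ht : t.ok G)
    (hs : Shape t.yd) (H : ℕ)
    (hH : ∀ (c d : Cx V (Lt Q)) (s : Tr V (Lt Q)), t = c.plug (d.plug s) → FlatC d → d.depth ≤ H)
    (k : ℤ) (x : Lt Q) (j : ℤ) :
    (cw β t.yd k).count (x, j) ≤ Cb C H := by
  have h1 := T10_main G C e H x j t k 0 ht hs (fun d s h hd => by
    have := hH .hole d s h hd
    omega) hH
  exact h1.trans (Nat.mul_le_mul_left _ (T10_fin C H j _ 0))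

end NSI
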