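import Pool.Agent.Lib.NSI.T14

/-!
# T15 : all words are mirror words

Recipe.  Bound: that of T14 plus the same expression.  Call a context `C` small if
`C.size ≤ n * (2 ^ n + 1)`.  Claim: for all `A` with `κ A = 1`, all small contexts `C` with
`C.ok G A`, `C.root A = G.start`, and all ok trees `t` at `A`: `(C.plug t).yd` is tight.
Induction on `t.size`.  Height `≤ n`: short word.  `t = nd A l r`, say `r` contains `mid`
(`κ r.root = 1`, `κ l.root = 0`).  Let `l0`, `r0` be small trees with the roots of `l`, `r`; by T14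
`l.yd = l0.yd`.  Let `D` be a small context for `r.root` (T02, from `C.comp (.rgt A l .hole)`).
The four words `W1 = D.plug r0`, `W2 = D.plug r` (induction hypothesis), `W3 = C.plug (nd A l0 r0)`
are tight and we want `W4 = C.plug (nd A l0 r)` to be tight.  Cancellation: write
`r0.yd = u0 mid v0`, `r.yd = u mid v` (shape), `v~` for the left word whose mirror is `v`.
Tightness: `D.yl u0 = D.yr~ v0~`, `D.yl u = D.yr~ v~`, `(C.yl l0) u0 = C.yr~ v0~`, want
`(C.yl l0) u = C.yr~ v~`.  Elementary: compare the lengths of `D.yl` and `D.yr~`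
(List.append_eq_append_iff), e.g. `D.yr~ = D.yl δ` gives `u0 = δ v0~`, `u = δ v~`,
`(C.yl l0) δ = C.yr~`.  Finally the case `l` contains `mid` is symmetric.
The claim with `C = hole` is the theorem.
-/

set_option autoImplicit false

namespace NSI

variable {Q : ℕ} {V : Type}

namespace T15

theorem wt_mid (z : List (Lt Q)) : wt ψm z = (z.count Lt.mid : ℤ) := by
  induction z with
  | nil => simp
  | cons x z ih =>
    rw [wt_cons, ih]
    cases x <;> simp [ψm, List.count_cons] <;> ring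

/-- the position of the only `mid` -/
theorem uniq {P R P' R' : List (Lt Q)} (h : P ++ Lt.mid :: R = P' ++ Lt.mid :: R')
    (h1 : (P ++ Lt.mid :: R).count Lt.mid = 1) : P = P' ∧ R = R' := by
  rw [List.count_append, List.count_cons_self] at h1
  have h2 : Lt.mid ∉ P := List.count_eq_zero.1 (by omega)
  have h3 : Lt.mid ∉ R := List.count_eq_zero.1 (by omega)
  have h4 := (List.append_cons_inj_of_notMem h2 h3).1 h
  exact ⟨h4.1, h4.2.2⟩

theorem exists_mid {z : List (Lt Q)} (h : wt ψm z = 1) : ∃ u v, z = u ++ Lt.mid :: v := by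
  rw [wt_mid] at h
  have h1 : 0 < z.count Lt.mid := by omega
  exact List.append_of_mem (List.count_pos_iff.1 h1)

/-- cancellation in the free monoid -/
theorem cancel4 {α : Type} {v₀ v a a' R d R' c : List α} (h1 : v₀ ++ R = a ++ d)
    (h2 : v ++ R = a' ++ d) (h3 : v₀ ++ R' = a ++ c) : v ++ R' = a' ++ c := by
  rcases List.append_eq_append_iff.1 h1 with ⟨as, g1, g2⟩ | ⟨bs, g1, g2⟩
  · rw [g2, ← List.append_assoc] at h2
    have h4 := List.append_cancel_right h2
    rw [g1, List.append_assoc] at h3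
    have h5 := List.append_cancel_left h3
    rw [h5, ← h4, List.append_assoc]
  · rw [g2, ← List.append_assoc] at h2
    have h4 := List.append_cancel_right h2
    rw [g1, List.append_assoc] at h3
    have h5 := List.append_cancel_left h3
    rw [h4, List.append_assoc, h5]

/-- mirror image -/
def mi (w : List (Lt Q)) : List (Lt Q) := (w.map cp).reverse

theorem mi_append (x y : List (Lt Q)) : mi (x ++ y) = mi y ++ mi x := by
  simp [mi]

/-- tightness of a word with a given `mid` -/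
theorem tight_iff {P R : List (Lt Q)} (h : wt ψm (P ++ Lt.mid :: R) = 1) :
    Tight (P ++ Lt.mid :: R) ↔ (∀ x ∈ P, sd x = 0) ∧ R = mi P := by
  constructor
  · rintro ⟨y, hy, h2⟩
    have h3 : P ++ Lt.mid :: R = y ++ Lt.mid :: mi y := h2
    rw [wt_mid] at h
    obtain ⟨g1, g2⟩ := uniq h3 (by exact_mod_cast h)
    rw [g1, g2]
    exact ⟨hy, rfl⟩
  · rintro ⟨h1, h2⟩
    refine ⟨P, h1, ?_⟩
    rw [h2]
    rfl

/-- four words, three of them tight -/
theorem four {DL DR CL CR u₀ v₀ u v : List (Lt Q)}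
    (w1 : wt ψm (DL ++ (u₀ ++ Lt.mid :: v₀) ++ DR) = 1)
    (w2 : wt ψm (DL ++ (u ++ Lt.mid :: v) ++ DR) = 1)
    (w3 : wt ψm (CL ++ (u₀ ++ Lt.mid :: v₀) ++ CR) = 1)
    (w4 : wt ψm (CL ++ (u ++ Lt.mid :: v) ++ CR) = 1)
    (h1 : Tight (DL ++ (u₀ ++ Lt.mid :: v₀) ++ DR))
    (h2 : Tight (DL ++ (u ++ Lt.mid :: v) ++ DR))
    (h3 : Tight (CL ++ (u₀ ++ Lt.mid :: v₀) ++ CR)) :
    Tight (CL ++ (u ++ Lt.mid :: v) ++ CR) := by
  have e : ∀ A B C D : List (Lt Q), A ++ (B ++ Lt.mid :: C) ++ D =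
      (A ++ B) ++ Lt.mid :: (C ++ D) := by
    intro A B C D
    simp
  rw [e] at w1 w2 w3 w4 h1 h2 h3 ⊢
  rw [tight_iff w1, mi_append] at h1
  rw [tight_iff w2, mi_append] at h2
  rw [tight_iff w3, mi_append] at h3
  rw [tight_iff w4, mi_append]
  refine ⟨?_, cancel4 h1.2 h2.2 h3.2⟩
  intro x hx
  rcases List.mem_append.1 hx with hx | hx
  · exact h3.1 x (List.mem_append_left _ hx)
  · exact h2.1 x (List.mem_append_right _ hx)

/-- the bound for short words -/
def bd (s : ℕ) : ℕ := s * (2 ^ s + 1) + 2 * 2 ^ s + 5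

theorem primrec_bd : Primrec bd := by
  have h1 : Primrec (fun s : ℕ => 2 ^ s) := primrec_pow.comp (Primrec.const 2) Primrec.id
  have h2 : Primrec (fun s : ℕ => s * (2 ^ s + 1)) :=
    Primrec.nat_mul.comp Primrec.id (Primrec.nat_add.comp h1 (Primrec.const 1))
  have h3 : Primrec (fun s : ℕ => 2 * 2 ^ s) := Primrec.nat_mul.comp (Primrec.const 2) h1
  exact Primrec.nat_add.comp (Primrec.nat_add.comp h2 h3) (Primrec.const 5)

theorem mono_bd : Monotone bd := by
  intro a b h
  have h1 : 2 ^ a ≤ 2 ^ b := Nat.pow_le_pow_right (by norm_num) h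
  have h2 : a * (2 ^ a + 1) ≤ b * (2 ^ b + 1) := Nat.mul_le_mul h (by omega)
  unfold bd
  omega

/-- the claim for small contexts -/
theorem claim [Fintype V] (G : Gr V (Lt Q)) (Cc : ℕ) (e : Exact G Cc)
    (hside : ∀ (A : V) (C : Cx V (Lt Q)), C.ok G A → C.root A = G.start → e.κ A = 0 →
      ∀ t t' : Tr V (Lt Q), t.ok G → t'.ok G → t.root = A → t'.root = A → t.yd = t'.yd)
    (hshort : ∀ z ∈ G.lang, z.length ≤ bd (Fintype.card V) → Tight z)
    (hmid : ∀ z ∈ G.lang, wt ψm z = 1) (t : Tr V (Lt Q)) :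
    t.ok G → wt ψm t.yd = 1 → ∀ C : Cx V (Lt Q), C.ok G t.root → C.root t.root = G.start →
      C.size ≤ Fintype.card V * (2 ^ Fintype.card V + 1) → Tight (C.plug t).yd := by
  -- membership and shortness
  have hlang : ∀ (C : Cx V (Lt Q)) (t : Tr V (Lt Q)), t.ok G → C.ok G t.root →
      C.root t.root = G.start → (C.plug t).yd ∈ G.lang := by
    intro C t h1 h2 h3
    exact ⟨C.plug t, (Cx.ok_plug G C t).2 ⟨h2, h1⟩, by rw [Cx.root_plug]; exact h3, rfl⟩
  have hsh : ∀ (C : Cx V (Lt Q)) (t : Tr V (Lt Q)), t.ok G → C.ok G t.root →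
      C.root t.root = G.start → C.size ≤ Fintype.card V * (2 ^ Fintype.card V + 1) →
      t.size ≤ 2 * 2 ^ Fintype.card V + 1 → Tight (C.plug t).yd := by
    intro C t h1 h2 h3 h4 h5
    refine hshort _ (hlang C t h1 h2 h3) ?_
    have h6 := Tr.length_yd_le_size (C.plug t)
    rw [Cx.size_plug] at h6
    unfold bd
    omega
  induction t with
  | lf A x =>
    intro ht _ C hC hr hsz
    refine hsh C _ ht hC hr hsz ?_
    have : 0 < 2 ^ Fintype.card V := by positivity
    simp only [Tr.size]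
    omega
  | nd A l r ihl ihr =>
    intro ht hw C hC hr hsz
    obtain ⟨l0, hl0, hl0r, -, hl0s⟩ := small_tree G l ht.2.1
    obtain ⟨r0, hr0, hr0r, -, hr0s⟩ := small_tree G r ht.2.2
    have hnd0 : (Tr.nd A l0 r0).ok G := ⟨by rw [hl0r, hr0r]; exact ht.1, hl0, hr0⟩
    have hW3 : Tight (C.plug (.nd A l0 r0)).yd := by
      refine hsh C _ hnd0 hC hr hsz ?_
      simp only [Tr.size]
      omega
    have hW3m := hmid _ (hlang C (.nd A l0 r0) hnd0 hC hr)
    have hW4m := hmid _ (hlang C (.nd A l r) ht hC hr)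
    have h5 : wt ψm l.yd + wt ψm r.yd = 1 := by
      rw [← wt_append]
      exact hw
    have hlp : 0 ≤ wt ψm l.yd := by
      rw [wt_mid]
      positivity
    have hrp : 0 ≤ wt ψm r.yd := by
      rw [wt_mid]
      positivity
    have kl : wt ψm l0.yd = wt ψm l.yd := by
      rw [e.hκ l0 hl0, e.hκ l ht.2.1, hl0r]
    have kr : wt ψm r0.yd = wt ψm r.yd := by
      rw [e.hκ r0 hr0, e.hκ r ht.2.2, hr0r]
    have kC1 : (C.comp (.lft A .hole r)).ok G l.root := by
      rw [Cx.ok_comp]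
      exact ⟨hC, ht.1, trivial, ht.2.2⟩
    have kC2 : (C.comp (.lft A .hole r)).root l.root = G.start := by
      rw [Cx.root_comp]
      exact hr
    have kD1 : (C.comp (.rgt A l .hole)).ok G r.root := by
      rw [Cx.ok_comp]
      exact ⟨hC, ht.1, ht.2.1, trivial⟩
    have kD2 : (C.comp (.rgt A l .hole)).root r.root = G.start := by
      rw [Cx.root_comp]
      exact hr
    rcases (show wt ψm l.yd = 1 ∨ wt ψm l.yd = 0 by omega) with hl | hl
    · -- `mid` in the left child
      have hr0' : wt ψm r.yd = 0 := by omega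
      have hry : r.yd = r0.yd := hside r.root _ kD1 kD2 (by rw [← e.hκ r ht.2.2]; exact hr0')
        r r0 ht.2.2 hr0 rfl hr0r
      obtain ⟨D, hD1, hD2, hD3⟩ := small_ctx G l.root _ kC1
      rw [kC2] at hD2
      obtain ⟨u, v, huv⟩ := exists_mid hl
      obtain ⟨u₀, v₀, huv₀⟩ := exists_mid (kl.trans hl)
      have hD1' : D.ok G l0.root := by rw [hl0r]; exact hD1
      have hD2' : D.root l0.root = G.start := by rw [hl0r]; exact hD2
      have hW1 : Tight (D.plug l0).yd := hsh D l0 hl0 hD1' hD2' hD3 (by omega)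
      have hW1m := hmid _ (hlang D l0 hl0 hD1' hD2')
      have hW2 : Tight (D.plug l).yd := ihl ht.2.1 hl D hD1 hD2 hD3
      have hW2m := hmid _ (hlang D l ht.2.1 hD1 hD2)
      rw [Cx.yd_plug, huv₀] at hW1 hW1m
      rw [Cx.yd_plug, huv] at hW2 hW2m
      have e3 : (C.plug (.nd A l0 r0)).yd = C.yl ++ (u₀ ++ Lt.mid :: v₀) ++ (r.yd ++ C.yr) := by
        rw [Cx.yd_plug, hry]
        simp [Tr.yd, huv₀]
      have e4 : (C.plug (.nd A l r)).yd = C.yl ++ (u ++ Lt.mid :: v) ++ (r.yd ++ C.yr) := by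
        rw [Cx.yd_plug]
        simp [Tr.yd, huv]
      rw [e3] at hW3 hW3m
      rw [e4] at hW4m ⊢
      exact four hW1m hW2m hW3m hW4m hW1 hW2 hW3
    · -- `mid` in the right child
      have hr1 : wt ψm r.yd = 1 := by omega
      have hly : l.yd = l0.yd := hside l.root _ kC1 kC2 (by rw [← e.hκ l ht.2.1]; exact hl)
        l l0 ht.2.1 hl0 rfl hl0r
      obtain ⟨D, hD1, hD2, hD3⟩ := small_ctx G r.root _ kD1
      rw [kD2] at hD2
      obtain ⟨u, v, huv⟩ := exists_mid hr1
      obtain ⟨u₀, v₀, huv₀⟩ := exists_mid (kr.trans hr1)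
      have hD1' : D.ok G r0.root := by rw [hr0r]; exact hD1
      have hD2' : D.root r0.root = G.start := by rw [hr0r]; exact hD2
      have hW1 : Tight (D.plug r0).yd := hsh D r0 hr0 hD1' hD2' hD3 (by omega)
      have hW1m := hmid _ (hlang D r0 hr0 hD1' hD2')
      have hW2 : Tight (D.plug r).yd := ihr ht.2.2 hr1 D hD1 hD2 hD3
      have hW2m := hmid _ (hlang D r ht.2.2 hD1 hD2)
      rw [Cx.yd_plug, huv₀] at hW1 hW1m
      rw [Cx.yd_plug, huv] at hW2 hW2m
      have e3 : (C.plug (.nd A l0 r0)).yd = (C.yl ++ l.yd) ++ (u₀ ++ Lt.mid :: v₀) ++ C.yr := by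
        rw [Cx.yd_plug, hly]
        simp [Tr.yd, huv₀]
      have e4 : (C.plug (.nd A l r)).yd = (C.yl ++ l.yd) ++ (u ++ Lt.mid :: v) ++ C.yr := by
        rw [Cx.yd_plug]
        simp [Tr.yd, huv]
      rw [e3] at hW3 hW3m
      rw [e4] at hW4m ⊢
      exact four hW1m hW2m hW3m hW4m hW1 hW2 hW3

end T15

theorem all_tight : Bnd (fun s N => ∀ (V : Type) (_ : Fintype V) (G : Gr V (Lt Q)) (Cc : ℕ)
    (e : Exact G Cc), Fintype.card V ≤ s → (∀ z ∈ G.lang, z.length ≤ N → Tight z) →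
    (∀ z ∈ G.lang, wt ψm z = 1) → ∀ z ∈ G.lang, Tight z) := by
  obtain ⟨b₁, hb₁, mb₁, H₁⟩ := unique_side (Q := Q)
  refine ⟨fun s => T15.bd s + b₁ s, Primrec.nat_add.comp T15.primrec_bd hb₁, ?_, ?_⟩
  · intro a b h
    exact Nat.add_le_add (T15.mono_bd h) (mb₁ h)
  intro s V iV G Cc e hV hshort hmid z hz
  beta_reduce at hshort
  have h1 := H₁ s V iV G Cc e hV (fun z hz hl => hshort z hz (by omega)) hmid
  have h2 := T15.mono_bd hV
  obtain ⟨t, ht, hr, rfl⟩ := hz
  have hm := hmid _ ⟨t, ht, hr, rfl⟩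
  exact T15.claim G Cc e h1 (fun z hz hl => hshort z hz (by omega)) hmid t ht hm .hole trivial
    (by simpa [Cx.root] using hr) (by simp [Cx.size])

end NSI
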