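import Pool.Agent.Lib.NSI.CDefs

/-!
# X1 : closure of CF under projections and inverse projections of alphabets

Recipe.  `CF_proj`: same nonterminals, leaf rules `A → f θ` (`none` if `f θ = none`).
`CF_invproj`: nonterminals `V ⊕ V ⊕ Fin 3` : `A` (as before), `A'` (one letter of `A`), `E` (a word of
erased letters), `Y` (one erased letter), `S'` (start).  Rules: `S' → S E`; `A → B C` for `G.bin A B C`;
`A → E A'`, `A' → θ` if `f θ = some x` and `G.lf A (some x)`; `A → ε` if `G.lf A none`; `E → ε`, `E → Y E`,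
`Y → θ` if `f θ = none`.  (Erased letters come before the letters, and at the end.)
-/

set_option autoImplicit false

namespace NSI

private theorem X1_filterMap_toList {Θ α : Type} (f : Θ → Option α) (o : Option Θ) :
    (o.toList).filterMap f = (o.bind f).toList := by
  cases o with
  | none => rfl
  | some θ =>
    simp only [Option.toList_some, Option.bind_some]
    cases h : f θ <;> simp [h]

/-- the projected grammar -/
private def X1_G {V Θ α : Type} (f : Θ → Option α) (G : Gr V Θ) : Gr V α where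
  start := G.start
  bin := G.bin
  lf := fun A y => ∃ o : Option Θ, G.lf A o ∧ o.bind f = y

private theorem X1_back {V Θ α : Type} (f : Θ → Option α) (G : Gr V Θ) (t : Tr V α)
    (h : t.ok (X1_G f G)) : ∃ s : Tr V Θ, s.ok G ∧ s.root = t.root ∧ s.yd.filterMap f = t.yd := by
  induction t with
  | lf A y =>
    obtain ⟨o, ho, rfl⟩ := h
    exact ⟨.lf A o, ho, rfl, X1_filterMap_toList f o⟩
  | nd A l r ihl ihr =>
    obtain ⟨h1, h2, h3⟩ := h
    obtain ⟨s1, a1, b1, c1⟩ := ihl h2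
    obtain ⟨s2, a2, b2, c2⟩ := ihr h3
    refine ⟨.nd A s1 s2, ⟨?_, a1, a2⟩, rfl, ?_⟩
    · rw [b1, b2]; exact h1
    · simp only [Tr.yd, List.filterMap_append, c1, c2]

private theorem X1_forth {V Θ α : Type} (f : Θ → Option α) (G : Gr V Θ) (s : Tr V Θ)
    (h : s.ok G) : ∃ t : Tr V α, t.ok (X1_G f G) ∧ t.root = s.root ∧ t.yd = s.yd.filterMap f := by
  induction s with
  | lf A o =>
    exact ⟨.lf A (o.bind f), ⟨o, h, rfl⟩, rfl, (X1_filterMap_toList f o).symm⟩
  | nd A l r ihl ihr =>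
    obtain ⟨h1, h2, h3⟩ := h
    obtain ⟨s1, a1, b1, c1⟩ := ihl h2
    obtain ⟨s2, a2, b2, c2⟩ := ihr h3
    refine ⟨.nd A s1 s2, ⟨?_, a1, a2⟩, rfl, ?_⟩
    · rw [b1, b2]; exact h1
    · simp only [Tr.yd, List.filterMap_append, c1, c2]

theorem CF_proj {Θ α : Type} (f : Θ → Option α) (L : Language Θ) (h : CF L) :
    CF ({y | ∃ z ∈ L, z.filterMap f = y} : Language α) := by
  obtain ⟨V, hV, G, rfl⟩ := h
  refine ⟨V, hV, X1_G f G, ?_⟩
  ext y
  constructor
  · rintro ⟨t, h1, h2, h3⟩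
    obtain ⟨s, g1, g2, g3⟩ := X1_back f G t h1
    exact ⟨s.yd, ⟨s, g1, g2.trans h2, rfl⟩, g3.trans h3⟩
  · rintro ⟨z, ⟨s, h1, h2, rfl⟩, rfl⟩
    obtain ⟨t, g1, g2, g3⟩ := X1_forth f G s h1
    exact ⟨t, g1, g2.trans h2, g3⟩

/-! ### inverse projection -/

private abbrev X1_N (V : Type) : Type := V ⊕ V ⊕ Fin 3

private def X1_a {V : Type} (A : V) : X1_N V := Sum.inl A
private def X1_b {V : Type} (A : V) : X1_N V := Sum.inr (Sum.inl A)
private def X1_E {V : Type} : X1_N V := Sum.inr (Sum.inr 0)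
private def X1_Y {V : Type} : X1_N V := Sum.inr (Sum.inr 1)
private def X1_S {V : Type} : X1_N V := Sum.inr (Sum.inr 2)

/-- binary rules -/
private inductive X1_bin {V α : Type} (G : Gr V α) : X1_N V → X1_N V → X1_N V → Prop
  | st : X1_bin G X1_S (X1_a G.start) X1_E
  | bn {A B C : V} : G.bin A B C → X1_bin G (X1_a A) (X1_a B) (X1_a C)
  | lt (A : V) : X1_bin G (X1_a A) X1_E (X1_b A)
  | er : X1_bin G X1_E X1_Y X1_E

/-- leaf rules -/
private inductive X1_lf {V Θ α : Type} (f : Θ → Option α) (G : Gr V α) :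
    X1_N V → Option Θ → Prop
  | an {A : V} : G.lf A none → X1_lf f G (X1_a A) none
  | bs {A : V} {θ : Θ} {x : α} : f θ = some x → G.lf A (some x) → X1_lf f G (X1_b A) (some θ)
  | en : X1_lf f G X1_E none
  | ys {θ : Θ} : f θ = none → X1_lf f G X1_Y (some θ)

private def X1_H {V Θ α : Type} (f : Θ → Option α) (G : Gr V α) : Gr (X1_N V) Θ where
  start := X1_S
  bin := X1_bin G
  lf := X1_lf f G

private theorem X1_sound {V Θ α : Type} (f : Θ → Option α) (G : Gr V α) (t : Tr (X1_N V) Θ)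
    (h : t.ok (X1_H f G)) :
    (t.root = X1_E → t.yd.filterMap f = []) ∧
    (t.root = X1_Y → t.yd.filterMap f = []) ∧
    (∀ A, t.root = X1_b A → ∃ x, t.yd.filterMap f = [x] ∧ G.lf A (some x)) ∧
    (∀ A, t.root = X1_a A → ∃ s : Tr V α, s.ok G ∧ s.root = A ∧ s.yd = t.yd.filterMap f) ∧
    (t.root = X1_S → ∃ s : Tr V α, s.ok G ∧ s.root = G.start ∧ s.yd = t.yd.filterMap f) := by
  induction t with
  | lf A o =>
    have h' : X1_lf f G A o := h
    cases h' with
    | an h1 =>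
      refine ⟨?_, ?_, ?_, ?_, ?_⟩
      · intro h2; simp [Tr.root, X1_a, X1_E] at h2
      · intro h2; simp [Tr.root, X1_a, X1_Y] at h2
      · intro A h2; simp [Tr.root, X1_a, X1_b] at h2
      · rintro B h2
        simp only [Tr.root, X1_a, Sum.inl.injEq] at h2
        subst h2
        exact ⟨.lf _ none, h1, rfl, by simp [Tr.yd]⟩
      · intro h2; simp [Tr.root, X1_a, X1_S] at h2
    | @bs B θ x h1 h3 =>
      refine ⟨?_, ?_, ?_, ?_, ?_⟩
      · intro h2; simp [Tr.root, X1_b, X1_E] at h2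
      · intro h2; simp [Tr.root, X1_b, X1_Y] at h2
      · intro C h2
        simp only [Tr.root, X1_b, Sum.inr.injEq, Sum.inl.injEq] at h2
        subst h2
        exact ⟨x, by simp [Tr.yd, h1], h3⟩
      · intro C h2; simp [Tr.root, X1_b, X1_a] at h2
      · intro h2; simp [Tr.root, X1_b, X1_S] at h2
    | en =>
      refine ⟨?_, ?_, ?_, ?_, ?_⟩
      · intro h2; simp [Tr.yd]
      · intro h2; simp [Tr.yd]
      · intro C h2; simp [Tr.root, X1_b, X1_E] at h2
      · intro C h2; simp [Tr.root, X1_E, X1_a] at h2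
      · intro h2; simp [Tr.root, X1_E, X1_S] at h2
    | @ys θ h1 =>
      refine ⟨?_, ?_, ?_, ?_, ?_⟩
      · intro h2; simp [Tr.root, X1_Y, X1_E] at h2
      · intro h2; simp [Tr.yd, h1]
      · intro C h2; simp [Tr.root, X1_b, X1_Y] at h2
      · intro C h2; simp [Tr.root, X1_Y, X1_a] at h2
      · intro h2; simp [Tr.root, X1_Y, X1_S] at h2
  | nd A l r ihl ihr =>
    obtain ⟨h1, h2, h3⟩ := h
    obtain ⟨l1, l2, l3, l4, l5⟩ := ihl h2
    obtain ⟨r1, r2, r3, r4, r5⟩ := ihr h3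
    have h1' : X1_bin G A l.root r.root := h1
    clear h1 ihl ihr
    generalize hl : l.root = rl at *
    generalize hr : r.root = rr at *
    cases h1' with
    | st =>
      refine ⟨?_, ?_, ?_, ?_, ?_⟩
      · intro h2; simp [Tr.root, X1_S, X1_E] at h2
      · intro h2; simp [Tr.root, X1_S, X1_Y] at h2
      · intro C h2; simp [Tr.root, X1_b, X1_S] at h2
      · intro C h2; simp [Tr.root, X1_S, X1_a] at h2
      · intro _
        obtain ⟨s, s1, s2, s3⟩ := l4 _ rfl
        refine ⟨s, s1, s2, ?_⟩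
        simp only [Tr.yd, List.filterMap_append, s3, r1 rfl, List.append_nil]
    | @bn A B C hb =>
      refine ⟨?_, ?_, ?_, ?_, ?_⟩
      · intro h2; simp [Tr.root, X1_a, X1_E] at h2
      · intro h2; simp [Tr.root, X1_a, X1_Y] at h2
      · intro D h2; simp [Tr.root, X1_b, X1_a] at h2
      · intro D h2
        simp only [Tr.root, X1_a, Sum.inl.injEq] at h2
        subst h2
        obtain ⟨s, s1, s2, s3⟩ := l4 _ rfl
        obtain ⟨u, u1, u2, u3⟩ := r4 _ rfl
        refine ⟨.nd _ s u, ⟨?_, s1, u1⟩, rfl, ?_⟩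
        · rw [s2, u2]; exact hb
        · simp only [Tr.yd, List.filterMap_append, s3, u3]
      · intro h2; simp [Tr.root, X1_a, X1_S] at h2
    | lt A =>
      refine ⟨?_, ?_, ?_, ?_, ?_⟩
      · intro h2; simp [Tr.root, X1_a, X1_E] at h2
      · intro h2; simp [Tr.root, X1_a, X1_Y] at h2
      · intro D h2; simp [Tr.root, X1_b, X1_a] at h2
      · intro D h2
        simp only [Tr.root, X1_a, Sum.inl.injEq] at h2
        subst h2
        obtain ⟨x, x1, x2⟩ := r3 _ rfl
        refine ⟨.lf _ (some x), x2, rfl, ?_⟩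
        simp only [Tr.yd, List.filterMap_append, x1, l1 rfl, List.nil_append, Option.toList_some]
      · intro h2; simp [Tr.root, X1_a, X1_S] at h2
    | er =>
      refine ⟨?_, ?_, ?_, ?_, ?_⟩
      · intro h2
        simp only [Tr.yd, List.filterMap_append, l2 rfl, r1 rfl, List.append_nil]
      · intro h2; simp [Tr.root, X1_Y, X1_E] at h2
      · intro C h2; simp [Tr.root, X1_b, X1_E] at h2
      · intro C h2; simp [Tr.root, X1_E, X1_a] at h2
      · intro h2; simp [Tr.root, X1_E, X1_S] at h2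

private theorem X1_treeE {V Θ α : Type} (f : Θ → Option α) (G : Gr V α) (e : List Θ)
    (he : e.filterMap f = []) :
    ∃ t : Tr (X1_N V) Θ, t.ok (X1_H f G) ∧ t.root = X1_E ∧ t.yd = e := by
  induction e with
  | nil => exact ⟨.lf X1_E none, X1_lf.en, rfl, rfl⟩
  | cons θ e ih =>
    have h0 : f θ = none := by
      cases h : f θ with
      | none => rfl
      | some x => simp [h] at he
    have h1 : e.filterMap f = [] := by simpa [List.filterMap_cons, h0] using he
    obtain ⟨t, t1, t2, t3⟩ := ih h1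
    refine ⟨.nd X1_E (.lf X1_Y (some θ)) t, ⟨?_, X1_lf.ys h0, t1⟩, rfl, ?_⟩
    · rw [t2]; exact X1_bin.er
    · simp [Tr.yd, t3]

private theorem X1_compl {V Θ α : Type} (f : Θ → Option α) (G : Gr V α) (s : Tr V α)
    (h : s.ok G) : ∀ z : List Θ, z.filterMap f = s.yd →
      ∃ (z1 e : List Θ) (t : Tr (X1_N V) Θ), z = z1 ++ e ∧ e.filterMap f = [] ∧
        t.ok (X1_H f G) ∧ t.root = X1_a s.root ∧ t.yd = z1 := by
  induction s with
  | lf A o =>
    intro z hz
    cases o with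
    | none =>
      refine ⟨[], z, .lf (X1_a A) none, rfl, by simpa [Tr.yd] using hz, X1_lf.an h, rfl, rfl⟩
    | some x =>
      have hz' : z.filterMap f = [x] := by simpa [Tr.yd] using hz
      rw [List.filterMap_eq_cons_iff] at hz'
      obtain ⟨l₁, θ, l₂, rfl, h1, h2, h3⟩ := hz'
      have he : l₁.filterMap f = [] := by
        rw [List.filterMap_eq_nil_iff]; exact h1
      obtain ⟨t, t1, t2, t3⟩ := X1_treeE f G l₁ he
      refine ⟨l₁ ++ [θ], l₂, .nd (X1_a A) t (.lf (X1_b A) (some θ)), by simp, h3,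
        ⟨?_, t1, X1_lf.bs h2 h⟩, rfl, by simp [Tr.yd, t3]⟩
      rw [t2]
      exact X1_bin.lt A
  | nd A l r ihl ihr =>
    intro z hz
    obtain ⟨h1, h2, h3⟩ := h
    simp only [Tr.yd] at hz
    rw [List.filterMap_eq_append_iff] at hz
    obtain ⟨z', z'', rfl, g1, g2⟩ := hz
    obtain ⟨z1, e1, t1, rfl, a2, a3, a4, a5⟩ := ihl h2 z' g1
    obtain ⟨z2, e2, t2, b1, b2, b3, b4, b5⟩ := ihr h3 (e1 ++ z'') (by
      rw [List.filterMap_append, a2, g2, List.nil_append])
    refine ⟨z1 ++ z2, e2, .nd (X1_a A) t1 t2, ?_, b2, ⟨?_, a3, b3⟩, rfl, ?_⟩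
    · rw [List.append_assoc, b1, List.append_assoc]
    · rw [a4, b4]; exact X1_bin.bn h1
    · simp only [Tr.yd, a5, b5]

theorem CF_invproj {Θ α : Type} (f : Θ → Option α) (L : Language α) (h : CF L) :
    CF ({z | z.filterMap f ∈ L} : Language Θ) := by
  obtain ⟨V, hV, G, rfl⟩ := h
  refine ⟨X1_N V, inferInstance, X1_H f G, ?_⟩
  ext z
  constructor
  · rintro ⟨t, h1, h2, rfl⟩
    obtain ⟨s, s1, s2, s3⟩ := (X1_sound f G t h1).2.2.2.2 h2
    exact ⟨s, s1, s2, s3⟩
  · rintro ⟨s, s1, s2, s3⟩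
    obtain ⟨z1, e, t, rfl, a2, a3, a4, a5⟩ := X1_compl f G s s1 z s3.symm
    obtain ⟨t', b1, b2, b3⟩ := X1_treeE f G e a2
    refine ⟨.nd X1_S t t', ⟨?_, a3, b1⟩, rfl, ?_⟩
    · rw [a4, b2, s2]; exact X1_bin.st
    · simp only [Tr.yd, a5, b3]

end NSI
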