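import Pool.Agent.Lib.NSI.X1
import Pool.Agent.Lib.NSI.C11

/-!
# X2 : the language of the accepting paths of a coded transducer with input in `A`

`Th σ` = the transitions as letters; `Hl σ A` = accepting paths from state `0` to state `1` whose
input is in `A`.

Recipe.  `CF_H`: `CF_invproj` and `CF_inter` with a DFA that follows the current state (finitely many
states occur in `σ`, plus a failure state).  `H_rel`: runs and paths.
`H_strict`: if all `x p^k y q^k z` are paths then (`k = 1, 2`) `p` and `q` are closed paths at their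
places (or empty), so every `x p^k y q^l z` is an accepting path; its input is
`in(x) in(p)^k in(y) in(q)^l in(z)`.  So this input word is in `A` iff `x p^k y q^l z ∈ Hl` iff `k = l`.
-/

set_option autoImplicit false

namespace NSI

/-- the transitions as letters -/
abbrev Th (σ : TC) : Type := {t : ℕ × Option ℕ × Option ℕ × ℕ // t ∈ σ}

/-- input letter -/
def inL {σ : TC} (t : Th σ) : Option ℕ := t.1.2.1

/-- output letter -/
def outL {σ : TC} (t : Th σ) : Option ℕ := t.1.2.2.1

/-- paths -/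
inductive IsPath {σ : TC} : ℕ → List (Th σ) → ℕ → Prop
  | nil (p : ℕ) : IsPath p [] p
  | cons {p r : ℕ} (t : Th σ) {z : List (Th σ)} : t.1.1 = p → IsPath t.1.2.2.2 z r →
      IsPath p (t :: z) r

/-- accepting paths with input in `A` -/
def Hl (σ : TC) (A : Language ℕ) : Language (Th σ) :=
  {z | IsPath 0 z 1 ∧ z.filterMap inL ∈ A}

private theorem X2_nil_iff {σ : TC} (p q : ℕ) : IsPath p ([] : List (Th σ)) q ↔ p = q := by
  constructor
  · intro h; cases h; rfl
  · rintro rfl; exact IsPath.nil p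

private theorem X2_cons_iff {σ : TC} (p q : ℕ) (t : Th σ) (z : List (Th σ)) :
    IsPath p (t :: z) q ↔ t.1.1 = p ∧ IsPath t.1.2.2.2 z q := by
  constructor
  · intro h
    cases h with
    | cons t h1 h2 => exact ⟨h1, h2⟩
  · rintro ⟨h1, h2⟩
    exact IsPath.cons t h1 h2

private theorem X2_app {σ : TC} (u v : List (Th σ)) (p r : ℕ) :
    IsPath p (u ++ v) r ↔ ∃ q, IsPath p u q ∧ IsPath q v r := by
  induction u generalizing p with
  | nil =>
    simp only [List.nil_append, X2_nil_iff]
    constructor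
    · intro h; exact ⟨p, rfl, h⟩
    · rintro ⟨q, rfl, h⟩; exact h
  | cons t u ih =>
    simp only [List.cons_append, X2_cons_iff, ih]
    constructor
    · rintro ⟨h1, q, h2, h3⟩; exact ⟨q, ⟨h1, h2⟩, h3⟩
    · rintro ⟨q, ⟨h1, h2⟩, h3⟩; exact ⟨h1, q, h2, h3⟩

private theorem X2_det {σ : TC} (w : List (Th σ)) (p q r : ℕ) (h : IsPath p w q)
    (h' : IsPath p w r) : q = r := by
  induction w generalizing p with
  | nil =>
    rw [X2_nil_iff] at h h'
    exact h.symm.trans h'
  | cons t w ih =>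
    rw [X2_cons_iff] at h h'
    exact ih _ h.2 h'.2

private theorem X2_loop {σ : TC} (w : List (Th σ)) (a b c : ℕ) (h : IsPath a w b)
    (h' : IsPath b w c) : a = b ∧ b = c := by
  cases w with
  | nil =>
    rw [X2_nil_iff] at h h'
    exact ⟨h, h'⟩
  | cons t w =>
    have h0 := h
    have h0' := h'
    rw [X2_cons_iff] at h h'
    have e : a = b := h.1.symm.trans h'.1
    subst e
    exact ⟨rfl, X2_det _ _ _ _ h0 h0'⟩

private theorem X2_pw {σ : TC} (w : List (Th σ)) (a : ℕ) (h : IsPath a w a) (n : ℕ) :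
    IsPath a (pw w n) a := by
  induction n with
  | zero => rw [pw_zero]; exact IsPath.nil a
  | succ n ih =>
    rw [pw_succ, X2_app]
    exact ⟨a, h, ih⟩

private theorem X2_fm_pw {α β : Type} (f : α → Option β) (w : List α) (n : ℕ) :
    (pw w n).filterMap f = pw (w.filterMap f) n := by
  induction n with
  | zero => simp
  | succ n ih => rw [pw_succ, pw_succ, List.filterMap_append, ih]

/-! ### the automaton -/

private def X2_S (σ : TC) : Finset ℕ := insert 0 (σ.map (fun t => t.2.2.2)).toFinset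

private theorem X2_mem {σ : TC} (t : Th σ) : t.1.2.2.2 ∈ X2_S σ := by
  simp only [X2_S, Finset.mem_insert, List.mem_toFinset, List.mem_map]
  exact Or.inr ⟨t.1, t.2, rfl⟩

private def X2_D (σ : TC) : DFA (Th σ) (Option {n // n ∈ X2_S σ}) where
  step := fun s t => match s with
    | none => none
    | some p => if t.1.1 = p.1 then some ⟨t.1.2.2.2, X2_mem t⟩ else none
  start := some ⟨0, by simp [X2_S]⟩
  accept := {s | ∃ p, s = some p ∧ p.1 = 1}

private theorem X2_none (σ : TC) (z : List (Th σ)) : (X2_D σ).evalFrom none z = none := by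
  induction z with
  | nil => rfl
  | cons t z ih => exact ih

private theorem X2_eval (σ : TC) (z : List (Th σ)) (p : {n // n ∈ X2_S σ}) (r : ℕ) :
    (∃ q : {n // n ∈ X2_S σ}, (X2_D σ).evalFrom (some p) z = some q ∧ q.1 = r) ↔
      IsPath p.1 z r := by
  induction z generalizing p with
  | nil =>
    rw [X2_nil_iff]
    constructor
    · rintro ⟨q, h1, h2⟩
      have h1' : some p = some q := h1
      cases h1'
      exact h2
    · rintro h
      exact ⟨p, rfl, h⟩
  | cons t z ih =>
    rw [X2_cons_iff, ← ih ⟨t.1.2.2.2, X2_mem t⟩]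
    have e : (X2_D σ).evalFrom (some p) (t :: z) =
        (X2_D σ).evalFrom (if t.1.1 = p.1 then some ⟨t.1.2.2.2, X2_mem t⟩ else none) z := rfl
    rw [e]
    by_cases hp : t.1.1 = p.1
    · rw [if_pos hp]
      constructor
      · intro h; exact ⟨hp, h⟩
      · intro h; exact h.2
    · rw [if_neg hp, X2_none]
      constructor
      · rintro ⟨q, h1, _⟩; cases h1
      · rintro ⟨h1, _⟩; exact absurd h1 hp

theorem CF_H (σ : TC) (A : Language ℕ) (h : CF A) : CF (Hl σ A) := by
  have h1 := CF_inter (X2_D σ) _ (CF_invproj (inL (σ := σ)) A h)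
  have e : Hl σ A = ({z | z ∈ ({z | z.filterMap inL ∈ A} : Language (Th σ)) ∧
      z ∈ (X2_D σ).accepts} : Language (Th σ)) := by
    ext z
    have h2 : z ∈ (X2_D σ).accepts ↔ IsPath 0 z 1 := by
      rw [DFA.mem_accepts]
      exact X2_eval σ z ⟨0, by simp [X2_S]⟩ 1
    constructor
    · rintro ⟨h3, h4⟩
      exact ⟨h4, h2.2 h3⟩
    · rintro ⟨h3, h4⟩
      exact ⟨h2.1 h4, h3⟩
  rw [e]
  exact h1

/-! ### runs and paths -/

private theorem X2_fm_cons {α β : Type} (f : α → Option β) (t : α) (z : List α) :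
    (t :: z).filterMap f = (f t).toList ++ z.filterMap f := by
  cases h : f t <;> simp [h]

private theorem X2_run {σ : TC} {p q : ℕ} {x y : List ℕ} (h : TRun σ p x y q) :
    ∃ z : List (Th σ), IsPath p z q ∧ z.filterMap inL = x ∧ z.filterMap outL = y := by
  induction h with
  | nil p => exact ⟨[], IsPath.nil p, rfl, rfl⟩
  | @step p q r x y u v h1 _ ih =>
    obtain ⟨z, z1, z2, z3⟩ := ih
    refine ⟨⟨(p, x, y, q), h1⟩ :: z, IsPath.cons _ rfl z1, ?_, ?_⟩
    · rw [X2_fm_cons, z2]; rfl
    · rw [X2_fm_cons, z3]; rfl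

private theorem X2_path {σ : TC} {p q : ℕ} {z : List (Th σ)} (h : IsPath p z q) :
    TRun σ p (z.filterMap inL) (z.filterMap outL) q := by
  induction h with
  | nil p => exact TRun.nil p
  | @cons p r t z h1 _ ih =>
    rw [X2_fm_cons, X2_fm_cons]
    subst h1
    exact TRun.step t.2 ih

theorem H_rel (σ : TC) (A : Language ℕ) (y : List ℕ) :
    (∃ x ∈ A, TRel σ x y) ↔ ∃ z ∈ Hl σ A, z.filterMap outL = y := by
  constructor
  · rintro ⟨x, hx, h⟩
    obtain ⟨z, z1, z2, z3⟩ := X2_run h
    refine ⟨z, ⟨z1, ?_⟩, z3⟩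
    rw [z2]; exact hx
  · rintro ⟨z, ⟨z1, z2⟩, rfl⟩
    exact ⟨_, z2, X2_path z1⟩

theorem H_strict (σ : TC) (A : Language ℕ) (x p y q z : List (Th σ))
    (h : StrictPair (Hl σ A) x p y q z) :
    StrictPair A (x.filterMap inL) (p.filterMap inL) (y.filterMap inL) (q.filterMap inL)
      (z.filterMap inL) := by
  have h2 : IsPath 0 (x ++ pw p 2 ++ y ++ pw q 2 ++ z) 1 := ((h 2 2).2 rfl).1
  simp only [pw_succ, pw_zero, List.append_nil, X2_app] at h2
  obtain ⟨f, ⟨d, ⟨c, ⟨a, hx, b, hp1, hp2⟩, hy⟩, e, hq1, hq2⟩, hz⟩ := h2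
  obtain ⟨rfl, rfl⟩ := X2_loop _ _ _ _ hp1 hp2
  obtain ⟨rfl, rfl⟩ := X2_loop _ _ _ _ hq1 hq2
  intro n m
  have h3 : IsPath 0 (x ++ pw p n ++ y ++ pw q m ++ z) 1 := by
    simp only [X2_app]
    exact ⟨_, ⟨_, ⟨_, ⟨_, hx, X2_pw _ _ hp1 n⟩, hy⟩, X2_pw _ _ hq1 m⟩, hz⟩
  rw [← h n m]
  have e : (x ++ pw p n ++ y ++ pw q m ++ z).filterMap inL =
      x.filterMap inL ++ pw (p.filterMap inL) n ++ y.filterMap inL ++ pw (q.filterMap inL) m ++
        z.filterMap inL := by
    simp only [List.filterMap_append, X2_fm_pw]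
  constructor
  · intro h4
    refine ⟨h3, ?_⟩
    rw [e]; exact h4
  · rintro ⟨_, h4⟩
    rw [e] at h4; exact h4

end NSI
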