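import Pool.Agent.Lib.NSI.CDefs

/-!
# X3 : a strict pair of a projection comes from a strict pair

Recipe.  Let `B = {g(z) : z ∈ H}`, `W n m = a u^n b v^m c`, so `W n m ∈ B` iff `n = m`; `u, v ≠ []`
(otherwise `W 0 1 = W 1 1` or `W 1 0 = W 1 1`).  Assign to a gap (prefix length) `i` of the word
`W n n` its location: `(0, i)` if `i < |a|`; `(1, (i - |a|) % |u|)` if `|a| ≤ i < |a| + n|u|`; `(2, ·)`
inside `b`; `(3, (·) % |v|)` inside `v^n`; `(4, ·)` inside `c`, end included.  Finitely many locations,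
independent of `n`: let `Λ` be their number.  If two gaps `i1 ≤ i2` have the same location then
`i1 = i2` (parts 0, 2, 4) or the word between them is conjugate to `u^r` (`v^r`) and repeating it `k`
times instead of once changes `W n n` into `W (n + (k - 1) r) n` (resp. `W n (n + (k - 1) r)`).
Let `G` be a grammar of `H` with nonterminals `V`, and take `n = 2 ^ (card V * Λ * Λ + 2)`.  Among the
ok trees with root `start` and `g(yield) = W n n` take one, `t`, of minimal size; its yield has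
length `≥ |W n n| ≥ n`, so its height is `≥ card V * Λ * Λ + 1` and on a path two nodes have the same
nonterminal and the same locations of the left and of the right end (in the image):
`t = c.plug (d.plug s)`, `d ≠ hole`.  With `X, P, Y, Q, Z` the images of `c.yl, d.yl, s.yd, d.yr, c.yr`:
`P = Q = []` is impossible by minimality.  `P` is in part 1 (`r` copies, `r ≥ 0`) or in part 3, same for
`Q`; `X P^k Y Q^k Z ∈ B` for `k = 2`.  If both are in part 1 (or `Q` empty and `P` in part 1) then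
`W (n + r + r') n ∈ B`, contradiction; same if both in part 3.  So `P` is in part 1, `Q` in part 3,
`X P^k Y Q^l Z = W (n + (k-1) r) (n + (l-1) r')`, `r = r' ≥ 1`.  The pair
`(c.yl, d.yl, s.yd, d.yr, c.yr)` of `H` is strict.
-/

set_option autoImplicit false

namespace NSI

namespace X3

/-- states of the automaton of `a u⁺ b v⁺ c`: the part and the rest of the word to be read -/
inductive SS (β : Type) : Type
  | A (s : List β) : SS β
  | B (s : List β) : SS β
  | C (s : List β) : SS β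

def SS.part {β : Type} : SS β → ℕ
  | .A _ => 0
  | .B _ => 1
  | .C _ => 2

def SS.rem {β : Type} : SS β → List β
  | .A s => s
  | .B s => s
  | .C s => s

section

variable {β : Type} (a u b v c : List β)

/-- runs, with the numbers of loops -/
inductive Pt : SS β → List β → SS β → ℕ → ℕ → Prop
  | nil (q : SS β) : Pt q [] q 0 0
  | rdA {x : β} {s w : List β} {q : SS β} {n m : ℕ} :
      Pt (.A s) w q n m → Pt (.A (x :: s)) (x :: w) q n m
  | rdB {x : β} {s w : List β} {q : SS β} {n m : ℕ} :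
      Pt (.B s) w q n m → Pt (.B (x :: s)) (x :: w) q n m
  | rdC {x : β} {s w : List β} {q : SS β} {n m : ℕ} :
      Pt (.C s) w q n m → Pt (.C (x :: s)) (x :: w) q n m
  | lp1 {w : List β} {q : SS β} {n m : ℕ} : Pt (.A u) w q n m → Pt (.A []) w q (n + 1) m
  | lp2 {w : List β} {q : SS β} {n m : ℕ} : Pt (.B v) w q n m → Pt (.B []) w q n (m + 1)
  | ab {w : List β} {q : SS β} {n m : ℕ} : Pt (.B (b ++ v)) w q n m → Pt (.A []) w q n m
  | bc {w : List β} {q : SS β} {n m : ℕ} : Pt (.C c) w q n m → Pt (.B []) w q n m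

variable {a u b v c}

theorem Pt.comp {q q' q'' : SS β} {w w' : List β} {n m n' m' : ℕ}
    (h : Pt u b v c q w q' n m) (h' : Pt u b v c q' w' q'' n' m') :
    Pt u b v c q (w ++ w') q'' (n + n') (m + m') := by
  induction h with
  | nil q => simpa using h'
  | rdA _ ih => exact .rdA (ih h')
  | rdB _ ih => exact .rdB (ih h')
  | rdC _ ih => exact .rdC (ih h')
  | lp1 _ ih =>
    rw [Nat.add_right_comm]
    exact .lp1 (ih h')
  | lp2 _ ih =>
    rw [Nat.add_right_comm _ 1 m']
    exact .lp2 (ih h')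
  | ab _ ih => exact .ab (ih h')
  | bc _ ih => exact .bc (ih h')

theorem Pt.split {q q' : SS β} {w : List β} {n m : ℕ} (h : Pt u b v c q w q' n m) :
    ∀ w₁ w₂ : List β, w = w₁ ++ w₂ → ∃ (p : SS β) (n₁ m₁ n₂ m₂ : ℕ),
      Pt u b v c q w₁ p n₁ m₁ ∧ Pt u b v c p w₂ q' n₂ m₂ ∧ n = n₁ + n₂ ∧ m = m₁ + m₂ := by
  induction h with
  | nil q =>
    intro w₁ w₂ hw
    obtain ⟨rfl, rfl⟩ := List.append_eq_nil_iff.1 hw.symm
    exact ⟨q, 0, 0, 0, 0, .nil q, .nil q, rfl, rfl⟩
  | @rdA x s w q n m h ih =>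
    intro w₁ w₂ hw
    cases w₁ with
    | nil => exact ⟨_, 0, 0, n, m, .nil _, by rw [← List.nil_append w₂, ← hw]; exact .rdA h,
        by omega, by omega⟩
    | cons y w₁ =>
      rw [List.cons_append, List.cons.injEq] at hw
      obtain ⟨rfl, hw⟩ := hw
      obtain ⟨p, n₁, m₁, n₂, m₂, h1, h2, h3, h4⟩ := ih w₁ w₂ hw
      exact ⟨p, n₁, m₁, n₂, m₂, .rdA h1, h2, h3, h4⟩
  | @rdB x s w q n m h ih =>
    intro w₁ w₂ hw
    cases w₁ with
    | nil => exact ⟨_, 0, 0, n, m, .nil _, by rw [← List.nil_append w₂, ← hw]; exact .rdB h,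
        by omega, by omega⟩
    | cons y w₁ =>
      rw [List.cons_append, List.cons.injEq] at hw
      obtain ⟨rfl, hw⟩ := hw
      obtain ⟨p, n₁, m₁, n₂, m₂, h1, h2, h3, h4⟩ := ih w₁ w₂ hw
      exact ⟨p, n₁, m₁, n₂, m₂, .rdB h1, h2, h3, h4⟩
  | @rdC x s w q n m h ih =>
    intro w₁ w₂ hw
    cases w₁ with
    | nil => exact ⟨_, 0, 0, n, m, .nil _, by rw [← List.nil_append w₂, ← hw]; exact .rdC h,
        by omega, by omega⟩
    | cons y w₁ =>
      rw [List.cons_append, List.cons.injEq] at hw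
      obtain ⟨rfl, hw⟩ := hw
      obtain ⟨p, n₁, m₁, n₂, m₂, h1, h2, h3, h4⟩ := ih w₁ w₂ hw
      exact ⟨p, n₁, m₁, n₂, m₂, .rdC h1, h2, h3, h4⟩
  | lp1 _ ih =>
    intro w₁ w₂ hw
    obtain ⟨p, n₁, m₁, n₂, m₂, h1, h2, h3, h4⟩ := ih w₁ w₂ hw
    exact ⟨p, n₁ + 1, m₁, n₂, m₂, .lp1 h1, h2, by omega, h4⟩
  | lp2 _ ih =>
    intro w₁ w₂ hw
    obtain ⟨p, n₁, m₁, n₂, m₂, h1, h2, h3, h4⟩ := ih w₁ w₂ hw
    exact ⟨p, n₁, m₁ + 1, n₂, m₂, .lp2 h1, h2, h3, by omega⟩
  | ab _ ih =>
    intro w₁ w₂ hw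
    obtain ⟨p, n₁, m₁, n₂, m₂, h1, h2, h3, h4⟩ := ih w₁ w₂ hw
    exact ⟨p, n₁, m₁, n₂, m₂, .ab h1, h2, h3, h4⟩
  | bc _ ih =>
    intro w₁ w₂ hw
    obtain ⟨p, n₁, m₁, n₂, m₂, h1, h2, h3, h4⟩ := ih w₁ w₂ hw
    exact ⟨p, n₁, m₁, n₂, m₂, .bc h1, h2, h3, h4⟩

theorem Pt.pow {q : SS β} {w : List β} {n m : ℕ} (h : Pt u b v c q w q n m) (k : ℕ) :
    Pt u b v c q (pw w k) q (k * n) (k * m) := by
  induction k with
  | zero => simpa using Pt.nil q
  | succ k ih =>
    rw [pw_succ', Nat.succ_mul, Nat.succ_mul]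
    exact ih.comp h

theorem Pt.part_le {q q' : SS β} {w : List β} {n m : ℕ} (h : Pt u b v c q w q' n m) :
    q.part ≤ q'.part := by
  induction h with
  | nil q => exact le_rfl
  | rdA _ ih => exact ih
  | rdB _ ih => exact ih
  | rdC _ ih => exact ih
  | lp1 _ ih => exact ih
  | lp2 _ ih => exact ih
  | ab _ ih => exact Nat.zero_le _
  | bc _ ih =>
    have h1 : 2 ≤ SS.part _ := ih
    have h2 : (SS.B ([] : List β)).part = 1 := rfl
    omega

theorem Pt.pos1 {q q' : SS β} {w : List β} {n m : ℕ} (h : Pt u b v c q w q' n m) :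
    0 < n → q.part = 0 := by
  induction h with
  | nil q => intro h; omega
  | rdA _ ih => intro _; rfl
  | rdB _ ih => exact ih
  | rdC _ ih => exact ih
  | lp1 _ ih => intro _; rfl
  | lp2 _ ih => exact ih
  | ab _ ih => intro _; rfl
  | bc _ ih =>
    intro h
    have h1 : (2 : ℕ) = 0 := ih h
    omega

theorem Pt.pos2 {q q' : SS β} {w : List β} {n m : ℕ} (h : Pt u b v c q w q' n m) :
    0 < m → 1 ≤ q'.part := by
  induction h with
  | nil q => intro h; omega
  | rdA _ ih => exact ih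
  | rdB _ ih => exact ih
  | rdC _ ih => exact ih
  | lp1 _ ih => exact ih
  | lp2 h ih => intro _; exact h.part_le
  | ab _ ih => exact ih
  | bc _ ih => exact ih

theorem Pt.zero {q q' : SS β} {w : List β} {n m : ℕ} (h : Pt u b v c q w q' n m) :
    n = 0 → m = 0 → q.part = q'.part → q.rem = w ++ q'.rem := by
  induction h with
  | nil q => intro _ _ _; rfl
  | @rdA x s w q n m _ ih =>
    intro h1 h2 h3
    have h4 : s = w ++ q.rem := ih h1 h2 h3
    show x :: s = x :: w ++ q.rem
    rw [List.cons_append, ← h4]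
  | @rdB x s w q n m _ ih =>
    intro h1 h2 h3
    have h4 : s = w ++ q.rem := ih h1 h2 h3
    show x :: s = x :: w ++ q.rem
    rw [List.cons_append, ← h4]
  | @rdC x s w q n m _ ih =>
    intro h1 h2 h3
    have h4 : s = w ++ q.rem := ih h1 h2 h3
    show x :: s = x :: w ++ q.rem
    rw [List.cons_append, ← h4]
  | lp1 _ ih => intro h; omega
  | lp2 _ ih => intro _ h; omega
  | ab h ih =>
    intro _ _ h3
    have h4 : 1 ≤ SS.part _ := h.part_le
    have h5 : (0 : ℕ) = SS.part _ := h3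
    omega
  | bc h ih =>
    intro _ _ h3
    have h4 : 2 ≤ SS.part _ := h.part_le
    have h5 : (1 : ℕ) = SS.part _ := h3
    omega

/-- the word read from a state to the final state -/
def res (u b v c : List β) (n m : ℕ) : SS β → List β
  | .A s => s ++ pw u n ++ (b ++ v) ++ pw v m ++ c
  | .B s => s ++ pw v m ++ c
  | .C s => s

theorem Pt.sound {q q' : SS β} {w : List β} {n m : ℕ} (h : Pt u b v c q w q' n m) :
    q' = .C [] → (0 < q.part → n = 0) ∧ (1 < q.part → m = 0) ∧ w = res u b v c n m q := by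
  induction h with
  | nil q =>
    rintro rfl
    exact ⟨fun _ => rfl, fun _ => rfl, rfl⟩
  | rdA _ ih =>
    intro h
    obtain ⟨h1, h2, h3⟩ := ih h
    refine ⟨h1, h2, ?_⟩
    rw [h3]
    simp [res]
  | rdB _ ih =>
    intro h
    obtain ⟨h1, h2, h3⟩ := ih h
    refine ⟨h1, h2, ?_⟩
    rw [h3]
    simp [res]
  | rdC _ ih =>
    intro h
    obtain ⟨h1, h2, h3⟩ := ih h
    refine ⟨h1, h2, ?_⟩
    rw [h3]
    simp [res]
  | lp1 _ ih =>
    intro h
    obtain ⟨h1, h2, h3⟩ := ih h
    refine ⟨fun h => absurd h (lt_irrefl 0), fun h => absurd (show (1 : ℕ) < 0 from h) (by omega), ?_⟩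
    rw [h3]
    simp [res, pw_succ]
  | lp2 _ ih =>
    intro h
    obtain ⟨h1, h2, h3⟩ := ih h
    refine ⟨h1, fun h => absurd h (lt_irrefl 1), ?_⟩
    rw [h3]
    simp [res, pw_succ]
  | ab _ ih =>
    intro h
    obtain ⟨h1, h2, h3⟩ := ih h
    refine ⟨fun h => absurd h (lt_irrefl 0), fun h => absurd (show (1 : ℕ) < 0 from h) (by omega), ?_⟩
    have h4 := h1 Nat.one_pos
    rw [h3, h4]
    simp [res]
  | bc _ ih =>
    intro h
    obtain ⟨h1, h2, h3⟩ := ih h
    have h4 := h1 (show (0 : ℕ) < 2 by omega)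
    have h5 := h2 (show (1 : ℕ) < 2 by omega)
    refine ⟨fun _ => h4, fun h => absurd h (lt_irrefl 1), ?_⟩
    rw [h3, h5]
    simp [res]

theorem Pt.readA {s w : List β} {q : SS β} {n m : ℕ} (h : Pt u b v c (.A []) w q n m) :
    Pt u b v c (.A s) (s ++ w) q n m := by
  induction s with
  | nil => exact h
  | cons x s ih => exact .rdA ih

theorem Pt.readB {s w : List β} {q : SS β} {n m : ℕ} (h : Pt u b v c (.B []) w q n m) :
    Pt u b v c (.B s) (s ++ w) q n m := by
  induction s with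
  | nil => exact h
  | cons x s ih => exact .rdB ih

theorem Pt.readC {s w : List β} {q : SS β} {n m : ℕ} (h : Pt u b v c (.C []) w q n m) :
    Pt u b v c (.C s) (s ++ w) q n m := by
  induction s with
  | nil => exact h
  | cons x s ih => exact .rdC ih

theorem Pt.full (a u b v c : List β) (n m : ℕ) : Pt u b v c (.A (a ++ u))
    (a ++ pw u (n + 1) ++ b ++ pw v (m + 1) ++ c) (.C []) n m := by
  have h1 : Pt u b v c (.C c) (c ++ []) (.C []) 0 0 := Pt.readC (Pt.nil _)
  rw [List.append_nil] at h1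
  have h2 : ∀ m : ℕ, Pt u b v c (.B []) (pw v m ++ c) (.C []) 0 m := by
    intro m
    induction m with
    | zero =>
      rw [pw_zero, List.nil_append]
      exact .bc h1
    | succ m ih =>
      rw [pw_succ, List.append_assoc]
      exact .lp2 (Pt.readB ih)
  have h3 : Pt u b v c (.A []) (b ++ pw v (m + 1) ++ c) (.C []) 0 m := by
    have h4 : Pt u b v c (.B (b ++ v)) ((b ++ v) ++ (pw v m ++ c)) (.C []) 0 m :=
      Pt.readB (h2 m)
    have h5 : b ++ pw v (m + 1) ++ c = (b ++ v) ++ (pw v m ++ c) := by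
      rw [pw_succ]
      simp
    rw [h5]
    exact .ab h4
  have h4 : ∀ n : ℕ, Pt u b v c (.A []) (pw u n ++ (b ++ pw v (m + 1) ++ c)) (.C []) n m := by
    intro n
    induction n with
    | zero =>
      rw [pw_zero, List.nil_append]
      exact h3
    | succ n ih =>
      rw [pw_succ, List.append_assoc]
      exact .lp1 (Pt.readA ih)
  have h5 : a ++ pw u (n + 1) ++ b ++ pw v (m + 1) ++ c =
      (a ++ u) ++ (pw u n ++ (b ++ pw v (m + 1) ++ c)) := by
    rw [pw_succ]
    simp
  rw [h5]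
  exact Pt.readA (h4 n)

theorem Pt.sound' {w : List β} {n m : ℕ} (h : Pt u b v c (.A (a ++ u)) w (.C []) n m) :
    w = a ++ pw u (n + 1) ++ b ++ pw v (m + 1) ++ c := by
  obtain ⟨-, -, h3⟩ := h.sound rfl
  rw [h3]
  simp [res, pw_succ]

/-- the finite set of the states that can occur -/
def Sg (a u b v c : List β) : Set (SS β) :=
  {q | match q with
    | .A s => s <:+ a ++ u
    | .B s => s <:+ b ++ v
    | .C s => s <:+ c}

theorem Sg_finite (a u b v c : List β) : (Sg a u b v c).Finite := by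
  have h : Sg a u b v c ⊆ SS.A '' {s | s ∈ (a ++ u).tails} ∪ (SS.B '' {s | s ∈ (b ++ v).tails} ∪
      SS.C '' {s | s ∈ c.tails}) := by
    rintro (s | s | s) hs
    · exact Or.inl ⟨s, (List.mem_tails _ _).2 hs, rfl⟩
    · exact Or.inr (Or.inl ⟨s, (List.mem_tails _ _).2 hs, rfl⟩)
    · exact Or.inr (Or.inr ⟨s, (List.mem_tails _ _).2 hs, rfl⟩)
  refine Set.Finite.subset ?_ h
  exact ((List.finite_toSet _).image _).union (((List.finite_toSet _).image _).union
    ((List.finite_toSet _).image _))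

theorem Pt.mem_Sg (a : List β) {q q' : SS β} {w : List β} {n m : ℕ}
    (h : Pt u b v c q w q' n m) : q ∈ Sg a u b v c → q' ∈ Sg a u b v c := by
  induction h with
  | nil q => exact id
  | @rdA x s w q n m _ ih => intro h; exact ih ((List.suffix_cons x s).trans h)
  | @rdB x s w q n m _ ih => intro h; exact ih ((List.suffix_cons x s).trans h)
  | @rdC x s w q n m _ ih => intro h; exact ih ((List.suffix_cons x s).trans h)
  | lp1 _ ih => intro _; exact ih (List.suffix_append a u)
  | lp2 _ ih => intro _; exact ih (List.suffix_append b v)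
  | ab _ ih => intro _; exact ih List.suffix_rfl
  | bc _ ih => intro _; exact ih List.suffix_rfl

end

/-! ### Trees -/

section

variable {V Θ β : Type} (g : Θ → Option β) {u b v c : List β}

/-- two nodes with the same annotation on a path -/
def Rep (u b v c : List β) (t : Tr V Θ) (q q' : SS β) (n m : ℕ) : Prop :=
  ∃ (C D : Cx V Θ) (s : Tr V Θ) (p p' : SS β) (n₀ m₀ r₁ r₁' n₂ m₂ r₂ r₂' n₄ m₄ : ℕ),
    t = C.plug (D.plug s) ∧ D ≠ .hole ∧ D.root s.root = s.root ∧
    Pt u b v c q (C.yl.filterMap g) p n₀ m₀ ∧ Pt u b v c p (D.yl.filterMap g) p r₁ r₁' ∧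
    Pt u b v c p (s.yd.filterMap g) p' n₂ m₂ ∧ Pt u b v c p' (D.yr.filterMap g) p' r₂ r₂' ∧
    Pt u b v c p' (C.yr.filterMap g) q' n₄ m₄ ∧
    n = n₀ + r₁ + n₂ + r₂ + n₄ ∧ m = m₀ + r₁' + m₂ + r₂' + m₄

/-- a node whose annotation is not in `S` -/
def Out (u b v c : List β) (S : Finset (V × SS β × SS β)) (t : Tr V Θ) (q q' : SS β)
    (n m : ℕ) : Prop :=
  ∃ (C : Cx V Θ) (s : Tr V Θ) (p p' : SS β) (n₀ m₀ n₁ m₁ n₂ m₂ : ℕ),
    t = C.plug s ∧ (s.root, p, p') ∉ S ∧
    Pt u b v c q (C.yl.filterMap g) p n₀ m₀ ∧ Pt u b v c p (s.yd.filterMap g) p' n₁ m₁ ∧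
    Pt u b v c p' (C.yr.filterMap g) q' n₂ m₂ ∧ n = n₀ + n₁ + n₂ ∧ m = m₀ + m₁ + m₂

open Classical in
theorem repeat_or_out (t : Tr V Θ) : ∀ (S : Finset (V × SS β × SS β)) (q q' : SS β) (n m : ℕ),
    Pt u b v c q (t.yd.filterMap g) q' n m → S.card ≤ t.ht →
    Rep g u b v c t q q' n m ∨ Out g u b v c S t q q' n m := by
  induction t with
  | lf A x =>
    intro S q q' n m h hS
    have h0 : S = ∅ := Finset.card_eq_zero.1 (Nat.le_zero.1 hS)
    right
    refine ⟨.hole, .lf A x, q, q', 0, 0, n, m, 0, 0, rfl, ?_, .nil _, h, .nil _,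
      by omega, by omega⟩
    rw [h0]
    exact Finset.notMem_empty _
  | nd A l r ihl ihr =>
    intro S q q' n m h hS
    by_cases hρ : (A, q, q') ∈ S
    · have hyd : ((Tr.nd A l r).yd.filterMap g) = l.yd.filterMap g ++ r.yd.filterMap g := by
        show (l.yd ++ r.yd).filterMap g = _
        rw [List.filterMap_append]
      obtain ⟨pm, n₁, m₁, n₂, m₂, hl, hr, hn, hm⟩ := h.split _ _ hyd
      have hcard : (S.erase (A, q, q')).card = S.card - 1 := Finset.card_erase_of_mem hρ
      have hht : (Tr.nd A l r).ht = max l.ht r.ht + 1 := rfl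
      rcases le_total r.ht l.ht with hlr | hlr
      · -- go to the left child
        rw [max_eq_left hlr] at hht
        rcases ihl (S.erase (A, q, q')) q pm n₁ m₁ hl (by omega) with h1 | h1
        · left
          obtain ⟨C, D, s, p, p', n₀, k₀, r₁, r₁', j₂, k₂, r₂, r₂', n₄, k₄, e0, e1, e2, e3, e4, e5,
            e6, e7, e8, e9⟩ := h1
          refine ⟨.lft A C r, D, s, p, p', n₀, k₀, r₁, r₁', j₂, k₂, r₂, r₂', n₄ + n₂, k₄ + m₂,
            by rw [e0]; rfl, e1, e2, e3, e4, e5, e6, ?_, by omega, by omega⟩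
          show Pt u b v c p' ((C.yr ++ r.yd).filterMap g) q' _ _
          rw [List.filterMap_append]
          exact e7.comp hr
        · obtain ⟨C, s, p, p', n₀, k₀, j₁, k₁, j₂, k₂, e0, e1, e2, e3, e4, e5, e6⟩ := h1
          have hyr : Pt u b v c p' (((Cx.lft A C r).yr).filterMap g) q' (j₂ + n₂) (k₂ + m₂) := by
            show Pt u b v c p' ((C.yr ++ r.yd).filterMap g) q' _ _
            rw [List.filterMap_append]
            exact e4.comp hr
          by_cases heq : (s.root, p, p') = (A, q, q')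
          · left
            rw [Prod.mk.injEq, Prod.mk.injEq] at heq
            obtain ⟨g1, rfl, rfl⟩ := heq
            refine ⟨.hole, .lft A C r, s, p, p', 0, 0, n₀, k₀, j₁, k₁, j₂ + n₂, k₂ + m₂, 0, 0,
              by rw [e0]; rfl, by simp, g1.symm, .nil _, e2, e3, hyr, .nil _, by omega, by omega⟩
          · right
            refine ⟨.lft A C r, s, p, p', n₀, k₀, j₁, k₁, j₂ + n₂, k₂ + m₂, by rw [e0]; rfl, ?_,
              e2, e3, hyr, by omega, by omega⟩
            intro h2
            exact e1 (Finset.mem_erase.2 ⟨heq, h2⟩)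
      · -- go to the right child
        rw [max_eq_right hlr] at hht
        rcases ihr (S.erase (A, q, q')) pm q' n₂ m₂ hr (by omega) with h1 | h1
        · left
          obtain ⟨C, D, s, p, p', n₀, k₀, r₁, r₁', j₂, k₂, r₂, r₂', n₄, k₄, e0, e1, e2, e3, e4, e5,
            e6, e7, e8, e9⟩ := h1
          refine ⟨.rgt A l C, D, s, p, p', n₁ + n₀, m₁ + k₀, r₁, r₁', j₂, k₂, r₂, r₂', n₄, k₄,
            by rw [e0]; rfl, e1, e2, ?_, e4, e5, e6, e7, by omega, by omega⟩
          show Pt u b v c q ((l.yd ++ C.yl).filterMap g) p _ _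
          rw [List.filterMap_append]
          exact hl.comp e3
        · obtain ⟨C, s, p, p', n₀, k₀, j₁, k₁, j₂, k₂, e0, e1, e2, e3, e4, e5, e6⟩ := h1
          have hyl : Pt u b v c q (((Cx.rgt A l C).yl).filterMap g) p (n₁ + n₀) (m₁ + k₀) := by
            show Pt u b v c q ((l.yd ++ C.yl).filterMap g) p _ _
            rw [List.filterMap_append]
            exact hl.comp e2
          by_cases heq : (s.root, p, p') = (A, q, q')
          · left
            rw [Prod.mk.injEq, Prod.mk.injEq] at heq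
            obtain ⟨g1, rfl, rfl⟩ := heq
            refine ⟨.hole, .rgt A l C, s, p, p', 0, 0, n₁ + n₀, m₁ + k₀, j₁, k₁, j₂, k₂, 0, 0,
              by rw [e0]; rfl, by simp, g1.symm, .nil _, hyl, e3, e4, .nil _, by omega, by omega⟩
          · right
            refine ⟨.rgt A l C, s, p, p', n₁ + n₀, m₁ + k₀, j₁, k₁, j₂, k₂, by rw [e0]; rfl, ?_,
              hyl, e3, e4, by omega, by omega⟩
            intro h2
            exact e1 (Finset.mem_erase.2 ⟨heq, h2⟩)
    · right
      refine ⟨.hole, .nd A l r, q, q', 0, 0, n, m, 0, 0, rfl, hρ, .nil _, h, .nil _,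
        by omega, by omega⟩

/-- pumping a context -/
theorem pump (G : Gr V Θ) (D : Cx V Θ) (s : Tr V Θ) (hD : D.ok G s.root) (hs : s.ok G)
    (hr : D.root s.root = s.root) (k : ℕ) : ∃ t : Tr V Θ, t.ok G ∧ t.root = s.root ∧
      t.yd = pw D.yl k ++ s.yd ++ pw D.yr k := by
  induction k with
  | zero => exact ⟨s, hs, rfl, by simp⟩
  | succ k ih =>
    obtain ⟨t, h1, h2, h3⟩ := ih
    refine ⟨D.plug t, (Cx.ok_plug G D t).2 ⟨by rw [h2]; exact hD, h1⟩, ?_, ?_⟩
    · rw [Cx.root_plug, h2, hr]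
    · rw [Cx.yd_plug, h3, pw_succ, pw_succ']
      simp

theorem filterMap_pw (w : List Θ) (k : ℕ) : (pw w k).filterMap g = pw (w.filterMap g) k := by
  induction k with
  | zero => simp
  | succ k ih => rw [pw_succ, pw_succ, List.filterMap_append, ih]

end

end X3

theorem proj_strict {Θ β : Type} (g : Θ → Option β) (H : Language Θ) (hH : CF H)
    (a u b v c : List β)
    (hs : StrictPair ({y | ∃ z ∈ H, z.filterMap g = y} : Language β) a u b v c) :
    ∃ x p y q z : List Θ, StrictPair H x p y q z := by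
  classical
  obtain ⟨V, iV, G, hG⟩ := hH
  -- `u` is not empty
  have hu : 0 < u.length := by
    by_contra h0
    have h1 : u = [] := List.length_eq_zero_iff.1 (by omega)
    have h2 := (hs 1 1).2 rfl
    rw [h1] at h2
    have h3 := (hs 0 1).1 (by
      rw [h1]
      simpa [pw] using h2)
    omega
  have hfin := X3.Sg_finite a u b v c
  let S : Finset (V × X3.SS β × X3.SS β) := Finset.univ ×ˢ (hfin.toFinset ×ˢ hfin.toFinset)
  let N : ℕ := 2 ^ S.card
  -- a tree of minimal size
  have hex : ∃ k : ℕ, ∃ t : Tr V Θ, t.ok G ∧ t.root = G.start ∧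
      t.yd.filterMap g = a ++ pw u (N + 1) ++ b ++ pw v (N + 1) ++ c ∧ t.size = k := by
    obtain ⟨z, hz, hz2⟩ := (hs (N + 1) (N + 1)).2 rfl
    rw [← hG] at hz
    obtain ⟨t, ht, hr, hy⟩ := hz
    exact ⟨t.size, t, ht, hr, by rw [hy]; exact hz2, rfl⟩
  obtain ⟨t, ht, hr, hy, hsz⟩ := Nat.find_spec hex
  have hmin : ∀ t' : Tr V Θ, t'.ok G → t'.root = G.start →
      t'.yd.filterMap g = a ++ pw u (N + 1) ++ b ++ pw v (N + 1) ++ c → t.size ≤ t'.size := by
    intro t' h1 h2 h3
    rw [hsz]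
    exact Nat.find_min' hex ⟨t', h1, h2, h3, rfl⟩
  have hht : S.card ≤ t.ht := by
    have h1 : N ≤ t.yd.length := by
      have h2 : (t.yd.filterMap g).length ≤ t.yd.length := List.length_filterMap_le g t.yd
      rw [hy] at h2
      simp only [List.length_append, length_pw] at h2
      have h3 : (N + 1) * 1 ≤ (N + 1) * u.length := Nat.mul_le_mul le_rfl hu
      omega
    have h2 := Tr.length_yd_le t
    exact (Nat.pow_le_pow_iff_right (by norm_num : 1 < 2)).1 (h1.trans h2)
  have hstart : X3.SS.A (a ++ u) ∈ X3.Sg a u b v c := by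
    show a ++ u <:+ a ++ u
    exact List.suffix_rfl
  have hpath : X3.Pt u b v c (.A (a ++ u)) (t.yd.filterMap g) (.C []) N N := by
    rw [hy]
    exact X3.Pt.full a u b v c N N
  rcases X3.repeat_or_out g t S _ _ N N hpath hht with hrep | hout
  · obtain ⟨C, D, s, p, p', n₀, m₀, r₁, r₁', n₂, m₂, r₂, r₂', n₄, m₄, e0, e1, e2, e3, e4, e5,
      e6, e7, e8, e9⟩ := hrep
    rw [e0, Cx.ok_plug, Cx.ok_plug] at ht
    obtain ⟨hC, hD, hsok⟩ := ht
    rw [Cx.root_plug, e2] at hC
    rw [e0, Cx.root_plug, Cx.root_plug, e2] at hr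
    -- the words of `H`
    have hmem : ∀ k : ℕ, C.yl ++ pw D.yl k ++ s.yd ++ pw D.yr k ++ C.yr ∈ H := by
      intro k
      obtain ⟨t', h1, h2, h3⟩ := X3.pump G D s hD hsok e2 k
      rw [← hG]
      refine ⟨C.plug t', (Cx.ok_plug G C t').2 ⟨by rw [h2]; exact hC, h1⟩, ?_, ?_⟩
      · rw [Cx.root_plug, h2, hr]
      · rw [Cx.yd_plug, h3]
        simp
    -- the equation for the counts
    have hcnt : ∀ k l : ℕ, C.yl ++ pw D.yl k ++ s.yd ++ pw D.yr l ++ C.yr ∈ H →
        n₀ + k * r₁ + n₂ + l * r₂ + n₄ = m₀ + k * r₁' + m₂ + l * r₂' + m₄ := by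
      intro k l hkl
      have h1 := (((e3.comp (e4.pow k)).comp e5).comp (e6.pow l)).comp e7
      have h2 := X3.Pt.sound' h1
      have h3 : (C.yl ++ pw D.yl k ++ s.yd ++ pw D.yr l ++ C.yr).filterMap g =
          C.yl.filterMap g ++ pw (D.yl.filterMap g) k ++ s.yd.filterMap g ++
            pw (D.yr.filterMap g) l ++ C.yr.filterMap g := by
        simp only [List.filterMap_append, X3.filterMap_pw]
      have h4 := (hs _ _).1 ⟨_, hkl, h3.trans h2⟩
      omega
    have q1 := hcnt 1 1 (hmem 1)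
    have q2 := hcnt 2 2 (hmem 2)
    have q3 : r₁ + r₂ = r₁' + r₂' := by omega
    have p12 : p.part ≤ p'.part := e5.part_le
    -- `P` is not in the second part
    have z1 : r₁' = 0 := by
      by_contra h0
      have h1 := e4.pos2 (by omega)
      have h2 : r₁ = 0 := by
        by_contra h3
        have := e4.pos1 (by omega)
        omega
      have h3 : r₂ = 0 := by
        by_contra h3
        have := e6.pos1 (by omega)
        omega
      omega
    have z2 : r₂ = 0 := by
      by_contra h0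
      have h1 := e6.pos1 (by omega)
      have h2 : r₂' = 0 := by
        by_contra h3
        have := e6.pos2 (by omega)
        omega
      omega
    have z3 : r₂' = r₁ := by omega
    -- the count is positive
    have z4 : 0 < r₁ := by
      by_contra h0
      have h1 : r₁ = 0 := by omega
      have h2 : D.yl.filterMap g = [] := by
        have h3 := e4.zero h1 z1 rfl
        have h4 : D.yl.filterMap g ++ p.rem = [] ++ p.rem := h3.symm
        exact List.append_cancel_right h4
      have h3 : D.yr.filterMap g = [] := by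
        have h3 := e6.zero z2 (z3.trans h1) rfl
        have h4 : D.yr.filterMap g ++ p'.rem = [] ++ p'.rem := h3.symm
        exact List.append_cancel_right h4
      have h4 := hmin (C.plug s) ((Cx.ok_plug G C s).2 ⟨hC, hsok⟩)
        (by rw [Cx.root_plug, hr]) (by
          rw [← hy, e0, Cx.yd_plug, Cx.yd_plug, Cx.yd_plug]
          simp only [List.filterMap_append]
          rw [h2, h3]
          simp)
      rw [e0, Cx.size_plug, Cx.size_plug, Cx.size_plug] at h4
      have h5 := Cx.size_pos e1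
      omega
    refine ⟨C.yl, D.yl, s.yd, D.yr, C.yr, ?_⟩
    intro k l
    constructor
    · intro hkl
      have q4 := hcnt k l hkl
      rw [z1, z2, z3] at q4
      rw [z1, z2, z3] at q1
      have q5 : k * r₁ = l * r₁ := by omega
      exact Nat.eq_of_mul_eq_mul_right z4 q5
    · rintro rfl
      exact hmem k
  · exfalso
    obtain ⟨C, s, p, p', n₀, m₀, n₁, m₁, n₂, m₂, e0, e1, e2, e3, e4, e5, e6⟩ := hout
    apply e1
    have h1 := e2.mem_Sg a hstart
    have h2 := e3.mem_Sg a h1
    exact Finset.mem_product.2 ⟨Finset.mem_univ _, Finset.mem_product.2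
      ⟨hfin.mem_toFinset.2 h1, hfin.mem_toFinset.2 h2⟩⟩

end NSI
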