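import Pool.Agent.Lib.NSI.CDefs
import Pool.Agent.Lib.NSI.KDefs

/-!
# Z01 : from a coded grammar to a grammar with finitely many nonterminals

Recipe.  `V = Fin (nt g)`, `start = 0`, rules by values; all nonterminals of the rules are `< nt g`.
Trees are translated in both directions by induction.
-/

set_option autoImplicit false

namespace NSI

theorem Z01_le_sum (l : List ℕ) (x : ℕ) (hx : x ∈ l) : x ≤ l.sum := by
  induction l with
  | nil => simp at hx
  | cons a l ih =>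
    rw [List.sum_cons]
    rcases List.mem_cons.1 hx with h | h
    · omega
    · have := ih h
      omega

theorem Z01_lt1 (g : GC) (a b c : ℕ) (h : (a, b, c) ∈ g.1) : a + b + c < nt g := by
  have h1 := Z01_le_sum (g.1.map (fun r => r.1 + r.2.1 + r.2.2)) (a + b + c)
    (List.mem_map.2 ⟨(a, b, c), h, rfl⟩)
  unfold nt
  omega

theorem Z01_lt2 (g : GC) (a : ℕ) (x : Option ℕ) (h : (a, x) ∈ g.2) : a < nt g := by
  have h1 := Z01_le_sum (g.2.map (fun r => r.1)) a (List.mem_map.2 ⟨(a, x), h, rfl⟩)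
  unfold nt
  omega

theorem Z01_pos (g : GC) : 0 < nt g := by
  unfold nt
  omega

/-- the decoded grammar -/
def Z01_gr {Γ : Type} (h : Γ → ℕ) (g : GC) : Gr (Fin (nt g)) Γ where
  start := ⟨0, Z01_pos g⟩
  bin := fun A B C => (A.1, B.1, C.1) ∈ g.1
  lf := fun A x => (A.1, x.map h) ∈ g.2

theorem Z01_fwd {Γ : Type} (h : Γ → ℕ) (g : GC) (t : Tr (Fin (nt g)) Γ) (ht : t.ok (Z01_gr h g)) :
    ∃ s : Tr ℕ ℕ, s.ok (GC.toGr g) ∧ s.root = t.root.1 ∧ s.yd = t.yd.map h := by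
  induction t with
  | lf A x => exact ⟨.lf A.1 (x.map h), ht, rfl, by cases x <;> simp [Tr.yd]⟩
  | nd A l r ihl ihr =>
    obtain ⟨l', hl1, hl2, hl3⟩ := ihl ht.2.1
    obtain ⟨r', hr1, hr2, hr3⟩ := ihr ht.2.2
    refine ⟨.nd A.1 l' r', ⟨?_, hl1, hr1⟩, rfl, by simp [Tr.yd, hl3, hr3]⟩
    have := ht.1
    show (A.1, l'.root, r'.root) ∈ g.1
    rw [hl2, hr2]
    exact this

theorem Z01_bwd {Γ : Type} (h : Γ → ℕ) (g : GC) (s : Tr ℕ ℕ) (hs : s.ok (GC.toGr g))
    (x : List Γ) (hx : s.yd = x.map h) :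
    ∃ t : Tr (Fin (nt g)) Γ, t.ok (Z01_gr h g) ∧ t.root.1 = s.root ∧ t.yd = x := by
  induction s generalizing x with
  | lf a y =>
    have ha : a < nt g := Z01_lt2 g a y hs
    cases y with
    | none =>
      simp only [Tr.yd, Option.toList_none] at hx
      have hx' : x = [] := by
        have := congrArg List.length hx
        simp at this
        exact List.length_eq_zero_iff.1 this.symm
      exact ⟨.lf ⟨a, ha⟩ none, hs, rfl, by simp [Tr.yd, hx']⟩
    | some c =>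
      simp only [Tr.yd, Option.toList_some] at hx
      match x, hx with
      | [b], hx =>
        simp only [List.map_cons, List.map_nil, List.cons.injEq, and_true] at hx
        refine ⟨.lf ⟨a, ha⟩ (some b), ?_, rfl, by simp [Tr.yd]⟩
        show (a, Option.map h (some b)) ∈ g.2
        rw [Option.map_some, ← hx]
        exact hs
  | nd a l r ihl ihr =>
    obtain ⟨h1, h2, h3⟩ := hs
    simp only [Tr.yd] at hx
    obtain ⟨x1, x2, hx1, hx2, hx3⟩ := List.map_eq_append_iff.1 hx.symm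
    obtain ⟨l', hl1, hl2, hl3⟩ := ihl h2 x1 hx2.symm
    obtain ⟨r', hr1, hr2, hr3⟩ := ihr h3 x2 hx3.symm
    have ha : a < nt g := by
      have := Z01_lt1 g _ _ _ h1
      omega
    refine ⟨.nd ⟨a, ha⟩ l' r', ⟨?_, hl1, hr1⟩, rfl, by simp [Tr.yd, hl3, hr3, hx1]⟩
    show (a, l'.root.1, r'.root.1) ∈ g.1
    rw [hl2, hr2]
    exact h1

theorem decode_grammar {Γ : Type} (h : Γ → ℕ) (hh : Function.Injective h) (g : GC)
    (hr : ∀ z ∈ g.lang, ∃ x : List Γ, z = x.map h) :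
    ∃ G : Gr (Fin (nt g)) Γ, ∀ x : List Γ, x ∈ G.lang ↔ x.map h ∈ g.lang := by
  refine ⟨Z01_gr h g, fun x => ⟨?_, ?_⟩⟩
  · rintro ⟨t, ht1, ht2, ht3⟩
    obtain ⟨s, hs1, hs2, hs3⟩ := Z01_fwd h g t ht1
    refine ⟨s, hs1, ?_, by rw [hs3, ht3]⟩
    rw [hs2, ht2]
    rfl
  · rintro ⟨s, hs1, hs2, hs3⟩
    obtain ⟨t, ht1, ht2, ht3⟩ := Z01_bwd h g s hs1 x hs3
    refine ⟨t, ht1, ?_, ht3⟩
    apply Fin.ext
    rw [ht2, hs2]
    rfl

end NSI
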