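import Pool.Agent.Lib.NSI.X2
import Pool.Agent.Lib.NSI.X3
import Pool.Agent.Lib.NSI.C01
import Pool.Agent.Lib.NSI.C02
import Pool.Agent.Lib.NSI.C09
import Pool.Agent.Lib.NSI.Z01

/-!
# X4 : Nsi is a rational cone (the transfer theorem of Boasson)

Recipe.  Codings `f, h` of the alphabets (`Fintype.equivFin`), coded transducer `σ` (`transducer_code`),
`A = {x.map f : x ∈ L}`, which is `CF` (C01 gives a coded grammar, `decode_grammar` with `Γ = ℕ`, `h = id`, or
directly).  `B = {y | ∃ z ∈ Hl σ A, out(z) = y} = {y.map h : y ∈ τ.image L}` (`H_rel`, `TRel_range`).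
`CF B` (`CF_H`, `CF_proj`); pull back along `h` to `CF (τ.image L)`: `CF_proj` with a partial inverse of
`h`; `CF.isContextFree`.  A strict pair of `τ.image L` gives a strict pair of `B` (map `h`: words over the
range), then `proj_strict`, `H_strict`: a strict pair of `A`; its words for `n = m` are in `A` so all
five words are over the range of `f` (take `n = 1`), pull back to `L`.
-/

set_option autoImplicit false

namespace NSI


private theorem X4_map_pw {α β : Type} (f : α → β) (u : List α) (n : ℕ) :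
    (pw u n).map f = pw (u.map f) n := by
  induction n with
  | zero => simp
  | succ n ih => rw [pw_succ, pw_succ, List.map_append, ih]

private theorem X4_strict_map {α β : Type} (f : α → β) (hf : Function.Injective f) (L : Language α)
    (a u b v c : List α) :
    StrictPair ({z | ∃ x ∈ L, z = x.map f} : Language β) (a.map f) (u.map f) (b.map f) (v.map f)
      (c.map f) ↔ StrictPair L a u b v c := by
  have key : ∀ n m : ℕ, (a.map f ++ pw (u.map f) n ++ b.map f ++ pw (v.map f) m ++ c.map f ∈
      ({z | ∃ x ∈ L, z = x.map f} : Language β)) ↔ a ++ pw u n ++ b ++ pw v m ++ c ∈ L := by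
    intro n m
    have e : a.map f ++ pw (u.map f) n ++ b.map f ++ pw (v.map f) m ++ c.map f =
        (a ++ pw u n ++ b ++ pw v m ++ c).map f := by
      simp only [List.map_append, X4_map_pw]
    rw [e]
    constructor
    · rintro ⟨x, hx, h⟩
      rwa [hf.list_map h]
    · intro h
      exact ⟨_, h, rfl⟩
  constructor
  · intro h n m
    exact (key n m).symm.trans (h n m)
  · intro h n m
    exact (key n m).trans (h n m)

theorem nsi_cone : IsCone (fun _ _ L => Nsi L) := by
  classical
  intro α β _ _ L τ hL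
  obtain ⟨f, hf⟩ : ∃ f : α → ℕ, Function.Injective f :=
    ⟨fun x => (Fintype.equivFin α x : ℕ), fun x y h =>
      (Fintype.equivFin α).injective (Fin.ext h)⟩
  obtain ⟨h, hh⟩ : ∃ h : β → ℕ, Function.Injective h :=
    ⟨fun x => (Fintype.equivFin β x : ℕ), fun x y h =>
      (Fintype.equivFin β).injective (Fin.ext h)⟩
  obtain ⟨σ, hσ, hτ⟩ := transducer_code f h hf hh τ
  obtain ⟨g, hg⟩ := cfg_to_code f hf L hL.1
  set A : Language ℕ := {z | ∃ x ∈ L, z = x.map f} with hA
  have hCA : CF A := by
    obtain ⟨G, hG⟩ := decode_grammar (fun n : ℕ => n) (fun _ _ h => h) g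
      (fun z _ => ⟨z, by simp⟩)
    refine ⟨Fin (nt g), inferInstance, G, ?_⟩
    ext x
    have h1 : x.map (fun n : ℕ => n) = x := List.map_id' x
    rw [hG x, h1, hg]
  set B : Language ℕ := {y | ∃ z ∈ Hl σ A, z.filterMap outL = y} with hB
  have hCB : CF B := CF_proj outL (Hl σ A) (CF_H σ A hCA)
  have hBimg : B = {z | ∃ x ∈ τ.image L, z = x.map h} := by
    ext y
    constructor
    · intro hy
      obtain ⟨x, ⟨x', hx', rfl⟩, hxy⟩ := (H_rel σ A y).2 hy
      obtain ⟨y', rfl⟩ := TRel_range f h σ hσ _ _ hxy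
      exact ⟨y', ⟨x', hx', (hτ x' y').1 hxy⟩, rfl⟩
    · rintro ⟨y', ⟨x', hx', hrel⟩, rfl⟩
      exact (H_rel σ A _).1 ⟨x'.map f, ⟨x', hx', rfl⟩, (hτ x' y').2 hrel⟩
  refine ⟨?_, ?_⟩
  · -- pull back along h
    apply CF.isContextFree
    let k : ℕ → Option β := fun n => if hn : ∃ b, h b = n then some hn.choose else none
    have hk : ∀ b, k (h b) = some b := by
      intro b
      have hn : ∃ b', h b' = h b := ⟨b, rfl⟩
      simp only [k, dif_pos hn, Option.some.injEq]
      exact hh hn.choose_spec
    have hfm : ∀ y : List β, (y.map h).filterMap k = y := by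
      intro y
      induction y with
      | nil => rfl
      | cons b y ih => rw [List.map_cons, List.filterMap_cons_some (hk b), ih]
    have hset : τ.image L = {y | ∃ z ∈ B, z.filterMap k = y} := by
      ext y
      constructor
      · intro hy
        exact ⟨y.map h, by rw [hBimg]; exact ⟨y, hy, rfl⟩, hfm y⟩
      · rintro ⟨z, hz, rfl⟩
        rw [hBimg] at hz
        obtain ⟨y, hy, rfl⟩ := hz
        rwa [hfm y]
    rw [hset]
    exact CF_proj k B hCB
  · rintro ⟨a, u, b, v, c, -, hst⟩
    have h1 : StrictPair B (a.map h) (u.map h) (b.map h) (v.map h) (c.map h) := by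
      rw [hBimg]
      exact (X4_strict_map h hh (τ.image L) a u b v c).2 hst
    obtain ⟨x, p, y, q, z, h2⟩ := proj_strict outL (Hl σ A) (CF_H σ A hCA) _ _ _ _ _ h1
    have h3 := H_strict σ A x p y q z h2
    have h4 := (h3 1 1).2 rfl
    rw [pw_one, pw_one] at h4
    obtain ⟨w, -, hw⟩ := h4
    obtain ⟨w1, c', hw1, h5, h6⟩ := List.map_eq_append_iff.1 hw.symm
    obtain ⟨w2, v', hw2, h7, h8⟩ := List.map_eq_append_iff.1 h5
    obtain ⟨w3, b', hw3, h9, h10⟩ := List.map_eq_append_iff.1 h7
    obtain ⟨a', u', hw4, h11, h12⟩ := List.map_eq_append_iff.1 h9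
    rw [← h6, ← h8, ← h10, ← h11, ← h12] at h3
    have h13 : StrictPair L a' u' b' v' c' := (X4_strict_map f hf L a' u' b' v' c').1 h3
    exact hL.2 ⟨a', u', b', v', c', fun n => (h13 n n).2 rfl, h13⟩

end NSI
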