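import Pool.Agent.Lib.NSI.C05
import Pool.Agent.Lib.NSI.C06
import Pool.Agent.Lib.NSI.C07
import Pool.Agent.Lib.NSI.C08
import Pool.Agent.Lib.NSI.C09

/-!
# Z02 : the agreement relation is primitive recursive

Recipe.  `mem_primrec`, `tri_primrec`, `nt_primrec`, `words_primrec`, `PrimrecRel.forall_mem_list`,
Boolean combinations (`PrimrecPred.and`, `.or`, `.not`).  `takeWhile`: `Primrec.list_takeWhile`.
`TCok` for codings with range `{0, ..., k-1}`, `{0, ..., c-1}` is `∀ t ∈ τ, ...`.
-/

set_option autoImplicit false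

namespace NSI

/-- the transitions only use letters `< k` (input) and `< c` (output) -/
def TCb (k c : ℕ) (τ : TC) : Prop :=
  ∀ t ∈ τ, (∀ x, t.2.1 = some x → x < k) ∧ (∀ y, t.2.2.1 = some y → y < c)

/-- a bound for an optional letter -/
private theorem Z02_opt (k : ℕ) :
    PrimrecPred (fun o : Option ℕ => ∀ x, o = some x → x < k) := by
  have h1 : PrimrecPred (fun o : Option ℕ => o.isSome = false ∨ o.getD 0 < k) :=
    (Primrec.eq.comp Primrec.option_isSome (Primrec.const false)).or
      (Primrec.nat_lt.comp (Primrec.option_getD.comp Primrec.id (Primrec.const 0))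
        (Primrec.const k))
  refine h1.of_eq fun o => ?_
  cases o with
  | none => simp
  | some x => simp

private theorem Z02_TCb (k c : ℕ) : PrimrecPred (fun τ : TC => TCb k c τ) := by
  have h1 : PrimrecPred (fun t : ℕ × Option ℕ × Option ℕ × ℕ =>
      (∀ x, t.2.1 = some x → x < k) ∧ (∀ y, t.2.2.1 = some y → y < c)) := by
    refine PrimrecPred.and ?_ ?_
    · exact (Z02_opt k).comp (Primrec.fst.comp Primrec.snd)
    · exact (Z02_opt c).comp (Primrec.fst.comp (Primrec.snd.comp Primrec.snd))
  exact h1.forall_mem_list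

private theorem Z02_len (o : ℕ) :
    Primrec (fun z : List ℕ => (z.tail.takeWhile (fun x => decide (x = o))).length) := by
  have h1 : Primrec (fun x : ℕ => decide (x = o)) :=
    (Primrec.eq.comp Primrec.id (Primrec.const o)).decide
  exact Primrec.list_length.comp ((Primrec.list_takeWhile h1).comp Primrec.list_tail)

theorem agree_primrec (g ka : GC) (k c o : ℕ) (b : ℕ → ℕ) (hb : Primrec b) :
    PrimrecRel (fun (τ : TC) (E : ℕ) => TCb k c τ ∧ ∀ z ∈ words c (b (nt (tri g τ) + E)),
      (z ∈ (tri g τ).lang ↔ (z ∈ ka.lang ∧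
        (z.tail.takeWhile (fun x => decide (x = o))).length = E))) := by
  -- the two sides of the equivalence
  have hA : PrimrecRel (fun (z : List ℕ) (p : TC × ℕ) => z ∈ (tri g p.1).lang) :=
    mem_primrec.comp ((tri_primrec g).comp (Primrec.fst.comp Primrec.snd)) Primrec.fst
  have hB1 : PrimrecRel (fun (z : List ℕ) (_ : TC × ℕ) => z ∈ ka.lang) :=
    mem_primrec.comp (Primrec.const ka) Primrec.fst
  have hB2 : PrimrecRel (fun (z : List ℕ) (p : TC × ℕ) =>
      (z.tail.takeWhile (fun x => decide (x = o))).length = p.2) :=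
    Primrec.eq.comp ((Z02_len o).comp Primrec.fst) (Primrec.snd.comp Primrec.snd)
  have hB : PrimrecRel (fun (z : List ℕ) (p : TC × ℕ) => z ∈ ka.lang ∧
      (z.tail.takeWhile (fun x => decide (x = o))).length = p.2) := PrimrecPred.and hB1 hB2
  have hR : PrimrecRel (fun (z : List ℕ) (p : TC × ℕ) =>
      (z ∈ (tri g p.1).lang ↔ (z ∈ ka.lang ∧
        (z.tail.takeWhile (fun x => decide (x = o))).length = p.2))) := by
    refine ((PrimrecPred.and hA hB).or (PrimrecPred.and (PrimrecPred.not hA)
      (PrimrecPred.not hB))).of_eq fun q => ?_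
    tauto
  have hall := hR.forall_mem_list
  have hw : Primrec (fun p : TC × ℕ => words c (b (nt (tri g p.1) + p.2))) :=
    (words_primrec c).comp (hb.comp (Primrec.nat_add.comp
      (nt_primrec.comp ((tri_primrec g).comp Primrec.fst)) Primrec.snd))
  exact PrimrecPred.and ((Z02_TCb k c).comp Primrec.fst) (hall.comp hw Primrec.id)

end NSI
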