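import Pool.Agent.Lib.NSI.L18
import Pool.Agent.Lib.NSI.K07
import Pool.Agent.Lib.NSI.K13
import Pool.Agent.Lib.NSI.C01
import Pool.Agent.Lib.NSI.C02
import Pool.Agent.Lib.NSI.M04
import Pool.Agent.Lib.NSI.Z01
import Pool.Agent.Lib.NSI.Z02

/-!
# Z03 : Nsi is not principal

Recipe.  Suppose `Principal`, with `U` over `α`.  `machine1`: `𝓜, E`.  Codings `f : α → ℕ`,
`h : Lt Q → ℕ` from `Fintype.equivFin` (ranges `{0..k-1}`, `{0..c-1}`); `Lt Q` needs a `Fintype`
instance (give one, e.g. via an equivalence or `Fintype.ofInjective`).  `gU` = code of `U` (C01),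
`ka` = code of `Kall` (`CF_Kall`, C03), `b` = bound of `main`, `o = h one`.
`P τ e` := the relation of Z02.  Claim: `(∃ τ, P τ (E x)) ↔ ¬ 𝓜.Halts (E x)`; with `re_exists` and
`agree_primrec` this contradicts `machine1`.
(←) `K 𝓜 (E x)` is in `Nsi` (`CF_K`, C02, `K_no_strict`), so it is `τ.image U`; `transducer_code`;
`tri_lang`; the languages agree on all words over `{0..c-1}`; `K_first`.
(→) if it halts: `code_transducer` gives `τ'` with `τ'.image U ∈ Nsi`; `decode_grammar` for `tri gU τ`
(`TRel_range`) gives `G` with `G.lang = τ'.image U`; `Sit` with `s = nt (tri gU τ) + E x`;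
`main` contradicts `NoStrict`.
-/

set_option autoImplicit false

namespace NSI

namespace Z03

theorem finite_Lt (Q : ℕ) : Finite (Lt Q) := by
  let f : Lt Q → (Fin Q × Bool) ⊕ (Fin Q × Bool) ⊕ Fin 5 := fun x => match x with
    | .row q π => .inl (q, π)
    | .row' q π => .inr (.inl (q, π))
    | .one => .inr (.inr 0)
    | .a => .inr (.inr 1)
    | .mid => .inr (.inr 2)
    | .b => .inr (.inr 3)
    | .one' => .inr (.inr 4)
  refine Finite.of_injective f ?_
  intro x y h
  cases x <;> cases y <;> simp_all [f]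

/-- the coding of a finite alphabet by `0, ..., k - 1` -/
noncomputable def code (α : Type) [Fintype α] (x : α) : ℕ := (Fintype.equivFin α x : ℕ)

theorem code_inj (α : Type) [Fintype α] : Function.Injective (code α) := by
  intro x y h
  exact (Fintype.equivFin α).injective (Fin.ext h)

theorem code_lt (α : Type) [Fintype α] (x : α) : code α x < Fintype.card α :=
  (Fintype.equivFin α x).2

theorem mem_range_code (α : Type) [Fintype α] (n : ℕ) :
    n ∈ Set.range (code α) ↔ n < Fintype.card α := by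
  constructor
  · rintro ⟨x, rfl⟩
    exact code_lt α x
  · intro h
    exact ⟨(Fintype.equivFin α).symm ⟨n, h⟩, by simp [code]⟩

theorem exists_map (α : Type) [Fintype α] (z : List ℕ) (h : ∀ x ∈ z, x < Fintype.card α) :
    ∃ y : List α, z = y.map (code α) := by
  induction z with
  | nil => exact ⟨[], rfl⟩
  | cons a z ih =>
    obtain ⟨y, hy⟩ := ih (fun x hx => h x (List.mem_cons_of_mem _ hx))
    obtain ⟨b, hb⟩ := (mem_range_code α a).2 (h a List.mem_cons_self)
    exact ⟨b :: y, by rw [List.map_cons, hb, ← hy]⟩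

theorem TCok_iff {α β : Type} [Fintype α] [Fintype β] (τ : TC) :
    TCok (code α) (code β) τ ↔ TCb (Fintype.card α) (Fintype.card β) τ := by
  unfold TCok TCb
  simp only [mem_range_code]

theorem first_map {Q : ℕ} [Fintype (Lt Q)] (y : List (Lt Q)) :
    ((y.map (code (Lt Q))).tail.takeWhile
      (fun x => decide (x = code (Lt Q) Lt.one))).length = first y := by
  unfold first
  rw [← List.map_tail, List.takeWhile_map, List.length_map]
  congr 2
  funext x
  have h : code (Lt Q) x = code (Lt Q) Lt.one ↔ x = Lt.one := (code_inj (Lt Q)).eq_iff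
  simp only [Function.comp, h]

end Z03

theorem nsi_not_principal : ¬ Principal NsiFamily := by
  rintro ⟨α, iα, U, hU, hP⟩
  obtain ⟨𝓜, E, hE, hnot⟩ := machine1
  have : Finite (Lt 𝓜.Q) := Z03.finite_Lt 𝓜.Q
  letI iΓ : Fintype (Lt 𝓜.Q) := Fintype.ofFinite _
  let f : α → ℕ := Z03.code α
  let h : Lt 𝓜.Q → ℕ := Z03.code (Lt 𝓜.Q)
  have hf : Function.Injective f := Z03.code_inj α
  have hh : Function.Injective h := Z03.code_inj (Lt 𝓜.Q)
  obtain ⟨gU, hgU⟩ := cfg_to_code f hf U hU.1
  obtain ⟨ka, hka⟩ := (CF_Kall 𝓜).code h hh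
  obtain ⟨b, hb, -, hmain⟩ := main 𝓜
  have hagree := agree_primrec gU ka (Fintype.card α) (Fintype.card (Lt 𝓜.Q)) (h Lt.one) b hb
  -- the language of the triple construction
  have htri : ∀ (τ : TC) (τ' : Transducer α (Lt 𝓜.Q)),
      (∀ (x : List α) (y : List (Lt 𝓜.Q)), TRel τ (x.map f) (y.map h) ↔ τ'.Rel x y) →
      ∀ y : List (Lt 𝓜.Q), y.map h ∈ (tri gU τ).lang ↔ y ∈ τ'.image U := by
    intro τ τ' hττ y
    rw [tri_lang]
    constructor
    · rintro ⟨u, hu, hr⟩
      rw [hgU] at hu
      obtain ⟨x, hx, rfl⟩ := hu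
      exact ⟨x, hx, (hττ x y).1 hr⟩
    · rintro ⟨x, hx, hr⟩
      refine ⟨x.map f, ?_, (hττ x y).2 hr⟩
      rw [hgU]
      exact ⟨x, hx, rfl⟩
  -- the right-hand side of the agreement relation
  have hright : ∀ (E0 : ℕ) (y : List (Lt 𝓜.Q)), (y.map h ∈ ka.lang ∧
      ((y.map h).tail.takeWhile (fun x => decide (x = h Lt.one))).length = E0) ↔
      y ∈ K 𝓜 E0 := by
    intro E0 y
    rw [K_first, Z03.first_map, hka]
    refine and_congr ?_ Iff.rfl
    constructor
    · rintro ⟨x, hx, hxy⟩
      rw [List.map_injective_iff.2 hh hxy]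
      exact hx
    · intro hy
      exact ⟨y, hy, rfl⟩
  have hclaim : ∀ x : ℕ, (∃ τ : TC, TCb (Fintype.card α) (Fintype.card (Lt 𝓜.Q)) τ ∧
      ∀ z ∈ words (Fintype.card (Lt 𝓜.Q)) (b (nt (tri gU τ) + E x)),
      (z ∈ (tri gU τ).lang ↔ (z ∈ ka.lang ∧
        (z.tail.takeWhile (fun x => decide (x = h Lt.one))).length = E x))) ↔
      ¬ 𝓜.Halts (E x) := by
    intro x
    constructor
    · rintro ⟨τ, hτ, hag⟩ hhalt
      have hok : TCok f h τ := (Z03.TCok_iff τ).2 hτ
      obtain ⟨τ', hττ⟩ := code_transducer f h hf hh τ hok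
      have hnsi : Nsi (τ'.image U) := (hP (Lt 𝓜.Q) iΓ (τ'.image U)).2 ⟨τ', rfl⟩
      obtain ⟨G, hG⟩ := decode_grammar h hh (tri gU τ) (by
        intro z hz
        obtain ⟨u, -, hr⟩ := (tri_lang gU τ z).1 hz
        exact TRel_range f h τ hok u z hr)
      have hGl : G.lang = τ'.image U := by
        ext y
        rw [hG, htri τ τ' hττ]
      let σ : Sit 𝓜 (nt (tri gU τ) + E x) (b (nt (tri gU τ) + E x)) :=
        { V := Fin (nt (tri gU τ))
          fin := inferInstance
          dec := inferInstance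
          G := G
          E := E x
          hV := by
            rw [Fintype.card_fin]
            omega
          hE := by omega
          agree := by
            intro y hy
            rw [hG, ← hright (E x) y]
            refine hag _ ((mem_words _ _ _).2 ⟨?_, ?_⟩)
            · rw [List.length_map]
              exact hy
            · intro n hn
              obtain ⟨a, -, rfl⟩ := List.mem_map.1 hn
              exact Z03.code_lt (Lt 𝓜.Q) a }
      refine hmain _ σ hhalt ?_
      show NoStrict G.lang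
      rw [hGl]
      exact hnsi.2
    · intro hnh
      have hK : Nsi (K 𝓜 (E x)) := ⟨(CF_K 𝓜 (E x)).isContextFree, K_no_strict 𝓜 (E x) hnh⟩
      obtain ⟨τ', hτ'⟩ := (hP (Lt 𝓜.Q) iΓ (K 𝓜 (E x))).1 hK
      obtain ⟨τ, hτ, hττ⟩ := transducer_code f h hf hh τ'
      refine ⟨τ, (Z03.TCok_iff τ).1 hτ, ?_⟩
      intro z hz
      obtain ⟨y, rfl⟩ := Z03.exists_map (Lt 𝓜.Q) z ((mem_words _ _ _).1 hz).2
      have h1 := htri τ τ' hττ y
      rw [← hτ'] at h1
      exact h1.trans (hright (E x) y).symm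
  apply hnot
  have hre := re_exists _ hagree E hE
  have heq : (fun x : ℕ => ∃ τ : TC, TCb (Fintype.card α) (Fintype.card (Lt 𝓜.Q)) τ ∧
      ∀ z ∈ words (Fintype.card (Lt 𝓜.Q)) (b (nt (tri gU τ) + E x)),
      (z ∈ (tri gU τ).lang ↔ (z ∈ ka.lang ∧
        (z.tail.takeWhile (fun x => decide (x = h Lt.one))).length = E x))) =
      fun x => ¬ 𝓜.Halts (E x) := by
    funext x
    exact propext (hclaim x)
  rw [← heq]
  exact hre

end NSI
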